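import Pool.Agent.MP_35cb46_co.fl.BSpec

/-! PROJECT FL: the ascent and the game. -/

noncomputable section

namespace Pool.Agent.MP_35cb46_co.Fl

open Finset Pool.Agent.MP_7be75d_co Pool.Agent.MP_35cb46_co.Sq Pool.Agent.MP_35cb46_co.Nl
open scoped Classical

section Defs

variable {V α : Type}

/-- The size of a chunk. -/
def cd (a b : ℕ) : ℕ := a / b + 1

/-- Lanes in flight: strands from `st a` through `Fl` to `ps a`. -/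
structure Fly (G : SimpleGraph V) (Fl : Finset V) (Lv : Finset α) (st ps : α → V)
    (P : α → Finset V) : Prop where
  conn : ∀ a ∈ Lv, Conn G (P a) ∧ st a ∈ P a ∧ ps a ∈ P a ∧ P a ⊆ insert (st a) Fl
  disj : ∀ a ∈ Lv, ∀ b ∈ Lv, a ≠ b → Disjoint (P a) (P b)

/-- The poor region, the pairs (hub region, docked set), the parameters of poorness. -/
structure PC (V : Type) where
  RC : Finset V
  Dk : Finset V → Finset V → Prop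
  (n thr z : ℕ)

/-- The region is poor. -/
def PC.Ok (G : SimpleGraph V) (p : PC V) : Prop := ∀ H E H' E', p.Dk H E → p.Dk H' E' →
  Disjoint H H' → Poor G (p.RC \ (H ∪ H')) E E' p.n p.thr p.z

/-- The sets `O c` are exits of a docked layer inside `Z`. -/
def Cert (G : SimpleGraph V) (p : PC V) (Z : Finset V) (J : Finset ℕ) (O : ℕ → Finset V) : Prop :=
  p.thr = 0 ∨ ∃ (R : Finset V) (A I : ℕ → Finset V) (H E : Finset V), Lay G R J A I O ∧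
    R ⊆ p.RC ∧ R ⊆ Z ∧ H ⊆ Z ∧ Disjoint R H ∧ p.Dk H E ∧ J.card ≤ p.n ∧
    ∀ c ∈ J, I c ⊆ E ∧ (O c).card ≤ (I c).card

/-- The fixed data of a chain: roots, quality, degree, parity, hosts, colours, budgets. -/
structure CX (V : Type) where
  Rt : Finset V
  (K g b nH r T ν E f F : ℕ)

/-- The lanes (host, colour, index). -/
def CX.lanes (x : CX V) : Finset (ℕ × ℕ × ℕ) := range x.nH ×ˢ range x.T ×ˢ range x.ν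

/-- The state of a chain: web, tag and cells of the last resting layer, regions. -/
structure ST (V : Type) where
  W : WD V (ℕ × ℕ)
  l : ℕ
  Jo : Finset ℕ
  Oo : ℕ → Finset V
  (Past Fl : Finset V)

/-- The static part of a state. -/
structure Org (G : SimpleGraph V) (p : PC V) (x : CX V) (s : ST V) : Prop where
  web : Web G s.Past x.Rt x.K x.g (p.thr + 1) s.W
  cert : Cert G p s.Past s.Jo s.Oo
  port : ∀ c ∈ s.Jo, (s.l, c) ∈ s.W.J ∧ s.Oo c ⊆ s.W.Pt (s.l, c) ∧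
    Disjoint (s.Oo c) (s.W.Om ∪ s.W.Ro)
  disj : Disjoint s.Past s.Fl
  sub : s.Fl ⊆ p.RC
  tag : ∀ i ∈ s.W.J, i.1 ≤ s.l ∧ i.1 % 2 = x.b
  par : s.l % 2 = x.b
  host : ∀ i < x.nH, (x.b, i) ∈ s.W.J ∧ x.r ≤ (s.W.Ro ∩ s.W.Pt (x.b, i)).card
  ro : s.W.Ro ⊆ s.Past

/-- The live lanes; a lane whose host and resting cell are split by a cut owns a cut wire. -/
structure Flight (G : SimpleGraph V) (x : CX V) (s : ST V) (Lv : Finset (ℕ × ℕ × ℕ))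
    (st ps : ℕ × ℕ × ℕ → V) (oc : ℕ × ℕ × ℕ → ℕ) (P : ℕ × ℕ × ℕ → Finset V) : Prop where
  sub : Lv ⊆ x.lanes
  fly : Fly G s.Fl Lv st ps P
  org : ∀ a ∈ Lv, oc a ∈ s.Jo ∧ st a ∈ s.Oo (oc a)
  cut : ∀ S : Finset (ℕ × ℕ), (Lv.filter fun a => ¬ ((x.b, a.1) ∈ S ↔ (s.l, oc a) ∈ S)).card ≤
    cw s.W.mu (s.W.J ∩ S) (s.W.J \ S)

/-- The lanes can be sent to any exits of their coloured cells. -/
structure Rdy (G : SimpleGraph V) (p : PC V) (x : CX V) (s : ST V) (J : Finset ℕ)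
    (Ex : ℕ → Finset V) (cs q : ℕ → ℕ) (l : ℕ) : Prop where
  org : Org G p x s
  col : ∀ k, cs k < x.T
  disj : ∀ k ∈ J, ∀ k' ∈ J, k ≠ k' → Disjoint (Ex k) (Ex k')
  go : ∀ O : ℕ → Finset V, (∀ k ∈ J, O k ⊆ Ex k) → ∃ Lv st ps oc P, ∃ sk : ℕ × ℕ × ℕ → ℕ,
    Flight G x s Lv st ps oc P ∧ (∀ a ∈ Lv, sk a ∈ J ∧ ps a ∈ O (sk a) ∧ cs (sk a) = a.2.1) ∧
    x.lanes.card ≤ Lv.card + l + ∑ k ∈ J, (cd (q k) (x.E * x.T) - (O k).card)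

/-- The lanes wait at entries of coloured cells. -/
structure Wait (G : SimpleGraph V) (p : PC V) (x : CX V) (s : ST V) (J : Finset ℕ)
    (I : ℕ → Finset V) (cs q : ℕ → ℕ) (l : ℕ) : Prop where
  org : Org G p x s
  col : ∀ k, cs k < x.T
  go : ∃ Lv st ps oc P, ∃ (en : ℕ × ℕ × ℕ → V) (y : ℕ × ℕ × ℕ → ℕ),
    Flight G x s Lv st ps oc P ∧ Set.InjOn en Lv ∧
    (∀ a ∈ Lv, y a ∈ J ∧ en a ∈ I (y a) ∧ G.Adj (ps a) (en a) ∧ cs (y a) = a.2.1) ∧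
    (∀ c, cnt Lv y c ≤ cd (q c) (x.E * x.T)) ∧ x.lanes.card ≤ Lv.card + l

/-- The degrees of the senders. -/
structure Dgs (x : CX V) (J : Finset ℕ) (Ex : ℕ → Finset V) (q : ℕ → ℕ) (e : ℕ) : Prop where
  le : ∀ k ∈ J, q k ≤ (Ex k).card ∧ q k ≤ e
  sum : ∑ k ∈ J, q k ≤ x.f
  card : J.card * e ≤ x.F

/-- The budgets: `F ≤ Φ f`, `Z` dominates the constants, `δ` bounds the loss of one step. -/
structure Bud (p : PC V) (x : CX V) (Φ Θ Z δ : ℕ) : Prop where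
  e2 : 2 ≤ x.E
  t1 : 1 ≤ x.T
  f1 : 1 ≤ x.f
  ff : x.f ≤ x.F
  phi : x.F ≤ Φ * x.f
  th : Φ * x.E ^ 3 * x.T ≤ Θ
  z1 : 8 * Φ ^ 2 * x.E ^ 4 * x.T ≤ Z
  z2 : 8 * Θ ≤ Z
  dl : 8 * x.f ≤ x.E ^ 2 * x.T * δ
  pz : p.z ≤ δ
  k4 : 4 ≤ x.K

/-- A state with a larger region of flight. -/
def ST.add (s : ST V) (R : Finset V) : ST V := { s with Fl := s.Fl ∪ R }

end Defs

/-! ### Counting -/

/-- Row STEP: receivers inherit the colour of a random chunk of their entries. -/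
def StepStmt : Prop := ∀ (α : Type) (Tr : Finset α) (sk ry : α → ℕ) (J : Finset ℕ)
  (cs q : ℕ → ℕ) (E T f γ : ℕ), 1 ≤ E → 1 ≤ T → (∀ k, cs k < T) → Tr.card ≤ f →
  (∀ a ∈ Tr, sk a ∈ J) → (∀ k y, min (lump Tr sk ry k y) (cd (cnt Tr ry y) (E * T)) ≤ γ) →
  J.card * E ^ 2 * T ≤ f → J.card * γ * E ^ 3 * T ≤ f →
  E * ∑ k ∈ J, (q k - cnt Tr sk k) ≤ 4 * f →
  ∃ Ch ⊆ Tr, ∃ cy : ℕ → ℕ, (∀ y, cy y < T) ∧ (∀ a ∈ Ch, cy (ry a) = cs (sk a)) ∧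
    (∀ y, cnt Ch ry y ≤ cd (cnt Tr ry y) (E * T)) ∧
    E ^ 2 * T * ∑ k ∈ J, (cd (q k) (E * T) - cnt Ch sk k) ≤ 8 * f

/-- Row QSEL: the nodes of a big stage are assigned uniformly. -/
def QselStmt : Prop := ∀ (F f Φ Θ Z eS eB dB θB : ℕ) (Q : Finset ℕ) (π ce : ℕ → ℕ) (B : SD),
  Q ⊆ range F → (∀ τ ∈ Q, π τ < F) → Set.InjOn π Q → 2 * f ≤ Q.card → F ≤ Φ * f →
  Shape F B eB dB θB → (∀ c, cnt (range F) ce c ≤ eS) → 1 ≤ Θ → 8 * Θ ≤ Z → 32 * Φ ≤ Z →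
  ((θB = 1 ∧ ∀ c c', Θ * lump Q ce (fun τ => B.ce (π τ)) c c' ≤ eS) ∨
    (Z ≤ θB ∧ Z * dB ≤ eS ∧ Z * dB ≤ eB)) →
  ∃ as, B.Ok F as ∧ ∃ J ⊆ Q, J.card = f ∧
    (∀ c c', Θ * lump J ce (fun τ => as (B.nd (π τ))) c c' ≤ eS) ∧
    ∀ c, cnt J (fun τ => as (B.nd (π τ))) c ≤ eB

/-- Row JSEL: the nodes of a tiny stage are assigned in proportion to the demand `J`. -/
def JselStmt : Prop := ∀ (α : Type) (F f Φ E T Z eS dS θS eK nK : ℕ) (S : SD) (J : Finset ℕ)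
  (X : Finset α) (sk η : α → ℕ), J ⊆ range F → J.card = f → F ≤ Φ * f → 2 ≤ E → 1 ≤ T → 1 ≤ f →
  8 * Φ ^ 2 * E ^ 4 * T ≤ Z → Shape F S eS dS θS → nK * eK ≤ F → Z ≤ eK →
  ((θS = 1 ∧ Z * eS ≤ eK) ∨ (Z ≤ θS ∧ Z * dS ≤ eK ∧ Z * dS ≤ eS)) →
  (∀ a ∈ X, η a ∈ J) → Set.InjOn η X → (∀ k, cnt X sk k ≤ eK) →
  ∃ as, S.Ok F as ∧ ∃ Tr ⊆ X, ∃ γ, E * (X \ Tr).card ≤ 4 * f ∧ nK * γ * E ^ 3 * T ≤ f ∧
    (∀ k y, min (lump Tr sk (fun a => as (S.nd (η a))) k y)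
      (cd (cnt Tr (fun a => as (S.nd (η a))) y) (E * T)) ≤ γ) ∧
    E * ∑ y ∈ S.cells F, (cnt Tr (fun a => as (S.nd (η a))) y - cnt J S.ce y) ≤ 4 * f

/-- Row TSEL: the top nodes choose a class. -/
def TselStmt : Prop := ∀ (α : Type) (X : Finset α) (sk nd : α → ℕ) (J : Finset ℕ) (cs : ℕ → ℕ)
  (E T f d : ℕ), 1 ≤ E → 1 ≤ T → (∀ k, cs k < T) → X.card ≤ f → (∀ n, cnt X nd n ≤ d) →
  J.card * E ^ 2 * T ≤ f → J.card * d * E ^ 4 * T ≤ f →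
  ∃ as : ℕ → ℕ, (∀ n, as n < T) ∧ E ^ 2 * T * ∑ k ∈ J, (cd (cnt X sk k) (E * T) -
    cnt (X.filter fun a => as (nd a) = cs (sk a)) sk k) ≤ 2 * f

/-! ### Strands and webs -/

/-- Row KILL: flights are prolonged by a linkage. -/
def FlyStmt : Prop := ∀ (V α : Type) (G : SimpleGraph V) (Fl H : Finset V) (Lv : Finset α)
  (st ps x y : α → V) (P Q : α → Finset V), Fly G Fl Lv st ps P → Lk G H Lv x y Q →
  Disjoint H Fl → (∀ a ∈ Lv, st a ∉ H ∧ G.Adj (ps a) (x a)) →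
  Fly G (Fl ∪ H) Lv st y fun a => P a ∪ Q a

/-- Row KILL: in a poor region almost all lanes are in fat lumps. -/
def KillStmt : Prop := ∀ (V α : Type) (G : SimpleGraph V) (p : PC V) (Z Z' Fl Fl' : Finset V)
  (J J' : Finset ℕ) (O O' : ℕ → Finset V) (Lv : Finset α) (st ps st' ps' : α → V)
  (P P' : α → Finset V) (c c' : α → ℕ), p.Ok G → Cert G p Z J O → Cert G p Z' J' O' →
  Fly G Fl Lv st ps P → Fly G Fl' Lv st' ps' P' → Fl ⊆ p.RC → Fl' ⊆ p.RC → Disjoint Z Z' →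
  Disjoint (Z ∪ Z') (Fl ∪ Fl') → Disjoint Fl Fl' →
  (∀ a ∈ Lv, c a ∈ J ∧ st a ∈ O (c a) ∧ c' a ∈ J' ∧ st' a ∈ O' (c' a) ∧ G.Adj (ps a) (ps' a)) →
  ∃ L ⊆ Lv, Lv.card ≤ L.card + p.z ∧ ∀ a ∈ L, p.thr + 1 ≤ lump L c c' (c a) (c' a)

/-- Row WEB: the cores of a layer form a web without wires. -/
def CoresStmt : Prop := ∀ (V : Type) (G : SimpleGraph V) (Reg Rt : Finset V) (J : Finset ℕ)
  (A I O : ℕ → Finset V) (K g u e l : ℕ), Lay G Reg J A I O → 4 ≤ K → 1 ≤ e → 2 * e ≤ g →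
  (∀ c ∈ J, (I c).card = e ∧ (O c).card = e) →
  ∃ W : WD V (ℕ × ℕ), Web G Reg Rt K g u W ∧ W.J = J.image (fun c => (l, c)) ∧ W.Om = ∅ ∧
    W.Ro = ∅ ∧ ∀ c ∈ J, W.Pt (l, c) = I c ∪ O c

/-- Row WEB: the union of two webs. -/
def WebuStmt : Prop := ∀ (V κ : Type) (G : SimpleGraph V) (A A' Rt : Finset V) (K g u : ℕ)
  (W W' : WD V κ), Web G A Rt K g u W → Web G A' Rt K g u W' → Disjoint A A' →
  Disjoint W.J W'.J → W.Ro ⊆ A → W'.Ro ⊆ A' →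
  ∃ U : WD V κ, Web G (A ∪ A') Rt K g u U ∧ U.J = W.J ∪ W'.J ∧ U.Om = W.Om ∪ W'.Om ∧
    U.Ro = W.Ro ∪ W'.Ro ∧ (∀ i ∈ W.J, U.Pt i = W.Pt i) ∧ (∀ i ∈ W'.J, U.Pt i = W'.Pt i) ∧
    ∀ S : Finset κ, cw W.mu (W.J ∩ S) (W.J \ S) + cw W'.mu (W'.J ∩ S) (W'.J \ S) ≤
      cw U.mu (U.J ∩ S) (U.J \ S)

/-- Row WIRE: new wires. -/
def WireStmt : Prop := ∀ (V α κ : Type) (G : SimpleGraph V) (A Fl Fl' Rt : Finset V) (K g u : ℕ)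
  (W : WD V κ) (Lv : Finset α) (st ps st' ps' : α → V) (P P' : α → Finset V) (o o' : α → κ),
  Web G A Rt K g u W → Fly G Fl Lv st ps P → Fly G Fl' Lv st' ps' P' → Disjoint A Fl →
  Disjoint A Fl' → Disjoint Fl Fl' → (∀ a ∈ Lv, ∀ b ∈ Lv, o a ≠ o' b) →
  (∀ a ∈ Lv, o a ∈ W.J ∧ o' a ∈ W.J ∧ st a ∈ W.Pt (o a) ∧ st' a ∈ W.Pt (o' a) ∧
    st a ∉ W.Om ∪ W.Ro ∧ st' a ∉ W.Om ∪ W.Ro ∧ G.Adj (ps a) (ps' a) ∧
    u ≤ lump Lv o o' (o a) (o' a)) →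
  ∃ U : WD V κ, Web G (A ∪ Fl ∪ Fl') Rt K g u U ∧ U.J = W.J ∧ U.Pt = W.Pt ∧ U.Ro = W.Ro ∧
    U.Om = W.Om ∪ Lv.image st ∪ Lv.image st' ∧
    ∀ S : Finset κ, cw W.mu (W.J ∩ S) (W.J \ S) +
      (Lv.filter fun a => ¬ (o a ∈ S ↔ o' a ∈ S)).card ≤ cw U.mu (U.J ∩ S) (U.J \ S)

/-! ### The moves -/

/-- Row INIT: the hosts are cut into `T` virtual senders. -/
def InitStmt : Prop := ∀ (V : Type) (G : SimpleGraph V) (p : PC V) (x : CX V) (Past : Finset V)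
  (q : ℕ) (A Ro O : ℕ → Finset V), Hst G Past x.Rt x.nH q x.r x.K A Ro O →
  Cert G p Past (range x.nH) O → x.b < 2 → x.r + q ≤ x.g → 1 ≤ x.T → 1 ≤ x.E →
  x.ν * (x.E * x.T) ≤ q / x.T → x.nH * q ≤ x.f → x.f ≤ x.F →
  ∃ s Ex cs, Rdy G p x s (range (x.nH * x.T)) Ex cs (fun _ => q / x.T) 0 ∧
    Dgs x (range (x.nH * x.T)) Ex (fun _ => q / x.T) (q / x.T) ∧ s.Past = Past ∧ s.Fl = ∅ ∧
    s.W.J.card ≤ x.nH ∧ ∀ k < x.nH * x.T, Ex k ⊆ (range x.nH).biUnion O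

/-- Row INIT: the lanes enter a layer. -/
def ThruStmt : Prop := ∀ (V : Type) (G : SimpleGraph V) (p : PC V) (x : CX V) (s : ST V)
  (J : Finset ℕ) (A I O : ℕ → Finset V) (cs q : ℕ → ℕ) (l : ℕ) (R : Finset V),
  Wait G p x s J I cs q l → Lay G R J A I O → R ⊆ p.RC → Disjoint R (s.Past ∪ s.Fl) →
  Rdy G p x (s.add R) J O cs q l

/-- Row JSTEP: through a junction to a tiny stage. -/
def JstepStmt : Prop := ∀ (V : Type) (G : SimpleGraph V) (p : PC V) (x : CX V) (s : ST V)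
  (J Jt : Finset ℕ) (Ex : ℕ → Finset V) (cs q : ℕ → ℕ) (l eK Φ Θ Z δ eS dS θS : ℕ)
  (H : Finset V) (sa : ℕ → V) (S : SD), Rdy G p x s J Ex cs q l → Dgs x J Ex q eK →
  Bud p x Φ Θ Z δ → Jn G H (J.biUnion Ex) ((range x.F).image sa) →
  Set.InjOn sa ↑(range x.F) → H ⊆ p.RC → Disjoint H (s.Past ∪ s.Fl) → Shape x.F S eS dS θS →
  Jt ⊆ range x.F → Jt.card = x.f → Z ≤ eK →
  ((θS = 1 ∧ Z * eS ≤ eK) ∨ (Z ≤ θS ∧ Z * dS ≤ eK ∧ Z * dS ≤ eS)) →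
  ∃ as cy q', S.Ok x.F as ∧
    Wait G p x (s.add H) (S.cells x.F) (fib x.F sa fun τ => as (S.nd τ)) cy q' (l + δ) ∧
    x.E * ∑ y ∈ S.cells x.F, (q' y - cnt Jt S.ce y) ≤ 4 * x.f

/-- Row JSTEP: through a junction to the top stage. -/
def TopsStmt : Prop := ∀ (V : Type) (G : SimpleGraph V) (p : PC V) (x : CX V) (s : ST V)
  (J : Finset ℕ) (Ex : ℕ → Finset V) (cs q : ℕ → ℕ) (l eK Φ Θ Z δ d : ℕ) (H : Finset V)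
  (ta : ℕ → V) (nd : ℕ → ℕ), Rdy G p x s J Ex cs q l → Dgs x J Ex q eK → Bud p x Φ Θ Z δ →
  Jn G H (J.biUnion Ex) ((range x.F).image ta) → Set.InjOn ta ↑(range x.F) → H ⊆ p.RC →
  Disjoint H (s.Past ∪ s.Fl) → (∀ n, cnt (range x.F) nd n ≤ d) → Z ≤ eK → Z * d ≤ eK →
  ∃ as cy q' : ℕ → ℕ, (∀ n, as n < x.T) ∧ (∀ t < x.T, cy t = t) ∧
    Wait G p x (s.add H) (range x.T) (fib x.F ta fun τ => as (nd τ)) cy q' (l + δ)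

/-- Row WSTEP: two resting layers and the region between them. -/
def WstepStmt : Prop := ∀ (V : Type) (G : SimpleGraph V) (p : PC V) (x : CX V) (s : ST V)
  (cs q : ℕ → ℕ) (l Φ Θ Z δ eS e₁ d₁ θ₁ e₂ d₂ θ₂ : ℕ) (R₁ RW R₂ H₁ H₂ : Finset V)
  (sx a₁ b₁ a₂ b₂ y : ℕ → V) (S S₁ S₂ : SD) (Q Jt JB : Finset ℕ) (π lab : ℕ → ℕ),
  Rdy G p x s (S.cells x.F) (fib x.F sx S.ce) cs q l → Bud p x Φ Θ Z δ →
  p.Ok G → Set.InjOn sx ↑(range x.F) → (∀ c ∈ S.cells x.F, cnt (range x.F) S.ce c = eS) →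
  Z ≤ eS → x.E * ∑ c ∈ S.cells x.F, (q c - cnt Jt S.ce c) ≤ 4 * x.f →
  Stg G R₁ x.F a₁ b₁ S₁ → Shape x.F S₁ e₁ d₁ θ₁ → Stg G R₂ x.F a₂ b₂ S₂ →
  Shape x.F S₂ e₂ d₂ θ₂ → (∀ τ < x.F, G.Adj (sx τ) (a₁ τ) ∧ G.Adj (b₂ τ) (y τ) ∧ lab τ ∈ JB) →
  Set.InjOn y ↑(range x.F) → Sys G RW x.F b₁ a₂ Q π →
  (∀ τ ∈ Q, p.thr + 1 ≤ lump Q S₁.ce (fun τ => S₂.ce (π τ)) (S₁.ce τ) (S₂.ce (π τ))) →
  Jt ⊆ Q → Jt.card = x.f → (∀ c c', Θ * lump Jt S.ce (fun τ => lab (π τ)) c c' ≤ eS) →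
  R₁ ⊆ p.RC → R₂ ⊆ p.RC → H₁ ⊆ RW → H₂ ⊆ RW → p.Dk H₁ ((range x.F).image b₁) →
  p.Dk H₂ ((range x.F).image a₂) → Disjoint (s.Past ∪ s.Fl) (R₁ ∪ RW ∪ R₂) → Disjoint R₁ RW →
  Disjoint R₁ R₂ → Disjoint RW R₂ → (S₁.cells x.F).card ≤ p.n → (S₂.cells x.F).card ≤ p.n →
  2 * e₁ ≤ x.g → 2 * e₂ ≤ x.g →
  ∃ s' cy, Wait G p x s' JB (fib x.F y lab) cy (cnt Jt fun τ => lab (π τ)) (l + 2 * δ) ∧
    s'.Fl = ∅ ∧ s'.Past = s.Past ∪ s.Fl ∪ (R₁ ∪ RW ∪ R₂) ∧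
    s'.W.J.card ≤ s.W.J.card + 2 * p.n

/-! ### The game -/

/-- Row ROUND: the lanes of two chains are matched through two top cells. -/
def RoundStmt : Prop := ∀ (V α : Type) (G : SimpleGraph V) (p : PC V)
  (Z Z' Fl Fl' A A' I I' O O' : Finset V) (J J' : Finset ℕ) (Oo Oo' : ℕ → Finset V)
  (Lv Lv' : Finset α) (st ps en st' ps' en' : α → V) (P P' : α → Finset V) (c c' : α → ℕ)
  (w w' : ℕ → V) (n : ℕ), p.Ok G → Cert G p Z J Oo → Cert G p Z' J' Oo' →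
  Fly G Fl Lv st ps P → Fly G Fl' Lv' st' ps' P' → Lv.card = Lv'.card → Lv.card ≤ n →
  Cel G A I O → Cel G A' I' O' → Set.InjOn en Lv → Set.InjOn en' Lv' →
  (∀ a ∈ Lv, c a ∈ J ∧ st a ∈ Oo (c a) ∧ st a ∈ Z ∧ en a ∈ I ∧ G.Adj (ps a) (en a)) →
  (∀ a ∈ Lv', c' a ∈ J' ∧ st' a ∈ Oo' (c' a) ∧ st' a ∈ Z' ∧ en' a ∈ I' ∧
    G.Adj (ps' a) (en' a)) →
  (∀ i < n, w i ∈ O ∧ w' i ∈ O' ∧ G.Adj (w i) (w' i)) → Set.InjOn w ↑(range n) →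
  Set.InjOn w' ↑(range n) → Fl ∪ A ⊆ p.RC → Fl' ∪ A' ⊆ p.RC → Disjoint Z Z' →
  Disjoint (Z ∪ Z') (Fl ∪ A ∪ (Fl' ∪ A')) → Disjoint Fl A → Disjoint Fl' A' →
  Disjoint (Fl ∪ A) (Fl' ∪ A') →
  ∃ L ⊆ Lv, ∃ (σ : α → α) (qs qs' : α → V) (R R' : α → Finset V), (∀ a ∈ L, σ a ∈ Lv') ∧
    Set.InjOn σ L ∧ Fly G (Fl ∪ A) L st qs R ∧ Fly G (Fl' ∪ A') L (fun a => st' (σ a)) qs' R' ∧
    (∀ a ∈ L, R a ⊆ P a ∪ A ∧ R' a ⊆ P' (σ a) ∪ A' ∧ G.Adj (qs a) (qs' a) ∧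
      p.thr + 1 ≤ lump L c (fun b => c' (σ b)) (c a) (c' (σ a))) ∧ Lv.card ≤ L.card + p.z

/-- The web expands on the hosts `Hs`, which carry `ν` players each. -/
structure Goal {V : Type} (G : SimpleGraph V) (Amb Rt : Finset V) (K g u r ν nJ : ℕ) (W : WD V (ℕ × ℕ))
    (Hs : Finset (ℕ × ℕ)) : Prop where
  web : Web G Amb Rt K g u W
  sub : Hs ⊆ W.J
  ro : ∀ i ∈ Hs, r ≤ (W.Ro ∩ W.Pt i).card
  card : W.J.card ≤ nJ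
  exp : ∀ S ⊆ W.J, Hs.card ≤ 4 * (Hs ∩ S).card → 2 * (Hs ∩ S).card ≤ Hs.card →
    Hs.card * ν ≤ 200 * cw W.mu S (W.J \ S)

/-- Row GAME: the cut-matching game, the round `t` uses the lanes of colour `t`. -/
def GameStmt : Prop := ∀ (V : Type) (G : SimpleGraph V) (p : PC V) (x : CX V) (s s' : ST V)
  (I I' A A' O O' : ℕ → Finset V) (cy cy' q q' : ℕ → ℕ) (l Λ : ℕ) (RT RT' : Finset V)
  (w w' : ℕ → ℕ → V), x.b = 0 → p.Ok G → Wait G p x s (range x.T) I cy q l →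
  Wait G p { x with b := 1 } s' (range x.T) I' cy' q' l → (∀ t < x.T, cy t = t ∧ cy' t = t) →
  Lay G RT (range x.T) A I O → Lay G RT' (range x.T) A' I' O' →
  (∀ t < x.T, ∀ i < x.nH * x.ν, w t i ∈ O t ∧ w' t i ∈ O' t ∧ G.Adj (w t i) (w' t i)) →
  (∀ t < x.T, Set.InjOn (w t) ↑(range (x.nH * x.ν)) ∧ Set.InjOn (w' t) ↑(range (x.nH * x.ν))) →
  RT ⊆ p.RC → RT' ⊆ p.RC → Disjoint (s.Past ∪ s.Fl) RT → Disjoint (s'.Past ∪ s'.Fl) RT' →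
  Disjoint (s.Past ∪ s.Fl ∪ RT) (s'.Past ∪ s'.Fl ∪ RT') → 400 * (Λ + 1) ≤ x.T →
  2 * (x.nH * x.ν) ≤ 2 ^ Λ → 32 ≤ x.nH * x.ν → 64 * (l + p.z) ≤ x.nH * x.ν →
  ∃ W, Goal G (s.Past ∪ s.Fl ∪ RT ∪ (s'.Past ∪ s'.Fl ∪ RT')) x.Rt x.K x.g (p.thr + 1) x.r x.ν
    (s.W.J.card + s'.W.J.card) W (range 2 ×ˢ range x.nH)

end Pool.Agent.MP_35cb46_co.Fl
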