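import Pool.Agent.MP_35cb46_co.fl.BSpec

/-! PROJECT FL: linkages, cells and layers. -/

noncomputable section

namespace Pool.Agent.MP_35cb46_co.Fl

open Finset Pool.Agent.MP_7be75d_co Pool.Agent.MP_35cb46_co.Sq Pool.Agent.MP_35cb46_co.Nl
open scoped Classical

variable {V α β ι : Type} {G : SimpleGraph V} {A B I O I' O' : Finset V} {S S' : Finset α}
  {f g f' g' : α → V} {P : α → Finset V}

theorem Lk.mono (h : Lk G A S f g P) (hA : A ⊆ B) (hS : S' ⊆ S) : Lk G B S' f g P :=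
  ⟨⟨fun a ha => (h.fam.sub a (hS ha)).trans hA, fun a ha => h.fam.conn a (hS ha),
    fun a ha b hb => h.fam.disj a (hS ha) b (hS hb)⟩, fun a ha => h.st a (hS ha),
    fun a ha => h.en a (hS ha)⟩

theorem Lk.symm (h : Lk G A S f g P) : Lk G A S g f P := ⟨h.fam, h.en, h.st⟩

theorem Lk.inj_left (h : Lk G A S f g P) : Set.InjOn f S := fun a ha b hb e => by_contra fun n =>
  disjoint_left.1 (h.fam.disj a ha b hb n) (h.st a ha) (e ▸ h.st b hb)

theorem Lk.inj_right (h : Lk G A S f g P) : Set.InjOn g S := h.symm.inj_left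

theorem Lk.comp (h : Lk G A S f g P) {T : Finset β} (φ : β → α) (hφ : ∀ b ∈ T, φ b ∈ S)
    (hi : Set.InjOn φ T) : Lk G A T (fun b => f (φ b)) (fun b => g (φ b)) fun b => P (φ b) :=
  ⟨⟨fun b hb => h.fam.sub _ (hφ b hb), fun b hb => h.fam.conn _ (hφ b hb),
    fun a ha b hb n => h.fam.disj _ (hφ a ha) _ (hφ b hb) fun e => n (hi ha hb e)⟩,
    fun b hb => h.st _ (hφ b hb), fun b hb => h.en _ (hφ b hb)⟩

theorem Lk.congr (h : Lk G A S f g P) (hf : ∀ a ∈ S, f a = f' a) (hg : ∀ a ∈ S, g a = g' a) :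
    Lk G A S f' g' P :=
  ⟨h.fam, fun a ha => hf a ha ▸ h.st a ha, fun a ha => hg a ha ▸ h.en a ha⟩

theorem Lnk.mono (h : Lnk G A S f g) (hA : A ⊆ B) (hS : S' ⊆ S) : Lnk G B S' f g :=
  h.imp fun _ h => h.mono hA hS

theorem Lnk.symm (h : Lnk G A S f g) : Lnk G A S g f := h.imp fun _ h => h.symm

theorem Lnk.inj_left (h : Lnk G A S f g) : Set.InjOn f S := h.elim fun _ h => h.inj_left

theorem Lnk.inj_right (h : Lnk G A S f g) : Set.InjOn g S := h.elim fun _ h => h.inj_right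

theorem Lnk.mem_left (h : Lnk G A S f g) {a : α} (ha : a ∈ S) : f a ∈ A :=
  h.elim fun _ h => h.fam.sub a ha (h.st a ha)

theorem Lnk.mem_right (h : Lnk G A S f g) {a : α} (ha : a ∈ S) : g a ∈ A := h.symm.mem_left ha

theorem Lnk.comp (h : Lnk G A S f g) {T : Finset β} (φ : β → α) (hφ : ∀ b ∈ T, φ b ∈ S)
    (hi : Set.InjOn φ T) : Lnk G A T (fun b => f (φ b)) fun b => g (φ b) :=
  h.elim fun _ h => ⟨_, h.comp φ hφ hi⟩

theorem Lnk.congr (h : Lnk G A S f g) (hf : ∀ a ∈ S, f a = f' a) (hg : ∀ a ∈ S, g a = g' a) :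
    Lnk G A S f' g' := h.imp fun _ h => h.congr hf hg

theorem Lnk.cat (h : Lnk G A S f g) (h' : Lnk G B S f' g') (hd : Disjoint A B)
    (ha : ∀ a ∈ S, G.Adj (g a) (f' a)) : Lnk G (A ∪ B) S f g' := by
  obtain ⟨P, h⟩ := h
  obtain ⟨Q, h'⟩ := h'
  refine ⟨fun a => P a ∪ Q a, ⟨fun a x => union_subset_union (h.fam.sub a x) (h'.fam.sub a x),
    fun a x => (h.fam.conn a x).union_adj (h'.fam.conn a x) (h.en a x) (h'.st a x) (ha a x),
    fun a x b y n => ?_⟩, fun a x => mem_union_left _ (h.st a x),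
    fun a x => mem_union_right _ (h'.en a x)⟩
  rw [disjoint_union_left, disjoint_union_right, disjoint_union_right]
  exact ⟨⟨h.fam.disj a x b y n, hd.mono (h.fam.sub a x) (h'.fam.sub b y)⟩,
    hd.symm.mono (h'.fam.sub a x) (h.fam.sub b y), h'.fam.disj a x b y n⟩

theorem Cel.mono (h : Cel G A I O) (hA : A ⊆ B) (hI : I' ⊆ I) (hO : O' ⊆ O) : Cel G B I' O' :=
  ⟨hI.trans (h.1.trans hA), hO.trans (h.2.1.trans hA), fun X hX Y hY e =>
    (h.2.2 X (hX.trans hI) Y (hY.trans hO) e).imp fun _ k => ⟨k.1, k.2.mono hA subset_rfl⟩⟩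

theorem Cel.symm (h : Cel G A I O) : Cel G A O I := by
  refine ⟨h.2.1, h.1, fun Y hY X hX e => ?_⟩
  obtain ⟨g, g1, g2⟩ := h.2.2 X hX Y hY e.symm
  have hs : ∀ y, ∃ x, y ∈ Y → x ∈ X ∧ g x = y := fun y => by
    by_cases hy : y ∈ Y
    · obtain ⟨x, hx, ex⟩ := surjOn_of_injOn_of_card_le g g1 g2.inj_right e.le hy
      exact ⟨x, fun _ => ⟨hx, ex⟩⟩
    · exact ⟨y, fun k => (hy k).elim⟩
  choose k hk using hs
  exact ⟨k, fun y hy => (hk y hy).1, (g2.symm.comp k (fun y hy => (hk y hy).1) fun y hy z hz q =>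
    (hk y hy).2.symm.trans (q ▸ (hk z hz).2)).congr (fun y hy => (hk y hy).2) fun _ _ => rfl⟩

section
variable {Reg Reg' : Finset V} {J J' : Finset ι} {C I O I' O' : ι → Finset V}

theorem Lay.symm (h : Lay G Reg J C I O) : Lay G Reg J C O I :=
  ⟨h.sub, h.disj, fun c hc => (h.cel c hc).symm⟩

theorem Lay.mono (h : Lay G Reg J C I O) (hR : Reg ⊆ Reg') (hJ : J' ⊆ J)
    (hI : ∀ c ∈ J', I' c ⊆ I c) (hO : ∀ c ∈ J', O' c ⊆ O c) : Lay G Reg' J' C I' O' :=
  ⟨fun c hc => (h.sub c (hJ hc)).trans hR, fun c hc d hd => h.disj c (hJ hc) d (hJ hd),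
    fun c hc => (h.cel c (hJ hc)).mono subset_rfl (hI c hc) (hO c hc)⟩

end

theorem Dock.mono {h : HD V} {F s : ℕ} {U U' : Finset ℕ} {E E' : Finset V}
    (k : Dock G h F U s E) (hU : U ⊆ U') (hE : E' ⊆ E) : Dock G h F U' s E' := by
  obtain ⟨μ, m1, m2⟩ := k
  exact ⟨μ, m1.mono (coe_subset.2 hE), fun x hx => ⟨(m2 x (hE hx)).1,
    (m2 x (hE hx)).2.imp fun _ q => ⟨hU q.1, q.2⟩⟩⟩

/-- A cell links as many of the given entries as there are exits. -/
theorem Cel.pass (h : Cel G A I O) {e : α → V} (he : ∀ a ∈ S, e a ∈ I) (hi : Set.InjOn e S)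
    (hO : O' ⊆ O) : ∃ T ⊆ S, ∃ (g : α → V) (P : α → Finset V), Lk G A T e g P ∧
      (∀ a ∈ T, g a ∈ O') ∧ T.card = min S.card O'.card := by
  obtain ⟨T, hT, cT⟩ := exists_subset_card_eq (s := S) (min_le_left S.card O'.card)
  obtain ⟨Y, hY, cY⟩ := exists_subset_card_eq (s := O') (min_le_right S.card O'.card)
  have hi' := hi.mono (coe_subset.2 hT)
  obtain ⟨g, g1, P, g2⟩ := h.2.2 (T.image e) (image_subset_iff.2 fun a ha => he a (hT ha)) Y
    (hY.trans hO) (by rw [card_image_of_injOn hi', cT, cY])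
  exact ⟨T, hT, _, _, g2.comp e (fun a ha => mem_image_of_mem e ha) hi',
    fun a ha => hY (g1 _ (mem_image_of_mem e ha)), cT⟩

theorem cat : CatStmt := fun _ _ _ _ _ _ _ _ _ _ => Lnk.cat

theorem sym : SymStmt := fun _ _ _ _ _ => Cel.symm

theorem lay : LayStmt := by
  intro V α ι G Reg J A I O O' S e c h hc hi hO
  have h1 : ∀ k, ∃ (T : Finset α) (g : α → V) (P : α → Finset V), k ∈ J →
      T ⊆ S.filter (fun a => c a = k) ∧ Lk G (A k) T e g P ∧ (∀ a ∈ T, g a ∈ O' k) ∧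
        T.card = min (cnt S c k) (O' k).card := fun k => by
    by_cases hk : k ∈ J
    · obtain ⟨T, hT, g, P, q⟩ := (h.cel k hk).pass (S := S.filter fun a => c a = k) (e := e)
        (fun a ha => (mem_filter.1 ha).2 ▸ (hc a (mem_filter.1 ha).1).2)
        (hi.mono (coe_subset.2 (filter_subset _ _))) (hO k hk)
      exact ⟨T, g, P, fun _ => ⟨hT, q⟩⟩
    · exact ⟨∅, e, fun _ => ∅, fun q => (hk q).elim⟩
  choose T g P hT using h1
  have m : ∀ a ∈ S.filter fun a => a ∈ T (c a), c a ∈ J ∧ a ∈ T (c a) := fun a ha =>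
    ⟨(hc a (mem_filter.1 ha).1).1, (mem_filter.1 ha).2⟩
  have sb : ∀ a ∈ S.filter fun a => a ∈ T (c a), P (c a) a ⊆ A (c a) := fun a ha =>
    (hT _ (m a ha).1).2.1.fam.sub a (m a ha).2
  refine ⟨S.filter fun a => a ∈ T (c a), filter_subset _ _, fun a => g (c a) a,
    fun a => P (c a) a, ⟨⟨fun a ha => (sb a ha).trans (h.sub _ (m a ha).1),
      fun a ha => (hT _ (m a ha).1).2.1.fam.conn a (m a ha).2, fun a ha b hb n => ?_⟩,
      fun a ha => (hT _ (m a ha).1).2.1.st a (m a ha).2,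
      fun a ha => (hT _ (m a ha).1).2.1.en a (m a ha).2⟩,
    fun a ha => ⟨(hT _ (m a ha).1).2.2.1 a (m a ha).2, sb a ha⟩, ?_⟩
  · by_cases q : c a = c b
    · have := (hT _ (m a ha).1).2.1.fam.disj a (m a ha).2 b (q ▸ (m b hb).2) n
      rwa [← q]
    · exact (h.disj _ (m a ha).1 _ (m b hb).1 q).mono (sb a ha) (sb b hb)
  · rw [card_eq_sum_card_fiberwise (f := c) (s := S) (t := J) fun a ha => (hc a ha).1,
      card_eq_sum_card_fiberwise (f := c) (s := S.filter fun a => a ∈ T (c a)) (t := J)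
        fun a ha => (m a ha).1, ← sum_add_distrib]
    refine sum_le_sum fun k hk => ?_
    have h2 : (T k).card ≤ ((S.filter fun a => a ∈ T (c a)).filter fun a => c a = k).card :=
      card_le_card fun a ha => by
        obtain ⟨x, y⟩ := mem_filter.1 ((hT k hk).1 ha)
        exact mem_filter.2 ⟨mem_filter.2 ⟨x, y ▸ ha⟩, y⟩
    have h3 := (hT k hk).2.2.2
    change cnt S c k ≤ _
    omega

end Pool.Agent.MP_35cb46_co.Fl
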