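import Pool.Agent.MP_35cb46_co.fl.BSpec

/-! PROJECT FL: junctions and links to the roots. -/

noncomputable section

namespace Pool.Agent.MP_35cb46_co.Fl

open Finset Pool.Agent.MP_7be75d_co Pool.Agent.MP_35cb46_co.Sq Pool.Agent.MP_35cb46_co.Nl
open scoped Classical

namespace Base3

variable {V α β : Type} {G : SimpleGraph V} {A B I O Amb Rt E : Finset V} {S : Finset α}
  {N F s t : ℕ} {h : HD V} {U : Finset ℕ}

/-- Two indexed families of ends are linked in a cell. -/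
theorem link (hc : Cel G A I O) (d : α → β) {T : Finset β} {f : α → V} {e : β → V}
    (hf : ∀ a ∈ S, f a ∈ I) (he : ∀ b ∈ T, e b ∈ O) (fi : Set.InjOn f S) (ei : Set.InjOn e T)
    (hcard : S.card = T.card) : ∃ (σ : α → β) (P : α → Finset V), (∀ a ∈ S, σ a ∈ T) ∧
      Set.InjOn σ S ∧ Lk G A S f (fun a => e (σ a)) P := by
  obtain ⟨g, hg, P, hP⟩ := hc.2.2 (S.image f) (image_subset_iff.2 hf) (T.image e)
    (image_subset_iff.2 he) (by rw [card_image_of_injOn fi, card_image_of_injOn ei, hcard])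
  have m : ∀ a ∈ S, f a ∈ S.image f := fun a ha => mem_image_of_mem f ha
  have : ∀ a, ∃ b, a ∈ S → b ∈ T ∧ e b = g (f a) := fun a => by
    by_cases ha : a ∈ S
    · obtain ⟨b, hb⟩ := mem_image.1 (hg _ (m a ha))
      exact ⟨b, fun _ => hb⟩
    · exact ⟨d a, fun h => absurd h ha⟩
  choose σ hσ using this
  have dj : ∀ a ∈ S, ∀ b ∈ S, a ≠ b → Disjoint (P (f a)) (P (f b)) := fun a ha b hb hab =>
    hP.fam.disj _ (m a ha) _ (m b hb) fun e => hab (fi ha hb e)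
  have en : ∀ a ∈ S, e (σ a) ∈ P (f a) := fun a ha => (hσ a ha).2 ▸ hP.en _ (m a ha)
  refine ⟨σ, fun a => P (f a), fun a ha => (hσ a ha).1, fun a ha b hb hab => ?_,
    ⟨fun a ha => hP.fam.sub _ (m a ha), fun a ha => hP.fam.conn _ (m a ha), dj⟩,
    fun a ha => hP.st _ (m a ha), en⟩
  by_contra hne
  exact disjoint_left.1 (dj a ha b hb hne) (en a ha) (hab ▸ en b hb)

theorem cat {f g f' g' : α → V} {P P' : α → Finset V} (h1 : Lk G A S f g P)
    (h2 : Lk G B S f' g' P') (hd : Disjoint A B) (ha : ∀ a ∈ S, G.Adj (g a) (f' a)) :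
    Lk G (A ∪ B) S f g' fun a => P a ∪ P' a := by
  refine ⟨⟨fun a h => union_subset_union (h1.fam.sub a h) (h2.fam.sub a h), fun a h =>
    (h1.fam.conn a h).union_adj (h2.fam.conn a h) (h1.en a h) (h2.st a h) (ha a h),
    fun a h b h' e => ?_⟩, fun a h => mem_union_left _ (h1.st a h),
    fun a h => mem_union_right _ (h2.en a h)⟩
  rw [disjoint_union_left, disjoint_union_right, disjoint_union_right]
  exact ⟨⟨h1.fam.disj a h b h' e, hd.mono (h1.fam.sub a h) (h2.fam.sub b h')⟩,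
    hd.symm.mono (h2.fam.sub a h) (h1.fam.sub b h'), h2.fam.disj a h b h' e⟩

theorem port {i : ℕ} (ht : t < N) (hi : i < F) : h.pt s t i ∈ h.ports N F s :=
  mem_image.2 ⟨(t, i), mem_product.2 ⟨mem_range.2 ht, mem_range.2 hi⟩, rfl⟩

theorem pinj (H : Hub G Amb Rt N F h) (hs : s < N) {t' i i' : ℕ} (ht : t < N) (ht' : t' < N)
    (hi : i < F) (hi' : i' < F) (e : h.pt s t i = h.pt s t' i') : t = t' ∧ i = i' :=
  Prod.mk.inj (H.inj s hs (x₁ := (t, i)) (x₂ := (t', i'))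
    (mem_coe.2 (mem_product.2 ⟨mem_range.2 ht, mem_range.2 hi⟩))
    (mem_coe.2 (mem_product.2 ⟨mem_range.2 ht', mem_range.2 hi'⟩)) e)

theorem dock (D : Dock G h F U s E) (hU : U ⊆ range N) :
    ∃ μ : V → V, Set.InjOn μ E ∧ ∀ x ∈ E, G.Adj x (μ x) ∧ μ x ∈ h.ports N F s := by
  obtain ⟨μ, h1, h2⟩ := D
  refine ⟨μ, h1, fun x hx => ⟨(h2 x hx).1, ?_⟩⟩
  obtain ⟨t, ht, i, hi, e⟩ := (h2 x hx).2
  exact e ▸ port (mem_range.1 (hU ht)) hi

theorem rdisj (H : Hub G Amb Rt N F h) (hs : s < N) (ht : t < N) (hne : s ≠ t) :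
    Disjoint (h.R s) (h.R t) := (H.disj s hs t ht hne).mono (H.rsub s hs) (H.rsub t ht)

/-- Ports of `s` are linked to the first wires towards `t`. -/
theorem wire (H : Hub G Amb Rt N F h) (hs : s < N) (ht : t < N) {f : α → V}
    (hf : ∀ a ∈ S, f a ∈ h.ports N F s) (fi : Set.InjOn f S) (hc : S.card ≤ F) :
    ∃ (σ : α → ℕ) (P : α → Finset V), (∀ a ∈ S, σ a < F) ∧ Set.InjOn σ S ∧
      Lk G (h.R s) S f (fun a => h.pt s t (σ a)) P := by
  have l : ∀ i ∈ range S.card, i < F := fun i hi => (mem_range.1 hi).trans_le hc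
  obtain ⟨σ, P, h1, h2, h3⟩ := link (H.cel s hs) (fun _ => 0) (T := range S.card)
    (e := h.pt s t) hf (fun i hi => port ht (l i hi)) fi
    (fun i hi j hj e => (pinj H hs ht ht (l i hi) (l j hj) e).2) (card_range _).symm
  exact ⟨σ, P, fun a ha => l _ (h1 a ha), h2, h3⟩

theorem touch {H : Finset V} {μ μ' g : V → V} {P : V → Finset V}
    (L : Lk G H I μ (fun a => μ' (g a)) P) (h1 : ∀ x ∈ I, G.Adj x (μ x))
    (h2 : ∀ x ∈ I, G.Adj (g x) (μ' (g x))) :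
    Fam G H I P ∧ ∀ x ∈ I, Touch G {x} (P x) ∧ Touch G (P x) {g x} :=
  ⟨L.fam, fun x hx => ⟨⟨x, mem_singleton_self x, _, L.st x hx, h1 x hx⟩,
    _, L.en x hx, _, mem_singleton_self _, (h2 x hx).symm⟩⟩

/-- A part of a linkage lives in the union of its strands. -/
theorem part {f g : α → V} {P : α → Finset V} (L : Lk G A S f g P) {T : Finset β} {j : β → α}
    (hj : ∀ b ∈ T, j b ∈ S) (ji : Function.Injective j) :
    Lk G (T.biUnion fun b => P (j b)) T (fun b => f (j b)) (fun b => g (j b)) (fun b => P (j b)) ∧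
      (T.biUnion fun b => P (j b)) ⊆ A :=
  ⟨⟨⟨fun _ hb => subset_biUnion_of_mem (fun b => P (j b)) hb, fun b hb => L.fam.conn _ (hj b hb),
    fun a ha b hb e => L.fam.disj _ (hj a ha) _ (hj b hb) (ji.ne e)⟩,
    fun b hb => L.st _ (hj b hb), fun b hb => L.en _ (hj b hb)⟩,
    biUnion_subset.2 fun b hb => L.fam.sub _ (hj b hb)⟩

end Base3

open Base3

theorem jn : JnStmt := by
  intro V G Amb Rt N F h U U' s s' E E' H hU hU' hs hs' hne _ _ D D' hE I hI O hO hc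
  obtain ⟨μ, m1, m2⟩ := dock D hU
  obtain ⟨μ', m1', m2'⟩ := dock D' hU'
  obtain ⟨σ, P, a1, a2, a3⟩ := wire H hs hs' (fun x hx => (m2 x (hI hx)).2) (m1.mono hI)
    ((card_le_card hI).trans hE)
  obtain ⟨g, P', b1, b2, b3⟩ := link (H.cel s' hs') id (S := I) (T := O) (e := μ')
    (f := fun x => h.pt s' s (σ x)) (fun x hx => port hs (a1 x hx))
    (fun x hx => (m2' x (hO hx)).2)
    (fun x hx y hy e => a2 hx hy (pinj H hs' hs hs (a1 x hx) (a1 y hy) e).2) (m1'.mono hO) hc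
  exact ⟨g, _, b1, b2, touch (Base3.cat a3 b3 (rdisj H hs hs' hne) fun x hx =>
    H.adj s hs s' hs' hne _ (a1 x hx)) (fun x hx => (m2 x (hI hx)).1)
    fun x hx => (m2' _ (hO (b1 x hx))).1⟩

theorem jn1 : Jn1Stmt := by
  intro V G Amb Rt N F h U U' s E E' H hU hU' hs D D' I hI O hO hc
  obtain ⟨μ, m1, m2⟩ := dock D hU
  obtain ⟨μ', m1', m2'⟩ := dock D' hU'
  obtain ⟨g, P, b1, b2, b3⟩ := link (H.cel s hs) id (fun x hx => (m2 x (hI hx)).2)
    (fun x hx => (m2' x (hO hx)).2) (m1.mono hI) (m1'.mono hO) hc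
  exact ⟨g, P, b1, b2, touch b3 (fun x hx => (m2 x (hI hx)).1)
    fun x hx => (m2' _ (hO (b1 x hx))).1⟩

theorem jnl : JnlStmt := by
  intro V G H E E' I O J hI hO hc
  obtain ⟨g, P, h1, h2, h3, h4⟩ := J I hI O hO hc
  have : ∀ v, ∃ x y, v ∈ I → x ∈ P v ∧ y ∈ P v ∧ G.Adj v x ∧ G.Adj y (g v) := fun v => by
    by_cases hv : v ∈ I
    · obtain ⟨⟨a, ha, x, hx, e⟩, y, hy, b, hb, e'⟩ := h4 v hv
      rw [mem_singleton] at ha hb
      exact ⟨x, y, fun _ => ⟨hx, hy, ha ▸ e, hb ▸ e'⟩⟩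
    · exact ⟨v, v, fun h => absurd h hv⟩
  choose x y hxy using this
  exact ⟨g, x, y, h1, h2, ⟨P, h3, fun v hv => (hxy v hv).1, fun v hv => (hxy v hv).2.1⟩,
    fun v hv => (hxy v hv).2.2⟩

theorem root : RootStmt := by
  intro V G Amb Rt N F h U U' s s' E E' H hU hU' hs hs' hne D D' hc
  obtain ⟨s0, sN⟩ := mem_erase.1 (hU hs)
  obtain ⟨s0', sN'⟩ := mem_erase.1 (hU' hs')
  rw [mem_range] at sN sN'
  have N0 : 0 < N := by omega
  obtain ⟨μ, m1, m2⟩ := dock D (hU.trans (erase_subset _ _))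
  obtain ⟨μ', m1', m2'⟩ := dock D' (hU'.trans (erase_subset _ _))
  obtain ⟨σ, P, a1, a2, a3⟩ := wire H sN N0 (fun x hx => (m2 x hx).2) m1 (by omega)
  obtain ⟨σ', P', a1', a2', a3'⟩ := wire H sN' N0 (fun x hx => (m2' x hx).2) m1' (by omega)
  obtain ⟨ρ, Q, c1, -, c3⟩ := wire (S := E.disjSum E') H N0 N0
    (f := Sum.elim (fun x => h.pt 0 s (σ x)) fun x => h.pt 0 s' (σ' x))
    (by
      rintro (x | x) hx
      · exact port sN (a1 x (inl_mem_disjSum.1 hx))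
      · exact port sN' (a1' x (inr_mem_disjSum.1 hx)))
    (by
      rintro (x | x) hx (y | y) hy e <;>
        simp only [mem_coe, inl_mem_disjSum, inr_mem_disjSum] at hx hy
      · exact congrArg _ (a2 hx hy (pinj H N0 sN sN (a1 x hx) (a1 y hy) e).2)
      · exact absurd (pinj H N0 sN sN' (a1 x hx) (a1' y hy) e).1 hne
      · exact absurd (pinj H N0 sN' sN (a1' x hx) (a1 y hy) e).1 hne.symm
      · exact congrArg _ (a2' hx hy (pinj H N0 sN' sN' (a1' x hx) (a1' y hy) e).2))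
    (by rwa [card_disjSum])
  obtain ⟨p1, p2⟩ := part c3 (T := E) (fun _ => inl_mem_disjSum.2) Sum.inl_injective
  obtain ⟨q1, q2⟩ := part c3 (T := E') (fun _ => inr_mem_disjSum.2) Sum.inr_injective
  refine ⟨_, _, μ, _, μ', _, p2, q2, ?_,
    ⟨_, Base3.cat a3 p1 ((rdisj H sN N0 s0).mono_right p2) fun x hx =>
      H.adj s sN 0 N0 s0 _ (a1 x hx)⟩,
    ⟨_, Base3.cat a3' q1 ((rdisj H sN' N0 s0').mono_right q2) fun x hx =>
      H.adj s' sN' 0 N0 s0' _ (a1' x hx)⟩,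
    fun v hv => ⟨(m2 v hv).1, H.root _ (c1 _ (inl_mem_disjSum.2 hv))⟩,
    fun v hv => ⟨(m2' v hv).1, H.root _ (c1 _ (inr_mem_disjSum.2 hv))⟩⟩
  rw [disjoint_biUnion_left]
  intro a ha
  rw [disjoint_biUnion_right]
  exact fun b hb => c3.fam.disj _ (inl_mem_disjSum.2 ha) _ (inr_mem_disjSum.2 hb) Sum.inl_ne_inr

end Pool.Agent.MP_35cb46_co.Fl
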