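import Pool.Agent.MP_35cb46_co.fl.USpec
import Pool.Agent.MP_35cb46_co.fl.Base1
import Pool.Agent.MP_35cb46_co.fl.Base3

/-! PROJECT FL: a rich region carries a large thin system. -/

noncomputable section

namespace Pool.Agent.MP_35cb46_co.Fl

open Finset Pool.Agent.MP_7be75d_co Pool.Agent.MP_35cb46_co.Sq Pool.Agent.MP_35cb46_co.Nl
open scoped Classical

namespace Abund

variable {V α β γ δ ι : Type} {G : SimpleGraph V} {Reg H E E' : Finset V} {J : Finset ι}
  {A I O : ι → Finset V} {S : Finset α}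

/-- Linkages in the cells of a layer form one linkage. -/
theorem glue (h : Lay G Reg J A I O) {c : α → ι} {f g : α → V} (hc : ∀ a ∈ S, c a ∈ J)
    (hl : ∀ k ∈ J, Lnk G (A k) (S.filter fun a => c a = k) f g) : Lnk G Reg S f g := by
  have h1 : ∀ k, ∃ P : α → Finset V, k ∈ J → Lk G (A k) (S.filter fun a => c a = k) f g P :=
    fun k => by
      by_cases hk : k ∈ J
      · exact (hl k hk).imp fun _ q _ => q
      · exact ⟨fun _ => ∅, fun q => (hk q).elim⟩
  choose P hP using h1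
  have m : ∀ a ∈ S, a ∈ S.filter fun b => c b = c a := fun a ha => mem_filter.2 ⟨ha, rfl⟩
  have sb : ∀ a ∈ S, P (c a) a ⊆ A (c a) := fun a ha => (hP _ (hc a ha)).fam.sub a (m a ha)
  refine ⟨fun a => P (c a) a, ⟨fun a ha => (sb a ha).trans (h.sub _ (hc a ha)),
    fun a ha => (hP _ (hc a ha)).fam.conn a (m a ha), fun a ha b hb n => ?_⟩,
    fun a ha => (hP _ (hc a ha)).st a (m a ha), fun a ha => (hP _ (hc a ha)).en a (m a ha)⟩
  by_cases q : c a = c b
  · have := (hP _ (hc a ha)).fam.disj a (m a ha) b (mem_filter.2 ⟨hb, q.symm⟩) n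
    rwa [← q]
  · exact (h.disj _ (hc a ha) _ (hc b hb) q).mono (sb a ha) (sb b hb)

/-- All lanes pass a layer that has enough exits. -/
theorem stat (h : Lay G Reg J A I O) {c : α → ι} {e : α → V}
    (hc : ∀ a ∈ S, c a ∈ J ∧ e a ∈ I (c a)) (hi : Set.InjOn e S)
    (hn : ∀ k, cnt S c k ≤ (O k).card) :
    ∃ g : α → V, (∀ a ∈ S, g a ∈ O (c a)) ∧ Lnk G Reg S e g := by
  obtain ⟨S', hS, g, P, h1, h2, h3⟩ :=
    lay V α ι G Reg J A I O O S e c h hc hi fun _ _ => subset_rfl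
  rw [sum_eq_zero fun k _ => Nat.sub_eq_zero_of_le (hn k)] at h3
  obtain rfl := eq_of_subset_of_card_le hS h3
  exact ⟨g, fun a ha => (h2 a ha).1, P, h1⟩

theorem jsym (h : Jn G H E E') : Jn G H E' E := by
  intro Y hY X hX e
  obtain ⟨g, P, g1, g2, g3, g4⟩ := h X hX Y hY e.symm
  have hs : ∀ y, ∃ x, y ∈ Y → x ∈ X ∧ g x = y := fun y => by
    by_cases hy : y ∈ Y
    · obtain ⟨x, hx, ex⟩ := surjOn_of_injOn_of_card_le g g1 g2 e.le hy
      exact ⟨x, fun _ => ⟨hx, ex⟩⟩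
    · exact ⟨y, fun k => (hy k).elim⟩
  choose k hk using hs
  have ki : Set.InjOn k Y := fun y hy z hz q => (hk y hy).2.symm.trans (q ▸ (hk z hz).2)
  refine ⟨k, fun y => P (k y), fun y hy => (hk y hy).1, ki,
    ⟨fun y hy => g3.sub _ (hk y hy).1, fun y hy => g3.conn _ (hk y hy).1,
      fun y hy z hz n => g3.disj _ (hk y hy).1 _ (hk z hz).1 fun q => n (ki hy hz q)⟩,
    fun y hy => ⟨?_, (g4 _ (hk y hy).1).1.symm⟩⟩
  have := (g4 _ (hk y hy).1).2.symm
  rwa [(hk y hy).2] at this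

/-- Lanes are joined to tracks through a junction. -/
theorem jidx {F : ℕ} {o : ℕ → V} (h : Jn G H E ((range F).image o)) (ho : Set.InjOn o ↑(range F))
    {f : α → V} (hf : ∀ a ∈ S, f a ∈ E) (fi : Set.InjOn f S) (hF : S.card ≤ F) :
    ∃ (p : α → ℕ) (x y : α → V), (∀ a ∈ S, p a < F) ∧ Set.InjOn p S ∧ Lnk G H S x y ∧
      ∀ a ∈ S, G.Adj (f a) (x a) ∧ G.Adj (y a) (o (p a)) := by
  have hr : range S.card ⊆ range F := range_subset_range.2 hF
  obtain ⟨g, x, y, g1, g2, g3, g4⟩ := jnl V G H E _ (S.image f) ((range S.card).image o) h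
    (image_subset_iff.2 hf) (image_subset_image hr)
    (by rw [card_image_of_injOn fi, card_image_of_injOn (ho.mono (coe_subset.2 hr)), card_range])
  have m : ∀ a ∈ S, f a ∈ S.image f := fun a ha => mem_image_of_mem f ha
  have : ∀ a, ∃ t, a ∈ S → t ∈ range S.card ∧ o t = g (f a) := fun a => by
    by_cases ha : a ∈ S
    · obtain ⟨b, hb⟩ := mem_image.1 (g1 _ (m a ha))
      exact ⟨b, fun _ => hb⟩
    · exact ⟨0, fun h => absurd h ha⟩
  choose p hp using this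
  refine ⟨p, fun a => x (f a), fun a => y (f a), fun a ha => mem_range.1 (hr (hp a ha).1),
    fun a ha b hb e => fi ha hb (g2 (m a ha) (m b hb) ?_), g3.comp f m fi,
    fun a ha => ⟨(g4 _ (m a ha)).1, (hp a ha).2 ▸ (g4 _ (m a ha)).2⟩⟩
  rw [← (hp a ha).2, ← (hp b hb).2, e]

theorem cnt_le {F : ℕ} {p : α → ℕ} {l : ℕ → ℕ} {T : Finset α} (hT : T ⊆ S)
    (h1 : ∀ a ∈ S, p a < F) (h2 : Set.InjOn p S) (c : ℕ) :
    cnt T (fun a => l (p a)) c ≤ cnt (range F) l c := by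
  refine card_le_card_of_injOn p (fun a ha => ?_) fun a ha b hb e => ?_
  · simp only [coe_filter, Set.mem_ofPred_eq, mem_range] at ha ⊢
    exact ⟨h1 a (hT ha.1), ha.2⟩
  · simp only [coe_filter, Set.mem_ofPred_eq] at ha hb
    exact h2 (hT ha.1) (hT hb.1) e

/-- Mixing in a layer, after the light cells are dropped. -/
theorem mixl (mix : MixStmt) (h : Lay G Reg J A I O) {c : α → ι} {p q : α → V} {a : α → β}
    {b : α → γ} {M s cap e n w : ℕ} (hc : ∀ x ∈ S, c x ∈ J ∧ p x ∈ I (c x) ∧ q x ∈ O (c x))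
    (pi : Set.InjOn p S) (qi : Set.InjOn q S) (hM : 1 ≤ M) (hs : 1 ≤ s) (hcap : 2 * s ≤ cap)
    (he : 8 * e ≤ cap * M ^ 2) (hn : J.card ≤ n) (hw : 16 * M * s * n ≤ w) (hS : w ≤ 2 * S.card)
    (hl : ∀ k l, lump S c a k l ≤ s) (hb : ∀ l, cnt S b l ≤ e) :
    ∃ X ⊆ S, ∃ f : α → α, (∀ x ∈ X, f x ∈ S) ∧ Set.InjOn f X ∧
      Lnk G Reg X q (fun x => p (f x)) ∧ w ≤ 32 * M * X.card ∧
      ∀ l l', lump X a (fun x => b (f x)) l l' ≤ cap := by
  let T := S.filter fun x => 4 * M * s ≤ cnt S c (c x)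
  have hT : T ⊆ S := filter_subset _ _
  have h1 : (S.filter fun x => ¬ 4 * M * s ≤ cnt S c (c x)).card ≤ n * (4 * M * s) := by
    rw [card_eq_sum_card_fiberwise (f := c) (t := J) fun x hx => (hc x (mem_filter.1 hx).1).1]
    refine (sum_le_card_nsmul _ _ (4 * M * s) fun k _ => ?_).trans (Nat.mul_le_mul_right _ hn)
    rcases ((S.filter fun x => ¬ 4 * M * s ≤ cnt S c (c x)).filter
      fun x => c x = k).eq_empty_or_nonempty with e0 | ⟨x, hx⟩
    · rw [e0]; exact Nat.zero_le _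
    · simp only [mem_filter] at hx
      refine le_trans (card_le_card ?_) (hx.2 ▸ (not_le.1 hx.1.2).le : cnt S c k ≤ _)
      exact filter_subset_filter _ (filter_subset _ _)
  have h2 := card_filter_add_card_filter_not (s := S) fun x => 4 * M * s ≤ cnt S c (c x)
  obtain ⟨X, hX, f, f1, f2, f3, f4, f5⟩ := mix α ι β γ T c a b
    (fun k Y f => k ∈ J → Lnk G (A k) Y q fun x => p (f x)) M s cap e hM hs hcap he
    (fun k Y f Y' f' hY hf hm hk => ((hm hk).mono subset_rfl hY).congr (fun _ _ => rfl)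
      fun x hx => by rw [hf x hx])
    (fun k Y hY Z hZ hcard => by
      have mY : ∀ x ∈ Y, x ∈ S ∧ c x = k := fun x hx =>
        ⟨hT (mem_filter.1 (hY hx)).1, (mem_filter.1 (hY hx)).2⟩
      have mZ : ∀ x ∈ Z, x ∈ S ∧ c x = k := fun x hx =>
        ⟨hT (mem_filter.1 (hZ hx)).1, (mem_filter.1 (hZ hx)).2⟩
      by_cases hk : k ∈ J
      · obtain ⟨σ, P, s1, s2, s3⟩ := Base3.link (h.cel k hk).symm id (S := Y) (T := Z) (f := q)
          (e := p) (fun x hx => (mY x hx).2 ▸ (hc x (mY x hx).1).2.2)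
          (fun x hx => (mZ x hx).2 ▸ (hc x (mZ x hx).1).2.1)
          (qi.mono fun x hx => (mY x hx).1) (pi.mono fun x hx => (mZ x hx).1) hcard
        exact ⟨σ, s1, s2, fun _ => ⟨P, s3⟩⟩
      · have : ∀ x, x ∉ Y := fun x hx => hk ((mY x hx).2 ▸ (hc x (mY x hx).1).1)
        exact ⟨id, fun x hx => (this x hx).elim, fun x hx => (this x hx).elim,
          fun q => (hk q).elim⟩)
    (fun x hx => by
      refine (mem_filter.1 hx).2.trans (card_le_card fun z hz => ?_)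
      rw [mem_filter] at hz ⊢
      exact ⟨mem_filter.2 ⟨hz.1, hz.2 ▸ (mem_filter.1 hx).2⟩, hz.2⟩)
    (fun k l => (card_le_card (filter_subset_filter _ hT)).trans (hl k l))
    (fun l => (card_le_card (filter_subset_filter _ hT)).trans (hb l))
  refine ⟨X, hX.trans hT, f, fun x hx => hT (f1 x hx).1, f2,
    glue h (fun x hx => (hc x (hT (hX hx))).1) fun k hk => f3 k hk, ?_, f5⟩
  have h3 : T.card = (S.filter fun x => 4 * M * s ≤ cnt S c (c x)).card := rfl
  nlinarith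

theorem thin {c : α → ι} {a : α → β} {s : ℕ} (k : ι) (l : β) :
    lump (S.filter fun x => lump S c a (c x) (a x) ≤ s) c a k l ≤ s := by
  rcases ((S.filter fun x => lump S c a (c x) (a x) ≤ s).filter
    fun x => c x = k ∧ a x = l).eq_empty_or_nonempty with e0 | ⟨x, hx⟩
  · exact (congrArg card e0).le.trans (Nat.zero_le _)
  · obtain ⟨hx1, rfl, rfl⟩ := mem_filter.1 hx
    exact (card_le_card (filter_subset_filter _ (filter_subset _ _))).trans (mem_filter.1 hx1).2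

/-- Lanes in fat lumps have thin lumps one layer further. -/
theorem fat {c₁ : α → ι} {c₂ : α → γ} {a : α → β} {s u thr : ℕ} (hs : 1 ≤ s)
    (hu : ∀ l, cnt S a l ≤ u) (ht : ∀ c c', lump S c₁ c₂ c c' ≤ thr) (h : u * thr ≤ s ^ 2)
    (k : ι) (l : β) :
    lump (S.filter fun x => ¬ lump S c₂ a (c₂ x) (a x) ≤ s) c₁ a k l ≤ s := by
  set T := S.filter fun x => ¬ lump S c₂ a (c₂ x) (a x) ≤ s with hT
  let D := (T.filter fun x => a x = l).image c₂
  have h1 : D.card * s ≤ u := by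
    refine le_trans ?_ (hu l)
    have : ∀ d ∈ D, s ≤ lump S c₂ a d l := fun d hd => by
      obtain ⟨x, hx, rfl⟩ := mem_image.1 hd
      rw [mem_filter, hT, mem_filter] at hx
      exact hx.2 ▸ (not_le.1 hx.1.2).le
    refine (card_nsmul_le_sum D _ s this).trans ?_
    refine le_trans (le_of_eq ?_) (card_le_card (filter_subset (fun x => c₂ x ∈ D) _))
    rw [card_eq_sum_card_fiberwise (f := c₂) (t := D)
      (s := (S.filter fun x => a x = l).filter fun x => c₂ x ∈ D)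
      fun x hx => mem_coe.2 (mem_filter.1 (mem_coe.1 hx)).2]
    refine sum_congr rfl fun d hd => congrArg card ?_
    ext x
    simp only [mem_filter]
    constructor
    · rintro ⟨x1, rfl, x3⟩; exact ⟨⟨⟨x1, x3⟩, hd⟩, rfl⟩
    · rintro ⟨⟨⟨x1, x3⟩, _⟩, x2⟩; exact ⟨x1, x2, x3⟩
  have h2 : lump T c₁ a k l ≤ D.card * thr := by
    unfold lump
    rw [card_eq_sum_card_fiberwise (f := c₂) (t := D) fun x hx =>
      mem_image_of_mem _ (mem_filter.2 ⟨(mem_filter.1 hx).1, (mem_filter.1 hx).2.2⟩)]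
    refine sum_le_card_nsmul _ _ thr fun d _ => (card_le_card fun x hx => ?_).trans (ht k d)
    simp only [mem_filter, hT] at hx ⊢
    exact ⟨hx.1.1.1, hx.1.2.1, hx.2⟩
  refine Nat.le_of_mul_le_mul_right ?_ hs
  calc lump T c₁ a k l * s ≤ D.card * thr * s := Nat.mul_le_mul_right _ h2
    _ = D.card * s * thr := by ring
    _ ≤ u * thr := Nat.mul_le_mul_right _ h1
    _ ≤ s * s := by rw [← sq]; exact h

/-- A linkage between tracks as a system. -/
theorem sys {W : Finset V} {F : ℕ} {o i : ℕ → V} {p q : α → ℕ} {x y : α → V} (d : α)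
    (hp : ∀ a ∈ S, p a < F) (hq : ∀ a ∈ S, q a < F) (pi : Set.InjOn p S) (qi : Set.InjOn q S)
    (hl : Lnk G W S x y) (ha : ∀ a ∈ S, G.Adj (x a) (o (p a)) ∧ G.Adj (y a) (i (q a)))
    (ls lb : ℕ → ℕ) : ∃ Q π, Sys G W F o i Q π ∧ Q.card = S.card ∧
      ∀ c c', lump Q ls (fun τ => lb (π τ)) c c' ≤
        lump S (fun a => lb (q a)) (fun a => ls (p a)) c' c := by
  have : ∀ τ, ∃ a, τ ∈ S.image p → a ∈ S ∧ p a = τ := fun τ => by
    by_cases h : τ ∈ S.image p
    · exact (mem_image.1 h).imp fun _ k _ => k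
    · exact ⟨d, fun k => (h k).elim⟩
  choose r hr using this
  have ri : Set.InjOn r (S.image p) := fun τ h σ h' e =>
    (hr τ (mem_coe.1 h)).2.symm.trans (e ▸ (hr σ (mem_coe.1 h')).2)
  obtain ⟨P, hP⟩ := hl.comp r (fun τ h => (hr τ h).1) ri
  refine ⟨S.image p, fun τ => q (r τ), ⟨image_subset_iff.2 fun a h => mem_range.2 (hp a h),
    fun τ h => hq _ (hr τ h).1,
    fun τ h σ h' e => ri h h' (qi (hr τ (mem_coe.1 h)).1 (hr σ (mem_coe.1 h')).1 e),
    P, hP.fam, fun τ h => ⟨⟨_, mem_singleton_self _, _, hP.st τ h, ?_⟩,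
      _, hP.en τ h, _, mem_singleton_self _, (ha _ (hr τ h).1).2⟩⟩,
    card_image_of_injOn pi, fun c c' => ?_⟩
  · have := (ha _ (hr τ h).1).1.symm
    rwa [(hr τ h).2] at this
  · refine card_le_card_of_injOn r (fun τ h => ?_) fun τ h σ h' e => ?_
    · simp only [coe_filter, Set.mem_ofPred_eq] at h ⊢
      exact ⟨(hr τ h.1).1, h.2.2, by rw [(hr τ h.1).2]; exact h.2.1⟩
    · simp only [coe_filter, Set.mem_ofPred_eq] at h h'
      exact ri (mem_coe.2 h.1) (mem_coe.2 h'.1) e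

end Abund

open Abund

theorem abund (mix : MixStmt) : AbundStmt := by
  intro V ι G W H₁ H₂ Reg E E' F o i ls lb n thr w M s cap e u w1 w2 w3 d12 d1 d2 hR oi ii j1 j2
    hF hls hlb hM hs hcap he hw hu
  obtain ⟨R₁, R₂, J₁, J₂, A₁, I₁, O₁, A₂, I₂, O₂, S, y, c₁, c₂, r1, r2, dR, L₁, L₂, n1, n2, e1, e2,
    hS, yi, k1, k2, ht, rfl⟩ := hR
  obtain ⟨en, en1, en2⟩ := stat L₁.symm (S := S) (c := c₁) (e := id)
    (fun x hx => ⟨(hS x hx).1, (hS x hx).2.1⟩) (Set.injOn_id _) k1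
  obtain ⟨ex, ex1, ex2⟩ := stat L₂ (S := S) (c := c₂) (e := y)
    (fun x hx => ⟨(hS x hx).2.2.1, (hS x hx).2.2.2.1⟩) yi k2
  obtain ⟨p, x₁, y₁, p1, p2, p3, p4⟩ := jidx (jsym j1) oi (S := S) (f := en)
    (fun x hx => e1 _ (hS x hx).1 (en1 x hx)) en2.inj_right hF
  obtain ⟨q, x₂, y₂, q1, q2, q3, q4⟩ := jidx j2 ii (S := S) (f := ex)
    (fun x hx => e2 _ (hS x hx).2.2.1 (ex1 x hx)) ex2.inj_right hF
  have fin : ∀ X ⊆ S, ∀ a v : V → V, (∀ x ∈ X, a x ∈ S) → (∀ x ∈ X, v x ∈ S) → Set.InjOn v X →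
      Lnk G R₂ X ex (fun x => y (a x)) → Lnk G R₁ X a (fun x => en (v x)) →
      S.card ≤ 32 * M * X.card →
      (∀ l l', lump X (fun x => lb (q x)) (fun x => ls (p (v x))) l l' ≤ cap) →
      ∃ Q π, Sys G W F o i Q π ∧ S.card ≤ 32 * M * Q.card ∧
        ∀ c c', lump Q ls (fun τ => lb (π τ)) c c' ≤ cap := by
    intro X hX a v ha hv vi l2 l1 hc hl
    have l := (((p3.comp v hv vi).symm.cat l1.symm (d1.mono_right r1)
      fun x hx => (p4 _ (hv x hx)).1.symm).cat l2.symm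
      (disjoint_union_left.2 ⟨d1.mono_right r2, dR⟩)
      fun x hx => (hS _ (ha x hx)).2.2.2.2).cat (q3.mono subset_rfl hX)
      (disjoint_union_left.2 ⟨disjoint_union_left.2 ⟨d12, (d2.mono_right r1).symm⟩,
        (d2.mono_right r2).symm⟩) fun x hx => (q4 _ (hX hx)).1
    obtain ⟨Q, π, h1, h2, h3⟩ := sys (W := W) (F := F) (o := o) (i := i) (S := X)
      (p := fun x => p (v x)) (q := q) (o 0) (fun x hx => p1 _ (hv x hx))
      (fun x hx => q1 _ (hX hx)) (fun x hx z hz e => vi hx hz (p2 (hv x hx) (hv z hz) e))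
      (q2.mono (coe_subset.2 hX))
      (l.mono (union_subset (union_subset (union_subset w1 (r1.trans w3)) (r2.trans w3)) w2)
        subset_rfl) (fun x hx => ⟨(p4 _ (hv x hx)).2, (q4 _ (hX hx)).2⟩) ls lb
    exact ⟨Q, π, h1, h2 ▸ hc, fun c c' => (h3 c c').trans (hl c' c)⟩
  have hh := card_filter_add_card_filter_not (s := S)
    fun x => lump S c₂ (fun x => lb (q x)) (c₂ x) (lb (q x)) ≤ s
  by_cases hc : S.card ≤ 2 * (S.filter
      fun x => lump S c₂ (fun x => lb (q x)) (c₂ x) (lb (q x)) ≤ s).card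
  · have hT := filter_subset (fun x => lump S c₂ (fun x => lb (q x)) (c₂ x) (lb (q x)) ≤ s) S
    obtain ⟨X, hX, f, f1, f2, f3, f4, f5⟩ := mixl mix L₂ (c := c₂) (p := y) (q := ex)
      (a := fun x => lb (q x)) (b := fun x => ls (p x))
      (fun x hx => ⟨(hS x (hT hx)).2.2.1, (hS x (hT hx)).2.2.2.1, ex1 x (hT hx)⟩)
      (yi.mono (coe_subset.2 hT)) (ex2.inj_right.mono (coe_subset.2 hT)) hM hs hcap he n2 hw hc
      thin
      fun l => (cnt_le hT p1 p2 l).trans (hls l)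
    exact fin X (hX.trans hT) f f (fun x hx => hT (f1 x hx)) (fun x hx => hT (f1 x hx)) f2 f3
      (en2.comp f (fun x hx => hT (f1 x hx)) f2) f4 f5
  · have hT := filter_subset (fun x => ¬ lump S c₂ (fun x => lb (q x)) (c₂ x) (lb (q x)) ≤ s) S
    obtain ⟨X, hX, f, f1, f2, f3, f4, f5⟩ := mixl mix L₁ (c := c₁) (p := en) (q := id)
      (a := fun x => lb (q x)) (b := fun x => ls (p x))
      (fun x hx => ⟨(hS x (hT hx)).1, en1 x (hT hx), (hS x (hT hx)).2.1⟩)
      (en2.inj_right.mono (coe_subset.2 hT)) (Set.injOn_id _) hM hs hcap he n1 hw (by omega)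
      (fat hs (fun l => (cnt_le subset_rfl q1 q2 l).trans (hlb l)) ht hu)
      fun l => (cnt_le hT p1 p2 l).trans (hls l)
    exact fin X (hX.trans hT) id f (fun x hx => hT (hX hx)) (fun x hx => hT (f1 x hx)) f2
      (ex2.symm.mono subset_rfl (hX.trans hT)) f3 f4 f5

end Pool.Agent.MP_35cb46_co.Fl
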