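import Pool.Agent.MP_35cb46_co.fl.ASpec
import Pool.Agent.MP_35cb46_co.fl.Base1

/-! PROJECT FL: the first state of a chain; the lanes enter a layer. -/

noncomputable section

namespace Pool.Agent.MP_35cb46_co.Fl

open Finset Pool.Agent.MP_7be75d_co Pool.Agent.MP_35cb46_co.Sq Pool.Agent.MP_35cb46_co.Nl
open scoped Classical

namespace Init

variable {V : Type}

theorem enum [Nonempty V] (X : Finset V) :
    ∃ e : ℕ → V, (∀ j < X.card, e j ∈ X) ∧ Set.InjOn e ↑(range X.card) := by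
  refine ⟨fun j => if h : j < X.card then (X.equivFin.symm ⟨j, h⟩ : V) else Classical.arbitrary V,
    fun j hj => ?_, fun i hi j hj h => ?_⟩
  · simp only [dif_pos hj]
    exact (X.equivFin.symm ⟨j, hj⟩).2
  · have hi' : i < X.card := by simpa using hi
    have hj' : j < X.card := by simpa using hj
    simp only [dif_pos hi', dif_pos hj'] at h
    have := X.equivFin.symm.injective (Subtype.ext h)
    simpa using this

theorem split (m : ℕ) : ∀ (T : ℕ) (X : Finset V), T * m ≤ X.card →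
    ∃ D : ℕ → Finset V, (∀ t < T, D t ⊆ X ∧ (D t).card = m) ∧
      ∀ t < T, ∀ t' < T, t ≠ t' → Disjoint (D t) (D t')
  | 0, _, _ => ⟨fun _ => ∅, fun _ h => absurd h (Nat.not_lt_zero _),
      fun _ h => absurd h (Nat.not_lt_zero _)⟩
  | T + 1, X, h => by
    rw [Nat.succ_mul] at h
    obtain ⟨Y, hY, cY⟩ := exists_subset_card_eq (s := X) (n := m) (by omega)
    obtain ⟨D, h1, h2⟩ := split m T (X \ Y) (by rw [card_sdiff_of_subset hY]; omega)
    have h3 : ∀ t < T, Disjoint (D t) Y := fun t ht =>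
      sdiff_disjoint.mono_left (h1 t ht).1
    refine ⟨fun t => if t = T then Y else D t, fun t ht => ?_, fun t ht t' ht' n => ?_⟩
    · by_cases q : t = T
      · simp only [if_pos q]
        exact ⟨hY, cY⟩
      · simp only [if_neg q]
        exact ⟨(h1 t (by omega)).1.trans sdiff_subset, (h1 t (by omega)).2⟩
    · by_cases q : t = T
      · have q' : t' ≠ T := fun e => n (q.trans e.symm)
        simp only [if_pos q, if_neg q']
        exact (h3 t' (by omega)).symm
      · by_cases q' : t' = T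
        · simp only [if_neg q, if_pos q']
          exact h3 t (by omega)
        · simp only [if_neg q, if_neg q']
          exact h2 t (by omega) t' (by omega) n

theorem idx_lt {n T i t : ℕ} (hi : i < n) (ht : t < T) : i * T + t < n * T := by
  have : (i + 1) * T ≤ n * T := Nat.mul_le_mul_right T hi
  rw [Nat.succ_mul] at this
  omega

theorem idx_div {T i t : ℕ} (ht : t < T) : (i * T + t) / T = i := by
  rw [Nat.add_comm, Nat.add_mul_div_right _ _ (by omega), Nat.div_eq_of_lt ht, Nat.zero_add]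

theorem idx_mod {T i t : ℕ} (ht : t < T) : (i * T + t) % T = t := by
  rw [Nat.add_comm, Nat.add_mul_mod_self_right, Nat.mod_eq_of_lt ht]

/-- The dead lanes are counted by the sender. -/
theorem dead (n T ν c : ℕ) (k : ℕ → ℕ) (hc : ν ≤ c) :
    ((range n ×ˢ range T ×ˢ range ν).filter fun a => ¬ a.2.2 < k (a.1 * T + a.2.1)).card ≤
      ∑ i ∈ range (n * T), (c - k i) := by
  have h1 : ((range n ×ˢ range T ×ˢ range ν).filter
      fun a => ¬ a.2.2 < k (a.1 * T + a.2.1)).card ≤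
      ((range (n * T)).sigma fun i => Ico (k i) c).card := by
    refine card_le_card_of_injOn (fun a => ⟨a.1 * T + a.2.1, a.2.2⟩) (fun a ha => ?_)
      (fun a ha b hb h => ?_)
    · simp only [coe_filter, mem_product, mem_range, Set.mem_ofPred_eq] at ha
      simp only [coe_sigma, Set.mem_sigma_iff, coe_range, Set.mem_Iio, coe_Ico, Set.mem_Ico]
      exact ⟨idx_lt ha.1.1 ha.1.2.1, by omega, by omega⟩
    · simp only [coe_filter, mem_product, mem_range, Set.mem_ofPred_eq] at ha hb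
      have h2 : a.1 * T + a.2.1 = b.1 * T + b.2.1 := congrArg Sigma.fst h
      have h3 : a.2.2 = b.2.2 := eq_of_heq (Sigma.mk.inj h).2
      have h4 := congrArg (· / T) h2
      have h5 := congrArg (· % T) h2
      simp only [idx_div ha.1.2.1, idx_div hb.1.2.1, idx_mod ha.1.2.1, idx_mod hb.1.2.1] at h4 h5
      exact Prod.ext h4 (Prod.ext h5 h3)
  simpa [card_sigma, Nat.card_Ico] using h1

end Init

open Init in
theorem init1 (V : Type) [Nonempty V] (G : SimpleGraph V) (p : PC V) (x : CX V) (Past : Finset V)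
    (q : ℕ) (A Ro O : ℕ → Finset V) (h : Hst G Past x.Rt x.nH q x.r x.K A Ro O)
    (hc : Cert G p Past (range x.nH) O) (hb : x.b < 2) (hg : x.r + q ≤ x.g) (hT : 1 ≤ x.T)
    (hE : 1 ≤ x.E) (hν : x.ν * (x.E * x.T) ≤ q / x.T) (hf : x.nH * q ≤ x.f) (hF : x.f ≤ x.F) :
    ∃ s Ex cs, Rdy G p x s (range (x.nH * x.T)) Ex cs (fun _ => q / x.T) 0 ∧
      Dgs x (range (x.nH * x.T)) Ex (fun _ => q / x.T) (q / x.T) ∧ s.Past = Past ∧ s.Fl = ∅ ∧
      s.W.J.card ≤ x.nH ∧ ∀ k < x.nH * x.T, Ex k ⊆ (range x.nH).biUnion O := by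
  have h1 : ∀ i, ∃ D : ℕ → Finset V, i < x.nH → (∀ t < x.T, D t ⊆ O i ∧ (D t).card = q / x.T) ∧
      ∀ t < x.T, ∀ t' < x.T, t ≠ t' → Disjoint (D t) (D t') := fun i => by
    by_cases hi : i < x.nH
    · obtain ⟨D, hD⟩ := split (q / x.T) x.T (O i) (by
        rw [(h.ex i hi).2.1]; exact Nat.mul_div_le q x.T)
      exact ⟨D, fun _ => hD⟩
    · exact ⟨fun _ => ∅, fun k => (hi k).elim⟩
  choose D hD using h1
  have hdiv : ∀ k < x.nH * x.T, k / x.T < x.nH := fun k hk => Nat.div_lt_of_lt_mul (by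
    rwa [Nat.mul_comm])
  have hmod : ∀ k, k % x.T < x.T := fun k => Nat.mod_lt k hT
  have hEx : ∀ k < x.nH * x.T, D (k / x.T) (k % x.T) ⊆ O (k / x.T) := fun k hk =>
    ((hD _ (hdiv k hk)).1 _ (hmod k)).1
  have hdis : ∀ k < x.nH * x.T, ∀ k' < x.nH * x.T, k ≠ k' →
      Disjoint (D (k / x.T) (k % x.T)) (D (k' / x.T) (k' % x.T)) := fun k hk k' hk' n => by
    by_cases e : k / x.T = k' / x.T
    · rw [← e]
      refine (hD _ (hdiv k hk)).2 _ (hmod k) _ (hmod k') fun e' => n ?_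
      rw [← Nat.div_add_mod k x.T, ← Nat.div_add_mod k' x.T, e, e']
    · exact (h.fam.disj _ (mem_range.2 (hdiv k hk)) _ (mem_range.2 (hdiv k' hk')) e).mono
        ((hEx k hk).trans (h.ex _ (hdiv k hk)).1) ((hEx k' hk').trans (h.ex _ (hdiv k' hk')).1)
  have hJ : ∀ i ∈ (range x.nH).image fun i => (x.b, i), i.1 = x.b ∧ i.2 < x.nH := fun i hi => by
    obtain ⟨j, hj, rfl⟩ := mem_image.1 hi
    exact ⟨rfl, mem_range.1 hj⟩
  have hm : x.nH * x.T * (q / x.T) ≤ x.f := by
    rw [Nat.mul_assoc]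
    exact (Nat.mul_le_mul_left _ (Nat.mul_div_le q x.T)).trans hf
  refine ⟨⟨⟨(range x.nH).image fun i => (x.b, i), fun k => A k.2, fun k => Ro k.2 ∪ O k.2, ∅, id,
      fun v => {v}, id, fun _ => (0, 0), (range x.nH).biUnion Ro⟩, x.b, range x.nH, O, Past, ∅⟩,
    fun k => D (k / x.T) (k % x.T), fun k => k % x.T,
    ⟨⟨⟨⟨fun i hi => h.fam.sub _ (mem_range.2 (hJ i hi).2),
        fun i hi => h.fam.conn _ (mem_range.2 (hJ i hi).2), fun i hi j hj n => ?_⟩,
        fun i hi => ⟨union_subset (h.ro _ (hJ i hi).2).1 (h.ex _ (hJ i hi).2).1, ?_,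
          h.wl _ (hJ i hi).2⟩,
        fun v hv => absurd hv (notMem_empty v),
        ⟨⟨fun v hv => absurd hv (notMem_empty v), fun v hv => absurd hv (notMem_empty v),
          fun v hv => absurd hv (notMem_empty v)⟩, fun v hv => absurd hv (notMem_empty v),
          fun v hv => absurd hv (notMem_empty v)⟩,
        fun v hv => absurd hv (notMem_empty v), fun v hv => absurd hv (notMem_empty v),
        ⟨biUnion_subset.2 fun i hi => (h.ro i (mem_range.1 hi)).2.1, disjoint_empty_right _⟩⟩,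
      hc, fun c hc' => ⟨mem_image_of_mem _ hc', subset_union_right, ?_⟩, disjoint_empty_right _,
      empty_subset _, fun i hi => ?_, Nat.mod_eq_of_lt hb,
      fun i hi => ⟨mem_image_of_mem _ (mem_range.2 hi), ?_⟩,
      biUnion_subset.2 fun i hi => (h.ro i (mem_range.1 hi)).1.trans (h.fam.sub i hi)⟩,
      hmod, fun k hk k' hk' => hdis k (mem_range.1 hk) k' (mem_range.1 hk'), fun O' hO' => ?_⟩,
    ⟨fun k hk => ⟨((hD _ (hdiv k (mem_range.1 hk))).1 _ (hmod k)).2.ge, le_rfl⟩, ?_, ?_⟩,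
    rfl, rfl, card_image_le.trans (card_range _).le,
    fun k hk => (hEx k hk).trans (subset_biUnion_of_mem O (mem_range.2 (hdiv k hk)))⟩
  · exact h.fam.disj _ (mem_range.2 (hJ i hi).2) _ (mem_range.2 (hJ j hj).2) fun e =>
      n (Prod.ext ((hJ i hi).1.trans (hJ j hj).1.symm) e)
  · have := card_union_le (Ro i.2) (O i.2)
    rw [(h.ro _ (hJ i hi).2).2.2, (h.ex _ (hJ i hi).2).2.1] at this
    exact this.trans hg
  · change Disjoint (O c) (∅ ∪ (range x.nH).biUnion Ro)
    rw [empty_union, disjoint_biUnion_right]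
    intro i hi
    by_cases e : c = i
    · rw [e]
      exact (h.ex i (mem_range.1 hi)).2.2.symm
    · exact (h.fam.disj c hc' i hi e).mono (h.ex c (mem_range.1 hc')).1
        (h.ro i (mem_range.1 hi)).1
  · rw [(hJ i hi).1]
    exact ⟨le_rfl, Nat.mod_eq_of_lt hb⟩
  · rw [← (h.ro i hi).2.2]
    exact card_le_card (subset_inter (subset_biUnion_of_mem Ro (mem_range.2 hi)) subset_union_left)
  · choose e he using fun k => enum (O' k)
    have hL : ∀ a ∈ x.lanes.filter fun a => a.2.2 < (O' (a.1 * x.T + a.2.1)).card,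
        a.1 < x.nH ∧ a.2.1 < x.T ∧ a.2.2 < (O' (a.1 * x.T + a.2.1)).card := fun a ha => by
      simp only [CX.lanes, mem_filter, mem_product, mem_range] at ha
      exact ⟨ha.1.1, ha.1.2.1, ha.2⟩
    refine ⟨x.lanes.filter fun a => a.2.2 < (O' (a.1 * x.T + a.2.1)).card,
      fun a => e (a.1 * x.T + a.2.1) a.2.2, fun a => e (a.1 * x.T + a.2.1) a.2.2, fun a => a.1,
      fun a => {e (a.1 * x.T + a.2.1) a.2.2}, fun a => a.1 * x.T + a.2.1,
      ⟨filter_subset _ _, ⟨fun a _ => ⟨Conn.singleton _, mem_singleton_self _,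
        mem_singleton_self _, singleton_subset_iff.2 (mem_insert_self _ _)⟩,
        fun a ha b hb' n => ?_⟩, fun a ha => ⟨mem_range.2 (hL a ha).1, ?_⟩, fun S => ?_⟩,
      fun a ha => ⟨mem_range.2 (idx_lt (hL a ha).1 (hL a ha).2.1), (he _).1 _ (hL a ha).2.2,
        idx_mod (hL a ha).2.1⟩, ?_⟩
    · obtain ⟨a1, a2, a3⟩ := hL a ha
      obtain ⟨b1, b2, b3⟩ := hL b hb'
      rw [disjoint_singleton]
      intro e'
      by_cases k : a.1 * x.T + a.2.1 = b.1 * x.T + b.2.1
      · have h4 := congrArg (· / x.T) k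
        have h5 := congrArg (· % x.T) k
        simp only [idx_div a2, idx_div b2, idx_mod a2, idx_mod b2] at h4 h5
        rw [← k] at e' b3
        exact n (Prod.ext h4 (Prod.ext h5
          ((he _).2 (by simpa using a3) (by simpa using b3) e')))
      · have m1 := hO' _ (mem_range.2 (idx_lt a1 a2)) ((he _).1 _ a3)
        have m2 := hO' _ (mem_range.2 (idx_lt b1 b2)) ((he _).1 _ b3)
        rw [← e'] at m2
        exact disjoint_left.1 (hdis _ (idx_lt a1 a2) _ (idx_lt b1 b2) k) m1 m2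
    · obtain ⟨a1, a2, a3⟩ := hL a ha
      have := hEx _ (idx_lt a1 a2) (hO' _ (mem_range.2 (idx_lt a1 a2)) ((he _).1 _ a3))
      rwa [idx_div a2] at this
    · rw [filter_eq_empty_iff.2 fun a _ k => k Iff.rfl, card_empty]
      exact Nat.zero_le _
    · have k1 := card_filter_add_card_filter_not (s := x.lanes)
        (fun a => a.2.2 < (O' (a.1 * x.T + a.2.1)).card)
      have k2 := dead x.nH x.T x.ν (cd (q / x.T) (x.E * x.T)) (fun k => (O' k).card)
        (((Nat.le_div_iff_mul_le (Nat.mul_pos hE hT)).2 hν).trans (Nat.le_succ _))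
      rw [← k1, Nat.add_zero]
      exact Nat.add_le_add_left k2 _
  · rw [sum_const, card_range, smul_eq_mul]
    exact hm
  · rw [card_range]
    exact hm.trans hF

/-- Row INIT with at least one host. -/
def InitStmt1 : Prop := ∀ (V : Type) (G : SimpleGraph V) (p : PC V) (x : CX V) (Past : Finset V)
  (q : ℕ) (A Ro O : ℕ → Finset V), Hst G Past x.Rt x.nH q x.r x.K A Ro O →
  Cert G p Past (range x.nH) O → x.b < 2 → 1 ≤ x.nH → x.r + q ≤ x.g → 1 ≤ x.T → 1 ≤ x.E →
  x.ν * (x.E * x.T) ≤ q / x.T → x.nH * q ≤ x.f → x.f ≤ x.F →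
  ∃ s Ex cs, Rdy G p x s (range (x.nH * x.T)) Ex cs (fun _ => q / x.T) 0 ∧
    Dgs x (range (x.nH * x.T)) Ex (fun _ => q / x.T) (q / x.T) ∧ s.Past = Past ∧ s.Fl = ∅ ∧
    s.W.J.card ≤ x.nH ∧ ∀ k < x.nH * x.T, Ex k ⊆ (range x.nH).biUnion O

theorem init : InitStmt1 := fun V G p x Past q A Ro O h hc hb hn hg hT hE hν hf hF => by
  obtain ⟨v, -⟩ := (h.fam.conn 0 (mem_range.2 hn)).1
  have : Nonempty V := ⟨v⟩
  exact init1 V G p x Past q A Ro O h hc hb hg hT hE hν hf hF

theorem thru (hf : FlyStmt) : ThruStmt := by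
  intro V G p x s J A I O cs q l R hw hl hR hd
  obtain ⟨Lv, st, ps, oc, P, en, y, hF, hinj, hy, hcnt, hcard⟩ := hw.go
  rw [disjoint_union_right] at hd
  have o := hw.org
  refine ⟨⟨o.web, o.cert, o.port, disjoint_union_right.2 ⟨o.disj, hd.1.symm⟩,
    union_subset o.sub hR, o.tag, o.par, o.host, o.ro⟩, hw.col,
    fun k hk k' hk' n => (hl.disj k hk k' hk' n).mono (hl.cel k hk).2.1 (hl.cel k' hk').2.1,
    fun O' hO' => ?_⟩
  obtain ⟨L, hL, g, Q, hk, hg, hc⟩ := lay V _ ℕ G R J A I O O' Lv en y hl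
    (fun a ha => ⟨(hy a ha).1, (hy a ha).2.1⟩) hinj hO'
  have hst : ∀ a ∈ L, st a ∉ R := fun a ha k => by
    obtain ⟨k1, k2⟩ := hF.org a (hL ha)
    obtain ⟨k3, k4, -⟩ := o.port _ k1
    exact disjoint_left.1 hd.1 k (o.web.fam.sub _ k3 ((o.web.pt _ k3).1 (k4 k2)))
  refine ⟨L, st, g, oc, fun a => P a ∪ Q a, y, ⟨hL.trans hF.sub,
    hf V _ G s.Fl R L st ps en g P Q ⟨fun a ha => hF.fly.conn a (hL ha),
      fun a ha b hb => hF.fly.disj a (hL ha) b (hL hb)⟩ hk hd.2
      (fun a ha => ⟨hst a ha, (hy a (hL ha)).2.2.1⟩),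
    fun a ha => hF.org a (hL ha),
    fun S => (card_le_card (filter_subset_filter _ hL)).trans (hF.cut S)⟩,
    fun a ha => ⟨(hy a (hL ha)).1, (hg a ha).1, (hy a (hL ha)).2.2.2⟩, ?_⟩
  have : ∑ k ∈ J, (cnt Lv y k - (O' k).card) ≤ ∑ k ∈ J, (cd (q k) (x.E * x.T) - (O' k).card) :=
    sum_le_sum fun k _ => Nat.sub_le_sub_right (hcnt k) _
  omega

end Pool.Agent.MP_35cb46_co.Fl
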