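import Pool.Agent.MP_35cb46_co.fl.MSpec
import Pool.Agent.MP_35cb46_co.fl.Base3
import Pool.Agent.MP_35cb46_co.fl.Init

/-! PROJECT FL: the top stage and a whole chain. -/

noncomputable section

namespace Pool.Agent.MP_35cb46_co.Fl

open Finset Pool.Agent.MP_7be75d_co Pool.Agent.MP_35cb46_co.Sq Pool.Agent.MP_35cb46_co.Nl
open scoped Classical

namespace Chain

variable {V : Type} {G : SimpleGraph V} {Amb Rt Zr : Finset V} {N F s : ℕ} {h : HD V}
  {U : Finset ℕ}

theorem rsub (H : Hub G Amb Rt N F h) (hs : s < N) (hU : s ∈ U) : h.R s ⊆ h.reg U :=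
  (H.rsub s hs).trans (subset_biUnion_of_mem h.Rg hU)

theorem rdis (H : Hub G Amb Rt N F h) (hs : s ∈ (range N).erase 0) (hU : U ⊆ (range N).erase 0)
    (hn : s ∉ U) (hZ : Zr ⊆ h.R 0) : Disjoint (h.R s) (h.reg U ∪ Zr) := by
  have h1 := mem_range.1 (mem_of_mem_erase hs)
  have h2 := ne_of_mem_erase hs
  refine disjoint_union_right.2 ⟨(disjoint_biUnion_right _ _ _).2 fun t ht => ?_,
    (Base3.rdisj H h1 (by omega) h2).mono_right hZ⟩
  exact (H.disj s h1 t (mem_range.1 (mem_of_mem_erase (hU ht))) fun e => hn (e ▸ ht)).mono_left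
    (H.rsub s h1)

end Chain

open Chain in
theorem topk (ht : TopsStmt) : TopkStmt := by
  intro V G e x s Cu kc kT Zr eK l nJ env pos hy kit hcl hd
  obtain ⟨J, Ex, cs, q, E, rdy, dgs, dock, hE, hEx⟩ := pos.go
  have b1 : kc.b2 ∈ Cu := pos.sub pos.mem
  have b2 := pos.cu b1
  have t1 := kit.top.m1
  have t2 := kit.sub t1
  have b3 := mem_range.1 (mem_of_mem_erase b2)
  have t3 := mem_range.1 (mem_of_mem_erase t2)
  have t4 : kT.t1 ∉ Cu := fun k => disjoint_left.1 hd k t1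
  have hsub : J.biUnion Ex ⊆ E := biUnion_subset.2 hEx
  have hj := jn V G e.Amb x.Rt e.N e.F₀ e.h kc.U kT.U kc.b2 kT.t1 (J.biUnion Ex)
    ((range e.L.F).image kT.ta) env.hub ((pos.sub.trans pos.cu).trans (erase_subset _ _))
    (kit.sub.trans (erase_subset _ _)) b3 t3 (fun k => t4 (k ▸ b1)) (fun k => t4 (pos.sub k))
    (disjoint_left.1 hd b1) (dock.mono subset_rfl hsub) kit.top.dock
    ((card_le_card hsub).trans hE)
  have hp : 0 < 2 * e.L.Po * e.L.T :=
    Nat.mul_pos (Nat.mul_pos two_pos env.lad.po) (env.hT ▸ env.bud.t1)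
  obtain ⟨as, cy, q', h1, h2, h3⟩ := ht V G (e.p G) x s J Ex cs q l eK e.Φ e.Θ e.Z e.δ e.L.d
    (e.h.R kc.b2 ∪ e.h.R kT.t1) kT.ta kT.tn rdy dgs env.bud (env.hF ▸ hj) (env.hF ▸ kit.top.inj)
    (union_subset (rsub env.hub b3 (pos.cl pos.mem)) (rsub env.hub t3 (hcl t1)))
    ((disjoint_union_left.2 ⟨rdis env.hub b2 ((erase_subset _ _).trans pos.cu)
      (notMem_erase _ _) pos.zr, rdis env.hub t2 ((erase_subset _ _).trans pos.cu)
      (fun k => t4 (mem_of_mem_erase k)) pos.zr⟩).mono_right pos.reg)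
    (env.hF ▸ kit.top.load)
    (Nat.le_of_mul_le_mul_left ((env.lad.big 0 (Nat.zero_le _)).trans hy) hp)
    (Nat.le_of_mul_le_mul_left (by rw [← Nat.mul_assoc]; exact env.lad.top.trans hy) hp)
  obtain ⟨A, hA⟩ := kit.top.flex as (env.hT ▸ h1)
  refine ⟨s.add (e.h.R kc.b2 ∪ e.h.R kT.t1), _, A, cy, q', h3, h2, ?_, ?_, pos.card⟩
  · rw [env.hF, env.hT]
    exact hA
  · change s.Past ∪ (s.Fl ∪ (e.h.R kc.b2 ∪ e.h.R kT.t1)) ⊆ _
    rw [← union_assoc]
    refine union_subset (pos.reg.trans (union_subset_union ?_ subset_rfl))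
      ((union_subset (rsub env.hub b3 (mem_insert_of_mem b1))
        (rsub env.hub t3 (mem_insert_self _ _))).trans subset_union_left)
    exact biUnion_subset_biUnion_of_subset_left _ ((erase_subset _ _).trans (subset_insert _ _))

theorem chain (hc : ClimbStmt) (hk : TopkStmt) : ChainStmt := by
  intro V G e x kH kT kS kB Wc Zr q env hb hn kit hcl hZ hosts hg hν hf hy hfr hdis kitT hclT hdT
  obtain ⟨A, Ro, O, E, hst, cert, dock, hE, hO⟩ := hosts
  obtain ⟨s₀, Ex, cs, rdy, dgs, e1, e2, e3, e4⟩ := init V G (e.p G) x _ q A Ro O hst cert hb hn hg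
    env.bud.t1 (le_trans one_le_two env.bud.e2) hν hf env.bud.ff
  have key : ∀ a j, j + a = e.i → ∃ s kc eK,
      Pos G e x s (kH.U ∪ (Ico j e.i).biUnion fun j => mcl (kS j) (kB j) (Wc j)) kc Zr eK
        (3 * a * e.δ) (x.nH + 2 * a * e.n) ∧ e.L.yB j ≤ 2 * e.L.Po * e.L.T * eK := by
    intro a
    induction a with
    | zero =>
      intro j hj
      obtain rfl : j = e.i := hj
      rw [Ico_self, biUnion_empty, union_empty, Nat.mul_zero, Nat.zero_mul, Nat.zero_mul,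
        Nat.add_zero]
      refine ⟨s₀, kH, q / x.T, ⟨⟨_, Ex, cs, _, E, rdy, dgs, dock, hE, fun k hk' =>
        (e4 k (mem_range.1 hk')).trans (biUnion_subset.2 fun a ha => hO a (mem_range.1 ha))⟩,
        ?_, hZ, kit.sub, subset_rfl, hcl, kit.bE.m2, e3⟩, hy⟩
      rw [e1, e2, union_empty]
    | succ a ih =>
      intro j hj
      have hj' : j < e.i := by omega
      obtain ⟨s, kc, eK, pos, hy'⟩ := ih (j + 1) (by omega)
      obtain ⟨s', pos', hy''⟩ := hc V G e x s _ (Wc j) kc (kS j) (kB j) Zr eK _ _ j env hj' pos hy'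
        (hfr j hj').1 (disjoint_union_left.2 ⟨(hfr j hj').2.1,
          (disjoint_biUnion_left _ _ _).2 fun j' k =>
            hdis j' (mem_Ico.1 k).2 j hj' (by have := (mem_Ico.1 k).1; omega)⟩)
      refine ⟨s', kB j, (kB j).eB j, ?_, hy''⟩
      rw [← insert_Ico_add_one_left_eq_Ico hj', biUnion_insert, union_comm (mcl _ _ _),
        ← union_assoc, show 3 * (a + 1) * e.δ = 3 * a * e.δ + 3 * e.δ by ring,
        show x.nH + 2 * (a + 1) * e.n = x.nH + 2 * a * e.n + 2 * e.n by ring]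
      exact pos'
  obtain ⟨s, kc, eK, pos, hy'⟩ := key e.i 0 (Nat.zero_add _)
  rw [← range_eq_Ico] at pos
  rw [show (3 * e.i + 1) * e.δ = 3 * e.i * e.δ + e.δ by ring]
  exact hk V G e x s _ kc kT Zr eK _ _ env pos hy' kitT hclT (disjoint_union_left.2 ⟨hdT,
    (disjoint_biUnion_left _ _ _).2 fun j k => (hfr j (mem_range.1 k)).2.2.symm⟩)

end Pool.Agent.MP_35cb46_co.Fl
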