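import Pool.Agent.MP_35cb46_co.fl.MSpec
import Pool.Agent.MP_35cb46_co.fl.Base1
import Pool.Agent.MP_35cb46_co.fl.Base3

/-! PROJECT FL, row CLIMB: one rung of the ascent. -/

noncomputable section

namespace Pool.Agent.MP_35cb46_co.Fl

open Finset Pool.Agent.MP_7be75d_co Pool.Agent.MP_35cb46_co.Sq Pool.Agent.MP_35cb46_co.Nl
open scoped Classical

namespace Climb

variable {V : Type} {G : SimpleGraph V} {Amb Rt : Finset V} {N F₀ : ℕ} {h : HD V}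

theorem cnt_def {α γ : Type} (I : Finset α) (y : α → γ) (a : γ) [DecidablePred fun i => y i = a] :
    cnt I y a = (I.filter fun i => y i = a).card := by
  unfold cnt
  congr

theorem sum_cnt {α γ : Type} (X : Finset α) (L : α → γ) {I : Finset γ} (hI : ∀ a ∈ X, L a ∈ I) :
    ∑ l ∈ I, cnt X L l = X.card := (card_eq_sum_card_fiberwise hI).symm

theorem card_cells {F e d θ : ℕ} {S : SD} (h : Shape F S e d θ) : (S.cells F).card * e = F := by
  have := sum_cnt (range F) S.ce (I := S.cells F) fun a ha => mem_image_of_mem _ ha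
  rwa [sum_congr rfl h.ce, sum_const, card_range, smul_eq_mul] at this

theorem cnt_le {F e d θ : ℕ} {S : SD} (h : Shape F S e d θ) (c : ℕ) : cnt (range F) S.ce c ≤ e := by
  by_cases hc : c ∈ S.cells F
  · exact (h.ce c hc).le
  · rw [cnt_def, filter_eq_empty_iff.2 fun τ hτ e => hc (mem_image.2 ⟨τ, hτ, e⟩), card_empty]
    exact Nat.zero_le _

theorem numS {L : LP} {Z j e d θ eK : ℕ} (l : Lad L Z) (hj : j < L.m) (hT : 1 ≤ L.T) (hZ : 1 ≤ Z)
    (k : Kind (L.yS j) L.Pi L.Bi L.θ e d θ) (hK : L.yB (j + 1) ≤ 2 * L.Po * L.T * eK) :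
    Z ≤ eK ∧ Z ≤ e ∧ ((θ = 1 ∧ Z * e ≤ eK) ∨ (Z ≤ θ ∧ Z * d ≤ eK ∧ Z * d ≤ e)) := by
  have h0 : 0 < 2 * L.Po * L.T := Nat.mul_pos (Nat.mul_pos two_pos l.po) hT
  obtain ⟨u1, u2, -⟩ := l.up j hj
  have h1 : Z * L.yS j ≤ eK :=
    Nat.le_of_mul_le_mul_left (by rw [← mul_assoc]; exact u1.trans hK) h0
  refine ⟨Nat.le_of_mul_le_mul_left ((l.big (j + 1) hj).trans hK) h0,
    Nat.le_of_mul_le_mul_left (by rw [mul_comm]; exact u2.trans k.1) l.pi, ?_⟩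
  rcases k.2 with ⟨a, b⟩ | ⟨a, b, c⟩
  · exact Or.inl ⟨a, (Nat.mul_le_mul_left _ b).trans h1⟩
  · have h2 := Nat.mul_le_mul_right d l.bi
    refine Or.inr ⟨a ▸ l.th, h2.trans ?_, h2.trans b⟩
    rw [mul_assoc] at c
    exact ((Nat.le_mul_of_pos_left _ l.pi).trans c).trans ((Nat.le_mul_of_pos_left _ hZ).trans h1)

theorem numB {L : LP} {Z j e d θ e' : ℕ} (l : Lad L Z) (hj : j < L.m) (hZ : 1 ≤ Z)
    (k : Kind (L.yB j) L.Po L.Bo L.θ e d θ) (hS : L.yS j ≤ L.Pi * e') :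
    θ = 1 ∨ (Z ≤ θ ∧ Z * d ≤ e' ∧ Z * d ≤ e) := by
  rcases k.2 with ⟨a, -⟩ | ⟨a, b, c⟩
  · exact Or.inl a
  · refine Or.inr ⟨a ▸ l.th, ?_, (Nat.mul_le_mul_right d l.bo).trans b⟩
    have h0 : 0 < L.Po * L.Bo * L.Pi := Nat.mul_pos (Nat.mul_pos l.po (hZ.trans l.bo)) l.pi
    refine Nat.le_of_mul_le_mul_left ?_ h0
    calc _ = Z * L.Pi * (L.Po * L.Bo * d) := by ring
      _ ≤ Z * L.Pi * L.yB j := Nat.mul_le_mul_left _ c
      _ ≤ L.Po * L.Bo * L.yS j := (l.up j hj).2.2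
      _ ≤ L.Po * L.Bo * (L.Pi * e') := Nat.mul_le_mul_left _ hS
      _ = _ := by ring

/-- Few cells. -/
theorem few {F e d θ P y n : ℕ} {S : SD} (s : Shape F S e d θ) (hP : 1 ≤ P) (hF : 1 ≤ F)
    (h1 : P * F ≤ n * y) (h2 : y ≤ P * e) : (S.cells F).card ≤ n := by
  have h3 := card_cells s
  have h4 : 0 < e := Nat.pos_of_ne_zero fun c => by
    rw [c] at h3
    omega
  refine Nat.le_of_mul_le_mul_right (h3.le.trans (Nat.le_of_mul_le_mul_left ?_ hP)) h4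
  calc _ ≤ n * (P * e) := h1.trans (Nat.mul_le_mul_left _ h2)
    _ = _ := by ring

theorem card_fib {F : ℕ} {f : ℕ → V} (hf : Set.InjOn f ↑(range F)) (l : ℕ → ℕ) (c : ℕ) :
    (fib F f l c).card = cnt (range F) l c := by
  rw [fib, card_image_of_injOn (hf.mono (coe_subset.2 (filter_subset _ _))), cnt_def]

/-- The class of a vertex. -/
theorem cls (H : Hub G Amb Rt N F₀ h) : ∃ c : V → ℕ, (∀ t < N, ∀ v ∈ h.Rg t, c v = t) ∧
    ∀ U ⊆ range N, ∀ v ∈ h.reg U, c v ∈ U := by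
  have h1 : ∀ v, ∃ c, ∀ t < N, v ∈ h.Rg t → c = t := fun v => by
    by_cases hv : ∃ t < N, v ∈ h.Rg t
    · obtain ⟨t, ht, hv⟩ := hv
      exact ⟨t, fun s hs hv' => by_contra fun n => disjoint_left.1 (H.disj t ht s hs n) hv hv'⟩
    · exact ⟨0, fun t ht hv' => absurd ⟨t, ht, hv'⟩ hv⟩
  choose c hc using h1
  refine ⟨c, fun t ht v hv => hc v t ht hv, fun U hU v hv => ?_⟩
  obtain ⟨t, ht, hv⟩ := mem_biUnion.1 hv
  exact hc v t (mem_range.1 (hU ht)) hv ▸ ht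

theorem reg_mono {U U' : Finset ℕ} (hU : U ⊆ U') : h.reg U ⊆ h.reg U' :=
  biUnion_subset_biUnion_of_subset_left _ hU

theorem rg_sub {U : Finset ℕ} {t : ℕ} (ht : t ∈ U) : h.Rg t ⊆ h.reg U :=
  subset_biUnion_of_mem h.Rg ht

/-- Five zones. -/
theorem zones (H : Hub G Amb Rt N F₀ h) {Cu US UB Wc : Finset ℕ} {c s1 s2 b1 b2 : ℕ}
    (h1 : Cu ⊆ (range N).erase 0) (h2 : US ⊆ (range N).erase 0) (h3 : UB ⊆ (range N).erase 0)
    (h4 : Wc ⊆ (range N).erase 0) (d : Disjoint Cu (US ∪ UB ∪ Wc)) (d1 : Disjoint US UB)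
    (d2 : Disjoint Wc US) (d3 : Disjoint Wc UB) (m : c ∈ Cu) (m1 : s1 ∈ US) (m2 : s2 ∈ US)
    (m3 : b1 ∈ UB) (n : s1 ≠ s2) : ∃ z : V → ℕ,
      (∀ v ∈ h.reg (Cu.erase c) ∪ h.R 0, z v = 0) ∧ (∀ v ∈ h.R c ∪ h.R s1, z v = 1) ∧
      (∀ v ∈ h.reg ((US.erase s1).erase s2), z v = 2) ∧
      (∀ v ∈ h.Rg s2 ∪ h.Rg b1 ∪ h.reg Wc, z v = 3) ∧
      ∀ v ∈ h.reg ((UB.erase b1).erase b2), z v = 4 := by
  obtain ⟨k, k1, k2⟩ := cls H
  have e : ∀ U : Finset ℕ, U ⊆ (range N).erase 0 → ∀ t ∈ U, t ≠ 0 ∧ t < N := fun U hU t ht =>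
    ⟨(mem_erase.1 (hU ht)).1, mem_range.1 (mem_erase.1 (hU ht)).2⟩
  have r : ∀ U : Finset ℕ, U ⊆ (range N).erase 0 → U ⊆ range N := fun U hU =>
    hU.trans (erase_subset _ _)
  have a1 := e _ h1
  have a2 := e _ h2
  have a3 := e _ h3
  have a4 := e _ h4
  have c0 : ∀ t ∈ Cu, t ∉ US ∧ t ∉ UB ∧ t ∉ Wc := fun t ht => by
    simpa only [mem_union, not_or, and_assoc] using disjoint_left.1 d ht
  have c1 : ∀ t ∈ US, t ∉ UB := fun t ht => disjoint_left.1 d1 ht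
  have c2 : ∀ t ∈ Wc, t ∉ US ∧ t ∉ UB := fun t ht => ⟨disjoint_left.1 d2 ht, disjoint_left.1 d3 ht⟩
  have N0 : 0 < N := by have := a1 c m; omega
  refine ⟨fun v => if k v ∈ Wc ∨ k v = s2 ∨ k v = b1 then 3 else if k v = c ∨ k v = s1 then 1
    else if k v ∈ US then 2 else if k v ∈ UB then 4 else 0, fun v hv => ?_, fun v hv => ?_,
    fun v hv => ?_, fun v hv => ?_, fun v hv => ?_⟩
  · have : k v = 0 ∨ (k v ≠ c ∧ k v ∈ Cu) := (mem_union.1 hv).symm.imp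
      (fun hv => k1 0 N0 v (H.rsub 0 N0 hv))
      fun hv => mem_erase.1 (k2 _ ((erase_subset _ _).trans (r _ h1)) v hv)
    grind
  · have : k v = c ∨ k v = s1 := (mem_union.1 hv).imp
      (fun hv => k1 _ (a1 c m).2 v (H.rsub _ (a1 c m).2 hv))
      fun hv => k1 _ (a2 _ m1).2 v (H.rsub _ (a2 _ m1).2 hv)
    grind
  · have := k2 _ (((erase_subset _ _).trans (erase_subset _ _)).trans (r _ h2)) v hv
    simp only [mem_erase] at this
    grind
  · have : (k v = s2 ∨ k v = b1) ∨ k v ∈ Wc := (mem_union.1 hv).imp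
      (fun hv => (mem_union.1 hv).imp (k1 _ (a2 _ m2).2 v) (k1 _ (a3 _ m3).2 v)) (k2 _ (r _ h4) v)
    grind
  · have := k2 _ (((erase_subset _ _).trans (erase_subset _ _)).trans (r _ h3)) v hv
    simp only [mem_erase] at this
    grind

theorem sep {z : V → ℕ} {A B : Finset V} {P : ℕ → Prop} (h1 : ∀ v ∈ A, P (z v))
    (h2 : ∀ v ∈ B, ¬ P (z v)) : Disjoint A B := disjoint_left.2 fun v a b => h2 v b (h1 v a)

end Climb

open Climb

theorem climb (hq : QselStmt) (hjs : JstepStmt) (ht : ThruStmt) (hw : WstepStmt) : ClimbStmt := by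
  intro V G e x s Cu Wc kc kS kB Zr eK l nJ j En hj Po hK Fr hd
  obtain ⟨J, Ex, cs, q, E, rdy, dgs, dk, cE, hE⟩ := Po.go
  have B := En.bud
  have H := En.hub
  have im := En.urg.im
  have jm : j < e.L.m := hj.trans_le im
  have hF := En.hF.symm
  have T1 : 1 ≤ e.L.T := En.hT ▸ B.t1
  have F1 : 1 ≤ x.F := B.f1.trans B.ff
  have f0 : x.F ≤ e.F₀ := hF ▸ En.f0
  have Φ1 : 1 ≤ e.Φ := Nat.pos_of_ne_zero fun c => by
    have := B.phi
    rw [c] at this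
    omega
  have E1 : 1 ≤ x.E := one_le_two.trans B.e2
  have Θ1 : 1 ≤ e.Θ := le_trans (Nat.mul_pos (Nat.mul_pos Φ1 (Nat.pow_pos E1)) B.t1) B.th
  have Z8 : 8 ≤ e.Z := by have := B.z2; omega
  have Z32 : 32 * e.Φ ≤ e.Z := by
    refine le_trans ?_ B.z1
    calc 32 * e.Φ ≤ 8 * (e.Φ * 1) * 2 ^ 4 * 1 := by omega
      _ ≤ _ := by
        rw [pow_two e.Φ]
        gcongr
        exacts [B.e2, B.t1]
  have sE := Fr.ks.sE
  have sS := Fr.ks.sS
  have sH := Fr.ks.sH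
  have bE := Fr.kb.bE
  have bS := Fr.kb.bS
  have bH := Fr.kb.bH
  obtain ⟨Q, π, sys, cQ, lj, li⟩ := Fr.mod.sys j hj
  rw [hF] at sE sS sH bE bS bH sys
  obtain ⟨R1, R2, sx, a1, r1, r2, d12, g1, g2, ad1⟩ := sS.two j (by omega) e.i (by omega) hj
  obtain ⟨R3, R4, b2, y, r3, r4, d34, g3, g4, ad2⟩ := bS.two e.i (by omega) j (by omega) hj
  have kSj := Fr.ks.sK j jm
  have kBj := Fr.kb.bK j jm
  obtain ⟨n1, n2, n3⟩ := numS En.lad jm T1 (by omega) kSj hK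
  obtain ⟨as, ok, Jt, jq, jc, jl, jb⟩ := hq x.F x.f e.Φ e.Θ e.Z (kS.eS j) (kB.eB j) (kB.dB j)
    (kB.θB j) Q π (kS.S j).ce (kB.B j) sys.sub sys.lt sys.inj cQ B.phi (bH j jm.le)
    (cnt_le (sH j jm.le)) Θ1 B.z2 Z32
    ((numB En.lad jm (by omega) kBj kSj.1).imp_left fun c => ⟨c, lj c⟩)
  have mc : kc.b2 ∈ Cu := Po.sub Po.mem
  obtain ⟨z, z0, z1, z2, z3, z4⟩ := zones (b2 := kB.b2) H Po.cu Fr.ks.sub Fr.kb.sub Fr.ws hd Fr.d1
    Fr.d2 Fr.d3 mc sE.m1 sE.m2 bE.m1 sE.ne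
  have y0 : ∀ v ∈ s.Past ∪ s.Fl, z v = 0 := fun v hv =>
    z0 v (union_subset_union_right Po.zr (Po.reg hv))
  have y1 : ∀ v ∈ R1, z v = 2 := fun v hv => z2 v (r1 hv)
  have y2 : ∀ v ∈ R2, z v = 2 := fun v hv => z2 v (r2 hv)
  have y3 : ∀ v ∈ R3, z v = 4 := fun v hv => z4 v (r3 hv)
  have y4 : ∀ v ∈ R4, z v = 4 := fun v hv => z4 v (r4 hv)
  have x12 : ∀ v ∈ R1, v ∉ R2 := fun v hv => disjoint_left.1 d12 hv
  have x34 : ∀ v ∈ R3, v ∉ R4 := fun v hv => disjoint_left.1 d34 hv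
  have lt : ∀ U : Finset ℕ, U ⊆ (range e.N).erase 0 → ∀ t ∈ U, t < e.N := fun U hU t ht =>
    mem_range.1 (mem_erase.1 (hU ht)).2
  have dS : Disjoint Cu kS.U := hd.mono_right (subset_union_left.trans subset_union_left)
  have ee : ∀ (U : Finset ℕ) a b, (U.erase a).erase b ⊆ U := fun U a b =>
    (erase_subset _ _).trans (erase_subset _ _)
  have c1 : e.h.reg ((kS.U.erase kS.s1).erase kS.s2) ⊆ (e.p G).RC :=
    reg_mono ((ee _ _ _).trans Fr.cs)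
  have c2 : e.h.reg ((kB.U.erase kB.b1).erase kB.b2) ⊆ (e.p G).RC :=
    reg_mono ((ee _ _ _).trans Fr.cb)
  have lc := lt _ Po.cu _ mc
  have l1 := lt _ Fr.ks.sub _ sE.m1
  have l2 := lt _ Fr.ks.sub _ sE.m2
  have l3 := lt _ Fr.kb.sub _ bE.m1
  have jn0 := jn V G e.Amb x.Rt e.N e.F₀ e.h kc.U kS.U kc.b2 kS.s1 E _ H
    ((Po.sub.trans Po.cu).trans (erase_subset _ _)) (Fr.ks.sub.trans (erase_subset _ _)) lc l1
    (fun c => disjoint_left.1 dS mc (c ▸ sE.m1)) (fun c => disjoint_left.1 dS (Po.sub c) sE.m1)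
    (disjoint_left.1 dS mc) dk sE.d1 cE
  have jr : Jt ⊆ range x.F := jq.trans sys.sub
  obtain ⟨as1, cy, q', ok1, w1, s1⟩ := hjs V G _ x s J Jt Ex cs q l eK _ _ _ _ _ _ _ _ kS.sa (kS.S j)
    rdy dgs B (fun I hI => jn0 I (hI.trans (biUnion_subset.2 hE))) g1.pass.inj_left
    (union_subset ((H.rsub _ lc).trans (rg_sub (Po.cl Po.mem)))
      ((H.rsub _ l1).trans (rg_sub (Fr.cs sE.m1))))
    (disjoint_left.2 fun v a b => by have := z1 v a; have := y0 v b; omega)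
    (sH j jm.le) jr jc n1 n3
  obtain ⟨A1, L1⟩ := g1.flex as1 ok1
  have u0 : ∀ v, v ∈ s.Past ∨ v ∈ s.Fl → z v = 0 := fun v hv => y0 v (mem_union.2 hv)
  have w2 := ht V G _ x _ _ _ _ _ _ _ _ R1 w1 L1 (r1.trans c1) (disjoint_left.2 fun v a b => by
    simp only [ST.add, mem_union (s := s.Past), mem_union (s := s.Fl)] at b
    grind)
  have ci : ∀ f : ℕ → V, ((range x.F).image f).card ≤ e.F₀ := fun f =>
    card_image_le.trans ((card_range _).trans_le f0)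
  have ur : e.Θ * e.thr ≤ kS.eS e.i ∧ ((kS.S e.i).cells x.F).card ≤ e.n ∧
      ((kB.B e.i).cells x.F).card ≤ e.n ∧ kB.eB e.i ≤ e.L.yB e.i := by
    rcases im.lt_or_eq with c | c
    · obtain ⟨v1, v2, v3⟩ := En.urg.lt c
      have k1 := Fr.ks.sK _ c
      have k2 := Fr.kb.bK _ c
      rw [hF] at v2 v3
      refine ⟨Nat.le_of_mul_le_mul_left (by rw [mul_comm]; exact v1.trans k1.1) En.lad.pi,
        few (sH _ im) En.lad.pi F1 v2 k1.1, few (bH _ im) En.lad.po F1 v3 k2.1, ?_⟩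
      rcases k2.2 with k | k
      · exact k.2
      · have := En.lad.th
        have := Fr.mod.ty
        omega
    · obtain ⟨v1, v2⟩ := En.urg.eq c
      rw [hF] at v2
      refine ⟨by rw [v1]; exact Nat.zero_le _, card_image_le.trans ((card_range _).trans_le v2),
        card_image_le.trans ((card_range _).trans_le v2), ?_⟩
      rw [c, Fr.kb.bB.1]
      exact le_trans (Nat.mul_pos (Nat.mul_pos (Nat.mul_pos two_pos En.lad.po) T1) (by omega))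
        (En.lad.big _ le_rfl)
  obtain ⟨s', cy', w3, p1, p2, p3⟩ := hw V G _ x _ cy q' _ _ _ _ _ (kS.eS j) _ _ _ _ _ _ R2
    (e.h.Rg kS.s2 ∪ e.h.Rg kB.b1 ∪ e.h.reg Wc) R3 (e.h.Rg kS.s2) (e.h.Rg kB.b1) sx a1 kS.sb kB.ba b2
    y (kS.S j) (kS.S e.i) (kB.B e.i) Q Jt ((kB.B j).cells x.F) π (fun τ => as ((kB.B j).nd τ)) w2 B
    En.ok g1.pass.inj_right (sH j jm.le).ce n2 s1 g2 (sH _ im) g3 (bH _ im)
    (fun τ hτ => ⟨ad1 τ hτ, ad2 τ hτ, (ok τ hτ).1⟩) g4.pass.inj_left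
    ⟨sys.sub, sys.lt, sys.inj, sys.str.imp fun P hP => ⟨⟨fun a ha => (hP.1.sub a ha).trans
      (union_subset_union_left (union_subset_union (H.rsub _ l2) (H.rsub _ l3))), hP.1.conn,
      hP.1.disj⟩, hP.2⟩⟩
    (fun τ hτ => Nat.lt_of_mul_lt_mul_left (ur.1.trans_lt (li τ hτ))) jq jc jl (r2.trans c1)
    (r3.trans c2) (subset_union_left.trans subset_union_left)
    (subset_union_right.trans subset_union_left)
    ⟨_, Fr.cs sE.m2, rfl, sE.d2.mono Fr.cs subset_rfl, ci _⟩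
    ⟨_, Fr.cb bE.m1, rfl, bE.d1.mono Fr.cb subset_rfl, ci _⟩
    (disjoint_left.2 fun v a b => by
      simp only [ST.add, mem_union (s := s.Past), mem_union (s := s.Fl), mem_union (t := R1)] at a
      rw [mem_union, mem_union] at b
      grind)
    (disjoint_left.2 fun v a b => by have := y2 v a; have := z3 v b; omega)
    (disjoint_left.2 fun v a b => by have := y2 v a; have := y3 v b; omega)
    (disjoint_left.2 fun v a b => by have := z3 v a; have := y3 v b; omega) ur.2.1 ur.2.2.1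
    (by rw [En.hg, mul_assoc]; exact Nat.mul_le_mul_left _ Fr.mod.le)
    (by
      rw [En.hg, mul_assoc]
      exact Nat.mul_le_mul_left _ (ur.2.2.2.trans (Nat.le_mul_of_pos_left _ Θ1)))
  obtain ⟨A4, L4⟩ := g4.flex as ok
  have w4 := ht V G _ x _ _ _ _ _ _ _ _ R4 w3 L4 (r4.trans c2) (disjoint_left.2 fun v a b => by
    rw [p1, union_empty, p2, mem_union, mem_union (t := R3), mem_union (s := R2)] at b
    simp only [ST.add, mem_union (s := s.Past), mem_union (s := s.Fl), mem_union (t := R1)] at b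
    grind)
  have nb : ∀ U : Finset ℕ, Disjoint U kB.U → U ⊆ Cu ∪ mcl kS kB Wc →
      U ⊆ (Cu ∪ mcl kS kB Wc).erase kB.b2 := fun U h1 h2 t ht =>
    mem_erase.2 ⟨fun c => disjoint_left.1 h1 ht (c ▸ bE.m2), h2 ht⟩
  have mB : kB.U ⊆ Cu ∪ mcl kS kB Wc :=
    (subset_union_right.trans subset_union_left).trans subset_union_right
  have o1 := nb Cu (hd.mono_right (subset_union_right.trans subset_union_left)) subset_union_left
  have o2 := nb kS.U Fr.d1 ((subset_union_left.trans subset_union_left).trans subset_union_right)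
  have o3 := nb Wc Fr.d3 (subset_union_right.trans subset_union_right)
  have o4 : (kB.U.erase kB.b1).erase kB.b2 ⊆ (Cu ∪ mcl kS kB Wc).erase kB.b2 :=
    erase_subset_erase _ ((erase_subset _ _).trans mB)
  have o5 := r1.trans (reg_mono ((ee _ _ _).trans o2))
  have o6 := r2.trans (reg_mono ((ee _ _ _).trans o2))
  rw [show l + e.δ + 2 * e.δ = l + 3 * e.δ by omega] at w4
  refine ⟨s'.add R4, ⟨⟨_, _, cy', _, _, w4, ⟨fun k hk => ?_, ?_, ?_⟩,
    bE.d2, ci _, fun k _ => image_subset_image (filter_subset _ _)⟩, ?_, Po.zr,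
    union_subset Po.cu (union_subset (union_subset Fr.ks.sub Fr.kb.sub) Fr.ws), mB, Fr.cb, bE.m2,
    p3.trans (Nat.add_le_add_right Po.card _)⟩, kBj.1.trans (Nat.mul_le_mul_right _ ?_)⟩
  · rw [card_fib g4.pass.inj_right, (bH j jm.le).ce k hk]
    exact ⟨jb k, jb k⟩
  · rw [sum_cnt Jt _ fun τ hτ => (ok _ (sys.lt τ (jq hτ))).1, jc]
  · exact (card_cells (bH j jm.le)).le
  · simp only [ST.add, p1, p2, empty_union, union_subset_iff]
    have o7 := Po.reg.trans (union_subset_union_left (reg_mono ((erase_subset _ _).trans o1)))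
    refine ⟨⟨⟨subset_union_left.trans o7, ⟨subset_union_right.trans o7, ?_, ?_⟩, ?_⟩,
      ⟨?_, ⟨?_, ?_⟩, ?_⟩, ?_⟩, ?_⟩ <;> refine Subset.trans ?_ subset_union_left
    exacts [(H.rsub _ lc).trans (rg_sub (o1 mc)), (H.rsub _ l1).trans (rg_sub (o2 sE.m1)), o5, o6,
      rg_sub (o2 sE.m2), rg_sub (mem_erase.2 ⟨bE.ne, mB bE.m1⟩), reg_mono o3,
      r3.trans (reg_mono o4), r4.trans (reg_mono o4)]
  · exact (Nat.le_mul_of_pos_left _ two_pos).trans (Nat.le_mul_of_pos_right _ T1)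

end Pool.Agent.MP_35cb46_co.Fl
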