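import Pool.Agent.MP_35cb46_co.fl.MSpec
import Pool.Agent.MP_35cb46_co.nl.DoneA

/-! PROJECT FL: the glue of the core. -/

noncomputable section

namespace Pool.Agent.MP_35cb46_co.Fl

open Finset Pool.Agent.MP_7be75d_co Pool.Agent.MP_35cb46_co.Sq Pool.Agent.MP_35cb46_co.Nl
open scoped Classical

theorem Hub.le_card {V : Type} [Fintype V] {G : SimpleGraph V} {Amb Rt : Finset V} {N F : ℕ}
    {h : HD V} (H : Hub G Amb Rt N F h) (hN : 0 < N) : F ≤ Fintype.card V := by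
  have hi : Set.InjOn (h.pt 0 0) ↑(range F) := by
    intro a ha b hb e
    have := H.inj 0 hN (x₁ := (0, a)) (x₂ := (0, b))
      (by simpa using ⟨hN, by simpa using ha⟩) (by simpa using ⟨hN, by simpa using hb⟩) e
    simpa using this
  calc F = ((range F).image (h.pt 0 0)).card := by rw [card_image_of_injOn hi, card_range]
    _ ≤ _ := card_le_univ _

theorem inter_cl {κ : Type} [i : DecidableEq κ] (A B : Finset κ) :
    @Inter.inter _ (@instInter κ fun a b => Classical.propDecidable (a = b)) A B = A ∩ B := by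
  congr
  exact Subsingleton.elim _ _

theorem sdiff_cl {κ : Type} [i : DecidableEq κ] (A B : Finset κ) :
    @SDiff.sdiff _ (@instSDiff κ fun a b => Classical.propDecidable (a = b)) A B = A \ B := by
  congr
  exact Subsingleton.elim _ _

theorem coreOf (hc : CellStmt) (hk : KitStmt) (hu : UnitStmt) (hm : MidStmt) (he : EndStmt)
    (hn : NumStmt) : CoreStmt := by
  obtain ⟨c, hc⟩ := hc
  obtain ⟨c₁, hm⟩ := hm
  obtain ⟨c₂, hu⟩ := hu
  obtain ⟨c₃, he⟩ := he
  obtain ⟨C, hn⟩ := hn c c₁ c₂ c₃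
  refine ⟨C, fun Λ => ?_⟩
  obtain ⟨N, T, NT, hN, hN1, hn⟩ := hn Λ
  refine ⟨N, T, NT, hN, hN1, ?_⟩
  intro V _ G Amb Rt F₀ h d p τ hd hV hh ht hdτ hpτ hτ hF
  have hF0 : F₀ < 2 ^ Λ := by
    have := hh.le_card (by omega)
    omega
  obtain ⟨L, B, M, Θ, f, z, Q, E, Φ, Z, δ, B', D, n, rfl, rfl, pre, num, hc1, urg, post⟩ :=
    hn F₀ d p τ hdτ hpτ hτ hF hF0
  obtain ⟨a1, a2, a3, a4, a5, a6, a7, a8⟩ := pre.k1
  obtain ⟨k, hks⟩ := hk c hc V G Amb Rt N F₀ h Λ NT L hd hV hh ht a1 a2 a3 a4 a5 a6 a7 a8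
    pre.k2 pre.k3
  obtain ⟨u1, u2, u3, u4, u5, u6, u7, u8, u9, u10, u11, u12, u13, u14, u15⟩ := pre.u1
  obtain ⟨i, hi, k', Wc, hmod⟩ := hu V G Amb Rt N F₀ h Λ NT L k B M Θ (2 * f) z Q
    (2 * L.m + Λ + 2) n hV hh hks u1 u2 u3 u4 u5 u6 u7 u8 u9 u10 u11 u12 u13 pre.u2 u14 u15
  obtain ⟨W, nH, ν, r, goal, g1, g2, g3⟩ := hm V G Amb Rt N F₀ h L Λ E f Φ Θ Z δ i _ (n i)
    (L.yB i / Q) z k' Wc hd hV hh hmod le_rfl a5 u1 hc1 num (urg i hi)
  obtain ⟨b1, b2, b3, b4, b5, b6, b7, b8⟩ := post.b1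
  obtain ⟨b9, b10, b11⟩ := post.b2 i hi
  have hcard : (range 2 ×ˢ range nH).card * ν = 2 * (nH * ν) := by
    rw [card_product, card_range, card_range]; ring
  have hX : 0 < 8 * E * L.T ^ 2 := by
    have h1 : 0 < E := by have := num.e2; omega
    have h2 : 0 < L.T := by have := num.tt; omega
    positivity
  have hy : 1 ≤ L.yB i := by
    have h1 := num.lad.big i hi
    have h2 := num.lad.po
    have h3 := num.z2
    have h4 := num.tt
    have : 0 < 2 * L.Po * L.T * Z := by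
      have : 0 < Z := by omega
      have : 0 < L.T := by omega
      positivity
    omega
  generalize 8 * E * L.T ^ 2 = X at *
  generalize hw : nH * ν = w at *
  have hg1 : L.yB i ≤ 2 * Θ * L.yB i := Nat.le_mul_of_pos_left _ (by omega)
  obtain ⟨n', P, hP, hn'⟩ := he V (ℕ × ℕ) G Amb Rt (L.yB L.m + 4) (2 * Θ * L.yB i)
    (L.yB i / Q + 1) r ν B' p W _ hd
    (lt_of_lt_of_le (by omega) (Nat.pow_le_pow_right (by norm_num) b1)) goal.web goal.sub goal.ro
    (by omega) b3 (by omega) (by omega)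
    (by
      have h1 : L.yB i ≤ Q * (L.yB i / Q + 1) := (Nat.lt_mul_div_succ _ (by omega)).le
      calc 2 * Θ * L.yB i ≤ 2 * Θ * (Q * (L.yB i / Q + 1)) := Nat.mul_le_mul_left _ h1
        _ = 2 * Θ * Q * (L.yB i / Q + 1) := by ring
        _ ≤ _ := Nat.mul_le_mul_right _ b4)
    (by
      calc 2 * Θ * L.yB i ≤ 2 * Θ * (L.Po * L.yB L.m * r) := Nat.mul_le_mul_left _ g2
        _ = 2 * Θ * (L.Po * L.yB L.m) * r := by ring
        _ ≤ _ := Nat.mul_le_mul_right _ b5)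
    (by
      rw [hcard]
      have h1 : (4 * L.m + 2) * n i * (2 * Θ * L.yB i) * X ≤ B' * w * X := by
        calc _ ≤ B' * f := b9
          _ ≤ B' * (X * w) := Nat.mul_le_mul_left _ g1
          _ = _ := by ring
      have h2 := Nat.le_of_mul_le_mul_right h1 hX
      calc _ ≤ (4 * L.m + 2) * n i * (2 * Θ * L.yB i) := Nat.mul_le_mul_right _ goal.card
        _ ≤ B' * w := h2
        _ ≤ _ := Nat.mul_le_mul_left _ (by omega))
    (fun S hS h1 h2 => by
      rw [inter_cl] at h1 h2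
      rw [sdiff_cl]
      exact (goal.exp S hS h1 h2).trans (Nat.mul_le_mul_right _ b2))
    (by
      rw [hcard]
      have h1 : B' ^ c₃ * (p + 2 * Θ * L.yB i) * X ≤ w * X := by
        calc _ ≤ f := b10
          _ ≤ X * w := g1
          _ = _ := by ring
      have h2 := Nat.le_of_mul_le_mul_right h1 hX
      omega)
  refine ⟨n', P, hP.up Subset.rfl Subset.rfl b6, ?_⟩
  rw [hcard] at hn'
  calc F₀ ≤ D * f := b7
    _ ≤ D * (X * w) := Nat.mul_le_mul_left _ g1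
    _ ≤ D * (X * (B' ^ c₃ * (p + 2 * Θ * L.yB i) * n')) :=
      Nat.mul_le_mul_left _ (Nat.mul_le_mul_left _ (by omega))
    _ = D * X * (B' ^ c₃ * (p + 2 * Θ * L.yB i)) * n' := by ring
    _ ≤ _ := Nat.mul_le_mul_right _ b11

end Pool.Agent.MP_35cb46_co.Fl
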