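import Pool.Agent.MP_35cb46_co.fl.MSpec

/-! PROJECT FL, row DUEL: the game between two chains. -/

noncomputable section

namespace Pool.Agent.MP_35cb46_co.Fl

open Finset Pool.Agent.MP_7be75d_co Pool.Agent.MP_35cb46_co.Sq Pool.Agent.MP_35cb46_co.Nl
open scoped Classical

namespace Duel

variable {V : Type} {G : SimpleGraph V} {Amb Rt Z Z' : Finset V} {N F : ℕ} {h : HD V}
  {U U' : Finset ℕ}

theorem rmono (hU : U ⊆ U') : h.reg U ⊆ h.reg U' := biUnion_subset_biUnion_of_subset_left _ hU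

theorem rdis (H : Hub G Amb Rt N F h) (hU : U ⊆ (range N).erase 0) (hU' : U' ⊆ (range N).erase 0)
    (hd : Disjoint U U') : Disjoint (h.reg U) (h.reg U') := by
  unfold HD.reg
  rw [disjoint_biUnion_left]
  intro s hs
  rw [disjoint_biUnion_right]
  intro t ht
  exact H.disj s (mem_range.1 (mem_of_mem_erase (hU hs))) t
    (mem_range.1 (mem_of_mem_erase (hU' ht))) fun e => disjoint_left.1 hd hs (e ▸ ht)

theorem zdis (H : Hub G Amb Rt N F h) (hU : U ⊆ (range N).erase 0) (hZ : Z ⊆ h.R 0) :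
    Disjoint (h.reg U) Z := by
  unfold HD.reg
  rw [disjoint_biUnion_left]
  intro s hs
  obtain ⟨s0, sN⟩ := mem_erase.1 (hU hs)
  have sN := mem_range.1 sN
  exact (H.disj s sN 0 (by omega) s0).mono_right (hZ.trans (H.rsub 0 (by omega)))

theorem ramb (H : Hub G Amb Rt N F h) (hN : 0 < N) (hU : U ⊆ (range N).erase 0)
    (hZ : Z ⊆ h.R 0) : h.reg U ∪ Z ⊆ Amb :=
  union_subset (biUnion_subset.2 fun s hs => H.sub s (mem_range.1 (mem_of_mem_erase (hU hs))))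
    (hZ.trans ((H.rsub 0 hN).trans (H.sub 0 hN)))

theorem wmono {κ : Type} {A B : Finset V} {K g u : ℕ} {W : WD V κ} (w : Web G A Rt K g u W)
    (hA : A ⊆ B) : Web G B Rt K g u W :=
  ⟨⟨fun a ha => (w.fam.sub a ha).trans hA, w.fam.conn, w.fam.disj⟩, w.pt, w.om,
    ⟨⟨fun a ha => (w.str.fam.sub a ha).trans hA, w.str.fam.conn, w.str.fam.disj⟩, w.str.st,
      w.str.en⟩, w.out, w.fat, w.ro⟩

/-- The region facts of one chain. -/
theorem side (H : Hub G Amb Rt N F h) {Cu : Finset ℕ} {t : ℕ} {X : Finset V}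
    (hC : Cu ⊆ (range N).erase 0) (hU : U ⊆ (range N).erase 0) (ht : t ∈ U) (hd : Disjoint Cu U)
    (hZ : Z ⊆ h.R 0) (hX : X ⊆ h.reg (insert t Cu) ∪ Z) :
    Disjoint X (h.reg (U.erase t)) ∧ X ∪ h.reg (U.erase t) ⊆ h.reg (Cu ∪ U) ∪ Z := by
  have hE : U.erase t ⊆ (range N).erase 0 := (erase_subset _ _).trans hU
  refine ⟨Disjoint.mono_left hX (disjoint_union_left.2 ⟨rdis H (insert_subset (hU ht) hC) hE ?_,
    (zdis H hE hZ).symm⟩), union_subset (hX.trans (union_subset_union (rmono ?_) subset_rfl))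
    ((rmono ((erase_subset _ _).trans subset_union_right)).trans subset_union_left)⟩
  · exact disjoint_insert_left.2 ⟨notMem_erase _ _, hd.mono_right (erase_subset _ _)⟩
  · exact insert_subset (mem_union_right _ ht) subset_union_left

end Duel

open Duel in
theorem duel (hg : GameStmt) : DuelStmt := by
  intro V G e x Cu Cu' kT kT' Zr Zr' l nJ Λ E hb hF hF' K K' hk hk' hC hC' hd hd' hdd hZ hZ' hZZ
    h0 h1 h2 h3 h4
  obtain ⟨s, I, A, cy, q, hW, hcy, hL, hR, hc⟩ := hF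
  obtain ⟨s', I', A', cy', q', hW', hcy', hL', hR', hc'⟩ := hF'
  have H := E.hub
  have m : ∀ t < x.T, kT.cl t ∈ kT.U := fun t ht => K.top.m2 t (E.hT ▸ ht)
  have m' : ∀ t < x.T, kT'.cl t ∈ kT'.U := fun t ht => K'.top.m2 t (E.hT ▸ ht)
  have r : ∀ a ∈ kT.U, a ∈ range e.N := fun a ha => mem_of_mem_erase (K.sub ha)
  have r' : ∀ a ∈ kT'.U, a ∈ range e.N := fun a ha => mem_of_mem_erase (K'.sub ha)
  have hN : 0 < e.N := lt_of_le_of_lt (Nat.zero_le _) (mem_range.1 (r _ K.top.m1))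
  have dU : Disjoint kT.U kT'.U := hdd.mono subset_union_right subset_union_right
  obtain ⟨a1, a2⟩ := side H hC K.sub K.top.m1 hd hZ hR
  obtain ⟨b1, b2⟩ := side H hC' K'.sub K'.top.m1 hd' hZ' hR'
  have u := union_subset hC K.sub
  have u' := union_subset hC' K'.sub
  have inj : ∀ a ∈ range e.N, ∀ b ∈ range e.N,
      Set.InjOn (fun i => e.h.pt a b i) ↑(range (x.nH * x.ν)) := fun a ha b hb i hi j hj hij => by
    have hi : i ∈ range e.F₀ := mem_range.2 ((mem_range.1 (mem_coe.1 hi)).trans_le h0)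
    have hj : j ∈ range e.F₀ := mem_range.2 ((mem_range.1 (mem_coe.1 hj)).trans_le h0)
    exact (Prod.mk.inj (H.inj a (mem_range.1 ha) (x₁ := (b, i)) (x₂ := (b, j))
      (mem_coe.2 (mem_product.2 ⟨hb, hi⟩)) (mem_coe.2 (mem_product.2 ⟨hb, hj⟩)) hij)).2
  obtain ⟨W, hG⟩ := hg V G (e.p G) x s s' I I' A A' _ _ cy cy' q q' l Λ _ _
    (fun t i => e.h.pt (kT.cl t) (kT'.cl t) i) (fun t i => e.h.pt (kT'.cl t) (kT.cl t) i) hb E.ok
    hW hW' (fun t ht => ⟨hcy t ht, hcy' t ht⟩) hL hL'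
    (fun t ht i hi => by
      have hi := hi.trans_le h0
      refine ⟨mem_image.2 ⟨(kT'.cl t, i), mem_product.2 ⟨mem_sdiff.2 ⟨r' _ (m' t ht),
        disjoint_right.1 dU (m' t ht)⟩, mem_range.2 hi⟩, rfl⟩,
        mem_image.2 ⟨(kT.cl t, i), mem_product.2 ⟨mem_sdiff.2 ⟨r _ (m t ht),
        disjoint_left.1 dU (m t ht)⟩, mem_range.2 hi⟩, rfl⟩,
        H.adj _ (mem_range.1 (r _ (m t ht))) _ (mem_range.1 (r' _ (m' t ht))) ?_ i hi⟩
      exact fun e => disjoint_left.1 dU (m t ht) (e ▸ m' t ht))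
    (fun t ht => ⟨inj _ (r _ (m t ht)) _ (r' _ (m' t ht)), inj _ (r' _ (m' t ht)) _ (r _ (m t ht))⟩)
    (rmono ((erase_subset _ _).trans hk)) (rmono ((erase_subset _ _).trans hk')) a1 b1
    (Disjoint.mono a2 b2 (disjoint_union_left.2 ⟨disjoint_union_right.2
      ⟨rdis H u u' hdd, zdis H u hZ'⟩, disjoint_union_right.2 ⟨(zdis H u' hZ).symm, hZZ⟩⟩))
    h1 h2 h3 h4
  exact ⟨W, wmono hG.web (union_subset (a2.trans (ramb H hN u hZ)) (b2.trans (ramb H hN u' hZ'))),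
    hG.sub, hG.ro, hG.card.trans (by omega), hG.exp⟩

end Pool.Agent.MP_35cb46_co.Fl
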