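import Pool.Agent.MP_35cb46_co.fl.Defs

/-! PROJECT FL: the interfaces between the parts. -/

noncomputable section

namespace Pool.Agent.MP_35cb46_co.Fl

open Finset Pool.Agent.MP_7be75d_co Pool.Agent.MP_35cb46_co.Sq Pool.Agent.MP_35cb46_co.Nl
open scoped Classical

variable {V : Type}

/-- The classes of the top group `j`. -/
def tg (T j : ℕ) : Finset ℕ := Ico (1 + j * (T + 2)) (1 + (j + 1) * (T + 2))

/-- `NT` top groups. -/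
def Tops (G : SimpleGraph V) (h : HD V) (N F T d NT : ℕ) : Prop :=
  ∀ j < NT, ∃ s cl a nd, Top G h N F F T d (tg T j) s cl a nd

/-- The data of a kit: a half of tiny stages, a half of big stages, a top stage. -/
structure KD (V : Type) where
  U : Finset ℕ
  (s1 s2 b1 b2 t1 : ℕ)
  (sa sb ba bb ta : ℕ → V)
  (S B : ℕ → SD)
  (eS dS θS eB dB θB cl tn : ℕ → ℕ)

/-- The parameters of the ladder. -/
structure LP where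
  (F m T d θ Pi Bi Po Bo : ℕ)
  (yS yB : ℕ → ℕ)

/-- A kit. Its three components may overlap; only one of them is used. -/
structure Kit (G : SimpleGraph V) (h : HD V) (N F₀ : ℕ) (L : LP) (k : KD V) : Prop where
  sub : k.U ⊆ (range N).erase 0
  three : 3 ≤ k.U.card
  sE : Ends G h F₀ L.F k.U k.s1 k.s2 k.sa k.sb
  sS : Ser G (h.reg ((k.U.erase k.s1).erase k.s2)) L.F (L.m + 1) (· < ·) k.sa k.sb k.S
  sH : ∀ j ≤ L.m, Shape L.F (k.S j) (k.eS j) (k.dS j) (k.θS j)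
  sK : ∀ j < L.m, Kind (L.yS j) L.Pi L.Bi L.θ (k.eS j) (k.dS j) (k.θS j)
  sB : k.eS L.m = 1 ∧ k.θS L.m = 1
  bE : Ends G h F₀ L.F k.U k.b1 k.b2 k.ba k.bb
  bS : Ser G (h.reg ((k.U.erase k.b1).erase k.b2)) L.F (L.m + 1) (· > ·) k.ba k.bb k.B
  bH : ∀ j ≤ L.m, Shape L.F (k.B j) (k.eB j) (k.dB j) (k.θB j)
  bK : ∀ j < L.m, Kind (L.yB j) L.Po L.Bo L.θ (k.eB j) (k.dB j) (k.θB j)
  bB : k.eB L.m = 1 ∧ k.θB L.m = 1
  top : Top G h N F₀ L.F L.T L.d k.U k.t1 k.cl k.ta k.tn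

/-- `n` disjoint kits. -/
structure Kits (G : SimpleGraph V) (h : HD V) (N F₀ : ℕ) (L : LP) (n : ℕ) (k : ℕ → KD V) :
    Prop where
  kit : ∀ a < n, Kit G h N F₀ L (k a)
  disj : ∀ a < n, ∀ b < n, a ≠ b → Disjoint (k a).U (k b).U

/-- A power of two. -/
def P2 (x : ℕ) : Prop := ∃ a, x = 2 ^ a

/-- The cell lemma with the exponent `c`. -/
def Cell (c : ℕ) : Prop := ∀ (V : Type) [Fintype V] (G : SimpleGraph V) (Amb Rt : Finset V)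
  (N F₀ : ℕ) (h : HD V) (Λ B θ F y : ℕ) (U : Finset ℕ) (s s' : ℕ), Deg G univ 6 →
  6 * Fintype.card V < 2 ^ Λ → Hub G Amb Rt N F₀ h → U ⊆ range N → s ∈ U → s' ∈ U → s ≠ s' →
  Λ + 2 ≤ B → θ ≤ B → P2 θ → P2 F → B ^ c ≤ U.card → B ^ c * F ≤ F₀ → B ^ c * B ≤ y → y ≤ F →
  ∃ (a b : ℕ → V) (S : SD) (e d θ' : ℕ), Ends G h F₀ F U s s' a b ∧
    Stg G (h.reg ((U.erase s).erase s')) F a b S ∧ Shape F S e d θ' ∧ Kind y (B ^ c) B θ e d θ'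

/-- Part CELL (helper50). -/
def CellStmt : Prop := ∃ c, Cell c

/-- Part KIT (helper19). -/
def KitStmt : Prop := ∀ c, Cell c → ∀ (V : Type) [Fintype V] (G : SimpleGraph V)
  (Amb Rt : Finset V) (N F₀ : ℕ) (h : HD V) (Λ NT : ℕ) (L : LP), Deg G univ 6 →
  6 * Fintype.card V < 2 ^ Λ → Hub G Amb Rt N F₀ h → Tops G h N F₀ L.T L.d NT →
  Λ + 2 ≤ L.Bi → L.Bi ≤ L.Bo → L.θ ≤ L.Bi → P2 L.θ → P2 L.F → L.Pi = L.Bi ^ c →
  L.Po = L.Bo ^ c → L.Po * L.F ≤ F₀ →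
  (∀ j < L.m, L.Pi * L.Bi ≤ L.yS j ∧ L.yS j ≤ L.F ∧ L.Po * L.Bo ≤ L.yB j ∧ L.yB j ≤ L.F) →
  1 + NT * (L.T + 2) + NT * (2 * (L.m + 1) * (L.Po + 3)) ≤ N → ∃ k, Kits G h N F₀ L NT k

/-- The region between the halves of a module. -/
def wreg (h : HD V) (kS kB : KD V) (Wc : Finset ℕ) : Finset V :=
  h.R kS.s2 ∪ h.R kB.b1 ∪ h.reg Wc

/-- A module with unit rung `i`. -/
structure Mod (G : SimpleGraph V) (h : HD V) (L : LP) (Θ f i : ℕ) (kS kB : KD V)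
    (Wc : Finset ℕ) : Prop where
  ty : kB.θB i = 1
  le : kS.eS i ≤ Θ * L.yB i
  sys : ∀ j < i, ∃ Q π, Sys G (wreg h kS kB Wc) L.F kS.sb kB.ba Q π ∧ f ≤ Q.card ∧
    (kB.θB j = 1 → ∀ c c', Θ * lump Q (kS.S j).ce (fun τ => (kB.B j).ce (π τ)) c c' ≤ kS.eS j) ∧
    ∀ τ ∈ Q, kS.eS i < Θ * lump Q (kS.S i).ce (fun τ => (kB.B i).ce (π τ))
      ((kS.S i).ce τ) ((kB.B i).ce (π τ))

/-- `nm` modules with the same unit rung; their kits are jointly poor. -/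
structure Mods (G : SimpleGraph V) (h : HD V) (N F₀ : ℕ) (L : LP) (Θ f i nm n thr z : ℕ)
    (k : ℕ → KD V) (Wc : ℕ → Finset ℕ) : Prop where
  kits : Kits G h N F₀ L (2 * nm) k
  mod : ∀ μ < nm, Mod G h L Θ f i (k (2 * μ)) (k (2 * μ + 1)) (Wc μ)
  wsub : ∀ μ < nm, Wc μ ⊆ (range N).erase 0
  wk : ∀ μ < nm, ∀ a < 2 * nm, Disjoint (Wc μ) (k a).U
  ww : ∀ μ < nm, ∀ μ' < nm, μ ≠ μ' → Disjoint (Wc μ) (Wc μ')
  poor : PoorC G h F₀ ((range (2 * nm)).biUnion fun a => (k a).U) n thr z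

/-- Part UNIT (helper19). -/
def UnitStmt : Prop := ∃ c, ∀ (V : Type) [Fintype V] (G : SimpleGraph V) (Amb Rt : Finset V)
  (N F₀ : ℕ) (h : HD V) (Λ NK : ℕ) (L : LP) (k : ℕ → KD V) (B M Θ f z Q nm : ℕ) (n : ℕ → ℕ),
  6 * Fintype.card V < 2 ^ Λ → Hub G Amb Rt N F₀ h → Kits G h N F₀ L NK k → L.F ≤ F₀ →
  2 ≤ L.θ → 1 ≤ L.Pi → Λ + 2 ≤ B → M ≤ B → L.m ≤ B → nm ≤ B → 2 ≤ Θ → 100 * Θ ≤ M ^ 2 →
  100 * M * (L.m + 2) * f ≤ L.F → L.F ≤ B * z → 1 ≤ L.yB L.m → L.yB L.m < Q →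
  (∀ j < L.m, L.yB j * L.Pi ≤ B * L.yS j ∧ n j * L.yB j ≤ B * L.F) → B ^ c ≤ Q → B ^ c ≤ NK →
  ∃ i ≤ L.m, ∃ k' Wc, Mods G h N F₀ L Θ f i nm (n i) (L.yB i / Q) z k' Wc

/-- Part BUNDLE (helper65). -/
def BundleStmt : Prop := ∃ c, ∀ (V : Type) [Fintype V] (G : SimpleGraph V) (Amb Rt : Finset V)
  (N F₀ : ℕ) (h : HD V) (x w t n s : ℕ), Deg G univ 6 → Hub G Amb Rt N F₀ h → x < N → w < N →
  t < N → x ≠ w → x ≠ t → w ≠ t → 1 ≤ s → c * (n + 1) * s ≤ F₀ →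
  ∃ A Ro O, Hst G (h.R x) ((range F₀).image (h.pt x w)) n s 1 (s + 1) A Ro O ∧
    ∀ i < n, O i ⊆ (range F₀).image (h.pt x t)

/-- Part END (helper65): the hosts `Hs` carry `ν` players each. -/
def EndStmt : Prop := ∃ c, ∀ (V κ : Type) [Fintype V] (G : SimpleGraph V) (Amb Rt : Finset V)
  (K g u r ν B p : ℕ) (W : WD V κ) (Hs : Finset κ), Deg G univ 6 → Fintype.card V < 2 ^ B →
  Web G Amb Rt K g u W → Hs ⊆ W.J → (∀ i ∈ Hs, r ≤ (W.Ro ∩ W.Pt i).card) → 2 ≤ B → K ≤ B →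
  1 ≤ g → ν ≤ g → g ≤ B * u → g ≤ B * r → W.J.card * g ≤ B * (Hs.card * ν) →
  (∀ S ⊆ W.J, Hs.card ≤ 4 * (Hs ∩ S).card → 2 * (Hs ∩ S).card ≤ Hs.card →
    Hs.card * ν ≤ B * cw W.mu S (W.J \ S)) →
  B ^ c * (p + g) ≤ Hs.card * ν →
  ∃ (n : ℕ) (P : Fin n → Finset V), Parts G Amb Rt p (B ^ c) n P ∧
    Hs.card * ν ≤ B ^ c * (p + g) * n

/-- The core: a hub system with top groups contains many rooted parts. -/
def CoreStmt : Prop := ∃ c, ∀ Λ, ∃ N T NT, N ≤ (Λ + 2) ^ c ∧ 1 + NT * (T + 2) ≤ N ∧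
  ∀ (V : Type) [Fintype V] (G : SimpleGraph V) (Amb Rt : Finset V) (F₀ : ℕ) (h : HD V)
    (d p τ : ℕ), Deg G univ 6 → 6 * Fintype.card V < 2 ^ Λ → Hub G Amb Rt N F₀ h →
    Tops G h N F₀ T d NT → d ≤ τ → p ≤ τ → 1 ≤ τ → (Λ + 2) ^ c * τ ≤ F₀ →
    ∃ (n : ℕ) (P : Fin n → Finset V), Parts G Amb Rt p ((Λ + 2) ^ c) n P ∧
      F₀ ≤ (Λ + 2) ^ c * τ * n

end Pool.Agent.MP_35cb46_co.Fl
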