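import Pool.Agent.MP_35cb46_co.nl.Main
import Pool.Agent.MP_35cb46_co.fl.ISpec

/-! PROJECT FL, part END: a web whose hosts are not separated by small cuts gives thick parts. -/

noncomputable section

namespace Pool.Agent.MP_35cb46_co.Fl

open Finset Pool.Agent.MP_7be75d_co Pool.Agent.MP_35cb46_co.Sq Pool.Agent.MP_35cb46_co.Nl
open scoped Classical

/-- Equality in a subtype is decided classically, as for a general type of points. -/
local instance (priority := high) decEqSub {α : Type} {p : α → Prop} : DecidableEq (Subtype p) :=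
  fun a b => Classical.propDecidable (a = b)

namespace EndP

open DoneP

section LayS

/-- Equality of pairs is decided classically, as for a general type of points. -/
local instance (priority := high) decEqPair' {α β : Type} : DecidableEq (α × β) :=
  fun a b => Classical.propDecidable (a = b)

theorem layS (pat : PatStmt) (patr : PatrStmt) (emb : EmbStmt) : ∃ c : ℕ, ∀ (κ ι : Type)
    [Fintype κ] (X St : Finset κ) (wt : κ → κ → ℝ) (D : ℝ) (B Λ : ℕ) (J₁ J₂ : Finset ι),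
    (∀ a b, wt a b = wt b a) → (∀ a b, 0 ≤ wt a b) → 0 < D → St ⊆ X → St.Nonempty →
    X.card ≤ 2 ^ B →
    (∀ a ∈ X, ∑ b ∈ X, wt a b ≤ D) →
    (∀ S ⊆ X, 2 * S.card ≤ X.card → D * S.card ≤ B * rw wt S (X \ S)) →
    J₁.card ≤ 2 ^ Λ → J₂.card ≤ 2 ^ Λ → 256 * (2 * Λ + 2) ^ 4 ≤ B →
    B ^ c * (J₁.card * J₂.card) ≤ St.card → 1 ≤ J₂.card →
    ∃ (Γ₁ Γ₂ : SimpleGraph ι) (Rw : Finset ι) (co : ι → Finset ι) (π : ι → ι → κ)
      (Bs : ι → ι → Finset κ), DoneP.Lay (sg wt) X (2 * Λ + 2) J₁.card J₂.card Γ₁ Γ₂ Rw co π Bs ∧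
      ∀ i ∈ Rw, ∀ j ∈ co i, π i j ∈ St := by
  obtain ⟨c, hc⟩ := emb
  refine ⟨c, fun κ ι _ X St wt D B Λ J₁ J₂ hs hn hD hSt hX hXc hd he h1 h2 hB hc0 hp => ?_⟩
  obtain ⟨Γ₁, d1, w1⟩ := pat ι J₁ Λ h1
  obtain ⟨Γ₂, d2, w2⟩ := pat ι J₂ Λ h2
  generalize hdd : 2 * Λ + 2 = d at *
  have hd1 : 1 ≤ d := by omega
  have hd4 : d ≤ d ^ 4 := Nat.le_self_pow (by omega) _
  obtain ⟨J', -, π, Bs, e1, e2, e3, e4⟩ := hc κ (ι × ι) X wt D B (J₁ ×ˢ J₂) (box Γ₁ Γ₂)
    (fun _ => St) hs hn hD (by omega) (hX.mono hSt) hXc hd he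
    (fun v hv => (deg_box d1 d2 v hv).trans (by omega)) (fun _ _ => ⟨hSt, hX⟩) (fun z => by
      have a0 : (0 : ℝ) < St.card := by exact_mod_cast hX.card_pos
      have a1 : ((((J₁ ×ˢ J₂).filter fun _ => z ∈ St).card : ℕ) : ℝ) ≤ (J₁.card * J₂.card : ℕ) := by
        exact_mod_cast (card_filter_le _ _).trans (card_product _ _).le
      have a2 : ((B ^ c * (J₁.card * J₂.card) : ℕ) : ℝ) ≤ St.card := by exact_mod_cast hc0
      rw [sum_const, nsmul_eq_mul, ← mul_assoc, mul_inv_le_iff₀ a0, one_mul]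
      refine le_trans ?_ a2
      rw [Nat.cast_mul, Nat.cast_pow]
      exact mul_le_mul_of_nonneg_left a1 (by positivity))
  rw [card_product] at e1
  obtain ⟨bad, hbad⟩ : ∃ bad : ι → Finset ι, ∀ i, bad i = J₂.filter fun j => (i, j) ∉ J' :=
    ⟨_, fun _ => rfl⟩
  have b1 : ∑ i ∈ J₁, (bad i).card ≤ ((J₁ ×ˢ J₂) \ J').card := by
    rw [card_eq_sum_card_fiberwise (f := fun u : ι × ι => u.1) (t := J₁)
      (fun u hu => (mem_product.1 (mem_sdiff.1 (mem_coe.1 hu)).1).1)]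
    refine sum_le_sum fun i hi => card_le_card_of_injOn (fun j => (i, j)) (fun j hj => ?_)
      fun j _ j' _ e => congrArg Prod.snd e
    rw [hbad] at hj
    obtain ⟨c1, c2⟩ := mem_filter.1 (mem_coe.1 hj)
    exact mem_coe.2 (mem_filter.2 ⟨mem_sdiff.2 ⟨mem_product.2 ⟨hi, c1⟩, c2⟩, rfl⟩)
  obtain ⟨BR, hBR⟩ : ∃ BR, BR = J₁.filter fun i => ¬ 16 * d * d * (bad i).card ≤ J₂.card :=
    ⟨_, rfl⟩
  have b2 : BR ⊆ J₁ := hBR ▸ filter_subset _ _
  have b3 : BR.card * J₂.card ≤ 16 * d * d * ((J₁ ×ˢ J₂) \ J').card := by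
    refine le_trans ?_ (Nat.mul_le_mul_left _ ((sum_le_sum_of_subset b2).trans b1))
    rw [mul_sum, ← smul_eq_mul, ← sum_const]
    refine sum_le_sum fun i hi => ?_
    rw [hBR] at hi
    exact (not_le.1 (mem_filter.1 hi).2).le
  have b4 : 16 * d * d * BR.card ≤ J₁.card := by
    refine Nat.le_of_mul_le_mul_left ?_ (show 0 < 16 * d * d * J₂.card by positivity)
    calc 16 * d * d * J₂.card * (16 * d * d * BR.card)
        = 256 * d ^ 4 * (BR.card * J₂.card) := by ring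
      _ ≤ B * (16 * d * d * ((J₁ ×ˢ J₂) \ J').card) := Nat.mul_le_mul hB b3
      _ = 16 * d * d * (B * ((J₁ ×ˢ J₂) \ J').card) := by ring
      _ ≤ 16 * d * d * (J₁.card * J₂.card) := Nat.mul_le_mul_left _ e1
      _ = _ := by ring
  obtain ⟨Rw, r1, r2, r3⟩ := patr ι Γ₁ J₁ BR d d d1 w1 b2 hd1 hd1 b4
  have hco : ∀ i, ∃ C : Finset ι, i ∈ Rw → C ⊆ J₂ ∧ (∀ j ∈ C, (i, j) ∈ J') ∧
      J₂.card < 2 * C.card ∧ WL (aw Γ₂) C (fun _ => 1) (4 * d) := fun i => by
    by_cases hi : i ∈ Rw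
    · obtain ⟨c1, c2⟩ := mem_sdiff.1 (r1 hi)
      have c3 : 16 * d * d * (bad i).card ≤ J₂.card := by
        by_contra c4
        exact c2 (hBR ▸ mem_filter.2 ⟨c1, c4⟩)
      obtain ⟨C, s1, s2, s3⟩ := patr ι Γ₂ J₂ (bad i) d d d2 w2 (hbad i ▸ filter_subset _ _)
        hd1 hd1 c3
      have s4 : C ⊆ J₂ := s1.trans sdiff_subset
      refine ⟨C, fun _ => ⟨s4, fun j hj => ?_, ?_, s3⟩⟩
      · by_contra c4
        exact (mem_sdiff.1 (s1 hj)).2 (hbad i ▸ mem_filter.2 ⟨s4 hj, c4⟩)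
      · have s5 := card_sdiff_add_card_eq_card s4
        rw [mul_assoc, mul_assoc] at s2 c3
        omega
    · exact ⟨∅, fun h => absurd h hi⟩
  choose co hco using hco
  have r4 : Rw ⊆ J₁ := r1.trans sdiff_subset
  refine ⟨Γ₁, Γ₂, Rw, co, fun i j => π (i, j), fun i j => Bs (i, j), ⟨?_, d1.mono r4, r3,
    fun i hi => d2.mono (hco i hi).1, fun i hi => (hco i hi).2.2.2, fun i hi => (hco i hi).2.2.1,
    fun i hi => ⟨fun j hj => e2.sub _ ((hco i hi).2.1 j hj),
      fun j hj => e2.conn _ ((hco i hi).2.1 j hj), fun j hj j' hj' e =>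
        e2.disj _ ((hco i hi).2.1 j hj) _ ((hco i hi).2.1 j' hj') fun e' => e (congrArg Prod.snd e')⟩,
    fun i hi i' hi' e j hj j' hj' => e2.disj _ ((hco i hi).2.1 j hj) _ ((hco i' hi').2.1 j' hj')
      fun e' => e (congrArg Prod.fst e'),
    fun i hi j hj => (e3 _ ((hco i hi).2.1 j hj)).2,
    fun i hi j hj j' hj' h => e4 _ ((hco i hi).2.1 j hj) _ ((hco i hi).2.1 j' hj') (Or.inr ⟨rfl, h⟩),
    fun i hi i' hi' h => ?_⟩, fun i hi j hj => (e3 _ ((hco i hi).2.1 j hj)).1⟩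
  · have s5 := card_sdiff_add_card_eq_card r4
    rw [mul_assoc, mul_assoc] at r2 b4
    omega
  · have s1 : ¬ Disjoint (co i) (co i') := fun hdj => by
      have s2 := card_le_card (union_subset (hco i hi).1 (hco i' hi').1)
      rw [card_union_of_disjoint hdj] at s2
      have s3 := (hco i hi).2.2.1
      have s4 := (hco i' hi').2.2.1
      omega
    obtain ⟨j, hj, hj'⟩ := not_disjoint_iff.1 s1
    exact ⟨j, hj, hj', e4 _ ((hco i hi).2.1 j hj) _ ((hco i' hi').2.1 j hj') (Or.inl ⟨h, rfl⟩)⟩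

end LayS

variable {V κ ι : Type} {G : SimpleGraph V} {Amb Rt : Finset V}

/-- Atoms joined by fat bundles. -/
structure Atm [Fintype κ] (G : SimpleGraph V) (Amb Rt : Finset V) (g B : ℕ) (Y Ro : κ → Finset V)
    (m : κ → κ → ℕ) : Prop where
  fam : Fam G Amb univ Y
  sy : Sy m
  deg : ∀ a, cw m {a} univ ≤ g
  fat : ∀ a b, 0 < m a b → Touch G (Y a) (Y b) ∧ g ≤ B * m a b
  ro : ∀ a, Ro a ⊆ Y a ∧ Ro a ⊆ Rt
  comp : ∀ (U Po : Finset κ) (K₂ : ℕ), WL m U (fun a => g * ind Po a) K₂ →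
    WL (aw G) (U.biUnion Y) (ind (Po.biUnion Ro)) (B * (K₂ + 1))

theorem parts [Fintype V] [Fintype κ] (hG : Deg G univ 6) {g B r d : ℕ} {Y Ro : κ → Finset V}
    {m : κ → κ → ℕ} (hN : Atm G Amb Rt g B Y Ro m) (hr : 1 ≤ r) (hB : 1 ≤ B) (hd : 1 ≤ d)
    {h₀ np p : ℕ} {H : SimpleGraph κ} {X St : Finset κ}
    {Γ₁ Γ₂ : SimpleGraph ι} {Rw : Finset ι} {co : ι → Finset ι} {π : ι → ι → κ}
    {Bs : ι → ι → Finset κ} (hL : DoneP.Lay H X d h₀ np Γ₁ Γ₂ Rw co π Bs)
    (hπ : ∀ i ∈ Rw, ∀ j ∈ co i, π i j ∈ St) (hSt : ∀ a ∈ St, r ≤ (Ro a).card)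
    (hH : ∀ a b, H.Adj a b → 0 < m a b)
    (hp : 42 * (B * (8 * d ^ 2 * B + 1)) * (p + 1) ≤ np * r) :
    ∃ P : Fin Rw.card → Finset V, Parts G Amb Rt p (4 * d ^ 2) Rw.card P := by
  have hT : ∀ a b, H.Adj a b → Touch G (Y a) (Y b) := fun a b h => (hN.fat a b (hH a b h)).1
  have hne : ∀ i ∈ Rw, (co i).Nonempty := fun i hi => card_pos.1 (by have := hL.big i hi; omega)
  refine parts_of Rw (fun i => ((co i).biUnion (Bs i)).biUnion Y)
    ⟨fun i hi => biUnion_subset.2 fun a _ => hN.fam.sub a (mem_univ _), fun i hi => ?_,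
      fun i hi i' hi' e => disjoint_left.2 fun v h1 h2 => ?_⟩ (fun i hi => ?_) (fun i hi => ?_)
    fun S hS Z h1 h2 => ?_
  · refine Conn.biUnion (A := H) (Conn.biUnion (A := Γ₂) ?_ (hL.fam i hi).conn (hL.touch i hi))
      (fun a _ => hN.fam.conn a (mem_univ _)) fun a _ b _ h => hT a b h
    exact (hL.wl2 i hi).conn (hne i hi) (fun _ _ => le_rfl) fun _ _ _ _ _ h => adj_of_aw h
  · obtain ⟨a, ha, h1⟩ := mem_biUnion.1 h1
    obtain ⟨b, hb, h2⟩ := mem_biUnion.1 h2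
    obtain rfl := hN.fam.eq (mem_univ a) (mem_univ b) h1 h2
    obtain ⟨j, hj, ha⟩ := mem_biUnion.1 ha
    obtain ⟨j', hj', hb⟩ := mem_biUnion.1 hb
    exact disjoint_left.1 (hL.cross i hi i' hi' e j hj j' hj') ha hb
  · have w1 := hN.comp _ _ _ (row_wl (w := g) (Δ := B) br (fun a b h => (hN.fat a b (hH a b h)).2)
      hd (hL.deg2 i hi) (hL.wl2 i hi) (hL.fam i hi) (hL.port i hi) (hL.touch i hi))
    refine haven V G _ _ _ p hG w1 (fun v => (ind_le_one _ _).trans (by omega))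
      (Nat.succ_le_of_lt (by positivity)) ?_
    have a0 : ((co i).image (π i)).biUnion Ro ⊆ ((co i).biUnion (Bs i)).biUnion Y :=
      biUnion_subset.2 fun a ha => by
        obtain ⟨j, hj, rfl⟩ := mem_image.1 ha
        exact (hN.ro _).1.trans
          (subset_biUnion_of_mem Y (mem_biUnion.2 ⟨j, hj, hL.port i hi j hj⟩))
    rw [ts_ind, inter_eq_right.2 a0, card_biUnion fun a _ b _ e =>
      (hN.fam.disj a (mem_univ _) b (mem_univ _) e).mono (hN.ro a).1 (hN.ro b).1]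
    have a1 : ((co i).image (π i)).card * r ≤ ∑ a ∈ (co i).image (π i), (Ro a).card :=
      card_le_ts (τ := fun a => (Ro a).card) fun a ha => by
        obtain ⟨j, hj, rfl⟩ := mem_image.1 ha
        exact hSt _ (hπ i hi j hj)
    rw [card_image_of_injOn fun j hj j' hj' e => (hL.fam i hi).eq hj hj'
      (hL.port i hi j hj) ((show π i j = π i j' from e) ▸ hL.port i hi j' hj')] at a1
    have a2 := Nat.mul_le_mul_right r (hL.big i hi).le
    rw [mul_assoc] at a2 hp ⊢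
    omega
  · obtain ⟨j, hj⟩ := hne i hi
    have a1 : π i j ∈ (co i).biUnion (Bs i) := mem_biUnion.2 ⟨j, hj, hL.port i hi j hj⟩
    obtain ⟨v, hv⟩ := card_pos.1 (hr.trans (hSt _ (hπ i hi j hj)))
    exact ⟨v, mem_inter.2 ⟨mem_biUnion.2 ⟨_, a1, (hN.ro _).1 hv⟩, (hN.ro _).2 hv⟩⟩
  · have a1 := hL.wl1 S hS
    have a2 := card_sdiff_add_card_eq_card hS
    rw [ts_const, ts_const, mul_one, mul_one, min_eq_left (by omega)] at a1
    have a3 : cw (aw Γ₁) S (Rw \ S) ≤ cw (aw Γ₁) S (Rw ∩ Z) := by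
      unfold cw
      refine sum_le_sum fun i hi => sum_le_sum_of_ne_zero fun i' hi' h0 => ?_
      obtain ⟨c1, c2⟩ := mem_sdiff.1 hi'
      obtain ⟨j, hj, hj', a, ha, b, hb, hab⟩ :=
        hL.row i (hS hi) i' c1 (adj_of_aw (Nat.pos_of_ne_zero h0))
      have c3 := h2 i hi i' c1 ((hT a b hab).mono
        (subset_biUnion_of_mem Y (mem_biUnion.2 ⟨j, hj, ha⟩))
        (subset_biUnion_of_mem Y (mem_biUnion.2 ⟨j, hj', hb⟩)))
      exact mem_inter.2 ⟨c1, (mem_union.1 c3).resolve_left c2⟩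
    have a4 := hL.deg1.cw_le (F := Rw ∩ Z) inter_subset_left hS
    rw [cw_comm aw_comm] at a4
    have a5 : (Rw ∩ Z).card ≤ Z.card := card_le_card inter_subset_right
    calc S.card ≤ 4 * d * (Z.card * d) := a1.trans (Nat.mul_le_mul_left _
          (a3.trans (a4.trans (Nat.mul_le_mul_right _ a5))))
      _ = _ := by ring

/-- Small weights can be grouped to a balanced share. -/
theorem bal (f : ι → ℕ) (n : ℕ) (D : Finset ι) (h1 : ∀ a ∈ D, 2 * f a ≤ n)
    (h2 : n ≤ 4 * ∑ a ∈ D, f a) : ∃ D' ⊆ D, n ≤ 4 * ∑ a ∈ D', f a ∧ 2 * ∑ a ∈ D', f a ≤ n := by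
  induction D using Finset.induction_on with
  | empty => exact ⟨∅, subset_rfl, h2, by simp⟩
  | insert a D ha ih =>
    by_cases c1 : n ≤ 4 * ∑ a ∈ D, f a
    · obtain ⟨D', e1, e2⟩ := ih (fun b hb => h1 b (mem_insert_of_mem hb)) c1
      exact ⟨D', e1.trans (subset_insert _ _), e2⟩
    by_cases c2 : n ≤ 4 * f a
    · exact ⟨{a}, singleton_subset_iff.2 (mem_insert_self _ _), by simpa using c2,
        by simpa using h1 a (mem_insert_self _ _)⟩
    · refine ⟨_, subset_rfl, h2, ?_⟩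
      rw [sum_insert ha]
      omega

/-- One part of an expander decomposition holds most of the hosts. -/
theorem big [Fintype κ] {m : κ → κ → ℕ} (hm : Sy m) {g B z : ℕ} {Hs : Finset κ} (hB : 2 ≤ B)
    (hz : 0 < z) (hv : Fintype.card κ * g < 2 ^ (3 * B)) (hJ : Fintype.card κ * g ≤ B * z)
    (hc : ∀ S : Finset κ, Hs.card ≤ 4 * (Hs ∩ S).card → 2 * (Hs ∩ S).card ≤ Hs.card →
      z ≤ B * cw m S (univ \ S)) :
    ∃ X : Finset κ, Hs.card < 2 * (Hs ∩ X).card ∧ WL m X (fun _ => g) (2 * B ^ 3 * (3 * B)) := by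
  obtain ⟨PP, p1, p2, p3, p4⟩ := dec κ m (fun _ => g) univ (B ^ 3) (3 * B) hm
    (Nat.one_le_pow _ _ (by omega)) (by rwa [ts_const, card_univ])
  rw [ts_const, card_univ] at p4
  by_contra hn
  push Not at hn
  have e0 : ∀ D ⊆ PP, ∑ P ∈ D, (Hs ∩ P).card = (Hs ∩ un D).card := fun D hD => by
    rw [inter_comm, ← ts_ind, (p1.mono hD).ts_un]
    exact sum_congr rfl fun P _ => by rw [ts_ind, inter_comm]
  obtain ⟨D, d1, d2, d3⟩ := bal (fun P => (Hs ∩ P).card) Hs.card PP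
    (fun P hP => by
      by_contra c
      exact hn P (not_le.1 c) (p3 P hP).2)
    (by rw [e0 PP subset_rfl, p2, inter_univ]; omega)
  rw [e0 D d1] at d2 d3
  have a1 := hc _ d2 d3
  have a2 : cw m (un D) (univ \ un D) ≤ ∑ P ∈ PP, cw m P (univ \ P) := by
    rw [DecP.cw_un (p1.mono d1)]
    exact (sum_le_sum fun P hP => cw_mono subset_rfl
      (sdiff_subset_sdiff subset_rfl (subset_un hP))).trans (sum_le_sum_of_subset d1)
  have a3 : B ^ 3 * z ≤ B * (B * z) :=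
    calc _ ≤ B ^ 3 * (B * ∑ P ∈ PP, cw m P (univ \ P)) :=
          Nat.mul_le_mul_left _ (a1.trans (Nat.mul_le_mul_left _ a2))
      _ = B * (B ^ 3 * ∑ P ∈ PP, cw m P (univ \ P)) := by ring
      _ ≤ _ := Nat.mul_le_mul_left _ (p4.trans hJ)
  have a4 : B * (B * z) * 2 ≤ B ^ 3 * z :=
    calc _ ≤ B * (B * z) * B := Nat.mul_le_mul_left _ hB
      _ = _ := by ring
  have a5 : 0 < B * (B * z) := by positivity
  omega

theorem endA : ∃ c, ∀ (V κ : Type) [Fintype V] [Fintype κ] (G : SimpleGraph V) (Amb Rt : Finset V)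
    (g r ν B p : ℕ) (Y Ro : κ → Finset V) (m : κ → κ → ℕ) (Hs : Finset κ), Deg G univ 6 →
    Fintype.card V < 2 ^ B → Atm G Amb Rt g B Y Ro m → (∀ i ∈ Hs, r ≤ (Ro i).card) → 2 ≤ B →
    1 ≤ g → ν ≤ g → g ≤ B * r → Fintype.card κ * g ≤ B * (Hs.card * ν) →
    (∀ S : Finset κ, Hs.card ≤ 4 * (Hs ∩ S).card → 2 * (Hs ∩ S).card ≤ Hs.card →
      Hs.card * ν ≤ B * cw m S (univ \ S)) →
    B ^ c * (p + g) ≤ Hs.card * ν →
    ∃ (n : ℕ) (P : Fin n → Finset V), Parts G Amb Rt p (B ^ c) n P ∧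
      Hs.card * ν ≤ B ^ c * (p + g) * n := by
  obtain ⟨c, hc⟩ := layS pat (patr trim) (emb (route cheeg))
  refine ⟨19 * c + 21, ?_⟩
  intro V κ _ _ G Amb Rt g r ν B p Y Ro m Hs hG hV hN hr hB hg hν hgr hJ hcut hn
  have hB1 : 1 ≤ B := by omega
  have hmono : ∀ {i j : ℕ}, i ≤ j → B ^ i ≤ B ^ j := fun h => Nat.pow_le_pow_right hB1 h
  obtain ⟨Z, hZ⟩ : ∃ Z, Z = p + g := ⟨_, rfl⟩
  rw [← hZ] at hn ⊢
  have hgZ : g ≤ Z := by omega
  have hz : 0 < Hs.card * ν := lt_of_lt_of_le (Nat.mul_pos (by positivity) (by omega)) hn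
  have hr1 : 1 ≤ r := Nat.pos_of_mul_pos_left (hg.trans hgr)
  have hκ : Fintype.card κ ≤ 2 ^ B := by
    have := hN.fam.card_le
    rw [card_univ] at this
    exact this.trans ((card_le_univ _).trans hV.le)
  obtain ⟨X, hX, hwl⟩ := big (Hs := Hs) (g := g) hN.sy hB hz (by
    obtain ⟨a, ha⟩ := card_pos.1 (Nat.pos_of_mul_pos_right hz)
    have a1 : r < 2 ^ B := lt_of_le_of_lt ((hr a ha).trans (card_le_univ _)) hV
    have a2 : B ≤ 2 ^ B := Nat.lt_two_pow_self.le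
    calc _ ≤ 2 ^ B * (2 ^ B * r) := Nat.mul_le_mul hκ (hgr.trans (Nat.mul_le_mul_right _ a2))
      _ < 2 ^ B * (2 ^ B * 2 ^ B) :=
        Nat.mul_lt_mul_of_pos_left (Nat.mul_lt_mul_of_pos_left a1 (by positivity)) (by positivity)
      _ = _ := by rw [← pow_add, ← pow_add]; congr 1; ring) hJ hcut
  obtain ⟨St, hSt⟩ : ∃ St, St = Hs ∩ X := ⟨_, rfl⟩
  rw [← hSt] at hX
  have hXV : X.card ≤ 2 ^ B := (card_le_univ _).trans hκ
  have hSX : St ⊆ X := hSt ▸ inter_subset_right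
  have hSV : St.card ≤ 2 ^ B := (card_le_card hSX).trans hXV
  obtain ⟨np, hnp⟩ : ∃ np, np = B ^ 17 * Z / g + 1 := ⟨_, rfl⟩
  have hnp1 : B ^ 17 * Z ≤ np * g := by
    rw [hnp, mul_comm _ g]
    exact (Nat.lt_mul_div_succ _ hg).le
  have hnp2 : np * g ≤ 2 * (B ^ 17 * Z) := by
    have a1 := Nat.div_mul_le_self (B ^ 17 * Z) g
    have a2 : Z ≤ B ^ 17 * Z := Nat.le_mul_of_pos_left _ (by positivity)
    rw [hnp, add_mul]
    omega
  obtain ⟨σ, hσ⟩ : ∃ σ, σ = (B ^ 19) ^ c * np := ⟨_, rfl⟩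
  have hσ1 : 1 ≤ σ := by
    rw [hσ, hnp]
    exact Nat.succ_le_of_lt (by positivity)
  have hσ2 : 8 * (σ * g) ≤ B ^ (19 * c + 21) * Z :=
    calc _ = 8 * (B ^ 19) ^ c * (np * g) := by rw [hσ]; ring
      _ ≤ 8 * (B ^ 19) ^ c * (2 * (B ^ 17 * Z)) := Nat.mul_le_mul_left _ hnp2
      _ = 16 * B ^ (19 * c + 17) * Z := by rw [← pow_mul]; ring
      _ ≤ _ := Nat.mul_le_mul_right _ ((pw (i := 4) hB (by norm_num)).trans (hmono (by omega)))
  have hs1 : Hs.card * ν ≤ 2 * St.card * g := Nat.mul_le_mul hX.le hν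
  have hσ3 : σ ≤ St.card := by
    have a1 : 8 * σ ≤ 2 * St.card := Nat.le_of_mul_le_mul_right (by rw [mul_assoc]; omega) hg
    omega
  have hd3 : 2 * B + 2 ≤ 3 * B := by omega
  obtain ⟨Γ₁, Γ₂, Rw, co, π, Bs, hL, hπ⟩ := hc κ ℕ X St (fun a b => (m a b : ℝ)) (g : ℕ) (B ^ 19) B
    (range (St.card / σ)) (range np) (fun a b => by rw [hN.sy a b]) (fun _ _ => Nat.cast_nonneg _)
    (by positivity) hSX (card_pos.1 (by omega))
    (hXV.trans (Nat.pow_le_pow_right (by omega) (Nat.le_self_pow (by omega) _)))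
    (fun a _ => by
      have a1 : ∑ b ∈ X, m a b ≤ g := by
        refine le_trans ?_ (hN.deg a)
        simp only [cw, sum_singleton]
        exact sum_le_sum_of_subset (subset_univ _)
      exact_mod_cast a1)
    (fun S hS h2 => by
      have a1 := hwl S hS
      have a2 := card_sdiff_add_card_eq_card hS
      rw [ts_const, ts_const, min_eq_left (Nat.mul_le_mul_right _ (by omega))] at a1
      have a3 : 2 * B ^ 3 * (3 * B) ≤ B ^ 19 :=
        calc _ = 6 * B ^ 4 := by ring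
          _ ≤ _ := (pw (i := 3) hB (by norm_num)).trans (hmono (by omega))
      have a4 : g * S.card ≤ B ^ 19 * cw m S (X \ S) :=
        (mul_comm g _).le.trans (a1.trans (Nat.mul_le_mul_right _ a3))
      rw [← cast_cw]
      exact_mod_cast a4)
    (by rw [card_range]; exact (Nat.div_le_self _ _).trans hSV)
    (by
      rw [card_range]
      refine le_trans ?_ (hσ3.trans hSV)
      rw [hσ]
      exact Nat.le_mul_of_pos_left _ (by positivity))
    (calc _ ≤ 256 * (3 * B) ^ 4 := by gcongr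
      _ = 20736 * B ^ 4 := by ring
      _ ≤ _ := pw (i := 15) hB (by norm_num))
    (by
      rw [card_range, card_range, mul_left_comm, ← hσ]
      exact Nat.div_mul_le_self _ _)
    (by rw [card_range, hnp]; exact Nat.succ_pos _)
  rw [card_range, card_range] at hL
  obtain ⟨P, hP⟩ := parts (p := p) hG hN hr1 hB1 (by omega) hL hπ
    (fun a ha => hr a (mem_inter.1 (hSt ▸ ha)).1)
    (fun a b h => by
      obtain ⟨-, h | h⟩ := (SimpleGraph.fromRel_adj _ _ _).1 h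
      · exact Nat.cast_pos.1 h
      · rw [hN.sy a b]
        exact Nat.cast_pos.1 h)
    (by
      refine Nat.le_of_mul_le_mul_left ?_ (show 0 < B by omega)
      have a1 : 1 ≤ B ^ 3 := Nat.succ_le_of_lt (by positivity)
      have a2 : 8 * (2 * B + 2) ^ 2 * B + 1 ≤ 73 * B ^ 3 :=
        calc _ ≤ 8 * (3 * B) ^ 2 * B + B ^ 3 := by gcongr
          _ = _ := by ring
      calc _ ≤ B * (42 * (B * (73 * B ^ 3)) * Z) := by gcongr; omega
        _ = 3066 * B ^ 5 * Z := by ring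
        _ ≤ B ^ 17 * Z := Nat.mul_le_mul_right _ (pw (i := 12) hB (by norm_num))
        _ ≤ np * (B * r) := hnp1.trans (Nat.mul_le_mul_left _ hgr)
        _ = _ := by ring)
  refine ⟨_, P, hP.up subset_rfl subset_rfl ?_, ?_⟩
  · calc _ ≤ 4 * (3 * B) ^ 2 := by gcongr
      _ = 36 * B ^ 2 := by ring
      _ ≤ _ := (pw (i := 6) hB (by norm_num)).trans (hmono (by omega))
  · calc Hs.card * ν ≤ 2 * (2 * σ * (2 * Rw.card)) * g := hs1.trans (Nat.mul_le_mul_right _
          (Nat.mul_le_mul_left _ ((le_two_div hσ1 hσ3).trans (Nat.mul_le_mul_left _ hL.card))))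
      _ = 8 * (σ * g) * Rw.card := by ring
      _ ≤ _ := Nat.mul_le_mul_right _ hσ2

/-- The wires of a core. -/
def wires (W : WD V κ) (a : κ) : Finset V := W.Om.filter fun x => W.own x = a

/-- A core with the strands of its wires. -/
def atom (W : WD V κ) (a : κ) : Finset V := W.C a ∪ (wires W a).biUnion W.P

section Web

variable {K g u : ℕ} {W : WD V κ}

theorem mem_wires {a : κ} {x : V} : x ∈ wires W a ↔ x ∈ W.Om ∧ W.own x = a := mem_filter

theorem wires_sub (h : Web G Amb Rt K g u W) (a : κ) : wires W a ⊆ W.Pt a := fun x hx => by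
  obtain ⟨h1, rfl⟩ := mem_wires.1 hx
  exact (h.om x h1).2.1

theorem in_core (h : Web G Amb Rt K g u W) {x : V} (hx : x ∈ W.Om) : x ∈ W.C (W.own x) :=
  (h.pt _ (h.om x hx).1).1 (h.om x hx).2.1

theorem strand_sub {x : V} (hx : x ∈ W.Om) : W.P x ⊆ atom W (W.own x) :=
  (subset_biUnion_of_mem W.P (mem_wires.2 ⟨hx, rfl⟩)).trans subset_union_right

theorem atom_disj (h : Web G Amb Rt K g u W) {a b : κ} (ha : a ∈ W.J) (hb : b ∈ W.J)
    (e : a ≠ b) : Disjoint (atom W a) (atom W b) := by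
  have key : ∀ {a b : κ}, a ∈ W.J → b ∈ W.J → a ≠ b → ∀ v ∈ W.C a,
      v ∉ (wires W b).biUnion W.P := fun {a b} ha hb e v h1 h2 => by
    obtain ⟨x, hx, h3⟩ := mem_biUnion.1 h2
    obtain ⟨h4, rfl⟩ := mem_wires.1 hx
    obtain rfl := h.out x h4 a ha v h3 h1
    exact e (h.fam.eq ha hb h1 (in_core h h4))
  refine disjoint_left.2 fun v h1 h2 => ?_
  rcases mem_union.1 h1 with h1 | h1 <;> rcases mem_union.1 h2 with h2 | h2
  · exact e (h.fam.eq ha hb h1 h2)
  · exact key ha hb e v h1 h2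
  · exact key hb ha e.symm v h2 h1
  · obtain ⟨x, hx, h3⟩ := mem_biUnion.1 h1
    obtain ⟨y, hy, h4⟩ := mem_biUnion.1 h2
    obtain rfl := h.str.fam.eq (mem_wires.1 hx).1 (mem_wires.1 hy).1 h3 h4
    exact e ((mem_wires.1 hx).2.symm.trans (mem_wires.1 hy).2)

theorem atom_conn (h : Web G Amb Rt K g u W) {a : κ} (ha : a ∈ W.J) : Conn G (atom W a) := by
  obtain ⟨z, hz⟩ := (h.fam.conn a ha).1
  refine Conn.of_center (mem_union_left _ hz) fun v hv => ?_
  rcases mem_union.1 hv with e | e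
  · exact (h.fam.conn a ha).r hz e subset_union_left
  · obtain ⟨x, hx, e'⟩ := mem_biUnion.1 e
    obtain ⟨h1, rfl⟩ := mem_wires.1 hx
    exact ((h.fam.conn _ ha).r hz (in_core h h1) subset_union_left).trans
      ((h.str.fam.conn x h1).r (h.str.st x h1) e' (strand_sub h1))

theorem atom_wl (h : Web G Amb Rt K g u W) {B : ℕ} (hK : K ≤ B) (hB : 1 ≤ B) {a : κ}
    (ha : a ∈ W.J) :
    WL (aw G) (atom W a) (ind (W.Ro ∩ W.Pt a ∪ (wires W a).image W.tl)) B := by
  refine ext V V G (W.C a) (W.Ro ∩ W.Pt a) (wires W a) W.tl id W.P B hB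
    (inter_subset_right.trans (h.pt a ha).1)
    (fun x hx e => disjoint_left.1 h.ro.2 (mem_inter.1 e).1 (mem_wires.1 hx).1)
    (fun x hx => ?_)
    (fun x hx y hy e => h.str.fam.disj x (mem_wires.1 hx).1 y (mem_wires.1 hy).1 e)
    (((h.pt a ha).2.2.tau fun v _ => ind_mono fun hv => ?_).up hK)
  · obtain ⟨h1, rfl⟩ := mem_wires.1 hx
    refine ⟨h.str.fam.conn x h1, ?_, h.str.en x h1⟩
    ext v
    rw [mem_inter, mem_singleton]
    exact ⟨fun e => h.out x h1 _ ha v e.1 e.2, fun e => by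
      rw [e]; exact ⟨h.str.st x h1, in_core h h1⟩⟩
  · rcases mem_union.1 hv with e | e
    · exact (mem_inter.1 e).2
    · rw [image_id] at e
      exact wires_sub h a e

theorem tl_inj (h : Web G Amb Rt K g u W) {x y : V} (hx : x ∈ W.Om) (hy : y ∈ W.Om)
    (e : W.tl x = W.tl y) : x = y :=
  h.str.fam.eq hx hy (h.str.en x hx) (e ▸ h.str.en y hy)

theorem mu_sy (h : Web G Amb Rt K g u W) : Sy W.mu := by
  have key : ∀ a b, W.mu a b ≤ W.mu b a := fun a b =>
    card_le_card_of_injOn W.m (fun x hx => by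
      obtain ⟨h1, h2, h3⟩ := mem_filter.1 (mem_coe.1 hx)
      obtain ⟨-, -, h4, h5, -⟩ := h.om x h1
      exact mem_coe.2 (mem_filter.2 ⟨h4, h3, (congrArg W.own h5).trans h2⟩))
      fun x hx y hy e => by
        rw [← (h.om x (mem_filter.1 (mem_coe.1 hx)).1).2.2.2.1, e,
          (h.om y (mem_filter.1 (mem_coe.1 hy)).1).2.2.2.1]
  exact fun a b => le_antisymm (key a b) (key b a)

theorem atm (h : Web G Amb Rt K g u W) {B : ℕ} (hK : K ≤ B) (hB : 1 ≤ B) (hu : g ≤ B * u) :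
    Atm (κ := W.J) G Amb Rt g B (fun a => atom W a) (fun a => W.Ro ∩ W.Pt a)
      fun a b => W.mu a b := by
  have hd : ∀ a b : W.J, a ≠ b → Disjoint (atom W a) (atom W b) := fun a b e =>
    atom_disj h a.2 b.2 fun e' => e (Subtype.ext e')
  have hro : ∀ a : W.J, W.Ro ∩ W.Pt a ⊆ atom W a := fun a =>
    inter_subset_right.trans ((h.pt _ a.2).1.trans subset_union_left)
  refine ⟨⟨fun a _ => union_subset (h.fam.sub _ a.2) (biUnion_subset.2 fun x hx =>
      h.str.fam.sub x (mem_wires.1 hx).1), fun a _ => atom_conn h a.2, fun a _ b _ => hd a b⟩,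
    fun a b => mu_sy h _ _, fun a => ?_, fun a b h0 => ?_,
    fun a => ⟨hro a, inter_subset_left.trans h.ro.1⟩, fun U Po K₂ hw => ?_⟩
  · simp only [cw, sum_singleton, WD.mu, lump]
    rw [← card_biUnion fun b _ b' _ e => disjoint_left.2 fun x h1 h2 =>
      e (Subtype.ext ((mem_filter.1 h1).2.2.symm.trans (mem_filter.1 h2).2.2))]
    refine le_trans (card_le_card ?_) (h.pt _ a.2).2.1
    refine biUnion_subset.2 fun b _ x hx => wires_sub h _ ?_
    exact mem_wires.2 ⟨(mem_filter.1 hx).1, (mem_filter.1 hx).2.1⟩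
  · obtain ⟨x, hx⟩ := card_pos.1 h0
    obtain ⟨h1, h2, h3⟩ := mem_filter.1 hx
    obtain ⟨-, -, h4, -, -, h5⟩ := h.om x h1
    refine ⟨⟨_, h2 ▸ strand_sub h1 (h.str.en x h1), _, h3 ▸ strand_sub h4 (h.str.en _ h4), h5⟩,
      hu.trans (Nat.mul_le_mul_left _ ?_)⟩
    rw [← h2, ← h3]
    exact h.fat x h1
  · obtain ⟨w, hw0⟩ : ∃ w : V → V → ℕ, ∀ v v', w v v' =
        if ∃ x ∈ W.Om, v = W.tl x ∧ v' = W.tl (W.m x) then 1 else 0 := ⟨_, fun _ _ => rfl⟩
    refine comp round V W.J (aw G) w _ U (fun a => atom W a) B K₂ (fun v v' => ?_)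
      (fun v v' => ?_) hB (fun a _ b _ => hd a b) (fun a _ => ?_) ?_
    · have key : ∀ v v', (∃ x ∈ W.Om, v = W.tl x ∧ v' = W.tl (W.m x)) →
          ∃ x ∈ W.Om, v' = W.tl x ∧ v = W.tl (W.m x) := by
        rintro v v' ⟨x, hx, h1, h2⟩
        exact ⟨W.m x, (h.om x hx).2.2.1, h2, by rw [(h.om x hx).2.2.2.1]; exact h1⟩
      rw [hw0, hw0]
      exact if_congr ⟨key v v', key v' v⟩ rfl rfl
    · rw [hw0]
      split_ifs with e
      · obtain ⟨x, hx, rfl, rfl⟩ := e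
        simp [aw, (h.om x hx).2.2.2.2.2]
      · exact Nat.zero_le _
    · refine (atom_wl h hK hB a.2).tau fun v hv => ?_
      by_cases e : ∃ x ∈ W.Om, v = W.tl x
      · obtain ⟨x, hx, rfl⟩ := e
        have a1 : W.own x = a := by
          by_contra c
          exact disjoint_left.1 (atom_disj h (h.om x hx).1 a.2 c)
            (strand_sub hx (h.str.en x hx)) hv
        have a2 : W.tl x ∉ Po.biUnion fun a : W.J => W.Ro ∩ W.Pt a := fun c => by
          obtain ⟨b, -, c⟩ := mem_biUnion.1 c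
          obtain ⟨c1, c2⟩ := mem_inter.1 c
          have c3 := h.out x hx _ b.2 _ (h.str.en x hx) ((h.pt _ b.2).1 c2)
          exact disjoint_left.1 h.ro.2 c1 (c3.symm ▸ hx)
        rw [ind_of_notMem a2, zero_add, ind_of_mem (mem_union_right _
          (mem_image_of_mem _ (mem_wires.2 ⟨hx, a1⟩)))]
        simp only [cw, sum_singleton, hw0]
        rw [← card_filter]
        refine card_le_one.2 fun y hy y' hy' => ?_
        obtain ⟨z, hz, e1, rfl⟩ := (mem_filter.1 hy).2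
        obtain ⟨z', hz', e2, rfl⟩ := (mem_filter.1 hy').2
        rw [← tl_inj h hx hz e1, ← tl_inj h hx hz' e2]
      · have a1 : ∀ S, cw w {v} S = 0 := fun S => cw_eq_zero.2 fun v₀ h0 y _ => by
          rw [mem_singleton.1 h0, hw0, if_neg]
          rintro ⟨x, hx, h1, -⟩
          exact e ⟨x, hx, h1⟩
        rw [a1, add_zero]
        refine ind_mono fun c => mem_union_left _ ?_
        obtain ⟨b, -, c⟩ := mem_biUnion.1 c
        by_cases e' : b = a
        · exact e' ▸ c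
        · exact absurd hv (disjoint_left.1 (hd b a e') (hro b c))
    · refine hw.mono (fun a _ b _ => ?_) (fun a _ => ?_) le_rfl
      · rw [CutP.cw_prod]
        simp only [hw0]
        rw [← card_filter]
        refine card_le_card_of_injOn (fun x => (W.tl x, W.tl (W.m x))) (fun x hx => ?_)
          fun x hx y hy e => tl_inj h (mem_filter.1 (mem_coe.1 hx)).1
            (mem_filter.1 (mem_coe.1 hy)).1 (congrArg Prod.fst e)
        obtain ⟨h1, h2, h3⟩ := mem_filter.1 (mem_coe.1 hx)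
        have h4 := (h.om x h1).2.2.1
        exact mem_coe.2 (mem_filter.2 ⟨mem_product.2 ⟨h2 ▸ strand_sub h1 (h.str.en x h1),
          h3 ▸ strand_sub h4 (h.str.en _ h4)⟩, x, h1, rfl, rfl⟩)
      · have a1 : atom W a ∩ (Po.biUnion fun a : W.J => W.Ro ∩ W.Pt a) ⊆
            if a ∈ Po then W.Pt a else ∅ := fun v hv => by
          obtain ⟨b, hb, c⟩ := mem_biUnion.1 (mem_inter.1 hv).2
          by_cases e' : b = a
          · subst e'
            rw [if_pos hb]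
            exact (mem_inter.1 c).2
          · exact absurd (mem_inter.1 hv).1 (disjoint_left.1 (hd b a e') (hro b c))
        rw [ts_ind]
        refine (card_le_card a1).trans ?_
        by_cases e : a ∈ Po
        · rw [if_pos e, ind_of_mem e, mul_one]
          exact (h.pt _ a.2).2.1
        · rw [if_neg e]
          exact Nat.zero_le _

end Web

end EndP

/-- Part END. -/
theorem endw : EndStmt := by
  obtain ⟨c, hc⟩ := EndP.endA
  refine ⟨c, fun V κ _ G Amb Rt K g u r ν B p W Hs hG hV hW hH hr hB hK hg hν hu hgr hJ hcut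
    hn => ?_⟩
  have e0 : ∀ S : Finset W.J, ((Hs.subtype (· ∈ W.J)) ∩ S).card =
      (Hs ∩ S.map (Function.Embedding.subtype _)).card := fun S => by
    rw [← card_map (Function.Embedding.subtype _), map_inter, subtype_map_of_mem hH]
  have e1 : (Hs.subtype (· ∈ W.J)).card = Hs.card := by
    rw [← card_map (Function.Embedding.subtype _), subtype_map_of_mem hH]
  have := hc V W.J G Amb Rt g r ν B p _ _ _ (Hs.subtype (· ∈ W.J)) hG hV
    (EndP.atm hW hK (by omega) hu) (fun i hi => hr _ (mem_subtype.1 hi)) hB hg hν hgr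
    (by rwa [Fintype.card_coe, e1]) (fun S h1 h2 => by
      rw [e0, e1] at h1 h2
      rw [e1]
      refine (hcut _ (fun a ha => ?_) h1 h2).trans (le_of_eq ?_)
      · obtain ⟨b, -, rfl⟩ := mem_map.1 ha
        exact b.2
      · have e2 : W.J \ S.map (Function.Embedding.subtype _) =
            (univ \ S).map (Function.Embedding.subtype _) := by
          rw [map_sdiff, univ_eq_attach, attach_map_val]
        rw [e2]
        simp only [cw, sum_map]
        rfl) (by rwa [e1])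
  rwa [e1] at this

end Pool.Agent.MP_35cb46_co.Fl
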