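import Pool.Agent.MP_35cb46_co.fl.CoreS

/-! PROJECT FL: tree-width in terms of bags of decompositions indexed by `Fin m`. -/

namespace Pool.Agent.MP_35cb46_co.Fl

open Pool.Agent.MP_7be75d_co

theorem bag_of_le {W : Type} {H : SimpleGraph W} {p : ℕ} (hp : 1 ≤ p) (h : p ≤ treewidth H)
    (m : ℕ) (T : SimpleGraph (Fin m)) (B : Fin m → Finset W) (hT : T.IsTree)
    (hE : ∀ u v, H.Adj u v → ∃ j, u ∈ B j ∧ v ∈ B j)
    (hB : ∀ v, (T.induce {j : Fin m | v ∈ B j}).Connected) : ∃ j, p + 1 ≤ (B j).card := by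
  by_contra hc
  push Not at hc
  have h1 : treewidth H ≤ p - 1 :=
    Nat.sInf_le ⟨Fin m, inferInstance, T, B, hT, hB, hE, fun i => by have := hc i; omega⟩
  omega

theorem le_of_bag {W : Type} [Fintype W] {H : SimpleGraph W} {N : ℕ}
    (h : ∀ (m : ℕ) (T : SimpleGraph (Fin m)) (B : Fin m → Finset W), T.IsTree →
      (∀ v, ∃ i, v ∈ B i) → (∀ u v, H.Adj u v → ∃ i, u ∈ B i ∧ v ∈ B i) →
      (∀ v, (T.induce {i : Fin m | v ∈ B i}).Connected) → ∃ i, N + 1 ≤ (B i).card) :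
    N ≤ treewidth H := by
  obtain ⟨ι, hι, T, B, hT, hB, hE, hcard⟩ := hasTreeDecomp_treewidth H
  have e := (Fintype.equivFin ι).symm
  have hc : ∀ v, ((T.comap e).induce {i | v ∈ B (e i)}).Connected := fun v => by
    refine (SimpleGraph.Iso.connected_iff (G := (T.comap e).induce {i | v ∈ B (e i)})
      (H := T.induce {i | v ∈ B i}) ⟨e.subtypeEquiv fun _ => Iff.rfl, Iff.rfl⟩).2 (hB v)
  obtain ⟨i, hi⟩ := h _ (T.comap e) (fun i => B (e i))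
    ((SimpleGraph.Iso.isTree_iff (SimpleGraph.Iso.comap e T)).2 hT)
    (fun v => by
      obtain ⟨⟨i, hi⟩⟩ := (hc v).nonempty
      exact ⟨i, hi⟩)
    (fun u v huv => by
      obtain ⟨i, hi⟩ := hE u v huv
      exact ⟨e.symm i, by simpa using hi⟩) hc
  have := hcard (e i)
  omega

theorem FullStmt.bags (hf : FullStmt) : ∃ C : ℝ, ∃ k : ℕ, ∀ p q : ℕ, 1 ≤ p → 1 ≤ q →
    ∀ (V : Type) [Fintype V] (G : SimpleGraph V),
      (∀ (m : ℕ) (T : SimpleGraph (Fin m)) (B : Fin m → Finset V), T.IsTree →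
          (∀ v, ∃ i, v ∈ B i) → (∀ u v, G.Adj u v → ∃ i, u ∈ B i ∧ v ∈ B i) →
          (∀ v, (T.induce {i : Fin m | v ∈ B i}).Connected) →
          ∃ i, ⌈C * (p : ℝ) * (q : ℝ) * (Real.log ((p : ℝ) * (q : ℝ)) + 1) ^ k⌉₊ + 1 ≤ (B i).card) →
      ∃ n : ℕ, ∃ S : Fin n → Set V,
        (∀ i j, i ≠ j → Disjoint (S i) (S j)) ∧
        (∀ i, (G.induce (S i)).Connected) ∧
        (∀ i, ∀ (m : ℕ) (T : SimpleGraph (Fin m)) (B : Fin m → Finset (S i)), T.IsTree →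
          (∀ v, ∃ j, v ∈ B j) → (∀ u v, (G.induce (S i)).Adj u v → ∃ j, u ∈ B j ∧ v ∈ B j) →
          (∀ v, (T.induce {j : Fin m | v ∈ B j}).Connected) →
          ∃ j, p + 1 ≤ (B j).card) ∧
        (∀ (m : ℕ) (T : SimpleGraph (Fin m)) (B : Fin m → Finset (Fin n)), T.IsTree →
          (∀ v, ∃ j, v ∈ B j) →
          (∀ u v, (SimpleGraph.fromRel (fun a b : Fin n => ∃ x ∈ S a, ∃ y ∈ S b, G.Adj x y)).Adj u v →
            ∃ j, u ∈ B j ∧ v ∈ B j) →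
          (∀ v, (T.induce {j : Fin m | v ∈ B j}).Connected) →
          ∃ j, q + 1 ≤ (B j).card) := by
  obtain ⟨C, k, h⟩ := hf
  refine ⟨C, k, fun p q hp hq V _ G hG => ?_⟩
  obtain ⟨n, -, S, h1, h2, h3, h4⟩ := h p q hp hq V G (by
    rw [add_comm]
    exact (Nat.le_ceil _).trans (Nat.cast_le.2 (le_of_bag hG)))
  exact ⟨n, S, h1, h2, fun i m T B hT _ hE hB => bag_of_le hp (h3 i) m T B hT hE hB,
    fun m T B hT _ hE hB => bag_of_le hq h4 m T B hT hE hB⟩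

end Pool.Agent.MP_35cb46_co.Fl
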