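import Pool.Agent.MP_35cb46_co.nl.Zpart

/-! PROJECT FL: the statement of the core, and of the outer rows. -/

noncomputable section

namespace Pool.Agent.MP_35cb46_co.Fl

open Finset Pool.Agent.MP_7be75d_co Pool.Agent.MP_35cb46_co.Sq Pool.Agent.MP_35cb46_co.Nl
open scoped Classical

/-- A coloured expander of clusters of boundary at most `τ` contains many rooted pieces. -/
def Core (T L p Λ B : ℕ) : Prop := ∀ (V : Type) [Fintype V] (G : SimpleGraph V)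
  (X T₀ : Finset V) (g A : ℕ) (PP Z : Finset (Finset V)) (col : Finset V → ℕ) (K τ : ℕ),
  Deg G univ 6 → 6 * Fintype.card V < 2 ^ Λ → Clu G X T₀ g A Λ PP → Z ⊆ PP →
  (∀ u ∈ Z, A ≤ bo G X T₀ u ∧ bo G X T₀ u ≤ τ) → ColZ G X T₀ Z col (T + 4) K (T + 1) →
  1 ≤ K → 12 * K * (T + 1) ≤ A → A ≤ B → Λ ≤ B → 1 ≤ τ → p ≤ τ → L * τ ≤ ts (bo G X T₀) Z →
  ∃ (h : ℕ) (P : Fin h → Finset V), Parts G (un (Z.filter fun u => col u ≤ T + 1))
    (ZpartP.nb G (un (cls Z col 0)) (un (cls Z col (T + 2)))) p L h P ∧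
    ts (bo G X T₀) Z ≤ L * τ * h

/-- The core with polylogarithmic loss. -/
def FullCoreStmt : Prop := ∃ c : ℕ, ∀ T p Λ B : ℕ, (Λ + 2) ^ c ≤ T → Core T (B ^ c) p Λ B

/-- The final statement. -/
def FullStmt : Prop := ∃ (C : ℝ) (k : ℕ), ∀ p q : ℕ, 1 ≤ p → 1 ≤ q →
  ∀ (V : Type) [Fintype V] (G : SimpleGraph V),
    C * (p : ℝ) * (q : ℝ) * (1 + Real.log ((p : ℝ) * (q : ℝ))) ^ k ≤ (treewidth G : ℝ) →
    ∃ n : ℕ, 1 ≤ n ∧ ∃ S : Fin n → Set V,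
      (∀ i j, i ≠ j → Disjoint (S i) (S j)) ∧ (∀ i, (G.induce (S i)).Connected) ∧
      (∀ i, p ≤ treewidth (G.induce (S i))) ∧
      q ≤ treewidth (SimpleGraph.fromRel fun i j : Fin n => ∃ x ∈ S i, ∃ y ∈ S j, G.Adj x y)

end Pool.Agent.MP_35cb46_co.Fl
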