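import Pool.Agent.MP_35cb46_co.nl.Main
import Pool.Agent.MP_35cb46_co.fl.CoreS

/-! PROJECT FL: from the core to the final statement. -/

noncomputable section

namespace Pool.Agent.MP_35cb46_co.Fl

open Finset Pool.Agent.MP_7be75d_co Pool.Agent.MP_35cb46_co.Sq Pool.Agent.MP_35cb46_co.Nl
open scoped Classical

namespace OuterP

/-- The parts of one expander of clusters. -/
def ZpartS : Prop := ∃ c : ℕ, ∀ (V : Type) [Fintype V] (G : SimpleGraph V)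
  (X T₀ : Finset V) (g A Λ : ℕ) (PP Z : Finset (Finset V)) (col : Finset V → ℕ)
  (T K L p τ B : ℕ), Deg G univ 6 → 6 * Fintype.card V < 2 ^ Λ → Core T L p Λ B →
  Clu G X T₀ g A Λ PP → Z ⊆ PP →
  (∀ u ∈ Z, A ≤ bo G X T₀ u ∧ bo G X T₀ u ≤ τ) → ColZ G X T₀ Z col (T + 4) K (T + 1) →
  1 ≤ K → 1 ≤ L → 12 * K * (T + 1) ≤ A → A ≤ B → Λ ≤ B → 1 ≤ τ → p ≤ τ →
  B ^ c * L * τ ≤ ts (bo G X T₀) Z →
  ∃ (h : ℕ) (P : Fin h → Finset V) (grp : Finset V → Fin h), Parts G (un Z) univ p L h P ∧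
    (∀ u ∈ cls Z col (T + 3), u ⊆ P (grp u)) ∧
    (∀ i, ts (bo G X T₀) ((cls Z col (T + 3)).filter fun u => grp u = i) ≤ B ^ c * L * τ) ∧
    ts (bo G X T₀) Z ≤ B ^ c * L * τ * h

/-- The theorem for small graphs of bounded degree. -/
def PieceS : Prop := ∃ c : ℕ, ∀ (V : Type) [Fintype V] (G : SimpleGraph V) (p q Λ k : ℕ),
  Deg G univ 6 → 6 * Fintype.card V < 2 ^ Λ → 1 ≤ p → 1 ≤ q →
  Rich G univ k → (Λ + 2) ^ c * (p * q) ≤ k → Concl G p q

open ZpartP in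
theorem zpart (clb : ClbStmt) (partn : PartnStmt) (link : LinkStmt) : ZpartS := by
  obtain ⟨c₀, -⟩ : ∃ c : ℕ, c = 0 := ⟨0, rfl⟩
  refine ⟨4 * c₀ + 10, fun V _ G X T₀ g A Λ PP Z col T K L p τ B hd hV hg hclu hZ hb hcol hK
    hL hA hAB hΛB hτ hp hvol => ?_⟩
  have hKB : 12 * K ≤ B := by nlinarith
  have hB : 1 ≤ B := by omega
  have hA1 : T + 1 ≤ A := by nlinarith
  have hpd : PD PP := hclu.part.disj
  have hcl : ∀ t, cls Z col t ⊆ PP := fun t => cls_subset.trans hZ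
  have hne : ∀ u ∈ PP, u.Nonempty := fun u hu => (hclu.part.conn u hu).1
  obtain ⟨b, hb0⟩ : ∃ b, b = B ^ (4 * c₀ + 8) * L * τ := ⟨_, rfl⟩
  have b1 : B ^ 6 * τ ≤ b := by
    rw [hb0]
    exact Nat.mul_le_mul_right _
      ((Nat.pow_le_pow_right hB (by omega)).trans (Nat.le_mul_of_pos_right _ hL))
  have b2 : τ ≤ b := (Nat.le_mul_of_pos_left _ (Nat.pow_pos hB)).trans b1
  have b3 : B ^ (4 * c₀ + 10) * L * τ = B ^ 2 * b := by rw [hb0]; ring
  have b4 : B ^ (4 * c₀ + 3) * L * τ ≤ B ^ (4 * c₀ + 10) * L * τ :=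
    Nat.mul_le_mul_right _ (Nat.mul_le_mul_right _ (Nat.pow_le_pow_right hB (by omega)))
  have hpos : 0 < ts (bo G X T₀) Z := lt_of_lt_of_le (by positivity) hvol
  have hΛ : 1 ≤ Λ := by
    obtain ⟨u, hu⟩ : Z.Nonempty := nonempty_iff_ne_empty.2 fun e => by simp [e, ts] at hpos
    obtain ⟨v, -⟩ := hne u (hZ hu)
    have : 0 < Fintype.card V := Fintype.card_pos_iff.2 ⟨v⟩
    by_contra h
    rw [Nat.eq_zero_of_not_pos h] at hV
    omega
  obtain ⟨K₁, hK₁⟩ : ∃ K₁, K₁ = 28 * A * Λ * (K + 1) := ⟨_, rfl⟩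
  have k2 : 14 * A * Λ ≤ K₁ := by rw [hK₁]; nlinarith [Nat.zero_le (A * Λ * K)]
  have k0 : T + 1 ≤ K₁ := by nlinarith
  have k1 : K ≤ K₁ := by nlinarith
  have k4 : K₁ ≤ 5 * B ^ 3 := by
    calc K₁ = 28 * (K + 1) * (A * Λ) := by rw [hK₁]; ring
      _ ≤ 5 * B * (B * B) := Nat.mul_le_mul (by omega) (Nat.mul_le_mul hAB hΛB)
      _ = _ := by ring
  have k3 : K₁ ≤ B ^ 4 := k4.trans (by
    rw [pow_succ B 3, mul_comm]; exact Nat.mul_le_mul_left _ (by omega))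
  have k5 : 14 * K₁ ≤ B ^ 5 := by
    calc 14 * K₁ ≤ 70 * B ^ 3 := by omega
      _ ≤ B * B * B ^ 3 := Nat.mul_le_mul_right _ (by nlinarith)
      _ = _ := by ring
  have hc : ∀ t < T + 4, ∀ τ : V → ℕ, (∀ C ∈ cls Z col t, ∀ v ∈ C, τ v ≤ bw G X T₀ C v) →
      WL (aw G) (un (cls Z col t)) τ K₁ := fun t ht =>
    hK₁ ▸ (clb V G X T₀ g A Λ PP hclu (by omega) hΛ).1 _ (hcl t) K (hcol.wl t ht)
  have b5 : L * τ ≤ B ^ (4 * c₀ + 3) * L * τ :=
    Nat.mul_le_mul_right _ (Nat.le_mul_of_pos_left _ (Nat.pow_pos hB))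
  obtain ⟨h, P, hP, hh0⟩ := hg V G X T₀ g A PP Z col K τ hd hV hclu hZ hb hcol hK hA hAB hΛB hτ hp
    (b5.trans (b4.trans hvol))
  have hh := hh0.trans (Nat.mul_le_mul_right h b5)
  have h0 : 0 < h := Nat.pos_of_ne_zero fun e => by rw [e] at hh; omega
  obtain ⟨GG, hG, hGb⟩ := partn (Finset V) (ew G) (bo G X T₀) (cls Z col (T + 3)) K b Λ sy_ew
    (hcol.wl _ (by omega)) hK
    (fun u hu => ⟨hclu.pos u (hcl _ hu), (hb u (cls_subset hu)).2.trans b2, by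
      rw [bo_eq hclu.part (hcl _ hu)]
      exact (cw_mono subset_rfl (hcl _)).trans (Nat.le_add_right _ _)⟩) (by omega)
    (cancel (e := 2) hB (b3 ▸ hvol.trans ((hcol.vol (T + 3) (by omega)).trans
      (Nat.mul_le_mul_right _ (by nlinarith)))))
    (((hpd.mono (hcl _)).card_le fun u hu => hne u (hcl _ hu)).trans
      ((card_le_univ _).trans (by omega)))
  have hGu : un GG = cls Z col (T + 3) := hG.un
  have hGO : ∀ Γ ∈ GG, Γ ⊆ cls Z col (T + 3) := fun Γ hΓ => hGu ▸ subset_un hΓ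
  have hGP : ∀ Γ ∈ GG, Γ ⊆ PP := fun Γ hΓ => (hGO Γ hΓ).trans (hcl _)
  have hGd : ∀ Γ ∈ GG, ∀ Γ' ∈ GG, Γ ≠ Γ' → Disjoint (un Γ) (un Γ') := fun Γ hΓ Γ' hΓ' e =>
    un_disj hpd (hGP Γ hΓ) (hGP Γ' hΓ') (hG.disj Γ hΓ Γ' hΓ' e)
  have hJ : ∀ S ∈ GG.image un, S ⊆ un (cls Z col (T + 3)) ∧ Conn G S := fun S hS => by
    obtain ⟨Γ, hΓ, rfl⟩ := mem_image.1 hS
    exact ⟨un_mono (hGO Γ hΓ), conn_un hclu.part (hGP Γ hΓ) (hG.conn Γ hΓ)⟩
  have hJp : PD (GG.image un) := fun S hS S' hS' e => by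
    obtain ⟨Γ, hΓ, rfl⟩ := mem_image.1 hS
    obtain ⟨Γ', hΓ', rfl⟩ := mem_image.1 hS'
    exact hGd Γ hΓ Γ' hΓ' fun e' => e (e' ▸ rfl)
  have hAd : ∀ t, T + 1 < t →
      Disjoint (un (Z.filter fun u => col u ≤ T + 1)) (un (cls Z col t)) := fun t ht =>
    un_disj hpd ((filter_subset _ _).trans hZ) (hcl t) (disjoint_left.2 fun u h1 h2 => by
      have := (mem_filter.1 h1).2
      rw [(mem_cls.1 h2).2] at this
      omega)
  have hJP : ∀ S ∈ GG.image un, ∀ i, Disjoint S (P i) := fun S hS i =>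
    (hAd (T + 3) (by omega)).symm.mono (hJ S hS).1 (hP.tok.sub i)
  have hPi : Function.Injective P := fun i j e => by
    by_contra hij
    obtain ⟨x, hx⟩ := (hP.tok.conn i).1
    exact disjoint_left.1 (hP.tok.disj i j hij) hx (e ▸ hx)
  obtain ⟨f, Q, hf, hfQ, hQ⟩ := ZpartP.attach link hd (un (cls Z col (T + 2))) (GG.image un)
    (univ.image P) K₁ (by omega)
    (fun S hS S' hS' e => by
      rcases mem_union.1 hS with a | a <;> rcases mem_union.1 hS' with a' | a'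
      · exact hJp S a S' a' e
      · obtain ⟨i, -, rfl⟩ := mem_image.1 a'
        exact hJP S a i
      · obtain ⟨i, -, rfl⟩ := mem_image.1 a
        exact (hJP S' a' i).symm
      · obtain ⟨i, -, rfl⟩ := mem_image.1 a
        obtain ⟨i', -, rfl⟩ := mem_image.1 a'
        exact hP.tok.disj i i' fun e' => e (e' ▸ rfl))
    (disjoint_left.2 fun S a a' => by
      obtain ⟨i, -, rfl⟩ := mem_image.1 a'
      obtain ⟨x, hx⟩ := (hP.tok.conn i).1
      exact disjoint_left.1 (hJP _ a i) hx hx)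
    (hc (T + 2) (by omega) _ fun C hC v _ => by
      have a0 : ∀ I ⊆ Z, (∀ u ∈ I, col u ≠ T + 2) → un I ⊆ X \ C := fun I hI h1 =>
        un_out hclu.part (hI.trans hZ) (hcl _ hC) fun e => h1 C e (mem_cls.1 hC).2
      have a1 : un (GG.image un) ⊆ X \ C := biUnion_subset.2 fun S hS =>
        (hJ S hS).1.trans (a0 _ cls_subset fun u hu => by rw [(mem_cls.1 hu).2]; omega)
      have a2 : un (univ.image P) ⊆ X \ C := biUnion_subset.2 fun S hS => by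
        obtain ⟨i, -, rfl⟩ := mem_image.1 hS
        exact (hP.tok.sub i).trans (a0 _ (filter_subset _ _) fun u hu => by
          have := (mem_filter.1 hu).2
          omega)
      exact (cnt_le (union_subset (nb_mono a1) (nb_mono a2)) v).trans (Nat.le_add_right _ _))
    (fun S hS => by
      obtain ⟨Γ, hΓ, rfl⟩ := mem_image.1 hS
      have a1 := vol_le_nb hd (β := bo G X T₀) (K := K) hpd (hGP Γ hΓ) (hcl (T + 2))
        ((cls_disj (by omega)).mono_left (hGO Γ hΓ))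
        fun u hu => hcol.deg (T + 2) (by omega) u (cls_subset (hGO Γ hΓ hu))
      refine k5.trans (cancel (e := 1) hB ?_)
      calc B ^ 1 * B ^ 5 = B ^ 6 * 1 := by ring
        _ ≤ b := (Nat.mul_le_mul_left _ hτ).trans b1
        _ ≤ K * ((nb G (un Γ) (un (cls Z col (T + 2)))).card * 6) := (hGb Γ hΓ).1.trans a1
        _ = 6 * K * (nb G (un Γ) (un (cls Z col (T + 2)))).card := by ring
        _ ≤ _ := Nat.mul_le_mul_right _ (by rw [pow_one]; omega))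
    (fun S hS => by
      obtain ⟨i, -, rfl⟩ := mem_image.1 hS
      obtain ⟨x, hx⟩ := hP.root i
      exact ⟨x, mem_nb.2 ⟨(mem_inter.1 hx).1, (mem_nb.1 (mem_inter.1 hx).2).2⟩⟩)
    (by
      rw [card_image_of_injective _ hPi, card_univ, Fintype.card_fin]
      have a1 : GG.card * b ≤ ts (bo G X T₀) Z := by
        refine le_trans ?_ (ts_mono (cls_subset (col := col) (t := T + 3)))
        rw [← hGu, PD.ts_un hG.disj]
        exact card_le_ts (τ := ts (bo G X T₀)) fun Γ hΓ => (hGb Γ hΓ).1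
      have a2 : B ^ (4 * c₀ + 3) * L * τ * (B ^ 5 * GG.card) ≤ B ^ (4 * c₀ + 3) * L * τ * h :=
        le_trans (le_of_eq (by rw [hb0]; ring)) (a1.trans hh)
      exact (Nat.mul_le_mul k5 card_image_le).trans
        (Nat.le_of_mul_le_mul_left a2 (by positivity)))
  have hex : ∀ u, ∃ i : Fin h, u ∈ cls Z col (T + 3) → ∃ Γ ∈ GG, u ∈ Γ ∧ f (un Γ) = P i :=
    fun u => by
      by_cases hu : u ∈ cls Z col (T + 3)
      · obtain ⟨Γ, hΓ, h1⟩ := mem_un.1 (hGu.symm ▸ hu : u ∈ un GG)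
        obtain ⟨i, -, h2⟩ := mem_image.1 (hfQ _ (mem_image_of_mem un hΓ)).1
        exact ⟨i, fun _ => ⟨Γ, hΓ, h1, h2.symm⟩⟩
      · exact ⟨⟨0, h0⟩, fun e => absurd e hu⟩
  choose grp hgrp using hex
  refine ⟨h, _, grp, glue hP (GG.image un) f Q (un_mono (filter_subset _ _)) (un_mono cls_subset)
    (un_mono cls_subset) (hAd _ (by omega)) (hAd _ (by omega))
    (un_disj hpd (hcl _) (hcl _) (cls_disj (by omega))) hJ hJp (fun S hS => (hfQ S hS).2) hQ,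
    fun u hu => ?_, fun i => ?_, hh.trans (Nat.mul_le_mul_right _ b4)⟩
  · obtain ⟨Γ, hΓ, h1, h2⟩ := hgrp u hu
    exact fun x hx => mem_union_right _ (mem_biUnion.2 ⟨un Γ, mem_filter.2
      ⟨mem_image_of_mem un hΓ, h2⟩, mem_union_right _ (subset_un h1 hx)⟩)
  · rcases ((cls Z col (T + 3)).filter fun u => grp u = i).eq_empty_or_nonempty with e | ⟨u, hu⟩
    · rw [e]
      exact Nat.zero_le _
    obtain ⟨hu1, hu2⟩ := mem_filter.1 hu
    obtain ⟨Γ, hΓ, -, h2⟩ := hgrp u hu1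
    have a1 : ((cls Z col (T + 3)).filter fun u => grp u = i) ⊆ Γ := fun u' hu' => by
      obtain ⟨a2, a3⟩ := mem_filter.1 hu'
      obtain ⟨Γ', hΓ', a4, a5⟩ := hgrp u' a2
      have a6 : un Γ' = un Γ := hf (mem_coe.2 (mem_image_of_mem un hΓ'))
        (mem_coe.2 (mem_image_of_mem un hΓ)) (by rw [a5, h2, a3, hu2])
      by_contra a7
      obtain ⟨x, hx⟩ := hne u' (hGP Γ' hΓ' a4)
      exact disjoint_left.1 (hGd Γ' hΓ' Γ hΓ fun e => a7 (e ▸ a4)) (subset_un a4 hx)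
        (a6 ▸ subset_un a4 hx)
    rw [b3]
    exact (ts_mono a1).trans ((hGb Γ hΓ).2.trans (Nat.mul_le_mul_right _ (by nlinarith)))

open TopP in
theorem num (cZ cP cS : ℕ) : ∃ e : ℕ, ∀ T L p q Λ B k : ℕ, Λ + 2 ≤ B → T + 4 ≤ B → 1 ≤ L → 1 ≤ p →
    1 ≤ q → B ^ e * L ^ 3 * (p * q) ≤ k →
    ∃ τ l Bm K, Num cZ cP cS T L p q Λ (B ^ 9) (B ^ (9 * cZ + 10)) τ l Bm K k := by
  obtain ⟨a, ha⟩ : ∃ a, a = 9 * cZ + 10 := ⟨_, rfl⟩
  obtain ⟨E, hE⟩ : ∃ E, E = a * cP + 9 * cZ + cS + 13 := ⟨_, rfl⟩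
  refine ⟨E + a + 50, fun T L p q Λ B k h1 h2 hL hp hq hk => ?_⟩
  have hB : 2 ≤ B := by omega
  have pw : ∀ {i j : ℕ}, i ≤ j → B ^ i ≤ B ^ j := fun h => Nat.pow_le_pow_right (by omega) h
  have two : ∀ i : ℕ, 2 ^ i ≤ B ^ i := fun i => Nat.pow_le_pow_left hB i
  have b1 : B ≤ B ^ 9 := by simpa using pw (show 1 ≤ 9 by omega)
  have hΛ : Λ ≤ B := by omega
  have hΛ1 : Λ + 1 ≤ B := by omega
  have hp2 : p + 1 ≤ 2 * p := by omega
  have hz : (B ^ 9) ^ cZ = B ^ (9 * cZ) := by rw [← pow_mul]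
  have pos : ∀ i, 1 ≤ B ^ i := fun i => Nat.one_le_pow _ _ (by omega)
  obtain ⟨τ, hτ⟩ : ∃ τ, τ = B ^ (a + 11) * p := ⟨_, rfl⟩
  have τ1 : p ≤ τ := hτ ▸ Nat.le_mul_of_pos_left _ (pos _)
  rw [← ha]
  refine ⟨τ, B ^ (9 * cZ + cS + 11) * τ, B ^ E * L * τ, L * B ^ 5, hΛ.trans b1,
    h2.trans b1, ?_, ?_, ?_, ?_, ?_, by omega, τ1, ?_, ?_, ?_, ?_, ?_, ?_, ?_, ?_, ?_⟩
  · calc _ = 2 ^ 7 * (T + 4) * (Λ + 1) := by ring
      _ ≤ B ^ 7 * B * B := by gcongr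
      _ = _ := by ring
  · exact Nat.pow_lt_pow_right (by omega) (by omega)
  · calc _ = 2 ^ 2 * B ^ (9 * cZ) := by rw [hz]; ring
      _ ≤ B ^ 2 * B ^ (9 * cZ) := by gcongr
      _ ≤ _ := by rw [← pow_add]; exact pw (by omega)
  · calc _ ≤ 2 ^ 4 * B ^ (9 * cZ) * B := by rw [hz]; gcongr <;> omega
      _ ≤ B ^ 4 * B ^ (9 * cZ) * B := by gcongr
      _ ≤ _ := by rw [← pow_add, ← pow_succ]; exact pw (by omega)
  · calc _ ≤ 21 * (14 * B ^ a * B) * (2 * p) := by gcongr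
      _ = 588 * (B ^ a * B * p) := by ring
      _ ≤ B ^ 10 * (B ^ a * B * p) := by gcongr; exact le_trans (by norm_num) (two 10)
      _ = _ := by rw [hτ]; ring
  · rw [hz]; exact Nat.mul_le_mul_right _ (pw (by omega))
  · exact Nat.mul_le_mul_right _ (hB.trans (by simpa using pw (show 1 ≤ _ by omega)))
  · calc _ ≤ 21 * (28 * B ^ a * B * (2 * B ^ 9)) * (2 * p) := by
          gcongr
          have := pos 9
          omega
      _ = 2352 * (B ^ a * B ^ 10 * p) := by ring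
      _ ≤ B ^ 12 * (B ^ a * B ^ 10 * p) := by gcongr; exact le_trans (by norm_num) (two 12)
      _ = B ^ 11 * τ := by rw [hτ]; ring
      _ ≤ _ := Nat.mul_le_mul_right _ (pw (by omega))
  · calc _ ≤ B ^ cS * B ^ 2 * τ * B := by gcongr; exact le_pow_of hB
      _ = B ^ (cS + 3) * τ := by ring
      _ ≤ _ := Nat.mul_le_mul_right _ (pw (by omega))
  · rw [← pow_mul]
    exact Nat.mul_le_mul_right _ (Nat.mul_le_mul_right _ (pw (by omega)))
  · calc _ = 2 ^ 2 * B ^ (9 * cZ + cS + 11) * 1 * τ := by ring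
      _ ≤ B ^ 2 * B ^ (9 * cZ + cS + 11) * L * τ := by gcongr
      _ ≤ _ := by
        rw [← pow_add]
        exact Nat.mul_le_mul_right _ (Nat.mul_le_mul_right _ (pw (by omega)))
  · exact Nat.le_mul_of_pos_right _ (pos _)
  · calc _ = 1 * (2 ^ 3 * (T + 4) ^ 2) := by ring
      _ ≤ L * (B ^ 3 * B ^ 2) := by gcongr
      _ = _ := by ring
  · obtain ⟨x, hx⟩ : ∃ x, x = B ^ (E + a + 23) * L ^ 3 * (p * q) := ⟨_, rfl⟩
    have x1 : 1 ≤ x := by rw [hx]; exact Nat.succ_le_of_lt (by positivity)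
    calc _ ≤ 12 * (200 * (L * B ^ 5) ^ 2 * (20 * (8 * B) * B * (B ^ E * L * τ)) * q) + 13 := by
          gcongr
      _ = 384000 * x + 13 := by rw [hx, hτ]; ring
      _ ≤ 2 ^ 27 * x := by omega
      _ ≤ B ^ 27 * x := by gcongr
      _ = B ^ (E + a + 50) * L ^ 3 * (p * q) := by rw [hx]; ring
      _ ≤ k := hk

open TopP in
theorem piece (hterm : TermStmt) (hclu : CluStmt) (hhav : HavenStmt) (hexp : ExpfStmt)
    (hclb : ClbStmt) (hcolz : ColzStmt) (hcore : FullCoreStmt) (hz : ZpartS)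
    (hs : SampStmt) (ha : AbsStmt) (hq : HavqStmt) : PieceS := by
  obtain ⟨c₀, hcore⟩ := hcore
  obtain ⟨cP, hz⟩ := hz
  obtain ⟨cZ, hcolz⟩ := hcolz
  obtain ⟨cS, hs⟩ := hs
  obtain ⟨e, he⟩ := num cZ cP cS
  refine ⟨(c₀ + 3) * (e + (9 * cZ + 10) * c₀ * 3), fun V _ G p q Λ k hd hV hp hq1 hR hk => ?_⟩
  obtain ⟨T, hT⟩ : ∃ T, T = (Λ + 2) ^ c₀ := ⟨_, rfl⟩
  obtain ⟨B₁, hB₁⟩ : ∃ B₁, B₁ = (Λ + 2) ^ (c₀ + 3) := ⟨_, rfl⟩
  have b0 : 2 ≤ Λ + 2 := by omega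
  have b1 : Λ + 2 ≤ B₁ := hB₁ ▸ Nat.le_self_pow (by omega) _
  have b2 : T + 4 ≤ B₁ := by
    have h1 : 1 ≤ T := hT ▸ Nat.one_le_pow _ _ (by omega)
    have h2 : 2 ^ 3 ≤ (Λ + 2) ^ 3 := Nat.pow_le_pow_left b0 3
    rw [hB₁, pow_add, ← hT]
    nlinarith
  rw [pow_mul, ← hB₁] at hk
  have hg := hcore T p Λ (B₁ ^ (9 * cZ + 10)) hT.ge
  obtain ⟨L, hL⟩ : ∃ L, L = (B₁ ^ (9 * cZ + 10)) ^ c₀ := ⟨_, rfl⟩
  rw [← hL] at hg
  have L1 : 1 ≤ L := by
    have : 0 < B₁ := by omega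
    rw [hL]; exact Nat.succ_le_of_lt (by positivity)
  obtain ⟨τ, l, Bm, K, n⟩ := he T L p q Λ B₁ k b1 b2 L1 hp hq1 (le_trans (le_of_eq (by
    rw [hL, ← pow_mul, ← pow_mul, ← pow_add, mul_assoc (9 * cZ + 10)])) hk)
  generalize B₁ ^ (9 * cZ + 10) = A at n hg
  generalize B₁ ^ 9 = B at n
  clear hk hL he hcore b1 b2 hB₁ hT
  obtain ⟨k₁, hk₁⟩ : ∃ k₁, k₁ = 200 * K ^ 2 * (20 * (8 * (T + 4)) * (Λ + 1) * Bm) * q := ⟨_, rfl⟩
  obtain ⟨W, T₀, hTW, hW, hwl, hk⟩ := hterm V G k₁ hd (hR.mono le_rfl subset_rfl (hk₁ ▸ n.k3))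
  obtain ⟨g, hg4⟩ : ∃ g, g = 4 * l := ⟨_, rfl⟩
  have a1 := n.a1
  have a2 := n.a2
  have a4 := n.a4
  have t2 := n.t2
  have l2 := n.l2
  have m2 := n.m2
  have K1 : 1 ≤ K := L1.trans n.k1
  have z1 : 1 ≤ B ^ cZ := Nat.one_le_pow _ _ (by omega)
  have g1 : g ≤ T₀.card := by
    refine le_trans ?_ hk
    calc g ≤ 1 * (1 * Bm) * 1 := by omega
      _ ≤ _ := by
        rw [hk₁]
        gcongr
        · exact Nat.succ_le_of_lt (by positivity)
        · exact Nat.succ_le_of_lt (by positivity)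
  have g2 : T₀.card ≤ Fintype.card V := card_le_univ _
  have Λ1 : 1 ≤ Λ := by
    rcases Nat.eq_zero_or_pos Λ with rfl | h
    · omega
    · exact h
  obtain ⟨PP, hc⟩ := hclu V G W T₀ g A Λ hd hW hTW (card_pos.1 (by omega)) (by omega) (by omega)
    (by omega)
  obtain ⟨c1, c2, -, c4, c5⟩ := hclb V G W T₀ g A Λ PP hc (by omega) Λ1
  have hpd : PD PP := hc.part.disj
  have hPP : PP.card ≤ Fintype.card V :=
    (hpd.card_le fun C hC => (hc.part.conn C hC).1).trans (card_le_univ _)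
  obtain ⟨U, hU⟩ : ∃ U, U = PP.filter fun C => bo G W T₀ C ≤ τ := ⟨_, rfl⟩
  have mU : ∀ {C}, C ∈ U ↔ C ∈ PP ∧ bo G W T₀ C ≤ τ := by simp [hU]
  have UP : U ⊆ PP := fun C h => (mU.1 h).1
  obtain ⟨ZZ, sd, zd, zs, hY⟩ := hexp (Finset V) (ew G) (bo G W T₀) U (32 * (T + 4)) (Λ + 1) sy_ew
    ew_self (by omega) (by
      have h1 : ts (bo G W T₀) U ≤ (un U).card * 7 := by
        rw [un, card_biUnion (t := id) fun C h C' h' => hpd C (UP h) C' (UP h'), sum_mul]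
        exact sum_le_sum fun C _ => bo_le hd W T₀ C
      have h2 : (un U).card ≤ Fintype.card V := card_le_univ _
      rw [pow_succ]
      omega)
  have zk : ∀ Z ∈ ZZ, ZOk G W T₀ PP sd B τ Z := fun Z hZ =>
    ⟨(zs Z hZ).1.trans UP, (zs Z hZ).2.1, (zs Z hZ).2.2.up n.a3,
      fun u hu => (mU.1 ((zs Z hZ).1 hu)).2⟩
  have zv : ∀ Z ∈ ZZ, g < ts (bo G W T₀) Z ∧ ∀ u ∈ Z, A ≤ bo G W T₀ u := fun Z hZ =>
    have := c5 sd B τ Z (zk Z hZ) a4 (by omega)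
    ⟨this.1, fun u hu => (this.2 u hu).1⟩
  have zn : ∀ Z ∈ ZZ, Z ⊆ PP ∧ Z.Nonempty := fun Z hZ =>
    ⟨(zk Z hZ).sub, card_pos.1 (by have := (zk Z hZ).two; omega)⟩
  obtain ⟨D, hD⟩ : ∃ D, D = ZZ.filter fun Z => A ^ cP * L * τ ≤ ts (bo G W T₀) Z := ⟨_, rfl⟩
  have mD : ∀ {Z}, Z ∈ D ↔ Z ∈ ZZ ∧ A ^ cP * L * τ ≤ ts (bo G W T₀) Z := by simp [hD]
  have DZ : D ⊆ ZZ := fun Z h => (mD.1 h).1
  have DU : un D ⊆ U := fun u hu =>
    let ⟨Z, h1, h2⟩ := mem_un.1 hu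
    (zs Z (DZ h1)).1 h2
  obtain ⟨I'', F, LL, r', hbil, hsa⟩ := hs (Finset V) (ew G) PP D l τ (T + 4) Λ sy_ew (zd.mono DZ)
    (fun Z hZ => zn Z (DZ hZ))
    (by
      have h1 := (zd.mono DZ).card_le fun Z hZ => (zn Z (DZ hZ)).2
      have h2 := card_le_card (DU.trans UP)
      omega) t2 (by omega)
    (fun u hu => by
      have h1 := mU.1 (DU hu)
      have h2 := bo_eq (T := T₀) hc.part h1.1
      omega) n.l4
    (by
      rintro W' hW' - ⟨Z, hZ, h1⟩ ⟨Z', hZ', h2⟩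
      have h3 := c4 (by omega) W' hW'
      have h4 := c4 (by omega) (PP \ W') sdiff_subset
      have h5 : ts (bo G W T₀) Z ≤ ts (bo G W T₀) W' := ts_mono h1
      have h6 : ts (bo G W T₀) Z' ≤ ts (bo G W T₀) (PP \ W') :=
        ts_mono (subset_sdiff.2 ⟨(zn Z' (DZ hZ')).1, h2⟩)
      have h7 := (zv Z (DZ hZ)).1
      have h8 := (zv Z' (DZ hZ')).1
      have h9 := hwl (un W') (hc.part.un ▸ un_mono hW')
      rw [← un_sdiff hc.part hW', ← cw_ew hpd hW' sdiff_subset disjoint_sdiff,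
        (hpd.mono hW').ts_un, (hpd.mono sdiff_subset).ts_un] at h9
      unfold out at h3 h4
      rw [Finset.sdiff_sdiff_eq_self hW', cw_comm sy_ew (PP \ W')] at h4
      change min (ts (ts (ind T₀)) W') (ts (ts (ind T₀)) (PP \ W')) ≤ _ at h9
      omega)
  obtain ⟨y, hy⟩ : ∃ y : Finset V → Finset V → ℕ, ∀ v u, y v u = if u ∈ un D then ew G v u else 0 :=
    ⟨_, fun _ _ => rfl⟩
  have y1 : ∀ v S, ts (y v) S = cw (ew G) {v} (un D ∩ S) := fun v S => by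
    simp only [ts, hy, cw, sum_singleton]
    rw [← sum_filter, filter_mem_eq_inter, inter_comm]
  obtain ⟨col, o1, o2, o3⟩ := hcolz V (Finset V) _ G W T₀ g A Λ PP sd B τ D
    (U.filter fun v => bo G W T₀ v ≤ 4 * cw (ew G) {v} (un D)) y I'' F LL r' (T + 4) B (T + 3)
    (T + 1) hd hV hc (zd.mono DZ) (fun Z hZ => zk Z (DZ hZ)) a1 le_rfl a2 (by omega) (by omega)
    (by omega) (by have := n.a5; omega) (by have := n.l1; omega)
    (by
      have h1 := card_le_card ((filter_subset (fun v => bo G W T₀ v ≤ 4 * cw (ew G) {v} (un D))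
        U).trans UP)
      have h2 : 2 ^ Λ ≤ 4 ^ B :=
        (Nat.pow_le_pow_right (by omega) a1).trans (Nat.pow_le_pow_left (by omega) _)
      omega)
    (fun v hv u => by
      obtain ⟨h1, h2⟩ := mem_filter.1 hv
      rw [y1, inter_univ, hy]
      split_ifs with hu
      · have h3 := mU.1 h1
        have h4 := mU.1 (DU hu)
        have h5 := hc.thin v h3.1 u h4.1 (by omega)
        have h6 := Nat.mul_le_mul_right (ew G v u) n.a5
        rw [mul_assoc] at h6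
        omega
      · simp) hbil
  obtain ⟨O, hO⟩ : ∃ O, O = un D ∩ cls univ col (T + 3) := ⟨_, rfl⟩
  have hsamp : Samp (ew G) PP D O K := hO ▸ (hsa _ o3).up n.k2
  obtain ⟨BB, hBB⟩ : ∃ BB, BB = (PP \ U).image (fun u => ({u} : Finset (Finset V))) ∪ ZZ :=
    ⟨_, rfl⟩
  have mB : ∀ {Z}, Z ∈ BB ↔ (∃ u ∈ PP \ U, {u} = Z) ∨ Z ∈ ZZ := by
    simp only [hBB, mem_union, mem_image, implies_true]
  have hnot : ∀ u ∈ PP \ U, ∀ Z ∈ ZZ, u ∉ Z := fun u hu Z hZ h => (mem_sdiff.1 hu).2 ((zs Z hZ).1 h)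
  obtain ⟨ι, I, S, nd, par, hsit⟩ := sit_of (G := G) (W := W) (T₀ := T₀) (PP := PP) (O := O)
    (BB := BB) (D := D) (p := p) (K := K) (Bm := Bm) hc.part
    (fun Z hZ => mB.2 (Or.inr (DZ hZ)))
    (by
      intro Z hZ Z' hZ' hne
      rcases mB.1 hZ with ⟨u, hu, rfl⟩ | h1 <;> rcases mB.1 hZ' with ⟨u', hu', rfl⟩ | h2
      · exact disjoint_singleton.2 fun e => hne (by rw [e])
      · exact disjoint_singleton_left.2 (hnot u hu _ h2)
      · exact disjoint_singleton_right.2 (hnot u' hu' _ h1)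
      · exact zd _ h1 _ h2 hne)
    (by
      intro Z hZ
      rcases mB.1 hZ with ⟨u, hu, rfl⟩ | h1
      · exact ⟨singleton_subset_iff.2 (mem_sdiff.1 hu).1, singleton_nonempty _⟩
      · exact zn Z h1)
    (hO ▸ inter_subset_left)
    (by
      intro Z hZ
      rcases mB.1 hZ with ⟨u, hu, rfl⟩ | h1
      · rw [if_neg fun h => hnot u hu _ (DZ h) (mem_singleton_self u)]
        obtain ⟨h2, h3⟩ := mem_sdiff.1 hu
        have h4 : un {u} = u := by simp [un]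
        have h5 := hc.le u h2
        refine blk_one (h4.symm ▸ hc.part.conn u h2) (h4.symm ▸ hhav V G u (bw G W T₀ u) _ p hd
          (hc.wl u h2) (bw_le hd W T₀ u) (Nat.mul_pos (by omega) Λ1) ?_) (by rw [ts_single]; omega)
        have h6 := n.t1
        have h7 : ¬ bo G W T₀ u ≤ τ := fun h => h3 (mU.2 ⟨h2, h⟩)
        rw [ts_bw]
        omega
      · split_ifs with h2
        · obtain ⟨h, P, grp, p1, p2, p3, p4⟩ := hz V G W T₀ g A Λ PP Z col T (B ^ cZ) L p τ A hd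
            hV hg hc (zn Z h1).1 (fun u hu => ⟨(zv Z h1).2 u hu, (zk Z h1).le u hu⟩) (o1 Z h2)
            z1 L1 n.a6 le_rfl (by omega) t2 n.t3 (mD.1 h2).2
          have h3 : O ∩ Z = cls Z col (T + 3) := by
            ext u
            simp only [hO, mem_inter, mem_cls, mem_univ, true_and]
            exact ⟨fun h => ⟨h.2, h.1.2⟩, fun h => ⟨⟨subset_un h2 h.1, h.2⟩, h.1⟩⟩
          rw [h3]
          exact ⟨h, P, grp, p1.up subset_rfl subset_rfl n.k1, p2, fun i => (p3 i).trans n.m1,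
            p4.trans (Nat.mul_le_mul_right _ n.m1)⟩
        · have h3 : WL (ew G) Z (bo G W T₀) B :=
            (zk Z h1).wl.mono (fun a _ b _ => bip_le sd a b) (fun _ _ => le_rfl) le_rfl
          obtain ⟨σ, hσ⟩ : ∃ σ : V → ℕ, ∀ C ∈ Z, ∀ v ∈ C, σ v = bw G W T₀ C v := by
            have : ∀ v : V, ∃ s, ∀ C ∈ Z, v ∈ C → s = bw G W T₀ C v := fun v => by
              by_cases hv : ∃ C ∈ Z, v ∈ C
              · obtain ⟨C, h4, h5⟩ := hv
                exact ⟨bw G W T₀ C v, fun C' h6 h7 => by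
                  rw [hpd.eq ((zn Z h1).1 h4) ((zn Z h1).1 h6) h5 h7]⟩
              · exact ⟨0, fun C h4 h5 => absurd ⟨C, h4, h5⟩ hv⟩
            choose σ hσ using this
            exact ⟨σ, fun C h4 v h5 => hσ v C h4 h5⟩
          have h4 := c1 Z (zn Z h1).1 B h3 (fun v => min (σ v) 7) fun C h4 v h5 =>
            (min_le_left _ _).trans (hσ C h4 v h5).le
          have h5 : ¬ A ^ cP * L * τ ≤ ts (bo G W T₀) Z := fun h => h2 (mD.2 ⟨h1, h⟩)
          have h6 := n.m1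
          refine blk_one (c2 Z (zn Z h1).1 B (zn Z h1).2 h3) (hhav V G _ _ _ p hd h4
            (fun v => min_le_right _ _) (Nat.mul_pos (Nat.mul_pos (by omega) Λ1) (by omega)) ?_)
            (by omega)
          have h7 : ts (fun v => min (σ v) 7) (un Z) = ts (bo G W T₀) Z := by
            rw [(hpd.mono (zn Z h1).1).ts_un]
            refine sum_congr rfl fun C h7 => ?_
            rw [← ts_bw]
            exact sum_congr rfl fun v h8 => by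
              show min (σ v) 7 = _
              rw [hσ C h7 v h8, min_eq_left (bw_le hd W T₀ C v)]
          have h8 := (zv Z h1).1
          have h9 := n.l3
          omega)
  have hYs : PP \ un BB ⊆ U \ un ZZ := fun v hv => by
    obtain ⟨h1, h2⟩ := mem_sdiff.1 hv
    refine mem_sdiff.2 ⟨by_contra fun h => h2 ?_, fun h => h2 ?_⟩
    · exact subset_un (mB.2 (Or.inl ⟨v, mem_sdiff.2 ⟨h1, h⟩, rfl⟩)) (mem_singleton_self v)
    · exact un_mono (fun Z hZ => mB.2 (Or.inr hZ)) h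
  obtain ⟨S', nd', hsit'⟩ := ha V ι G W T₀ PP D O _ I S nd par p K (8 * (T + 4)) Bm Λ hd hV
    (by omega) (by omega) hsit
    (fun v hv => by
      have h0 := (mem_sdiff.1 (hYs hv)).1
      obtain ⟨h1, h2⟩ := mU.1 h0
      refine ⟨hc.pos v h1, by omega, ?_⟩
      have h3 := bo_eq (T := T₀) hc.part h1
      have h4 := hwl v (hc.part.un ▸ subset_un h1)
      have h5 : bo G W T₀ v = cw (aw G) v (W \ v) + ts (ind T₀) v := rfl
      have h6 : ts (ind T₀) (W \ v) + ts (ind T₀) v = ts (ind T₀) W :=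
        ts_sdiff (hc.part.un ▸ subset_un h1)
      rw [ts_ind T₀ W, inter_eq_right.2 hTW] at h6
      rw [← ts_ind] at h3
      have h7 : cw (ew G) {v} (PP \ un D) + cw (ew G) {v} (un D) = cw (ew G) {v} PP :=
        cw_sdiff_right (DU.trans UP)
      have h8 : cw (ew G) {v} (PP \ un D) ≤ cw (ew G) {v} (kept PP D O) :=
        cw_mono subset_rfl subset_union_left
      have h9 : cw (ew G) {v} O ≤ cw (ew G) {v} (kept PP D O) :=
        cw_mono subset_rfl subset_union_right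
      by_cases hb : bo G W T₀ v ≤ 4 * cw (ew G) {v} (un D)
      · have h10 := o2 (T + 3) (by omega) v (mem_filter.2 ⟨h0, hb⟩)
        rw [y1, y1, inter_univ, ← hO] at h10
        calc _ ≤ 4 * (2 * (T + 4) * cw (ew G) {v} (kept PP D O)) :=
              hb.trans (Nat.mul_le_mul_left _ (h10.trans (Nat.mul_le_mul_left _ h9)))
          _ = _ := by ring
      · calc _ ≤ 4 * cw (ew G) {v} (kept PP D O) := by omega
          _ ≤ _ := Nat.mul_le_mul_right _ (by omega))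
    (fun A' hA' => by
      have := hY A' (hA'.trans hYs)
      rwa [show 4 * (8 * (T + 4)) = 32 * (T + 4) by ring])
  exact hq V ι G W T₀ PP D O I S' nd' par p q K _ hTW hwl K1
    (Nat.mul_pos (by positivity) (by omega)) hq1 hsit' hsamp (hk₁ ▸ hk)

theorem nat_arith (c c1 : ℕ) : ∃ a D F : ℕ, ∀ x l : ℕ, 1 ≤ x → x < 2 ^ l →
    ∃ k : ℕ, 1 ≤ k ∧ (12 * l + a + 2) ^ c1 * (6 * x) ≤ k ∧
      6 * (49 * (12 * l + a) * (16 * (4 * (18 * (49 * (12 * l + a)) * k)) ^ 3)) <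
        2 ^ (12 * l + a) ∧
      c * (49 * (12 * l + a)) ^ c * (4 * (18 * (49 * (12 * l + a)) * k)) ≤ D * l ^ F * x := by
  obtain ⟨a, ha⟩ := exists_dom (4704 * 21168 ^ 3 * 2 ^ (3 * c1 + 4)) (3 * c1 + 4)
  refine ⟨a, c * 49 ^ c * 21168 * (14 + a) ^ (c + 1 + c1), c + 1 + c1, fun x l hx hl => ?_⟩
  have l1 : 1 ≤ l := Nat.pos_of_ne_zero fun e => by rw [e] at hl; omega
  obtain ⟨Λ, hΛ⟩ : ∃ Λ, Λ = 12 * l + a := ⟨_, rfl⟩
  rw [← hΛ]
  refine ⟨(Λ + 2) ^ c1 * (6 * x), Nat.succ_le_of_lt (by positivity), le_rfl, ?_, ?_⟩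
  · have h1 := ha (9 * l + a) (by omega)
    have h2 : Λ + 2 ≤ 2 * (9 * l + a) := by omega
    have h3 : Λ ≤ Λ + 2 := by omega
    calc _ = 4704 * 21168 ^ 3 * (Λ ^ 4 * ((Λ + 2) ^ c1) ^ 3) * x ^ 3 := by ring
      _ ≤ 4704 * 21168 ^ 3 * ((Λ + 2) ^ 4 * ((Λ + 2) ^ c1) ^ 3) * x ^ 3 := by gcongr
      _ = 4704 * 21168 ^ 3 * (Λ + 2) ^ (3 * c1 + 4) * x ^ 3 := by ring
      _ ≤ 4704 * 21168 ^ 3 * (2 * (9 * l + a)) ^ (3 * c1 + 4) * x ^ 3 := by gcongr
      _ = 4704 * 21168 ^ 3 * 2 ^ (3 * c1 + 4) * (9 * l + a) ^ (3 * c1 + 4) * x ^ 3 := by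
          rw [mul_pow 2]; ring
      _ ≤ 2 ^ (9 * l + a) * x ^ 3 := Nat.mul_le_mul_right _ h1
      _ < 2 ^ (9 * l + a) * (2 ^ l) ^ 3 :=
          Nat.mul_lt_mul_of_pos_left (Nat.pow_lt_pow_left hl (by omega)) (by positivity)
      _ = _ := by rw [← pow_mul, ← pow_add, hΛ]; congr 1; ring
  · have h2 : Λ + 2 ≤ (14 + a) * l := by nlinarith
    have h3 : Λ ≤ (14 + a) * l := by omega
    calc _ = c * 49 ^ c * 21168 * (Λ ^ c * Λ * (Λ + 2) ^ c1) * x := by rw [mul_pow]; ring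
      _ ≤ c * 49 ^ c * 21168 * (((14 + a) * l) ^ c * ((14 + a) * l) * ((14 + a) * l) ^ c1) * x := by
          gcongr
      _ = _ := by rw [← pow_succ, ← pow_add, mul_pow]; ring

theorem fin (piece : PieceS) : FullStmt := by
  obtain ⟨c1, h1⟩ := piece
  obtain ⟨c, h2⟩ := chain_of_treewidth
  obtain ⟨a, D, F, h3⟩ := nat_arith c c1
  refine ⟨D * 2 ^ F, F, fun p q hp hq V _ G htw => ?_⟩
  have x1 : 1 ≤ p * q := Nat.mul_pos hp hq
  have x2 : (1 : ℝ) ≤ (p : ℝ) * q := by exact_mod_cast x1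
  obtain ⟨l, hl⟩ : ∃ l, l = Nat.log 2 (p * q) + 1 := ⟨_, rfl⟩
  have l1 : (l : ℝ) ≤ 2 * (1 + Real.log ((p : ℝ) * (q : ℝ))) := by
    have h5 : ((2 : ℝ) ^ Nat.log 2 (p * q)) ≤ (p : ℝ) * q := by
      exact_mod_cast Nat.pow_log_le_self 2 (show p * q ≠ 0 by omega)
    have h6 := Real.log_le_log (by positivity) h5
    rw [Real.log_pow] at h6
    have h7 := Real.log_two_gt_d9
    have h8 : (0 : ℝ) ≤ Nat.log 2 (p * q) := Nat.cast_nonneg _
    rw [hl]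
    push_cast
    nlinarith
  obtain ⟨k, k1, e3, e4, e5⟩ := h3 (p * q) l x1 (hl ▸ Nat.lt_pow_succ_log_self (by omega) _)
  obtain ⟨Λ, hΛ⟩ : ∃ Λ, Λ = 12 * l + a := ⟨_, rfl⟩
  rw [← hΛ] at e3 e4 e5
  have Λ1 : 1 ≤ Λ := by omega
  obtain ⟨g, hg⟩ : ∃ g, g = 18 * (49 * Λ) * k := ⟨_, rfl⟩
  have g2 : 1 ≤ g := by rw [hg]; exact Nat.succ_le_of_lt (by positivity)
  rw [← hg] at e4 e5
  obtain ⟨n, U0, R, A, B, n1, hch⟩ := h2 (49 * Λ) (4 * g) V G (by omega) (by omega) (e5.trans (by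
    have : ((D * l ^ F * (p * q) : ℕ) : ℝ) ≤ treewidth G := by
      refine le_trans ?_ htw
      push_cast
      calc (D : ℝ) * (l : ℝ) ^ F * (p * q)
          ≤ D * (2 * (1 + Real.log ((p : ℝ) * (q : ℝ)))) ^ F * (p * q) := by gcongr
        _ = _ := by rw [mul_pow]; ring
    exact_mod_cast this))
  obtain ⟨H, U, φ, hM, hD, hU, hR⟩ := sparse cm el (Sq.round (sp count) inv) glue
    V G g k Λ n U0 R A B hch n1 Λ1 k1 (by
      have : 4 * g ≤ (4 * g) ^ 3 := Nat.le_self_pow (by omega) _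
      nlinarith) hg.ge
  obtain ⟨W, _, H', ψ, hM', hD', hc, hR'⟩ := FinalP.sub hM hD hR
  obtain ⟨n, S, hT, hS, hQ⟩ := FinalP.lift hM' (h1 W H' (2 * p) (2 * q + 1) Λ (k + 1) hD'
    (by omega) (by omega) (by omega) hR' (le_trans (Nat.mul_le_mul_left _ (by nlinarith))
      (e3.trans (by omega))))
  obtain ⟨T, -, ⟨⟨i, -⟩, -⟩, -⟩ := hQ.core
  exact ⟨n, i.pos, fun i => S i, fun i j hij => disjoint_coe.2 (hT.disj i j hij),
    fun i => (hT.conn i).connected, fun i => (hS i).le_treewidth,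
    hQ.le_treewidth.trans (treewidth_induce_le _)⟩

end OuterP

theorem full (hcore : FullCoreStmt) : FullStmt :=
  have hcomp := comp Nl.round
  have hexpf := expf dec
  have hcol := col cheeg mc cher fib
  have hclb := clb hcomp
  have hcolz := colz hclb hcol
  OuterP.fin (OuterP.piece term clu haven hexpf hclb hcolz hcore (OuterP.zpart hclb partn link)
    (samp karg) Nl.abs havq)

end Pool.Agent.MP_35cb46_co.Fl
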