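import Pool.Agent.MP_35cb46_co.fl.HubB
import Pool.Agent.MP_35cb46_co.fl.Outer
import Pool.Agent.MP_35cb46_co.fl.Bags

/-! PROJECT FL: the final statement from the core. -/

namespace Pool.Agent.MP_35cb46_co.Fl

theorem full_of_core (core : CoreStmt) : FullStmt :=
  full (fullCore (Nl.clb (Nl.comp Nl.round)) core)

end Pool.Agent.MP_35cb46_co.Fl
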