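import Pool.Agent.MP_35cb46_co.fl.ASpec
import Pool.Agent.MP_35cb46_co.fl.Base1
import Pool.Agent.MP_35cb46_co.sq.Clus

/-! PROJECT FL, rows ROUND and GAME: the cut-matching game between two chains. -/

noncomputable section

namespace Pool.Agent.MP_35cb46_co.Fl

open Finset Pool.Agent.MP_7be75d_co Pool.Agent.MP_35cb46_co.Sq Pool.Agent.MP_35cb46_co.Nl
open scoped Classical

namespace GameL

variable {V α β κ : Type} {G : SimpleGraph V} {Fl Z A I O RT : Finset V} {Lv : Finset α}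
  {st ps en : α → V} {P : α → Finset V}

theorem fly_comp (h : Fly G Fl Lv st ps P) {T : Finset β} (φ : β → α) (hφ : ∀ b ∈ T, φ b ∈ Lv)
    (hi : Set.InjOn φ T) :
    Fly G Fl T (fun b => st (φ b)) (fun b => ps (φ b)) fun b => P (φ b) :=
  ⟨fun b hb => h.conn _ (hφ b hb),
    fun a ha b hb n => h.disj _ (hφ a ha) _ (hφ b hb) fun e => n (hi ha hb e)⟩

/-- The lanes pass a cell and arrive at the first wires. -/
theorem half (hf : FlyStmt) {w : ℕ → V} {n : ℕ} (h : Fly G Fl Lv st ps P) (hc : Cel G A I O)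
    (hi : Set.InjOn en Lv) (hn : Lv.card ≤ n)
    (ha : ∀ a ∈ Lv, st a ∉ A ∧ en a ∈ I ∧ G.Adj (ps a) (en a)) (hw : ∀ i < n, w i ∈ O)
    (hwi : Set.InjOn w ↑(range n)) (hd : Disjoint Fl A) :
    ∃ (ix : α → ℕ) (R : α → Finset V), Lv.image ix = range Lv.card ∧ Set.InjOn ix Lv ∧
      Fly G (Fl ∪ A) Lv st (fun a => w (ix a)) R ∧ ∀ a ∈ Lv, R a ⊆ P a ∪ A := by
  have h0 : range Lv.card ⊆ range n := range_subset_range.2 hn
  obtain ⟨T, hT, g, Q, h1, h2, h3⟩ := hc.pass (O' := (range Lv.card).image w)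
    (fun a k => (ha a k).2.1) hi (image_subset_iff.2 fun i k => hw i (mem_range.1 (h0 k)))
  rw [card_image_of_injOn (hwi.mono (coe_subset.2 h0)), card_range, min_self] at h3
  obtain rfl : T = Lv := eq_of_subset_of_card_le hT h3.ge
  have h4 : ∀ a, a ∈ T → ∃ i, i ∈ range T.card ∧ w i = g a := fun a k => by
    simpa only [mem_image] using h2 a k
  choose! ix h5 h6 using h4
  have h7 : Set.InjOn ix T := fun a k b k' e => h1.inj_right k k' (by rw [← h6 a k, ← h6 b k', e])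
  refine ⟨ix, fun a => P a ∪ Q a, eq_of_subset_of_card_le (image_subset_iff.2 h5)
    (by rw [card_image_of_injOn h7, card_range]), h7,
    hf V α G Fl A T st ps en _ P Q h (h1.congr (fun _ _ => rfl) fun a k => (h6 a k).symm) hd.symm
      fun a k => ⟨(ha a k).1, (ha a k).2.2⟩,
    fun a k => union_subset_union_right (h1.fam.sub a k)⟩

/-- Flights through different cells are put together. -/
theorem glue {T : Finset β} {φ : β → α} {col : β → ℕ} {C : ℕ → Finset V} {J : Finset ℕ}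
    {qs : β → V} {R : β → Finset V} (h : Fly G Fl Lv st ps P) (hZ : ∀ a ∈ Lv, st a ∈ Z)
    (hC : ∀ j ∈ J, C j ⊆ RT) (hCd : ∀ j ∈ J, ∀ j' ∈ J, j ≠ j' → Disjoint (C j) (C j'))
    (hd : Disjoint (Z ∪ Fl) RT) (hi : Set.InjOn φ T)
    (h1 : ∀ b ∈ T, φ b ∈ Lv ∧ col b ∈ J ∧ Conn G (R b) ∧ st (φ b) ∈ R b ∧ qs b ∈ R b ∧
      R b ⊆ P (φ b) ∪ C (col b))
    (h2 : ∀ a ∈ T, ∀ b ∈ T, a ≠ b → col a = col b → Disjoint (R a) (R b)) :
    Fly G (Fl ∪ RT) T (fun b => st (φ b)) qs R := by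
  have h3 : ∀ a ∈ Lv, ∀ j ∈ J, Disjoint (P a) (C j) := fun a ha j hj =>
    hd.mono ((h.conn a ha).2.2.2.trans (insert_subset (mem_union_left _ (hZ a ha))
      subset_union_right)) (hC j hj)
  refine ⟨fun b hb => ?_, fun a ha b hb n => ?_⟩
  · obtain ⟨a1, a2, a3, a4, a5, a6⟩ := h1 b hb
    exact ⟨a3, a4, a5, a6.trans (union_subset
      ((h.conn _ a1).2.2.2.trans (insert_subset_insert _ subset_union_left))
      ((hC _ a2).trans (subset_union_right.trans (subset_insert _ _))))⟩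
  · by_cases e : col a = col b
    · exact h2 a ha b hb n e
    obtain ⟨a1, a2, -, -, -, a6⟩ := h1 a ha
    obtain ⟨b1, b2, -, -, -, b6⟩ := h1 b hb
    exact Disjoint.mono a6 b6 (disjoint_union_left.2
      ⟨disjoint_union_right.2 ⟨h.disj _ a1 _ b1 fun e => n (hi ha hb e), h3 _ a1 _ b2⟩,
        disjoint_union_right.2 ⟨(h3 _ b1 _ a2).symm, hCd _ a2 _ b2 e⟩⟩)

theorem cr_eq (μ : κ → κ) (S : Finset κ) [DecidablePred fun u => μ u ∉ S] :
    cr μ S = (S.filter fun u => μ u ∉ S).card := by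
  unfold cr
  congr

/-- The matched pairs that are split by `S`. -/
def spl (L : Finset κ) (σ : κ → κ) (S : Finset (κ ⊕ κ)) : Finset κ :=
  L.filter fun k => ¬ (Sum.inl k ∈ S ↔ Sum.inr (σ k) ∈ S)

theorem mem_spl {L : Finset κ} {σ : κ → κ} {S : Finset (κ ⊕ κ)} {k : κ} :
    k ∈ spl L σ S ↔ k ∈ L ∧ ¬ (Sum.inl k ∈ S ↔ Sum.inr (σ k) ∈ S) := mem_filter

/-- A matching between two copies as an involution. -/
theorem invol (L : Finset κ) (σ : κ → κ) (hσ : Set.InjOn σ L) :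
    ∃ μ : κ ⊕ κ → κ ⊕ κ, (∀ u, μ (μ u) = u) ∧ ∀ S : Finset (κ ⊕ κ),
      cr μ S = (spl L σ S).card := by
  let μ : κ ⊕ κ → κ ⊕ κ := Sum.elim (fun k => if k ∈ L then Sum.inr (σ k) else Sum.inl k)
    fun k => if h : ∃ a ∈ L, σ a = k then Sum.inl h.choose else Sum.inr k
  have m1 : ∀ k ∈ L, μ (Sum.inl k) = Sum.inr (σ k) := fun k hk => if_pos hk
  have m2 : ∀ k ∉ L, μ (Sum.inl k) = Sum.inl k := fun k hk => if_neg hk
  have m3 : ∀ k ∈ L, μ (Sum.inr (σ k)) = Sum.inl k := fun k hk => by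
    have h : ∃ a ∈ L, σ a = σ k := ⟨k, hk, rfl⟩
    exact (dif_pos h).trans (congrArg _ (hσ h.choose_spec.1 hk h.choose_spec.2))
  have m4 : ∀ k, (¬ ∃ a ∈ L, σ a = k) → μ (Sum.inr k) = Sum.inr k := fun k hk => dif_neg hk
  refine ⟨μ, ?_, fun S => ?_⟩
  · rintro (k | k)
    · by_cases h : k ∈ L
      · rw [m1 k h, m3 k h]
      · rw [m2 k h, m2 k h]
    · by_cases h : ∃ a ∈ L, σ a = k
      · obtain ⟨a, ha, rfl⟩ := h
        rw [m3 a ha, m1 a ha]
      · rw [m4 k h, m4 k h]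
  · rw [cr_eq]
    refine (card_nbij (fun k => if Sum.inl k ∈ S then Sum.inl k else Sum.inr (σ k)) ?_ ?_ ?_).symm
    · intro k hk
      obtain ⟨h1, h2⟩ := mem_filter.1 (mem_coe.1 hk)
      refine mem_coe.2 (mem_filter.2 ?_)
      by_cases h : Sum.inl k ∈ S
      · simp only [if_pos h, m1 k h1]
        tauto
      · simp only [if_neg h, m3 k h1]
        tauto
    · intro a ha b hb e
      dsimp only at e
      split_ifs at e
      · exact Sum.inl_injective e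
      · exact hσ (mem_filter.1 (mem_coe.1 ha)).1 (mem_filter.1 (mem_coe.1 hb)).1
          (Sum.inr_injective e)
    · rintro (k | k) hk
      · obtain ⟨h1, h2⟩ := mem_filter.1 (mem_coe.1 hk)
        have h : k ∈ L := by
          by_contra h
          exact h2 ((m2 k h).symm ▸ h1)
        rw [m1 k h] at h2
        exact ⟨k, mem_coe.2 (mem_filter.2 ⟨h, by tauto⟩), if_pos h1⟩
      · obtain ⟨h1, h2⟩ := mem_filter.1 (mem_coe.1 hk)
        have h : ∃ a ∈ L, σ a = k := by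
          by_contra h
          exact h2 ((m4 k h).symm ▸ h1)
        obtain ⟨a, ha, rfl⟩ := h
        rw [m3 a ha] at h2
        exact ⟨a, mem_coe.2 (mem_filter.2 ⟨ha, by tauto⟩), if_neg h2⟩

/-- A balanced cut of two copies separates two large sets. -/
theorem sides [Fintype κ] (S : Finset (κ ⊕ κ)) (h : Bal S) : ∃ X Y : Finset κ,
    Fintype.card κ ≤ 4 * X.card ∧ Fintype.card κ ≤ 4 * Y.card ∧
      ∀ a ∈ X, ∀ b ∈ Y, ¬ (Sum.inl a ∈ S ↔ Sum.inr b ∈ S) := by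
  obtain ⟨h1, h2⟩ := h
  rw [Fintype.card_sum] at h1 h2
  have h3 := card_toLeft_add_card_toRight (u := S)
  have h4 := card_add_card_compl S.toLeft
  have h5 := card_add_card_compl S.toRight
  by_cases h : S.toRight.card ≤ S.toLeft.card
  · refine ⟨S.toLeft, S.toRightᶜ, by omega, by omega, fun a ha b hb => ?_⟩
    rw [mem_compl, mem_toRight] at hb
    rw [mem_toLeft] at ha
    tauto
  · refine ⟨S.toLeftᶜ, S.toRight, by omega, by omega, fun a ha b hb => ?_⟩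
    rw [mem_compl, mem_toLeft] at ha
    rw [mem_toRight] at hb
    tauto

/-- The lane of a player in a given colour. -/
def ln {n ν : ℕ} (t : ℕ) (k : Fin n × Fin ν) : ℕ × ℕ × ℕ := (k.1, t, k.2)

theorem ln_inj {n ν t t' : ℕ} {k k' : Fin n × Fin ν} (h : ln t k = ln t' k') : t = t' ∧ k = k' := by
  simp only [ln, Prod.mk.injEq] at h
  exact ⟨h.2.1, Prod.ext (Fin.ext h.1) (Fin.ext h.2.2)⟩

theorem live {x : CX V} {Lv : Finset (ℕ × ℕ × ℕ)} {l t : ℕ} (h : Lv ⊆ x.lanes)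
    (hl : x.lanes.card ≤ Lv.card + l) (ht : t < x.T) (X : Finset (Fin x.nH × Fin x.ν)) :
    X.card ≤ (X.filter fun k => ln t k ∈ Lv).card + l := by
  have h1 := card_filter_add_card_filter_not (s := X) fun k => ln t k ∈ Lv
  have h2 : (X.filter fun k => ¬ ln t k ∈ Lv).card ≤ (x.lanes \ Lv).card :=
    card_le_card_of_injOn (ln t) (fun k hk => mem_coe.2 (mem_sdiff.2
      ⟨by simp [CX.lanes, ln, ht], (mem_filter.1 (mem_coe.1 hk)).2⟩)) fun a _ b _ e => (ln_inj e).2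
  have h3 := card_sdiff_add_card_eq_card h
  omega

theorem hosts (n ν b : ℕ) (S : Finset (ℕ × ℕ)) :
    (univ.filter fun k : Fin n × Fin ν => (b, (k.1 : ℕ)) ∈ S).card =
      ((range n).filter fun i => (b, i) ∈ S).card * ν := by
  refine Eq.trans ?_ ((card_product _ (range ν)).trans (congrArg _ (card_range ν)))
  refine card_nbij (fun k => ((k.1 : ℕ), (k.2 : ℕ))) ?_ ?_ ?_
  · intro k hk
    exact mem_coe.2 (mem_product.2 ⟨mem_filter.2 ⟨mem_range.2 k.1.2,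
      (mem_filter.1 (mem_coe.1 hk)).2⟩, mem_range.2 k.2.2⟩)
  · intro a _ c _ e
    simp only [Prod.mk.injEq] at e
    exact Prod.ext (Fin.ext e.1) (Fin.ext e.2)
  · rintro ⟨i, j⟩ hk
    simp only [coe_product, Set.mem_prod, mem_coe, mem_filter, mem_range] at hk
    exact ⟨(⟨i, hk.1.1⟩, ⟨j, by simpa using hk.2⟩), by simpa using hk.1.2, rfl⟩

theorem hosts2 (n : ℕ) (S : Finset (ℕ × ℕ)) : ((range 2 ×ˢ range n) ∩ S).card =
    ((range n).filter fun i => (0, i) ∈ S).card + ((range n).filter fun i => (1, i) ∈ S).card := by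
  rw [← filter_mem_eq_inter, card_filter, sum_product, sum_range_succ, sum_range_one, card_filter,
    card_filter]

theorem lump_le {γ δ γ' δ' : Type} {S : Finset α} {S' : Finset β} {f : α → γ} {g : α → δ}
    {f' : β → γ'} {g' : β → δ'} {b : γ} {c : δ} {b' : γ'} {c' : δ'} (φ : α → β)
    (hi : Set.InjOn φ S) (h : ∀ a ∈ S, f a = b → g a = c → φ a ∈ S' ∧ f' (φ a) = b' ∧ g' (φ a) = c') :
    lump S f g b c ≤ lump S' f' g' b' c' :=
  card_le_card_of_injOn φ (fun a k =>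
    let ⟨h1, h2, h3⟩ := mem_filter.1 (mem_coe.1 k)
    mem_coe.2 (mem_filter.2 (h a h1 h2 h3))) (hi.mono (coe_subset.2 (filter_subset _ _)))

theorem om_sub {Amb Rt : Finset V} {K g u : ℕ} {W : WD V κ} (h : Web G Amb Rt K g u W) {i : κ}
    (hi : i ∈ W.J) : W.Pt i ⊆ Amb := (h.pt i hi).1.trans (h.fam.sub i hi)

theorem st_mem {p : PC V} {x : CX V} {s : ST V} {Lv : Finset (ℕ × ℕ × ℕ)}
    {st ps : ℕ × ℕ × ℕ → V} {oc : ℕ × ℕ × ℕ → ℕ} {P : ℕ × ℕ × ℕ → Finset V} (h : Org G p x s)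
    (f : Flight G x s Lv st ps oc P) {a : ℕ × ℕ × ℕ} (ha : a ∈ Lv) :
    (s.l, oc a) ∈ s.W.J ∧ st a ∈ s.W.Pt (s.l, oc a) ∧ st a ∉ s.W.Om ∪ s.W.Ro ∧ st a ∈ s.Past := by
  obtain ⟨a1, a2⟩ := f.org a ha
  obtain ⟨b1, b2, b3⟩ := h.port _ a1
  exact ⟨b1, b2 a2, disjoint_left.1 b3 a2, om_sub h.web b1 (b2 a2)⟩

theorem used_sub {p : PC V} {x : CX V} {s : ST V} (h : Org G p x s) :
    s.W.Om ∪ s.W.Ro ⊆ s.Past :=
  union_subset (fun v hv => om_sub h.web (h.web.om v hv).1 (h.web.om v hv).2.1) h.ro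

end GameL

open GameL

theorem round (hf : FlyStmt) (hk : KillStmt) : RoundStmt := by
  intro V α G p Z Z' Fl Fl' A A' I I' O O' J J' Oo Oo' Lv Lv' st ps en st' ps' en' P P' c c' w w'
    n hp c1 c2 f1 f2 hc hn e1 e2 i1 i2 a1 a2 hw w1 w2 s1 s2 d1 d2 d3 d4 d5
  obtain ⟨ix, R, x1, x2, x3, x4⟩ := half hf f1 e1 i1 hn (fun a k => ⟨fun h => disjoint_left.1 d2
    (mem_union_left _ (a1 a k).2.2.1) (mem_union_left _ (mem_union_right _ h)), (a1 a k).2.2.2⟩)
    (fun i k => (hw i k).1) w1 d3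
  obtain ⟨ix', R', y1, y2, y3, y4⟩ := half hf f2 e2 i2 (hc ▸ hn) (fun a k =>
    ⟨fun h => disjoint_left.1 d2 (mem_union_right _ (a2 a k).2.2.1)
      (mem_union_right _ (mem_union_right _ h)), (a2 a k).2.2.2⟩)
    (fun i k => (hw i k).2.1) w2 d4
  have h1 : ∀ a, a ∈ Lv → ∃ b, b ∈ Lv' ∧ ix' b = ix a := fun a k => by
    have : ix a ∈ Lv'.image ix' := by
      rw [y1, ← hc, ← x1]
      exact mem_image_of_mem _ k
    simpa only [mem_image] using this
  choose! σ σ1 σ2 using h1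
  have σ3 : Set.InjOn σ Lv := fun a k b k' e => x2 k k' (by rw [← σ2 a k, ← σ2 b k', e])
  have y5 := fly_comp y3 σ σ1 σ3
  have h2 : ∀ a ∈ Lv, G.Adj (w (ix a)) (w' (ix' (σ a))) := fun a k => by
    rw [σ2 a k]
    exact (hw _ ((mem_range.1 (x1 ▸ mem_image_of_mem ix k)).trans_le hn)).2.2
  obtain ⟨L, l1, l2, l3⟩ := hk V α G p Z Z' (Fl ∪ A) (Fl' ∪ A') J J' Oo Oo' Lv st _ _ _ R _ c
    (fun b => c' (σ b)) hp c1 c2 x3 y5 s1 s2 d1 d2 d5 fun a k =>
      ⟨(a1 a k).1, (a1 a k).2.1, (a2 _ (σ1 a k)).1, (a2 _ (σ1 a k)).2.1, h2 a k⟩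
  exact ⟨L, l1, σ, _, _, R, _, fun a k => σ1 a (l1 k), σ3.mono (coe_subset.2 l1),
    fly_comp x3 id l1 (Set.injOn_id _), fly_comp y5 id l1 (Set.injOn_id _),
    fun a k => ⟨x4 a (l1 k), y4 _ (σ1 a (l1 k)), h2 a (l1 k), l3 a k⟩, l2⟩

theorem game (hr : RoundStmt) (hu : WebuStmt) (hw : WireStmt) : GameStmt := by
  intro V G p x s s' I I' A A' O O' cy cy' q q' l Λ RT RT' w w' hb hp W1 W2 hcy L1 L2 hww hwi r1 r2
    d1 d2 d3 hT hΛ hN hl
  obtain ⟨Lv, st, ps, oc, P, en, y, f1, i1, a1, -, n1⟩ := W1.go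
  obtain ⟨Lv', st', ps', oc', P', en', y', f2, i2, a2, -, n2⟩ := W2.go
  have o1 := W1.org
  have o2 := W2.org
  have e1 : ∀ a ∈ Lv, en a ∈ I a.2.1 := fun a k => by
    obtain ⟨b1, b2, -, b4⟩ := a1 a k
    rw [← b4, (hcy _ (mem_range.1 b1)).1]
    exact b2
  have e2 : ∀ a ∈ Lv', en' a ∈ I' a.2.1 := fun a k => by
    obtain ⟨b1, b2, -, b4⟩ := a2 a k
    rw [← b4, (hcy _ (mem_range.1 b1)).2]
    exact b2
  have hκ : Fintype.card (Fin x.nH × Fin x.ν) = x.nH * x.ν := by simp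
  have dP : Disjoint s.Past s'.Past :=
    d3.mono (subset_union_left.trans subset_union_left) (subset_union_left.trans subset_union_left)
  have dF : Disjoint (s.Fl ∪ RT) (s'.Fl ∪ RT') :=
    d3.mono (union_subset_union_left subset_union_right)
      (union_subset_union_left subset_union_right)
  have dA : Disjoint (s.Past ∪ s'.Past) (s.Fl ∪ RT) := disjoint_union_left.2
    ⟨disjoint_union_right.2 ⟨o1.disj, d1.mono_left subset_union_left⟩,
      d3.symm.mono (subset_union_left.trans subset_union_left)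
        (union_subset_union_left subset_union_right)⟩
  have dB : Disjoint (s.Past ∪ s'.Past) (s'.Fl ∪ RT') := disjoint_union_left.2
    ⟨d3.mono (subset_union_left.trans subset_union_left)
      (union_subset_union_left subset_union_right),
      disjoint_union_right.2 ⟨o2.disj, d2.mono_left subset_union_left⟩⟩
  let Good : ℕ → ((Fin x.nH × Fin x.ν) ⊕ (Fin x.nH × Fin x.ν) →
      (Fin x.nH × Fin x.ν) ⊕ (Fin x.nH × Fin x.ν)) → Prop := fun t μ =>
    ∃ (L : Finset (Fin x.nH × Fin x.ν)) (σ : Fin x.nH × Fin x.ν → Fin x.nH × Fin x.ν)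
      (qs qs' : Fin x.nH × Fin x.ν → V) (R R' : Fin x.nH × Fin x.ν → Finset V),
      Set.InjOn σ L ∧ Fly G (s.Fl ∪ A t) L (fun k => st (ln t k)) qs R ∧
      Fly G (s'.Fl ∪ A' t) L (fun k => st' (ln t (σ k))) qs' R' ∧
      (∀ k ∈ L, ln t k ∈ Lv ∧ ln t (σ k) ∈ Lv' ∧ R k ⊆ P (ln t k) ∪ A t ∧
        R' k ⊆ P' (ln t (σ k)) ∪ A' t ∧ G.Adj (qs k) (qs' k) ∧
        p.thr + 1 ≤ lump L (fun k => oc (ln t k)) (fun k => oc' (ln t (σ k))) (oc (ln t k))
          (oc' (ln t (σ k)))) ∧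
      ∀ S, cr μ S = (spl L σ S).card
  obtain ⟨t, ht, M, hM, hE⟩ := cm ((Fin x.nH × Fin x.ν) ⊕ (Fin x.nH × Fin x.ν)) (x.nH * x.ν / 8)
    x.T Λ (fun t M => ∀ j < t, Good j (M j)) (by rw [Fintype.card_sum, hκ]; omega) (by
      rw [Fintype.card_sum, hκ]
      generalize x.nH * x.ν = N at *
      have b1 : 3 * N ≤ 32 * (N / 8) := by omega
      have b2 : 400 * (Λ + 1) * (N / 8) ≤ x.T * (N / 8) := Nat.mul_le_mul_right _ hT
      have b3 : Λ * (3 * N) ≤ Λ * (32 * (N / 8)) := Nat.mul_le_mul_left _ b1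
      have b4 : 0 < N / 8 := by omega
      nlinarith) (fun j hj => absurd hj (Nat.not_lt_zero j)) (by
      intro t ht M hM S hS
      obtain ⟨X, Y, b1, b2, b3⟩ := sides S hS
      have c1 := live f1.sub n1 ht X
      have c2 := live (x := x) f2.sub n2 ht Y
      obtain ⟨X', x1, x2⟩ := exists_subset_card_eq (min_le_left
        (X.filter fun k => ln t k ∈ Lv).card (Y.filter fun k => ln t k ∈ Lv').card)
      obtain ⟨Y', y1, y2⟩ := exists_subset_card_eq (min_le_right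
        (X.filter fun k => ln t k ∈ Lv).card (Y.filter fun k => ln t k ∈ Lv').card)
      have x3 : ∀ k ∈ X', ln t k ∈ Lv := fun k hk => (mem_filter.1 (x1 hk)).2
      have y3 : ∀ k ∈ Y', ln t k ∈ Lv' := fun k hk => (mem_filter.1 (y1 hk)).2
      have ht' := mem_range.2 ht
      have u1 : s.Fl ∪ A t ⊆ s.Fl ∪ RT := union_subset_union_right (L1.sub t ht')
      have u2 : s'.Fl ∪ A' t ⊆ s'.Fl ∪ RT' := union_subset_union_right (L2.sub t ht')
      obtain ⟨L, l1, σ, qs, qs', R, R', l2, l3, l4, l5, l6, l7⟩ := hr V _ G p s.Past s'.Past s.Fl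
        s'.Fl (A t) (A' t) (I t) (I' t) (O t) (O' t) s.Jo s'.Jo s.Oo s'.Oo X' Y' _ _
        (fun k => en (ln t k)) _ _ (fun k => en' (ln t k)) _ _ (fun k => oc (ln t k))
        (fun k => oc' (ln t k)) (w t) (w' t) (x.nH * x.ν) hp o1.cert o2.cert
        (fly_comp f1.fly (ln t) x3 fun a _ b _ e => (ln_inj e).2)
        (fly_comp f2.fly (ln t) y3 fun a _ b _ e => (ln_inj e).2) (x2.trans y2.symm)
        (hκ ▸ card_le_univ _) (L1.cel t ht') (L2.cel t ht')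
        (fun a k b k' e => (ln_inj (i1 (x3 a k) (x3 b k') e)).2)
        (fun a k b k' e => (ln_inj (i2 (y3 a k) (y3 b k') e)).2)
        (fun a k => ⟨(f1.org _ (x3 a k)).1, (f1.org _ (x3 a k)).2, (st_mem o1 f1 (x3 a k)).2.2.2,
          e1 _ (x3 a k), (a1 _ (x3 a k)).2.2.1⟩)
        (fun a k => ⟨(f2.org _ (y3 a k)).1, (f2.org _ (y3 a k)).2, (st_mem o2 f2 (y3 a k)).2.2.2,
          e2 _ (y3 a k), (a2 _ (y3 a k)).2.2.1⟩)
        (hww t ht) (hwi t ht).1 (hwi t ht).2 (u1.trans (union_subset o1.sub r1))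
        (u2.trans (union_subset o2.sub r2)) dP
        (disjoint_union_right.2 ⟨dA.mono_right u1, dB.mono_right u2⟩)
        (d1.mono subset_union_right (L1.sub t ht')) (d2.mono subset_union_right (L2.sub t ht'))
        (dF.mono u1 u2)
      obtain ⟨μ, m1, m2⟩ := invol L σ l3
      refine ⟨μ, m1, ?_, fun j hj => ?_⟩
      · have b4 : L.card ≤ (spl L σ S).card := card_le_card fun k hk => mem_spl.2 ⟨hk,
          b3 k (mem_filter.1 (x1 (l1 hk))).1 _ (mem_filter.1 (y1 (l2 k hk))).1⟩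
        rw [hκ] at b1 b2
        rw [m2]
        omega
      · rcases Nat.lt_succ_iff_lt_or_eq.1 hj with h | rfl
        · rw [Function.update_of_ne h.ne]
          exact hM j h
        · rw [Function.update_self]
          exact ⟨L, σ, qs, qs', R, R', l3, l4, l5, fun k hk => ⟨x3 k (l1 hk), y3 _ (l2 k hk),
            l6 k hk⟩, m2⟩)
  have z1 : Nonempty (Fin x.nH × Fin x.ν → V) := ⟨fun _ => w 0 0⟩
  have z2 : Nonempty (Fin x.nH × Fin x.ν → Fin x.nH × Fin x.ν) := ⟨id⟩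
  choose! L σ qs qs' R R' g1 g2 g3 g4 g5 using hM
  let LL : Finset (Σ _ : ℕ, Fin x.nH × Fin x.ν) := (range t).sigma L
  have m1 : ∀ a ∈ LL, a.1 < t ∧ a.2 ∈ L a.1 := fun a k =>
    ⟨mem_range.1 (mem_sigma.1 k).1, (mem_sigma.1 k).2⟩
  have j1 : Set.InjOn (fun a : Σ _ : ℕ, Fin x.nH × Fin x.ν => ln a.1 a.2) LL := by
    rintro ⟨j, a⟩ _ ⟨j', b⟩ _ e
    obtain ⟨rfl, rfl⟩ := ln_inj e
    rfl
  have j2 : Set.InjOn (fun a : Σ _ : ℕ, Fin x.nH × Fin x.ν => ln a.1 (σ a.1 a.2)) LL := by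
    rintro ⟨j, a⟩ k ⟨j', b⟩ k' e
    obtain ⟨rfl, e'⟩ := ln_inj e
    obtain rfl : a = b := g1 j (m1 _ k).1 (m1 _ k).2 (m1 _ k').2 e'
    rfl
  have F1 : Fly G (s.Fl ∪ RT) LL (fun a => st (ln a.1 a.2)) (fun a => qs a.1 a.2)
      fun a => R a.1 a.2 :=
    glue (col := fun a => a.1) f1.fly (fun a k => (st_mem o1 f1 k).2.2.2) L1.sub L1.disj d1 j1
      (fun a k => let ⟨k1, k2⟩ := m1 a k
        ⟨(g4 _ k1 _ k2).1, mem_range.2 (k1.trans_le ht), ((g2 _ k1).conn _ k2).1,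
          ((g2 _ k1).conn _ k2).2.1, ((g2 _ k1).conn _ k2).2.2.1, (g4 _ k1 _ k2).2.2.1⟩) (by
      rintro ⟨j, a⟩ k ⟨j', b⟩ k' n (rfl : j = j')
      exact (g2 j (m1 _ k).1).disj a (m1 _ k).2 b (m1 _ k').2 fun e => n (e ▸ rfl))
  have F2 : Fly G (s'.Fl ∪ RT') LL (fun a => st' (ln a.1 (σ a.1 a.2))) (fun a => qs' a.1 a.2)
      fun a => R' a.1 a.2 :=
    glue (col := fun a => a.1) f2.fly (fun a k => (st_mem o2 f2 k).2.2.2) L2.sub L2.disj d2 j2
      (fun a k => let ⟨k1, k2⟩ := m1 a k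
        ⟨(g4 _ k1 _ k2).2.1, mem_range.2 (k1.trans_le ht), ((g3 _ k1).conn _ k2).1,
          ((g3 _ k1).conn _ k2).2.1, ((g3 _ k1).conn _ k2).2.2.1, (g4 _ k1 _ k2).2.2.2.1⟩) (by
      rintro ⟨j, a⟩ k ⟨j', b⟩ k' n (rfl : j = j')
      exact (g3 j (m1 _ k).1).disj a (m1 _ k).2 b (m1 _ k').2 fun e => n (e ▸ rfl))
  have p1 : s.l % 2 = 0 := o1.par.trans hb
  have p2 : s'.l % 2 = 1 := o2.par
  obtain ⟨U, u1, u2, u3, u4, u5, u6, u7⟩ := hu V _ G s.Past s'.Past x.Rt x.K x.g (p.thr + 1) s.W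
    s'.W o1.web o2.web dP (disjoint_left.2 fun i k k' => by
      have b1 : i.1 % 2 = 0 := (o1.tag i k).2.trans hb
      have b2 : i.1 % 2 = 1 := (o2.tag i k').2
      omega) o1.ro o2.ro
  have v1 : ∀ i, i ∈ U.J ↔ i ∈ s.W.J ∨ i ∈ s'.W.J := fun i => by simp only [u2, mem_union]
  have v2 : ∀ v, v ∈ U.Om ∪ U.Ro → v ∈ s.W.Om ∪ s.W.Ro ∨ v ∈ s'.W.Om ∪ s'.W.Ro := fun v => by
    rw [u3, u4]
    simp only [mem_union]
    tauto
  obtain ⟨W, w1, w2, w3, w4, -, w6⟩ := hw V _ _ G _ _ _ x.Rt x.K x.g (p.thr + 1) U LL _ _ _ _ _ _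
    (fun a => (s.l, oc (ln a.1 a.2))) (fun a => (s'.l, oc' (ln a.1 (σ a.1 a.2)))) u1 F1 F2 dA dB dF
    (fun a _ b _ e => by
      have := congrArg Prod.fst e
      dsimp only at this
      omega) (fun a k => by
      obtain ⟨k1, k2⟩ := m1 a k
      obtain ⟨b1, b2, -, -, b5, b6⟩ := g4 _ k1 _ k2
      obtain ⟨c1, c2, c3, c4⟩ := st_mem o1 f1 b1
      obtain ⟨c5, c6, c7, c8⟩ := st_mem o2 f2 b2
      refine ⟨(v1 _).2 (Or.inl c1), (v1 _).2 (Or.inr c5), (u5 _ c1).symm ▸ c2, (u6 _ c5).symm ▸ c6,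
        fun h => (v2 _ h).elim c3 fun h => disjoint_left.1 dP c4 (used_sub o2 h),
        fun h => (v2 _ h).elim (fun h => disjoint_left.1 dP (used_sub o1 h) c8) c7, b5,
        b6.trans (lump_le (fun b => ⟨a.1, b⟩) (fun b _ c _ e => by simpa using e)
          fun b h1 h2 h3 => ⟨mem_sigma.2 ⟨mem_range.2 k1, h1⟩, congrArg (Prod.mk s.l) h2,
            congrArg (Prod.mk s'.l) h3⟩)⟩)
  have hs : ∀ i ∈ range 2 ×ˢ range x.nH, i ∈ U.J ∧ x.r ≤ (U.Ro ∩ U.Pt i).card := by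
    rintro ⟨b, i⟩ k
    obtain ⟨k1, k2⟩ := mem_product.1 k
    have k3 := o1.host i (mem_range.1 k2)
    have k4 := o2.host i (mem_range.1 k2)
    rw [hb] at k3
    rw [u4]
    obtain rfl | rfl : b = 0 ∨ b = 1 := by have := mem_range.1 k1; omega
    · exact ⟨(v1 _).2 (Or.inl k3.1), k3.2.trans (card_le_card
        ((u5 _ k3.1).symm ▸ inter_subset_inter_right subset_union_left))⟩
    · exact ⟨(v1 _).2 (Or.inr k4.1), k4.2.trans (card_le_card
        ((u6 _ k4.1).symm ▸ inter_subset_inter_right subset_union_right))⟩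
  refine ⟨W, ?_, fun i k => w2.symm ▸ (hs i k).1, fun i k => w4.symm ▸ w3.symm ▸ (hs i k).2, ?_,
    fun S hS b1 b2 => ?_⟩
  · refine (congrArg (fun Z => Web G Z x.Rt x.K x.g (p.thr + 1) W) ?_).mp w1
    ext v
    simp only [mem_union]
    tauto
  · rw [w2, u2]
    exact le_trans (card_le_card fun i k => by simpa only [mem_union] using k)
      (card_union_le s.W.J s'.W.J)
  · rw [hosts2, card_product, card_range, card_range] at b1 b2
    rw [card_product, card_range, card_range]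
    let S' := (univ.filter fun k : Fin x.nH × Fin x.ν => (0, (k.1 : ℕ)) ∈ S).disjSum
      (univ.filter fun k : Fin x.nH × Fin x.ν => (1, (k.1 : ℕ)) ∈ S)
    have c1 := hE S' (by
      unfold Bal
      rw [Fintype.card_sum, hκ, card_disjSum, hosts, hosts, ← add_mul]
      have c2 := Nat.mul_le_mul_right x.ν b1
      have c3 := Nat.mul_le_mul_right x.ν b2
      constructor <;> nlinarith)
    have c2 : ∑ j ∈ range t, cr (M j) S' =
        ((range t).sigma fun j => spl (L j) (σ j) S').card := by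
      rw [card_sigma]
      exact sum_congr rfl fun j hj => g5 j (mem_range.1 hj) S'
    have c3 : ((range t).sigma fun j => spl (L j) (σ j) S') ⊆
        (LL.filter fun a => ¬ ((0, (a.2.1 : ℕ)) ∈ S ↔ (s.l, oc (ln a.1 a.2)) ∈ S)) ∪
        (LL.filter fun a => ¬ ((1, ((σ a.1 a.2).1 : ℕ)) ∈ S ↔
          (s'.l, oc' (ln a.1 (σ a.1 a.2))) ∈ S)) ∪
        LL.filter fun a => ¬ ((s.l, oc (ln a.1 a.2)) ∈ S ↔
          (s'.l, oc' (ln a.1 (σ a.1 a.2))) ∈ S) := by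
      intro a k
      obtain ⟨k1, k2⟩ := mem_sigma.1 k
      obtain ⟨k3, k4⟩ := mem_spl.1 k2
      have k5 : a ∈ LL := mem_sigma.2 ⟨k1, k3⟩
      simp only [S', inl_mem_disjSum, inr_mem_disjSum, mem_filter, mem_univ, true_and] at k4
      simp only [mem_union, mem_filter, k5, true_and]
      tauto
    have c4 := (card_le_card c3).trans ((card_union_le _ _).trans
      (Nat.add_le_add_right (card_union_le _ _) _))
    have c5 : (LL.filter fun a => ¬ ((0, (a.2.1 : ℕ)) ∈ S ↔ (s.l, oc (ln a.1 a.2)) ∈ S)).card ≤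
        cw s.W.mu (s.W.J ∩ S) (s.W.J \ S) :=
      le_trans (card_le_card_of_injOn (fun a => ln a.1 a.2) (fun a k => by
        obtain ⟨k1, k2⟩ := mem_filter.1 (mem_coe.1 k)
        exact mem_coe.2 (mem_filter.2 ⟨(g4 _ (m1 a k1).1 _ (m1 a k1).2).1, hb.symm ▸ k2⟩))
        (j1.mono (coe_subset.2 (filter_subset _ _)))) (f1.cut S)
    have c6 : (LL.filter fun a => ¬ ((1, ((σ a.1 a.2).1 : ℕ)) ∈ S ↔
          (s'.l, oc' (ln a.1 (σ a.1 a.2))) ∈ S)).card ≤ cw s'.W.mu (s'.W.J ∩ S) (s'.W.J \ S) :=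
      le_trans (card_le_card_of_injOn (fun a => ln a.1 (σ a.1 a.2)) (fun a k => by
        obtain ⟨k1, k2⟩ := mem_filter.1 (mem_coe.1 k)
        exact mem_coe.2 (mem_filter.2 ⟨(g4 _ (m1 a k1).1 _ (m1 a k1).2).2.1, k2⟩))
        (j2.mono (coe_subset.2 (filter_subset _ _)))) (f2.cut S)
    have i1 : ∀ A B : Finset (ℕ × ℕ), @Inter.inter _
        (@instInter _ fun a b => Classical.propDecidable (a = b)) A B = A ∩ B := fun A B => by
      ext v
      simp only [mem_inter]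
    have i2 : ∀ A B : Finset (ℕ × ℕ), @SDiff.sdiff _
        (@instSDiff _ fun a b => Classical.propDecidable (a = b)) A B = A \ B := fun A B => by
      ext v
      simp only [mem_sdiff]
    have c7 : cw s.W.mu (s.W.J ∩ S) (s.W.J \ S) + cw s'.W.mu (s'.W.J ∩ S) (s'.W.J \ S) ≤
        cw U.mu (U.J ∩ S) (U.J \ S) := by simpa only [i1, i2] using u7 S
    have c8 : cw U.mu (U.J ∩ S) (U.J \ S) + (LL.filter fun a => ¬ ((s.l, oc (ln a.1 a.2)) ∈ S ↔
        (s'.l, oc' (ln a.1 (σ a.1 a.2))) ∈ S)).card ≤ cw W.mu (W.J ∩ S) (W.J \ S) := by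
      have c9 := w6 S
      rw [i1, i1, i2, i2] at c9
      exact le_trans (Nat.add_le_add_left (card_le_card fun a k => by
        simpa only [mem_filter] using k) _) c9
    rw [inter_eq_right.2 hS] at c8
    rw [mul_assoc]
    omega

end Pool.Agent.MP_35cb46_co.Fl
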