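import Pool.Agent.MP_35cb46_co.fl.BSpec
import Pool.Agent.MP_35cb46_co.nl.Cut

/-! PROJECT FL, row BASE2: moving the ends of layers and stages, cores of cells. -/

noncomputable section

namespace Pool.Agent.MP_35cb46_co.Fl

open Finset Pool.Agent.MP_7be75d_co Pool.Agent.MP_35cb46_co.Sq Pool.Agent.MP_35cb46_co.Nl
open scoped Classical

namespace Base2

variable {V α ι : Type} {G : SimpleGraph V}

theorem cat' {A B : Finset V} {S : Finset α} {f g f' g' : α → V} (h : Lnk G A S f g)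
    (h' : Lnk G B S f' g') (hd : Disjoint A B) (hadj : ∀ a ∈ S, G.Adj (g a) (f' a)) :
    Lnk G (A ∪ B) S f g' := by
  obtain ⟨P, hP⟩ := h
  obtain ⟨Q, hQ⟩ := h'
  refine ⟨fun a => P a ∪ Q a, ⟨fun a ha => union_subset_union (hP.fam.sub a ha) (hQ.fam.sub a ha),
    fun a ha => (hP.fam.conn a ha).union_adj (hQ.fam.conn a ha) (hP.en a ha) (hQ.st a ha)
      (hadj a ha), fun a ha b hb hab => ?_⟩, fun a ha => mem_union_left _ (hP.st a ha),
    fun a ha => mem_union_right _ (hQ.en a ha)⟩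
  rw [disjoint_union_left, disjoint_union_right, disjoint_union_right]
  exact ⟨⟨hP.fam.disj a ha b hb hab, hd.mono (hP.fam.sub a ha) (hQ.fam.sub b hb)⟩,
    (hd.mono (hP.fam.sub b hb) (hQ.fam.sub a ha)).symm, hQ.fam.disj a ha b hb hab⟩

theorem sym' {A I O : Finset V} (h : Cel G A I O) : Cel G A O I := by
  refine ⟨h.2.1, h.1, fun O' hO' I' hI' hc => ?_⟩
  obtain ⟨g, hg, P, hP⟩ := h.2.2 I' hI' O' hO' hc.symm
  have hinj : Set.InjOn g I' := fun a ha b hb hab =>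
    hP.fam.eq ha hb (hP.en a ha) (hab ▸ hP.en b hb)
  have him : I'.image g = O' :=
    eq_of_subset_of_card_le (image_subset_iff.2 hg) (by rw [card_image_of_injOn hinj, hc])
  have hex : ∀ y, ∃ x, y ∈ O' → x ∈ I' ∧ g x = y := by
    intro y
    by_cases hy : y ∈ O'
    · rw [← him] at hy
      obtain ⟨x, hx, hxy⟩ := mem_image.1 hy
      exact ⟨x, fun _ => ⟨hx, hxy⟩⟩
    · exact ⟨y, fun h => absurd h hy⟩
  choose k hk using hex
  refine ⟨k, fun y hy => (hk y hy).1, fun y => P (k y),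
    ⟨fun y hy => hP.fam.sub _ (hk y hy).1, fun y hy => hP.fam.conn _ (hk y hy).1,
      fun y hy z hz hyz => hP.fam.disj _ (hk y hy).1 _ (hk z hz).1 fun e => hyz ?_⟩,
    fun y hy => ?_, fun y hy => hP.st _ (hk y hy).1⟩
  · rw [← (hk y hy).2, ← (hk z hz).2, e]
  · have := hP.en _ (hk y hy).1
    rwa [(hk y hy).2] at this

theorem laySym {Reg : Finset V} {J : Finset ι} {A I O : ι → Finset V} (h : Lay G Reg J A I O) :
    Lay G Reg J A O I :=
  ⟨h.sub, h.disj, fun c hc => sym' (h.cel c hc)⟩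

/-- Disjoint strands across a cut use distinct edges of the cut. -/
theorem cut {A X : Finset V} {S : Finset α} {P : α → Finset V} (h : Fam G A S P)
    (h1 : ∀ a ∈ S, ∃ v ∈ P a, v ∈ X) (h2 : ∀ a ∈ S, ∃ v ∈ P a, v ∉ X) :
    S.card ≤ cw (aw G) X (A \ X) := by
  have h3 : ∀ a ∈ S, 1 ≤ cw (aw G) (P a ∩ X) (A \ X) := by
    intro a ha
    obtain ⟨v, hv, hvX⟩ := h1 a ha
    obtain ⟨u, hu, huX⟩ := h2 a ha
    obtain ⟨x, y, hx, hy, hxP, hyP, hxy⟩ := (h.conn a ha).exit hv hvX hu huX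
    by_contra hc
    have h0 : cw (aw G) (P a ∩ X) (A \ X) = 0 := by omega
    have := cw_eq_zero.1 h0 x (mem_inter.2 ⟨hxP, hx⟩) y (mem_sdiff.2 ⟨h.sub a ha hyP, hy⟩)
    simp [aw, hxy] at this
  calc S.card = ∑ _a ∈ S, 1 := card_eq_sum_ones S
    _ ≤ ∑ a ∈ S, cw (aw G) (P a ∩ X) (A \ X) := sum_le_sum h3
    _ ≤ cw (aw G) X (A \ X) :=
        CutP.sum_cw_le (Q := fun _ => A \ X)
          (fun a ha b hb hab => (h.disj a ha b hb hab).mono inter_subset_left inter_subset_left)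
          (fun _ _ => inter_subset_right) (fun _ _ => subset_rfl)

theorem cutCel {A I O X : Finset V} (h : Cel G A I O) :
    min (I ∩ X).card (O \ X).card ≤ cw (aw G) X (A \ X) := by
  obtain ⟨I', hI', hcI⟩ := exists_subset_card_eq (min_le_left (I ∩ X).card (O \ X).card)
  obtain ⟨O', hO', hcO⟩ := exists_subset_card_eq (min_le_right (I ∩ X).card (O \ X).card)
  obtain ⟨g, hg, P, hP⟩ := h.2.2 I' (hI'.trans inter_subset_left) O' (hO'.trans sdiff_subset)
    (hcI.trans hcO.symm)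
  rw [← hcI]
  exact cut hP.fam (fun a ha => ⟨a, hP.st a ha, (mem_inter.1 (hI' ha)).2⟩)
    fun a ha => ⟨g a, hP.en a ha, (mem_sdiff.1 (hO' (hg a ha))).2⟩

end Base2

theorem ext : ExtStmt := by
  intro V α ι G Reg Reg' J A I O S x e c P hL hd hc hP hdP
  have hinj : ∀ a ∈ S, ∀ b ∈ S, ∀ v, v ∈ P a → v ∈ P b → a = b := by
    intro a ha b hb v h1 h2
    by_contra hab
    exact disjoint_left.1 (hdP a ha b hb hab) h1 h2
  have hxA : ∀ a ∈ S, x a ∈ A (c a) := fun a ha => (hL.cel _ (hc a ha).1).2.1 (hc a ha).2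
  have hPx : ∀ a ∈ S, ∀ v ∈ P a, v ∈ Reg → v = x a := by
    intro a ha v hv hR
    rcases mem_insert.1 ((hP a ha).2.2.2 hv) with h | h
    · exact h
    · exact absurd h (disjoint_left.1 hd hR)
  have hmem : ∀ k v, v ∈ A k ∪ (S.filter fun a => c a = k).biUnion P ↔
      v ∈ A k ∨ ∃ a ∈ S, c a = k ∧ v ∈ P a := by
    intro k v
    simp only [mem_union, mem_biUnion, mem_filter, and_assoc]
  refine ⟨fun k => A k ∪ (S.filter fun a => c a = k).biUnion P, fun k hk v hv => ?_,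
    fun k hk k' hk' hkk => ?_, fun k hk => ⟨(hL.cel k hk).1.trans subset_union_left, ?_, ?_⟩⟩
  · rcases (hmem k v).1 hv with h | ⟨a, ha, -, h⟩
    · exact mem_union_left _ (hL.sub k hk h)
    · rcases mem_insert.1 ((hP a ha).2.2.2 h) with h | h
      · exact mem_union_left _ (h ▸ hL.sub _ (hc a ha).1 (hxA a ha))
      · exact mem_union_right _ h
  · refine disjoint_left.2 fun v hv hv' => ?_
    rcases (hmem k v).1 hv with h | ⟨a, ha, rfl, h⟩ <;>
      rcases (hmem k' v).1 hv' with h' | ⟨b, hb, rfl, h'⟩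
    · exact disjoint_left.1 (hL.disj k hk k' hk' hkk) h h'
    · exact disjoint_left.1 (hL.disj k hk _ hk' hkk) h
        (hPx b hb v h' (hL.sub k hk h) ▸ hxA b hb)
    · exact disjoint_left.1 (hL.disj _ hk k' hk' hkk)
        (hPx a ha v h (hL.sub k' hk' h') ▸ hxA a ha) h'
    · exact hkk (by rw [hinj a ha b hb v h h'])
  · intro v hv
    obtain ⟨a, ha, rfl⟩ := mem_image.1 hv
    exact (hmem k _).2 (Or.inr ⟨a, (mem_filter.1 ha).1, (mem_filter.1 ha).2,
      (hP a (mem_filter.1 ha).1).2.2.1⟩)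
  · intro I' hI' O' hO' hcard
    obtain ⟨T, hT, hTe⟩ := subset_image_iff.1 hO'
    have hTS : ∀ a ∈ T, a ∈ S ∧ c a = k := fun a ha => mem_filter.1 (hT ha)
    have hce : (T.image e).card = T.card := card_image_of_injOn fun a ha b hb hab =>
      hinj a (hTS a ha).1 b (hTS b hb).1 (e a) (hP a (hTS a ha).1).2.2.1
        (hab ▸ (hP b (hTS b hb).1).2.2.1)
    have hcx : (T.image x).card = T.card := card_image_of_injOn fun a ha b hb hab =>
      hinj a (hTS a ha).1 b (hTS b hb).1 (x a) (hP a (hTS a ha).1).2.1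
        (hab ▸ (hP b (hTS b hb).1).2.1)
    obtain ⟨g, hg, Q, hQ⟩ := (hL.cel k hk).2.2 I' hI' (T.image x)
      (image_subset_iff.2 fun a ha => (hTS a ha).2 ▸ (hc a (hTS a ha).1).2)
      (by rw [hcard, ← hTe, hce, hcx])
    have hex : ∀ v, ∃ (w : V) (R : Finset V), v ∈ I' → ∃ a ∈ T, x a = g v ∧ w = e a ∧ R = P a := by
      intro v
      by_cases hv : v ∈ I'
      · obtain ⟨a, ha, hav⟩ := mem_image.1 (hg v hv)
        exact ⟨e a, P a, fun _ => ⟨a, ha, hav, rfl, rfl⟩⟩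
      · exact ⟨v, ∅, fun h => absurd h hv⟩
    choose w R hw using hex
    have hQR : ∀ v ∈ I', ∀ u ∈ I', v ≠ u → Disjoint (Q v) (R u) := by
      intro v hv u hu hvu
      obtain ⟨a, ha, h1, -, h3⟩ := hw u hu
      refine disjoint_left.2 fun z hz hz' => ?_
      have h4 := hPx a (hTS a ha).1 z (h3 ▸ hz') (hL.sub k hk (hQ.fam.sub v hv hz))
      exact disjoint_left.1 (hQ.fam.disj v hv u hu hvu) hz (by
        rw [h4, h1]
        exact hQ.en u hu)
    refine ⟨w, fun v hv => ?_, fun v => Q v ∪ R v, ⟨fun v hv => ?_, fun v hv => ?_,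
      fun v hv u hu hvu => ?_⟩, fun v hv => mem_union_left _ (hQ.st v hv), fun v hv => ?_⟩
    · obtain ⟨a, ha, -, h2, -⟩ := hw v hv
      rw [h2, ← hTe]
      exact mem_image_of_mem _ ha
    · obtain ⟨a, ha, -, -, h3⟩ := hw v hv
      refine union_subset_union (hQ.fam.sub v hv) ?_
      rw [h3]
      exact subset_biUnion_of_mem P (hT ha)
    · obtain ⟨a, ha, h1, -, h3⟩ := hw v hv
      rw [h3]
      exact (hQ.fam.conn v hv).union (hP a (hTS a ha).1).1 (hQ.en v hv)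
        (h1 ▸ (hP a (hTS a ha).1).2.1)
    · rw [disjoint_union_left, disjoint_union_right, disjoint_union_right]
      refine ⟨⟨hQ.fam.disj v hv u hu hvu, hQR v hv u hu hvu⟩,
        (hQR u hu v hv (Ne.symm hvu)).symm, ?_⟩
      obtain ⟨a, ha, h1, -, h3⟩ := hw v hv
      obtain ⟨b, hb, h1', -, h3'⟩ := hw u hu
      rw [h3, h3']
      refine hdP a (hTS a ha).1 b (hTS b hb).1 fun hab => hvu ?_
      refine hQ.fam.eq hv hu (hQ.en v hv) ?_
      rw [← h1, hab, h1']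
      exact hQ.en u hu
    · obtain ⟨a, ha, -, h2, h3⟩ := hw v hv
      rw [h2, h3]
      exact mem_union_right _ (hP a (hTS a ha).1).2.2.1

namespace Base2

variable {V : Type} {G : SimpleGraph V}

/-- The exits of a layer of tracks are moved along a linkage outside. -/
theorem move {Reg Reg' : Finset V} {F : ℕ} {J : Finset ℕ} {A I : ℕ → Finset V} {b x y : ℕ → V}
    {l : ℕ → ℕ} (hL : Lay G Reg J A I (fib F b l)) (hl : ∀ τ < F, l τ ∈ J)
    (hb : Set.InjOn b ↑(range F)) (hd : Disjoint Reg Reg') (h : Lnk G Reg' (range F) x y)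
    (hadj : ∀ τ < F, G.Adj (b τ) (x τ)) : ∃ A', Lay G (Reg ∪ Reg') J A' I (fib F y l) := by
  obtain ⟨P, hP⟩ := h
  have hbO : ∀ τ ∈ range F, b τ ∈ fib F b l (l τ) := fun τ hτ =>
    mem_image_of_mem _ (mem_filter.2 ⟨hτ, rfl⟩)
  have hbR : ∀ τ ∈ range F, b τ ∈ Reg := fun τ hτ =>
    hL.sub _ (hl τ (mem_range.1 hτ)) ((hL.cel _ (hl τ (mem_range.1 hτ))).2.1 (hbO τ hτ))
  obtain ⟨A', hA'⟩ := ext V ℕ ℕ G Reg Reg' J A I (fib F b l) (range F) b y l
    (fun τ => insert (b τ) (P τ)) hL hd (fun τ hτ => ⟨hl τ (mem_range.1 hτ), hbO τ hτ⟩)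
    (fun τ hτ => ⟨(hP.fam.conn τ hτ).insert (hP.st τ hτ) (hadj τ (mem_range.1 hτ)).symm,
      mem_insert_self _ _, mem_insert_of_mem (hP.en τ hτ),
      insert_subset_insert _ (hP.fam.sub τ hτ)⟩)
    (fun τ hτ σ hσ hne => by
      refine disjoint_left.2 fun v hv hv' => ?_
      rcases mem_insert.1 hv with h1 | h1 <;> rcases mem_insert.1 hv' with h2 | h2
      · exact hne (hb (mem_coe.2 hτ) (mem_coe.2 hσ) (h1.symm.trans h2))
      · exact disjoint_left.1 hd (h1 ▸ hbR τ hτ) (hP.fam.sub σ hσ h2)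
      · exact disjoint_left.1 hd (h2 ▸ hbR σ hσ) (hP.fam.sub τ hτ h1)
      · exact disjoint_left.1 (hP.fam.disj τ hτ σ hσ hne) h1 h2)
  refine ⟨A', ?_⟩
  convert hA' using 1
  funext k
  unfold fib
  convert rfl

end Base2

theorem stg : StgStmt := by
  intro V G Reg Reg' F a b x y S hS hd h
  obtain ⟨P, hP⟩ := hS.pass
  obtain ⟨Q, hQ⟩ := id h
  refine ⟨fun hadj => ⟨Base2.cat' hS.pass h hd fun τ hτ => hadj τ (mem_range.1 hτ),
    fun τ hτ σ hσ e => ?_, fun as has => ?_⟩,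
    fun hadj => ⟨?_, fun τ hτ σ hσ e => ?_, fun as has => ?_⟩⟩
  · exact disjoint_left.1 hd (hP.fam.sub τ (mem_range.2 hτ) (hP.st τ (mem_range.2 hτ)))
      (e ▸ hQ.fam.sub σ (mem_range.2 hσ) (hQ.en σ (mem_range.2 hσ)))
  · obtain ⟨A, hA⟩ := hS.flex as has
    exact Base2.move hA (fun τ hτ => mem_image_of_mem _ (mem_range.2 hτ))
      (fun τ hτ σ hσ e => hP.fam.eq hτ hσ (hP.en τ hτ) (e ▸ hP.en σ hσ)) hd h hadj
  · rw [union_comm]
    exact Base2.cat' h hS.pass hd.symm fun τ hτ => hadj τ (mem_range.1 hτ)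
  · exact disjoint_left.1 hd (hP.fam.sub σ (mem_range.2 hσ) (hP.en σ (mem_range.2 hσ)))
      (e ▸ hQ.fam.sub τ (mem_range.2 hτ) (hQ.st τ (mem_range.2 hτ)))
  · obtain ⟨A, hA⟩ := hS.flex as has
    obtain ⟨A', hA'⟩ := Base2.move (Base2.laySym hA) (fun τ hτ => (has τ hτ).1)
      (fun τ hτ σ hσ e => hP.fam.eq hτ hσ (hP.st τ hτ) (e ▸ hP.st σ hσ)) hd
      ⟨Q, hQ.fam, hQ.en, hQ.st⟩ fun τ hτ => (hadj τ hτ).symm
    exact ⟨A', Base2.laySym hA'⟩

theorem coreW : CoreWStmt := by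
  intro V G A I O h hc hne
  have hwl : WL (aw G) A (ind (I ∪ O)) 4 := by
    intro X hX
    have h1 := Base2.cutCel (X := X) h
    have h2 := Base2.cutCel (X := X) (Base2.sym' h)
    have h3 := card_inter_add_card_sdiff I X
    have h4 := card_inter_add_card_sdiff O X
    have h5 : (X ∩ (I ∪ O)).card ≤ (I ∩ X).card + (O ∩ X).card := by
      refine le_trans (card_le_card fun v hv => ?_) (card_union_le _ _)
      simp only [mem_inter, mem_union] at hv ⊢
      tauto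
    have h6 : ((A \ X) ∩ (I ∪ O)).card ≤ (I \ X).card + (O \ X).card := by
      refine le_trans (card_le_card fun v hv => ?_) (card_union_le _ _)
      simp only [mem_inter, mem_union, mem_sdiff] at hv ⊢
      tauto
    rw [ts_ind, ts_ind]
    omega
  obtain ⟨v, hv⟩ := hne
  have hpos : 0 < ts (ind (I ∪ O)) A := by
    rw [ts_ind]
    exact card_pos.2 ⟨v, mem_inter.2 ⟨h.1 hv, mem_union_left _ hv⟩⟩
  obtain ⟨C, hCA, hconn, hmem, hC⟩ := core V G A _ 4 hwl hpos
  refine ⟨C, hCA, hconn, fun u hu => hmem u (h.1 hu) ?_, fun u hu => hmem u (h.2.1 hu) ?_, hC⟩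
  · rw [ind_of_mem (mem_union_left _ hu)]
    exact one_pos
  · rw [ind_of_mem (mem_union_right _ hu)]
    exact one_pos

end Pool.Agent.MP_35cb46_co.Fl
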