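import Pool.Agent.MP_35cb46_co.fl.MSpec
import Pool.Agent.MP_35cb46_co.fl.Base1
import Pool.Agent.MP_35cb46_co.fl.Base2
import Pool.Agent.MP_35cb46_co.fl.Base3
import Pool.Agent.MP_35cb46_co.nl.DoneA

/-! PROJECT FL: poor regions and hosts in a big stage. -/

noncomputable section

namespace Pool.Agent.MP_35cb46_co.Fl

open Finset Pool.Agent.MP_7be75d_co Pool.Agent.MP_35cb46_co.Sq Pool.Agent.MP_35cb46_co.Nl
open scoped Classical

namespace Host

variable {V : Type} {G : SimpleGraph V}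

theorem rmono (h : HD V) {U U' : Finset ℕ} (hU : U ⊆ U') : h.reg U ⊆ h.reg U' :=
  biUnion_subset_biUnion_of_subset_left _ hU

theorem rmem (h : HD V) {U : Finset ℕ} {s : ℕ} (hs : s ∈ U) : h.Rg s ⊆ h.reg U :=
  subset_biUnion_of_mem h.Rg hs

theorem rdis {Amb Rt : Finset V} {N F s : ℕ} {h : HD V} {U : Finset ℕ} (H : Hub G Amb Rt N F h)
    (hU : U ⊆ range N) (hs : s < N) (hn : s ∉ U) : Disjoint (h.reg U) (h.Rg s) :=
  (disjoint_biUnion_left _ _ _).2 fun t ht =>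
    H.disj t (mem_range.1 (hU ht)) s hs fun e => hn (e ▸ ht)

theorem fib_card {F : ℕ} {a : ℕ → V} {l : ℕ → ℕ} (ha : Set.InjOn a ↑(range F)) (c : ℕ) :
    (fib F a l c).card = cnt (range F) l c := by
  unfold fib cnt
  rw [card_image_of_injOn (ha.mono (coe_subset.2 (filter_subset _ _)))]
  congr 1
  ext x
  simp only [mem_filter]

/-- Cells of a stage, numbered. -/
theorem cells {R : Finset V} {F nH q d θ : ℕ} {a b : ℕ → V} {S : SD} (hS : Stg G R F a b S)
    (hh : Shape F S q d θ) (hq : 1 ≤ q) (hn : nH * q ≤ F) :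
    ∃ A I O : ℕ → Finset V, Lay G R (range nH) A I O ∧ ∀ c < nH, (I c).card = q ∧
      (O c).card = q ∧ I c ⊆ (range F).image a ∧ O c ⊆ (range F).image b := by
  obtain ⟨A, hA⟩ := hS.flex S.df fun τ hτ => ⟨mem_image_of_mem S.ce (mem_range.2 hτ), rfl⟩
  have hc : F = (S.cells F).card * q := by
    have h1 := card_eq_sum_card_image S.ce (range F)
    rw [card_range] at h1
    refine h1.trans ?_
    rw [← smul_eq_mul, ← sum_const]
    refine sum_congr rfl fun c hc => ?_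
    rw [← hh.ce c hc]
    unfold cnt
    congr 1
    ext x
    simp only [mem_filter]
  have hle : nH ≤ (S.cells F).card := Nat.le_of_mul_le_mul_right (hn.trans hc.le) hq
  obtain ⟨φ, hφ, hi⟩ : ∃ φ : ℕ → ℕ, (∀ c < nH, φ c ∈ S.cells F) ∧
      ∀ c < nH, ∀ c' < nH, c ≠ c' → φ c ≠ φ c' := by
    refine ⟨fun c => if hc : c < (S.cells F).card then (S.cells F).orderEmbOfFin rfl ⟨c, hc⟩ else 0,
      fun c h1 => ?_, fun c h1 c' h2 hne e => ?_⟩
    · simp only [dif_pos (h1.trans_le hle)]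
      exact orderEmbOfFin_mem _ _ _
    · simp only [dif_pos (h1.trans_le hle), dif_pos (h2.trans_le hle)] at e
      exact hne (congrArg Fin.val (((S.cells F).orderEmbOfFin rfl).injective e))
  refine ⟨fun c => A (φ c), fun c => fib F a S.ce (φ c), fun c => fib F b S.ce (φ c),
    ⟨fun c h1 => hA.sub _ (hφ c (mem_range.1 h1)), fun c h1 c' h2 hne =>
      hA.disj _ (hφ c (mem_range.1 h1)) _ (hφ c' (mem_range.1 h2))
        (hi c (mem_range.1 h1) c' (mem_range.1 h2) hne),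
      fun c h1 => hA.cel _ (hφ c (mem_range.1 h1))⟩, fun c h1 => ⟨?_, ?_, ?_, ?_⟩⟩
  · rw [fib_card hS.pass.inj_left, hh.ce _ (hφ c h1)]
  · rw [fib_card hS.pass.inj_right, hh.ce _ (hφ c h1)]
  · exact image_subset_image (filter_subset _ _)
  · exact image_subset_image (filter_subset _ _)

/-- The entries of a layer are led to roots. -/
theorem hst {R R' Rt : Finset V} {nH q K : ℕ} {A I O : ℕ → Finset V} {x y : V → V}
    (hL : Lay G R (range nH) A I O) (hc : ∀ c < nH, (I c).card = q ∧ (O c).card = q)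
    (hd : Disjoint R R') (hk : Lnk G R' ((range nH).biUnion I) x y)
    (ha : ∀ v ∈ (range nH).biUnion I, G.Adj v (x v) ∧ y v ∈ Rt) (hq : 1 ≤ q) (hK : 4 ≤ K) :
    ∃ A' Ro, Hst G (R ∪ R') Rt nH q q K A' Ro O := by
  obtain ⟨P, hP⟩ := hk
  have hex : ∀ v, ∃ c, v ∈ (range nH).biUnion I → c ∈ range nH ∧ v ∈ I c := fun v => by
    by_cases hv : v ∈ (range nH).biUnion I
    · obtain ⟨c, h1, h2⟩ := mem_biUnion.1 hv
      exact ⟨c, fun _ => ⟨h1, h2⟩⟩
    · exact ⟨0, fun k => (hv k).elim⟩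
  choose l hl using hex
  have hR : ∀ v ∈ (range nH).biUnion I, v ∈ R := fun v hv =>
    hL.sub _ (hl v hv).1 ((hL.cel _ (hl v hv).1).1 (hl v hv).2)
  obtain ⟨A', hA'⟩ := ext V V ℕ G R R' (range nH) A O I ((range nH).biUnion I) id y l
    (fun v => insert v (P v)) hL.symm hd hl
    (fun v hv => ⟨(hP.fam.conn v hv).insert (hP.st v hv) (ha v hv).1.symm,
      mem_insert_self _ _, mem_insert_of_mem (hP.en v hv), insert_subset_insert _ (hP.fam.sub v hv)⟩)
    (fun v hv w hw hne => by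
      refine disjoint_left.2 fun u hu hu' => ?_
      rcases mem_insert.1 hu with h1 | h1 <;> rcases mem_insert.1 hu' with h2 | h2
      · exact hne (h1.symm.trans h2)
      · exact disjoint_left.1 hd (h1 ▸ hR v hv) (hP.fam.sub w hw h2)
      · exact disjoint_left.1 hd (h2 ▸ hR w hw) (hP.fam.sub v hv h1)
      · exact disjoint_left.1 (hP.fam.disj v hv w hw hne) h1 h2)
  have hI : ∀ c < nH, I c ⊆ (range nH).biUnion I := fun c h1 =>
    subset_biUnion_of_mem I (mem_range.2 h1)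
  have hA2 : Lay G (R ∪ R') (range nH) A' (fun c => (I c).image y) O := by
    refine hA'.symm.mono subset_rfl subset_rfl (fun c h1 => image_subset_image fun v hv => ?_)
      fun _ _ => subset_rfl
    have h2 := hI c (mem_range.1 h1) hv
    simp only [mem_filter]
    refine ⟨h2, by_contra fun n => ?_⟩
    exact disjoint_left.1 (hL.disj _ (hl v h2).1 _ h1 n) ((hL.cel _ (hl v h2).1).1 (hl v h2).2)
      ((hL.cel _ h1).1 hv)
  have hcd : ∀ c < nH, ((I c).image y).card = q := fun c h1 => by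
    rw [card_image_of_injOn (hP.inj_right.mono (coe_subset.2 (hI c h1))), (hc c h1).1]
  have hcore : ∀ c, ∃ C, c < nH → C ⊆ A' c ∧ Conn G C ∧ (I c).image y ⊆ C ∧ O c ⊆ C ∧
      WL (aw G) C (ind ((I c).image y ∪ O c)) 4 := fun c => by
    by_cases h1 : c < nH
    · obtain ⟨C, hC⟩ := coreW V G _ _ _ (hA2.cel c (mem_range.2 h1))
        ((hcd c h1).trans (hc c h1).2.symm) (card_pos.1 (by rw [hcd c h1]; exact hq))
      exact ⟨C, fun _ => hC⟩
    · exact ⟨∅, fun k => (h1 k).elim⟩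
  choose C hC using hcore
  refine ⟨C, fun c => (I c).image y, ⟨fun c h1 => (hC c (mem_range.1 h1)).1.trans (hA2.sub c h1),
    fun c h1 => (hC c (mem_range.1 h1)).2.1, fun c h1 c' h2 hne => (hA2.disj c h1 c' h2 hne).mono
      (hC c (mem_range.1 h1)).1 (hC c' (mem_range.1 h2)).1⟩,
    fun c h1 => ⟨(hC c h1).2.2.1, image_subset_iff.2 fun v hv => (ha v (hI c h1 hv)).2, hcd c h1⟩,
    fun c h1 => ⟨(hC c h1).2.2.2.1, (hc c h1).2, ?_⟩, fun c h1 => (hC c h1).2.2.2.2.up hK⟩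
  exact hd.symm.mono
    (image_subset_iff.2 fun v hv => hP.fam.sub v (hI c h1 hv) (hP.en v (hI c h1 hv)))
    ((hL.cel c (mem_range.2 h1)).2.1.trans (hL.sub c (mem_range.2 h1)))

/-- One kit. -/
theorem one {Amb Rt Z : Finset V} {N F₀ n thr z nH q K : ℕ} {h : HD V} {L : LP} {Cl : Finset ℕ}
    {k : KD V} {A I O : ℕ → Finset V} {x y : V → V} (H : Hub G Amb Rt N F₀ h)
    (hk : Kit G h N F₀ L k) (hU : k.U ⊆ Cl)
    (hL : Lay G (h.reg ((k.U.erase k.b1).erase k.b2)) (range nH) A I O)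
    (hc : ∀ c < nH, (I c).card = q ∧ (O c).card = q ∧ I c ⊆ (range L.F).image k.ba ∧
      O c ⊆ (range L.F).image k.bb) (hZ : Z ⊆ h.R 0)
    (hl : Lnk G (h.R k.b1 ∪ Z) ((range nH).biUnion I) x y)
    (ha : ∀ v ∈ (range nH).biUnion I, G.Adj v (x v) ∧ y v ∈ Rt) (hq : 1 ≤ q) (hF : L.F ≤ F₀)
    (hn : nH ≤ n) (hK : 4 ≤ K) : Hosts G h Rt F₀ (cpc G h F₀ Cl n thr z) k nH q q K Z := by
  have u1 : (k.U.erase k.b1).erase k.b2 ⊆ k.U := (erase_subset _ _).trans (erase_subset _ _)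
  have u2 : (k.U.erase k.b1).erase k.b2 ⊆ range N := u1.trans (hk.sub.trans (erase_subset _ _))
  have b1 : k.b1 < N := mem_range.1 (mem_of_mem_erase (hk.sub hk.bE.m1))
  have h0 : 0 < N := by omega
  have d1 : Disjoint (h.reg ((k.U.erase k.b1).erase k.b2)) (h.Rg k.b1) :=
    rdis H u2 b1 fun e => notMem_erase _ _ (mem_of_mem_erase e)
  have d0 : Disjoint (h.reg ((k.U.erase k.b1).erase k.b2)) (h.Rg 0) :=
    rdis H u2 h0 fun e => notMem_erase _ _ (hk.sub (u1 e))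
  have s1 : h.reg ((k.U.erase k.b1).erase k.b2) ⊆ h.reg (k.U.erase k.b2) :=
    rmono h (erase_subset_erase _ (erase_subset _ _))
  have s2 : h.Rg k.b1 ⊆ h.reg (k.U.erase k.b2) := rmem h (mem_erase.2 ⟨hk.bE.ne, hk.bE.m1⟩)
  have cF : ∀ f : ℕ → V, ((range L.F).image f).card ≤ F₀ := fun f =>
    card_image_le.trans ((card_range _).le.trans hF)
  obtain ⟨A', Ro, hH⟩ := hst hL (fun c h1 => ⟨(hc c h1).1, (hc c h1).2.1⟩)
    (disjoint_union_right.2 ⟨d1.mono_right (H.rsub _ b1), d0.mono_right (hZ.trans (H.rsub _ h0))⟩)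
    hl ha hq hK
  refine ⟨A', Ro, O, (range L.F).image k.bb, ⟨hH.fam.mono (union_subset
    (s1.trans subset_union_left) (union_subset_union ((H.rsub _ b1).trans s2) subset_rfl))
    subset_rfl, hH.ro, hH.ex, hH.wl⟩, Or.inr ⟨_, A, I, h.Rg k.b1, (range L.F).image k.ba, hL,
      rmono h (u1.trans hU), s1.trans subset_union_left, s2.trans subset_union_left, d1,
      ⟨k.b1, hU hk.bE.m1, rfl, hk.bE.d1.mono hU subset_rfl, cF _⟩, (card_range _).le.trans hn,
      fun c h1 => ⟨(hc c (mem_range.1 h1)).2.2.1,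
        ((hc c (mem_range.1 h1)).2.1.trans (hc c (mem_range.1 h1)).1.symm).le⟩⟩,
    hk.bE.d2, cF _, fun c h1 => (hc c h1).2.2.2⟩

theorem ucard {nH q : ℕ} {I : ℕ → Finset V} (hc : ∀ c < nH, (I c).card = q) :
    ((range nH).biUnion I).card ≤ nH * q := by
  have := card_biUnion_le_card_mul (range nH) I q fun c h1 => (hc c (mem_range.1 h1)).le
  rwa [card_range] at this

end Host

theorem pcok : PcokStmt := by
  intro V G Amb Rt N F₀ h Cl n thr z H hCl hp X E X' E' hD hD' hd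
  obtain ⟨s, hs, rfl, D, c⟩ := hD
  obtain ⟨s', hs', rfl, D', c'⟩ := hD'
  have hne : s ≠ s' := fun e => by
    subst e
    obtain ⟨v, hv⟩ := (H.conn s (mem_range.1 (hCl hs))).1
    have := H.rsub s (mem_range.1 (hCl hs)) hv
    exact disjoint_left.1 hd this this
  have hsub : h.reg Cl \ (h.Rg s ∪ h.Rg s') ⊆ h.reg ((Cl.erase s).erase s') := fun v hv => by
    obtain ⟨h1, h2⟩ := mem_sdiff.1 hv
    obtain ⟨t, ht, h3⟩ := mem_biUnion.1 h1
    exact mem_biUnion.2 ⟨t, mem_erase.2 ⟨fun e => h2 (mem_union_right _ (e ▸ h3)),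
      mem_erase.2 ⟨fun e => h2 (mem_union_left _ (e ▸ h3)), ht⟩⟩, h3⟩
  intro R₁ R₂ J₁ J₂ A₁ I₁ O₁ A₂ I₂ O₂ S y c₁ c₂ h1 h2
  exact hp s hs s' hs' hne E E' D D' c c' R₁ R₂ J₁ J₂ A₁ I₁ O₁ A₂ I₂ O₂ S y c₁ c₂
    (h1.trans hsub) (h2.trans hsub)

theorem hosta : HostaStmt := by
  intro V G Amb Rt N F₀ h L Cl n thr z i nH q K k k' H hk hk' hd hU hU' hi e e' hq hF hF₀ hn hK
  obtain ⟨A, I, O, hL, hc⟩ := Host.cells (hk.bS.one i (by omega)) (e ▸ hk.bH i hi) hq
    (nH := nH) (by omega)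
  obtain ⟨A', I', O', hL', hc'⟩ := Host.cells (hk'.bS.one i (by omega)) (e' ▸ hk'.bH i hi) hq
    (nH := nH) (by omega)
  have c1 := Host.ucard fun c h1 => (hc c h1).1
  have c2 := Host.ucard fun c h1 => (hc' c h1).1
  obtain ⟨Z, Z', x, y, x', y', z1, z2, z3, l1, l2, a1, a2⟩ := root V G Amb Rt N F₀ h k.U k'.U
    k.b1 k'.b1 ((range nH).biUnion I) ((range nH).biUnion I') H hk.sub hk'.sub hk.bE.m1 hk'.bE.m1
    (fun q => disjoint_left.1 hd hk.bE.m1 (q ▸ hk'.bE.m1))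
    (hk.bE.d1.mono subset_rfl (biUnion_subset.2 fun c h1 => (hc c (mem_range.1 h1)).2.2.1))
    (hk'.bE.d1.mono subset_rfl (biUnion_subset.2 fun c h1 => (hc' c (mem_range.1 h1)).2.2.1))
    (by omega)
  exact ⟨Z, Z', z1, z2, z3, Host.one H hk hU hL hc z1 l1 a1 hq hF₀ hn hK,
    Host.one H hk' hU' hL' hc' z2 l2 a2 hq hF₀ hn hK⟩

end Pool.Agent.MP_35cb46_co.Fl
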