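import Pool.Agent.MP_35cb46_co.fl.ISpec
import Pool.Agent.MP_35cb46_co.nl.Group

/-! PROJECT FL, row BUNDLE: rooted hosts with exits inside one router. -/

noncomputable section

namespace Pool.Agent.MP_35cb46_co.Fl

open Finset Pool.Agent.MP_7be75d_co Pool.Agent.MP_35cb46_co.Sq Pool.Agent.MP_35cb46_co.Nl
open scoped Classical

namespace BundleP

open GroupP

variable {V : Type} {G : SimpleGraph V} {X I : Finset V} {g : V → V} {P : V → Finset V}

theorem piece2 [Fintype V] {s : ℕ} (hd : Deg G univ 6) (h : Conn G X) (L : Lk G X I id g P)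
    (h1 : 1 ≤ s) (hs : s ≤ I.card) : ∃ C ⊆ X, Conn G C ∧ s ≤ ts (ind I) C ∧
      ts (ind I) C ≤ 6 * s ∧ (X \ C = ∅ ∨ Conn G (X \ C)) ∧
      ∃ k₀, ∀ k ∈ I, k ≠ k₀ → P k ⊆ C ∨ Disjoint (P k) C := by
  have hI : I ⊆ X := fun k hk => L.fam.sub k hk (L.st k hk)
  obtain ⟨C, ⟨hC, hc, hsC, hr, k₀, hk₀⟩, hmin⟩ := exists_min_of
    (p := fun C => C ⊆ X ∧ Conn G C ∧ s ≤ ts (ind I) C ∧ (X \ C = ∅ ∨ Conn G (X \ C)) ∧
      ∃ k₀, ∀ k ∈ I, k ≠ k₀ → P k ⊆ C ∨ Disjoint (P k) C) card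
    ⟨X, subset_rfl, h, by rwa [ts_ind, inter_eq_right.2 hI], Or.inl (Finset.sdiff_self X),
      h.1.choose, fun k hk _ => Or.inl (L.fam.sub k hk)⟩
  refine ⟨C, hC, hc, hsC, ?_, hr, k₀, hk₀⟩
  obtain ⟨v, hv, hr', hw⟩ : ∃ v ∈ C, (X \ C = ∅ ∨ Conn G (X \ C) ∧ ∃ y ∈ X \ C, G.Adj v y) ∧
      ∀ k ∈ I, v ∉ P k → P k ⊆ C ∨ Disjoint (P k) C := by
    by_cases hall : ∀ k ∈ I, P k ⊆ C ∨ Disjoint (P k) C
    · obtain ⟨a, ha⟩ := hc.1
      rcases hr with e | c
      · exact ⟨a, ha, Or.inl e, fun k hk _ => hall k hk⟩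
      obtain ⟨b, hb⟩ := c.1
      obtain ⟨x, y, hx, hy, -, hyX, hxy⟩ :=
        h.exit (hC ha) ha (mem_sdiff.1 hb).1 (mem_sdiff.1 hb).2
      exact ⟨x, hx, Or.inr ⟨c, y, mem_sdiff.2 ⟨hyX, hy⟩, hxy⟩, fun k hk _ => hall k hk⟩
    · simp only [not_forall, not_or] at hall
      obtain ⟨k, hk, n1, n2⟩ := hall
      have e : k = k₀ := by
        by_contra e
        exact (hk₀ k hk e).elim n1 n2
      obtain ⟨b, hb, hb'⟩ := not_subset.1 n1
      obtain ⟨a, ha, ha'⟩ := not_disjoint_iff.1 n2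
      obtain ⟨x, y, hx, hy, hxP, hyP, hxy⟩ := (L.fam.conn k hk).exit ha ha' hb hb'
      have hy' : y ∈ X \ C := mem_sdiff.2 ⟨L.fam.sub k hk hyP, hy⟩
      refine ⟨x, hx, Or.inr ⟨hr.resolve_left fun e => by simp [e] at hy', y, hy', hxy⟩,
        fun k' hk' hx' => hk₀ k' hk' fun e' => hx' ?_⟩
      rwa [e', ← e]
  obtain ⟨k₁, hk₁⟩ : ∃ k₁, ∀ k ∈ I, k ≠ k₁ → v ∉ P k := by
    by_cases e : ∃ k ∈ I, v ∈ P k
    · obtain ⟨k₁, a, b⟩ := e
      exact ⟨k₁, fun k hk ne hv' => disjoint_left.1 (L.fam.disj k hk k₁ a ne) hv' b⟩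
    · exact ⟨v, fun k hk _ hv' => e ⟨k, hk, hv'⟩⟩
  have small : ∀ u ∈ (C.erase v).filter (G.Adj v),
      ts (ind I) (comp G (C.erase v) u) ≤ s - 1 := by
    intro u hu
    by_contra e
    have := hmin _ ⟨comp_subset.trans ((erase_subset _ _).trans hC), comp_conn (mem_filter.1 hu).1,
      by omega, Or.inr (rest hc hC hv hr' u), k₁, fun k hk ne => by
        rcases hw k hk (hk₁ k hk ne) with a | a
        · refine or_iff_not_imp_right.2 fun d => ?_
          obtain ⟨z, z1, z2⟩ := not_disjoint_iff.1 d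
          exact (L.fam.conn k hk).subset_comp (subset_erase.2 ⟨a, hk₁ k hk ne⟩) z1 z2
        · exact Or.inr (a.mono_right (comp_subset.trans (erase_subset _ _)))⟩
    exact absurd ((card_le_card comp_subset).trans_lt (card_erase_lt_of_mem hv)) (not_lt.2 this)
  have cov : C ⊆ {v} ∪ ((C.erase v).filter (G.Adj v)).biUnion (comp G (C.erase v)) := by
    intro x hx
    by_cases e : x = v
    · simp [e]
    obtain ⟨u, hu, a, b⟩ := near hc hv (mem_erase.2 ⟨e, hx⟩)
    exact mem_union_right _ (mem_biUnion.2 ⟨u, mem_filter.2 ⟨hu, a⟩, b⟩)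
  have a1 := (ts_mono (τ := ind I) cov).trans ts_union_le
  have a2 := (ts_biUnion_le (τ := ind I) _ _).trans (sum_le_card_nsmul _ _ _ small)
  have a3 := Nat.mul_le_mul_right (s - 1) ((card_le_card
    (filter_subset_filter (G.Adj v) (subset_univ (C.erase v)))).trans (hd v (mem_univ v)))
  have := ind_le_one I v
  rw [ts_single] at a1
  rw [smul_eq_mul] at a2
  omega

theorem hosts [Fintype V] {s : ℕ} (hd : Deg G univ 6) (h1 : 1 ≤ s) (n : ℕ) :
    ∀ X I : Finset V, Conn G X → Lk G X I id g P → (6 * s + 7) * n ≤ I.card →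
      ∃ A : ℕ → Finset V, Fam G X (range n) A ∧
        ∀ i < n, s ≤ (A i ∩ I).card ∧ ∃ k ∈ I, g k ∈ A i := by
  induction n with
  | zero => exact fun X I _ _ _ => ⟨fun _ => ∅, ⟨by simp, by simp, by simp⟩, by simp⟩
  | succ n ih =>
    intro X I h L hn
    rw [Nat.mul_succ] at hn
    obtain ⟨C, hC, hc, h2, h3, h4, k₀, hk₀⟩ := piece2 (s := s + 1) hd h L (by omega) (by omega)
    rw [ts_ind] at h2 h3
    have hroot : ∃ k ∈ I, g k ∈ C := by
      obtain ⟨k, hk, ne⟩ := exists_mem_ne (s := C ∩ I) (by omega) k₀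
      obtain ⟨a, b⟩ := mem_inter.1 hk
      exact ⟨k, b, (hk₀ k b ne).resolve_right
        (fun d => disjoint_left.1 d (L.st k b) a) (L.en k b)⟩
    rcases n.eq_zero_or_pos with rfl | hpos
    · exact ⟨fun _ => C, ⟨fun _ _ => hC, fun _ _ => hc, by simp⟩,
        fun _ _ => ⟨(Nat.le_succ s).trans h2, hroot⟩⟩
    have hsub : I ⊆ (I.filter fun k => Disjoint (P k) C) ∪ insert k₀ (C ∩ I) := by
      intro k hk
      by_cases e : k = k₀
      · simp [e]
      rcases hk₀ k hk e with a | a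
      · exact mem_union_right _ (mem_insert_of_mem (mem_inter.2 ⟨a (L.st k hk), hk⟩))
      · exact mem_union_left _ (mem_filter.2 ⟨hk, a⟩)
    have c1 := (card_le_card hsub).trans (card_union_le _ _)
    have c2 := card_insert_le k₀ (C ∩ I)
    have c3 : (6 * s + 7) * n ≤ (I.filter fun k => Disjoint (P k) C).card := by omega
    have L' : Lk G (X \ C) (I.filter fun k => Disjoint (P k) C) id g P :=
      ⟨⟨fun k hk => subset_sdiff.2 ⟨L.fam.sub k (mem_filter.1 hk).1, (mem_filter.1 hk).2⟩,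
        fun k hk => L.fam.conn k (mem_filter.1 hk).1,
        fun k hk k' hk' => L.fam.disj k (mem_filter.1 hk).1 k' (mem_filter.1 hk').1⟩,
        fun k hk => L.st k (mem_filter.1 hk).1, fun k hk => L.en k (mem_filter.1 hk).1⟩
    have hne : Conn G (X \ C) := h4.resolve_left fun e => by
      obtain ⟨k, hk⟩ := card_pos.1 ((Nat.mul_pos (by omega) hpos).trans_le c3)
      simpa [e] using L'.fam.sub k hk (L'.st k hk)
    obtain ⟨A, hA, hA'⟩ := ih _ _ hne L' c3
    have dj : ∀ i < n, Disjoint (A i) C := fun i hi =>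
      (subset_sdiff.1 (hA.sub i (mem_range.2 hi))).2
    refine ⟨fun i => if i < n then A i else C, ⟨fun i _ => ?_, fun i _ => ?_,
      fun i hi j hj ne => ?_⟩, fun i _ => ?_⟩
    · split_ifs with e
      exacts [(hA.sub i (mem_range.2 e)).trans sdiff_subset, hC]
    · split_ifs with e
      exacts [hA.conn i (mem_range.2 e), hc]
    · rw [mem_range] at hi hj
      split_ifs with e e' e'
      exacts [hA.disj i (mem_range.2 e) j (mem_range.2 e') ne, dj i e, (dj j e').symm, by omega]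
    · by_cases e : i < n
      · obtain ⟨a, k, hk, b⟩ := hA' i e
        simp only [if_pos e]
        exact ⟨a.trans (card_le_card (inter_subset_inter_left (filter_subset _ _))), k,
          (mem_filter.1 hk).1, b⟩
      · simp only [if_neg e]
        exact ⟨by omega, hroot⟩

theorem wl_conn {T : Finset V} {K : ℕ} (h : Conn G X) (hT : T.card ≤ K) :
    WL (aw G) X (ind T) K := by
  intro A hA
  rcases A.eq_empty_or_nonempty with rfl | ⟨x, hx⟩
  · simp [ts]
  rcases (X \ A).eq_empty_or_nonempty with e | ⟨y, hy⟩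
  · simp [ts, e]
  have := cw_pos h subset_rfl (hA hx) hx (mem_sdiff.1 hy).1 (mem_sdiff.1 hy).2
  rw [inter_eq_right.2 hA] at this
  refine (min_le_left _ _).trans (le_trans ?_ (Nat.le_mul_of_pos_right _ this))
  rw [ts_ind]
  exact (card_le_card inter_subset_right).trans hT

end BundleP

theorem bundle : BundleStmt := by
  refine ⟨14, fun V _ G Amb Rt N F₀ h x w t n s hd H hx hw ht _ _ hwt h1 hF => ?_⟩
  have inj : ∀ u < N, ∀ u' < N, ∀ i < F₀, ∀ i' < F₀, h.pt x u i = h.pt x u' i' →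
      u = u' ∧ i = i' := fun u hu u' hu' i hi i' hi' e => Prod.ext_iff.1
    (H.inj x hx (x₁ := (u, i)) (by simp [hu, hi]) (x₂ := (u', i')) (by simp [hu', hi']) e)
  have cd : ∀ u < N, ((range F₀).image (h.pt x u)).card = F₀ := fun u hu => by
    rw [card_image_of_injOn fun i hi i' hi' e =>
      (inj u hu u hu i (by simpa using hi) i' (by simpa using hi') e).2, card_range]
  have sb : ∀ u < N, (range F₀).image (h.pt x u) ⊆ h.ports N F₀ x := fun u hu z hz => by
    obtain ⟨i, hi, rfl⟩ := mem_image.1 hz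
    exact mem_image.2 ⟨(u, i), mem_product.2 ⟨mem_range.2 hu, hi⟩, rfl⟩
  obtain ⟨g, hg, P, L⟩ := (H.cel x hx).2.2 _ (sb t ht) _ (sb w hw) ((cd t ht).trans (cd w hw).symm)
  obtain ⟨A, hA, hA'⟩ := BundleP.hosts hd h1 n _ _ (H.conn x hx) L (by
    rw [cd t ht]
    nlinarith)
  have : Nonempty V := ⟨h.pt 0 0 0⟩
  choose! k hk hk' using fun i hi => (hA' i hi).2
  choose! O hO hO' using fun i hi => exists_subset_card_eq (hA' i hi).1
  refine ⟨A, fun i => {g (k i)}, O, ⟨hA, fun i hi => ⟨singleton_subset_iff.2 (hk' i hi),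
    singleton_subset_iff.2 (hg _ (hk i hi)), card_singleton _⟩,
    fun i hi => ⟨(hO i hi).trans inter_subset_left, hO' i hi, ?_⟩, fun i hi => ?_⟩,
    fun i hi => (hO i hi).trans inter_subset_right⟩
  · refine disjoint_singleton_left.2 fun e => ?_
    obtain ⟨a, ha, e1⟩ := mem_image.1 (hg _ (hk i hi))
    obtain ⟨b, hb, e2⟩ := mem_image.1 (mem_inter.1 (hO i hi e)).2
    exact hwt (inj w hw t ht a (mem_range.1 ha) b (mem_range.1 hb) (e1.trans e2.symm)).1
  · refine BundleP.wl_conn (hA.conn i (mem_range.2 hi)) ((card_union_le _ _).trans ?_)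
    rw [card_singleton, hO' i hi]
    omega

end Pool.Agent.MP_35cb46_co.Fl
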