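import Pool.Agent.MP_35cb46_co.fl.USpec
import Pool.Agent.MP_35cb46_co.fl.Base1

/-! PROJECT FL: renumbering of tracks and the unit stage. -/

noncomputable section

namespace Pool.Agent.MP_35cb46_co.Fl

open Finset Pool.Agent.MP_7be75d_co Pool.Agent.MP_35cb46_co.Sq Pool.Agent.MP_35cb46_co.Nl
open scoped Classical

namespace Perm

variable {V : Type} {F : ℕ} {π : ℕ → ℕ}

theorem img (h1 : ∀ τ < F, π τ < F) (h2 : Set.InjOn π ↑(range F)) :
    (range F).image π = range F :=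
  eq_of_subset_of_card_le (fun x hx => by
    obtain ⟨τ, hτ, rfl⟩ := mem_image.1 hx
    exact mem_range.2 (h1 τ (mem_range.1 hτ))) (card_image_of_injOn h2).ge

theorem surj (h1 : ∀ τ < F, π τ < F) (h2 : Set.InjOn π ↑(range F)) {σ : ℕ} (hσ : σ < F) :
    ∃ τ < F, π τ = σ := by
  have : σ ∈ (range F).image π := (img h1 h2).symm ▸ mem_range.2 hσ
  obtain ⟨τ, hτ, e⟩ := mem_image.1 this
  exact ⟨τ, mem_range.1 hτ, e⟩

theorem cnt_eq (h1 : ∀ τ < F, π τ < F) (h2 : Set.InjOn π ↑(range F)) (l : ℕ → ℕ) (c : ℕ) :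
    cnt (range F) (fun τ => l (π τ)) c = cnt (range F) l c := by
  unfold cnt
  refine card_bij (fun τ _ => π τ) (fun τ hτ => ?_) (fun τ hτ σ hσ e => ?_) fun σ hσ => ?_
  · simp only [mem_filter, mem_range] at hτ ⊢
    exact ⟨h1 τ hτ.1, hτ.2⟩
  · simp only [mem_filter] at hτ hσ
    exact h2 (mem_coe.2 hτ.1) (mem_coe.2 hσ.1) e
  · simp only [mem_filter, mem_range] at hσ
    obtain ⟨τ, hτ, rfl⟩ := surj h1 h2 hσ.1
    exact ⟨τ, by simp only [mem_filter, mem_range]; exact ⟨hτ, hσ.2⟩, rfl⟩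

theorem fib_eq (h1 : ∀ τ < F, π τ < F) (h2 : Set.InjOn π ↑(range F)) (a : ℕ → V) (l : ℕ → ℕ) :
    fib F (fun τ => a (π τ)) (fun τ => l (π τ)) = fib F a l := by
  funext c
  ext v
  simp only [fib, mem_image, mem_filter, mem_range]
  constructor
  · rintro ⟨τ, ⟨hτ, e⟩, rfl⟩
    exact ⟨π τ, ⟨h1 τ hτ, e⟩, rfl⟩
  · rintro ⟨σ, ⟨hσ, e⟩, rfl⟩
    obtain ⟨τ, hτ, rfl⟩ := surj h1 h2 hσ
    exact ⟨τ, ⟨hτ, e⟩, rfl⟩

theorem cells_eq (h1 : ∀ τ < F, π τ < F) (h2 : Set.InjOn π ↑(range F)) (S : SD) :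
    SD.cells ⟨fun τ => S.nd (π τ), S.df, S.bl⟩ F = S.cells F := by
  ext c
  simp only [SD.cells, SD.ce, mem_image, mem_range]
  constructor
  · rintro ⟨τ, hτ, rfl⟩
    exact ⟨π τ, h1 τ hτ, rfl⟩
  · rintro ⟨σ, hσ, rfl⟩
    obtain ⟨τ, hτ, rfl⟩ := surj h1 h2 hσ
    exact ⟨τ, hτ, rfl⟩

/-- A connected set is a cell for one entry and one exit. -/
theorem cel_one {G : SimpleGraph V} {A I O : Finset V} {x y : V} (hA : Conn G A) (hx : x ∈ A)
    (hy : y ∈ A) (hI : I ⊆ {x}) (hO : O ⊆ {y}) : Cel G A I O := by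
  refine ⟨hI.trans (singleton_subset_iff.2 hx), hO.trans (singleton_subset_iff.2 hy),
    fun X hX Y hY e => ⟨fun _ => y, fun v hv => ?_, fun _ => A, ⟨fun _ _ => subset_rfl,
      fun _ _ => hA, fun u hu v hv n => ?_⟩, fun v hv => ?_, fun _ _ => hy⟩⟩
  · obtain ⟨w, hw⟩ := card_pos.1 (e ▸ card_pos.2 ⟨v, hv⟩)
    exact mem_singleton.1 (hO (hY hw)) ▸ hw
  · exact (n ((mem_singleton.1 (hI (hX hu))).trans (mem_singleton.1 (hI (hX hv))).symm)).elim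
  · exact (mem_singleton.1 (hI (hX hv))).symm ▸ hx

theorem cnt_id {I : Finset ℕ} {c : ℕ} (hc : c ∈ I) : cnt I (fun τ => τ) c = 1 := by
  unfold cnt
  exact card_eq_one.2 ⟨c, by
    ext x
    simp only [mem_filter, mem_singleton]
    exact ⟨fun h => h.2, fun h => ⟨h ▸ hc, h⟩⟩⟩

theorem cnt_id_le (I : Finset ℕ) (c : ℕ) : cnt I (fun τ => τ) c ≤ 1 := by
  unfold cnt
  refine card_le_one.2 fun x hx y hy => ?_
  simp only [mem_filter] at hx hy
  exact hx.2.trans hy.2.symm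

/-- The ports of `w` towards `s` are docked at `s`. -/
theorem dock {G : SimpleGraph V} {Amb Rt : Finset V} {N F₀ : ℕ} {h : HD V} {U : Finset ℕ}
    {s w : ℕ} (H : Hub G Amb Rt N F₀ h) (hs : s < N) (hw : w < N) (hU : w ∈ U) (n : w ≠ s)
    {E : Finset V} (hE : ∀ x ∈ E, ∃ i < F₀, x = h.pt w s i) : Dock G h F₀ U s E := by
  choose! k k1 k2 using hE
  refine ⟨fun x => h.pt s w (k x), fun x hx y hy e => ?_, fun x hx =>
    ⟨?_, w, hU, k x, k1 x hx, rfl⟩⟩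
  · have := H.inj s hs (x₁ := (w, k x)) (x₂ := (w, k y))
      (mem_coe.2 (mem_product.2 ⟨mem_range.2 hw, mem_range.2 (k1 x hx)⟩))
      (mem_coe.2 (mem_product.2 ⟨mem_range.2 hw, mem_range.2 (k1 y hy)⟩)) e
    exact (k2 x hx).trans ((congrArg (h.pt w s) (Prod.ext_iff.1 this).2).trans (k2 y hy).symm)
  · have := H.adj w hw s hs n (k x) (k1 x hx)
    rwa [← k2 x hx] at this

end Perm

open Perm

theorem perm : PermStmt := by
  intro V G Reg F a b S e d θ π h1 h2 hS hT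
  have hc := cells_eq h1 h2 S
  refine ⟨⟨hS.pass.comp π (fun τ hτ => mem_range.2 (h1 τ (mem_range.1 hτ))) h2,
    fun τ hτ σ hσ => hS.ne _ (h1 τ hτ) _ (h1 σ hσ), fun as ho => ?_⟩,
    fun c h => ?_, fun n => ?_, fun c h => ?_⟩
  · obtain ⟨A, hA⟩ := hS.flex as fun σ hσ => by
      obtain ⟨τ, hτ, rfl⟩ := surj h1 h2 hσ
      have := ho τ hτ
      rw [hc] at this
      exact this
    refine ⟨A, ?_⟩
    rw [hc, ← fib_eq h1 h2 a, ← fib_eq h1 h2 b] at *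
    exact hA
  · rw [hc] at h
    exact (cnt_eq h1 h2 S.ce c).trans (hT.ce c h)
  · exact (cnt_eq h1 h2 S.nd n).trans_le (hT.nd n)
  · rw [hc] at h ⊢
    exact hT.bl c h

theorem one : OneStmt := by
  intro V G Amb Rt N F₀ h F U s s' w H hU hs hs' hw n1 n2 n3 hF
  have ls := mem_range.1 (hU hs)
  have ls' := mem_range.1 (hU hs')
  have lw := mem_range.1 (hU hw)
  have hp : ∀ t < N, ∀ i < F, (t, i) ∈ (↑(range N ×ˢ range F₀) : Set (ℕ × ℕ)) := fun t ht i hi =>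
    mem_coe.2 (mem_product.2 ⟨mem_range.2 ht, mem_range.2 (hi.trans_le hF)⟩)
  have hi : ∀ t < N, Set.InjOn (h.pt w t) ↑(range F) := fun t ht i hi j hj e =>
    (Prod.ext_iff.1 (H.inj w lw (hp t ht i (mem_range.1 hi)) (hp t ht j (mem_range.1 hj)) e)).2
  have hsub : ∀ t < N, (range F).image (h.pt w t) ⊆ h.ports N F₀ w := fun t ht x hx => by
    obtain ⟨i, hi, rfl⟩ := mem_image.1 hx
    exact mem_image.2 ⟨(t, i), hp t ht i (mem_range.1 hi), rfl⟩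
  obtain ⟨g, g1, P, hP⟩ := (H.cel w lw).2.2 _ (hsub s ls) _ (hsub s' ls')
    (by rw [card_image_of_injOn (hi s ls), card_image_of_injOn (hi s' ls')])
  have hR : h.R w ⊆ h.reg ((U.erase s).erase s') := (H.rsub w lw).trans
    (subset_biUnion_of_mem h.Rg (mem_erase.2 ⟨n3, mem_erase.2 ⟨n2, hw⟩⟩))
  have hQ := (hP.comp (T := range F) (h.pt w s) (fun i hi => mem_image_of_mem _ hi)
    (hi s ls)).mono hR subset_rfl
  have hb : ∀ i < F, ∃ j < F, g (h.pt w s i) = h.pt w s' j := fun i hi => by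
    obtain ⟨j, hj, e⟩ := mem_image.1 (g1 _ (mem_image_of_mem _ (mem_range.2 hi)))
    exact ⟨j, mem_range.1 hj, e.symm⟩
  have hc : SD.cells ⟨fun τ => τ, fun τ => τ, fun τ => τ⟩ F = range F := image_id'
  refine ⟨h.pt w s, fun i => g (h.pt w s i), ⟨fun τ => τ, fun τ => τ, fun τ => τ⟩,
    ⟨hs, hs', n1, dock H ls lw hw n2 fun x hx => ?_, dock H ls' lw hw n3 fun x hx => ?_⟩,
    ⟨⟨_, hQ⟩, fun i hi j hj e => ?_, fun as ho => ⟨fun i => P (h.pt w s i), ?_⟩⟩,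
    fun c hc' => cnt_id (hc ▸ hc'), cnt_id_le _, fun c hc' => cnt_id hc'⟩
  · obtain ⟨i, hi, rfl⟩ := mem_image.1 hx
    exact ⟨i, (mem_range.1 hi).trans_le hF, rfl⟩
  · obtain ⟨i, hi, rfl⟩ := mem_image.1 hx
    obtain ⟨j, hj, e⟩ := hb i (mem_range.1 hi)
    exact ⟨j, hj.trans_le hF, e⟩
  · obtain ⟨k, hk, e'⟩ := hb j hj
    exact n1 (Prod.ext_iff.1 (H.inj w lw (hp s ls i hi) (hp s' ls' k hk) (e.trans e'))).1
  · rw [hc]
    refine ⟨hQ.fam.sub, hQ.fam.disj, fun c hc' => cel_one (hQ.fam.conn c hc') (hQ.st c hc')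
      (hQ.en c hc') (fun x hx => ?_) fun x hx => ?_⟩
    · obtain ⟨τ, hτ, rfl⟩ := mem_image.1 hx
      obtain ⟨t1, t2⟩ := mem_filter.1 hτ
      have : τ = c := (ho τ (mem_range.1 t1)).2.symm.trans t2
      exact this ▸ mem_singleton_self _
    · obtain ⟨τ, hτ, rfl⟩ := mem_image.1 hx
      have : τ = c := (mem_filter.1 hτ).2
      exact this ▸ mem_singleton_self _

end Pool.Agent.MP_35cb46_co.Fl
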