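import Pool.Agent.MP_35cb46_co.fl.MSpec
import Pool.Agent.MP_35cb46_co.fl.Base3
import Pool.Agent.MP_35cb46_co.fl.Bundle
import Pool.Agent.MP_35cb46_co.fl.Perm

/-! PROJECT FL: bundles are hosts. -/

noncomputable section

namespace Pool.Agent.MP_35cb46_co.Fl

open Finset Pool.Agent.MP_7be75d_co Pool.Agent.MP_35cb46_co.Sq Pool.Agent.MP_35cb46_co.Nl
open scoped Classical

namespace Hostb

variable {V : Type} {G : SimpleGraph V} {Amb Rt : Finset V} {N F₀ nH q K : ℕ} {h : HD V} {L : LP}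
  {p : PC V} {k : KD V}

/-- One kit: a docked set whose strands to the roots complete the hosts. -/
theorem kit (H : Hub G Amb Rt N F₀ h) (hk : Kit G h N F₀ L k) (hp : p.thr = 0) (hK : q + 1 ≤ K)
    (hb : ∀ x < N, ∀ w < N, ∀ t < N, x ≠ w → x ≠ t → w ≠ t →
      ∃ A Ro O, Hst G (h.R x) ((range F₀).image (h.pt x w)) nH q 1 (q + 1) A Ro O ∧
        ∀ i < nH, O i ⊆ (range F₀).image (h.pt x t)) :
    ∃ E : Finset V, E.card ≤ nH ∧ Dock G h F₀ k.U k.b1 E ∧ ∀ (Z : Finset V) (x y : V → V),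
      Z ⊆ h.R 0 → Lnk G (h.R k.b1 ∪ Z) E x y → (∀ v ∈ E, G.Adj v (x v) ∧ y v ∈ Rt) →
      Hosts G h Rt F₀ p k nH q 1 K Z := by
  obtain ⟨x, hx, nx⟩ := exists_mem_notMem_of_card_lt_card (s := {k.b1, k.b2}) (t := k.U)
    (card_le_two.trans_lt hk.three)
  have n1 : x ≠ k.b1 := fun e => nx (by simp [e])
  have n2 : x ≠ k.b2 := fun e => nx (by simp [e])
  have lt : ∀ u ∈ k.U, u < N := fun u hu => mem_range.1 (mem_erase.1 (hk.sub hu)).2
  have lx := lt x hx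
  have l1 := lt _ hk.bE.m1
  have l2 := lt _ hk.bE.m2
  obtain ⟨A, Ro, O, hA, hO⟩ := hb x lx _ l1 _ l2 n1 n2 hk.bE.ne
  have hρ : ∀ i, ∃ v, i < nH → v ∈ Ro i := fun i => by
    by_cases hi : i < nH
    · obtain ⟨v, hv⟩ := card_pos.1 ((hA.ro i hi).2.2.symm ▸ Nat.one_pos)
      exact ⟨v, fun _ => hv⟩
    · exact ⟨h.pt 0 0 0, fun e => absurd e hi⟩
  choose ρ hρ using hρ
  have hd : ∀ t < N, x ≠ t → ∀ E ⊆ (range F₀).image (h.pt x t), Dock G h F₀ k.U t E :=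
    fun t ht n E hE => Perm.dock H ht lx hx n fun v hv => by
      obtain ⟨i, hi, e⟩ := mem_image.1 (hE hv)
      exact ⟨i, mem_range.1 hi, e.symm⟩
  refine ⟨(range nH).image ρ, card_image_le.trans_eq (card_range _), hd _ l1 n1 _
    (image_subset_iff.2 fun i hi => (hA.ro i (mem_range.1 hi)).2.1 (hρ i (mem_range.1 hi))), ?_⟩
  rintro Z a y hZ ⟨P, hP⟩ hy
  have h0 : ∀ i ∈ range nH, ρ i ∈ A i := fun i hi =>
    (hA.ro i (mem_range.1 hi)).1 (hρ i (mem_range.1 hi))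
  have L1 : Lk G (h.R x) (range nH) ρ ρ A := ⟨hA.fam, h0, h0⟩
  have L2 := hP.comp (T := range nH) ρ (fun i hi => mem_image_of_mem _ hi) L1.inj_left
  have dj : Disjoint (h.R x) (h.R k.b1 ∪ Z) := disjoint_union_right.2
    ⟨Base3.rdisj H lx l1 n1, (Base3.rdisj H lx (by omega) (mem_erase.1 (hk.sub hx)).1).mono_right hZ⟩
  have L3 := Base3.cat L1 L2 dj fun i hi => (hy _ (mem_image_of_mem _ hi)).1
  have hr : ∀ u ∈ k.U, u ≠ k.b2 → h.R u ⊆ h.reg (k.U.erase k.b2) ∪ Z := fun u hu n =>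
    ((H.rsub u (lt u hu)).trans (subset_biUnion_of_mem h.Rg (mem_erase.2 ⟨n, hu⟩))).trans
      subset_union_left
  refine ⟨fun i => A i ∪ P (ρ i), fun i => {y (ρ i)}, O, (range F₀).image (h.pt x k.b2),
    ⟨L3.fam.mono (union_subset (hr x hx n2) (union_subset (hr _ hk.bE.m1 hk.bE.ne)
      subset_union_right)) subset_rfl, fun i hi => ⟨singleton_subset_iff.2 (L3.en i (mem_range.2 hi)),
      singleton_subset_iff.2 (hy _ (mem_image_of_mem _ (mem_range.2 hi))).2, card_singleton _⟩,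
      fun i hi => ⟨(hA.ex i hi).1.trans subset_union_left, (hA.ex i hi).2.1,
        disjoint_singleton_left.2 fun e => disjoint_left.1 dj
          (hA.fam.sub i (mem_range.2 hi) ((hA.ex i hi).1 e))
          (L2.fam.sub i (mem_range.2 hi) (L2.en i (mem_range.2 hi)))⟩,
      fun i hi => BundleP.wl_conn (L3.fam.conn i (mem_range.2 hi)) ((card_union_le _ _).trans ?_)⟩,
    Or.inl hp, hd _ l2 n2 _ subset_rfl, card_image_le.trans_eq (card_range _), hO⟩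
  rw [card_singleton, (hA.ex i hi).2.1]
  omega

end Hostb

theorem hostb : HostbStmt := by
  obtain ⟨c, hc⟩ := bundle
  refine ⟨c, fun V _ G Amb Rt N F₀ h L p nH q K k k' hd H hk hk' dj hp hq hF h2 hK => ?_⟩
  have hb := fun x hx w hw t ht n1 n2 n3 =>
    hc V G Amb Rt N F₀ h x w t nH q hd H hx hw ht n1 n2 n3 hq hF
  obtain ⟨E, e1, e2, e3⟩ := Hostb.kit H hk hp hK hb
  obtain ⟨E', e1', e2', e3'⟩ := Hostb.kit H hk' hp hK hb
  obtain ⟨Z, Z', x, y, x', y', z1, z2, z3, z4, z5, z6, z7⟩ := root V G Amb Rt N F₀ h k.U k'.U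
    k.b1 k'.b1 E E' H hk.sub hk'.sub hk.bE.m1 hk'.bE.m1
    (fun e => disjoint_left.1 dj hk.bE.m1 (e ▸ hk'.bE.m1)) e2 e2' (by omega)
  exact ⟨Z, Z', z1, z2, z3, e3 Z x y z1 z4 z6, e3' Z' x' y' z2 z5 z7⟩

end Pool.Agent.MP_35cb46_co.Fl
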