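import Pool.Agent.MP_35cb46_co.fl.ASpec
import Pool.Agent.MP_35cb46_co.fl.Base1
import Pool.Agent.MP_35cb46_co.fl.Base3

/-! PROJECT FL: the lanes pass a junction. -/

noncomputable section

namespace Pool.Agent.MP_35cb46_co.Fl

open Finset Pool.Agent.MP_7be75d_co Pool.Agent.MP_35cb46_co.Sq Pool.Agent.MP_35cb46_co.Nl
open scoped Classical

namespace Jstep

section Count

variable {α β κ : Type}

/-- The fibre counted by `cnt`. -/
def fl (I : Finset α) (y : α → κ) (c : κ) : Finset α := I.filter fun i => y i = c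

theorem mem_fl {I : Finset α} {y : α → κ} {c : κ} {a : α} : a ∈ fl I y c ↔ a ∈ I ∧ y a = c :=
  mem_filter

theorem card_fl (I : Finset α) (y : α → κ) (c : κ) : (fl I y c).card = cnt I y c := rfl

theorem cnt_le_card (I : Finset α) (y : α → κ) (c : κ) : cnt I y c ≤ I.card :=
  card_le_card (filter_subset _ _)

theorem cnt_inj {I : Finset α} {I' : Finset β} {φ : α → β} (y : β → κ) (h1 : ∀ a ∈ I, φ a ∈ I')
    (h2 : Set.InjOn φ I) (c : κ) : cnt I (fun a => y (φ a)) c ≤ cnt I' y c :=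
  card_le_card_of_injOn (s := fl I _ c) (t := fl I' y c) φ
    (fun a ha => mem_coe.2 (mem_fl.2 ⟨h1 a (mem_fl.1 ha).1, (mem_fl.1 ha).2⟩))
    fun _ ha _ hb e => h2 (mem_fl.1 ha).1 (mem_fl.1 hb).1 e

theorem sum_sub (X Tr : Finset α) (y : α → κ) (J : Finset κ) :
    ∑ k ∈ J, (cnt X y k - cnt Tr y k) ≤ (X \ Tr).card := by
  calc ∑ k ∈ J, (cnt X y k - cnt Tr y k) ≤ ∑ k ∈ J, (fl (X \ Tr) y k).card :=
        sum_le_sum fun k _ => by
          have : (fl X y k).card ≤ (fl (X \ Tr) y k ∪ fl Tr y k).card := card_le_card fun a ha => by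
            by_cases h : a ∈ Tr
            · exact mem_union_right _ (mem_fl.2 ⟨h, (mem_fl.1 ha).2⟩)
            · exact mem_union_left _ (mem_fl.2 ⟨mem_sdiff.2 ⟨(mem_fl.1 ha).1, h⟩, (mem_fl.1 ha).2⟩)
          have := this.trans (card_union_le _ _)
          rw [card_fl, card_fl Tr] at this
          omega
    _ = (J.biUnion (fl (X \ Tr) y)).card := (card_biUnion fun k _ k' _ n =>
        disjoint_left.2 fun a ha hb => n ((mem_fl.1 (show a ∈ fl (X \ Tr) y k from ha)).2.symm.trans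
          (mem_fl.1 (show a ∈ fl (X \ Tr) y k' from hb)).2)).symm
    _ ≤ _ := card_le_card (biUnion_subset.2 fun k _ a ha => (mem_fl.1 ha).1)

end Count

variable {V : Type} {G : SimpleGraph V} {p : PC V} {x : CX V} {s : ST V} {J Jt : Finset ℕ}
  {Ex : ℕ → Finset V} {cs q : ℕ → ℕ} {l eK Φ Θ Z δ : ℕ} {H : Finset V} {sa : ℕ → V}

/-- The demanded exits are linked through the junction. -/
structure Pre (G : SimpleGraph V) (x : CX V) (J Jt : Finset ℕ) (Ex : ℕ → Finset V) (q : ℕ → ℕ)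
    (eK : ℕ) (H : Finset V) (sa : ℕ → V) (X : Finset V) (sk η : V → ℕ) (u w : V → V)
    (Q : V → Finset V) : Prop where
  mem : ∀ a ∈ X, sk a ∈ J ∧ a ∈ Ex (sk a) ∧ η a ∈ Jt ∧ G.Adj a (u a) ∧ G.Adj (w a) (sa (η a))
  inj : Set.InjOn η X
  eq : ∀ k ∈ J, cnt X sk k = q k
  le : ∀ k, cnt X sk k ≤ eK
  card : X.card ≤ x.f
  lk : Lk G H X u w Q

theorem pre (hd : ∀ k ∈ J, ∀ k' ∈ J, k ≠ k' → Disjoint (Ex k) (Ex k')) (D : Dgs x J Ex q eK)
    (hJ : Jn G H (J.biUnion Ex) ((range x.F).image sa)) (hi : Set.InjOn sa ↑(range x.F))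
    (h1 : Jt ⊆ range x.F) (h2 : x.f ≤ Jt.card) :
    ∃ X sk η u w Q, Pre G x J Jt Ex q eK H sa X sk η u w Q := by
  have a1 : ∀ k, ∃ Y : Finset V, k ∈ J → Y ⊆ Ex k ∧ Y.card = q k := fun k => by
    by_cases hk : k ∈ J
    · obtain ⟨Y, hY⟩ := exists_subset_card_eq (D.le k hk).1
      exact ⟨Y, fun _ => hY⟩
    · exact ⟨∅, fun c => absurd c hk⟩
  choose Y hY using a1
  have a2 : ∀ a, ∃ k, a ∈ J.biUnion Y → k ∈ J ∧ a ∈ Y k := fun a => by
    by_cases ha : a ∈ J.biUnion Y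
    · obtain ⟨k, hk⟩ := mem_biUnion.1 ha
      exact ⟨k, fun _ => hk⟩
    · exact ⟨0, fun c => absurd c ha⟩
  choose sk hsk using a2
  have cX : (J.biUnion Y).card ≤ x.f :=
    card_biUnion_le.trans ((sum_congr rfl fun k hk => (hY k hk).2).trans_le D.sum)
  obtain ⟨O, hO, cO⟩ := exists_subset_card_eq (s := Jt.image sa) (n := (J.biUnion Y).card)
    (by rw [card_image_of_injOn (hi.mono (coe_subset.2 h1))]; omega)
  obtain ⟨g, u, w, g1, g2, ⟨Q, g3⟩, g4⟩ := jnl V G H _ _ (J.biUnion Y) O hJ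
    (biUnion_mono fun k hk => (hY k hk).1) (hO.trans (image_subset_image h1)) cO.symm
  have a3 : ∀ a, ∃ τ, a ∈ J.biUnion Y → τ ∈ Jt ∧ sa τ = g a := fun a => by
    by_cases ha : a ∈ J.biUnion Y
    · obtain ⟨τ, hτ⟩ := mem_image.1 (hO (g1 a ha))
      exact ⟨τ, fun _ => hτ⟩
    · exact ⟨0, fun c => absurd c ha⟩
  choose η hη using a3
  have eq : ∀ k ∈ J, cnt (J.biUnion Y) sk k = q k := fun k hk => by
    rw [← card_fl, ← (hY k hk).2]
    congr 1
    ext a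
    rw [mem_fl]
    refine ⟨fun h => h.2 ▸ (hsk a h.1).2, fun h => ?_⟩
    have m : a ∈ J.biUnion Y := mem_biUnion.2 ⟨k, hk, h⟩
    refine ⟨m, by_contra fun n => ?_⟩
    exact disjoint_left.1 (hd _ (hsk a m).1 k hk n) ((hY _ (hsk a m).1).1 (hsk a m).2)
      ((hY k hk).1 h)
  refine ⟨J.biUnion Y, sk, η, u, w, Q, fun a ha => ⟨(hsk a ha).1,
    (hY _ (hsk a ha).1).1 (hsk a ha).2, (hη a ha).1, (g4 a ha).1, (hη a ha).2 ▸ (g4 a ha).2⟩,
    fun a ha b hb e => g2 ha hb (by rw [← (hη a ha).2, ← (hη b hb).2, e]), eq, fun k => ?_, cX, g3⟩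
  by_cases hk : k ∈ J
  · exact (eq k hk).trans_le (D.le k hk).2
  · rw [← card_fl, eq_empty_of_forall_notMem (s := fl (J.biUnion Y) sk k) fun a ha =>
      hk ((mem_fl.1 ha).2 ▸ (hsk a (mem_fl.1 ha).1).1)]
    exact Nat.zero_le _

/-- The chosen exits are reached by the lanes, which then pass the junction. -/
theorem post (hf : FlyStmt) (R : Rdy G p x s J Ex cs q l) {X : Finset V} {sk η : V → ℕ}
    {u w : V → V} {Q : V → Finset V} (P : Pre G x J Jt Ex q eK H sa X sk η u w Q)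
    (hi : Set.InjOn sa ↑(range x.F)) (h1 : Jt ⊆ range x.F) (hH : H ⊆ p.RC)
    (hd : Disjoint H (s.Past ∪ s.Fl)) {Ch : Finset V} (hC : Ch ⊆ X) {J' : Finset ℕ}
    {lab cy q' : ℕ → ℕ} (c1 : ∀ y, cy y < x.T)
    (c2 : ∀ a ∈ Ch, lab (η a) ∈ J' ∧ cy (lab (η a)) = cs (sk a))
    (c3 : ∀ y, cnt Ch (fun a => lab (η a)) y ≤ cd (q' y) (x.E * x.T))
    (c4 : ∑ k ∈ J, (cd (q k) (x.E * x.T) - cnt Ch sk k) ≤ δ) :
    Wait G p x (s.add H) J' (fib x.F sa lab) cy q' (l + δ) := by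
  rw [disjoint_union_right] at hd
  obtain ⟨Lv, st, ps, oc, T, sk', f1, f2, f3⟩ := R.go (fl Ch sk) fun k _ a ha =>
    (mem_fl.1 ha).2 ▸ (P.mem a (hC (mem_fl.1 ha).1)).2.1
  have m : ∀ a ∈ Lv, ps a ∈ Ch := fun a ha => (mem_fl.1 (f2 a ha).2.1).1
  have mk : ∀ a ∈ Lv, sk (ps a) = sk' a := fun a ha => (mem_fl.1 (f2 a ha).2.1).2
  have pi : Set.InjOn ps Lv := fun a ha b hb e => by_contra fun n =>
    disjoint_left.1 (f1.fly.disj a ha b hb n) (f1.fly.conn a ha).2.2.1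
      (e ▸ (f1.fly.conn b hb).2.2.1)
  have sp : ∀ a ∈ Lv, st a ∈ s.Past := fun a ha => by
    obtain ⟨b1, b2, -⟩ := R.org.port _ (f1.org a ha).1
    exact R.org.web.fam.sub _ b1 ((R.org.web.pt _ b1).1 (b2 (f1.org a ha).2))
  have fy := hf V _ G s.Fl H Lv st ps _ _ T _ f1.fly (P.lk.comp ps (fun a ha => hC (m a ha)) pi)
    hd.2 fun a ha => ⟨disjoint_right.1 hd.1 (sp a ha), (P.mem _ (hC (m a ha))).2.2.2.1⟩
  refine ⟨⟨R.org.web, R.org.cert, R.org.port, disjoint_union_right.2 ⟨R.org.disj, hd.1.symm⟩,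
    union_subset R.org.sub hH, R.org.tag, R.org.par, R.org.host, R.org.ro⟩, c1, Lv, st, _, oc, _,
    fun a => sa (η (ps a)), fun a => lab (η (ps a)), ⟨f1.sub, fy, f1.org, f1.cut⟩,
    fun a ha b hb e => pi ha hb (P.inj (hC (m a ha)) (hC (m b hb))
      (hi (h1 (P.mem _ (hC (m a ha))).2.2.1) (h1 (P.mem _ (hC (m b hb))).2.2.1) e)),
    fun a ha => ⟨(c2 _ (m a ha)).1, mem_image_of_mem _
      (mem_filter.2 ⟨h1 (P.mem _ (hC (m a ha))).2.2.1, rfl⟩), (P.mem _ (hC (m a ha))).2.2.2.2,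
      ?_⟩, fun c => (cnt_inj (fun a => lab (η a)) m pi c).trans (c3 c), ?_⟩
  · rw [(c2 _ (m a ha)).2, mk a ha, (f2 a ha).2.2]
  · simp only [card_fl] at f3
    omega

theorem budget (B : Bud p x Φ Θ Z δ) {n : ℕ} (h : n * Z ≤ x.F) : n * x.E ^ 4 * x.T ≤ x.f := by
  have h0 : 1 ≤ Φ := Nat.pos_of_ne_zero fun c => by
    have := B.phi
    have := B.ff
    have := B.f1
    rw [c] at *
    omega
  refine Nat.le_of_mul_le_mul_left ?_ h0
  calc Φ * (n * x.E ^ 4 * x.T) ≤ 8 * Φ * (Φ * (n * x.E ^ 4 * x.T)) :=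
        Nat.le_mul_of_pos_left _ (by omega)
    _ = n * (8 * Φ ^ 2 * x.E ^ 4 * x.T) := by ring
    _ ≤ n * Z := Nat.mul_le_mul_left _ B.z1
    _ ≤ _ := h.trans B.phi

theorem budget2 (B : Bud p x Φ Θ Z δ) (D : Dgs x J Ex q eK) (hZ : Z ≤ eK) :
    J.card * x.E ^ 2 * x.T ≤ x.f :=
  le_trans (Nat.mul_le_mul_right _ (Nat.mul_le_mul_left _
    (Nat.pow_le_pow_right (by have := B.e2; omega) (by norm_num))))
    (budget B ((Nat.mul_le_mul_left _ hZ).trans D.card))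

theorem loss (B : Bud p x Φ Θ Z δ) {n : ℕ} (h : x.E ^ 2 * x.T * n ≤ 8 * x.f) : n ≤ δ :=
  Nat.le_of_mul_le_mul_left (h.trans B.dl)
    (Nat.mul_pos (Nat.pow_pos (by have := B.e2; omega)) B.t1)

end Jstep

open Jstep

theorem jstep (hs : StepStmt) (hj : JselStmt) (hf : FlyStmt) : JstepStmt := by
  intro V G p x s J Jt Ex cs q l eK Φ Θ Z δ eS dS θS H sa S R D B hJ hi hH hd hS h1 h2 hZ hK
  obtain ⟨X, sk, η, u, w, Q, P⟩ := pre R.disj D hJ hi h1 h2.ge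
  obtain ⟨as, a1, Tr, a2, γ, a3, a4, a5, a6⟩ := hj V x.F x.f Φ x.E x.T Z eS dS θS eK J.card S Jt X
    sk η h1 h2 B.phi B.e2 B.t1 B.f1 B.z1 hS D.card hZ hK (fun a ha => (P.mem a ha).2.2.1) P.inj P.le
  obtain ⟨Ch, b1, cy, b2, b3, b4, b5⟩ := hs V Tr sk (fun a => as (S.nd (η a))) J cs q x.E x.T x.f γ
    (by have := B.e2; omega) B.t1 R.col ((card_le_card a2).trans P.card)
    (fun a ha => (P.mem a (a2 ha)).1) a5 (budget2 B D hZ) a4
    (le_trans (Nat.mul_le_mul_left _ (le_trans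
      (sum_congr rfl fun k hk => by rw [P.eq k hk]).le (sum_sub X Tr sk J))) a3)
  exact ⟨as, cy, _, a1, post hf R P hi h1 hH hd (b1.trans a2) (lab := fun τ => as (S.nd τ)) b2
    (fun a ha => ⟨(a1 _ (mem_range.1 (h1 (P.mem a (a2 (b1 ha))).2.2.1))).1, b3 a ha⟩) b4
    (loss B b5), a6⟩

theorem tops (ht : TselStmt) (hf : FlyStmt) : TopsStmt := by
  intro V G p x s J Ex cs q l eK Φ Θ Z δ d H ta nd R D B hJ hi hH hd hn hZ hK
  obtain ⟨X, sk, η, u, w, Q, P⟩ := pre (Jt := range x.F) R.disj D hJ hi subset_rfl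
    (by rw [card_range]; exact B.ff)
  have e1 : 1 ≤ x.E := by have := B.e2; omega
  obtain ⟨as, a1, a2⟩ := ht V X sk (fun a => nd (η a)) J cs x.E x.T x.f d e1 B.t1 R.col P.card
    (fun n => (cnt_inj nd (fun a ha => (P.mem a ha).2.2.1) P.inj n).trans (hn n))
    (budget2 B D hZ) (budget B (by
      rw [mul_assoc, mul_comm d]; exact (Nat.mul_le_mul_left _ hK).trans D.card))
  refine ⟨as, fun t => if t < x.T then t else 0, fun _ => x.f * (x.E * x.T), a1,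
    fun t h => if_pos h, post hf R P hi subset_rfl hH hd
      (filter_subset (fun a => as (nd (η a)) = cs (sk a)) X) (lab := fun τ => as (nd τ))
      (fun y => ?_) (fun a ha => ⟨mem_range.2 (a1 _), ?_⟩) (fun y => ?_) (loss B ?_)⟩
  · have := B.t1
    split_ifs <;> omega
  · rw [if_pos (a1 _)]
    exact (mem_filter.1 ha).2
  · rw [cd, Nat.mul_div_cancel _ (Nat.mul_pos e1 B.t1)]
    exact ((cnt_le_card _ _ _).trans ((card_le_card (filter_subset _ _)).trans P.card)).trans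
      (Nat.le_succ _)
  · exact le_trans (Nat.mul_le_mul_left _ (sum_congr rfl fun k hk => by rw [P.eq k hk]).le)
      (a2.trans (by omega))

end Pool.Agent.MP_35cb46_co.Fl
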