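import Pool.Agent.MP_35cb46_co.fl.ASpec
import Pool.Agent.MP_35cb46_co.fl.Base1
import Pool.Agent.MP_35cb46_co.fl.Base2

/-! PROJECT FL, row KILL: flights are prolonged; thin lumps are rare in a poor region. -/

noncomputable section

namespace Pool.Agent.MP_35cb46_co.Fl

open Finset Pool.Agent.MP_7be75d_co Pool.Agent.MP_35cb46_co.Sq Pool.Agent.MP_35cb46_co.Nl
open scoped Classical

namespace Kill

variable {V α : Type} {G : SimpleGraph V} {Fl : Finset V} {Lv : Finset α} {st ps : α → V}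
  {P : α → Finset V}

theorem eq_of_mem (h : Fly G Fl Lv st ps P) {a b : α} {v : V} (ha : a ∈ Lv) (hb : b ∈ Lv)
    (h1 : v ∈ P a) (h2 : v ∈ P b) : a = b := by
  by_contra n
  exact disjoint_left.1 (h.disj a ha b hb n) h1 h2

theorem inj_st (h : Fly G Fl Lv st ps P) : Set.InjOn st Lv := fun a ha b hb e =>
  eq_of_mem h ha hb (h.conn a ha).2.1 (e ▸ (h.conn b hb).2.1)

theorem inj_ps (h : Fly G Fl Lv st ps P) : Set.InjOn ps Lv := fun a ha b hb e =>
  eq_of_mem h ha hb (h.conn a ha).2.2.1 (e ▸ (h.conn b hb).2.2.1)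

section
variable {β γ : Type} {M M' : Finset α} {c : α → β} {c' : α → γ}

theorem lump_pos {a : α} (h : a ∈ M) : 1 ≤ lump M c c' (c a) (c' a) :=
  card_pos.2 ⟨a, mem_filter.2 ⟨h, rfl, rfl⟩⟩

theorem lump_le {k : β} {k' : γ} (h : ∀ b ∈ M, c b = k → c' b = k' → b ∈ M') :
    lump M c c' k k' ≤ lump M' c c' k k' := card_le_card fun b hb =>
  let ⟨b1, b2, b3⟩ := mem_filter.1 hb
  mem_filter.2 ⟨h b b1 b2 b3, b2, b3⟩

theorem lump_cases (k : β) (k' : γ) : lump M c c' k k' = 0 ∨ ∃ a ∈ M, c a = k ∧ c' a = k' := by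
  rcases Nat.eq_zero_or_pos (lump M c c' k k') with e | e
  · exact Or.inl e
  · obtain ⟨a, ha⟩ := card_pos.1 e
    exact Or.inr ⟨a, mem_filter.1 ha⟩

theorem lump_image (f : α → V) {d : V → β} {d' : V → γ}
    (h : ∀ a ∈ M, d (f a) = c a ∧ d' (f a) = c' a) (k : β) (k' : γ) :
    lump (M.image f) d d' k k' ≤ lump M c c' k k' := by
  refine le_trans (card_le_card fun v hv => ?_) (card_image_le (f := f))
  obtain ⟨h1, h2, h3⟩ := mem_filter.1 hv
  obtain ⟨a, ha, rfl⟩ := mem_image.1 h1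
  exact mem_image_of_mem f (mem_filter.2 ⟨ha, (h a ha).1.symm.trans h2, (h a ha).2.symm.trans h3⟩)

/-- The lanes of one cell are at most as many as its entries. -/
theorem cnt_le (f : α → V) {d : V → β} {J : Finset β} {O I : β → Finset V}
    (hd : ∀ a ∈ M, d (f a) = c a) (hi : Set.InjOn st M) (h : ∀ a ∈ M, c a ∈ J ∧ st a ∈ O (c a))
    (hO : ∀ k ∈ J, (O k).card ≤ (I k).card) (k : β) : cnt (M.image f) d k ≤ (I k).card := by
  have h0 : cnt (M.image f) d k ≤ (M.filter fun a => c a = k).card := by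
    refine le_trans (card_le_card fun v hv => ?_) (card_image_le (f := f))
    obtain ⟨h1, h2⟩ := mem_filter.1 hv
    obtain ⟨a, ha, rfl⟩ := mem_image.1 h1
    exact mem_image_of_mem f (mem_filter.2 ⟨ha, (hd a ha).symm.trans h2⟩)
  refine h0.trans ?_
  rcases (M.filter fun a => c a = k).eq_empty_or_nonempty with e | ⟨a, ha⟩
  · rw [e]; exact Nat.zero_le _
  obtain ⟨h1, rfl⟩ := mem_filter.1 ha
  refine le_trans ?_ (hO _ (h a h1).1)
  refine card_le_card_of_injOn st (fun b hb => ?_) (hi.mono (coe_subset.2 (filter_subset _ _)))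
  obtain ⟨h2, h3⟩ := mem_filter.1 (mem_coe.1 hb)
  exact mem_coe.2 (h3 ▸ (h b h2).2)

theorem mem_img (f : α → V) {a : α} (h : a ∈ M) :
    f a ∈ (M.filter fun b => c b = c a).image f := mem_image_of_mem _ (mem_filter.2 ⟨h, rfl⟩)

end

end Kill

open Kill

theorem fly : FlyStmt := by
  intro V α G Fl H Lv st ps x y P Q h k hd ha
  have hPQ : ∀ a ∈ Lv, ∀ b ∈ Lv, Disjoint (P a) (Q b) := fun a m b m' =>
    disjoint_left.2 fun v h1 h2 => by
      rcases mem_insert.1 ((h.conn a m).2.2.2 h1) with e | e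
      · exact (ha a m).1 (e ▸ k.fam.sub b m' h2)
      · exact disjoint_left.1 hd (k.fam.sub b m' h2) e
  refine ⟨fun a m => ⟨(h.conn a m).1.union_adj (k.fam.conn a m) (h.conn a m).2.2.1 (k.st a m)
    (ha a m).2, mem_union_left _ (h.conn a m).2.1, mem_union_right _ (k.en a m),
    union_subset ((h.conn a m).2.2.2.trans (insert_subset_insert _ subset_union_left))
      ((k.fam.sub a m).trans (subset_union_right.trans (subset_insert _ _)))⟩,
    fun a m b m' n => ?_⟩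
  rw [disjoint_union_left, disjoint_union_right, disjoint_union_right]
  exact ⟨⟨h.disj a m b m' n, hPQ a m b m'⟩, (hPQ b m' a m).symm, k.fam.disj a m b m' n⟩

theorem kill : KillStmt := by
  intro V α G p Z Z' Fl Fl' J J' O O' Lv st ps st' ps' P P' c c' hp hC hC' h h' hF hF' hZ hZF hFF
    ha
  have h0 : p.thr = 0 → ∃ L ⊆ Lv, Lv.card ≤ L.card + p.z ∧
      ∀ a ∈ L, p.thr + 1 ≤ lump L c c' (c a) (c' a) := fun e =>
    ⟨Lv, subset_rfl, Nat.le_add_right _ _, fun a m => by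
      rw [e]
      exact lump_pos m⟩
  rcases hC with e | ⟨R, A, I, H, E, hL, r1, r2, r3, r4, r5, r6, r7⟩
  · exact h0 e
  rcases hC' with e | ⟨R', A', I', H', E', hL', s1, s2, s3, s4, s5, s6, s7⟩
  · exact h0 e
  rw [disjoint_union_left, disjoint_union_right, disjoint_union_right] at hZF
  obtain ⟨⟨z1, z2⟩, z3, z4⟩ := hZF
  set L := Lv.filter fun a => p.thr + 1 ≤ lump Lv c c' (c a) (c' a) with hLdef
  set M := Lv.filter fun a => ¬ p.thr + 1 ≤ lump Lv c c' (c a) (c' a) with hMdef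
  have hM : M ⊆ Lv := filter_subset _ _
  refine ⟨L, filter_subset _ _, ?_, fun a m => (mem_filter.1 m).2.trans (lump_le fun b b1 b2 b3 =>
    mem_filter.2 ⟨b1, by rw [b2, b3]; exact (mem_filter.1 m).2⟩)⟩
  have hsum : L.card + M.card = Lv.card := card_filter_add_card_filter_not _
  suffices hz : M.card ≤ p.z by omega
  have ips := (inj_ps h).mono (coe_subset.2 hM)
  have ips' := (inj_ps h').mono (coe_subset.2 hM)
  have hinv : ∀ v, ∃ (w : V) (k k' : ℕ), ∀ a ∈ M, ps a = v → w = ps' a ∧ k = c a ∧ k' = c' a := by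
    intro v
    by_cases hv : ∃ a ∈ M, ps a = v
    · obtain ⟨a, m, e⟩ := hv
      refine ⟨ps' a, c a, c' a, fun b m' e' => ?_⟩
      rw [ips m m' (e.trans e'.symm)]
      exact ⟨rfl, rfl, rfl⟩
    · exact ⟨v, 0, 0, fun a m e => (hv ⟨a, m, e⟩).elim⟩
  choose y c₁ c₂ hy using hinv
  obtain ⟨B, hB⟩ := ext V α ℕ G R Fl J A I O M st ps c P hL (z1.mono_left r2)
    (fun a m => ⟨(ha a (hM m)).1, (ha a (hM m)).2.1⟩) (fun a m => h.conn a (hM m))
    fun a m b m' => h.disj a (hM m) b (hM m')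
  obtain ⟨B', hB'⟩ := ext V α ℕ G R' Fl' J' A' I' O' M st' ps' c' P' hL' (z4.mono_left s2)
    (fun a m => ⟨(ha a (hM m)).2.2.1, (ha a (hM m)).2.2.2.1⟩) (fun a m => h'.conn a (hM m))
    fun a m b m' => h'.disj a (hM m) b (hM m')
  have sd : ∀ X : Finset V, X ⊆ p.RC → Disjoint X H → Disjoint X H' → X ⊆ p.RC \ (H ∪ H') :=
    fun X a b d => subset_sdiff.2 ⟨a, disjoint_union_right.2 ⟨b, d⟩⟩
  rw [← card_image_of_injOn ips]
  refine hp H E H' E' r5 s5 (hZ.mono r3 s3) (R ∪ Fl) (R' ∪ Fl') J J' B I _ B' _ I' (M.image ps) y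
    c₁ c₂ (union_subset (sd R r1 r4 (hZ.mono r2 s3))
      (sd Fl hF (z1.symm.mono_right r3) (z3.symm.mono_right s3)))
    (union_subset (sd R' s1 (hZ.symm.mono s2 r3) s4)
      (sd Fl' hF' (z2.symm.mono_right r3) (z4.symm.mono_right s3))) ?_ hB hB'.symm r6 s6
    (fun k hk => (r7 k hk).1) (fun k hk => (s7 k hk).1) (fun v hv => ?_) (fun v hv w hw e => ?_)
    (fun k => ?_) (fun k => ?_) fun k k' => ?_
  · rw [disjoint_union_left, disjoint_union_right, disjoint_union_right]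
    exact ⟨⟨hZ.mono r2 s2, z2.mono_left r2⟩, z3.symm.mono_right s2, hFF⟩
  · obtain ⟨a, m, rfl⟩ := mem_image.1 hv
    obtain ⟨e1, e2, e3⟩ := hy _ a m rfl
    rw [e1, e2, e3]
    exact ⟨(ha a (hM m)).1, mem_img ps m, (ha a (hM m)).2.2.1, mem_img ps' m,
      (ha a (hM m)).2.2.2.2⟩
  · obtain ⟨a, m, rfl⟩ := mem_image.1 (mem_coe.1 hv)
    obtain ⟨b, m', rfl⟩ := mem_image.1 (mem_coe.1 hw)
    rw [(hy _ a m rfl).1, (hy _ b m' rfl).1] at e
    rw [ips' m m' e]
  · exact cnt_le ps (fun a m => (hy _ a m rfl).2.1) ((inj_st h).mono (coe_subset.2 hM))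
      (fun a m => ⟨(ha a (hM m)).1, (ha a (hM m)).2.1⟩) (fun k hk => (r7 k hk).2) k
  · exact cnt_le ps (fun a m => (hy _ a m rfl).2.2) ((inj_st h').mono (coe_subset.2 hM))
      (fun a m => ⟨(ha a (hM m)).2.2.1, (ha a (hM m)).2.2.2.1⟩) (fun k hk => (s7 k hk).2) k
  · refine (lump_image ps (fun a m => (hy _ a m rfl).2) k k').trans ?_
    rcases lump_cases (M := M) (c := c) (c' := c') k k' with e | ⟨a, m, rfl, rfl⟩
    · omega
    have h1 := (mem_filter.1 m).2
    have h2 : lump M c c' (c a) (c' a) ≤ lump Lv c c' (c a) (c' a) := lump_le fun b m' _ _ => hM m'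
    omega

end Pool.Agent.MP_35cb46_co.Fl
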