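import Pool.Agent.MP_35cb46_co.fl.MSpec

/-! PROJECT FL: modules give an expanding web. -/

noncomputable section

namespace Pool.Agent.MP_35cb46_co.Fl

open Finset Pool.Agent.MP_7be75d_co Pool.Agent.MP_35cb46_co.Sq Pool.Agent.MP_35cb46_co.Nl
open scoped Classical

namespace Mid

theorem div2 {a b : ℕ} (hb : 0 < b) (h : b ≤ a) :
    1 ≤ a / b ∧ a / b * b ≤ a ∧ a ≤ 2 * b * (a / b) := by
  have h1 : 1 ≤ a / b := Nat.div_pos h hb
  have h2 := Nat.lt_mul_div_succ a hb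
  refine ⟨h1, Nat.div_mul_le_self a b, ?_⟩
  have h3 : b * 1 ≤ b * (a / b) := Nat.mul_le_mul_left b h1
  rw [mul_add] at h2
  rw [mul_assoc]
  omega

variable {L : LP} {Λ E f Φ Θ Z δ z i n q : ℕ}

theorem base (num : Num L Λ E f Φ Θ Z δ z) :
    1 ≤ L.T ∧ 1 ≤ Θ ∧ E * L.T ≤ Z ∧ 2 ≤ Z ∧ 1 ≤ δ ∧ ∀ j ≤ L.m, 1 ≤ L.yB j := by
  have t : 1 ≤ L.T := by have := num.tt; omega
  have e := num.e2
  have p : 1 ≤ Φ := Nat.pos_of_ne_zero fun h => by
    have h1 := num.phi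
    have h2 := num.ff
    have h3 := num.f1
    rw [h, zero_mul] at h1
    omega
  have z : E * L.T ≤ Z := le_trans (by
    calc E * L.T = 1 * 1 ^ 2 * E ^ 1 * L.T := by ring
      _ ≤ 8 * Φ ^ 2 * E ^ 4 * L.T := by gcongr <;> omega) num.z1
  have z2 : 2 * 1 ≤ E * L.T := Nat.mul_le_mul e t
  have po := num.lad.po
  refine ⟨t, le_trans (Nat.succ_le_of_lt (by positivity)) num.th, z, by omega,
    Nat.pos_of_ne_zero fun h => ?_, fun j hj => le_trans ?_ (num.lad.big j hj)⟩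
  · have h1 := num.dl
    have h3 := num.f1
    rw [h, mul_zero] at h1
    omega
  · have : 0 < Z := by omega
    exact Nat.succ_le_of_lt (by positivity)

theorem arith (num : Num L Λ E f Φ Θ Z δ z) (im : i ≤ L.m) (h1 : q ≤ L.yB i)
    (h2 : L.yB i ≤ L.Po * q) (h3 : L.F ≤ n * q) :
    ∃ nH ν, 1 ≤ nH ∧ 1 ≤ q ∧ nH * q ≤ f ∧ nH ≤ n ∧ ν * (E * L.T) ≤ q / L.T ∧
      L.yB i ≤ 2 * L.Po * L.T * (q / L.T) ∧ f ≤ 8 * E * L.T ^ 2 * (nH * ν) ∧ ν ≤ q ∧
      64 * ((3 * i + 1) * δ + z) ≤ nH * ν ∧ 32 ≤ nH * ν ∧ q + q ≤ 2 * Θ * L.yB i ∧ q ≤ f := by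
  obtain ⟨t, th, ez, z2, d1, -⟩ := base num
  have e := num.e2
  have po := num.lad.po
  have ff := num.ff
  have qf : q ≤ f := h1.trans (num.yf i im)
  have q1 : 2 * Z * L.T ≤ q := Nat.le_of_mul_le_mul_left (c := L.Po)
    (le_trans (le_of_eq (by ring)) ((num.lad.big i im).trans h2)) po
  have w1 : 2 * Z ≤ q / L.T := (Nat.le_div_iff_mul_le t).2 q1
  have tq : 1 * L.T ≤ 2 * Z * L.T := Nat.mul_le_mul_right _ (by omega)
  obtain ⟨a1, a2, a3⟩ := div2 (a := f) (b := q) (by omega) qf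
  obtain ⟨-, -, b3⟩ := div2 (a := q) (b := L.T) t (by omega)
  obtain ⟨-, c2, c3⟩ := div2 (a := q / L.T) (b := E * L.T) (by positivity) (by omega)
  have key : f ≤ 8 * E * L.T ^ 2 * (f / q * (q / L.T / (E * L.T))) :=
    calc f ≤ 2 * q * (f / q) := a3
      _ ≤ 2 * (2 * L.T * (2 * (E * L.T) * (q / L.T / (E * L.T)))) * (f / q) := by
        gcongr
        exact b3.trans (Nat.mul_le_mul_left _ c3)
      _ = _ := by ring
  have ls : 64 * ((3 * L.m + 2) * δ) ≤ f / q * (q / L.T / (E * L.T)) :=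
    Nat.le_of_mul_le_mul_left (c := 8 * E * L.T ^ 2)
      (le_trans (le_of_eq (mul_comm _ _)) (num.loss.trans key)) (by positivity)
  have l1 : (3 * i + 2) * δ ≤ (3 * L.m + 2) * δ := Nat.mul_le_mul_right _ (by omega)
  have l2 : (3 * i + 2) * δ = (3 * i + 1) * δ + δ := by ring
  have pz := num.pz
  have l3 : 2 * 1 * q ≤ 2 * Θ * L.yB i := by gcongr
  refine ⟨f / q, q / L.T / (E * L.T), a1, by omega, a2,
    Nat.le_of_mul_le_mul_right (c := q) (by omega) (by omega), c2, ?_, key,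
    (Nat.div_le_self _ _).trans (Nat.div_le_self _ _), by omega, by omega, by omega, qf⟩
  calc L.yB i ≤ L.Po * q := h2
    _ ≤ L.Po * (2 * L.T * (q / L.T)) := Nat.mul_le_mul_left _ b3
    _ = _ := by ring

theorem dvd_shape {F e d θ : ℕ} {S : SD} (h : Shape F S e d θ) : e ∣ F := by
  have h1 := card_eq_sum_card_image S.ce (range F)
  rw [card_range] at h1
  rw [h1]
  exact dvd_sum fun c hc => dvd_of_eq (by
    rw [← h.ce c hc, cnt]
    exact congrArg card (filter_congr_decidable _ _ _))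

variable {V : Type} {G : SimpleGraph V} {h : HD V} {N F₀ nm thr : ℕ} {k : ℕ → KD V}
  {Wc : ℕ → Finset ℕ}

/-- the classes of the module `μ` -/
def cls (k : ℕ → KD V) (Wc : ℕ → Finset ℕ) (μ : ℕ) : Finset ℕ :=
  mcl (k (2 * μ)) (k (2 * μ + 1)) (Wc μ)

theorem sub0 (k : ℕ → KD V) (Wc : ℕ → Finset ℕ) (μ : ℕ) : (k (2 * μ)).U ⊆ cls k Wc μ :=
  subset_union_left.trans subset_union_left

theorem sub1 (k : ℕ → KD V) (Wc : ℕ → Finset ℕ) (μ : ℕ) : (k (2 * μ + 1)).U ⊆ cls k Wc μ :=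
  subset_union_right.trans subset_union_left

theorem cdisj (M : Mods G h N F₀ L Θ f i nm n thr z k Wc) {μ μ' : ℕ} (h1 : μ < nm) (h2 : μ' < nm)
    (hne : μ ≠ μ') : Disjoint (cls k Wc μ) (cls k Wc μ') := by
  simp only [cls, mcl, disjoint_union_left, disjoint_union_right]
  exact ⟨⟨⟨⟨M.kits.disj _ (by omega) _ (by omega) (by omega),
    M.kits.disj _ (by omega) _ (by omega) (by omega)⟩, M.wk _ h1 _ (by omega)⟩,
    ⟨M.kits.disj _ (by omega) _ (by omega) (by omega),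
    M.kits.disj _ (by omega) _ (by omega) (by omega)⟩, M.wk _ h1 _ (by omega)⟩,
    ⟨(M.wk _ h2 _ (by omega)).symm, (M.wk _ h2 _ (by omega)).symm⟩, M.ww _ h1 _ h2 hne⟩

theorem csub (M : Mods G h N F₀ L Θ f i nm n thr z k Wc) {μ : ℕ} (h1 : μ < nm) :
    cls k Wc μ ⊆ (range N).erase 0 :=
  union_subset (union_subset (M.kits.kit _ (by omega)).sub (M.kits.kit _ (by omega)).sub)
    (M.wsub _ h1)

/-- the classes used by a chain -/
def used (k : ℕ → KD V) (Wc : ℕ → Finset ℕ) (μ o i : ℕ) : Finset ℕ :=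
  (k (2 * μ + 1)).U ∪ (range i).biUnion fun j => cls k Wc (o + j)

theorem mem_used {μ o a : ℕ} (ha : a ∈ used k Wc μ o i ∪ (k (2 * μ)).U) :
    ∃ ν, (ν = μ ∨ (o ≤ ν ∧ ν < o + i)) ∧ a ∈ cls k Wc ν := by
  rcases mem_union.1 ha with ha | ha
  · rcases mem_union.1 ha with ha | ha
    · exact ⟨μ, Or.inl rfl, sub1 k Wc μ ha⟩
    · obtain ⟨j, hj, ha⟩ := mem_biUnion.1 ha
      exact ⟨o + j, Or.inr ⟨by omega, by have := mem_range.1 hj; omega⟩, ha⟩
  · exact ⟨μ, Or.inl rfl, sub0 k Wc μ ha⟩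

theorem used_sub (M : Mods G h N F₀ L Θ f i nm n thr z k Wc) {μ o : ℕ} (h1 : μ < nm)
    (h2 : o + i ≤ μ) : used k Wc μ o i ⊆ (range N).erase 0 := fun a ha => by
  obtain ⟨ν, hν, ha⟩ := mem_used (mem_union_left _ ha)
  exact csub M (by omega) ha

theorem used_disj (M : Mods G h N F₀ L Θ f i nm n thr z k Wc) {μ o : ℕ} (h1 : μ < nm)
    (h2 : o + i ≤ μ) : Disjoint (used k Wc μ o i) (k (2 * μ)).U :=
  disjoint_union_left.2 ⟨M.kits.disj _ (by omega) _ (by omega) (by omega),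
    (disjoint_biUnion_left _ _ _).2 fun j hj => (cdisj M (μ := o + j) (μ' := μ)
      (by have := mem_range.1 hj; omega) h1 (by have := mem_range.1 hj; omega)).mono_right
      (sub0 k Wc μ)⟩

end Mid

open Mid in
theorem mid (hp : PcokStmt) (ha : HostaStmt) (hb : HostbStmt) (hc : ChainStmt) (hd : DuelStmt) :
    MidStmt := by
  obtain ⟨c, hb⟩ := hb
  refine ⟨c, fun V _ G Amb Rt N F₀ h L Λ E f Φ Θ Z δ i nm n thr z k Wc deg hV hub M hnm ⟨a, hF⟩
    f0 cF num urg => ?_⟩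
  obtain ⟨t1, -, -, z2, -, y1⟩ := base num
  have im := urg.im
  have ff := num.ff
  have po := num.lad.po
  have kit := M.kits.kit
  have hN : 0 < N := by
    obtain ⟨s, hs⟩ := card_pos.1 (lt_of_lt_of_le (by omega) (kit 0 (by omega)).three)
    have := mem_range.1 (mem_of_mem_erase ((kit 0 (by omega)).sub hs))
    omega
  have fV : F₀ ≤ Fintype.card V := by
    rw [← card_range F₀, ← card_univ]
    refine card_le_card_of_injOn (h.pt 0 0) (fun _ _ => mem_univ _) fun u hu v hv e => ?_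
    exact congrArg Prod.snd (hub.inj 0 hN (x₁ := (0, u)) (x₂ := (0, v))
      (mem_coe.2 (mem_product.2 ⟨mem_range.2 hN, hu⟩))
      (mem_coe.2 (mem_product.2 ⟨mem_range.2 hN, hv⟩)) e)
  have aΛ : a < Λ := (Nat.pow_lt_pow_iff_right (a := 2) (by omega)).1 (by omega)
  obtain ⟨μ, m1, μ', m2, hne, he⟩ := exists_ne_map_eq_of_card_lt_of_maps_to
    (s := Ico (2 * L.m) nm) (t := (range Λ).image (2 ^ ·)) (f := fun μ => (k (2 * μ + 1)).eB i)
    (by
      have := card_image_le (s := range Λ) (f := (2 ^ ·))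
      rw [card_range] at this
      rw [Nat.card_Ico]
      omega)
    (fun μ hμ => by
      have h1 := dvd_shape ((kit (2 * μ + 1) (by have := (mem_Ico.1 hμ).2; omega)).bH i im)
      rw [hF] at h1
      obtain ⟨b, b1, b2⟩ := (Nat.dvd_prime_pow Nat.prime_two).1 h1
      exact mem_coe.2 (mem_image.2 ⟨b, mem_range.2 (by omega), b2.symm⟩))
  rw [mem_Ico] at m1 m2
  obtain ⟨Cl, hCl⟩ : ∃ Cl, Cl = (range (2 * nm)).biUnion fun a => (k a).U := ⟨_, rfl⟩
  have cl : ∀ a < 2 * nm, (k a).U ⊆ Cl := fun a ha =>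
    hCl ▸ subset_biUnion_of_mem (fun a => (k a).U) (mem_range.2 ha)
  have ok : (cpc G h F₀ Cl n thr z).Ok G := hp V G Amb Rt N F₀ h Cl n thr z hub
    (hCl ▸ biUnion_subset.2 fun a ha => (kit a (mem_range.1 ha)).sub.trans (erase_subset _ _))
    (hCl ▸ M.poor)
  have kd : Disjoint (k (2 * μ + 1)).U (k (2 * μ' + 1)).U :=
    M.kits.disj _ (by omega) _ (by omega) (by omega)
  obtain ⟨q, r, q1, q2, q3, rq, yr, host⟩ : ∃ q r : ℕ, q ≤ L.yB i ∧ L.yB i ≤ L.Po * q ∧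
      L.F ≤ n * q ∧ (1 ≤ q → r ≤ q) ∧ L.yB i ≤ L.Po * L.yB L.m * r ∧
      ∀ nH, 1 ≤ q → nH * q ≤ f → q ≤ f → nH ≤ n → ∃ Z Z' : Finset V, Z ⊆ h.R 0 ∧ Z' ⊆ h.R 0 ∧
        Disjoint Z Z' ∧
        Hosts G h Rt F₀ (cpc G h F₀ Cl n thr z) (k (2 * μ + 1)) nH q r (L.yB L.m + 4) Z ∧
        Hosts G h Rt F₀ (cpc G h F₀ Cl n thr z) (k (2 * μ' + 1)) nH q r (L.yB L.m + 4) Z' := by
    rcases im.lt_or_eq with il | il
    · obtain ⟨k1, k2⟩ := (kit (2 * μ + 1) (by omega)).bK i il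
      have k3 := (M.mod μ m1.2).ty
      have k4 := num.lad.th
      refine ⟨(k (2 * μ + 1)).eB i, (k (2 * μ + 1)).eB i, by omega, k1,
        Nat.le_of_mul_le_mul_left (c := L.Po) ((urg.lt il).2.2.trans
          ((Nat.mul_le_mul_left n k1).trans (le_of_eq (by ring)))) po, fun _ => le_rfl,
        k1.trans (Nat.mul_le_mul_right _ (Nat.le_mul_of_pos_right _ (y1 _ le_rfl))),
        fun nH a1 a2 _ a4 => ?_⟩
      exact ha V G Amb Rt N F₀ h L Cl n thr z i nH _ _ _ _ hub (kit _ (by omega))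
        (kit _ (by omega)) kd (cl _ (by omega)) (cl _ (by omega)) im rfl he.symm a1 (by omega) f0
        a4 (by omega)
    · obtain ⟨u1, u2⟩ := urg.eq il
      rw [← il]
      refine ⟨L.yB i, 1, le_rfl, Nat.le_mul_of_pos_left _ po,
        u2.trans (Nat.le_mul_of_pos_right _ (y1 _ im)), id,
        by rw [mul_one]; exact Nat.le_mul_of_pos_left _ po, fun nH a1 a2 a3 _ => ?_⟩
      have a5 : nH * 1 ≤ nH * L.yB i := Nat.mul_le_mul_left _ a1
      refine hb V G Amb Rt N F₀ h L _ nH _ _ _ _ deg hub (kit _ (by omega)) (kit _ (by omega)) kd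
        u1 a1 (le_trans ?_ cF) (by omega) (by omega)
      rw [mul_assoc, add_mul]
      exact Nat.mul_le_mul_left _ (by omega)
  obtain ⟨nH, ν, a1, a2, a3, a4, a5, a6, a7, a8, a9, a10, a11, a12⟩ := arith num im q1 q2 q3
  obtain ⟨Zr, Zr', z1, z1', zd, H, H'⟩ := host nH a2 a3 a12 a4
  have nν : nH * ν ≤ nH * q := Nat.mul_le_mul_left _ a8
  have env : ∀ b, Env G ⟨Amb, h, L, Cl, N, F₀, n, thr, z, i, Φ, Θ, Z, δ⟩
      ⟨Rt, L.yB L.m + 4, 2 * Θ * L.yB i, b, nH, r, L.T, ν, E, f, L.F⟩ := fun b =>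
    ⟨hub, ok, ⟨num.e2, t1, num.f1, le_trans (Nat.le_mul_of_pos_left _ two_pos) ff, num.phi, num.th,
      num.z1, num.z2, num.dl, num.pz, Nat.le_add_left _ _⟩, num.lad, urg, rfl, rfl, f0, rfl⟩
  have chain : ∀ b μ o Zr, b < 2 → μ < nm → o + i ≤ μ → Zr ⊆ h.R 0 →
      Hosts G h Rt F₀ (cpc G h F₀ Cl n thr z) (k (2 * μ + 1)) nH q r (L.yB L.m + 4) Zr →
      Fnl G ⟨Amb, h, L, Cl, N, F₀, n, thr, z, i, Φ, Θ, Z, δ⟩
        ⟨Rt, L.yB L.m + 4, 2 * Θ * L.yB i, b, nH, r, L.T, ν, E, f, L.F⟩ (used k Wc μ o i)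
        (k (2 * μ)) Zr ((3 * i + 1) * δ) (nH + 2 * i * n) := fun b μ o Zr b2 m o1 z1 H =>
    hc V G _ _ (k (2 * μ + 1)) (k (2 * μ)) (fun j => k (2 * (o + j)))
      (fun j => k (2 * (o + j) + 1)) (fun j => Wc (o + j)) Zr q (env b) b2 a1 (kit _ (by omega))
      (cl _ (by omega)) z1 H ((Nat.add_le_add_right (rq a2) q).trans a11) a5 a3 a6
      (fun j (hj : j < i) => by
        have o2 : o + j < nm := by omega
        have d := cdisj M m o2 (by omega)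
        exact ⟨⟨kit _ (by omega), kit _ (by omega), M.mod _ o2, cl _ (by omega), cl _ (by omega),
          M.wsub _ o2, M.kits.disj _ (by omega) _ (by omega) (by omega), M.wk _ o2 _ (by omega),
          M.wk _ o2 _ (by omega)⟩, d.mono_left (sub1 k Wc μ), d.mono_left (sub0 k Wc μ)⟩)
      (fun j (hj : j < i) j' (hj' : j' < i) hne =>
        cdisj M (μ := o + j) (μ' := o + j') (by omega) (by omega) (by omega))
      (kit _ (by omega)) (cl _ (by omega)) (M.kits.disj _ (by omega) _ (by omega) (by omega))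
  obtain ⟨W, hW⟩ := hd V G _ _ _ _ _ _ Zr Zr' _ _ Λ (env 0) rfl
    (chain 0 μ 0 Zr two_pos m1.2 (by omega) z1 H)
    (chain 1 μ' L.m Zr' one_lt_two m2.2 (by omega) z1' H')
    (kit _ (by omega)) (kit _ (by omega)) (cl _ (by omega)) (cl _ (by omega))
    (used_sub M m1.2 (by omega)) (used_sub M m2.2 (by omega)) (used_disj M m1.2 (by omega))
    (used_disj M m2.2 (by omega))
    (disjoint_left.2 fun s h1 h2 => by
      obtain ⟨u, u1, u2⟩ := mem_used h1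
      obtain ⟨v, v1, v2⟩ := mem_used h2
      exact disjoint_left.1 (cdisj M (μ := u) (μ' := v) (by omega) (by omega) (by omega)) u2 v2)
    z1 z1' zd (show nH * ν ≤ F₀ by omega) num.tt (show 2 * (nH * ν) ≤ 2 ^ Λ by omega) a10 a9
  refine ⟨W, nH, ν, r, ⟨hW.web, hW.sub, hW.ro, hW.card.trans ?_, hW.exp⟩, a7, yr, a8.trans q1⟩
  have : i * n ≤ L.m * n := Nat.mul_le_mul_right _ im
  rw [mul_assoc, add_mul, mul_assoc]
  omega

end Pool.Agent.MP_35cb46_co.Fl
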