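import Pool.Agent.MP_35cb46_co.fl.MSpec

/-! PROJECT FL: the constants. -/

noncomputable section

namespace Pool.Agent.MP_35cb46_co.Fl

namespace NumP

/-- Polylogarithmic quantities. -/
def Pl (g : ℕ → ℕ) : Prop := ∃ k, ∀ Λ, g Λ ≤ (Λ + 2) ^ k

theorem Pl.b : Pl fun Λ => Λ + 2 := ⟨1, fun _ => by rw [pow_one]⟩

theorem Pl.const (a : ℕ) : Pl fun _ => a :=
  ⟨a, fun Λ => Nat.lt_two_pow_self.le.trans (Nat.pow_le_pow_left (by omega) a)⟩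

theorem Pl.mul {g g' : ℕ → ℕ} (h : Pl g) (h' : Pl g') : Pl fun Λ => g Λ * g' Λ :=
  let ⟨k, hk⟩ := h
  let ⟨k', hk'⟩ := h'
  ⟨k + k', fun Λ => by rw [pow_add]; exact Nat.mul_le_mul (hk Λ) (hk' Λ)⟩

theorem Pl.pow {g : ℕ → ℕ} (h : Pl g) (a : ℕ) : Pl fun Λ => g Λ ^ a :=
  let ⟨k, hk⟩ := h
  ⟨k * a, fun Λ => by rw [pow_mul]; exact Nat.pow_le_pow_left (hk Λ) a⟩

theorem Pl.add {g g' : ℕ → ℕ} (h : Pl g) (h' : Pl g') : Pl fun Λ => g Λ + g' Λ := by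
  obtain ⟨k, hk⟩ := h
  obtain ⟨k', hk'⟩ := h'
  refine ⟨k + k' + 1, fun Λ => ?_⟩
  have a := (hk Λ).trans (Nat.pow_le_pow_right (show 0 < Λ + 2 by omega) (Nat.le_add_right k k'))
  have b := (hk' Λ).trans (Nat.pow_le_pow_right (show 0 < Λ + 2 by omega) (Nat.le_add_left k' k))
  have c := Nat.mul_le_mul_left ((Λ + 2) ^ (k + k')) (show 2 ≤ Λ + 2 by omega)
  rw [pow_succ]
  show g Λ + g' Λ ≤ _
  omega

def pT (Λ : ℕ) : ℕ := 400 * (Λ + 2)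
def pE (Λ : ℕ) : ℕ := 16384 * (Λ + 2) * pT Λ
def pM (Λ : ℕ) : ℕ := 40000 * (Λ + 2) * pE Λ ^ 3 * pT Λ
def pF (Λ : ℕ) : ℕ := 400 * pM Λ * (Λ + 2)
def pZ (Λ : ℕ) : ℕ := 8 * pF Λ ^ 2 * pE Λ ^ 4 * pT Λ
def pI (c Λ : ℕ) : ℕ := (2 * pZ Λ) ^ c
def pB (c Λ : ℕ) : ℕ := 4 * pZ Λ ^ 2 * pT Λ * pI c Λ
def pO (c Λ : ℕ) : ℕ := pB c Λ ^ c
def pY (c Λ : ℕ) : ℕ := 2 * pO c Λ * pT Λ * pZ Λ * (pI c Λ * (2 * pZ Λ) * pB c Λ)
def pN (c c₂ Λ : ℕ) : ℕ :=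
  1 + pY c Λ ^ (c₂ + 2) * (pT Λ + 2) + pY c Λ ^ (c₂ + 2) * (2 * (Λ + 2) * (pO c Λ + 3))
def pW (c c₁ c₂ c₃ Λ : ℕ) : ℕ := 2 * (pO c Λ * (c₁ + 1)) * pF Λ * (8 * pE Λ * pT Λ ^ 2) *
  ((pY c Λ ^ (c₂ + 3)) ^ c₃ * pY c Λ ^ 2)

theorem poly (c c₁ c₂ c₃ : ℕ) : Pl fun Λ => pN c c₂ Λ + pW c c₁ c₂ c₃ Λ := by
  have k := Pl.const
  have t : Pl pT := (k 400).mul Pl.b
  have e : Pl pE := ((k 16384).mul Pl.b).mul t
  have m : Pl pM := (((k 40000).mul Pl.b).mul (e.pow 3)).mul t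
  have f : Pl pF := ((k 400).mul m).mul Pl.b
  have z : Pl pZ := (((k 8).mul (f.pow 2)).mul (e.pow 4)).mul t
  have i : Pl (pI c) := ((k 2).mul z).pow c
  have b : Pl (pB c) := (((k 4).mul (z.pow 2)).mul t).mul i
  have o : Pl (pO c) := b.pow c
  have y : Pl (pY c) := ((((k 2).mul o).mul t).mul z).mul ((i.mul ((k 2).mul z)).mul b)
  exact (((k 1).add ((y.pow _).mul (t.add (k 2)))).add
    ((y.pow _).mul (((k 2).mul Pl.b).mul (o.add (k 3))))).add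
    (((((k 2).mul (o.mul (k _))).mul f).mul (((k 8).mul e).mul (t.pow 2))).mul
      (((y.pow _).pow _).mul (y.pow 2)))

theorem ml {a b : ℕ} (x : ℕ) (h : a ≤ b) (hx : 1 ≤ x) : a ≤ x * b :=
  h.trans (Nat.le_mul_of_pos_left b hx)

theorem mr {a b : ℕ} (x : ℕ) (h : a ≤ b) (hx : 1 ≤ x) : a ≤ b * x :=
  h.trans (Nat.le_mul_of_pos_right b hx)

/-- The static facts. -/
structure Sta (b T E M G Φ Θ Z Pi Bo Po S R Y : ℕ) : Prop where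
  tb : 400 * b ≤ T
  he : E = 16384 * b * T
  hG : G = 200 * M * b
  hS : S = 2 * Po * T * Z
  hY : Y = S * R
  th : Φ * E ^ 3 * T ≤ Θ
  z1 : 8 * Φ ^ 2 * E ^ 4 * T ≤ Z
  hm : 100 * Θ ≤ M ^ 2
  fh : 2 * Φ * (E ^ 2 * T) ≤ Θ
  lin : 2 ≤ b ∧ 2 ≤ E ∧ E ≤ M ∧ M ≤ Φ ∧ Φ = 2 * G ∧ 400 * b ≤ Φ ∧ 2 * Φ ≤ Θ ∧ 8 * Θ ≤ Z ∧
    2 * Z ≤ Bo ∧ Z ≤ S ∧ S ≤ Y ∧ Po ≤ S ∧ 1 ≤ Pi ∧ 1 ≤ Po ∧ 2 ≤ G
  y4 : 4 * (S * Pi) ≤ Y
  rP : Pi * (2 * Z) ≤ R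
  rZ : Z * Pi ≤ R
  pb : Po * Bo ≤ Y
  up : Z * Pi * (2 * S) = Po * Bo
  hp : 2 * Θ * Po ≤ Y
  w : 4 * b * (16 * Θ * E * T ^ 2) * Φ ≤ Y * Y

theorem sta {b T E M Φ Z Pi Bo Po Y c : ℕ} (hb : 2 ≤ b) (ht : T = 400 * b)
    (he : E = 16384 * b * T) (hM : M = 40000 * b * E ^ 3 * T) (hf : Φ = 400 * M * b)
    (hz : Z = 8 * Φ ^ 2 * E ^ 4 * T) (hi : Pi = (2 * Z) ^ c) (ho : Bo = 4 * Z ^ 2 * T * Pi)
    (hp : Po = Bo ^ c) (hy : Y = 2 * Po * T * Z * (Pi * (2 * Z) * Bo)) :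
    Sta b T E M (200 * M * b) Φ (Φ * E ^ 3 * T) Z Pi Bo Po (2 * Po * T * Z) (Pi * (2 * Z) * Bo)
      Y := by
  have t1 : 1 ≤ T := by omega
  have e2 : 2 ≤ E := by rw [he]; exact mr _ (by omega) t1
  have em : E ≤ M := by
    rw [hM]; exact mr _ (ml _ (Nat.le_self_pow (by omega) _) (by omega)) t1
  have fb : 400 * b ≤ Φ := by rw [hf]; exact Nat.mul_le_mul_right _ (by omega)
  have fm : M ≤ Φ := by rw [hf]; exact mr _ (by omega) (by omega)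
  have fG : Φ = 2 * (200 * M * b) := by rw [hf]; ring
  have hm : 100 * (Φ * E ^ 3 * T) = M ^ 2 := by
    rw [pow_two M, hf]
    nth_rw 3 [hM]
    ring
  have fh : 2 * Φ * (E ^ 2 * T) ≤ Φ * E ^ 3 * T :=
    calc 2 * Φ * (E ^ 2 * T) ≤ E * Φ * (E ^ 2 * T) := by gcongr
      _ = _ := by ring
  have zh : Z = 8 * (Φ * E ^ 3 * T) * (Φ * E) := by rw [hz]; ring
  have th : Φ * E ^ 3 * T ≤ Φ * E ^ 3 * T := le_rfl
  generalize hΘ : Φ * E ^ 3 * T = Θ at hm fh zh ⊢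
  have eT : 1 ≤ E ^ 2 * T := Nat.mul_pos (by positivity) t1
  have fΘ : 2 * Φ ≤ Θ := (mr _ le_rfl eT).trans fh
  have zΘ : 8 * Θ ≤ Z := by rw [zh]; exact mr _ le_rfl (Nat.mul_pos (by omega) (by omega))
  have z1 : 1 ≤ Z := by omega
  have pi : 1 ≤ Pi := by rw [hi]; exact Nat.one_le_pow _ _ (by omega)
  have zB : 2 * Z ≤ Bo := by
    have := Nat.le_self_pow (n := 2) (by omega) Z
    rw [ho]
    exact mr _ (mr _ (by omega) t1) pi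
  have po : 1 ≤ Po := by rw [hp]; exact Nat.one_le_pow _ _ (by omega)
  have up : Z * Pi * (2 * (2 * Po * T * Z)) = Po * Bo := by rw [ho]; ring
  have sT : 2 * T * Z ≤ 2 * Po * T * Z := by gcongr; omega
  have sP : Po * Z ≤ 2 * Po * T * Z := Nat.mul_le_mul_right _ (mr _ (by omega) t1)
  have rP : Pi * (2 * Z) ≤ Pi * (2 * Z) * Bo := mr _ le_rfl (by omega)
  have rB : Bo ≤ Pi * (2 * Z) * Bo := ml _ le_rfl (Nat.mul_pos pi (by omega))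
  have rZ : Z * Pi ≤ Pi * (2 * Z) := by rw [mul_comm]; gcongr; omega
  have r4 : Pi * 4 ≤ Pi * (2 * Z) := by gcongr; omega
  generalize hS : 2 * Po * T * Z = S at hy up sT sP ⊢
  generalize hR : Pi * (2 * Z) * Bo = R at hy rP rB ⊢
  have sY : S ≤ Y := by rw [hy]; exact mr _ le_rfl (by omega)
  have oS : Po ≤ S := (mr _ le_rfl z1).trans sP
  refine ⟨ht.ge, he, rfl, hS.symm, hy, hΘ.le, hz.ge, hm.le, fh, ⟨hb, e2, em, fm, fG, fb, fΘ, zΘ, zB,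
    (ml _ le_rfl po).trans sP, sY, oS, pi, po, by omega⟩, ?_, rP, rZ.trans rP,
    hy ▸ Nat.mul_le_mul oS rB, up, ?_, ?_⟩
  · calc 4 * (S * Pi) = S * (Pi * 4) := by ring
      _ ≤ S * R := Nat.mul_le_mul_left _ (r4.trans rP)
      _ = Y := hy.symm
  · calc 2 * Θ * Po = Po * (2 * Θ) := by ring
      _ ≤ Po * Z := Nat.mul_le_mul_left _ (by omega)
      _ ≤ Y := sP.trans sY
  · calc 4 * b * (16 * Θ * E * T ^ 2) * Φ = 2 * T * (2 * b) * (2 * T * Z) := by rw [zh]; ring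
      _ ≤ 2 * T * Z * (2 * T * Z) := by gcongr; omega
      _ ≤ Y * Y := Nat.mul_le_mul (sT.trans sY) (sT.trans sY)

theorem loss {b T E m f a x : ℕ} (he : E = 16384 * b * T) (hm : m + 2 ≤ b) (hx : x = b * E * T ^ 2)
    (h1 : E ^ 2 * T * a ≤ 8 * f) (h2 : 6144 * x ≤ f) :
    64 * ((3 * m + 2) * (a + 1)) * (8 * E * T ^ 2) ≤ f := by
  have e1 : E ^ 2 * T * a = 16384 * (x * a) := by
    rw [hx, pow_two E]
    nth_rw 1 [he]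
    ring
  have e2 : 64 * ((3 * m + 2) * (a + 1)) * (8 * E * T ^ 2) ≤
      64 * ((3 * b) * (a + 1)) * (8 * E * T ^ 2) := by
    gcongr
    omega
  have e3 : 64 * ((3 * b) * (a + 1)) * (8 * E * T ^ 2) = 1536 * (x * a) + 1536 * x := by
    rw [hx]
    ring
  omega

theorem lg {x : ℕ} (hx : 1 ≤ x) : x ≤ 2 ^ (Nat.log 2 x + 1) ∧ 2 ^ (Nat.log 2 x + 1) ≤ 2 * x :=
  ⟨(Nat.lt_pow_succ_log_self (by norm_num) x).le, by
    rw [pow_succ']; exact Nat.mul_le_mul_left _ (Nat.pow_log_le_self 2 (by omega))⟩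

theorem dv {K f : ℕ} (h1 : 1 ≤ K) (h2 : K ≤ f) : 1 ≤ f / K ∧ f ≤ 2 * K * (f / K) := by
  have e1 : 1 ≤ f / K := (Nat.le_div_iff_mul_le h1).2 (by omega)
  have e2 := Nat.lt_mul_div_succ f h1
  exact ⟨e1, by nlinarith⟩

theorem top {A F₀ : ℕ} (h1 : 1 ≤ A) (h2 : A ≤ F₀) : ∃ F, A * F ≤ F₀ ∧ F₀ ≤ 2 * A * F ∧ P2 F := by
  have h3 := (dv h1 h2).1
  refine ⟨2 ^ Nat.log 2 (F₀ / A), (Nat.mul_le_mul_left _
    (Nat.pow_log_le_self 2 (by omega))).trans (Nat.mul_div_le _ _), ?_, _, rfl⟩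
  have h4 := Nat.lt_pow_succ_log_self (b := 2) (by norm_num) (F₀ / A)
  have h5 := Nat.lt_mul_div_succ F₀ h1
  rw [pow_succ] at h4
  nlinarith [Nat.mul_le_mul_left A (Nat.succ_le_of_lt h4)]

theorem pbd {p τ Θ Y y : ℕ} (h1 : p ≤ τ) (h2 : y ≤ 2 * τ * Y) (h3 : 8 * Θ ≤ Y) (h4 : 2 ≤ Y) :
    p + 2 * Θ * y ≤ τ * Y ^ 2 := by
  have e1 : 2 * Θ * y ≤ 2 * Θ * (2 * τ * Y) := Nat.mul_le_mul_left _ h2
  have e2 : τ * Y * (8 * Θ) ≤ τ * Y * Y := Nat.mul_le_mul_left _ h3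
  have e3 : τ * (2 * 1) ≤ τ * (Y * Y) := Nat.mul_le_mul_left _ (Nat.mul_le_mul h4 (by omega))
  nlinarith

theorem cel {S Pi F Y y : ℕ} (h1 : 4 * (S * Pi) ≤ Y) (h2 : 1 ≤ S * Pi) (h3 : y ≤ F) (h4 : 1 ≤ y) :
    (2 * S * Pi * F / y + 1) * y ≤ Y * F ∧ 2 * S * (Pi * F) ≤ (2 * S * Pi * F / y + 1) * y := by
  have e1 := Nat.div_mul_le_self (2 * S * Pi * F) y
  have e2 := Nat.lt_mul_div_succ (2 * S * Pi * F) h4
  refine ⟨?_, by rw [mul_comm _ y, ← mul_assoc]; exact e2.le⟩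
  rw [add_mul]
  nlinarith [Nat.mul_le_mul_right F h1, Nat.mul_le_mul_right F h2]

/-- The facts that depend on the size. -/
structure Dyn (b T E G Φ Y A B W F₀ τ F f m : ℕ) : Prop where
  f1 : A * F ≤ F₀
  p2 : P2 F
  g1 : G * f ≤ F
  phi : F ≤ Φ * f
  hD : F₀ ≤ 2 * A * Φ * f
  fX : 8 * E * T ^ 2 * (B * (τ * Y ^ 2)) ≤ f
  hW : 2 * A * Φ * (8 * E * T ^ 2 * (B * (τ * Y ^ 2))) ≤ W * τ
  fY : 6144 * (b * E * T ^ 2) ≤ f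
  ft : 2 * τ * Y ≤ f
  fz : F ≤ Y * (f / (E ^ 2 * T))
  lin : 1 ≤ f ∧ 2 * f ≤ F ∧ F ≤ F₀ ∧ B ≤ W ∧ m + 2 ≤ b ∧ 1 ≤ E ^ 2 * T
  m1 : τ ≤ 2 ^ m
  m2 : 2 ^ m ≤ 2 * τ

theorem siz {Λ T E M G Φ Θ Z Pi Bo Po S R Y A B W F₀ τ : ℕ}
    (s : Sta (Λ + 2) T E M G Φ Θ Z Pi Bo Po S R Y) (a1 : 1 ≤ A) (b1 : 1 ≤ B)
    (hW : 2 * A * Φ * (8 * E * T ^ 2) * (B * Y ^ 2) ≤ W) (hτ : 1 ≤ τ) (hF₀ : W * τ ≤ F₀)
    (hΛ : F₀ < 2 ^ Λ) : ∃ F f m, Dyn (Λ + 2) T E G Φ Y A B W F₀ τ F f m := by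
  have hl := s.lin
  have ht := s.tb
  have y2 : 1 ≤ Y ^ 2 := Nat.one_le_pow _ _ (by omega)
  have eT : 1 ≤ E ^ 2 * T := Nat.mul_pos (Nat.one_le_pow _ _ (by omega)) (by omega)
  have x1 : 1 ≤ 8 * E * T ^ 2 := Nat.mul_pos (by omega) (Nat.one_le_pow _ _ (by omega))
  have e1 : E ^ 2 * T ≤ 8 * E * T ^ 2 * (Y * Y) := by
    rw [show E ^ 2 * T = E * T * E by ring]
    exact Nat.mul_le_mul (Nat.mul_le_mul (by omega) (Nat.le_self_pow (by omega) T))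
      (mr _ (by omega) (by omega))
  have e2 : 6144 * ((Λ + 2) * E * T ^ 2) ≤ 8 * E * T ^ 2 * (Y * Y) :=
    calc 6144 * ((Λ + 2) * E * T ^ 2) = 8 * E * T ^ 2 * (384 * (Λ + 2) * 2) := by ring
      _ ≤ _ := Nat.mul_le_mul_left _ (Nat.mul_le_mul (by omega) (by omega))
  have e3 : 2 * τ * Y ≤ τ * Y ^ 2 :=
    calc 2 * τ * Y = τ * Y * 2 := by ring
      _ ≤ τ * Y * Y := Nat.mul_le_mul_left _ (by omega)
      _ = _ := by ring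
  obtain ⟨X, hX⟩ : ∃ X, 8 * E * T ^ 2 = X := ⟨_, rfl⟩
  rw [hX] at hW x1 e1 e2
  have hW' : 2 * A * Φ * (X * (B * (τ * Y ^ 2))) ≤ W * τ :=
    le_trans (le_of_eq (by ring)) (Nat.mul_le_mul_right τ hW)
  have d1 : 1 ≤ 2 * A * Φ := Nat.mul_pos (by omega) (by omega)
  have bW : B ≤ W := (ml _ (mr _ le_rfl y2) (Nat.mul_pos d1 x1)).trans hW
  have aF : 2 * A * Φ ≤ F₀ :=
    (mr _ le_rfl (Nat.mul_pos x1 (Nat.mul_pos b1 (Nat.mul_pos hτ y2)))).trans (hW'.trans hF₀)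
  obtain ⟨F, F1, F2, F3⟩ := top a1 ((mr Φ (by omega) (by omega)).trans aF)
  have ΦF : Φ ≤ F := Nat.le_of_mul_le_mul_left (aF.trans F2) (by omega)
  obtain ⟨f0, f2⟩ := dv (K := G) (f := F) (by omega) (by omega)
  have f1 := Nat.mul_div_le F G
  generalize F / G = f at f0 f1 f2
  rw [← hl.2.2.2.2.1] at f2
  have hD : F₀ ≤ 2 * A * Φ * f := F2.trans (by rw [mul_assoc (2 * A)]; gcongr)
  have fX : X * (B * (τ * Y ^ 2)) ≤ f := Nat.le_of_mul_le_mul_left ((hW'.trans hF₀).trans hD) d1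
  have fY : X * (Y * Y) ≤ f :=
    le_trans (Nat.mul_le_mul_left _ (ml _ (ml _ (pow_two Y).ge hτ) b1)) fX
  have τF : τ ≤ F₀ := (ml _ le_rfl (b1.trans bW)).trans hF₀
  refine ⟨F, f, Nat.log 2 τ + 1, F1, F3, f1, f2, hD, hX ▸ fX, hX ▸ hW', e2.trans fY,
    (ml _ (ml _ e3 b1) x1).trans fX, ?_, ⟨f0, le_trans (Nat.mul_le_mul_right _ (by omega)) f1,
      (ml _ le_rfl a1).trans F1, bW, ?_, eT⟩, (lg hτ).1, (lg hτ).2⟩
  · calc F ≤ Φ * (2 * (E ^ 2 * T) * (f / (E ^ 2 * T))) :=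
        f2.trans (Nat.mul_le_mul_left _ (dv eT (e1.trans fY)).2)
      _ = 2 * Φ * (E ^ 2 * T) * (f / (E ^ 2 * T)) := by ring
      _ ≤ _ := Nat.mul_le_mul_right _ (s.fh.trans (by omega))
  · have := Nat.log_lt_of_lt_pow (b := 2) (x := Λ) (y := τ) (by omega) (by omega)
    omega

theorem dyn {c c₁ c₂ c₃ C Λ T E M G Φ Θ Z Pi Bo Po S R Y N F₀ d p τ F f m : ℕ}
    (s : Sta (Λ + 2) T E M G Φ Θ Z Pi Bo Po S R Y) (hPi : Pi = (2 * Z) ^ c) (hPo : Po = Bo ^ c)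
    (hN : N = 1 + Y ^ (c₂ + 2) * (T + 2) + Y ^ (c₂ + 2) * (2 * (Λ + 2) * (Po + 3)))
    (hd : d ≤ τ) (hp : p ≤ τ) (q : Dyn (Λ + 2) T E G Φ Y (Po * (c₁ + 1)) ((Y ^ (c₂ + 3)) ^ c₃)
      ((Λ + 2) ^ C) F₀ τ F f m) :
    ∃ (L : LP) (B M Θ f z Q E Φ Z δ B' D : ℕ) (n : ℕ → ℕ), L.T = T ∧ L.d = d ∧
      Pre c c₂ Λ N (Y ^ (c₂ + 2)) F₀ L B M Θ f z Q n ∧ Num L Λ E f Φ Θ Z δ z ∧ c₁ * L.F ≤ F₀ ∧
      (∀ i ≤ L.m, Urg L Θ i (n i) (L.yB i / Q)) ∧ Post c₃ C Λ F₀ p τ L E Θ f Q B' D n := by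
  obtain ⟨-, e2, em, fm, -, fb, fΘ, zΘ, zB, sZ, sY, oS, pi, po, -⟩ := s.lin
  obtain ⟨f0, ff, fF, bW, mb, eT⟩ := q.lin
  have sp1 : 1 ≤ S * Pi := Nat.mul_pos (by omega) pi
  have y2 : 2 ≤ Y := by omega
  have q2 : Y * Y ≤ Y ^ (c₂ + 2) := by
    rw [← pow_two]; exact Nat.pow_le_pow_right (by omega) (by omega)
  have q3 : Y ^ (c₂ + 3) = Y * Y ^ (c₂ + 2) := pow_succ' Y _
  have qc : Y ^ c₂ ≤ Y ^ (c₂ + 2) := Nat.pow_le_pow_right (by omega) (by omega)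
  have qY : 2 * Y ≤ Y ^ (c₂ + 2) := (Nat.mul_le_mul_right _ y2).trans q2
  obtain ⟨θ, θ1, θ2, θ3⟩ : ∃ θ, Z ≤ θ ∧ θ ≤ 2 * Z ∧ P2 θ :=
    ⟨_, (lg (by omega)).1, (lg (by omega)).2, _, rfl⟩
  obtain ⟨yB, hyB⟩ : ∃ yB : ℕ → ℕ, ∀ j, yB j = 2 ^ (m - j) * Y := ⟨_, fun _ => rfl⟩
  obtain ⟨yS, hyS⟩ : ∃ yS : ℕ → ℕ, ∀ j, yS j = 2 ^ (m - (j + 1)) * R := ⟨_, fun _ => rfl⟩
  have u1 : ∀ j, yB (j + 1) = S * yS j := fun j => by rw [hyB, hyS, s.hY]; ring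
  have u2 : ∀ j < m, yB j = 2 * S * yS j := fun j hj => by
    rw [hyB, hyS, s.hY, show m - j = m - (j + 1) + 1 by omega]; ring
  have u3 : ∀ j, Y ≤ yB j := fun j => by rw [hyB]; exact ml _ le_rfl Nat.one_le_two_pow
  have u4 : ∀ j, R ≤ yS j := fun j => by rw [hyS]; exact ml _ le_rfl Nat.one_le_two_pow
  have u5 : ∀ j, yB j ≤ 2 * τ * Y := fun j => by
    rw [hyB]
    exact Nat.mul_le_mul_right _ ((Nat.pow_le_pow_right (by omega) (by omega)).trans q.m2)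
  have u6 : ∀ j, yB j ≤ f := fun j => (u5 j).trans q.ft
  have u7 : yB m = Y := by rw [hyB, Nat.sub_self, pow_zero, one_mul]
  have u8 : S * d ≤ yB 0 := by
    rw [hyB, Nat.sub_zero, mul_comm]
    exact Nat.mul_le_mul (hd.trans q.m1) sY
  clear hyB hyS
  obtain ⟨n, n1, n2⟩ : ∃ n : ℕ → ℕ, (∀ j < m, n j = 2 * S * Pi * F / yB j + 1) ∧ n m = F :=
    ⟨fun j => if j < m then 2 * S * Pi * F / yB j + 1 else F, fun j hj => if_pos hj,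
      if_neg (lt_irrefl m)⟩
  have n0 := fun j => cel (F := F) s.y4 sp1 ((u6 j).trans (by omega)) (le_trans (by omega) (u3 j))
  have n3 : ∀ j ≤ m, n j * yB j ≤ Y * F := fun j hj => by
    rcases hj.eq_or_lt with rfl | hj
    · rw [n2, u7, mul_comm]
    · rw [n1 j hj]
      exact (n0 j).1
  have n4 : ∀ j < m, 2 * S * (Pi * F) ≤ n j * yB j := fun j hj => by
    rw [n1 j hj]
    exact (n0 j).2
  clear n0 n1
  refine ⟨⟨F, m, T, d, θ, Pi, 2 * Z, Po, Bo, yS, yB⟩, Y, M, Θ, f, f / (E ^ 2 * T), Y ^ (c₂ + 2), E,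
    Φ, Z, 8 * f / (E ^ 2 * T) + 1, Y ^ (c₂ + 3), 2 * (Po * (c₁ + 1)) * Φ, n, rfl, rfl,
    ⟨?_, ?_, ?_, ?_, ?_⟩, ⟨e2, f0, ff, q.phi, s.th, s.z1, zΘ, (Nat.lt_mul_div_succ _ eT).le, ?_, ?_,
      loss s.he mb rfl (Nat.mul_div_le _ _) q.fY, fun j _ => u6 j, θ1, ?_, ?_, pi, po, ?_, ?_, ?_⟩,
    ?_, fun i hi => ⟨hi, ?_, ?_⟩, ⟨?_, ?_⟩⟩
  all_goals try dsimp only
  · exact ⟨by omega, zB, θ2, θ3, q.p2, hPi, hPo,
      le_trans (Nat.mul_le_mul_right _ (mr _ le_rfl (by omega))) q.f1⟩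
  · intro j hj
    have e1 : yS j ≤ yB j := by rw [u2 j hj]; exact ml _ le_rfl (by omega)
    have := u6 j
    exact ⟨s.rP.trans (u4 j), by omega, s.pb.trans (u3 j), by omega⟩
  · rw [hN]
    gcongr <;> omega
  · refine ⟨fF, by omega, pi, by omega, by omega, by omega, by omega,
      by omega, s.hm, le_trans ?_ q.g1, q.fz, by omega, by omega, qc, qc⟩
    calc 100 * M * (m + 2) * (2 * f) ≤ 100 * M * (Λ + 2) * (2 * f) := by gcongr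
      _ = G * f := by rw [s.hG]; ring
  · intro j hj
    refine ⟨?_, n3 j hj.le⟩
    calc yB j * Pi = 2 * (S * Pi) * yS j := by rw [u2 j hj]; ring
      _ ≤ Y * yS j := Nat.mul_le_mul_right _ (by have := s.y4; omega)
  · exact (Nat.div_le_div_right (by omega)).trans (Nat.le_succ _)
  · have := s.tb
    omega
  · omega
  · omega
  · intro j hj
    refine ⟨by rw [u1, s.hS], s.rZ.trans (u4 j), le_of_eq ?_⟩
    rw [u2 j hj, ← s.up]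
    ring
  · intro j _
    rw [← s.hS]
    exact sY.trans (u3 j)
  · rw [← s.hS]
    exact u8
  · exact le_trans (Nat.mul_le_mul_right _ (ml _ (by omega) po)) q.f1
  · intro hi
    have e1 := n4 i hi
    refine ⟨Nat.le_of_mul_le_mul_left ?_ (show 0 < 2 * S by omega),
      Nat.le_of_mul_le_mul_left ?_ (show 0 < 2 * S by omega), le_trans ?_ e1⟩
    · have e2 : Θ * (2 * (S * Pi)) ≤ Y ^ (c₂ + 2) :=
        (Nat.mul_le_mul (by omega) (by have := s.y4; omega)).trans q2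
      calc 2 * S * (Θ * (yB i / Y ^ (c₂ + 2)) * Pi)
          = Θ * (2 * (S * Pi)) * (yB i / Y ^ (c₂ + 2)) := by ring
        _ ≤ Y ^ (c₂ + 2) * (yB i / Y ^ (c₂ + 2)) := Nat.mul_le_mul_right _ e2
        _ ≤ yB i := Nat.mul_div_le _ _
        _ = _ := u2 i hi
    · rw [u2 i hi] at e1
      exact e1.trans (le_of_eq (by ring))
    · exact Nat.mul_le_mul (by omega) (ml _ le_rfl pi)
  · intro hi
    rw [hi]
    exact ⟨Nat.div_eq_of_lt (by omega), n2.ge⟩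
  · have e1 : 2 * Y ^ (c₂ + 2) ≤ Y * Y ^ (c₂ + 2) := Nat.mul_le_mul_right _ y2
    refine ⟨by omega, by omega, by omega, ?_, ?_, bW, q.hD, by omega⟩
    · rw [q3]
      exact Nat.mul_le_mul_right _ (by omega)
    · have := Nat.mul_le_mul_right Y s.hp
      rw [u7, ← mul_assoc]
      omega
  · intro i hi
    have e1 := Nat.mul_le_mul_left (8 * E * T ^ 2) (Nat.mul_le_mul_left ((Y ^ (c₂ + 3)) ^ c₃)
      (pbd hp (u5 i) (show 8 * Θ ≤ Y by omega) y2))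
    refine ⟨?_, ?_, ?_⟩
    · calc (4 * m + 2) * n i * (2 * Θ * yB i) * (8 * E * T ^ 2)
          = (4 * m + 2) * (16 * Θ * E * T ^ 2) * (n i * yB i) := by ring
        _ ≤ (4 * (Λ + 2)) * (16 * Θ * E * T ^ 2) * (Y * (Φ * f)) :=
          Nat.mul_le_mul (Nat.mul_le_mul_right _ (by omega))
            ((n3 i hi).trans (Nat.mul_le_mul_left _ q.phi))
        _ = Y * (4 * (Λ + 2) * (16 * Θ * E * T ^ 2) * Φ) * f := by ring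
        _ ≤ _ := by
          rw [q3]
          exact Nat.mul_le_mul_right _ (Nat.mul_le_mul_left _ (s.w.trans q2))
    · rw [mul_comm]
      exact e1.trans q.fX
    · rw [mul_assoc]
      exact (Nat.mul_le_mul_left _ e1).trans q.hW

end NumP

theorem num : NumStmt := by
  intro c c₁ c₂ c₃
  obtain ⟨C, hC⟩ := NumP.poly c c₁ c₂ c₃
  refine ⟨C, fun Λ => ⟨NumP.pN c c₂ Λ, NumP.pT Λ, NumP.pY c Λ ^ (c₂ + 2),
    (Nat.le_add_right _ _).trans (hC Λ), Nat.le_add_right _ _, fun F₀ d p τ h1 h2 h3 h4 h5 => ?_⟩⟩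
  have s := NumP.sta (b := Λ + 2) (T := NumP.pT Λ) (E := NumP.pE Λ) (M := NumP.pM Λ)
    (Φ := NumP.pF Λ) (Z := NumP.pZ Λ) (Pi := NumP.pI c Λ) (Bo := NumP.pB c Λ) (Po := NumP.pO c Λ)
    (Y := NumP.pY c Λ) (c := c) (by omega) rfl rfl rfl rfl rfl rfl rfl rfl rfl
  obtain ⟨-, -, -, -, -, fb, fΘ, zΘ, -, sZ, sY, -, -, po, -⟩ := s.lin
  obtain ⟨F, f, m, q⟩ := NumP.siz s (A := NumP.pO c Λ * (c₁ + 1))
    (B := (NumP.pY c Λ ^ (c₂ + 3)) ^ c₃) (Nat.mul_pos po (by omega))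
    (Nat.one_le_pow _ _ (Nat.one_le_pow _ _ (by omega))) ((Nat.le_add_left _ _).trans (hC Λ))
    h3 h4 h5
  exact NumP.dyn s rfl rfl rfl h1 h2 q

end Pool.Agent.MP_35cb46_co.Fl
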