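import Pool.Agent.MP_35cb46_co.fl.Asg
import Pool.Agent.MP_35cb46_co.fl.ASpec

/-! PROJECT FL: the counting rows STEP, QSEL, JSEL, TSEL. -/

noncomputable section

namespace Pool.Agent.MP_35cb46_co.Fl

open Finset Pool.Agent.MP_7be75d_co Pool.Agent.MP_35cb46_co.Sq Pool.Agent.MP_35cb46_co.Nl
open Pool.Agent.MP_35cb46_co.Fl.VarL Pool.Agent.MP_35cb46_co.Fl.Asg
open scoped Classical

namespace Sel

theorem cd_le (q c u n : ℕ) :
    n * (cd q n - u) ≤ n * (c / n + 1 - u) + ((q - c) + n) := by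
  unfold cd
  have h1 : q / n ≤ c / n + ((q - c) / n + 1) := by
    calc q / n ≤ (c + (q - c)) / n := Nat.div_le_div_right (by omega)
      _ ≤ c / n + (q - c) / n + 1 := Nat.add_div_le_div_add_div_add_one _ _ _
      _ = _ := by omega
  have h2 := Nat.mul_div_le (q - c) n
  generalize q / n = a, c / n = b, (q - c) / n = e at h1 h2 ⊢
  have h3 : a + 1 - u ≤ (b + 1 - u) + (e + 1) := by omega
  have := Nat.mul_le_mul_left n h3
  rw [mul_add, mul_add, mul_one] at this
  omega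

end Sel

open Sel

theorem step : StepStmt := by
  intro α Tr sk ry J cs q E T f γ hE hT hc hf hJ hl h1 h2 h3
  have hET : 0 < E * T := Nat.mul_pos hE hT
  have key : ∃ P ⊆ Tr, ∃ c' : ℕ → ℕ, (∀ y, c' y < T) ∧ (∀ i ∈ P, cs (sk i) = c' (ry i)) ∧
      (∀ y, cnt P ry y ≤ cnt Tr ry y / (E * T) + 1) ∧
      E ^ 2 * T * ∑ k ∈ J, (cnt Tr sk k / (E * T) + 1 - cnt P sk k) ≤ 3 * f := by
    rcases Nat.eq_zero_or_pos γ with rfl | hg
    · have : Tr = ∅ := eq_empty_of_forall_notMem fun a ha => by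
        have h4 := hl (sk a) (ry a)
        have h5 : 0 < lump Tr sk ry (sk a) (ry a) :=
          card_pos.2 ⟨a, by unfold lump at *; simp only [mem_filter]; exact ⟨ha, trivial, trivial⟩⟩
        unfold cd at h4
        generalize cnt Tr ry (ry a) / (E * T) = z at h4
        omega
      subst this
      refine ⟨∅, subset_rfl, fun _ => 0, fun _ => hT, by simp, by simp [cnt], ?_⟩
      simp only [cnt, filter_empty, card_empty, Nat.zero_div, zero_add, Nat.sub_zero, sum_const,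
        smul_eq_mul, mul_one]
      nlinarith
    · obtain ⟨P, p1, c', p2, p3, p4, p5⟩ := St.stepc Tr J sk ry cs E T γ f hE hT hg
        (fun i hi => ⟨hJ i hi, hc _⟩) hf h2 fun k y => min_le_iff.1 (hl k y)
      exact ⟨P, p1, c', p2, p3, p4, p5 _ fun _ _ => le_rfl⟩
  obtain ⟨P, p1, c', p2, p3, p4, p5⟩ := key
  refine ⟨P, p1, c', p2, fun a ha => (p3 a ha).symm, p4, ?_⟩
  have h4 := sum_le_sum (s := J) fun k _ => cd_le (q k) (cnt Tr sk k) (cnt P sk k) (E * T)
  rw [sum_add_distrib, sum_add_distrib, ← mul_sum, ← mul_sum, sum_const, smul_eq_mul] at h4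
  have h5 := Nat.mul_le_mul_left E h4
  nlinarith

theorem tsel : TselStmt := by
  intro α X sk nd J cs E T f d hE hT hc hf hd h1 h2
  rcases J.eq_empty_or_nonempty with rfl | hJ
  · exact ⟨fun _ => 0, fun _ => hT, by simp⟩
  obtain ⟨w, w1, w2⟩ := draw0 J X (fun k => X.filter fun a => sk a = k) cs (fun _ => 1) nd
    (fun _ => range T) id d (fun _ => filter_subset _ _) (fun _ => zero_le_one) hd
    fun _ _ => nonempty_range_iff.2 (by omega)
  have e1 : ∀ k, cnt (range T) id (cs k) = 1 := fun k => by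
    rw [cnt_nat, card_eq_one]
    exact ⟨cs k, by ext v; simp only [mem_filter, mem_range, id, mem_singleton]
                    exact ⟨fun q => q.2, fun q => ⟨q ▸ hc k, q⟩⟩⟩
  simp only [e1, one_mul, card_range, sum_const, nsmul_eq_mul, Nat.cast_one, id, ← cnt_nat] at w2
  refine ⟨fun n => if w n < T then w n else 0, fun n => by dsimp only; split_ifs <;> omega, ?_⟩
  have e2 : ∀ k, cnt (X.filter fun a => (if w (nd a) < T then w (nd a) else 0) = cs (sk a)) sk k
      = cnt (X.filter fun a => sk a = k) (fun a => w (nd a)) (cs k) := fun k => by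
    rw [cnt_nat, cnt_nat]
    congr 1
    ext a
    simp only [mem_filter]
    constructor
    · rintro ⟨⟨a1, a2⟩, rfl⟩
      rw [if_pos (mem_range.1 (w1 a a1))] at a2
      exact ⟨⟨a1, rfl⟩, a2⟩
    · rintro ⟨⟨a1, rfl⟩, a2⟩
      exact ⟨⟨a1, by rw [if_pos (mem_range.1 (w1 a a1))]; exact a2⟩, rfl⟩
  simp only [e2]
  have hn0 : (1 : ℝ) ≤ J.card := by exact_mod_cast card_pos.2 hJ
  have hE' : (1 : ℝ) ≤ E := by exact_mod_cast hE
  have hT' : (1 : ℝ) ≤ T := by exact_mod_cast hT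
  have h1' : (J.card : ℝ) * E ^ 2 * T ≤ f := by exact_mod_cast h1
  have h2' : (J.card : ℝ) * d * E ^ 4 * T ≤ f := by exact_mod_cast h2
  have hf0 : (0 : ℝ) < f := lt_of_lt_of_le (by positivity) h1'
  have hq : ∑ k ∈ J, (cnt X sk k : ℝ) ≤ f := by
    have : ∑ k ∈ J, cnt X sk k ≤ f := by
      refine le_trans ?_ hf
      simp only [cnt_nat]
      rw [sum_card_fiberwise_eq_card_filter]
      exact card_le_card (filter_subset _ _)
    exact_mod_cast this
  set n : ℝ := (J.card : ℝ) with hn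
  set t : ℝ := f / (E ^ 2 * T * n) with ht
  have ht0 : 0 < t := by positivity
  have s1 := sum_le_sum (s := J) fun k _ => show
      ((cd (cnt X sk k) (E * T) - cnt (X.filter fun a => sk a = k) (fun a => w (nd a)) (cs k) : ℕ) : ℝ)
      ≤ 1 + (1 / (2 * t) * ((cnt (X.filter fun a => sk a = k) (fun a => w (nd a)) (cs k) : ℝ) -
        cnt X sk k * (1 / T)) ^ 2 + t / 2) by
    set u := cnt (X.filter fun a => sk a = k) (fun a => w (nd a)) (cs k)
    have a1 := absdev ((u : ℝ) - cnt X sk k * (1 / T)) t ht0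
    have a2 := neg_abs_le ((u : ℝ) - cnt X sk k * (1 / T))
    have a6 := abs_nonneg ((u : ℝ) - cnt X sk k * (1 / T))
    have a3 : (cd (cnt X sk k) (E * T) : ℝ) ≤ cnt X sk k * (1 / T) + 1 := by
      have b1 : cnt X sk k / (E * T) ≤ cnt X sk k / T :=
        Nat.div_le_div_left (Nat.le_mul_of_pos_left _ hE) hT
      have b2 : ((cnt X sk k / T : ℕ) : ℝ) ≤ cnt X sk k / T := Nat.cast_div_le
      have b3 : ((cnt X sk k / (E * T) : ℕ) : ℝ) ≤ (cnt X sk k / T : ℕ) := Nat.cast_le.2 b1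
      unfold cd
      rw [Nat.cast_add, Nat.cast_one, mul_one_div]
      linarith
    rcases le_total (cd (cnt X sk k) (E * T)) u with h | h
    · rw [Nat.sub_eq_zero_of_le h]; push_cast; linarith
    · rw [Nat.cast_sub h]; linarith
  rw [sum_add_distrib, sum_add_distrib, ← mul_sum] at s1
  simp only [sum_const, nsmul_eq_mul, mul_one] at s1
  rw [← mul_sum, ← sum_mul] at w2
  have h3 := mul_le_mul_of_nonneg_left (w2.trans (mul_le_mul_of_nonneg_left
    (mul_le_mul_of_nonneg_right hq (by positivity)) (Nat.cast_nonneg d)))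
    (show 0 ≤ 1 / (2 * t) by positivity)
  have h4 : (E : ℝ) ^ 2 * T * (1 / (2 * t) * (d * (f * (1 / T)))) = n * d * E ^ 4 * T / 2 := by
    rw [ht]; field_simp
  have h5 : (E : ℝ) ^ 2 * T * (n * (t / 2)) = f / 2 := by rw [ht]; field_simp
  have h8 : (0 : ℝ) ≤ E ^ 2 * T := by positivity
  have h9 := mul_le_mul_of_nonneg_left s1 h8
  have h10 := mul_le_mul_of_nonneg_left h3 h8
  rw [mul_add, mul_add, h5, ← Nat.cast_sum] at h9
  have h11 : (E : ℝ) ^ 2 * T * n = n * E ^ 2 * T := by ring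
  have h12 := h9.trans (show _ ≤ 2 * (f : ℝ) by linarith)
  exact_mod_cast h12

theorem qsel : QselStmt := by
  intro F f Φ Θ Z eS eB dB θB Q π ce B hQ hπ πi hf hF hB hce hΘ hZ hΦ h
  have hπ' : ∀ τ ∈ Q, π τ ∈ range F := fun τ ht => mem_range.2 (hπ τ ht)
  have easy : ∀ J ⊆ Q, J.card = f →
      (∀ c c', Θ * lump J ce (fun τ => B.ce (π τ)) c c' ≤ eS) → ∃ as, B.Ok F as ∧ ∃ J ⊆ Q,
      J.card = f ∧ (∀ c c', Θ * lump J ce (fun τ => as (B.nd (π τ))) c c' ≤ eS) ∧
      ∀ c, cnt J (fun τ => as (B.nd (π τ))) c ≤ eB := fun J hJ hc hl =>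
    ⟨B.df, fun τ ht => ⟨ce_mem ht, rfl⟩, J, hJ, hc, hl, fun c =>
      (cnt_inj (fun τ ht => hπ' τ (hJ ht)) (πi.mono (coe_subset.2 hJ)) B.ce c).trans (ce_le hB c)⟩
  rcases Nat.eq_zero_or_pos f with rfl | hf0
  · exact easy ∅ (empty_subset _) rfl fun c c' => by simp [lump]
  rcases h with ⟨-, h⟩ | ⟨z1, z2, z3⟩
  · obtain ⟨J, j1, j2⟩ := exists_subset_card_eq (s := Q) (n := f) (by omega)
    exact easy J j1 j2 fun c c' => (Nat.mul_le_mul_left _ (lump_mono j1 _ _ _ _)).trans (h c c')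
  have hQF : Q.card ≤ F := by simpa using card_le_card hQ
  have hF0 : 0 < F := by omega
  have hd : 1 ≤ dB := le_trans (card_pos.2 ⟨0, by
    unfold cnt at *; simp only [mem_filter, mem_range]; exact ⟨hF0, trivial⟩⟩) (hB.nd (B.nd 0))
  have hΦ1 : 1 ≤ Φ := Nat.pos_of_ne_zero fun e => by rw [e] at hF; omega
  have r1 : (1 : ℝ) ≤ Θ := by exact_mod_cast hΘ
  have r2 : (8 : ℝ) * Θ ≤ Z := by exact_mod_cast hZ
  have r3 : (32 : ℝ) * Φ ≤ Z := by exact_mod_cast hΦ
  have r4 : (Z : ℝ) ≤ θB := by exact_mod_cast z1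
  have r5 : (Z : ℝ) * dB ≤ eS := by exact_mod_cast z2
  have r6 : (Z : ℝ) * dB ≤ eB := by exact_mod_cast z3
  have r7 : (1 : ℝ) ≤ dB := by exact_mod_cast hd
  have r8 : (1 : ℝ) ≤ Φ := by exact_mod_cast hΦ1
  have r9 : (F : ℝ) ≤ Φ * f := by exact_mod_cast hF
  have r10 : (2 : ℝ) * f ≤ Q.card := by exact_mod_cast hf
  have r11 : ((B.cells F).card : ℝ) * eB = F := by exact_mod_cast cells_card hB
  have pS : (8 : ℝ) * Θ ≤ eS := by nlinarith
  have pS0 : (0 : ℝ) < eS := by linarith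
  have pB : (0 : ℝ) < eB := by nlinarith
  have pθ : (0 : ℝ) < θB := by linarith
  have pq : (0 : ℝ) ≤ Q.card := Nat.cast_nonneg _
  obtain ⟨as, a1, Tr, t1, t2, t3⟩ := prop F B (range F) Q ce π dB (eS / Θ) eS (eS / (2 * Θ))
    (eB / (4 * Φ)) (1 / θB) (by positivity) (by positivity) (by positivity) subset_rfl hπ' πi
    hB.nd (fun k => (cnt_mono hQ _ _).trans (hce k))
    (fun a ha y => by
      rw [blk_card hB (hπ a ha)]
      push_cast
      rw [← mul_assoc, one_div_mul_cancel pθ.ne', one_mul]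
      exact Nat.cast_le.2 (ce_le hB y))
    (by
      have b1 : (eS : ℝ) < Θ * ((eS / Θ : ℕ) + 1) := by
        exact_mod_cast Nat.lt_mul_div_succ eS hΘ
      have b2 : 1 / (θB : ℝ) * eS ≤ eS / (8 * Θ) := by
        rw [one_div_mul_eq_div]
        exact div_le_div_of_nonneg_left (by linarith) (by positivity) (by linarith)
      have b3 : (eS : ℝ) / (8 * Θ) + eS / (2 * Θ) = 5 / 8 * eS / Θ := by field_simp; ring
      have b4 : 5 / 8 * (eS : ℝ) / Θ ≤ (eS / Θ : ℕ) := by
        rw [div_le_iff₀ (by positivity)]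
        nlinarith
      linarith)
  obtain ⟨T, u1, u2, u3⟩ := trim Tr (fun a => as (B.nd (π a))) (fun _ => eB) (B.cells F)
    fun a ha => (a1 _ (hπ a (t1 ha))).1
  have u4 : ∑ y ∈ B.cells F, (cnt Tr (fun a => as (B.nd (π a))) y - eB) ≤
      ∑ y ∈ B.cells F, (cnt Q (fun a => as (B.nd (π a))) y - cnt (range F) B.ce y) :=
    sum_le_sum fun y hy => by rw [hB.ce y hy]; exact Nat.sub_le_sub_right (cnt_mono t1 _ _) _
  have c1 : (dB : ℝ) * Q.card / (4 * (eS / (2 * Θ))) ≤ Q.card / 16 := by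
    rw [div_le_iff₀ (by positivity)]
    have : (Q.card : ℝ) / 16 * (4 * (eS / (2 * Θ))) = Q.card * (eS / (8 * Θ)) := by
      field_simp; ring
    rw [this, mul_comm]
    refine mul_le_mul_of_nonneg_left ?_ pq
    rw [le_div_iff₀ (by positivity)]
    nlinarith
  have c2 : (dB : ℝ) * Q.card / (2 * (eB / (4 * Φ))) ≤ Q.card / 16 := by
    rw [div_le_iff₀ (by positivity)]
    have : (Q.card : ℝ) / 16 * (2 * (eB / (4 * Φ))) = Q.card * (eB / (32 * Φ)) := by
      field_simp; ring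
    rw [this, mul_comm]
    refine mul_le_mul_of_nonneg_left ?_ pq
    rw [le_div_iff₀ (by positivity)]
    nlinarith
  have c3 : ((B.cells F).card : ℝ) * (eB / (4 * Φ)) / 2 ≤ Q.card / 16 := by
    rw [← mul_div_assoc, r11, div_div, div_le_iff₀ (by positivity)]
    nlinarith
  have c4 : 2 * (Q.card - Tr.card + ∑ y ∈ B.cells F,
      (cnt Q (fun a => as (B.nd (π a))) y - cnt (range F) B.ce y)) ≤ Q.card := by
    have : (2 : ℝ) * ((Q.card - Tr.card + ∑ y ∈ B.cells F,
      (cnt Q (fun a => as (B.nd (π a))) y - cnt (range F) B.ce y) : ℕ) : ℝ) ≤ Q.card := by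
      linarith
    exact_mod_cast this
  obtain ⟨J, j1, j2⟩ := exists_subset_card_eq (s := T) (n := f) (by omega)
  exact ⟨as, a1, J, j1.trans (u1.trans t1), j2, fun c c' => (Nat.mul_le_mul_left _
    ((lump_mono (j1.trans u1) _ _ _ _).trans (t2 c c'))).trans (Nat.mul_div_le _ _),
    fun c => (cnt_mono j1 _ _).trans (u2 c)⟩

theorem jsel : JselStmt := by
  intro α F f Φ E T Z eS dS θS eK nK S J X sk η hJ hf hF hE hT hf1 hZ hS hK hZK h h1 h2 hk
  have hJF : f ≤ F := by simpa [hf] using card_le_card hJ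
  have hΦ1 : 1 ≤ Φ := Nat.pos_of_ne_zero fun e => by rw [e] at hF; omega
  have hXf : X.card ≤ f := hf ▸ card_le_card_of_injOn η h1 h2
  have hET : 0 < E * T := Nat.mul_pos (by omega) hT
  rcases h with ⟨-, h⟩ | ⟨z1, z2, z3⟩
  · have e1 : ∀ y, cnt X (fun a => S.df (S.nd (η a))) y ≤ cnt J S.ce y := cnt_inj h1 h2 S.ce
    refine ⟨S.df, fun τ ht => ⟨ce_mem ht, rfl⟩, X, subset_rfl, cd eS (E * T), by simp, ?_,
      fun k y => (min_le_right _ _).trans (Nat.add_le_add_right (Nat.div_le_div_right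
        ((e1 y).trans ((cnt_mono hJ _ _).trans (ce_le hS y)))) 1), ?_⟩
    · have a1 := Nat.mul_div_le eS (E * T)
      unfold cd
      generalize eS / (E * T) = g at a1
      have a0 : 2 * (Φ * (E ^ 3 * T)) ≤ Z := by
        refine le_trans ?_ hZ
        calc 2 * (Φ * (E ^ 3 * T)) = 2 * 1 * 1 * (Φ * (E ^ 3 * T)) := by ring
          _ ≤ 8 * Φ * E * (Φ * (E ^ 3 * T)) := by gcongr <;> omega
          _ = _ := by ring
      have a2 : nK * (2 * (Φ * (E ^ 3 * T))) ≤ Φ * f :=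
        (Nat.mul_le_mul_left _ (a0.trans hZK)).trans (hK.trans hF)
      have a3 : nK * (2 * (Φ * (E ^ 3 * T)) * g) ≤ Φ * f := by
        refine (Nat.mul_le_mul_left _ (le_trans ?_ h)).trans (hK.trans hF)
        refine Nat.mul_le_mul a0 (le_trans ?_ a1)
        exact Nat.le_mul_of_pos_left _ hET
      refine Nat.le_of_mul_le_mul_left (c := 2 * Φ) ?_ (by omega)
      nlinarith
    · rw [sum_eq_zero fun y _ => Nat.sub_eq_zero_of_le (e1 y)]
      simp
  have hF0 : 0 < F := by omega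
  have he : 1 ≤ eS := Nat.pos_of_ne_zero fun e => by
    have := cells_card hS
    rw [e] at this
    omega
  let X' := X.filter fun a => θS * eS ≤ Φ * E * (blk S J (S.bl (S.ce (η a)))).card
  have hX' : X' ⊆ X := filter_subset _ _
  have low : E * (X.card - X'.card) ≤ f := by
    let L := J.filter fun τ => ¬ θS * eS ≤ Φ * E * (blk S J (S.bl (S.ce τ))).card
    have l1 : (X.filter fun a => ¬ θS * eS ≤ Φ * E * (blk S J (S.bl (S.ce (η a)))).card).card
        ≤ L.card := card_le_card_of_injOn η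
      (fun a ha => mem_coe.2 (mem_filter.2 ⟨h1 a (mem_filter.1 (mem_coe.1 ha)).1,
        (mem_filter.1 (mem_coe.1 ha)).2⟩)) (h2.mono (coe_subset.2 (filter_subset _ _)))
    have l2 := card_filter_add_card_filter_not (s := X)
      fun a => θS * eS ≤ Φ * E * (blk S J (S.bl (S.ce (η a)))).card
    have l3 : Φ * E * L.card ≤ F := by
      rw [card_eq_sum_card_fiberwise (f := fun τ => S.bl (S.ce τ)) (s := L)
        (t := L.image fun τ => S.bl (S.ce τ)) fun τ ht => mem_coe.2 (mem_image_of_mem _ ht),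
        mul_sum]
      refine (sum_le_sum (g := fun z => (blk S (range F) z).card) fun z hz => ?_).trans ?_
      · obtain ⟨τ, ht, rfl⟩ := mem_image.1 hz
        obtain ⟨q1, q2⟩ := mem_filter.1 ht
        rw [blk_card hS (mem_range.1 (hJ q1))]
        exact le_trans (Nat.mul_le_mul_left _ (card_le_card
          (filter_subset_filter _ (filter_subset _ _)))) (not_le.1 q2).le
      · unfold blk
        rw [sum_card_fiberwise_eq_card_filter]
        simpa using card_le_card (filter_subset _ (range F))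
    have l4 : X.card - X'.card ≤ L.card := by
      have : X'.card = (X.filter fun a =>
        θS * eS ≤ Φ * E * (blk S J (S.bl (S.ce (η a)))).card).card := rfl
      omega
    refine Nat.le_of_mul_le_mul_left (c := Φ) ?_ hΦ1
    calc Φ * (E * (X.card - X'.card)) ≤ Φ * (E * L.card) := by gcongr
      _ ≤ Φ * f := by rw [← mul_assoc]; exact l3.trans hF
  have r1 : (2 : ℝ) ≤ E := by exact_mod_cast hE
  have r2 : (1 : ℝ) ≤ T := by exact_mod_cast hT
  have r3 : (1 : ℝ) ≤ Φ := by exact_mod_cast hΦ1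
  have r4 : (8 : ℝ) * Φ ^ 2 * E ^ 4 * T ≤ Z := by exact_mod_cast hZ
  have r5 : (Z : ℝ) ≤ θS := by exact_mod_cast z1
  have r6 : (Z : ℝ) * dS ≤ eK := by exact_mod_cast z2
  have r7 : (Z : ℝ) * dS ≤ eS := by exact_mod_cast z3
  have r8 : (Z : ℝ) ≤ eK := by exact_mod_cast hZK
  have r9 : (F : ℝ) ≤ Φ * f := by exact_mod_cast hF
  have r10 : (1 : ℝ) ≤ eS := by exact_mod_cast he
  have r11 : ((S.cells F).card : ℝ) * eS = F := by exact_mod_cast cells_card hS
  have r12 : (X'.card : ℝ) ≤ f := by exact_mod_cast (card_le_card hX').trans hXf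
  have r13 : (0 : ℝ) ≤ dS := Nat.cast_nonneg _
  have r14 : (0 : ℝ) ≤ f := Nat.cast_nonneg _
  obtain ⟨A, hA⟩ : ∃ A : ℝ, A = Φ * E ^ 3 * T := ⟨_, rfl⟩
  obtain ⟨B, hB⟩ : ∃ B : ℝ, B = Φ * E := ⟨_, rfl⟩
  have pB : E ≤ B := by rw [hB]; nlinarith
  have pA : B ≤ A := by
    rw [hA, hB]
    have : (1 : ℝ) ≤ E ^ 2 * T := by nlinarith
    calc (Φ : ℝ) * E = Φ * E * 1 := by ring
      _ ≤ Φ * E * (E ^ 2 * T) := by gcongr
      _ = _ := by ring
  have pZ : 8 * (A * B) ≤ Z := by
    rw [hA, hB]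
    exact le_trans (le_of_eq (by ring)) r4
  have pB0 : 0 < B := by linarith
  have pA0 : 0 < A := by linarith
  have pAB : 2 * A ≤ A * B := by nlinarith
  have pK : (0 : ℝ) < eK := by linarith
  have pθ : (0 : ℝ) < θS := by linarith
  have pS : (0 : ℝ) < eS := by linarith
  have hA0 : 0 < Φ * E ^ 3 * T := by positivity
  obtain ⟨as, a1, Tr, t1, t2, t3⟩ := prop F S J X' sk η dS (eK / (Φ * E ^ 3 * T)) eK
    (eK / (2 * A)) (eS / B) (B / θS) (by positivity) (by positivity) (by positivity) hJ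
    (fun a ha => h1 a (hX' ha)) (h2.mono (coe_subset.2 hX')) hS.nd
    (fun k => (cnt_mono hX' _ _).trans (hk k))
    (fun a ha y => by
      have b1 : (cnt J S.ce y : ℝ) ≤ eS := Nat.cast_le.2 ((cnt_mono hJ _ _).trans (ce_le hS y))
      have b2 : (θS : ℝ) * eS ≤ Φ * E * (blk S J (S.bl (S.ce (η a)))).card := by
        exact_mod_cast (mem_filter.1 ha).2
      rw [div_mul_eq_mul_div, le_div_iff₀ pθ, hB, mul_comm]
      exact (mul_le_mul_of_nonneg_left b1 pθ.le).trans b2)
    (by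
      have b1 : (eK : ℝ) < A * ((eK / (Φ * E ^ 3 * T) : ℕ) + 1) := by
        rw [hA]; exact_mod_cast Nat.lt_mul_div_succ eK hA0
      have b2 : B / θS * eK ≤ eK / (8 * A) := by
        rw [div_mul_eq_mul_div, div_le_div_iff₀ pθ (by positivity)]
        exact le_trans (le_of_eq (by ring)) (mul_le_mul_of_nonneg_left (pZ.trans r5) pK.le)
      have b3 : (eK : ℝ) / (8 * A) + eK / (2 * A) = 5 / 8 * eK / A := by field_simp; ring
      have b4 : 5 / 8 * (eK : ℝ) / A ≤ (eK / (Φ * E ^ 3 * T) : ℕ) := by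
        rw [div_le_iff₀ pA0]
        rw [mul_add, mul_one, mul_comm] at b1
        linarith
      linarith)
  have c0 : (dS : ℝ) * X'.card ≤ dS * f := by gcongr
  have c1 : (dS : ℝ) * X'.card / (4 * (eK / (2 * A))) ≤ f / (4 * B) := by
    rw [div_le_div_iff₀ (by positivity) (by positivity)]
    have : (f : ℝ) * (4 * (eK / (2 * A))) = f * (2 * eK) / A := by field_simp; ring
    rw [this, le_div_iff₀ pA0]
    calc (dS : ℝ) * X'.card * (4 * B) * A ≤ dS * f * (4 * B) * A := by gcongr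
      _ = f * (8 * (A * B) * dS) / 2 := by ring
      _ ≤ f * (Z * dS) / 2 := by gcongr
      _ ≤ f * eK / 2 := by gcongr
      _ ≤ _ := by linarith [mul_nonneg r14 pK.le]
  have c2 : (dS : ℝ) * X'.card / (2 * (eS / B)) ≤ f / (4 * B) := by
    rw [div_le_div_iff₀ (by positivity) (by positivity)]
    have : (f : ℝ) * (2 * (eS / B)) = f * (2 * eS) / B := by field_simp
    rw [this, le_div_iff₀ pB0]
    calc (dS : ℝ) * X'.card * (4 * B) * B ≤ dS * f * (4 * B) * A := by gcongr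
      _ = f * (8 * (A * B) * dS) / 2 := by ring
      _ ≤ f * (Z * dS) / 2 := by gcongr
      _ ≤ f * eS / 2 := by gcongr
      _ ≤ _ := by linarith [mul_nonneg r14 pS.le]
  have c3 : ((S.cells F).card : ℝ) * (eS / B) / 2 ≤ f / (2 * E) := by
    rw [← mul_div_assoc, r11, div_div, div_le_div_iff₀ (by positivity) (by positivity), hB]
    exact (mul_le_mul_of_nonneg_right r9 (by positivity)).trans (le_of_eq (by ring))
  have c4 : (f : ℝ) / (4 * B) ≤ f / (4 * E) :=
    div_le_div_of_nonneg_left r14 (by positivity) (by linarith)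
  have c5 : (E : ℝ) * (f / (4 * E) + f / (4 * E) + f / (2 * E)) = f := by field_simp; ring
  have c6 := mul_le_mul_of_nonneg_left (t3.trans (add_le_add (add_le_add (c1.trans c4)
    (c2.trans c4)) c3)) (Nat.cast_nonneg (α := ℝ) E)
  rw [c5] at c6
  have c7 : E * (X'.card - Tr.card + ∑ y ∈ S.cells F,
      (cnt X' (fun a => as (S.nd (η a))) y - cnt J S.ce y)) ≤ f := by exact_mod_cast c6
  rw [mul_add] at c7
  refine ⟨as, a1, Tr, t1.trans hX', _, ?_, ?_, fun k y => (min_le_left _ _).trans (t2 k y), ?_⟩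
  · have d1 := card_sdiff_add_card_eq_card (t1.trans hX')
    have d2 : (X \ Tr).card ≤ (X.card - X'.card) + (X'.card - Tr.card) := by omega
    have d3 := Nat.mul_le_mul_left E d2
    rw [mul_add] at d3
    omega
  · have d1 := Nat.mul_div_le eK (Φ * E ^ 3 * T)
    refine Nat.le_of_mul_le_mul_left (c := Φ) ?_ hΦ1
    calc _ = nK * (Φ * E ^ 3 * T * (eK / (Φ * E ^ 3 * T))) := by ring
      _ ≤ nK * eK := Nat.mul_le_mul_left _ d1
      _ ≤ _ := hK.trans hF
  · have d1 := Nat.mul_le_mul_left E (sum_le_sum (s := S.cells F) fun y _ =>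
      Nat.sub_le_sub_right (cnt_mono t1 (fun a => as (S.nd (η a))) y) (cnt J S.ce y))
    omega

end Pool.Agent.MP_35cb46_co.Fl
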