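import Pool.Agent.MP_35cb46_co.fl.USpec
import Pool.Agent.MP_35cb46_co.fl.Base1

/-! PROJECT FL: row FILL. -/

noncomputable section

namespace Pool.Agent.MP_35cb46_co.Fl

open Finset Pool.Agent.MP_7be75d_co Pool.Agent.MP_35cb46_co.Sq Pool.Agent.MP_35cb46_co.Nl
open scoped Classical

namespace Fill

theorem arith {B M Θ F z Q n U e : ℕ} (hB : 2 ≤ B) (hM : M ≤ B) (hΘ : 2 ≤ Θ)
    (hΘM : 100 * Θ ≤ M ^ 2) (hz : F ≤ B * z) (hU : U ≤ B * e) (hn : n * U ≤ B * F)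
    (hQ : B ^ 18 ≤ Q) (n1 : 1 ≤ n) (t1 : 1 ≤ U / Q) :
    F / B ≤ z + 1 ∧ B * (F / B) ≤ F ∧ 1 ≤ M ∧ 1 ≤ U / (32 * B ^ 3) ∧
      2 * (U / (32 * B ^ 3)) ≤ e / Θ ∧ 8 * e ≤ e / Θ * M ^ 2 ∧
      16 * M * (U / (32 * B ^ 3)) * (B * n) ≤ B * (F / B) ∧
      U * (U / Q) ≤ (U / (32 * B ^ 3)) ^ 2 ∧ F ≤ 2 * (B * (F / B)) ∧ 0 < F := by
  have B0 : 0 < B := by omega
  have Q0 : 0 < Q := lt_of_lt_of_le (by positivity) hQ
  have hQU : Q ≤ U := by simpa using (Nat.le_div_iff_mul_le Q0).1 t1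
  have p12 : 4096 ≤ B ^ 12 := by simpa using Nat.pow_le_pow_left hB 12
  have p15 : 32 ≤ B ^ 15 := le_trans (by norm_num) (Nat.pow_le_pow_left hB 15)
  have p16 : 2 ≤ B ^ 16 := le_trans (by norm_num) (Nat.pow_le_pow_left hB 16)
  have D0 : 0 < 32 * B ^ 3 := by positivity
  have hD : 32 * B ^ 3 ≤ U := by
    calc 32 * B ^ 3 ≤ B ^ 15 * B ^ 3 := Nat.mul_le_mul_right _ p15
      _ = B ^ 18 := by ring
      _ ≤ U := hQ.trans hQU
  have hF : 2 * B ≤ F := by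
    refine Nat.le_of_mul_le_mul_left ?_ B0
    calc B * (2 * B) ≤ B * (B ^ 16 * B) := Nat.mul_le_mul_left _ (Nat.mul_le_mul_right _ p16)
      _ = 1 * B ^ 18 := by ring
      _ ≤ n * U := Nat.mul_le_mul n1 (hQ.trans hQU)
      _ ≤ B * F := hn
  have w1 : B * (F / B) ≤ F := Nat.mul_div_le F B
  have w2 : F < B * (F / B) + B := by
    have h1 := Nat.div_add_mod F B
    have h2 := Nat.mod_lt F B0
    omega
  have s1 : 1 ≤ U / (32 * B ^ 3) := (Nat.le_div_iff_mul_le D0).2 (by simpa using hD)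
  have s2 : 32 * B ^ 3 * (U / (32 * B ^ 3)) ≤ U := Nat.mul_div_le _ _
  have s3 : U < 32 * B ^ 3 * (U / (32 * B ^ 3)) + 32 * B ^ 3 := by
    have h1 := Nat.div_add_mod U (32 * B ^ 3)
    have h2 := Nat.mod_lt U D0
    omega
  have t2 : Q * (U / Q) ≤ U := Nat.mul_div_le _ _
  generalize U / (32 * B ^ 3) = s at s1 s2 s3 ⊢
  generalize U / Q = t at t2 ⊢
  have M2 : M ^ 2 ≤ B ^ 2 := Nat.pow_le_pow_left hM 2
  have e1 : 32 * B ^ 2 * s ≤ e := by
    refine Nat.le_of_mul_le_mul_left ?_ B0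
    calc B * (32 * B ^ 2 * s) = 32 * B ^ 3 * s := by ring
      _ ≤ B * e := s2.trans hU
  have c1 : 2 * s ≤ e / Θ := by
    refine (Nat.le_div_iff_mul_le (by omega)).2 ?_
    calc 2 * s * Θ ≤ 2 * s * (16 * B ^ 2) := Nat.mul_le_mul_left _ (by omega)
      _ = 32 * B ^ 2 * s := by ring
      _ ≤ e := e1
  have c2 : e < Θ * (e / Θ) + Θ := by
    have h1 := Nat.div_add_mod e Θ
    have h2 := Nat.mod_lt e (by omega : 0 < Θ)
    omega
  generalize e / Θ = cap at c1 c2 ⊢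
  have f1 : 32 * B ^ 2 * s * n ≤ F := by
    refine Nat.le_of_mul_le_mul_left ?_ B0
    calc B * (32 * B ^ 2 * s * n) = n * (32 * B ^ 3 * s) := by ring
      _ ≤ n * U := Nat.mul_le_mul_left _ s2
      _ ≤ B * F := hn
  refine ⟨?_, w1, ?_, s1, c1, ?_, ?_, ?_, by omega, by omega⟩
  · exact (Nat.div_le_of_le_mul hz).trans (Nat.le_succ z)
  · rcases Nat.eq_zero_or_pos M with rfl | h
    · omega
    · exact h
  · have h1 : Θ * 1 ≤ Θ * cap := Nat.mul_le_mul_left _ (by omega)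
    have h2 : cap * (100 * Θ) ≤ cap * M ^ 2 := Nat.mul_le_mul_left _ hΘM
    have h3 : cap * (100 * Θ) = 100 * (Θ * cap) := by ring
    omega
  · have h1 : 16 * M * s * (B * n) ≤ 16 * B * s * (B * n) :=
      Nat.mul_le_mul_right _ (Nat.mul_le_mul_right _ (Nat.mul_le_mul_left _ hM))
    have h2 : 32 * B ^ 2 * s * n = 2 * (16 * B * s * (B * n)) := by ring
    omega
  · refine Nat.le_of_mul_le_mul_left ?_ Q0
    have h1 : 32 * B ^ 3 * 1 ≤ 32 * B ^ 3 * s := Nat.mul_le_mul_left _ s1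
    have h2 : U ≤ 64 * B ^ 3 * s := by
      have : 64 * B ^ 3 * s = 2 * (32 * B ^ 3 * s) := by ring
      omega
    calc Q * (U * t) = U * (Q * t) := by ring
      _ ≤ U * U := Nat.mul_le_mul_left _ t2
      _ ≤ (64 * B ^ 3 * s) * (64 * B ^ 3 * s) := Nat.mul_le_mul h2 h2
      _ = 4096 * B ^ 6 * s ^ 2 := by ring
      _ ≤ B ^ 12 * B ^ 6 * s ^ 2 := Nat.mul_le_mul_right _ (Nat.mul_le_mul_right _ p12)
      _ = B ^ 18 * s ^ 2 := by ring
      _ ≤ Q * s ^ 2 := Nat.mul_le_mul_right _ hQ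

variable {V : Type} {G : SimpleGraph V} {Amb Rt : Finset V} {N F₀ : ℕ} {h : HD V}

theorem pos {Reg E E' : Finset V} {n thr z : ℕ} (H : ¬ Poor G Reg E E' n thr z) :
    1 ≤ n ∧ 1 ≤ thr := by
  by_contra hc
  refine H fun R₁ R₂ J₁ J₂ A₁ I₁ O₁ A₂ I₂ O₂ S y c₁ c₂ _ _ _ _ _ j1 _ _ _ hS _ _ _ hl => ?_
  rcases S.eq_empty_or_nonempty with rfl | ⟨x, hx⟩
  · simp
  · exfalso
    refine hc ⟨(card_pos.2 ⟨_, (hS x hx).1⟩).trans_le j1, le_trans ?_ (hl (c₁ x) (c₂ x))⟩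
    unfold lump
    exact card_pos.2 ⟨x, by simp [hx]⟩

theorem regd (H : Hub G Amb Rt N F₀ h) {X Y : Finset ℕ} (hX : X ⊆ range N) (hY : Y ⊆ range N)
    (hd : Disjoint X Y) : Disjoint (h.reg X) (h.reg Y) := by
  rw [disjoint_left]
  intro v h1 h2
  obtain ⟨s, hs, v1⟩ := mem_biUnion.1 h1
  obtain ⟨t, ht, v2⟩ := mem_biUnion.1 h2
  exact disjoint_left.1 (H.disj s (mem_range.1 (hX hs)) t (mem_range.1 (hY ht))
    fun e => disjoint_left.1 hd hs (e ▸ ht)) v1 v2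

theorem rsub (H : Hub G Amb Rt N F₀ h) {X : Finset ℕ} (hX : X ⊆ range N) {s : ℕ} (hs : s ∈ X) :
    h.R s ⊆ h.reg X :=
  (H.rsub s (mem_range.1 (hX hs))).trans (subset_biUnion_of_mem h.Rg hs)

theorem regm {X Y : Finset ℕ} (hXY : X ⊆ Y) : h.reg X ⊆ h.reg Y :=
  biUnion_subset_biUnion_of_subset_left _ hXY

theorem cntle {F e d θ : ℕ} {S : SD} (H : Shape F S e d θ) (c : ℕ) : cnt (range F) S.ce c ≤ e := by
  by_cases hc : c ∈ S.cells F
  · exact (H.ce c hc).le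
  · have : cnt (range F) S.ce c = 0 := by
      unfold cnt
      simp only [card_eq_zero, filter_eq_empty_iff]
      exact fun τ hτ e => hc (mem_image.2 ⟨τ, hτ, e⟩)
    omega

end Fill

theorem fill : JnmStmt → MergeStmt → AbundStmt → FillStmt := by
  intro hJ hMe hA V G Amb Rt N F₀ h L kS kB Wc Cl B M Θ f z Q n j H KS KB dU hW dS dB hCl dCl hj
    hθ θ2 Pi1 B2 MB Θ2 ΘM hf hz hy hn hQ
  have h1 : ∀ a, ∃ (s s' : ℕ) (E E' : Finset V), a < B → s ∈ Cl a ∧ s' ∈ Cl a ∧ s ≠ s' ∧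
      Dock G h F₀ (Cl a) s E ∧ Dock G h F₀ (Cl a) s' E' ∧ E.card ≤ F₀ ∧ E'.card ≤ F₀ ∧
      ¬ Poor G (h.reg (((Cl a).erase s).erase s')) E E' n (L.yB j / Q) z := by
    intro a
    by_cases ha : a < B
    · by_contra hc
      refine (hCl a ha).2 fun s hs s' hs' hne E E' d1 d2 c1 c2 => ?_
      by_contra hp
      exact hc ⟨s, s', E, E', fun _ => ⟨hs, hs', hne, d1, d2, c1, c2, hp⟩⟩
    · exact ⟨0, 0, ∅, ∅, fun h => absurd h ha⟩
  choose s s' E E' h1 using h1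
  have hCN : ∀ a < B, Cl a ⊆ range N := fun a ha => (hCl a ha).1.trans hW
  have SN : kS.U ⊆ range N := KS.sub.trans (erase_subset _ _)
  have BN : kB.U ⊆ range N := KB.sub.trans (erase_subset _ _)
  have same : ∀ a < B, ∀ b < B, ∀ x ∈ Cl a, x ∈ Cl b → a = b := by
    intro a ha b hb x xa xb
    by_contra hne
    exact disjoint_left.1 (dCl a ha b hb hne) xa xb
  obtain ⟨n1, t1⟩ := Fill.pos (h1 0 (by omega)).2.2.2.2.2.2.2
  have hU : L.yB j ≤ B * kS.eS j := by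
    refine Nat.le_of_mul_le_mul_right ?_ Pi1
    calc L.yB j * L.Pi ≤ B * L.yS j := hy
      _ ≤ B * (L.Pi * kS.eS j) := Nat.mul_le_mul_left _ (KS.sK j hj).1
      _ = B * kS.eS j * L.Pi := by ring
  have hu : kB.eB j ≤ L.yB j := by
    rcases (KB.bK j hj).2 with h2 | h2
    · exact h2.2
    · omega
  obtain ⟨a1, a2, a3, a4, a5, a6, a7, a8, a9, a10⟩ := Fill.arith B2 MB Θ2 ΘM hz hU hn hQ n1 t1
  have sub3 : ∀ a, ((Cl a).erase (s a)).erase (s' a) ⊆ Cl a :=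
    fun a => (erase_subset _ _).trans (erase_subset _ _)
  have hR := hMe V G (fun a => h.reg (((Cl a).erase (s a)).erase (s' a))) E E' B n (L.yB j / Q) z
    (L.F / B) (fun a ha b hb hab => Fill.regd H ((sub3 a).trans (hCN a ha))
      ((sub3 b).trans (hCN b hb)) ((dCl a ha b hb hab).mono (sub3 a) (sub3 b)))
    (fun a ha => (h1 a ha).2.2.2.2.2.2.2) a1
  have J1 := (hJ V G Amb Rt N F₀ h kS.U kS.s2 ((range L.F).image kS.sb) (range B) s Cl E H SN
    (mem_range.1 (SN KS.sE.m2)) KS.sE.d2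
    (fun a ha b hb e => same a (mem_range.1 ha) b (mem_range.1 hb) _ (h1 a (mem_range.1 ha)).1
      (e ▸ (h1 b (mem_range.1 hb)).1))
    (fun a ha => by
      have ha := mem_range.1 ha
      obtain ⟨b1, -, -, b4, -, b6, -⟩ := h1 a ha
      exact ⟨mem_range.1 (hCN a ha b1),
        fun e => disjoint_left.1 dS ((hCl a ha).1 b1) (e ▸ KS.sE.m2), hCN a ha, b4, b6⟩)).1
  have J2 := (hJ V G Amb Rt N F₀ h kB.U kB.b1 ((range L.F).image kB.ba) (range B) s' Cl E' H BN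
    (mem_range.1 (BN KB.bE.m1)) KB.bE.d1
    (fun a ha b hb e => same a (mem_range.1 ha) b (mem_range.1 hb) _ (h1 a (mem_range.1 ha)).2.1
      (e ▸ (h1 b (mem_range.1 hb)).2.1))
    (fun a ha => by
      have ha := mem_range.1 ha
      obtain ⟨-, b2, -, -, b5, -, b7, -⟩ := h1 a ha
      exact ⟨mem_range.1 (hCN a ha b2),
        fun e => disjoint_left.1 dB ((hCl a ha).1 b2) (e ▸ KB.bE.m1), hCN a ha, b5, b7⟩)).2
  -- the three sets of classes
  have m1 : ∀ x ∈ (range B).image s, ∃ a < B, x = s a ∧ x ∈ Cl a ∧ x ∈ Wc := by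
    intro x hx
    obtain ⟨a, ha, rfl⟩ := mem_image.1 hx
    have ha := mem_range.1 ha
    exact ⟨a, ha, rfl, (h1 a ha).1, (hCl a ha).1 (h1 a ha).1⟩
  have m2 : ∀ x ∈ (range B).image s', ∃ a < B, x = s' a ∧ x ∈ Cl a ∧ x ∈ Wc := by
    intro x hx
    obtain ⟨a, ha, rfl⟩ := mem_image.1 hx
    have ha := mem_range.1 ha
    exact ⟨a, ha, rfl, (h1 a ha).2.1, (hCl a ha).1 (h1 a ha).2.1⟩
  have m3 : ∀ x ∈ (range B).biUnion fun a => ((Cl a).erase (s a)).erase (s' a),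
      ∃ a < B, x ≠ s a ∧ x ≠ s' a ∧ x ∈ Cl a ∧ x ∈ Wc := by
    intro x hx
    obtain ⟨a, ha, hx⟩ := mem_biUnion.1 hx
    have ha := mem_range.1 ha
    obtain ⟨x1, hx⟩ := mem_erase.1 hx
    obtain ⟨x2, hx⟩ := mem_erase.1 hx
    exact ⟨a, ha, x2, x1, hx, (hCl a ha).1 hx⟩
  have c1 : insert kS.s2 ((range B).image s) ⊆ range N :=
    insert_subset (SN KS.sE.m2) fun x hx => (m1 x hx).elim fun _ q => hW q.2.2.2
  have c2 : insert kB.b1 ((range B).image s') ⊆ range N :=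
    insert_subset (BN KB.bE.m1) fun x hx => (m2 x hx).elim fun _ q => hW q.2.2.2
  have c3 : ((range B).biUnion fun a => ((Cl a).erase (s a)).erase (s' a)) ⊆ Wc :=
    fun x hx => (m3 x hx).elim fun _ q => q.2.2.2.2
  have r1 : (h.R kS.s2 ∪ (range B).biUnion fun g => h.R (s g)) ⊆
      h.reg (insert kS.s2 ((range B).image s)) :=
    union_subset (Fill.rsub H c1 (mem_insert_self _ _)) (biUnion_subset.2 fun a ha =>
      Fill.rsub H c1 (mem_insert_of_mem (mem_image_of_mem _ ha)))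
  have r2 : (h.R kB.b1 ∪ (range B).biUnion fun g => h.R (s' g)) ⊆
      h.reg (insert kB.b1 ((range B).image s')) :=
    union_subset (Fill.rsub H c2 (mem_insert_self _ _)) (biUnion_subset.2 fun a ha =>
      Fill.rsub H c2 (mem_insert_of_mem (mem_image_of_mem _ ha)))
  have r3 : ((range B).biUnion fun a => h.reg (((Cl a).erase (s a)).erase (s' a))) ⊆
      h.reg ((range B).biUnion fun a => ((Cl a).erase (s a)).erase (s' a)) :=
    biUnion_subset.2 fun a ha =>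
      Fill.regm (subset_biUnion_of_mem (fun a => ((Cl a).erase (s a)).erase (s' a)) ha)
  have d12 : Disjoint (insert kS.s2 ((range B).image s)) (insert kB.b1 ((range B).image s')) := by
    rw [disjoint_left]
    intro x x1 x2
    rcases mem_insert.1 x1 with e1 | x1 <;> rcases mem_insert.1 x2 with e2 | x2
    · exact disjoint_left.1 dU (e1 ▸ KS.sE.m2) (e2 ▸ KB.bE.m1)
    · exact (m2 x x2).elim fun _ q => disjoint_left.1 dS q.2.2.2 (e1 ▸ KS.sE.m2)
    · exact (m1 x x1).elim fun _ q => disjoint_left.1 dB q.2.2.2 (e2 ▸ KB.bE.m1)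
    · obtain ⟨a, ha, e1, xa, -⟩ := m1 x x1
      obtain ⟨b, hb, e2, xb, -⟩ := m2 x x2
      obtain rfl := same a ha b hb x xa xb
      exact (h1 a ha).2.2.1 (e1.symm.trans e2)
  have d13 : Disjoint (insert kS.s2 ((range B).image s))
      ((range B).biUnion fun a => ((Cl a).erase (s a)).erase (s' a)) := by
    rw [disjoint_left]
    intro x x1 x2
    obtain ⟨b, hb, e2, -, xb, xW⟩ := m3 x x2
    rcases mem_insert.1 x1 with e1 | x1
    · exact disjoint_left.1 dS xW (e1 ▸ KS.sE.m2)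
    · obtain ⟨a, ha, e1, xa, -⟩ := m1 x x1
      obtain rfl := same a ha b hb x xa xb
      exact e2 e1
  have d23 : Disjoint (insert kB.b1 ((range B).image s'))
      ((range B).biUnion fun a => ((Cl a).erase (s a)).erase (s' a)) := by
    rw [disjoint_left]
    intro x x1 x2
    obtain ⟨b, hb, -, e2, xb, xW⟩ := m3 x x2
    rcases mem_insert.1 x1 with e1 | x1
    · exact disjoint_left.1 dB xW (e1 ▸ KB.bE.m1)
    · obtain ⟨a, ha, e1, xa, -⟩ := m2 x x1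
      obtain rfl := same a ha b hb x xa xb
      exact e2 e1
  have w3 : h.reg Wc ⊆ wreg h kS kB Wc := subset_union_right
  obtain ⟨Q', π, q1, q2, q3⟩ := hA V (ℕ × ℕ) G (wreg h kS kB Wc) _ _ _ _ _ L.F kS.sb kB.ba
    (kS.S j).ce (kB.B j).ce _ _ _ M _ _ (kS.eS j) (L.yB j)
    (union_subset (subset_union_left.trans subset_union_left) (biUnion_subset.2 fun a ha =>
      (Fill.rsub H hW ((hCl a (mem_range.1 ha)).1 (h1 a (mem_range.1 ha)).1)).trans w3))
    (union_subset (subset_union_right.trans subset_union_left) (biUnion_subset.2 fun a ha =>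
      (Fill.rsub H hW ((hCl a (mem_range.1 ha)).1 (h1 a (mem_range.1 ha)).2.1)).trans w3))
    ((r3.trans (Fill.regm c3)).trans w3) ((Fill.regd H c1 c2 d12).mono r1 r2)
    ((Fill.regd H c1 (c3.trans hW) d13).mono r1 r3) ((Fill.regd H c2 (c3.trans hW) d23).mono r2 r3)
    hR (KS.sS.one j (by omega)).pass.inj_right (KB.bS.one j (by omega)).pass.inj_left J1 J2 a2
    (Fill.cntle (KS.sH j hj.le)) (fun c => (Fill.cntle (KB.bH j hj.le) c).trans hu) a3 a4 a5 a6 a7 a8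
  refine ⟨Q', π, q1, ?_, fun _ c c' => ?_⟩
  · by_contra hc
    have e1 : M * (100 * ((L.m + 2) * f)) ≤ M * (64 * Q'.card) := by
      calc M * (100 * ((L.m + 2) * f)) = 100 * M * (L.m + 2) * f := by ring
        _ ≤ L.F := hf
        _ ≤ 2 * (32 * M * Q'.card) := by omega
        _ = M * (64 * Q'.card) := by ring
    have e2 := Nat.le_of_mul_le_mul_left e1 a3
    have e3 : (L.m + 2) * f = (L.m + 1) * f + f := by ring
    have e4 : Q'.card = 0 := by omega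
    rw [e4] at q2
    omega
  · exact (Nat.mul_le_mul_left _ (q3 c c')).trans (Nat.mul_div_le _ _)

end Pool.Agent.MP_35cb46_co.Fl
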