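import Pool.Agent.MP_35cb46_co.fl.USpec
import Pool.Agent.MP_35cb46_co.fl.Base3

/-! PROJECT FL: a junction between one dock and a family of docks. -/

noncomputable section

namespace Pool.Agent.MP_35cb46_co.Fl

open Finset Pool.Agent.MP_7be75d_co Pool.Agent.MP_35cb46_co.Sq Pool.Agent.MP_35cb46_co.Nl
open scoped Classical

namespace Jnm

variable {V : Type} {G : SimpleGraph V} {H E E' A B : Finset V}

theorem tsymm (h : Touch G A B) : Touch G B A := by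
  obtain ⟨a, ha, b, hb, e⟩ := h
  exact ⟨b, hb, a, ha, e.symm⟩

/-- Junctions are symmetric. -/
theorem symm (J : Jn G H E E') : Jn G H E' E := by
  intro I hI O hO hc
  obtain ⟨g, P, h1, h2, h3, h4⟩ := J O hO I hI hc.symm
  have hs : ∀ y, ∃ x, y ∈ I → x ∈ O ∧ g x = y := fun y => by
    by_cases hy : y ∈ I
    · obtain ⟨x, hx, ex⟩ := surjOn_of_injOn_of_card_le g h1 h2 hc.le hy
      exact ⟨x, fun _ => ⟨hx, ex⟩⟩
    · exact ⟨y, fun k => absurd k hy⟩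
  choose k hk using hs
  have ki : Set.InjOn k I := fun a ha b hb e => by
    rw [← (hk a ha).2, ← (hk b hb).2, e]
  refine ⟨k, fun y => P (k y), fun y hy => (hk y hy).1, ki,
    ⟨fun y hy => h3.sub _ (hk y hy).1, fun y hy => h3.conn _ (hk y hy).1,
      fun a ha b hb n => h3.disj _ (hk a ha).1 _ (hk b hb).1 fun e => n (ki ha hb e)⟩,
    fun y hy => ⟨?_, tsymm (h4 _ (hk y hy).1).1⟩⟩
  have := tsymm (h4 _ (hk y hy).1).2
  rwa [(hk y hy).2] at this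

end Jnm

open Base3

theorem jnm : JnmStmt := by
  intro V G Amb Rt N F h U s E Γ t U' E' H hU hs D ti hΓ
  suffices k : Jn G (h.R s ∪ Γ.biUnion fun g => h.R (t g)) (Γ.biUnion E') E from ⟨Jnm.symm k, k⟩
  intro I hI O hO hc
  obtain ⟨μ, m1, m2⟩ := dock D hU
  have h1 : ∀ x, ∃ g, x ∈ I → g ∈ Γ ∧ x ∈ E' g := fun x => by
    by_cases hx : x ∈ I
    · obtain ⟨g, hg⟩ := mem_biUnion.1 (hI hx)
      exact ⟨g, fun _ => hg⟩
    · exact ⟨0, fun k => absurd k hx⟩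
  choose γ hγ using h1
  have h2 : ∀ g, ∃ (ν : V → V) (σ : V → ℕ) (P : V → Finset V), g ∈ Γ →
      (∀ x ∈ E' g, G.Adj x (ν x) ∧ σ x < F) ∧ Set.InjOn σ (E' g) ∧
      Lk G (h.R (t g)) (E' g) ν (fun x => h.pt (t g) s (σ x)) P := fun g => by
    by_cases hg : g ∈ Γ
    · obtain ⟨a1, -, a3, a4, a5⟩ := hΓ g hg
      obtain ⟨ν, n1, n2⟩ := dock a4 a3
      obtain ⟨σ, P, b1, b2, b3⟩ := wire H a1 hs (fun x hx => (n2 x hx).2) n1 a5
      exact ⟨ν, σ, P, fun _ => ⟨fun x hx => ⟨(n2 x hx).1, b1 x hx⟩, b2, b3⟩⟩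
    · exact ⟨id, fun _ => 0, fun _ => ∅, fun k => absurd k hg⟩
  choose ν σ P hP using h2
  have tl : ∀ x ∈ I, t (γ x) < N := fun x hx => (hΓ _ (hγ x hx).1).1
  have tn : ∀ x ∈ I, t (γ x) ≠ s := fun x hx => (hΓ _ (hγ x hx).1).2.1
  have sl : ∀ x ∈ I, σ (γ x) x < F := fun x hx => ((hP _ (hγ x hx).1).1 x (hγ x hx).2).2
  have lk : ∀ x ∈ I, Lk G (h.R (t (γ x))) (E' (γ x)) (ν (γ x))
      (fun y => h.pt (t (γ x)) s (σ (γ x) y)) (P (γ x)) := fun x hx => (hP _ (hγ x hx).1).2.2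
  have L : Lk G (Γ.biUnion fun g => h.R (t g)) I (fun x => ν (γ x) x)
      (fun x => h.pt (t (γ x)) s (σ (γ x) x)) fun x => P (γ x) x := by
    refine ⟨⟨fun x hx => ((lk x hx).fam.sub x (hγ x hx).2).trans
      (subset_biUnion_of_mem (fun g => h.R (t g)) (hγ x hx).1),
      fun x hx => (lk x hx).fam.conn x (hγ x hx).2, fun x hx y hy n => ?_⟩,
      fun x hx => (lk x hx).st x (hγ x hx).2, fun x hx => (lk x hx).en x (hγ x hx).2⟩
    by_cases e : γ x = γ y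
    · have := (lk x hx).fam.disj x (hγ x hx).2 y (e ▸ (hγ y hy).2) n
      simpa only [e] using this
    · exact (rdisj H (tl x hx) (tl y hy) fun k => e (ti (hγ x hx).1 (hγ y hy).1 k)).mono
        ((lk x hx).fam.sub x (hγ x hx).2) ((lk y hy).fam.sub y (hγ y hy).2)
  obtain ⟨g, P', b1, b2, b3⟩ := link (H.cel s hs) id (S := I) (T := O) (e := μ)
    (f := fun x => h.pt s (t (γ x)) (σ (γ x) x)) (fun x hx => port (tl x hx) (sl x hx))
    (fun x hx => (m2 x (hO hx)).2)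
    (fun x hx y hy e => by
      obtain ⟨e1, e2⟩ := pinj H hs (tl x hx) (tl y hy) (sl x hx) (sl y hy) e
      have e3 : γ x = γ y := ti (hγ x hx).1 (hγ y hy).1 e1
      exact (hP _ (hγ x hx).1).2.1 (hγ x hx).2 (e3 ▸ (hγ y hy).2) (by rw [e2, e3]))
    (m1.mono hO) hc
  have dj : Disjoint (Γ.biUnion fun g => h.R (t g)) (h.R s) :=
    (disjoint_biUnion_left _ _ _).2 fun g hg => rdisj H (hΓ g hg).1 hs (hΓ g hg).2.1
  rw [union_comm]
  exact ⟨g, _, b1, b2, touch (μ := fun x => ν (γ x) x) (Base3.cat L b3 dj fun x hx =>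
    H.adj _ (tl x hx) s hs (tn x hx) _ (sl x hx))
    (fun x hx => ((hP _ (hγ x hx).1).1 x (hγ x hx).2).1) fun x hx => (m2 _ (hO (b1 x hx))).1⟩

end Pool.Agent.MP_35cb46_co.Fl
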