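import Pool.Agent.MP_35cb46_co.fl.USpec
import Pool.Agent.MP_35cb46_co.fl.Base1

/-! PROJECT FL: the kits. -/

noncomputable section

namespace Pool.Agent.MP_35cb46_co.Fl

open Finset Pool.Agent.MP_7be75d_co Pool.Agent.MP_35cb46_co.Sq Pool.Agent.MP_35cb46_co.Nl
open scoped Classical

namespace KitF

variable {V : Type} {G : SimpleGraph V} {h : HD V}

theorem reg_mono (h : HD V) {U U' : Finset ℕ} (hU : U ⊆ U') : h.reg U ⊆ h.reg U' :=
  biUnion_subset_biUnion_of_subset_left _ hU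

theorem stg_mono {R R' : Finset V} {F : ℕ} {a b : ℕ → V} {S : SD} (k : Stg G R F a b S)
    (hR : R ⊆ R') : Stg G R' F a b S :=
  ⟨k.pass.mono hR subset_rfl, k.ne, fun as ha => (k.flex as ha).imp fun _ q =>
    q.mono hR subset_rfl (fun _ _ => subset_rfl) fun _ _ => subset_rfl⟩

theorem ser_mono {R R' : Finset V} {F n : ℕ} {r : ℕ → ℕ → Prop} {a b : ℕ → V} {S : ℕ → SD}
    (k : Ser G R F n r a b S) (hR : R ⊆ R') : Ser G R' F n r a b S := by
  refine ⟨fun j hj => stg_mono (k.one j hj) hR, fun j hj j' hj' hr => ?_⟩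
  obtain ⟨R₁, R₂, x, y, h1, h2, h3⟩ := k.two j hj j' hj' hr
  exact ⟨R₁, R₂, x, y, h1.trans hR, h2.trans hR, h3⟩

theorem ser_rev {R : Finset V} {F m : ℕ} {a b : ℕ → V} {S : ℕ → SD}
    (k : Ser G R F (m + 1) (· < ·) a b S) :
    Ser G R F (m + 1) (· > ·) a b fun j => S (m - j) :=
  ⟨fun j _ => k.one (m - j) (by omega), fun j hj j' _ hr =>
    k.two (m - j) (by omega) (m - j') (by omega) (by
      have hr' : j' < j := hr
      show m - j < m - j'
      omega)⟩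

theorem ends_mono {F₀ F s s' : ℕ} {U U' : Finset ℕ} {a b : ℕ → V}
    (k : Ends G h F₀ F U s s' a b) (hU : U ⊆ U') : Ends G h F₀ F U' s s' a b :=
  ⟨hU k.m1, hU k.m2, k.ne, k.d1.mono hU subset_rfl, k.d2.mono hU subset_rfl⟩

theorem top_mono {N F₀ F T d s : ℕ} {U U' : Finset ℕ} {cl nd : ℕ → ℕ} {a : ℕ → V}
    (k : Top G h N F₀ F₀ T d U s cl a nd) (hF : F ≤ F₀) (hU : U ⊆ U') :
    Top G h N F₀ F T d U' s cl a nd := by
  have hr : range F ⊆ range F₀ := range_subset_range.2 hF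
  refine ⟨hU k.m1, fun t ht => hU (k.m2 t ht), k.inj.mono (coe_subset.2 hr),
    k.dock.mono hU (image_subset_image hr),
    fun n => le_trans ?_ (k.load n), fun as ha => ?_⟩
  · unfold cnt
    refine card_le_card fun τ hτ => ?_
    simp only [mem_filter] at hτ ⊢
    exact ⟨hr hτ.1, hτ.2⟩
  obtain ⟨A, hA⟩ := k.flex as ha
  exact ⟨A, hA.mono (reg_mono h (erase_subset_erase s hU)) subset_rfl
    (fun _ _ => image_subset_image (filter_subset_filter _ hr))
    fun _ _ => image_subset_image (product_subset_product_left (sdiff_subset_sdiff subset_rfl hU))⟩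

theorem erase_two (x y : ℕ) : ((Icc x y).erase x).erase y = Ioo x y := by
  ext t
  simp only [mem_erase, mem_Icc, mem_Ioo]
  omega

/-- One half of a kit; the position `i` holds the unit stage. -/
theorem half (ho : OneStmt) (hs : SerStmt) {c : ℕ} (hc : Cell c) [Fintype V] {Amb Rt : Finset V}
    {N F₀ Λ B θ F m W z : ℕ} (i : ℕ) (y : ℕ → ℕ) (hd : Deg G univ 6)
    (hV : 6 * Fintype.card V < 2 ^ Λ) (hh : Hub G Amb Rt N F₀ h) (hB : Λ + 2 ≤ B) (hθ : θ ≤ B)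
    (p1 : P2 θ) (p2 : P2 F) (hW : 2 ≤ W) (hc1 : B ^ c ≤ W) (hc2 : B ^ c * F ≤ F₀) (hF : F ≤ F₀)
    (hN : z + (m + 1) * W < N) (hy : ∀ p ≤ m, p ≠ i → B ^ c * B ≤ y p ∧ y p ≤ F) :
    ∃ (a b : ℕ → V) (S : ℕ → SD) (e d θ' : ℕ → ℕ),
      Ends G h F₀ F (Icc z (z + (m + 1) * W)) z (z + (m + 1) * W) a b ∧
      Ser G (h.reg (Ioo z (z + (m + 1) * W))) F (m + 1) (· < ·) a b S ∧
      ∀ p ≤ m, Shape F (S p) (e p) (d p) (θ' p) ∧
        (p ≠ i → Kind (y p) (B ^ c) B θ (e p) (d p) (θ' p)) ∧ (p = i → e p = 1 ∧ θ' p = 1) := by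
  refine hs V G Amb Rt N F₀ h F m W z (fun p e d θ' =>
    (p ≠ i → Kind (y p) (B ^ c) B θ e d θ') ∧ (p = i → e = 1 ∧ θ' = 1)) hh (by omega) hN
    fun p hp => ?_
  have e1 : (p + 1) * W = p * W + W := by ring
  have e2 : (p + 1) * W ≤ (m + 1) * W := Nat.mul_le_mul_right W (by omega)
  have hU : Icc (z + p * W) (z + (p + 1) * W) ⊆ range N := fun t ht => by
    rw [mem_Icc] at ht
    rw [mem_range]
    omega
  have m1 : z + p * W ∈ Icc (z + p * W) (z + (p + 1) * W) := mem_Icc.2 ⟨le_rfl, by omega⟩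
  have m2 : z + (p + 1) * W ∈ Icc (z + p * W) (z + (p + 1) * W) := mem_Icc.2 ⟨by omega, le_rfl⟩
  by_cases hi : p = i
  · obtain ⟨a, b, S, k1, k2, k3⟩ := ho V G Amb Rt N F₀ h F _ _ _ (z + p * W + 1) hh hU m1 m2
      (mem_Icc.2 ⟨by omega, by omega⟩) (by omega) (by omega) (by omega) hF
    rw [erase_two] at k2
    exact ⟨a, b, S, 1, 1, 1, k1, k2, k3, fun q => (q hi).elim, fun _ => ⟨rfl, rfl⟩⟩
  · obtain ⟨a, b, S, e, d, θ', k1, k2, k3, k4⟩ := hc V G Amb Rt N F₀ h Λ B θ F (y p) _ _ _ hd hV hh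
      hU m1 m2 (by omega) hB hθ p1 p2 (by rw [Nat.card_Icc]; omega) hc2 (hy p hp hi).1
      (hy p hp hi).2
    rw [erase_two] at k2
    exact ⟨a, b, S, e, d, θ', k1, k2, k3, fun _ => k4, fun q => (hi q).elim⟩

end KitF

open KitF in
theorem kitOf : OneStmt → SerStmt → KitStmt := by
  intro ho hs c hc V _ G Amb Rt N F₀ h Λ NT L hd hV hh ht b1 b2 b3 p1 p2 ei eo hF hy hN
  have hPo : 1 ≤ L.Po := eo ▸ Nat.one_le_pow _ _ (by omega)
  have hio : L.Pi ≤ L.Po := by rw [ei, eo]; exact Nat.pow_le_pow_left b2 c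
  have hF' : L.F ≤ F₀ := le_trans (Nat.le_mul_of_pos_left _ hPo) hF
  obtain ⟨W, hW⟩ : ∃ W, W = L.Po + 2 := ⟨_, rfl⟩
  obtain ⟨X, hX⟩ : ∃ X, X = 2 * (L.m + 1) * (L.Po + 3) := ⟨_, rfl⟩
  obtain ⟨Y, hY⟩ : ∃ Y, Y = (L.m + 1) * W := ⟨_, rfl⟩
  obtain ⟨D, hD⟩ : ∃ D, D = L.T + 2 := ⟨_, rfl⟩
  have hYX : Y < X := by rw [hY, hX, hW]; nlinarith
  have hY2 : 2 ≤ Y := by rw [hY, hW]; nlinarith
  rw [← hX, ← hD] at hN
  have step : ∀ (Z a b : ℕ), a < b → a * Z + Z ≤ b * Z := fun Z a b hab => by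
    have := Nat.mul_le_mul_right Z (Nat.succ_le_of_lt hab)
    rwa [Nat.succ_mul] at this
  have memU : ∀ j t, t ∈ tg L.T j ∪ Icc (1 + NT * D + j * X) (1 + NT * D + j * X + Y) →
      (1 + j * D ≤ t ∧ t < 1 + (j * D + D)) ∨
        (1 + NT * D + j * X ≤ t ∧ t ≤ 1 + NT * D + j * X + Y) := fun j t hm => by
    rcases mem_union.1 hm with q | q
    · unfold tg at q
      rw [← hD, mem_Ico, Nat.succ_mul] at q
      exact Or.inl q
    · exact Or.inr (mem_Icc.1 q)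
  have key : ∀ j, ∃ k : KD V, j < NT → Kit G h N F₀ L k ∧
      k.U = tg L.T j ∪ Icc (1 + NT * D + j * X) (1 + NT * D + j * X + Y) := fun j => by
    by_cases hj : j < NT
    swap
    · exact ⟨⟨∅, 0, 0, 0, 0, 0, h.pt 0 0, h.pt 0 0, h.pt 0 0, h.pt 0 0, h.pt 0 0,
        fun _ => ⟨id, id, id⟩, fun _ => ⟨id, id, id⟩, id, id, id, id, id, id, id, id⟩,
        fun q => (hj q).elim⟩
    have s1 := step X j NT hj
    have s2 := step D j NT hj
    obtain ⟨z, hz⟩ : ∃ z, z = 1 + NT * D + j * X := ⟨_, rfl⟩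
    have hzN : z + (L.m + 1) * W < N := by omega
    obtain ⟨s, cl, ta, tn, top⟩ := ht j hj
    obtain ⟨sa, sb, S, eS, dS, θS, u1, u2, u3⟩ := half ho hs hc (m := L.m) (W := W) (z := z) L.m L.yS
      hd hV hh b1 b3 p1 p2 (by omega) (by omega)
      (le_trans (Nat.mul_le_mul_right _ (ei ▸ hio)) hF) hF' hzN
      fun p hp hn => ei ▸ ⟨(hy p (by omega)).1, (hy p (by omega)).2.1⟩
    obtain ⟨ba, bb, B, eB, dB, θB, v1, v2, v3⟩ := half ho hs hc (m := L.m) (W := W) (z := z) 0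
      (fun p => L.yB (L.m - p)) hd hV hh (b1.trans b2) (b3.trans b2) p1 p2 (by omega) (by omega)
      (eo ▸ hF) hF' hzN
      fun p hp hn => eo ▸ (hy (L.m - p) (by omega)).2.2
    rw [← hY] at u1 u2 v1 v2
    have hsub : Icc z (z + Y) ⊆ tg L.T j ∪ Icc z (z + Y) := subset_union_right
    have hreg : h.reg (Ioo z (z + Y)) ⊆
        h.reg (((tg L.T j ∪ Icc z (z + Y)).erase z).erase (z + Y)) := by
      rw [← erase_two]
      exact reg_mono h (erase_subset_erase _ (erase_subset_erase _ hsub))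
    refine ⟨⟨tg L.T j ∪ Icc z (z + Y), z, z + Y, z, z + Y, s, sa, sb, ba, bb, ta, S,
      fun p => B (L.m - p), eS, dS, θS, fun p => eB (L.m - p), fun p => dB (L.m - p),
      fun p => θB (L.m - p), cl, tn⟩, fun _ => ⟨⟨fun t hm => ?_, ?_, ends_mono u1 hsub,
      ser_mono u2 hreg, fun p hp => (u3 p hp).1, fun p hp => ?_, (u3 _ le_rfl).2.2 rfl,
      ends_mono v1 hsub, ser_mono (ser_rev v2) hreg, fun p _ => (v3 (L.m - p) (by omega)).1,
      fun p hp => ?_, (v3 (L.m - L.m) (by omega)).2.2 (by omega),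
      top_mono top hF' subset_union_left⟩, hz ▸ rfl⟩⟩
    · have := memU j t (hz ▸ hm)
      rw [mem_erase, mem_range]
      omega
    · refine le_trans ?_ (card_le_card hsub)
      rw [Nat.card_Icc]
      omega
    · exact ei ▸ (u3 p hp.le).2.1 hp.ne
    · have q := (v3 (L.m - p) (by omega)).2.1 (by omega)
      rw [show L.m - (L.m - p) = p by omega, ← eo] at q
      exact q
  choose k hk using key
  refine ⟨k, fun a ha => (hk a ha).1, fun a ha b hb hab => ?_⟩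
  rw [(hk a ha).2, (hk b hb).2, disjoint_left]
  intro t h1 h2
  have q1 := memU a t h1
  have q2 := memU b t h2
  have s1 := step D a NT ha
  have s2 := step D b NT hb
  rcases lt_or_gt_of_ne hab with q | q
  · have s3 := step D a b q
    have s4 := step X a b q
    omega
  · have s3 := step D b a q
    have s4 := step X b a q
    omega

end Pool.Agent.MP_35cb46_co.Fl
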