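import Pool.Agent.MP_35cb46_co.fl.USpec

/-! PROJECT FL, row MERGE: rich regions in parallel, and cleaning of the pool. -/

noncomputable section

namespace Pool.Agent.MP_35cb46_co.Fl

open Finset Pool.Agent.MP_7be75d_co Pool.Agent.MP_35cb46_co.Sq Pool.Agent.MP_35cb46_co.Nl
open scoped Classical

namespace Merge

theorem cnt_le {α κ κ' : Type} {S S' : Finset α} {c : α → κ} {c' : α → κ'} {k : κ} {k' : κ'}
    (h : ∀ x ∈ S, c x = k → x ∈ S' ∧ c' x = k') : cnt S c k ≤ cnt S' c' k' :=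
  card_le_card fun x hx => mem_filter.2 (h x (mem_filter.1 hx).1 (mem_filter.1 hx).2)

theorem cnt_le' {α κ : Type} {S : Finset α} {c : α → κ} {k : κ} {m : ℕ}
    (h : ∀ x ∈ S, c x ≠ k) : cnt S c k ≤ m :=
  le_trans (le_of_eq (card_eq_zero.2 (filter_eq_empty_iff.2 h))) (Nat.zero_le _)

theorem lump_le {α β γ β' γ' : Type} {S S' : Finset α} {f : α → β} {g : α → γ} {f' : α → β'}
    {g' : α → γ'} {b : β} {c : γ} {b' : β'} {c' : γ'}
    (h : ∀ x ∈ S, f x = b ∧ g x = c → x ∈ S' ∧ f' x = b' ∧ g' x = c') :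
    lump S f g b c ≤ lump S' f' g' b' c' :=
  card_le_card fun x hx => mem_filter.2 (h x (mem_filter.1 hx).1 (mem_filter.1 hx).2)

theorem lump_le' {α β γ : Type} {S : Finset α} {f : α → β} {g : α → γ} {b : β} {c : γ} {m : ℕ}
    (h : ∀ x ∈ S, f x ≠ b) : lump S f g b c ≤ m :=
  le_trans (le_of_eq (card_eq_zero.2 (filter_eq_empty_iff.2 fun x hx k => h x hx k.1)))
    (Nat.zero_le _)

/-- A region that is not poor is rich. -/
theorem rch_of_not_poor {V : Type} {G : SimpleGraph V} {Reg E E' : Finset V} {n thr z w : ℕ}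
    (h : ¬ Poor G Reg E E' n thr z) (hw : w ≤ z + 1) : Rch ℕ G Reg E E' n thr w := by
  by_contra hc
  apply h
  intro R₁ R₂ J₁ J₂ A₁ I₁ O₁ A₂ I₂ O₂ S y c₁ c₂ h1 h2 h3 h4 h5 h6 h7 h8 h9 h10 h11 h12 h13 h14
  by_contra hz
  obtain ⟨S', hS, hcard⟩ := exists_subset_card_eq (s := S) (n := w) (by omega)
  exact hc ⟨R₁, R₂, J₁, J₂, A₁, I₁, O₁, A₂, I₂, O₂, S', y, c₁, c₂, h1, h2, h3, h4, h5, h6, h7, h8,
    h9, fun x hx => h10 x (hS hx), h11.mono (coe_subset.2 hS),
    fun c => le_trans (cnt_le fun x hx k => ⟨hS hx, k⟩) (h12 c),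
    fun c => le_trans (cnt_le fun x hx k => ⟨hS hx, k⟩) (h13 c),
    fun c c' => le_trans (lump_le fun x hx k => ⟨hS hx, k⟩) (h14 c c'), hcard⟩

/-- The indices `(a, c)` with `a < g` and `c ∈ J a`. -/
def idx (g : ℕ) (J : ℕ → Finset ℕ) : Finset (ℕ × ℕ) := (range g).biUnion fun a => {a} ×ˢ J a

theorem mem_idx {g : ℕ} {J : ℕ → Finset ℕ} {p : ℕ × ℕ} : p ∈ idx g J ↔ p.1 < g ∧ p.2 ∈ J p.1 := by
  simp only [idx, mem_biUnion, mem_range, mem_product, mem_singleton]
  constructor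
  · rintro ⟨a, h1, h2, h3⟩
    rw [h2]; exact ⟨h1, h3⟩
  · rintro ⟨h1, h2⟩
    exact ⟨p.1, h1, rfl, h2⟩

theorem card_idx {g n : ℕ} {J : ℕ → Finset ℕ} (h : ∀ a < g, (J a).card ≤ n) :
    (idx g J).card ≤ g * n := by
  have := card_biUnion_le_card_mul (range g) (fun a => ({a} : Finset ℕ) ×ˢ J a) n fun a ha => by
    rw [card_product, card_singleton, one_mul]; exact h a (mem_range.1 ha)
  rwa [card_range] at this

theorem lay_idx {V : Type} {G : SimpleGraph V} {g : ℕ} {Reg R : ℕ → Finset V}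
    {J : ℕ → Finset ℕ} {A I O : ℕ → ℕ → Finset V}
    (hd : ∀ a < g, ∀ b < g, a ≠ b → Disjoint (Reg a) (Reg b)) (hR : ∀ a < g, R a ⊆ Reg a)
    (h : ∀ a < g, Lay G (R a) (J a) (A a) (I a) (O a)) :
    Lay G ((range g).biUnion R) (idx g J) (fun p => A p.1 p.2) (fun p => I p.1 p.2)
      fun p => O p.1 p.2 := by
  refine ⟨fun p hp => ?_, fun p hp q hq hne => ?_, fun p hp => ?_⟩
  · obtain ⟨h1, h2⟩ := mem_idx.1 hp
    exact ((h _ h1).sub _ h2).trans (subset_biUnion_of_mem R (mem_range.2 h1))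
  · obtain ⟨a, c⟩ := p
    obtain ⟨b, d⟩ := q
    obtain ⟨h1, h2⟩ := mem_idx.1 hp
    obtain ⟨h3, h4⟩ := mem_idx.1 hq
    by_cases e : a = b
    · subst e
      exact (h _ h1).disj _ h2 _ h4 fun k => hne (Prod.ext rfl k)
    · exact (hd a h1 b h3 e).mono (((h _ h1).sub _ h2).trans (hR _ h1))
        (((h _ h3).sub _ h4).trans (hR _ h3))
  · obtain ⟨h1, h2⟩ := mem_idx.1 hp
    exact (h _ h1).cel _ h2

theorem inner (R : Finset ℕ → Prop) (P : Finset ℕ) (r n : ℕ) :
    (∃ T : ℕ → Finset ℕ, (∀ g < n, T g ⊆ P ∧ (T g).card ≤ r ∧ R (T g)) ∧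
      ∀ g < n, ∀ g' < n, g ≠ g' → Disjoint (T g) (T g')) ∨
    ∃ D : Finset ℕ, D.card ≤ n * r ∧ ∀ X ⊆ P \ D, X.card ≤ r → ¬ R X := by
  induction n with
  | zero => exact Or.inl ⟨fun _ => ∅, fun g hg => absurd hg (by omega),
      fun g hg => absurd hg (by omega)⟩
  | succ n ih =>
    rcases ih with ⟨T, h1, h2⟩ | ⟨D, h1, h2⟩
    · by_cases hx : ∃ X ⊆ P \ (range n).biUnion T, X.card ≤ r ∧ R X
      · obtain ⟨X, x1, x2, x3⟩ := hx
        have hX : ∀ g < n, Disjoint (T g) X := fun g hg => disjoint_left.2 fun v hv hv' =>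
          (mem_sdiff.1 (x1 hv')).2 (mem_biUnion.2 ⟨g, mem_range.2 hg, hv⟩)
        refine Or.inl ⟨fun g => if g = n then X else T g, fun g hg => ?_, fun g hg g' hg' e => ?_⟩
        · by_cases k : g = n
          · simp only [k, if_true]
            exact ⟨x1.trans sdiff_subset, x2, x3⟩
          · simp only [k, if_false]
            exact h1 g (by omega)
        · by_cases k : g = n
          · have k' : g' ≠ n := fun q => e (k.trans q.symm)
            simp only [k, k', if_true, if_false]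
            exact (hX g' (by omega)).symm
          · by_cases k' : g' = n
            · simp only [k, k', if_true, if_false]
              exact hX g (by omega)
            · simp only [k, k', if_false]
              exact h2 g (by omega) g' (by omega) e
      · refine Or.inr ⟨(range n).biUnion T, ?_, fun X x1 x2 x3 => hx ⟨X, x1, x2, x3⟩⟩
        have := card_biUnion_le_card_mul (range n) T r fun g hg => (h1 g (mem_range.1 hg)).2.1
        rw [card_range] at this
        exact this.trans (Nat.mul_le_mul_right _ (Nat.le_succ n))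
    · exact Or.inr ⟨D, h1.trans (Nat.mul_le_mul_right _ (Nat.le_succ n)), h2⟩

theorem inner' (R : Finset ℕ → Prop) (P : Finset ℕ) (r n : ℕ) :
    ∃ (D : Finset ℕ) (T : ℕ → Finset ℕ), D.card ≤ n * r ∧ (∀ g < n, T g ⊆ P ∧ T g ⊆ D) ∧
      (∀ g < n, ∀ g' < n, g ≠ g' → Disjoint (T g) (T g')) ∧
      ((∀ g < n, R (T g)) ∨ ∀ X ⊆ P \ D, X.card ≤ r → ¬ R X) := by
  rcases inner R P r n with ⟨T, h1, h2⟩ | ⟨D, h1, h2⟩
  · refine ⟨(range n).biUnion T, T, ?_,
      fun g hg => ⟨(h1 g hg).1, subset_biUnion_of_mem T (mem_range.2 hg)⟩, h2,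
      Or.inl fun g hg => (h1 g hg).2.2⟩
    have := card_biUnion_le_card_mul (range n) T r fun g hg => (h1 g (mem_range.1 hg)).2.1
    rwa [card_range] at this
  · exact ⟨D, fun _ => ∅, h1, fun _ _ => ⟨empty_subset _, empty_subset _⟩,
      fun _ _ _ _ _ => disjoint_empty_left _, Or.inr h2⟩

end Merge

open Merge

theorem merge : MergeStmt := by
  intro V G Reg E E' g n thr z w hd hp hw
  have H : ∀ a, a < g → Rch ℕ G (Reg a) (E a) (E' a) n thr w := fun a ha =>
    rch_of_not_poor (hp a ha) hw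
  unfold Rch at H
  have : Nonempty (V → V) := ⟨id⟩
  choose! R₁ R₂ J₁ J₂ A₁ I₁ O₁ A₂ I₂ O₂ S y c₁ c₂ h1 h2 h3 h4 h5 h6 h7 h8 h9 h10 h11 h12 h13 h14
    h15 using H
  have hS : ∀ a < g, ∀ x ∈ S a, x ∈ Reg a := fun a ha x hx =>
    h1 a ha ((h4 a ha).sub _ (h10 a ha x hx).1 (((h4 a ha).cel _ (h10 a ha x hx).1).2.1
      (h10 a ha x hx).2.1))
  have hy : ∀ a < g, ∀ x ∈ S a, y a x ∈ Reg a := fun a ha x hx =>
    h2 a ha ((h5 a ha).sub _ (h10 a ha x hx).2.2.1 (((h5 a ha).cel _ (h10 a ha x hx).2.2.1).1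
      (h10 a ha x hx).2.2.2.1))
  have ho : ∀ x : V, ∃ a, x ∈ (range g).biUnion S → a < g ∧ x ∈ S a := fun x => by
    by_cases hx : x ∈ (range g).biUnion S
    · obtain ⟨a, ha, hx'⟩ := mem_biUnion.1 hx
      exact ⟨a, fun _ => ⟨mem_range.1 ha, hx'⟩⟩
    · exact ⟨0, fun k => absurd k hx⟩
  choose ow how using ho
  refine ⟨(range g).biUnion R₁, (range g).biUnion R₂, idx g J₁, idx g J₂,
    fun p => A₁ p.1 p.2, fun p => I₁ p.1 p.2, fun p => O₁ p.1 p.2, fun p => A₂ p.1 p.2,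
    fun p => I₂ p.1 p.2, fun p => O₂ p.1 p.2, (range g).biUnion S, fun x => y (ow x) x,
    fun x => (ow x, c₁ (ow x) x), fun x => (ow x, c₂ (ow x) x),
    biUnion_mono fun a ha => h1 a (mem_range.1 ha), biUnion_mono fun a ha => h2 a (mem_range.1 ha),
    ?_, lay_idx hd h1 h4, lay_idx hd h2 h5, card_idx h6, card_idx h7, ?_, ?_, ?_, ?_, ?_, ?_, ?_,
    ?_⟩
  · refine disjoint_left.2 fun v hv hv' => ?_
    obtain ⟨a, ha, k⟩ := mem_biUnion.1 hv
    obtain ⟨b, hb, k'⟩ := mem_biUnion.1 hv'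
    rw [mem_range] at ha hb
    by_cases e : a = b
    · subst e
      exact disjoint_left.1 (h3 a ha) k k'
    · exact disjoint_left.1 (hd a ha b hb e) (h1 a ha k) (h2 b hb k')
  · intro p hp'
    obtain ⟨k1, k2⟩ := mem_idx.1 hp'
    exact (h8 _ k1 _ k2).trans (subset_biUnion_of_mem E (mem_range.2 k1))
  · intro p hp'
    obtain ⟨k1, k2⟩ := mem_idx.1 hp'
    exact (h9 _ k1 _ k2).trans (subset_biUnion_of_mem E' (mem_range.2 k1))
  · intro x hx
    obtain ⟨k1, k2⟩ := how x hx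
    obtain ⟨q1, q2, q3, q4, q5⟩ := h10 _ k1 x k2
    exact ⟨mem_idx.2 ⟨k1, q1⟩, q2, mem_idx.2 ⟨k1, q3⟩, q4, q5⟩
  · intro x hx x' hx' e
    obtain ⟨k1, k2⟩ := how x hx
    obtain ⟨k3, k4⟩ := how x' hx'
    have e' : y (ow x) x = y (ow x') x' := e
    by_cases q : ow x = ow x'
    · rw [← q] at e' k4
      exact h11 _ k1 k2 k4 e'
    · exact absurd (e' ▸ hy _ k1 x k2 : y (ow x') x' ∈ Reg (ow x))
        (disjoint_right.1 (hd _ k1 _ k3 q) (hy _ k3 x' k4))
  · rintro ⟨a, c⟩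
    by_cases ha : a < g
    · refine le_trans (cnt_le fun x k1 k2 => ?_) (h12 a ha c)
      obtain ⟨rfl, k3⟩ := Prod.mk.inj k2
      exact ⟨(how x k1).2, k3⟩
    · exact cnt_le' fun x hx k => ha ((Prod.mk.inj k).1 ▸ (how x hx).1)
  · rintro ⟨a, c⟩
    by_cases ha : a < g
    · refine le_trans (cnt_le fun x k1 k2 => ?_) (h13 a ha c)
      obtain ⟨rfl, k3⟩ := Prod.mk.inj k2
      exact ⟨(how x k1).2, k3⟩
    · exact cnt_le' fun x hx k => ha ((Prod.mk.inj k).1 ▸ (how x hx).1)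
  · rintro ⟨a, c⟩ ⟨b, d⟩
    by_cases ha : a < g
    · refine le_trans (lump_le fun x k1 ⟨k2, k4⟩ => ?_) (h14 a ha c d)
      obtain ⟨rfl, k3⟩ := Prod.mk.inj k2
      obtain ⟨_, k5⟩ := Prod.mk.inj k4
      exact ⟨(how x k1).2, k3, k5⟩
    · exact lump_le' fun x hx k => ha ((Prod.mk.inj k).1 ▸ (how x hx).1)
  · rw [card_biUnion, sum_congr rfl fun a ha => h15 a (mem_range.1 ha), sum_const, card_range,
      smul_eq_mul]
    intro a ha b hb e
    have ha' : a < g := mem_range.1 ha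
    have hb' : b < g := mem_range.1 hb
    exact disjoint_left.2 fun v hv hv' =>
      disjoint_left.1 (hd a ha' b hb' e) (hS a ha' v hv) (hS b hb' v hv')

theorem clean : CleanStmt := by
  intro NK m r n Rc
  induction m with
  | zero =>
    exact ⟨range NK, fun _ _ => ∅, subset_rfl, by simp, fun j hj => absurd hj (by omega),
      fun j hj => absurd hj (by omega), fun j hj => absurd hj (by omega)⟩
  | succ m ih =>
    obtain ⟨P, T, h1, h2, h3, h4, h5⟩ := ih
    obtain ⟨D, T', k1, k2, k3, k4⟩ := inner' (Rc m) P r n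
    have hx : ∀ j < m, ∀ g < n, ∀ g' < n, Disjoint (T j g) (T' g') := fun j hj g hg g' hg' =>
      disjoint_left.2 fun v hv hv' => (mem_sdiff.1 (h3 j hj g hg hv)).2 ((k2 g' hg').1 hv')
    refine ⟨P \ D, fun j => if j = m then T' else T j, sdiff_subset.trans h1, ?_, ?_, ?_, ?_⟩
    · have := le_card_sdiff D P
      rw [Nat.succ_mul]
      omega
    · intro j hj g hg
      by_cases e : j = m
      · simp only [e, if_true]
        intro v hv
        exact mem_sdiff.2 ⟨h1 ((k2 g hg).1 hv), fun q => (mem_sdiff.1 q).2 ((k2 g hg).2 hv)⟩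
      · simp only [e, if_false]
        exact (h3 j (by omega) g hg).trans (sdiff_subset_sdiff subset_rfl sdiff_subset)
    · intro j hj g hg j' hj' g' hg' hne
      by_cases e : j = m
      · by_cases e' : j' = m
        · simp only [e, e', if_true]
          exact k3 g hg g' hg' fun q => hne (Prod.ext (e.trans e'.symm) q)
        · simp only [e, e', if_true, if_false]
          exact (hx j' (by omega) g' hg' g hg).symm
      · by_cases e' : j' = m
        · simp only [e, e', if_true, if_false]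
          exact hx j (by omega) g hg g' hg'
        · simp only [e, e', if_false]
          exact h4 j (by omega) g hg j' (by omega) g' hg' hne
    · intro j hj
      by_cases e : j = m
      · simp only [e, if_true]
        exact k4
      · simp only [e, if_false]
        exact (h5 j (by omega)).imp id fun q X hX => q X (hX.trans sdiff_subset)

end Pool.Agent.MP_35cb46_co.Fl
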