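import Pool.Agent.MP_35cb46_co.fl.BSpec

/-! PROJECT FL: statements of the rows for the parts KIT and UNIT. -/

noncomputable section

namespace Pool.Agent.MP_35cb46_co.Fl

open Finset Pool.Agent.MP_7be75d_co Pool.Agent.MP_35cb46_co.Sq Pool.Agent.MP_35cb46_co.Nl
open scoped Classical

/-- Row PERM: the tracks of a stage are renumbered. -/
def PermStmt : Prop := ∀ (V : Type) (G : SimpleGraph V) (Reg : Finset V) (F : ℕ) (a b : ℕ → V)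
  (S : SD) (e d θ : ℕ) (π : ℕ → ℕ), (∀ τ < F, π τ < F) → Set.InjOn π ↑(range F) →
  Stg G Reg F a b S → Shape F S e d θ →
  Stg G Reg F (fun τ => a (π τ)) (fun τ => b (π τ)) ⟨fun τ => S.nd (π τ), S.df, S.bl⟩ ∧
    Shape F ⟨fun τ => S.nd (π τ), S.df, S.bl⟩ e d θ

/-- Row PERM: the unit stage. -/
def OneStmt : Prop := ∀ (V : Type) (G : SimpleGraph V) (Amb Rt : Finset V) (N F₀ : ℕ) (h : HD V)
  (F : ℕ) (U : Finset ℕ) (s s' w : ℕ), Hub G Amb Rt N F₀ h → U ⊆ range N → s ∈ U → s' ∈ U →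
  w ∈ U → s ≠ s' → w ≠ s → w ≠ s' → F ≤ F₀ →
  ∃ (a b : ℕ → V) (S : SD), Ends G h F₀ F U s s' a b ∧
    Stg G (h.reg ((U.erase s).erase s')) F a b S ∧ Shape F S 1 1 1

/-- Row SER: stages in consecutive intervals of classes are put in series. -/
def SerStmt : Prop := ∀ (V : Type) (G : SimpleGraph V) (Amb Rt : Finset V) (N F₀ : ℕ) (h : HD V)
  (F k W z : ℕ) (Φ : ℕ → ℕ → ℕ → ℕ → Prop), Hub G Amb Rt N F₀ h → 1 ≤ W → z + (k + 1) * W < N →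
  (∀ p ≤ k, ∃ (a b : ℕ → V) (S : SD) (e d θ : ℕ),
    Ends G h F₀ F (Icc (z + p * W) (z + (p + 1) * W)) (z + p * W) (z + (p + 1) * W) a b ∧
    Stg G (h.reg (Ioo (z + p * W) (z + (p + 1) * W))) F a b S ∧ Shape F S e d θ ∧ Φ p e d θ) →
  ∃ (a b : ℕ → V) (S : ℕ → SD) (e d θ : ℕ → ℕ),
    Ends G h F₀ F (Icc z (z + (k + 1) * W)) z (z + (k + 1) * W) a b ∧
    Ser G (h.reg (Ioo z (z + (k + 1) * W))) F (k + 1) (· < ·) a b S ∧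
    ∀ p ≤ k, Shape F (S p) (e p) (d p) (θ p) ∧ Φ p (e p) (d p) (θ p)

/-- Row JNM: a junction between one dock and a family of docks. -/
def JnmStmt : Prop := ∀ (V : Type) (G : SimpleGraph V) (Amb Rt : Finset V) (N F : ℕ) (h : HD V)
  (U : Finset ℕ) (s : ℕ) (E : Finset V) (Γ : Finset ℕ) (t : ℕ → ℕ) (U' : ℕ → Finset ℕ)
  (E' : ℕ → Finset V), Hub G Amb Rt N F h → U ⊆ range N → s < N → Dock G h F U s E →
  Set.InjOn t Γ → (∀ g ∈ Γ, t g < N ∧ t g ≠ s ∧ U' g ⊆ range N ∧ Dock G h F (U' g) (t g) (E' g) ∧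
    (E' g).card ≤ F) →
  Jn G (h.R s ∪ Γ.biUnion fun g => h.R (t g)) E (Γ.biUnion E') ∧
    Jn G (h.R s ∪ Γ.biUnion fun g => h.R (t g)) (Γ.biUnion E') E

/-- Row MIX: relinking inside cells whose entries carry thin labels. -/
def MixStmt : Prop := ∀ (ι κ α β : Type) (I : Finset ι) (c : ι → κ) (a : ι → α) (b : ι → β)
  (Mv : κ → Finset ι → (ι → ι) → Prop) (M s cap W : ℕ), 1 ≤ M → 1 ≤ s → 2 * s ≤ cap →
  8 * W ≤ cap * M ^ 2 →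
  (∀ k A f A' f', A' ⊆ A → (∀ i ∈ A', f' i = f i) → Mv k A f → Mv k A' f') →
  (∀ k, ∀ A ⊆ I.filter fun i => c i = k, ∀ B ⊆ I.filter fun i => c i = k, A.card = B.card →
    ∃ f : ι → ι, (∀ i ∈ A, f i ∈ B) ∧ Set.InjOn f A ∧ Mv k A f) →
  (∀ i ∈ I, 4 * M * s ≤ cnt I c (c i)) → (∀ k l, lump I c a k l ≤ s) → (∀ l, cnt I b l ≤ W) →
  ∃ A ⊆ I, ∃ f : ι → ι, (∀ i ∈ A, f i ∈ I ∧ c (f i) = c i) ∧ Set.InjOn f A ∧
    (∀ k, Mv k (A.filter fun i => c i = k) f) ∧ I.card ≤ 8 * M * A.card ∧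
    ∀ l l', lump A a (fun i => b (f i)) l l' ≤ cap

/-- Two layers of at most `n` cells docked at `E`, `E'`, and `w` wires in lumps of size `≤ thr`. -/
def Rch (ι : Type) {V : Type} (G : SimpleGraph V) (Reg E E' : Finset V) (n thr w : ℕ) : Prop :=
  ∃ (R₁ R₂ : Finset V) (J₁ J₂ : Finset ι) (A₁ I₁ O₁ A₂ I₂ O₂ : ι → Finset V) (S : Finset V)
    (y : V → V) (c₁ c₂ : V → ι), R₁ ⊆ Reg ∧ R₂ ⊆ Reg ∧ Disjoint R₁ R₂ ∧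
    Lay G R₁ J₁ A₁ I₁ O₁ ∧ Lay G R₂ J₂ A₂ I₂ O₂ ∧ J₁.card ≤ n ∧ J₂.card ≤ n ∧
    (∀ c ∈ J₁, I₁ c ⊆ E) ∧ (∀ c ∈ J₂, O₂ c ⊆ E') ∧
    (∀ x ∈ S, c₁ x ∈ J₁ ∧ x ∈ O₁ (c₁ x) ∧ c₂ x ∈ J₂ ∧ y x ∈ I₂ (c₂ x) ∧ G.Adj x (y x)) ∧
    Set.InjOn y S ∧ (∀ c, cnt S c₁ c ≤ (I₁ c).card) ∧ (∀ c, cnt S c₂ c ≤ (O₂ c).card) ∧
    (∀ c c', lump S c₁ c₂ c c' ≤ thr) ∧ S.card = w

/-- Row MERGE: rich regions in parallel. -/
def MergeStmt : Prop := ∀ (V : Type) (G : SimpleGraph V) (Reg E E' : ℕ → Finset V)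
  (g n thr z w : ℕ), (∀ a < g, ∀ b < g, a ≠ b → Disjoint (Reg a) (Reg b)) →
  (∀ a < g, ¬ Poor G (Reg a) (E a) (E' a) n thr z) → w ≤ z + 1 →
  Rch (ℕ × ℕ) G ((range g).biUnion Reg) ((range g).biUnion E) ((range g).biUnion E')
    (g * n) thr (g * w)

/-- Row ABUND: a rich region between two junctions carries a large thin system. -/
def AbundStmt : Prop := ∀ (V ι : Type) (G : SimpleGraph V) (W H₁ H₂ Reg E E' : Finset V)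
  (F : ℕ) (o i : ℕ → V) (ls lb : ℕ → ℕ) (n thr w M s cap e u : ℕ), H₁ ⊆ W → H₂ ⊆ W → Reg ⊆ W →
  Disjoint H₁ H₂ → Disjoint H₁ Reg → Disjoint H₂ Reg → Rch ι G Reg E E' n thr w →
  Set.InjOn o ↑(range F) → Set.InjOn i ↑(range F) → Jn G H₁ ((range F).image o) E →
  Jn G H₂ E' ((range F).image i) → w ≤ F → (∀ c, cnt (range F) ls c ≤ e) →
  (∀ c, cnt (range F) lb c ≤ u) → 1 ≤ M → 1 ≤ s → 2 * s ≤ cap → 8 * e ≤ cap * M ^ 2 →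
  16 * M * s * n ≤ w → u * thr ≤ s ^ 2 →
  ∃ Q π, Sys G W F o i Q π ∧ w ≤ 32 * M * Q.card ∧
    ∀ c c', lump Q ls (fun τ => lb (π τ)) c c' ≤ cap

/-- More than `x` tracks pass the module thinly for the rung `j`. -/
def Big {V : Type} (G : SimpleGraph V) (h : HD V) (L : LP) (Θ : ℕ) (kS kB : KD V)
    (Wc : Finset ℕ) (j x : ℕ) : Prop :=
  ∃ Q π, Sys G (wreg h kS kB Wc) L.F kS.sb kB.ba Q π ∧ x < Q.card ∧
    (kB.θB j = 1 → ∀ c c', Θ * lump Q (kS.S j).ce (fun τ => (kB.B j).ce (π τ)) c c' ≤ kS.eS j)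

/-- Row RUNG: the unit rung of a module. -/
def RungStmt : Prop := ∀ (V : Type) (G : SimpleGraph V) (Amb Rt : Finset V) (N F₀ : ℕ) (h : HD V)
  (L : LP) (kS kB : KD V) (Wc : Finset ℕ) (Θ f : ℕ), Hub G Amb Rt N F₀ h →
  Kit G h N F₀ L kS → Kit G h N F₀ L kB → Disjoint kS.U kB.U → L.F ≤ F₀ → 2 ≤ L.θ → 2 ≤ Θ →
  (L.m + 2) * f ≤ L.F → 1 ≤ L.yB L.m →
  ∃ i ≤ L.m, Mod G h L Θ f i kS kB Wc ∧ (i < L.m → ¬ Big G h L Θ kS kB Wc i ((L.m + 1) * f))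

/-- Row FILL: `B` rich sets of classes inside `Wc` let many tracks pass thinly. -/
def FillStmt : Prop := ∀ (V : Type) (G : SimpleGraph V) (Amb Rt : Finset V) (N F₀ : ℕ) (h : HD V)
  (L : LP) (kS kB : KD V) (Wc : Finset ℕ) (Cl : ℕ → Finset ℕ) (B M Θ f z Q n j : ℕ),
  Hub G Amb Rt N F₀ h → Kit G h N F₀ L kS → Kit G h N F₀ L kB → Disjoint kS.U kB.U →
  Wc ⊆ range N → Disjoint Wc kS.U → Disjoint Wc kB.U →
  (∀ a < B, Cl a ⊆ Wc ∧ ¬ PoorC G h F₀ (Cl a) n (L.yB j / Q) z) →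
  (∀ a < B, ∀ b < B, a ≠ b → Disjoint (Cl a) (Cl b)) → j < L.m → kB.θB j = 1 → 2 ≤ L.θ →
  1 ≤ L.Pi → 2 ≤ B → M ≤ B → 2 ≤ Θ → 100 * Θ ≤ M ^ 2 → 100 * M * (L.m + 2) * f ≤ L.F →
  L.F ≤ B * z → L.yB j * L.Pi ≤ B * L.yS j → n * L.yB j ≤ B * L.F → B ^ 18 ≤ Q →
  Big G h L Θ kS kB Wc j ((L.m + 1) * f)

/-- Row CLEAN: for every scale many disjoint rich sets, or none in the pool. -/
def CleanStmt : Prop := ∀ (NK m r n : ℕ) (Rc : ℕ → Finset ℕ → Prop),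
  ∃ (P : Finset ℕ) (T : ℕ → ℕ → Finset ℕ), P ⊆ range NK ∧ NK ≤ P.card + m * (n * r) ∧
    (∀ j < m, ∀ g < n, T j g ⊆ range NK \ P) ∧
    (∀ j < m, ∀ g < n, ∀ j' < m, ∀ g' < n, (j, g) ≠ (j', g') → Disjoint (T j g) (T j' g')) ∧
    ∀ j < m, (∀ g < n, Rc j (T j g)) ∨ ∀ X ⊆ P, X.card ≤ r → ¬ Rc j X

end Pool.Agent.MP_35cb46_co.Fl
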