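import Mathlib.Algebra.Order.BigOperators.Ring.Finset
import Pool.Agent.MP_35cb46_co.fl.USpec

/-! PROJECT FL: row MIX. -/

noncomputable section

namespace Pool.Agent.MP_35cb46_co.Fl

open Finset Pool.Agent.MP_35cb46_co.Nl
open scoped Classical

namespace Mix

variable {ι κ α β : Type}

theorem one_class (P : Finset ι) (a : ι → α) {s x : ℕ}
    (hs : ∀ l, (P.filter fun i => a i = l).card ≤ s) (hx : x ≤ P.card) :
    ∃ T : Finset α, x ≤ (P.filter fun i => a i ∈ T).card ∧
      (P.filter fun i => a i ∈ T).card ≤ x + s := by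
  have hex : ∃ n, ∃ T : Finset α, T.card = n ∧ x ≤ (P.filter fun i => a i ∈ T).card :=
    ⟨_, P.image a, rfl, by rwa [filter_true_of_mem fun i hi => mem_image_of_mem a hi]⟩
  obtain ⟨T, h1, h2⟩ := Nat.find_spec hex
  refine ⟨T, h2, ?_⟩
  rcases T.eq_empty_or_nonempty with rfl | ⟨l, hl⟩
  · simp
  have h3 : ¬ x ≤ (P.filter fun i => a i ∈ T.erase l).card := fun h =>
    Nat.find_min hex (h1 ▸ card_erase_lt_of_mem hl) ⟨_, rfl, h⟩
  have h4 : (P.filter fun i => a i ∈ T) ⊆
      (P.filter fun i => a i ∈ T.erase l) ∪ P.filter fun i => a i = l := fun i hi => by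
    simp only [mem_filter, mem_union, mem_erase] at hi ⊢
    tauto
  have := (card_le_card h4).trans (card_union_le _ _)
  have := hs l
  omega

theorem classes (a : ι → α) {s x : ℕ} (M : ℕ) : ∀ P : Finset ι,
    (∀ l, (P.filter fun i => a i = l).card ≤ s) → M * (x + s) ≤ P.card →
    ∃ Q : ℕ → Finset ι, (∀ i < M, Q i ⊆ P ∧ (Q i).card = x) ∧
      ∀ i < M, ∀ j < M, ∀ u ∈ Q i, ∀ v ∈ Q j, a u = a v → i = j := by
  induction M with
  | zero => exact fun P _ _ => ⟨fun _ => ∅, by simp, by simp⟩
  | succ M ih =>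
    intro P hs hx
    rw [add_mul, one_mul] at hx
    obtain ⟨T, t1, t2⟩ := one_class P a hs (show x ≤ P.card by omega)
    have e := card_filter_add_card_filter_not (s := P) fun i => a i ∈ T
    obtain ⟨Q, q1, q2⟩ := ih (P.filter fun i => ¬ a i ∈ T)
      (fun l => (card_le_card (filter_subset_filter _ (filter_subset _ _))).trans (hs l)) (by omega)
    obtain ⟨R, r1, r2⟩ := exists_subset_card_eq t1
    refine ⟨fun i => if i = M then R else Q i, fun i hi => ?_, fun i hi j hj u hu v hv h => ?_⟩
    · dsimp only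
      split_ifs with h
      · exact ⟨r1.trans (filter_subset _ _), r2⟩
      · exact ⟨(q1 i (by omega)).1.trans (filter_subset _ _), (q1 i (by omega)).2⟩
    · dsimp only at hu hv
      split_ifs at hu hv with h1 h2 h2
      · omega
      · exact absurd (h ▸ (mem_filter.1 (r1 hu)).2) (mem_filter.1 ((q1 j (by omega)).1 hv)).2
      · exact absurd (h ▸ (mem_filter.1 (r1 hv)).2) (mem_filter.1 ((q1 i (by omega)).1 hu)).2
      · exact q2 i (by omega) j (by omega) u hu v hv h

/-- Lanes with the labels of `l` in another cell. -/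
def oth (L : Finset ι) (c : ι → κ) (a : ι → α) (b : ι → β) (l : ι) : ℕ :=
  (L.filter fun u => c u ≠ c l ∧ a u = a l ∧ b u = b l).card

theorem pick_pair (L P : Finset ι) (a : ι → α) (b b' : ι → β) {M : ℕ} (hM : 1 ≤ M)
    {Q C : ℕ → Finset ι} (hQ : ∀ i < M, ∀ j < M, ∀ u ∈ Q i, ∀ v ∈ Q j, a u = a v → i = j)
    (hC : ∀ j < M, C j ⊆ P) (hC' : ∀ i < M, ∀ j < M, ∀ u ∈ C i, ∀ v ∈ C j, u = v → i = j) :
    ∃ i < M, ∃ j < M, M ^ 2 * ∑ l ∈ L, (if ∃ u ∈ Q i, a u = a l then cnt (C j) b (b' l) else 0) ≤
      ∑ l ∈ L, cnt P b (b' l) := by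
  obtain ⟨p, hp, h⟩ := exists_le_of_sum_le (s := range M ×ˢ range M)
    (f := fun p => M ^ 2 * ∑ l ∈ L, (if ∃ u ∈ Q p.1, a u = a l then cnt (C p.2) b (b' l) else 0))
    (g := fun _ => ∑ l ∈ L, cnt P b (b' l))
    (Nonempty.product ⟨0, mem_range.2 hM⟩ ⟨0, mem_range.2 hM⟩) (by
      rw [← mul_sum, sum_const, card_product, card_range, smul_eq_mul, ← sq, sum_comm]
      refine Nat.mul_le_mul_left _ (sum_le_sum fun l _ => ?_)
      rw [sum_product]
      simp only [sum_ite_irrel, sum_const_zero]
      rw [← sum_filter, sum_const, smul_eq_mul]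
      have h1 : ((range M).filter fun i => ∃ u ∈ Q i, a u = a l).card ≤ 1 :=
        card_le_one.2 fun i hi j hj => by
          obtain ⟨hi, u, hu, e⟩ := mem_filter.1 hi
          obtain ⟨hj, v, hv, e'⟩ := mem_filter.1 hj
          exact hQ i (mem_range.1 hi) j (mem_range.1 hj) u hu v hv (e.trans e'.symm)
      refine (Nat.mul_le_mul_right _ h1).trans ?_
      rw [one_mul]
      unfold cnt
      rw [← card_biUnion fun i hi j hj e => disjoint_left.2 fun u hu hv =>
        e (hC' i (by simpa using hi) j (by simpa using hj) u (mem_filter.1 hu).1 u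
          (mem_filter.1 hv).1 rfl)]
      exact card_le_card (biUnion_subset.2 fun j hj => filter_subset_filter _ (hC j (mem_range.1 hj))))
  rw [mem_product, mem_range, mem_range] at hp
  refine ⟨_, hp.1, _, hp.2, le_trans (le_of_eq ?_) h⟩
  congr
  funext l
  congr

end Mix

open Mix in
theorem mix : MixStmt := by
  intro ι κ α β I c a b Mv M s cap W hM hs hcap hW hmv hsw hload hlump hb
  have key : ∀ S : Finset κ, ∃ L ⊆ I.filter fun i => c i ∈ S, ∃ f : ι → ι,
      (∀ i ∈ L, f i ∈ I ∧ c (f i) = c i) ∧ Set.InjOn f L ∧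
      (∀ k, Mv k (L.filter fun i => c i = k) f) ∧
      (I.filter fun i => c i ∈ S).card ≤ 4 * M * L.card ∧
      M ^ 2 * ∑ l ∈ L, oth L c a (fun i => b (f i)) l ≤
        2 * ∑ l ∈ L, cnt (I.filter fun i => c i ∈ S) b (b (f l)) := fun S => by
    induction S using Finset.induction_on with
    | empty =>
      refine ⟨∅, empty_subset _, id, by simp, by simp, fun k => ?_, by simp, by simp⟩
      obtain ⟨f, -, -, h⟩ := hsw k ∅ (empty_subset _) ∅ (empty_subset _) rfl
      exact hmv k ∅ f _ _ (by simp) (by simp) h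
    | insert k S hk ih =>
      obtain ⟨L, l0, f, l1, l2, l3, l4, l5⟩ := ih
      obtain ⟨P, hP⟩ : ∃ P, P = I.filter fun i => c i = k := ⟨_, rfl⟩
      have hU : (I.filter fun i => c i ∈ insert k S) = (I.filter fun i => c i ∈ S) ∪ P := by
        rw [hP, ← filter_or]
        exact filter_congr fun i _ => by rw [mem_insert, or_comm]
      have hD : Disjoint (I.filter fun i => c i ∈ S) P := by
        rw [hP]
        exact disjoint_left.2 fun i h1 h2 => hk ((mem_filter.1 h2).2 ▸ (mem_filter.1 h1).2)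
      obtain ⟨x, hx⟩ : ∃ x, x = P.card / (2 * M) := ⟨_, rfl⟩
      have x1 : 2 * M * x ≤ P.card := hx ▸ Nat.mul_div_le _ _
      have x2 : P.card < 2 * M * (x + 1) := hx ▸ Nat.lt_mul_div_succ _ (by omega)
      rcases P.eq_empty_or_nonempty with h0 | ⟨i0, hi0⟩
      · rw [hU, h0, union_empty]
        exact ⟨L, l0, f, l1, l2, l3, l4, l5⟩
      have x3 : 4 * M * s ≤ P.card := by
        rw [hP] at hi0 ⊢
        have := hload i0 (mem_filter.1 hi0).1
        rwa [(mem_filter.1 hi0).2] at this
      have x4 : s ≤ x := by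
        by_contra h
        have : 2 * M * (x + 1) ≤ 2 * M * s := Nat.mul_le_mul_left _ (by omega)
        nlinarith
      obtain ⟨Q, q1, q2⟩ := classes a (s := s) (x := x) M P
        (fun l => by rw [hP, filter_filter]; exact hlump k l) (by nlinarith)
      obtain ⟨C, c1, c2⟩ := classes id (s := 1) (x := x) M P
        (fun l => card_le_one.2 fun u hu v hv =>
          (mem_filter.1 hu).2.trans (mem_filter.1 hv).2.symm) (by nlinarith)
      obtain ⟨i, hi, j, hj, hc⟩ := pick_pair L P a b (fun l => b (f l)) hM q2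
        (fun j hj => (c1 j hj).1) c2
      obtain ⟨g, g1, g2, g3⟩ := hsw k (Q i) (hP ▸ (q1 i hi).1) (C j) (hP ▸ (c1 j hj).1)
        ((q1 i hi).2.trans (c1 j hj).2.symm)
      have cP : ∀ u ∈ P, u ∈ I ∧ c u = k := fun u hu => mem_filter.1 (hP ▸ hu)
      have cQ : ∀ u ∈ Q i, c u = k := fun u hu => (cP u ((q1 i hi).1 hu)).2
      have cL : ∀ u ∈ L, c u ≠ k := fun u hu e => hk (e ▸ (mem_filter.1 (l0 hu)).2)
      have dL : Disjoint L (Q i) := disjoint_left.2 fun u h1 h2 => cL u h1 (cQ u h2)
      obtain ⟨F, hF⟩ : ∃ F : ι → ι, F = fun u => if c u = k then g u else f u := ⟨_, rfl⟩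
      have F1 : ∀ u ∈ L, F u = f u := fun u hu => by rw [hF]; exact if_neg (cL u hu)
      have F2 : ∀ u ∈ Q i, F u = g u := fun u hu => by rw [hF]; exact if_pos (cQ u hu)
      have F3 : ∀ u ∈ L ∪ Q i, F u ∈ I ∧ c (F u) = c u := fun u hu => by
        rcases mem_union.1 hu with hu | hu
        · rw [F1 u hu]; exact l1 u hu
        · rw [F2 u hu, cQ u hu]; exact cP _ ((c1 j hj).1 (g1 u hu))
      rw [hU]
      refine ⟨L ∪ Q i, union_subset_union l0 (q1 i hi).1, F, F3, fun u hu v hv e => ?_,
        fun k' => ?_, ?_, ?_⟩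
      · have e' : c u = c v := by rw [← (F3 u hu).2, e, (F3 v hv).2]
        rcases mem_union.1 hu with hu | hu <;> rcases mem_union.1 hv with hv | hv
        · exact l2 hu hv (by rwa [F1 u hu, F1 v hv] at e)
        · exact absurd (e'.trans (cQ v hv)) (cL u hu)
        · exact absurd (e'.symm.trans (cQ u hu)) (cL v hv)
        · exact g2 hu hv (by rwa [F2 u hu, F2 v hv] at e)
      · by_cases e : k' = k
        · have : ((L ∪ Q i).filter fun u => c u = k') ⊆ Q i := fun u hu =>
            (mem_union.1 (mem_filter.1 hu).1).resolve_left fun h =>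
              cL u h ((mem_filter.1 hu).2.trans e)
          exact hmv k' _ g _ _ this (fun u hu => F2 u (this hu)) (e ▸ g3)
        · have : ((L ∪ Q i).filter fun u => c u = k') ⊆ L.filter fun u => c u = k' := fun u hu =>
            mem_filter.2 ⟨(mem_union.1 (mem_filter.1 hu).1).resolve_right fun h =>
              e ((mem_filter.1 hu).2.symm.trans (cQ u h)), (mem_filter.1 hu).2⟩
          exact hmv k' _ f _ _ this (fun u hu => F1 u (mem_filter.1 (this hu)).1) (l3 k')
      · rw [card_union_of_disjoint hD, card_union_of_disjoint dL, (q1 i hi).2]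
        nlinarith
      · obtain ⟨z, hz⟩ : ∃ z : ι → ι → ℕ,
          z = fun l u => if a u = a l ∧ b (g u) = b (f l) then 1 else 0 := ⟨_, rfl⟩
        have o1 : ∀ l ∈ L, oth (L ∪ Q i) c a (fun u => b (F u)) l ≤
            oth L c a (fun u => b (f u)) l + ∑ u ∈ Q i, z l u := fun l hl => by
          unfold oth
          rw [filter_union, hz, ← card_filter]
          refine (card_union_le _ _).trans (add_le_add (le_of_eq ?_) (card_le_card fun u hu => ?_))
          · exact congrArg card (filter_congr fun u hu => by simp only [F1 u hu, F1 l hl])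
          · obtain ⟨h1, -, h2⟩ := mem_filter.1 hu
            simp only [F2 u h1, F1 l hl] at h2
            exact mem_filter.2 ⟨h1, h2⟩
        have o2 : ∀ u ∈ Q i, oth (L ∪ Q i) c a (fun u => b (F u)) u ≤ ∑ l ∈ L, z l u :=
          fun u hu => by
          unfold oth
          rw [hz, ← card_filter]
          refine card_le_card fun l hl => ?_
          obtain ⟨h1, h2, h3, h4⟩ := mem_filter.1 hl
          have h5 : l ∈ L := (mem_union.1 h1).resolve_right fun h =>
            h2 ((cQ l h).trans (cQ u hu).symm)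
          simp only [F2 u hu, F1 l h5] at h4
          exact mem_filter.2 ⟨h5, h3.symm, h4.symm⟩
        have o3 : ∀ l ∈ L, ∑ u ∈ Q i, z l u ≤
            if ∃ u ∈ Q i, a u = a l then cnt (C j) b (b (f l)) else 0 := fun l _ => by
          rw [hz, ← card_filter]
          split_ifs with h
          · exact card_le_card_of_injOn g
              (fun u hu => mem_filter.2 ⟨g1 u (mem_filter.1 hu).1, (mem_filter.1 hu).2.2⟩)
              (g2.mono fun u hu => (mem_filter.1 hu).1)
          · rw [Nat.le_zero, card_eq_zero]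
            exact filter_eq_empty_iff.2 fun u hu e => h ⟨u, hu, e.1⟩
        have o4 : ∑ l ∈ L, cnt (I.filter fun i => c i ∈ S) b (b (f l)) + ∑ l ∈ L, cnt P b (b (f l)) ≤
            ∑ l ∈ L ∪ Q i, cnt ((I.filter fun i => c i ∈ S) ∪ P) b (b (F l)) := by
          rw [sum_union dL, ← sum_add_distrib]
          refine le_trans (sum_le_sum fun l hl => le_of_eq ?_) (Nat.le_add_right _ _)
          unfold cnt
          rw [F1 l hl, filter_union, card_union_of_disjoint (disjoint_filter_filter hD)]
        have o5 := sum_le_sum o1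
        have o6 := sum_le_sum o2
        have o7 := sum_le_sum o3
        rw [sum_comm] at o6
        rw [sum_add_distrib] at o5
        rw [sum_union dL]
        have := Nat.mul_le_mul_left (M ^ 2) (add_le_add o5 o6)
        have := Nat.mul_le_mul_left (M ^ 2) o7
        nlinarith
  obtain ⟨L, l0, f, l1, l2, l3, l4, l5⟩ := key (I.image c)
  rw [filter_true_of_mem fun i hi => mem_image_of_mem c hi] at l0 l4 l5
  obtain ⟨p, hp⟩ : ∃ p : ι → Prop,
    p = fun l => (L.filter fun u => a u = a l ∧ b (f u) = b (f l)).card ≤ cap := ⟨_, rfl⟩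
  have e := card_filter_add_card_filter_not (s := L) p
  have h1 : (L.filter fun l => ¬ p l).card * cap ≤ 2 * ∑ l ∈ L, oth L c a (fun i => b (f i)) l := by
    rw [← smul_eq_mul, ← sum_const, mul_sum]
    refine (sum_le_sum fun l hl => ?_).trans (sum_le_sum_of_subset (filter_subset _ _))
    have h2 := (mem_filter.1 hl).2
    rw [hp] at h2
    have h3 : (L.filter fun u => a u = a l ∧ b (f u) = b (f l)) ⊆
        (L.filter fun u => c u ≠ c l ∧ a u = a l ∧ b (f u) = b (f l)) ∪
          I.filter fun u => c u = c l ∧ a u = a l := fun u hu => by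
      obtain ⟨u1, u2⟩ := mem_filter.1 hu
      by_cases h : c u = c l
      · exact mem_union_right _ (mem_filter.2 ⟨l0 u1, h, u2.1⟩)
      · exact mem_union_left _ (mem_filter.2 ⟨u1, h, u2⟩)
    have h4 := (card_le_card h3).trans (card_union_le _ _)
    have h5 : (I.filter fun u => c u = c l ∧ a u = a l).card ≤ s := hlump (c l) (a l)
    unfold oth
    dsimp only
    omega
  have h2 : ∑ l ∈ L, cnt I b (b (f l)) ≤ L.card * W := by
    rw [← smul_eq_mul]
    exact sum_le_card_nsmul _ _ _ fun l _ => hb _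
  have h3 : 2 * (L.filter fun l => ¬ p l).card ≤ L.card := by
    refine Nat.le_of_mul_le_mul_right (c := cap * M ^ 2) ?_ (Nat.mul_pos (by omega) (by positivity))
    have := Nat.mul_le_mul_left (M ^ 2) h1
    have := Nat.mul_le_mul_left L.card hW
    nlinarith
  refine ⟨L.filter p, (filter_subset _ _).trans l0, f, fun i hi => l1 i (mem_filter.1 hi).1,
    l2.mono fun i hi => (mem_filter.1 hi).1, fun k => hmv k _ f _ _
      (filter_subset_filter _ (filter_subset _ _)) (fun _ _ => rfl) (l3 k), by nlinarith,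
    fun l l' => ?_⟩
  change ((L.filter p).filter fun i => a i = l ∧ b (f i) = l').card ≤ cap
  rcases ((L.filter p).filter fun i => a i = l ∧ b (f i) = l').eq_empty_or_nonempty with h | ⟨u, hu⟩
  · rw [h]; exact Nat.zero_le _
  obtain ⟨u1, rfl, rfl⟩ := mem_filter.1 hu
  have := (mem_filter.1 u1).2
  rw [hp] at this
  exact (card_le_card (filter_subset_filter _ (filter_subset _ _))).trans this

end Pool.Agent.MP_35cb46_co.Fl
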