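import Pool.Agent.MP_35cb46_co.fl.USpec
import Pool.Agent.MP_35cb46_co.fl.Base1

/-! PROJECT FL, row RUNG: the unit rung of a module. -/

noncomputable section

namespace Pool.Agent.MP_35cb46_co.Fl

open Finset Pool.Agent.MP_7be75d_co Pool.Agent.MP_35cb46_co.Sq Pool.Agent.MP_35cb46_co.Nl
open scoped Classical

namespace Rung

variable {V : Type} {G : SimpleGraph V}

theorem sys_mono {W : Finset V} {F : ℕ} {o i : ℕ → V} {Q Q' : Finset ℕ} {π : ℕ → ℕ}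
    (h : Sys G W F o i Q π) (hQ : Q' ⊆ Q) : Sys G W F o i Q' π := by
  obtain ⟨P, hP, hT⟩ := h.str
  exact ⟨hQ.trans h.sub, fun τ hτ => h.lt τ (hQ hτ), h.inj.mono (coe_subset.2 hQ), P,
    ⟨fun a ha => hP.sub a (hQ ha), fun a ha => hP.conn a (hQ ha),
      fun a ha b hb => hP.disj a (hQ ha) b (hQ hb)⟩, fun τ hτ => hT τ (hQ hτ)⟩

theorem lump_mono {α β γ : Type} {Q Q' : Finset α} (f : α → β) (g : α → γ) (b : β) (c : γ)
    (hQ : Q' ⊆ Q) : lump Q' f g b c ≤ lump Q f g b c :=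
  card_le_card (filter_subset_filter _ hQ)

theorem lump_pos {α β γ : Type} {Q : Finset α} (f : α → β) (g : α → γ) {a : α} (ha : a ∈ Q) :
    0 < lump Q f g (f a) (g a) :=
  card_pos.2 ⟨a, mem_filter.2 ⟨ha, rfl, rfl⟩⟩

theorem lump_ex {α β γ : Type} {Q : Finset α} {f : α → β} {g : α → γ} {b : β} {c : γ}
    (h : 0 < lump Q f g b c) : ∃ a ∈ Q, f a = b ∧ g a = c := by
  obtain ⟨a, ha⟩ := card_pos.1 h
  exact ⟨a, mem_filter.1 ha⟩

theorem lump_le_cnt {α β γ δ : Type} {Q : Finset α} {T : Finset δ} {π : α → δ}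
    (hT : ∀ a ∈ Q, π a ∈ T) (hi : Set.InjOn π Q) (l : α → β) (g : δ → γ) (c : β) (c' : γ) :
    lump Q l (fun a => g (π a)) c c' ≤ cnt T g c' := by
  refine card_le_card_of_injOn π (fun τ hτ => ?_) (hi.mono fun τ hτ => ?_)
  · have h2 := mem_filter.1 (mem_coe.1 hτ)
    exact mem_coe.2 (mem_filter.2 ⟨hT τ h2.1, h2.2.2⟩)
  · exact mem_coe.2 (mem_filter.1 (mem_coe.1 hτ)).1

theorem lump_sub {α β γ : Type} {Q Q' : Finset α} {f : α → β} {g : α → γ} {b : β} {c : γ}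
    (h : ∀ a ∈ Q, f a = b → g a = c → a ∈ Q') : lump Q f g b c ≤ lump Q' f g b c :=
  card_le_card fun a ha => by
    obtain ⟨h1, h2, h3⟩ := mem_filter.1 ha
    exact mem_filter.2 ⟨h a h1 h2 h3, h2, h3⟩

theorem lump_le {F e d θ : ℕ} {S : SD} (hS : Shape F S e d θ) {Q : Finset ℕ} {π : ℕ → ℕ}
    (hlt : ∀ τ ∈ Q, π τ < F) (hi : Set.InjOn π Q) (l : ℕ → ℕ) (c c' : ℕ) :
    lump Q l (fun τ => S.ce (π τ)) c c' ≤ e := by
  rcases Nat.eq_zero_or_pos (lump Q l (fun τ => S.ce (π τ)) c c') with h | h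
  · omega
  · obtain ⟨a, ha, -, hc⟩ := lump_ex h
    have h1 : c' ∈ S.cells F := mem_image.2 ⟨π a, mem_range.2 (hlt a ha), hc⟩
    rw [← hS.ce c' h1]
    exact lump_le_cnt (fun τ hτ => mem_range.2 (hlt τ hτ)) hi l S.ce c c'

/-- All tracks pass the junction between the two halves. -/
theorem full (jn : JnStmt) {Amb Rt : Finset V} {N F₀ : ℕ} {h : HD V} {L : LP} {kS kB : KD V}
    (Wc : Finset ℕ) (H : Hub G Amb Rt N F₀ h) (hS : Kit G h N F₀ L kS) (hB : Kit G h N F₀ L kB)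
    (hd : Disjoint kS.U kB.U) (hF : L.F ≤ F₀) :
    ∃ π, Sys G (wreg h kS kB Wc) L.F kS.sb kB.ba (range L.F) π := by
  have uS : kS.U ⊆ range N := hS.sub.trans (erase_subset _ _)
  have uB : kB.U ⊆ range N := hB.sub.trans (erase_subset _ _)
  have iS : Set.InjOn kS.sb ↑(range L.F) := (hS.sS.one 0 (Nat.succ_pos _)).pass.inj_right
  have iB : Set.InjOn kB.ba ↑(range L.F) := (hB.bS.one 0 (Nat.succ_pos _)).pass.inj_left
  have cS : ((range L.F).image kS.sb).card = L.F := by rw [card_image_of_injOn iS, card_range]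
  have cB : ((range L.F).image kB.ba).card = L.F := by rw [card_image_of_injOn iB, card_range]
  have J := jn V G Amb Rt N F₀ h kS.U kB.U kS.s2 kB.b1 _ _ H uS uB (mem_range.1 (uS hS.sE.m2))
    (mem_range.1 (uB hB.bE.m1))
    (fun e => disjoint_left.1 hd hS.sE.m2 (e ▸ hB.bE.m1))
    (fun e => disjoint_left.1 hd e hB.bE.m1) (disjoint_left.1 hd hS.sE.m2) hS.sE.d2 hB.bE.d1
    (cS.le.trans hF)
  obtain ⟨g, P, g1, g2, g3, g4⟩ := J _ subset_rfl _ subset_rfl (cS.trans cB.symm)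
  have hm : ∀ τ ∈ range L.F, kS.sb τ ∈ (range L.F).image kS.sb := fun τ hτ =>
    mem_image_of_mem _ hτ
  have hex : ∀ τ, ∃ σ, τ ∈ range L.F → σ < L.F ∧ kB.ba σ = g (kS.sb τ) := by
    intro τ
    by_cases hτ : τ ∈ range L.F
    · obtain ⟨σ, h1, h2⟩ := mem_image.1 (g1 _ (hm τ hτ))
      exact ⟨σ, fun _ => ⟨mem_range.1 h1, h2⟩⟩
    · exact ⟨0, fun h => absurd h hτ⟩
  choose π hπ using hex
  refine ⟨π, subset_rfl, fun τ hτ => (hπ τ hτ).1, fun τ hτ σ hσ e => ?_,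
    fun τ => P (kS.sb τ), ⟨fun τ hτ => (g3.sub _ (hm τ hτ)).trans subset_union_left,
      fun τ hτ => g3.conn _ (hm τ hτ),
      fun τ hτ σ hσ n => g3.disj _ (hm τ hτ) _ (hm σ hσ) fun e => n (iS hτ hσ e)⟩,
    fun τ hτ => ⟨(g4 _ (hm τ hτ)).1, ?_⟩⟩
  · refine iS hτ hσ (g2 (hm τ hτ) (hm σ hσ) ?_)
    rw [← (hπ τ hτ).2, ← (hπ σ hσ).2, e]
  · rw [(hπ τ hτ).2]
    exact (g4 _ (hm τ hτ)).2

end Rung

theorem rung (jn : JnStmt) : RungStmt := by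
  intro V G Amb Rt N F₀ h L kS kB Wc Θ f H hS hB hd hF hθ hΘ hf hy
  obtain ⟨π₀, hπ₀⟩ := Rung.full jn Wc H hS hB hd hF
  have hlem : kS.eS L.m ≤ Θ * L.yB L.m := by
    rw [hS.sB.1]
    exact Nat.mul_pos (by omega) hy
  rcases Nat.eq_zero_or_pos f with rfl | hf0
  · refine ⟨L.m, le_rfl, ⟨hB.bB.2, hlem, fun j _ => ⟨∅, π₀, Rung.sys_mono hπ₀ (empty_subset _),
      Nat.zero_le _, fun _ c c' => ?_, fun τ hτ => absurd hτ (notMem_empty τ)⟩⟩,
      fun h => absurd h (lt_irrefl _)⟩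
    simp [lump]
  have hm : ¬ Big G h L Θ kS kB Wc L.m ((L.m - L.m + 1) * f) := by
    rintro ⟨Q, π, -, h1, h2⟩
    obtain ⟨τ, hτ⟩ := card_pos.1 (lt_of_le_of_lt (Nat.zero_le _) h1)
    have h3 := h2 hB.bB.2 ((kS.S L.m).ce τ) ((kB.B L.m).ce (π τ))
    have h4 := Rung.lump_pos (kS.S L.m).ce (fun τ => (kB.B L.m).ce (π τ)) hτ
    rw [hS.sB.1] at h3
    have h5 := Nat.mul_le_mul hΘ h4
    omega
  have hex : ∃ j, ¬ Big G h L Θ kS kB Wc j ((L.m - j + 1) * f) := ⟨L.m, hm⟩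
  obtain ⟨i, hi, him, hmin⟩ : ∃ i, ¬ Big G h L Θ kS kB Wc i ((L.m - i + 1) * f) ∧ i ≤ L.m ∧
      ∀ j < i, Big G h L Θ kS kB Wc j ((L.m - j + 1) * f) :=
    ⟨Nat.find hex, Nat.find_spec hex, Nat.find_min' hex hm,
      fun j hj => not_not.1 (Nat.find_min hex hj)⟩
  have hle : (L.m - i + 1) * f ≤ (L.m + 1) * f := Nat.mul_le_mul_right _ (by omega)
  have hlt : (L.m - i + 1) * f < (range L.F).card := by
    rw [card_range]
    have : (L.m + 2) * f = (L.m + 1) * f + f := by ring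
    omega
  have hty : kB.θB i = 1 := by
    by_contra hne
    exact hi ⟨_, π₀, hπ₀, hlt, fun e => absurd e hne⟩
  refine ⟨i, him, ⟨hty, ?_, fun j hj => ?_⟩, fun _ hb => ?_⟩
  · rcases eq_or_lt_of_le him with rfl | hil
    · exact hlem
    · by_contra hc
      refine hi ⟨_, π₀, hπ₀, hlt, fun _ c c' => ?_⟩
      have h1 := Rung.lump_le (hB.bH i him) hπ₀.lt hπ₀.inj (kS.S i).ce c c'
      have h2 : kB.eB i ≤ L.yB i := by
        rcases (hB.bK i hil).2 with h3 | h3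
        · exact h3.2
        · omega
      have h3 := Nat.mul_le_mul_left Θ (h1.trans h2)
      omega
  · obtain ⟨Q, π, h1, h2, h3⟩ := hmin j hj
    obtain ⟨Q₁, hQ₁⟩ : ∃ Q₁, Q₁ = Q.filter fun τ => kS.eS i <
        Θ * lump Q (kS.S i).ce (fun τ => (kB.B i).ce (π τ)) ((kS.S i).ce τ)
          ((kB.B i).ce (π τ)) := ⟨_, rfl⟩
    have hm₁ : ∀ τ, τ ∈ Q₁ ↔ τ ∈ Q ∧ kS.eS i <
        Θ * lump Q (kS.S i).ce (fun τ => (kB.B i).ce (π τ)) ((kS.S i).ce τ)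
          ((kB.B i).ce (π τ)) := fun τ => by rw [hQ₁, mem_filter]
    have hs₁ : Q₁ ⊆ Q := fun τ hτ => ((hm₁ τ).1 hτ).1
    have hrest : (Q \ Q₁).card ≤ (L.m - i + 1) * f := by
      by_contra hc
      refine hi ⟨Q \ Q₁, π, Rung.sys_mono h1 sdiff_subset, not_le.1 hc, fun _ c c' => ?_⟩
      rcases Nat.eq_zero_or_pos
        (lump (Q \ Q₁) (kS.S i).ce (fun τ => (kB.B i).ce (π τ)) c c') with h0 | h0
      · rw [h0]
        exact Nat.zero_le _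
      · obtain ⟨τ, hτ, rfl, rfl⟩ := Rung.lump_ex h0
        have h4 := not_lt.1 fun e => (mem_sdiff.1 hτ).2 ((hm₁ τ).2 ⟨(mem_sdiff.1 hτ).1, e⟩)
        exact (Nat.mul_le_mul_left Θ (Rung.lump_mono _ _ _ _ sdiff_subset)).trans h4
    refine ⟨Q₁, π, Rung.sys_mono h1 hs₁, ?_, fun e c c' =>
      (Nat.mul_le_mul_left Θ (Rung.lump_mono _ _ _ _ hs₁)).trans (h3 e c c'), fun τ hτ => ?_⟩
    · have h4 := card_sdiff_add_card_eq_card hs₁
      have h5 : (L.m - i + 1 + 1) * f ≤ (L.m - j + 1) * f := Nat.mul_le_mul_right _ (by omega)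
      have h6 : (L.m - i + 1 + 1) * f = (L.m - i + 1) * f + f := by ring
      omega
    · refine lt_of_lt_of_le ((hm₁ τ).1 hτ).2
        (Nat.mul_le_mul_left Θ (Rung.lump_sub fun σ hσQ e1 e2 => (hm₁ σ).2 ⟨hσQ, ?_⟩))
      have e2' : (kB.B i).ce (π σ) = (kB.B i).ce (π τ) := e2
      rw [e1, e2']
      exact ((hm₁ τ).1 hτ).2
  · obtain ⟨Q, π, h1, h2, h3⟩ := hb
    exact hi ⟨Q, π, h1, lt_of_le_of_lt hle h2, h3⟩

end Pool.Agent.MP_35cb46_co.Fl
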