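import Pool.Agent.MP_35cb46_co.fl.USpec
import Pool.Agent.MP_35cb46_co.fl.Base1
import Pool.Agent.MP_35cb46_co.fl.Base2
import Pool.Agent.MP_35cb46_co.fl.Base3

/-! PROJECT FL, row SER: stages in consecutive intervals are put in series. -/

noncomputable section

namespace Pool.Agent.MP_35cb46_co.Fl

open Finset Pool.Agent.MP_7be75d_co Pool.Agent.MP_35cb46_co.Sq Pool.Agent.MP_35cb46_co.Nl
open scoped Classical

namespace SerL

variable {V : Type} {G : SimpleGraph V} {Reg Reg' Amb Rt : Finset V} {F k N F₀ : ℕ}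
  {a b x y : ℕ → V} {h : HD V}

theorem stg_mono {S : SD} (H : Stg G Reg F a b S) (hR : Reg ⊆ Reg') : Stg G Reg' F a b S :=
  ⟨H.pass.mono hR subset_rfl, H.ne, fun as has => (H.flex as has).imp fun _ hA =>
    hA.mono hR subset_rfl (fun _ _ => subset_rfl) fun _ _ => subset_rfl⟩

theorem ser_mono {S : ℕ → SD} {r : ℕ → ℕ → Prop} (H : Ser G Reg F k r a b S) (hR : Reg ⊆ Reg') :
    Ser G Reg' F k r a b S := by
  refine ⟨fun j hj => stg_mono (H.one j hj) hR, fun j hj j' hj' hr => ?_⟩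
  obtain ⟨R₁, R₂, u, v, h1, h2, h3⟩ := H.two j hj j' hj' hr
  exact ⟨R₁, R₂, u, v, h1.trans hR, h2.trans hR, h3⟩

theorem append {S : ℕ → SD} {T : SD} (H : Ser G Reg F k (· < ·) a b S)
    (hp : Lnk G Reg (range F) a b) (K : Stg G Reg' F x y T) (hd : Disjoint Reg Reg')
    (hadj : ∀ τ < F, G.Adj (b τ) (x τ)) :
    Ser G (Reg ∪ Reg') F (k + 1) (· < ·) a y (fun j => if j = k then T else S j) := by
  refine ⟨fun j hj => ?_, fun j hj j' hj' hr => ?_⟩
  · by_cases e : j = k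
    · rw [if_pos e, union_comm]
      exact (stg V G Reg' Reg F x y a b T K hd.symm hp).2 hadj
    · rw [if_neg e]
      exact (stg V G Reg Reg' F a b x y (S j) (H.one j (by omega)) hd K.pass).1 hadj
  · have hjk : j ≠ k := by omega
    rw [if_neg hjk]
    by_cases e : j' = k
    · rw [if_pos e]
      exact ⟨Reg, Reg', b, x, subset_union_left, subset_union_right, hd, H.one j (by omega), K,
        hadj⟩
    · rw [if_neg e]
      obtain ⟨R₁, R₂, u, v, h1, h2, h3, h4, h5, h6⟩ := H.two j (by omega) j' (by omega) hr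
      refine ⟨R₁, R₂ ∪ Reg', u, v, h1.trans subset_union_left,
        union_subset_union h2 subset_rfl, disjoint_union_right.2 ⟨h3, hd.mono_left h1⟩, h4, ?_, h6⟩
      exact (stg V G R₂ Reg' F v b x y (S j') h5 (hd.mono_left h2) K.pass).1 hadj

theorem reg_mono {U U' : Finset ℕ} (hU : U ⊆ U') : h.reg U ⊆ h.reg U' :=
  biUnion_subset_biUnion_of_subset_left _ hU

theorem reg_disj (H : Hub G Amb Rt N F₀ h) {U U' : Finset ℕ} (hU : ∀ s ∈ U, s < N)
    (hU' : ∀ s ∈ U', s < N) (hd : ∀ s ∈ U, ∀ t ∈ U', s ≠ t) : Disjoint (h.reg U) (h.reg U') := by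
  refine disjoint_left.2 fun v h1 h2 => ?_
  obtain ⟨s, hs, h1⟩ := mem_biUnion.1 h1
  obtain ⟨t, ht, h2⟩ := mem_biUnion.1 h2
  exact disjoint_left.1 (H.disj s (hU s hs) t (hU' t ht) (hd s hs t ht)) h1 h2

theorem R_sub (H : Hub G Amb Rt N F₀ h) {U : Finset ℕ} {s : ℕ} (hs : s < N) (hU : s ∈ U) :
    h.R s ⊆ h.reg U :=
  (H.rsub s hs).trans (subset_biUnion_of_mem h.Rg hU)

/-- One more stage. -/
theorem step (perm : PermStmt) (H : Hub G Amb Rt N F₀ h) {z s s' : ℕ} (h1 : z < s) (h2 : s < s')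
    (h3 : s' < N) {S : ℕ → SD} {T : SD} {e d θ : ℕ}
    (E1 : Ends G h F₀ F (Icc z s) z s a b) (S1 : Ser G (h.reg (Ioo z s)) F k (· < ·) a b S)
    (hp : Lnk G (h.reg (Ioo z s)) (range F) a b)
    (E2 : Ends G h F₀ F (Icc s s') s s' x y) (S2 : Stg G (h.reg (Ioo s s')) F x y T)
    (hT : Shape F T e d θ) :
    ∃ (y' : ℕ → V) (T' : SD), Ends G h F₀ F (Icc z s') z s' a y' ∧
      Ser G (h.reg (Ioo z s')) F (k + 1) (· < ·) a y' (fun j => if j = k then T' else S j) ∧
      Shape F T' e d θ := by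
  have hb : Set.InjOn b ↑(range F) := hp.inj_right
  have hx : Set.InjOn x ↑(range F) := S2.pass.inj_left
  have hsN : s < N := h2.trans h3
  have J := jn1 V G Amb Rt N F₀ h (Icc z s) (Icc s s') s _ _ H
    (fun t ht => mem_range.2 (by have := mem_Icc.1 ht; omega))
    (fun t ht => mem_range.2 (by have := mem_Icc.1 ht; omega)) hsN E1.d2 E2.d1
  obtain ⟨g, u, v, g1, g2, g3, g4⟩ := jnl V G _ _ _ _ _ J subset_rfl subset_rfl
    (by rw [card_image_of_injOn hb, card_image_of_injOn hx])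
  have hm : ∀ τ ∈ range F, b τ ∈ (range F).image b := fun τ hτ => mem_image_of_mem b hτ
  have hπ : ∀ τ, ∃ σ, τ < F → σ < F ∧ x σ = g (b τ) := fun τ => by
    by_cases hτ : τ < F
    · obtain ⟨σ, hσ, e⟩ := mem_image.1 (g1 _ (hm τ (mem_range.2 hτ)))
      exact ⟨σ, fun _ => ⟨mem_range.1 hσ, e⟩⟩
    · exact ⟨0, fun h => absurd h hτ⟩
  choose π hπ using hπ
  have πi : Set.InjOn π ↑(range F) := fun τ hτ τ' hτ' e => by
    have a1 := (hπ τ (mem_range.1 hτ)).2
    have a2 := (hπ τ' (mem_range.1 hτ')).2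
    rw [e, a2] at a1
    exact hb hτ hτ' (g2 (mem_coe.2 (hm τ hτ)) (mem_coe.2 (hm τ' hτ')) a1.symm)
  obtain ⟨P1, P2⟩ := perm V G _ F x y T e d θ π (fun τ hτ => (hπ τ hτ).1) πi S2 hT
  have L : Lnk G (h.R s) (range F) (fun τ => u (b τ)) fun τ => v (b τ) := g3.comp b hm hb
  have hR : h.R s ⊆ h.reg {s} := R_sub H hsN (mem_singleton_self s)
  have d1 : Disjoint (h.reg (Ioo s s')) (h.R s) :=
    (reg_disj H (U := Ioo s s') (U' := {s}) (fun t ht => by have := mem_Ioo.1 ht; omega)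
      (fun t ht => by have := mem_singleton.1 ht; omega)
      fun t ht t' ht' => by have := mem_Ioo.1 ht; have := mem_singleton.1 ht'; omega).mono_right hR
  have d2 : Disjoint (h.reg (Ioo z s)) (h.R s) :=
    (reg_disj H (U := Ioo z s) (U' := {s}) (fun t ht => by have := mem_Ioo.1 ht; omega)
      (fun t ht => by have := mem_singleton.1 ht; omega)
      fun t ht t' ht' => by have := mem_Ioo.1 ht; have := mem_singleton.1 ht'; omega).mono_right hR
  have d3 : Disjoint (h.reg (Ioo z s)) (h.reg (Ioo s s')) :=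
    reg_disj H (fun t ht => by have := mem_Ioo.1 ht; omega)
      (fun t ht => by have := mem_Ioo.1 ht; omega)
      fun t ht t' ht' => by have := mem_Ioo.1 ht; have := mem_Ioo.1 ht'; omega
  have K := (stg V G _ _ F _ _ _ _ _ P1 d1 L).2 fun τ hτ => by
    have := (g4 _ (hm τ (mem_range.2 hτ))).2
    rwa [← (hπ τ hτ).2] at this
  have A := append S1 hp K (disjoint_union_right.2 ⟨d3, d2⟩)
    fun τ hτ => (g4 _ (hm τ (mem_range.2 hτ))).1
  refine ⟨_, _, ⟨mem_Icc.2 (by omega), mem_Icc.2 (by omega), by omega,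
    E1.d1.mono (Icc_subset_Icc_right h2.le) subset_rfl,
    E2.d2.mono (Icc_subset_Icc_left h1.le) fun w hw => ?_⟩, ser_mono A ?_, P2⟩
  · obtain ⟨τ, hτ, rfl⟩ := mem_image.1 hw
    exact mem_image_of_mem y (mem_range.2 (hπ τ (mem_range.1 hτ)).1)
  · exact union_subset (reg_mono (Ioo_subset_Ioo_right h2.le))
      (union_subset (reg_mono (Ioo_subset_Ioo_left h1.le)) (R_sub H hsN (mem_Ioo.2 ⟨h1, h2⟩)))

end SerL

theorem ser : PermStmt → SerStmt := by
  intro perm V G Amb Rt N F₀ h F k W z Φ H hW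
  induction k with
  | zero =>
    intro _ hp
    obtain ⟨a, b, S, e, d, θ, E, St, Sh, hΦ⟩ := hp 0 le_rfl
    rw [Nat.zero_mul, Nat.add_zero] at E St
    refine ⟨a, b, fun _ => S, fun _ => e, fun _ => d, fun _ => θ, E,
      ⟨fun _ _ => St, fun j hj j' hj' hr => by omega⟩, fun p hp => ⟨Sh, ?_⟩⟩
    rwa [Nat.le_zero.1 hp]
  | succ k ih =>
    intro hN hp
    have e1 : (k + 1 + 1) * W = (k + 1) * W + W := Nat.succ_mul _ _
    have e2 : (k + 1) * W = k * W + W := Nat.succ_mul _ _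
    obtain ⟨a, b, S, e, d, θ, E1, S1, hS⟩ := ih (by omega) fun p hpk => hp p (by omega)
    obtain ⟨x, y, T, e', d', θ', E2, S2, hT, hΦ⟩ := hp (k + 1) le_rfl
    obtain ⟨y', T', E3, S3, hT'⟩ := SerL.step perm H (by omega) (by omega) hN E1 S1
      (S1.one 0 (by omega)).pass E2 S2 hT
    refine ⟨a, y', _, fun j => if j = k + 1 then e' else e j, fun j => if j = k + 1 then d' else d j,
      fun j => if j = k + 1 then θ' else θ j, E3, S3, fun p hpk => ?_⟩
    by_cases c : p = k + 1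
    · simp only [if_pos c]
      exact ⟨hT', c ▸ hΦ⟩
    · simp only [if_neg c]
      exact hS p (by omega)

end Pool.Agent.MP_35cb46_co.Fl
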