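import Mathlib.Combinatorics.Pigeonhole
import Mathlib.Data.Finset.Sort
import Pool.Agent.MP_35cb46_co.fl.USpec

/-! PROJECT FL: row UNIT. -/

noncomputable section

namespace Pool.Agent.MP_35cb46_co.Fl

open Finset Pool.Agent.MP_7be75d_co Pool.Agent.MP_35cb46_co.Sq Pool.Agent.MP_35cb46_co.Nl
open scoped Classical

namespace UnitL

theorem enum (P : Finset ℕ) {n : ℕ} (h : n ≤ P.card) :
    ∃ ix : ℕ → ℕ, (∀ a < n, ix a ∈ P) ∧ ∀ a < n, ∀ b < n, ix a = ix b → a = b := by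
  refine ⟨fun a => if h : a < P.card then P.orderEmbOfFin rfl ⟨a, h⟩ else 0, fun a ha => ?_,
    fun a ha b hb e => ?_⟩
  · dsimp only
    rw [dif_pos (ha.trans_le h)]
    exact orderEmbOfFin_mem _ _ _
  · dsimp only at e
    rw [dif_pos (ha.trans_le h), dif_pos (hb.trans_le h)] at e
    exact congrArg Fin.val ((P.orderEmbOfFin rfl).injective e)

theorem poor0 {V : Type} (G : SimpleGraph V) (h : HD V) (F₀ : ℕ) (Cl : Finset ℕ) (n z : ℕ) :
    PoorC G h F₀ Cl n 0 z := by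
  intro s _ s' _ _ E E' _ _ _ _ R₁ R₂ J₁ J₂ A₁ I₁ O₁ A₂ I₂ O₂ S y c₁ c₂ _ _ _ _ _ _ _ _ _ _ _ _ _ hl
  rcases S.eq_empty_or_nonempty with rfl | ⟨x, hx⟩
  · exact Nat.zero_le _
  · exact absurd (hl (c₁ x) (c₂ x)) (card_pos.2 ⟨x, by simp [hx]⟩).not_ge

theorem count {B m nm NK c : ℕ} (hB : 2 ≤ B) (hm : m ≤ B) (hn : nm ≤ B) (h : B ^ 18 ≤ NK)
    (hc : NK ≤ c + m * ((m + 1) * nm * B * (2 * nm))) : 2 * ((m + 1) * nm) ≤ c := by
  have a1 : m + 1 ≤ B * B := by nlinarith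
  have a2 : 2 * nm ≤ B * B := by nlinarith
  have a3 : m * ((m + 1) * nm * B * (2 * nm)) ≤ B * (B * B * B * B * (B * B)) := by gcongr
  have a4 : 2 * ((m + 1) * nm) ≤ B * (B * B * B) := by gcongr
  have a5 : B ^ 4 ≤ B ^ 7 := Nat.pow_le_pow_right (by omega) (by omega)
  have a6 : 2 * B ^ 7 ≤ B * B ^ 7 := by gcongr
  have a7 : B ^ 8 ≤ B ^ 18 := Nat.pow_le_pow_right (by omega) (by omega)
  have a8 : B * (B * B * B * B * (B * B)) = B ^ 7 := by ring
  have a9 : B * (B * B * B) = B ^ 4 := by ring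
  have a10 : B * B ^ 7 = B ^ 8 := by ring
  omega

end UnitL

open UnitL in
theorem unitOf (hcl : CleanStmt) (hru : RungStmt) (hfi : FillStmt) : UnitStmt := by
  refine ⟨18, ?_⟩
  intro V _ G Amb Rt N F₀ h Λ NK L k B M Θ f z Q nm n _ hH hK hF hθ hPi hB hM hm hnm hΘ hΘM hf hz
    hy1 hyQ hj hQ hNK
  obtain ⟨P, T, p1, p2, t1, t2, t3⟩ := hcl NK L.m (2 * nm) ((L.m + 1) * nm * B)
    fun j X => ¬ PoorC G h F₀ (X.biUnion fun a => (k a).U) (n j) (L.yB j / Q) z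
  obtain ⟨ix, i1, i2⟩ := enum P (count (by omega) hm hnm hNK p2)
  have iN : ∀ a < 2 * ((L.m + 1) * nm), ix a < NK := fun a ha => mem_range.1 (p1 (i1 a ha))
  obtain ⟨Y, hY⟩ : ∃ Y : ℕ → Finset ℕ,
    Y = fun μ => (range L.m ×ˢ range B).biUnion fun q => T q.1 (μ * B + q.2) := ⟨_, rfl⟩
  have lt : ∀ μ < (L.m + 1) * nm, ∀ g < B, μ * B + g < (L.m + 1) * nm * B := fun μ hμ g hg =>
    (Nat.add_lt_add_left hg _).trans_le (by rw [← Nat.succ_mul]; exact Nat.mul_le_mul_right _ hμ)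
  have y0 : ∀ μ a, a ∈ Y μ ↔ ∃ j < L.m, ∃ g < B, a ∈ T j (μ * B + g) := fun μ a => by
    simp [hY]
  have y1 : ∀ μ < (L.m + 1) * nm, ∀ a ∈ Y μ, a < NK ∧ a ∉ P := fun μ hμ a ha => by
    obtain ⟨j, hj, g, hg, ha⟩ := (y0 μ a).1 ha
    simpa using t1 j hj _ (lt μ hμ g hg) ha
  have dj : ∀ X X' : Finset ℕ, (∀ a ∈ X, a < NK) → (∀ a ∈ X', a < NK) → Disjoint X X' →
      Disjoint (X.biUnion fun a => (k a).U) (X'.biUnion fun a => (k a).U) := fun X X' h1 h2 h3 => by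
    rw [disjoint_biUnion_left]
    intro a ha
    rw [disjoint_biUnion_right]
    exact fun b hb => hK.disj a (h1 a ha) b (h2 b hb) fun e => disjoint_left.1 h3 ha (e ▸ hb)
  have wk : ∀ μ < (L.m + 1) * nm, ∀ a < 2 * ((L.m + 1) * nm),
      Disjoint ((Y μ).biUnion fun a => (k a).U) (k (ix a)).U := fun μ hμ a ha => by
    rw [disjoint_biUnion_left]
    exact fun b hb => hK.disj b (y1 μ hμ b hb).1 _ (iN a ha) fun e => (y1 μ hμ b hb).2 (e ▸ i1 a ha)
  have ws : ∀ μ < (L.m + 1) * nm, ((Y μ).biUnion fun a => (k a).U) ⊆ (range N).erase 0 :=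
    fun μ hμ => biUnion_subset.2 fun a ha => (hK.kit a (y1 μ hμ a ha).1).sub
  have kd : ∀ μ < (L.m + 1) * nm, Disjoint (k (ix (2 * μ))).U (k (ix (2 * μ + 1))).U := fun μ hμ =>
    hK.disj _ (iN _ (by omega)) _ (iN _ (by omega)) fun e => by
      have := i2 _ (by omega) _ (by omega) e
      omega
  have M1 : 1 ≤ M := Nat.pos_of_ne_zero fun e => by rw [e] at hΘM; omega
  have ru : ∀ μ, ∃ i, μ < (L.m + 1) * nm → i ≤ L.m ∧
      Mod G h L Θ f i (k (ix (2 * μ))) (k (ix (2 * μ + 1))) ((Y μ).biUnion fun a => (k a).U) ∧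
      (i < L.m → ¬ Big G h L Θ (k (ix (2 * μ))) (k (ix (2 * μ + 1)))
        ((Y μ).biUnion fun a => (k a).U) i ((L.m + 1) * f)) := fun μ => by
    by_cases hμ : μ < (L.m + 1) * nm
    · obtain ⟨i, hi⟩ := hru V G Amb Rt N F₀ h L _ _ ((Y μ).biUnion fun a => (k a).U) Θ f hH
        (hK.kit _ (iN (2 * μ) (by omega))) (hK.kit _ (iN (2 * μ + 1) (by omega))) (kd μ hμ) hF hθ
        hΘ (le_trans (by rw [mul_assoc]; exact Nat.le_mul_of_pos_left _ (by omega)) hf) hy1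
      exact ⟨i, fun _ => hi⟩
    · exact ⟨0, fun e => absurd e hμ⟩
  choose r hr using ru
  obtain ⟨i, hi, hc⟩ := exists_le_card_fiber_of_mul_le_card_of_maps_to
    (s := range ((L.m + 1) * nm)) (t := range (L.m + 1)) (f := r) (n := nm)
    (fun μ hμ => mem_range.2 (Nat.lt_succ_of_le (hr μ (mem_range.1 hμ)).1)) ⟨0, by simp⟩ (by simp)
  obtain ⟨u, u1, u2⟩ := enum _ hc
  have u3 : ∀ ν < nm, u ν < (L.m + 1) * nm := fun ν hν => mem_range.1 (mem_filter.1 (u1 ν hν)).1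
  have u4 : ∀ ν < nm, r (u ν) = i := fun ν hν => (mem_filter.1 (u1 ν hν)).2
  have v1 : ∀ a < 2 * nm, 2 * u (a / 2) + a % 2 < 2 * ((L.m + 1) * nm) := fun a ha => by
    have := u3 (a / 2) (by omega)
    omega
  refine ⟨i, Nat.lt_succ_iff.1 (mem_range.1 hi), fun a => k (ix (2 * u (a / 2) + a % 2)),
    fun ν => (Y (u ν)).biUnion fun a => (k a).U,
    ⟨fun a ha => hK.kit _ (iN _ (v1 a ha)), fun a ha b hb e => hK.disj _ (iN _ (v1 a ha)) _
      (iN _ (v1 b hb)) fun e' => e ?_⟩, fun ν hν => ?_, fun ν hν => ws _ (u3 ν hν),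
    fun ν hν a ha => wk _ (u3 ν hν) _ (v1 a ha), fun ν hν ν' hν' e => dj _ _
      (fun a ha => (y1 _ (u3 ν hν) a ha).1) (fun a ha => (y1 _ (u3 ν' hν') a ha).1) ?_, ?_⟩
  · have a1 := i2 _ (v1 a ha) _ (v1 b hb) e'
    have a2 := u2 (a / 2) (by omega) (b / 2) (by omega) (by omega)
    omega
  · have := (hr _ (u3 ν hν)).2.1
    rw [u4 ν hν] at this
    have e1 : 2 * ν / 2 = ν := by omega
    have e2 : (2 * ν + 1) / 2 = ν := by omega
    have e3 : 2 * ν % 2 = 0 := by omega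
    have e4 : (2 * ν + 1) % 2 = 1 := by omega
    simp only [e1, e2, e3, e4]
    exact this
  · refine disjoint_left.2 fun a h1 h2 => ?_
    obtain ⟨j, hj, g, hg, h1⟩ := (y0 _ a).1 h1
    obtain ⟨j', hj', g', hg', h2⟩ := (y0 _ a).1 h2
    refine disjoint_left.1 (t2 j hj _ (lt _ (u3 ν hν) g hg) j' hj' _ (lt _ (u3 ν' hν') g' hg')
      fun e' => e (u2 ν hν ν' hν' ?_)) h1 h2
    have := congrArg (fun q : ℕ × ℕ => q.2 / B) e'
    simpa [mul_comm _ B, Nat.mul_add_div (show 0 < B by omega), Nat.div_eq_of_lt hg,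
      Nat.div_eq_of_lt hg'] using this
  · rcases (Nat.lt_succ_iff.1 (mem_range.1 hi)).eq_or_lt with rfl | him
    · rw [Nat.div_eq_of_lt hyQ]
      exact poor0 _ _ _ _ _ _
    rcases Nat.eq_zero_or_pos nm with rfl | h0
    · intro s hs
      simp at hs
    rcases t3 i him with ab | po
    · have hμ := u3 0 h0
      have a1 := hr _ hμ
      rw [u4 0 h0] at a1
      have tN : ∀ g < B, ∀ a ∈ T i (u 0 * B + g), a < NK := fun g hg a ha =>
        mem_range.1 (mem_sdiff.1 (t1 i him _ (lt _ hμ g hg) ha)).1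
      exact absurd (hfi V G Amb Rt N F₀ h L _ _ _
        (fun g => (T i (u 0 * B + g)).biUnion fun a => (k a).U) B M Θ f z Q (n i) i hH
        (hK.kit _ (iN _ (by omega))) (hK.kit _ (iN _ (by omega))) (kd _ hμ)
        ((ws _ hμ).trans (erase_subset _ _)) (wk _ hμ _ (by omega)) (wk _ hμ _ (by omega))
        (fun g hg => ⟨biUnion_subset_biUnion_of_subset_left _
          fun a ha => (y0 _ a).2 ⟨i, him, g, hg, ha⟩, ab _ (lt _ hμ g hg)⟩)
        (fun g hg g' hg' e => dj _ _ (tN g hg) (tN g' hg') (t2 i him _ (lt _ hμ g hg) i him _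
          (lt _ hμ g' hg') fun e' => e (by simpa using e')))
        him a1.2.1.ty hθ hPi (by omega) hM hΘ hΘM hf hz (hj i him).1 (hj i him).2 hQ) (a1.2.2 him)
    · have := po ((range (2 * nm)).image fun a => ix (2 * u (a / 2) + a % 2))
        (image_subset_iff.2 fun a ha => i1 _ (v1 a (mem_range.1 ha)))
        (card_image_le.trans (card_range _).le)
      rwa [not_not, image_biUnion] at this

end Pool.Agent.MP_35cb46_co.Fl
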