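import Pool.Agent.MP_35cb46_co.fl.Base3
import Pool.Agent.MP_35cb46_co.fl.Perm
import Pool.Agent.MP_35cb46_co.fl.Ser
import Pool.Agent.MP_35cb46_co.fl.Kit
import Pool.Agent.MP_35cb46_co.fl.Jnm
import Pool.Agent.MP_35cb46_co.fl.Mix
import Pool.Agent.MP_35cb46_co.fl.Merge
import Pool.Agent.MP_35cb46_co.fl.Abund
import Pool.Agent.MP_35cb46_co.fl.Rung
import Pool.Agent.MP_35cb46_co.fl.Fill
import Pool.Agent.MP_35cb46_co.fl.Unit

/-! PROJECT FL: the parts KIT and UNIT. -/

namespace Pool.Agent.MP_35cb46_co.Fl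

theorem kit : KitStmt := kitOf one (ser perm)

theorem unit : UnitStmt := unitOf clean (rung jn) (fill jnm merge (abund mix))

end Pool.Agent.MP_35cb46_co.Fl
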