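import Pool.Agent.MP_35cb46_co.fl.ASpec
import Pool.Agent.MP_35cb46_co.fl.Base2

/-! PROJECT FL, row WEB: cores of a layer, union of two webs. -/

noncomputable section

namespace Pool.Agent.MP_35cb46_co.Fl

open Finset Pool.Agent.MP_7be75d_co Pool.Agent.MP_35cb46_co.Sq Pool.Agent.MP_35cb46_co.Nl
open scoped Classical

namespace Webs

variable {V κ : Type} {G : SimpleGraph V} {A A' Rt : Finset V} {K g u : ℕ} {W W' : WD V κ}

theorem omsub (h : Web G A Rt K g u W) : W.Om ⊆ A := fun x hx =>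
  h.fam.sub _ (h.om x hx).1 ((h.pt _ (h.om x hx).1).1 (h.om x hx).2.1)

/-- The union of two webs. -/
def uni (W W' : WD V κ) : WD V κ where
  J := W.J ∪ W'.J
  C := fun i => if i ∈ W.J then W.C i else W'.C i
  Pt := fun i => if i ∈ W.J then W.Pt i else W'.Pt i
  Om := W.Om ∪ W'.Om
  m := fun x => if x ∈ W.Om then W.m x else W'.m x
  P := fun x => if x ∈ W.Om then W.P x else W'.P x
  tl := fun x => if x ∈ W.Om then W.tl x else W'.tl x
  own := fun x => if x ∈ W.Om then W.own x else W'.own x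
  Ro := W.Ro ∪ W'.Ro

theorem mu_le (h : Web G A Rt K g u W) (h' : Web G A' Rt K g u W') (hd : Disjoint W.Om W'.Om)
    (a b : κ) : W.mu a b + W'.mu a b ≤ (uni W W').mu a b := by
  unfold WD.mu lump
  rw [← card_union_of_disjoint (hd.mono (filter_subset _ _) (filter_subset _ _))]
  refine card_le_card fun x hx => ?_
  rcases mem_union.1 hx with hx | hx
  · obtain ⟨h1, h2⟩ := mem_filter.1 hx
    have h3 := (h.om x h1).2.2.1
    refine mem_filter.2 ⟨mem_union_left _ h1, ?_⟩
    simpa only [uni, if_pos h1, if_pos h3] using h2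
  · obtain ⟨h1, h2⟩ := mem_filter.1 hx
    have h3 := disjoint_right.1 hd (h'.om x h1).2.2.1
    have h4 := disjoint_right.1 hd h1
    refine mem_filter.2 ⟨mem_union_right _ h1, ?_⟩
    simpa only [uni, if_neg h4, if_neg h3] using h2

theorem cw_mono (w : κ → κ → ℕ) {X X' Y Y' : Finset κ} (hX : X ⊆ X') (hY : Y ⊆ Y') :
    cw w X Y ≤ cw w X' Y' :=
  (sum_le_sum fun _ _ => sum_le_sum_of_subset hY).trans (sum_le_sum_of_subset hX)

theorem famu {α : Type} {S S' : Finset α} {X X' : α → Finset V} (h : Fam G A S X)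
    (h' : Fam G A' S' X') (hd : Disjoint A A') :
    Fam G (A ∪ A') (S ∪ S') fun i => if i ∈ S then X i else X' i := by
  have k : ∀ i ∈ S ∪ S', i ∉ S → i ∈ S' := fun i hi n => (mem_union.1 hi).resolve_left n
  refine ⟨fun a ha => ?_, fun a ha => ?_, fun a ha b hb n => ?_⟩
  · split_ifs with c
    · exact (h.sub a c).trans subset_union_left
    · exact (h'.sub a (k a ha c)).trans subset_union_right
  · split_ifs with c
    · exact h.conn a c
    · exact h'.conn a (k a ha c)
  · split_ifs with c d d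
    · exact h.disj a c b d n
    · exact hd.mono (h.sub a c) (h'.sub b (k b hb d))
    · exact hd.symm.mono (h'.sub a (k a ha c)) (h.sub b d)
    · exact h'.disj a (k a ha c) b (k b hb d) n

theorem web (h : Web G A Rt K g u W) (h' : Web G A' Rt K g u W') (hA : Disjoint A A')
    (hJ : Disjoint W.J W'.J) (hR : W.Ro ⊆ A) (hR' : W'.Ro ⊆ A') :
    Web G (A ∪ A') Rt K g u (uni W W') := by
  have hd : Disjoint W.Om W'.Om := hA.mono (omsub h) (omsub h')
  have k : ∀ x ∈ W.Om ∪ W'.Om, x ∉ W.Om → x ∈ W'.Om := fun i hi n =>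
    (mem_union.1 hi).resolve_left n
  have kJ : ∀ i ∈ W.J ∪ W'.J, i ∉ W.J → i ∈ W'.J := fun i hi n => (mem_union.1 hi).resolve_left n
  refine ⟨famu h.fam h'.fam hA, fun i hi => ?_, fun x hx => ?_,
    ⟨famu h.str.fam h'.str.fam hA, fun x hx => ?_, fun x hx => ?_⟩, fun x hx i hi v hv hc => ?_,
    fun x hx => ?_, union_subset h.ro.1 h'.ro.1, ?_⟩
  · by_cases c : i ∈ W.J
    · simpa only [uni, if_pos c] using h.pt i c
    · simpa only [uni, if_neg c] using h'.pt i (kJ i hi c)
  · by_cases c : x ∈ W.Om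
    · obtain ⟨a1, a2, a3, a4, a5, a6⟩ := h.om x c
      simp only [uni, if_pos c, if_pos a1, if_pos a3]
      exact ⟨mem_union_left _ a1, a2, mem_union_left _ a3, a4, a5, a6⟩
    · obtain ⟨a1, a2, a3, a4, a5, a6⟩ := h'.om x (k x hx c)
      simp only [uni, if_neg c, if_neg (disjoint_right.1 hJ a1), if_neg (disjoint_right.1 hd a3)]
      exact ⟨mem_union_right _ a1, a2, mem_union_right _ a3, a4, a5, a6⟩
  · by_cases c : x ∈ W.Om
    · simpa only [uni, if_pos c] using h.str.st x c
    · simpa only [uni, if_neg c] using h'.str.st x (k x hx c)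
  · by_cases c : x ∈ W.Om
    · simpa only [uni, if_pos c] using h.str.en x c
    · simpa only [uni, if_neg c] using h'.str.en x (k x hx c)
  · by_cases c : x ∈ W.Om <;> by_cases d : i ∈ W.J
    · simp only [uni, if_pos c, if_pos d] at hv hc
      exact h.out x c i d v hv hc
    · simp only [uni, if_pos c, if_neg d] at hv hc
      exact (disjoint_left.1 hA (h.str.fam.sub x c hv) (h'.fam.sub i (kJ i hi d) hc)).elim
    · simp only [uni, if_neg c, if_pos d] at hv hc
      exact (disjoint_left.1 hA (h.fam.sub i d hc) (h'.str.fam.sub x (k x hx c) hv)).elim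
    · simp only [uni, if_neg c, if_neg d] at hv hc
      exact h'.out x (k x hx c) i (kJ i hi d) v hv hc
  · refine le_trans ?_ (mu_le h h' hd _ _)
    by_cases c : x ∈ W.Om
    · have a3 := (h.om x c).2.2.1
      simp only [uni, if_pos c, if_pos a3]
      exact (h.fat x c).trans (Nat.le_add_right _ _)
    · have a3 := (h'.om x (k x hx c)).2.2.1
      simp only [uni, if_neg c, if_neg (disjoint_right.1 hd a3)]
      exact (h'.fat x (k x hx c)).trans (Nat.le_add_left _ _)
  · exact disjoint_union_left.2 ⟨disjoint_union_right.2 ⟨h.ro.2, hA.mono hR (omsub h')⟩,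
      disjoint_union_right.2 ⟨hA.symm.mono hR' (omsub h), h'.ro.2⟩⟩

end Webs

theorem webu : WebuStmt := by
  intro V κ G A A' Rt K g u W W' h h' hA hJ hR hR'
  have hd : Disjoint W.Om W'.Om := hA.mono (Webs.omsub h) (Webs.omsub h')
  refine ⟨Webs.uni W W', Webs.web h h' hA hJ hR hR', rfl, rfl, rfl, fun i hi => if_pos hi,
    fun i hi => if_neg (disjoint_right.1 hJ hi), fun S => ?_⟩
  refine (add_le_add
    (Webs.cw_mono W.mu (X' := (W.J ∪ W'.J) ∩ S) (Y' := (W.J ∪ W'.J) \ S)
      (inter_subset_inter_right subset_union_left) (sdiff_subset_sdiff subset_union_left subset_rfl))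
    (Webs.cw_mono W'.mu (X' := (W.J ∪ W'.J) ∩ S) (Y' := (W.J ∪ W'.J) \ S)
      (inter_subset_inter_right subset_union_right)
      (sdiff_subset_sdiff subset_union_right subset_rfl))).trans ?_
  unfold cw
  rw [← sum_add_distrib]
  refine sum_le_sum fun a _ => ?_
  rw [← sum_add_distrib]
  exact sum_le_sum fun b _ => Webs.mu_le h h' hd a b

theorem cores : CoresStmt := by
  intro V G Reg Rt J A I O K g u e l hL hK he hg hc
  have ex : ∀ c, ∃ C : Finset V, c ∈ J → C ⊆ A c ∧ Conn G C ∧ I c ⊆ C ∧ O c ⊆ C ∧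
      WL (aw G) C (ind (I c ∪ O c)) 4 := by
    intro c
    by_cases h : c ∈ J
    · obtain ⟨C, hC⟩ := coreW V G (A c) (I c) (O c) (hL.cel c h) ((hc c h).1.trans (hc c h).2.symm)
        (card_pos.1 (by have := (hc c h).1; omega))
      exact ⟨C, fun _ => hC⟩
    · exact ⟨∅, fun n => (h n).elim⟩
  choose C hC using ex
  have mem : ∀ i ∈ J.image (fun c => (l, c)), i.2 ∈ J ∧ i.1 = l := by
    intro i hi
    obtain ⟨c, h, rfl⟩ := mem_image.1 hi
    exact ⟨h, rfl⟩
  refine ⟨⟨J.image fun c => (l, c), fun i => C i.2, fun i => I i.2 ∪ O i.2, ∅, id, fun _ => ∅, id,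
    fun _ => (0, 0), ∅⟩, ⟨⟨fun i hi => ?_, fun i hi => ?_, fun i hi j hj n => ?_⟩, fun i hi => ?_,
    by simp, ⟨⟨by simp, by simp, by simp⟩, by simp, by simp⟩, by simp, by simp, by simp⟩,
    rfl, rfl, rfl, fun _ _ => rfl⟩
  · exact (hC _ (mem i hi).1).1.trans (hL.sub _ (mem i hi).1)
  · exact (hC _ (mem i hi).1).2.1
  · exact (hL.disj _ (mem i hi).1 _ (mem j hj).1 fun q =>
      n (Prod.ext ((mem i hi).2.trans (mem j hj).2.symm) q)).mono (hC _ (mem i hi).1).1
        (hC _ (mem j hj).1).1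
  · obtain ⟨-, -, a3, a4, a5⟩ := hC _ (mem i hi).1
    refine ⟨union_subset a3 a4, (card_union_le _ _).trans ?_, fun X hX =>
      (a5 X hX).trans (Nat.mul_le_mul_right _ hK)⟩
    have := hc _ (mem i hi).1
    omega

end Pool.Agent.MP_35cb46_co.Fl
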