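import Pool.Agent.MP_35cb46_co.fl.ASpec
import Pool.Agent.MP_35cb46_co.nl.DoneA

/-! PROJECT FL: new wires of a web. -/

noncomputable section

namespace Pool.Agent.MP_35cb46_co.Fl

open Finset Pool.Agent.MP_7be75d_co Pool.Agent.MP_35cb46_co.Sq Pool.Agent.MP_35cb46_co.Nl
open scoped Classical

namespace Wire

theorem cw_lump {α κ : Type} (S : Finset α) (f g : α → κ) (A B : Finset κ) :
    cw (lump S f g) A B = (S.filter fun x => f x ∈ A ∧ g x ∈ B).card := by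
  rw [card_eq_sum_card_fiberwise (f := fun x => (f x, g x)) (t := A ×ˢ B)
    (fun x hx => by simpa using (mem_filter.1 hx).2), sum_product]
  refine sum_congr rfl fun a ha => sum_congr rfl fun b hb => ?_
  unfold lump
  congr 1
  ext x
  simp only [mem_filter, Prod.mk.injEq]
  exact ⟨fun h => ⟨⟨h.1, h.2.1 ▸ ha, h.2.2 ▸ hb⟩, h.2⟩, fun h => ⟨h.1.1, h.2⟩⟩

theorem inj {V α : Type} {G : SimpleGraph V} {Fl : Finset V} {Lv : Finset α} {st ps : α → V}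
    {P : α → Finset V} (h : Fly G Fl Lv st ps P) : Set.InjOn st Lv := fun a ha b hb e =>
  by_contra fun n => disjoint_left.1 (h.disj a ha b hb n) (h.conn a ha).2.1
    (e ▸ (h.conn b hb).2.1)

end Wire

open Wire in
theorem wire : WireStmt := by
  intro V α κ G A Fl Fl' Rt K g u W Lv st ps st' ps' P P' o o' hW hF hF' d1 d2 d3 hne hL
  have i1 := inj hF
  have i2 := inj hF'
  have c1 : ∀ a ∈ Lv, st a ∈ W.C (o a) := fun a ha =>
    (hW.pt _ (hL a ha).1).1 (hL a ha).2.2.1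
  have c2 : ∀ a ∈ Lv, st' a ∈ W.C (o' a) := fun a ha =>
    (hW.pt _ (hL a ha).2.1).1 (hL a ha).2.2.2.1
  have a1 : ∀ a ∈ Lv, st a ∈ A := fun a ha => hW.fam.sub _ (hL a ha).1 (c1 a ha)
  have a2 : ∀ a ∈ Lv, st' a ∈ A := fun a ha => hW.fam.sub _ (hL a ha).2.1 (c2 a ha)
  have n1 : ∀ a ∈ Lv, st a ∉ W.Om := fun a ha h => (hL a ha).2.2.2.2.1 (mem_union_left _ h)
  have n2 : ∀ a ∈ Lv, st' a ∉ W.Om := fun a ha h => (hL a ha).2.2.2.2.2.1 (mem_union_left _ h)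
  have ne : ∀ a ∈ Lv, ∀ b ∈ Lv, st a ≠ st' b := fun a ha b hb e =>
    hne a ha b hb (hW.fam.eq (hL a ha).1 (hL b hb).2.1 (c1 a ha) (e ▸ c2 b hb))
  have p1 : ∀ a ∈ Lv, ∀ v ∈ P a, v = st a ∨ v ∈ Fl := fun a ha v hv =>
    mem_insert.1 ((hF.conn a ha).2.2.2 hv)
  have p2 : ∀ a ∈ Lv, ∀ v ∈ P' a, v = st' a ∨ v ∈ Fl' := fun a ha v hv =>
    mem_insert.1 ((hF'.conn a ha).2.2.2 hv)
  have q1 : ∀ a ∈ Lv, ∀ v ∈ P a, v ∈ A → v = st a := fun a ha v hv h =>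
    (p1 a ha v hv).resolve_right (disjoint_left.1 d1 h)
  have q2 : ∀ a ∈ Lv, ∀ v ∈ P' a, v ∈ A → v = st' a := fun a ha v hv h =>
    (p2 a ha v hv).resolve_right (disjoint_left.1 d2 h)
  have ex : ∀ v, ∃ (m t : V) (Q : Finset V) (w : κ),
      (v ∈ W.Om → m = W.m v ∧ t = W.tl v ∧ Q = W.P v ∧ w = W.own v) ∧
      (∀ a ∈ Lv, st a = v → m = st' a ∧ t = ps a ∧ Q = P a ∧ w = o a) ∧
      ∀ a ∈ Lv, st' a = v → m = st a ∧ t = ps' a ∧ Q = P' a ∧ w = o' a := by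
    intro v
    by_cases h1 : ∃ a ∈ Lv, st a = v
    · obtain ⟨a, ha, rfl⟩ := h1
      refine ⟨st' a, ps a, P a, o a, fun h => absurd h (n1 a ha), fun b hb e => ?_,
        fun b hb e => absurd e.symm (ne a ha b hb)⟩
      rw [i1 hb ha e]
      exact ⟨rfl, rfl, rfl, rfl⟩
    by_cases h2 : ∃ a ∈ Lv, st' a = v
    · obtain ⟨a, ha, rfl⟩ := h2
      refine ⟨st a, ps' a, P' a, o' a, fun h => absurd h (n2 a ha),
        fun b hb e => absurd e (ne b hb a ha), fun b hb e => ?_⟩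
      rw [i2 hb ha e]
      exact ⟨rfl, rfl, rfl, rfl⟩
    exact ⟨W.m v, W.tl v, W.P v, W.own v, fun _ => ⟨rfl, rfl, rfl, rfl⟩,
      fun a ha e => absurd ⟨a, ha, e⟩ h1, fun a ha e => absurd ⟨a, ha, e⟩ h2⟩
  choose m tl Q own hx using ex
  have e0 : ∀ v ∈ W.Om, m v = W.m v ∧ tl v = W.tl v ∧ Q v = W.P v ∧ own v = W.own v :=
    fun v hv => (hx v).1 hv
  have e1 : ∀ a ∈ Lv, m (st a) = st' a ∧ tl (st a) = ps a ∧ Q (st a) = P a ∧ own (st a) = o a :=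
    fun a ha => (hx _).2.1 a ha rfl
  have e2 : ∀ a ∈ Lv, m (st' a) = st a ∧ tl (st' a) = ps' a ∧ Q (st' a) = P' a ∧
      own (st' a) = o' a := fun a ha => (hx _).2.2 a ha rfl
  set Om := W.Om ∪ Lv.image st ∪ Lv.image st' with hOm
  have m0 : ∀ v ∈ W.Om, v ∈ Om := fun v hv => mem_union_left _ (mem_union_left _ hv)
  have m1 : ∀ a ∈ Lv, st a ∈ Om := fun a ha =>
    mem_union_left _ (mem_union_right _ (mem_image_of_mem _ ha))
  have m2 : ∀ a ∈ Lv, st' a ∈ Om := fun a ha => mem_union_right _ (mem_image_of_mem _ ha)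
  have cs : ∀ v ∈ Om, v ∈ W.Om ∨ (∃ a ∈ Lv, st a = v) ∨ ∃ a ∈ Lv, st' a = v := by
    intro v hv
    simpa only [hOm, mem_union, mem_image, or_assoc] using hv
  have o1 : ∀ x ∈ W.Om, ∀ a ∈ Lv, Disjoint (W.P x) (P a) := fun x hx a ha =>
    disjoint_left.2 fun v hv hv' => by
      have e := q1 a ha v hv' (hW.str.fam.sub x hx hv)
      exact n1 a ha (e ▸ (hW.out x hx _ (hL a ha).1 v hv (e ▸ c1 a ha)) ▸ hx)
  have o2 : ∀ x ∈ W.Om, ∀ a ∈ Lv, Disjoint (W.P x) (P' a) := fun x hx a ha =>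
    disjoint_left.2 fun v hv hv' => by
      have e := q2 a ha v hv' (hW.str.fam.sub x hx hv)
      exact n2 a ha (e ▸ (hW.out x hx _ (hL a ha).2.1 v hv (e ▸ c2 a ha)) ▸ hx)
  have o3 : ∀ a ∈ Lv, ∀ b ∈ Lv, Disjoint (P a) (P' b) := fun a ha b hb =>
    disjoint_left.2 fun v hv hv' => by
      rcases p1 a ha v hv with e | e
      · exact ne a ha b hb (e.symm.trans (q2 b hb v hv' (e ▸ a1 a ha)))
      · rcases p2 b hb v hv' with e' | e'
        · exact disjoint_left.1 d1 (e' ▸ a2 b hb) e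
        · exact disjoint_left.1 d3 e e'
  have sA : A ⊆ A ∪ Fl ∪ Fl' := subset_union_left.trans subset_union_left
  refine ⟨{ W with Om := Om, m := m, P := Q, tl := tl, own := own },
    ⟨hW.fam.mono sA subset_rfl, hW.pt, ?_, ⟨⟨?_, ?_, ?_⟩, ?_, ?_⟩, ?_, ?_, hW.ro.1, ?_⟩,
    rfl, rfl, rfl, rfl, ?_⟩
  · intro x hx
    dsimp only
    rcases cs x hx with h | ⟨a, ha, rfl⟩ | ⟨a, ha, rfl⟩
    · obtain ⟨b1, b2, b3, b4, b5, b6⟩ := hW.om x h
      rw [(e0 x h).1, (e0 x h).2.1, (e0 x h).2.2.2, (e0 _ b3).1, (e0 _ b3).2.1, (e0 _ b3).2.2.2]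
      exact ⟨b1, b2, m0 _ b3, b4, b5, b6⟩
    · rw [(e1 a ha).1, (e1 a ha).2.1, (e1 a ha).2.2.2, (e2 a ha).1, (e2 a ha).2.1, (e2 a ha).2.2.2]
      exact ⟨(hL a ha).1, (hL a ha).2.2.1, m2 a ha, rfl, (hne a ha a ha).symm,
        (hL a ha).2.2.2.2.2.2.1⟩
    · rw [(e2 a ha).1, (e2 a ha).2.1, (e2 a ha).2.2.2, (e1 a ha).1, (e1 a ha).2.1, (e1 a ha).2.2.2]
      exact ⟨(hL a ha).2.1, (hL a ha).2.2.2.1, m1 a ha, rfl, hne a ha a ha,
        (hL a ha).2.2.2.2.2.2.1.symm⟩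
  · intro x hx v hv
    dsimp only at hv
    rcases cs x hx with h | ⟨a, ha, rfl⟩ | ⟨a, ha, rfl⟩
    · rw [(e0 x h).2.2.1] at hv
      exact sA (hW.str.fam.sub x h hv)
    · rw [(e1 a ha).2.2.1] at hv
      rcases p1 a ha v hv with e | e
      · exact sA (e ▸ a1 a ha)
      · exact mem_union_left _ (mem_union_right _ e)
    · rw [(e2 a ha).2.2.1] at hv
      rcases p2 a ha v hv with e | e
      · exact sA (e ▸ a2 a ha)
      · exact mem_union_right _ e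
  · intro x hx
    dsimp only
    rcases cs x hx with h | ⟨a, ha, rfl⟩ | ⟨a, ha, rfl⟩
    · rw [(e0 x h).2.2.1]; exact hW.str.fam.conn x h
    · rw [(e1 a ha).2.2.1]; exact (hF.conn a ha).1
    · rw [(e2 a ha).2.2.1]; exact (hF'.conn a ha).1
  · intro x hx y hy hxy
    dsimp only
    rcases cs x hx with h | ⟨a, ha, rfl⟩ | ⟨a, ha, rfl⟩ <;>
      rcases cs y hy with h' | ⟨b, hb, rfl⟩ | ⟨b, hb, rfl⟩
    · rw [(e0 x h).2.2.1, (e0 y h').2.2.1]; exact hW.str.fam.disj x h y h' hxy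
    · rw [(e0 x h).2.2.1, (e1 b hb).2.2.1]; exact o1 x h b hb
    · rw [(e0 x h).2.2.1, (e2 b hb).2.2.1]; exact o2 x h b hb
    · rw [(e0 y h').2.2.1, (e1 a ha).2.2.1]; exact (o1 y h' a ha).symm
    · rw [(e1 a ha).2.2.1, (e1 b hb).2.2.1]; exact hF.disj a ha b hb fun e => hxy (e ▸ rfl)
    · rw [(e1 a ha).2.2.1, (e2 b hb).2.2.1]; exact o3 a ha b hb
    · rw [(e0 y h').2.2.1, (e2 a ha).2.2.1]; exact (o2 y h' a ha).symm
    · rw [(e2 a ha).2.2.1, (e1 b hb).2.2.1]; exact (o3 b hb a ha).symm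
    · rw [(e2 a ha).2.2.1, (e2 b hb).2.2.1]; exact hF'.disj a ha b hb fun e => hxy (e ▸ rfl)
  · intro x hx
    dsimp only [id]
    rcases cs x hx with h | ⟨a, ha, rfl⟩ | ⟨a, ha, rfl⟩
    · rw [(e0 x h).2.2.1]; exact hW.str.st x h
    · rw [(e1 a ha).2.2.1]; exact (hF.conn a ha).2.1
    · rw [(e2 a ha).2.2.1]; exact (hF'.conn a ha).2.1
  · intro x hx
    dsimp only
    rcases cs x hx with h | ⟨a, ha, rfl⟩ | ⟨a, ha, rfl⟩
    · rw [(e0 x h).2.2.1, (e0 x h).2.1]; exact hW.str.en x h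
    · rw [(e1 a ha).2.2.1, (e1 a ha).2.1]; exact (hF.conn a ha).2.2.1
    · rw [(e2 a ha).2.2.1, (e2 a ha).2.1]; exact (hF'.conn a ha).2.2.1
  · intro x hx i hi v hv hC
    dsimp only at hv
    rcases cs x hx with h | ⟨a, ha, rfl⟩ | ⟨a, ha, rfl⟩
    · rw [(e0 x h).2.2.1] at hv
      exact hW.out x h i hi v hv hC
    · rw [(e1 a ha).2.2.1] at hv
      exact q1 a ha v hv (hW.fam.sub i hi hC)
    · rw [(e2 a ha).2.2.1] at hv
      exact q2 a ha v hv (hW.fam.sub i hi hC)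
  · intro x hx
    unfold WD.mu lump
    dsimp only
    rcases cs x hx with h | ⟨a, ha, rfl⟩ | ⟨a, ha, rfl⟩
    · refine (hW.fat x h).trans (card_le_card fun y hy => ?_)
      obtain ⟨y1, y2, y3⟩ := mem_filter.1 hy
      refine mem_filter.2 ⟨m0 y y1, ?_⟩
      rw [(e0 x h).1, (e0 x h).2.2.2, (e0 _ (hW.om x h).2.2.1).2.2.2, (e0 y y1).1,
        (e0 y y1).2.2.2, (e0 _ (hW.om y y1).2.2.1).2.2.2]
      exact ⟨y2, y3⟩
    · refine (hL a ha).2.2.2.2.2.2.2.trans (card_le_card_of_injOn st (fun b hb => ?_)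
        (i1.mono (coe_subset.2 (filter_subset _ _))))
      obtain ⟨y1, y2, y3⟩ := mem_filter.1 (mem_coe.1 hb)
      refine mem_coe.2 (mem_filter.2 ⟨m1 b y1, ?_⟩)
      rw [(e1 a ha).1, (e1 a ha).2.2.2, (e2 a ha).2.2.2, (e1 b y1).1, (e1 b y1).2.2.2,
        (e2 b y1).2.2.2]
      exact ⟨y2, y3⟩
    · refine (hL a ha).2.2.2.2.2.2.2.trans (card_le_card_of_injOn st' (fun b hb => ?_)
        (i2.mono (coe_subset.2 (filter_subset _ _))))
      obtain ⟨y1, y2, y3⟩ := mem_filter.1 (mem_coe.1 hb)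
      refine mem_coe.2 (mem_filter.2 ⟨m2 b y1, ?_⟩)
      rw [(e2 a ha).1, (e2 a ha).2.2.2, (e1 a ha).2.2.2, (e2 b y1).1, (e2 b y1).2.2.2,
        (e1 b y1).2.2.2]
      exact ⟨y3, y2⟩
  · refine disjoint_left.2 fun x hx hx' => ?_
    rcases cs x hx' with h | ⟨a, ha, rfl⟩ | ⟨a, ha, rfl⟩
    · exact disjoint_left.1 hW.ro.2 hx h
    · exact (hL a ha).2.2.2.2.1 (mem_union_right _ hx)
    · exact (hL a ha).2.2.2.2.2.1 (mem_union_right _ hx)
  · intro S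
    have k0 : cw W.mu (W.J ∩ S) (W.J \ S) = _ := cw_lump W.Om W.own (fun x => W.own (W.m x)) _ _
    have k1 := cw_lump Om own (fun x => own (m x)) (W.J ∩ S) (W.J \ S)
    refine le_of_le_of_eq ?_ k1.symm
    rw [k0]
    let φ : α → V := fun a => if o a ∈ S then st a else st' a
    have hφ : ∀ a ∈ Lv, φ a = st a ∨ φ a = st' a := fun a _ => by
      by_cases h : o a ∈ S <;> simp [φ, h]
    have iφ : Set.InjOn φ Lv := by
      intro a ha b hb e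
      rcases hφ a ha with h | h <;> rcases hφ b hb with h' | h'
      · exact i1 ha hb (h.symm.trans (e.trans h'))
      · exact absurd (h.symm.trans (e.trans h')) (ne a ha b hb)
      · exact absurd (h.symm.trans (e.trans h')).symm (ne b hb a ha)
      · exact i2 ha hb (h.symm.trans (e.trans h'))
    rw [← card_image_of_injOn (iφ.mono (coe_subset.2 (filter_subset _ Lv))),
      ← card_union_of_disjoint]
    · refine card_le_card (union_subset (fun y hy => ?_) fun y hy => ?_)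
      · obtain ⟨y1, y2, y3⟩ := mem_filter.1 hy
        refine mem_filter.2 ⟨m0 y y1, ?_⟩
        rw [(e0 y y1).1, (e0 y y1).2.2.2, (e0 _ (hW.om y y1).2.2.1).2.2.2]
        exact ⟨y2, y3⟩
      · obtain ⟨a, ha, rfl⟩ := mem_image.1 hy
        obtain ⟨ha, hs⟩ := mem_filter.1 ha
        by_cases h : o a ∈ S
        · simp only [φ, h, if_true]
          refine mem_filter.2 ⟨m1 a ha, ?_⟩
          rw [(e1 a ha).1, (e1 a ha).2.2.2, (e2 a ha).2.2.2]
          exact ⟨mem_inter.2 ⟨(hL a ha).1, h⟩, mem_sdiff.2 ⟨(hL a ha).2.1, by tauto⟩⟩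
        · simp only [φ, h, if_false]
          refine mem_filter.2 ⟨m2 a ha, ?_⟩
          rw [(e2 a ha).1, (e2 a ha).2.2.2, (e1 a ha).2.2.2]
          exact ⟨mem_inter.2 ⟨(hL a ha).2.1, by tauto⟩, mem_sdiff.2 ⟨(hL a ha).1, h⟩⟩
    · refine disjoint_left.2 fun y hy hy' => ?_
      obtain ⟨a, ha, rfl⟩ := mem_image.1 hy'
      have ha := (mem_filter.1 ha).1
      rcases hφ a ha with h | h
      · exact n1 a ha (h ▸ (mem_filter.1 hy).1)
      · exact n2 a ha (h ▸ (mem_filter.1 hy).1)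

end Pool.Agent.MP_35cb46_co.Fl
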