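import Pool.Agent.MP_35cb46_co.fl.CMain
import Pool.Agent.MP_35cb46_co.fl.UMain
import Pool.Agent.MP_35cb46_co.fl.End
import Pool.Agent.MP_35cb46_co.fl.Core
import Pool.Agent.MP_35cb46_co.fl.Mid
import Pool.Agent.MP_35cb46_co.fl.Host
import Pool.Agent.MP_35cb46_co.fl.Hostb
import Pool.Agent.MP_35cb46_co.fl.Chain
import Pool.Agent.MP_35cb46_co.fl.Climb
import Pool.Agent.MP_35cb46_co.fl.Duel
import Pool.Agent.MP_35cb46_co.fl.Game
import Pool.Agent.MP_35cb46_co.fl.Jstep
import Pool.Agent.MP_35cb46_co.fl.Wstep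
import Pool.Agent.MP_35cb46_co.fl.Kill
import Pool.Agent.MP_35cb46_co.fl.Webs
import Pool.Agent.MP_35cb46_co.fl.Wire
import Pool.Agent.MP_35cb46_co.fl.Sel
import Pool.Agent.MP_35cb46_co.fl.Fin
import Pool.Agent.MP_35cb46_co.fl.Num

/-! PROJECT FL: all rows put together. -/

namespace Pool.Agent.MP_35cb46_co.Fl

theorem midAll : MidStmt :=
  mid pcok hosta hostb
    (chain (climb qsel (jstep step jsel fly) (thru fly) (wstep step kill cores webu wire))
      (topk (tops tsel fly)))
    (duel (game (round fly kill) webu wire))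

theorem core : CoreStmt := coreOf cell kit unit midAll endw num

theorem main : FullStmt := full_of_core core

end Pool.Agent.MP_35cb46_co.Fl
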