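import Pool.Agent.MP_35cb46_co.fl.Step

/-! PROJECT FL: random assignments of nodes (pure counting). -/

noncomputable section

namespace Pool.Agent.MP_35cb46_co.Fl.Asg

open Finset Pool.Agent.MP_7be75d_co Pool.Agent.MP_35cb46_co.Sq Pool.Agent.MP_35cb46_co.Nl
open Pool.Agent.MP_35cb46_co.Fl.VarL
open scoped Classical

variable {α β κ : Type}

/-- Second moments for choices from finite sets. -/
theorem varf {K J : Type} (b₀ : β) (W : K → Finset β) (I : Finset J) (lam s : J → ℝ)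
    (X : K → J → β → ℝ) (hl : ∀ j, 0 ≤ lam j) (h0 : ∀ k j w, 0 ≤ X k j w)
    (h1 : ∀ k j w, X k j w ≤ s j) (S : Finset K) (hS : ∀ k ∈ S, (W k).Nonempty) :
    ∃ w : K → β, (∀ k ∈ S, w k ∈ W k) ∧
      ∑ j ∈ I, lam j * (∑ k ∈ S, X k j (w k) - ∑ k ∈ S, (∑ v ∈ W k, X k j v) / (W k).card) ^ 2
        ≤ ∑ j ∈ I, lam j * (s j * ∑ k ∈ S, (∑ v ∈ W k, X k j v) / (W k).card) := by
  let W' : K → Finset β := fun k => if (W k).Nonempty then W k else {b₀}
  have hne : ∀ k, Nonempty (W' k) := fun k => by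
    refine nonempty_coe_sort.2 ?_
    by_cases h : (W k).Nonempty
    · simp only [W', if_pos h]; exact h
    · simp only [W', if_neg h]; exact singleton_nonempty _
  have he : ∀ k ∈ S, W' k = W k := fun k hk => if_pos (hS k hk)
  obtain ⟨w, hw⟩ := var (W := fun k => W' k) I lam s (fun k j v => X k j v) hl
    (fun _ _ _ => h0 _ _ _) (fun _ _ _ => h1 _ _ _) S
  have e : ∀ j, ∑ k ∈ S, (∑ v : W' k, X k j v) / Fintype.card (W' k)
      = ∑ k ∈ S, (∑ v ∈ W k, X k j v) / (W k).card := fun j => sum_congr rfl fun k hk => by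
    rw [sum_coe_sort (W' k) (X k j), Fintype.card_coe, he k hk]
  refine ⟨fun k => w k, fun k hk => he k hk ▸ (w k).2, ?_⟩
  simpa only [e] using hw

/-- Fibres are cut down to given sizes. -/
theorem trim (X : Finset α) (g : α → β) (cap : β → ℕ) (B : Finset β) (hB : ∀ a ∈ X, g a ∈ B) :
    ∃ T ⊆ X, (∀ b, cnt T g b ≤ cap b) ∧ X.card ≤ T.card + ∑ b ∈ B, (cnt X g b - cap b) := by
  have h : ∀ b, ∃ T ⊆ X.filter fun a => g a = b, T.card = min (cnt X g b) (cap b) := fun b =>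
    exists_subset_card_eq (min_le_left _ _)
  choose T h1 h2 using h
  have e : ∀ b, (X.filter fun a => a ∈ T (g a)).filter (fun a => g a = b) = T b := fun b => by
    ext a
    simp only [mem_filter]
    constructor
    · rintro ⟨⟨_, q⟩, rfl⟩; exact q
    · intro q
      obtain ⟨q1, q2⟩ := mem_filter.1 (h1 b q)
      exact ⟨⟨q1, q2 ▸ q⟩, q2⟩
  refine ⟨X.filter fun a => a ∈ T (g a), filter_subset _ _, fun b => ?_, ?_⟩
  · exact ((congrArg card (e b)).trans (h2 b)).le.trans (min_le_right _ _)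
  · rw [card_eq_sum_card_fiberwise (f := g) (s := X) (t := B) hB,
      card_eq_sum_card_fiberwise (f := g) (s := X.filter fun a => a ∈ T (g a)) (t := B)
        fun a ha => hB a (mem_filter.1 (mem_coe.1 ha)).1, ← sum_add_distrib]
    refine sum_le_sum fun b _ => ?_
    rw [e b, h2 b]
    have : (X.filter fun a => g a = b).card = cnt X g b := rfl
    omega

theorem cnt_mono {X Y : Finset α} (h : X ⊆ Y) (g : α → β) (b : β) : cnt X g b ≤ cnt Y g b :=
  card_le_card (filter_subset_filter _ h)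

theorem cnt_congr {X : Finset α} {g g' : α → β} (h : ∀ a ∈ X, g a = g' a) (b : β) :
    cnt X g b = cnt X g' b := by
  unfold cnt
  congr 1
  ext a
  simp only [mem_filter]
  exact and_congr_right fun ha => by rw [h a ha]

theorem lump_mono {X Y : Finset α} (h : X ⊆ Y) (f : α → β) (g : α → κ) (b : β) (c : κ) :
    lump X f g b c ≤ lump Y f g b c := card_le_card (filter_subset_filter _ h)

theorem lump_eq (X : Finset α) (f g : α → ℕ) (b c : ℕ) :
    lump X f g b c = cnt X (fun a => (f a, g a)) (b, c) := by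
  unfold lump cnt
  congr 1
  ext a
  simp only [mem_filter, Prod.mk.injEq]

theorem cnt_inj {X : Finset α} {J : Finset ℕ} {η : α → ℕ} (h1 : ∀ a ∈ X, η a ∈ J)
    (h2 : Set.InjOn η X) (l : ℕ → ℕ) (c : ℕ) : cnt X (fun a => l (η a)) c ≤ cnt J l c := by
  unfold cnt
  refine card_le_card_of_injOn η (fun a ha => ?_) fun a ha b hb e => ?_
  · simp only [coe_filter, Set.mem_ofPred_eq] at ha ⊢
    exact ⟨h1 a ha.1, ha.2⟩
  · simp only [coe_filter, Set.mem_ofPred_eq] at ha hb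
    exact h2 ha.1 hb.1 e

theorem sub_le {a b : ℕ} {m c : ℝ} (hc : 0 < c) (h : m + c ≤ b) :
    ((a - b : ℕ) : ℝ) ≤ 1 / (4 * c) * (a - m) ^ 2 := by
  refine le_trans ?_ (excess _ c hc)
  rcases le_total a b with q | q
  · rw [Nat.sub_eq_zero_of_le q]; simp
  · rw [Nat.cast_sub q]; exact le_max_of_le_left (by linarith)

theorem sub_le' {a b : ℕ} {m t : ℝ} (ht : 0 < t) (h : m ≤ b) :
    ((a - b : ℕ) : ℝ) ≤ 1 / (2 * t) * (a - m) ^ 2 + t / 2 := by
  refine le_trans ?_ (absdev _ t ht)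
  rcases le_total a b with q | q
  · rw [Nat.sub_eq_zero_of_le q]; simp
  · rw [Nat.cast_sub q]; exact le_trans (by linarith) (le_abs_self _)

theorem cnt_nat (X : Finset α) (g : α → ℕ) (b : ℕ) :
    cnt X g b = (X.filter fun a => g a = b).card := by
  unfold cnt
  congr

/-- Every node draws an option: second moments of the loads. -/
theorem draw0 {J : Type} (I : Finset J) (X : Finset α) (A : J → Finset α) (yy : J → ℕ)
    (lam : J → ℝ) (nd : α → ℕ) (W : ℕ → Finset ℕ) (tg : ℕ → ℕ) (d : ℕ) (hA : ∀ j, A j ⊆ X)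
    (hl : ∀ j, 0 ≤ lam j) (hd : ∀ n, cnt X nd n ≤ d) (hW : ∀ a ∈ X, (W (nd a)).Nonempty) :
    ∃ w : ℕ → ℕ, (∀ a ∈ X, w (nd a) ∈ W (nd a)) ∧
      ∑ j ∈ I, lam j * ((cnt (A j) (fun a => tg (w (nd a))) (yy j) : ℝ) -
        ∑ a ∈ A j, (cnt (W (nd a)) tg (yy j) : ℝ) / (W (nd a)).card) ^ 2 ≤
      ∑ j ∈ I, lam j * (d * ∑ a ∈ A j, (cnt (W (nd a)) tg (yy j) : ℝ) / (W (nd a)).card) := by
  let Z : ℕ → J → ℕ → ℕ := fun n j v => if tg v = yy j then cnt (A j) nd n else 0
  obtain ⟨w, w1, w2⟩ := varf 0 W I lam (fun _ => (d : ℝ)) (fun n j v => (Z n j v : ℝ)) hl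
    (fun _ _ _ => Nat.cast_nonneg _) (fun n j v => by
      refine Nat.cast_le.2 ?_
      dsimp only [Z]
      split_ifs
      · exact (cnt_mono (hA j) nd n).trans (hd n)
      · exact Nat.zero_le _) (X.image nd) fun n hn => by
      obtain ⟨a, ha, rfl⟩ := mem_image.1 hn
      exact hW a ha
  have fib : ∀ (j) (g : ℕ → ℝ), ∑ n ∈ X.image nd, (cnt (A j) nd n : ℝ) * g n
      = ∑ a ∈ A j, g (nd a) := fun j g => by
    rw [← sum_fiberwise_of_maps_to (s := A j) (t := X.image nd) (g := nd)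
      fun a ha => mem_image_of_mem _ (hA j ha)]
    refine sum_congr rfl fun n _ => ?_
    rw [sum_congr rfl (g := fun _ => g n) fun a ha => by rw [(mem_filter.1 ha).2], cnt_nat]
    simp
  have e1 : ∀ j, ∑ n ∈ X.image nd, (Z n j (w n) : ℝ)
      = cnt (A j) (fun a => tg (w (nd a))) (yy j) := fun j => by
    rw [cnt_nat, card_filter (fun a => tg (w (nd a)) = yy j)]
    push_cast
    rw [← fib j fun n => if tg (w n) = yy j then 1 else 0]
    refine sum_congr rfl fun n _ => ?_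
    dsimp only [Z]
    split_ifs <;> simp
  have e2 : ∀ j, ∑ n ∈ X.image nd, (∑ v ∈ W n, (Z n j v : ℝ)) / (W n).card
      = ∑ a ∈ A j, (cnt (W (nd a)) tg (yy j) : ℝ) / (W (nd a)).card := fun j => by
    rw [← fib j fun n => (cnt (W n) tg (yy j) : ℝ) / (W n).card]
    refine sum_congr rfl fun n _ => ?_
    dsimp only [Z]
    push_cast
    rw [← sum_filter, sum_const, nsmul_eq_mul, ← mul_div_assoc, mul_comm, cnt_nat (W n)]
  exact ⟨w, fun a ha => w1 _ (mem_image_of_mem _ ha), by simpa only [e1, e2] using w2⟩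

/-- Every node draws an option; lumps and loads stay near their means. -/
theorem draw (X : Finset α) (sk nd : α → ℕ) (W : ℕ → Finset ℕ) (tg : ℕ → ℕ) (Y : Finset ℕ)
    (d γ : ℕ) (m : ℕ → ℕ) (c t m₁ : ℝ) (hc : 0 < c) (ht : 0 < t) (hd : ∀ n, cnt X nd n ≤ d)
    (hW : ∀ a ∈ X, (W (nd a)).Nonempty ∧ ∀ v ∈ W (nd a), tg v ∈ Y) (hγ : m₁ + c ≤ γ)
    (h1 : ∀ k y, ∑ a ∈ X.filter fun a => sk a = k,
      (cnt (W (nd a)) tg y : ℝ) / (W (nd a)).card ≤ m₁)
    (h2 : ∀ y ∈ Y, ∑ a ∈ X, (cnt (W (nd a)) tg y : ℝ) / (W (nd a)).card ≤ m y) :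
    ∃ w : ℕ → ℕ, (∀ a ∈ X, w (nd a) ∈ W (nd a)) ∧
      ((∑ p ∈ X.image sk ×ˢ Y, (lump X sk (fun a => tg (w (nd a))) p.1 p.2 - γ) +
        ∑ y ∈ Y, (cnt X (fun a => tg (w (nd a))) y - m y) : ℕ) : ℝ) ≤
        d * X.card / (4 * c) + d * X.card / (2 * t) + Y.card * t / 2 := by
  obtain ⟨w, w1, w2⟩ := draw0 ((X.image sk ×ˢ Y).disjSum Y) X
    (fun j => j.elim (fun p => X.filter fun a => sk a = p.1) fun _ => X)
    (fun j => j.elim Prod.snd id) (fun j => j.elim (fun _ => 1 / (4 * c)) fun _ => 1 / (2 * t))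
    nd W tg d (fun j => by
      rcases j with _ | _
      exacts [filter_subset _ _, subset_rfl])
    (fun j => by rcases j with _ | _ <;> dsimp <;> positivity) hd fun a ha => (hW a ha).1
  simp only [sum_disjSum, Sum.elim_inl, Sum.elim_inr, id] at w2
  have tot : ∀ a ∈ X, ∑ y ∈ Y, (cnt (W (nd a)) tg y : ℝ) / (W (nd a)).card = 1 := fun a ha => by
    have hp : (0 : ℝ) < (W (nd a)).card := Nat.cast_pos.2 (hW a ha).1.card_pos
    rw [← sum_div, div_eq_one_iff_eq hp.ne',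
      card_eq_sum_card_fiberwise (f := tg) (t := Y) (hW a ha).2]
    simp only [cnt_nat]
    push_cast
    rfl
  have t2 : ∑ y ∈ Y, ∑ a ∈ X, (cnt (W (nd a)) tg y : ℝ) / (W (nd a)).card = X.card := by
    rw [sum_comm, sum_congr rfl tot]; simp
  have t1 : ∑ p ∈ X.image sk ×ˢ Y, ∑ a ∈ X.filter fun a => sk a = p.1,
      (cnt (W (nd a)) tg p.2 : ℝ) / (W (nd a)).card = X.card := by
    rw [sum_product_right, ← t2]
    exact sum_congr rfl fun y _ => sum_fiberwise_of_maps_to (s := X) (t := X.image sk) (g := sk)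
      (fun a ha => mem_image_of_mem _ ha) fun a => (cnt (W (nd a)) tg y : ℝ) / (W (nd a)).card
  have e : ∀ k y, cnt (X.filter fun a => sk a = k) (fun a => tg (w (nd a))) y
      = lump X sk (fun a => tg (w (nd a))) k y := fun k y => by
    unfold cnt lump
    rw [filter_filter]
    congr
  simp only [← mul_sum, t1, t2, e] at w2
  refine ⟨w, w1, ?_⟩
  have s1 := sum_le_sum (s := X.image sk ×ˢ Y) fun p _ =>
    sub_le (a := lump X sk (fun a => tg (w (nd a))) p.1 p.2) (b := γ) hc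
      ((add_le_add_left (h1 p.1 p.2) c).trans hγ)
  have s2 := sum_le_sum (s := Y) fun y hy =>
    sub_le' (a := cnt X (fun a => tg (w (nd a))) y) ht (h2 y hy)
  rw [sum_add_distrib, sum_const, nsmul_eq_mul] at s2
  rw [← mul_sum] at s1 s2
  rw [Nat.cast_add, Nat.cast_sum, Nat.cast_sum]
  have q1 : (d : ℝ) * X.card / (4 * c) = 1 / (4 * c) * (d * X.card) := by ring
  have q2 : (d : ℝ) * X.card / (2 * t) = 1 / (2 * t) * (d * X.card) := by ring
  have q3 : (Y.card : ℝ) * t / 2 = Y.card * (t / 2) := by ring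
  rw [q1, q2, q3]
  linarith

/-- The tracks of `J` in the block `z`. -/
def blk (S : SD) (J : Finset ℕ) (z : ℕ) : Finset ℕ := J.filter fun τ => S.bl (S.ce τ) = z

theorem ce_mem {S : SD} {F τ : ℕ} (h : τ < F) : S.ce τ ∈ S.cells F :=
  mem_image_of_mem _ (mem_range.2 h)

theorem ce_le {S : SD} {F e d θ : ℕ} (h : Shape F S e d θ) (c : ℕ) : cnt (range F) S.ce c ≤ e := by
  by_cases hc : c ∈ S.cells F
  · exact (h.ce c hc).le
  · rw [cnt_nat, filter_false_of_mem (p := fun τ => S.ce τ = c) fun τ ht e =>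
      hc (e ▸ ce_mem (mem_range.1 ht))]
    exact Nat.zero_le _

theorem cells_card {S : SD} {F e d θ : ℕ} (h : Shape F S e d θ) : (S.cells F).card * e = F := by
  have := card_eq_sum_card_fiberwise (f := S.ce) (s := range F) (t := S.cells F)
    fun τ ht => ce_mem (mem_range.1 (mem_coe.1 ht))
  rw [sum_congr rfl (g := fun _ => e) fun c hc => (cnt_nat _ _ _).symm.trans (h.ce c hc)] at this
  simpa using this.symm

theorem blk_card {S : SD} {F e d θ τ : ℕ} (h : Shape F S e d θ) (ht : τ < F) :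
    (blk S (range F) (S.bl (S.ce τ))).card = θ * e := by
  rw [← h.bl _ (ce_mem ht), cnt_nat, card_eq_sum_card_fiberwise (f := S.ce)
    (t := (S.cells F).filter fun c => S.bl c = S.bl (S.ce τ)) fun σ hs => by
      obtain ⟨s1, s2⟩ := mem_filter.1 (mem_coe.1 hs)
      exact mem_coe.2 (mem_filter.2 ⟨ce_mem (mem_range.1 s1), s2⟩),
    sum_congr rfl (g := fun _ => e) fun c hc => ?_]
  · simp
  · obtain ⟨c1, c2⟩ := mem_filter.1 hc
    rw [← h.ce c c1, cnt_nat]
    congr 1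
    ext σ
    simp only [blk, mem_filter]
    exact ⟨fun q => ⟨q.1.1, q.2⟩, fun q => ⟨⟨q.1, q.2 ▸ c2⟩, q.2⟩⟩

/-- The nodes are assigned in proportion to the demand `J`. -/
theorem prop (F : ℕ) (S : SD) (J : Finset ℕ) (X : Finset α) (sk η : α → ℕ) (d γ eK : ℕ)
    (c t ρ : ℝ) (hc : 0 < c) (ht : 0 < t) (hρ : 0 ≤ ρ) (hJ : J ⊆ range F) (h1 : ∀ a ∈ X, η a ∈ J)
    (h2 : Set.InjOn η X) (hd : ∀ n, cnt (range F) S.nd n ≤ d) (hk : ∀ k, cnt X sk k ≤ eK)
    (hb : ∀ a ∈ X, ∀ y, (cnt J S.ce y : ℝ) ≤ ρ * (blk S J (S.bl (S.ce (η a)))).card)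
    (hγ : ρ * eK + c ≤ γ) :
    ∃ as, S.Ok F as ∧ ∃ Tr ⊆ X, (∀ k y, lump Tr sk (fun a => as (S.nd (η a))) k y ≤ γ) ∧
      ((X.card - Tr.card +
        ∑ y ∈ S.cells F, (cnt X (fun a => as (S.nd (η a))) y - cnt J S.ce y) : ℕ) : ℝ) ≤
        d * X.card / (4 * c) + d * X.card / (2 * t) + (S.cells F).card * t / 2 := by
  have hne : ∀ a ∈ X, (blk S J (S.bl (S.ce (η a)))).Nonempty := fun a ha =>
    ⟨η a, mem_filter.2 ⟨h1 a ha, rfl⟩⟩
  have hpos : ∀ a ∈ X, (0 : ℝ) < (blk S J (S.bl (S.ce (η a)))).card := fun a ha =>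
    Nat.cast_pos.2 (hne a ha).card_pos
  have hsub : ∀ z y, (cnt (blk S J z) S.ce y : ℝ) ≤ cnt J S.ce y := fun z y =>
    Nat.cast_le.2 (cnt_mono (filter_subset _ _) _ _)
  obtain ⟨w, w1, w2⟩ := draw X sk (fun a => S.nd (η a)) (fun n => blk S J (S.bl (S.df n))) S.ce
    (S.cells F) d γ (cnt J S.ce) c t (ρ * eK) hc ht
    (fun n => (cnt_inj (fun a ha => hJ (h1 a ha)) h2 S.nd n).trans (hd n))
    (fun a ha => ⟨hne a ha, fun v hv => ce_mem (mem_range.1 (hJ (mem_filter.1 hv).1))⟩) hγ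
    (fun k y => by
      refine (sum_le_card_nsmul _ _ ρ fun a ha => ?_).trans ?_
      · have ha' := (mem_filter.1 ha).1
        exact (div_le_iff₀ (hpos a ha')).2 ((hsub _ y).trans (hb a ha' y))
      · rw [nsmul_eq_mul, mul_comm, ← cnt_nat]
        exact mul_le_mul_of_nonneg_left (Nat.cast_le.2 (hk k)) hρ)
    fun y _ => by
      rw [← sum_filter_of_ne (p := fun a => S.bl (S.ce (η a)) = S.bl y) fun a _ h => ?_]
      · refine (sum_le_card_nsmul _ _ ((cnt J S.ce y : ℝ) / (blk S J (S.bl y)).card)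
          fun a ha => ?_).trans ?_
        · have := (mem_filter.1 ha).2
          show (cnt (blk S J (S.bl (S.ce (η a)))) S.ce y : ℝ) /
            (blk S J (S.bl (S.ce (η a)))).card ≤ _
          rw [this]
          exact div_le_div_of_nonneg_right (hsub _ y) (Nat.cast_nonneg _)
        · have h3 := cnt_inj h1 h2 (fun τ => S.bl (S.ce τ)) (S.bl y)
          rw [cnt_nat, cnt_nat] at h3
          rw [nsmul_eq_mul, ← mul_div_assoc]
          refine div_le_of_le_mul₀ (Nat.cast_nonneg _) (Nat.cast_nonneg _) ?_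
          rw [mul_comm]
          exact mul_le_mul_of_nonneg_left (Nat.cast_le.2 h3) (Nat.cast_nonneg _)
      · by_contra hn
        refine h ?_
        rw [cnt_nat, filter_false_of_mem fun v hv e => hn ?_]
        · simp
        · rw [← e]; exact (mem_filter.1 hv).2.symm
  let as : ℕ → ℕ := fun n => if ∃ a ∈ X, S.nd (η a) = n then S.ce (w n) else S.df n
  have has : ∀ a ∈ X, as (S.nd (η a)) = S.ce (w (S.nd (η a))) := fun a ha => if_pos ⟨a, ha, rfl⟩
  obtain ⟨Tr, t1, t2, t3⟩ := trim X (fun a => (sk a, as (S.nd (η a)))) (fun _ => γ)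
    (X.image sk ×ˢ S.cells F) fun a ha => mem_product.2 ⟨mem_image_of_mem _ ha, by
      rw [has a ha]; exact ce_mem (mem_range.1 (hJ (mem_filter.1 (w1 a ha)).1))⟩
  refine ⟨as, fun τ hτ => ?_, Tr, t1, fun k y => (lump_eq _ _ _ _ _).le.trans (t2 (k, y)),
    le_trans (Nat.cast_le.2 (add_le_add ?_ (le_of_eq ?_))) w2⟩
  · by_cases h : ∃ a ∈ X, S.nd (η a) = S.nd τ
    · obtain ⟨a, ha, e⟩ := h
      obtain ⟨q1, q2⟩ := mem_filter.1 (w1 a ha)
      rw [← e, has a ha]
      exact ⟨ce_mem (mem_range.1 (hJ q1)), q2.trans (by rw [e]; rfl)⟩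
    · rw [show as (S.nd τ) = S.ce τ from if_neg h]
      exact ⟨ce_mem hτ, rfl⟩
  · have e : ∀ p : ℕ × ℕ, cnt X (fun a => (sk a, as (S.nd (η a)))) p
        = lump X sk (fun a => S.ce (w (S.nd (η a)))) p.1 p.2 := fun p => by
      rw [lump_eq]
      exact cnt_congr (fun a ha => by rw [has a ha]) _
    simp only [e] at t3
    omega
  · exact sum_congr rfl fun y _ => congrArg (· - cnt J S.ce y) (cnt_congr has y)

end Pool.Agent.MP_35cb46_co.Fl.Asg
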