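import Pool.Agent.MP_35cb46_co.fl.ISpec

/-! PROJECT FL: statements of the small graph lemmas. -/

noncomputable section

namespace Pool.Agent.MP_35cb46_co.Fl

open Finset Pool.Agent.MP_7be75d_co Pool.Agent.MP_35cb46_co.Sq Pool.Agent.MP_35cb46_co.Nl
open scoped Classical

/-- Row BASE1: concatenation of linkages. -/
def CatStmt : Prop := ∀ (V α : Type) (G : SimpleGraph V) (A B : Finset V) (S : Finset α)
  (f g f' g' : α → V), Lnk G A S f g → Lnk G B S f' g' → Disjoint A B →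
  (∀ a ∈ S, G.Adj (g a) (f' a)) → Lnk G (A ∪ B) S f g'

/-- Row BASE1: cells are symmetric. -/
def SymStmt : Prop := ∀ (V : Type) (G : SimpleGraph V) (A I O : Finset V),
  Cel G A I O → Cel G A O I

/-- Row BASE1: lanes pass a layer. -/
def LayStmt : Prop := ∀ (V α ι : Type) (G : SimpleGraph V) (Reg : Finset V) (J : Finset ι)
  (A I O O' : ι → Finset V) (S : Finset α) (e : α → V) (c : α → ι), Lay G Reg J A I O →
  (∀ a ∈ S, c a ∈ J ∧ e a ∈ I (c a)) → Set.InjOn e S → (∀ k ∈ J, O' k ⊆ O k) →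
  ∃ S' ⊆ S, ∃ (g : α → V) (P : α → Finset V), Lk G Reg S' e g P ∧
    (∀ a ∈ S', g a ∈ O' (c a) ∧ P a ⊆ A (c a)) ∧
    S.card ≤ S'.card + ∑ k ∈ J, (cnt S c k - (O' k).card)

/-- Row BASE2: the exits of a layer are moved along strands. -/
def ExtStmt : Prop := ∀ (V α ι : Type) (G : SimpleGraph V) (Reg Reg' : Finset V) (J : Finset ι)
  (A I O : ι → Finset V) (S : Finset α) (x e : α → V) (c : α → ι) (P : α → Finset V),
  Lay G Reg J A I O → Disjoint Reg Reg' → (∀ a ∈ S, c a ∈ J ∧ x a ∈ O (c a)) →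
  (∀ a ∈ S, Conn G (P a) ∧ x a ∈ P a ∧ e a ∈ P a ∧ P a ⊆ insert (x a) Reg') →
  (∀ a ∈ S, ∀ b ∈ S, a ≠ b → Disjoint (P a) (P b)) →
  ∃ A', Lay G (Reg ∪ Reg') J A' I fun k => (S.filter fun a => c a = k).image e

/-- Row BASE2: both ends of a stage are moved along linkages. -/
def StgStmt : Prop := ∀ (V : Type) (G : SimpleGraph V) (Reg Reg' : Finset V) (F : ℕ)
  (a b x y : ℕ → V) (S : SD), Stg G Reg F a b S → Disjoint Reg Reg' →
  Lnk G Reg' (range F) x y →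
  ((∀ τ < F, G.Adj (b τ) (x τ)) → Stg G (Reg ∪ Reg') F a y S) ∧
  ((∀ τ < F, G.Adj (y τ) (a τ)) → Stg G (Reg ∪ Reg') F x b S)

/-- Row BASE2: a cell has a connected well linked core. -/
def CoreWStmt : Prop := ∀ (V : Type) (G : SimpleGraph V) (A I O : Finset V), Cel G A I O →
  I.card = O.card → I.Nonempty →
  ∃ C ⊆ A, Conn G C ∧ I ⊆ C ∧ O ⊆ C ∧ WL (aw G) C (ind (I ∪ O)) 4

/-- Row BASE3: two docks give a junction. -/
def JnStmt : Prop := ∀ (V : Type) (G : SimpleGraph V) (Amb Rt : Finset V) (N F : ℕ) (h : HD V)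
  (U U' : Finset ℕ) (s s' : ℕ) (E E' : Finset V), Hub G Amb Rt N F h → U ⊆ range N →
  U' ⊆ range N → s < N → s' < N → s ≠ s' → s' ∉ U → s ∉ U' → Dock G h F U s E →
  Dock G h F U' s' E' → E.card ≤ F → Jn G (h.R s ∪ h.R s') E E'

/-- Row BASE3: one hub is a junction between its docks towards disjoint sets of classes. -/
def Jn1Stmt : Prop := ∀ (V : Type) (G : SimpleGraph V) (Amb Rt : Finset V) (N F : ℕ) (h : HD V)
  (U U' : Finset ℕ) (s : ℕ) (E E' : Finset V), Hub G Amb Rt N F h → U ⊆ range N →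
  U' ⊆ range N → s < N → Dock G h F U s E → Dock G h F U' s E' → Jn G (h.R s) E E'

/-- Row BASE3: a junction as a linkage. -/
def JnlStmt : Prop := ∀ (V : Type) (G : SimpleGraph V) (H E E' I O : Finset V), Jn G H E E' →
  I ⊆ E → O ⊆ E' → I.card = O.card → ∃ g x y : V → V, (∀ v ∈ I, g v ∈ O) ∧ Set.InjOn g I ∧
    Lnk G H I x y ∧ ∀ v ∈ I, G.Adj v (x v) ∧ G.Adj (y v) (g v)

/-- Row BASE3: two docked sets are linked to the roots. -/
def RootStmt : Prop := ∀ (V : Type) (G : SimpleGraph V) (Amb Rt : Finset V) (N F : ℕ) (h : HD V)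
  (U U' : Finset ℕ) (s s' : ℕ) (E E' : Finset V), Hub G Amb Rt N F h →
  U ⊆ (range N).erase 0 → U' ⊆ (range N).erase 0 → s ∈ U → s' ∈ U' → s ≠ s' →
  Dock G h F U s E → Dock G h F U' s' E' → E.card + E'.card ≤ F →
  ∃ (Z Z' : Finset V) (x y x' y' : V → V), Z ⊆ h.R 0 ∧ Z' ⊆ h.R 0 ∧ Disjoint Z Z' ∧
    Lnk G (h.R s ∪ Z) E x y ∧ Lnk G (h.R s' ∪ Z') E' x' y' ∧
    (∀ v ∈ E, G.Adj v (x v) ∧ y v ∈ Rt) ∧ ∀ v ∈ E', G.Adj v (x' v) ∧ y' v ∈ Rt

end Pool.Agent.MP_35cb46_co.Fl
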