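import Pool.Agent.MP_35cb46_co.fl.CSpec

/-! PROJECT FL, row ACT: greedy assignment by dyadic phases and activation. -/

noncomputable section

namespace Pool.Agent.MP_35cb46_co.Ce

open Finset Pool.Agent.MP_7be75d_co Pool.Agent.MP_35cb46_co.Sq Pool.Agent.MP_35cb46_co.Nl
open scoped Classical

namespace CAct

variable {ι κ : Type} (mt : ι → κ → Prop)

/-- One greedy phase. -/
theorem greedy (J : Finset κ) (lam : κ → ℕ) (j₀ : κ) (t : ℕ) (R : Finset ι) :
    ∃ Jq ⊆ J, ∃ Iq ⊆ R, ∃ own : ι → κ, (∀ k ∈ Iq, own k ∈ Jq ∧ mt k (own k)) ∧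
      (∀ j ∈ Jq, t ≤ (Iq.filter fun k => own k = j).card ∧
        lam j < (R.filter fun k => mt k j).card) ∧
      ∀ j ∈ J, ((R \ Iq).filter fun k => mt k j).card < t ∨
        ((R \ Iq).filter fun k => mt k j).card ≤ lam j := by
  induction R using Finset.strongInduction with
  | H R ih =>
  by_cases h : ∀ j ∈ J, (R.filter fun k => mt k j).card < t ∨
      (R.filter fun k => mt k j).card ≤ lam j
  · exact ⟨∅, empty_subset _, ∅, empty_subset _, fun _ => j₀, by simp, by simp, by simpa using h⟩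
  push Not at h
  obtain ⟨j, hj, h1, h2⟩ := h
  obtain ⟨S, hS⟩ : ∃ S, S = R.filter fun k => mt k j := ⟨_, rfl⟩
  have s1 : S ⊆ R := hS ▸ filter_subset _ _
  have hlt : R \ S ⊂ R := sdiff_ssubset s1 (card_pos.1 (by rw [hS]; omega))
  obtain ⟨Jq, a1, Iq, a2, own, a3, a4, a5⟩ := ih _ hlt
  refine ⟨insert j Jq, insert_subset hj a1, S ∪ Iq, union_subset s1 (a2.trans sdiff_subset),
    fun k => if k ∈ S then j else own k, fun k hk => ?_, fun j' hj' => ?_, ?_⟩
  · by_cases e : k ∈ S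
    · simp only [if_pos e]
      rw [hS, mem_filter] at e
      exact ⟨mem_insert_self _ _, e.2⟩
    · simp only [if_neg e]
      have := a3 k ((mem_union.1 hk).resolve_left e)
      exact ⟨mem_insert_of_mem this.1, this.2⟩
  · rcases mem_insert.1 hj' with rfl | hj'
    · exact ⟨h1.trans (hS ▸ card_le_card fun k hk =>
        mem_filter.2 ⟨mem_union_left _ hk, if_pos hk⟩), h2⟩
    · refine ⟨(a4 j' hj').1.trans (card_le_card fun k hk => ?_),
        (a4 j' hj').2.trans_le (card_le_card (filter_subset_filter _ sdiff_subset))⟩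
      obtain ⟨b1, b2⟩ := mem_filter.1 hk
      exact mem_filter.2 ⟨mem_union_right _ b1, (if_neg (mem_sdiff.1 (a2 b1)).2).trans b2⟩
  · have : R \ (S ∪ Iq) = (R \ S) \ Iq := by
      ext k
      simp only [mem_sdiff, mem_union, not_or, and_assoc]
    rwa [this]

/-- A quarter of the subsets activate a lane that meets at most two blocks. -/
theorem quarter (J : Finset κ) (k : ι) {j : κ} (hj : j ∈ J) (hm : mt k j)
    (h2 : (J.filter (mt k)).card ≤ 2) : 2 ^ J.card ≤ 4 * (J.powerset.filter fun A =>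
      j ∈ A ∧ ∀ j' ∈ A, j' ≠ j → ¬ mt k j').card := by
  have a : (J \ J.filter (mt k)).powerset.card ≤ (J.powerset.filter fun A =>
      j ∈ A ∧ ∀ j' ∈ A, j' ≠ j → ¬ mt k j').card := by
    have n : ∀ A ∈ (J \ J.filter (mt k)).powerset, ∀ j' ∈ A, j' ∈ J ∧ ¬ mt k j' :=
      fun A hA j' h' =>
        have := mem_sdiff.1 (mem_powerset.1 hA h')
        ⟨this.1, fun e => this.2 (mem_filter.2 ⟨this.1, e⟩)⟩
    refine card_le_card_of_injOn (insert j) (fun A hA => ?_) fun A hA B hB e => ?_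
    · refine mem_coe.2 (mem_filter.2 ⟨mem_powerset.2 (insert_subset hj fun j' h' =>
        (n A hA j' h').1), mem_insert_self _ _, fun j' h' e => ?_⟩)
      exact (n A hA j' ((mem_insert.1 h').resolve_left e)).2
    · rw [← erase_insert (fun h => (n A hA j h).2 hm), e, erase_insert fun h => (n B hB j h).2 hm]
  rw [card_powerset] at a
  have b := card_sdiff_add_card_eq_card (filter_subset (mt k) J)
  calc 2 ^ J.card ≤ 2 ^ (2 + (J \ J.filter (mt k)).card) := Nat.pow_le_pow_right two_pos (by omega)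
    _ ≤ _ := by rw [pow_add]; exact Nat.mul_le_mul_left _ a

/-- Activation of a set of blocks. -/
theorem half (J : Finset κ) (I : Finset ι) (own : ι → κ)
    (h1 : ∀ k ∈ I, own k ∈ J ∧ mt k (own k))
    (h3 : ∑ j ∈ J, (I.filter fun k => mt k j).card ≤ 2 * I.card) :
    ∃ A ⊆ J, I.card ≤ 8 * (I.filter fun k =>
      own k ∈ A ∧ ∀ j' ∈ A, j' ≠ own k → ¬ mt k j').card := by
  obtain ⟨I₁, hI⟩ : ∃ I₁, I₁ = I.filter fun k => (J.filter (mt k)).card ≤ 2 := ⟨_, rfl⟩
  have e2 : ∑ j ∈ J, (I.filter fun k => mt k j).card = ∑ k ∈ I, (J.filter (mt k)).card := by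
    simp only [card_filter]
    exact sum_comm
  have e3 : I.card ≤ 2 * I₁.card := by
    have a : I.card • 3 ≤ ∑ k ∈ I, ((J.filter (mt k)).card +
        2 * if (J.filter (mt k)).card ≤ 2 then 1 else 0) := card_nsmul_le_sum _ _ _ fun k hk => by
      have : 0 < (J.filter (mt k)).card := card_pos.2 ⟨_, mem_filter.2 (h1 k hk)⟩
      split_ifs <;> omega
    rw [sum_add_distrib, ← mul_sum, ← card_filter, ← hI, ← e2, smul_eq_mul] at a
    omega
  have e4 : ∑ _A ∈ J.powerset, I₁.card ≤ ∑ A ∈ J.powerset, 4 * (I₁.filter fun k =>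
      own k ∈ A ∧ ∀ j' ∈ A, j' ≠ own k → ¬ mt k j').card := by
    simp only [card_filter, mul_sum]
    rw [sum_comm (s := J.powerset) (t := I₁), sum_const, card_powerset, smul_eq_mul, mul_comm,
      ← smul_eq_mul]
    refine card_nsmul_le_sum _ _ _ fun k hk => ?_
    rw [hI, mem_filter] at hk
    rw [← mul_sum, ← card_filter]
    exact quarter mt J k (h1 k hk.1).1 (h1 k hk.1).2 hk.2
  obtain ⟨A, hA, e5⟩ := exists_le_of_sum_le ⟨∅, empty_mem_powerset J⟩ e4
  have e6 := card_le_card (filter_subset_filter (fun k =>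
    own k ∈ A ∧ ∀ j' ∈ A, j' ≠ own k → ¬ mt k j') (hI ▸ filter_subset _ I : I₁ ⊆ I))
  exact ⟨A, mem_powerset.1 hA, by omega⟩

theorem actv {t : ℕ} (J : Finset κ) (I : Finset ι) (own : ι → κ)
    (h1 : ∀ k ∈ I, own k ∈ J ∧ mt k (own k))
    (h2 : ∀ j ∈ J, t ≤ (I.filter fun k => own k = j).card)
    (h3 : ∀ j ∈ J, (I.filter fun k => mt k j).card ≤ 2 * t) :
    ∃ J' ⊆ J, ∃ (x : ℕ) (L : κ → Finset ι), I.card ≤ 512 * (J'.card * x) ∧ t ≤ 16 * x ∧
      ∀ j ∈ J', L j ⊆ I ∧ (L j).card = x ∧ ∀ k ∈ L j, mt k j ∧ ∀ j' ∈ J', j' ≠ j → ¬ mt k j' := by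
  have e1 : J.card * t ≤ I.card := by
    rw [card_eq_sum_card_fiberwise (f := own) (t := J) fun k hk => (h1 k hk).1, ← smul_eq_mul]
    exact card_nsmul_le_sum _ _ _ h2
  obtain ⟨A, hA, e2⟩ := half mt J I own h1 ((sum_le_card_nsmul _ _ _ h3).trans (by
    rw [smul_eq_mul, mul_left_comm]; omega))
  obtain ⟨G, hG⟩ : ∃ G, G = I.filter fun k => own k ∈ A ∧ ∀ j' ∈ A, j' ≠ own k → ¬ mt k j' :=
    ⟨_, rfl⟩
  rw [← hG] at e2
  have g : ∀ k ∈ G, k ∈ I ∧ own k ∈ A ∧ ∀ j' ∈ A, j' ≠ own k → ¬ mt k j' := fun k hk =>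
    mem_filter.1 (hG ▸ hk)
  obtain ⟨x, hx⟩ : ∃ x, x = (t + 15) / 16 := ⟨_, rfl⟩
  obtain ⟨J', hJ⟩ : ∃ J', J' = A.filter fun j => x ≤ (G.filter fun k => own k = j).card := ⟨_, rfl⟩
  have c : ∀ j, ∃ L ⊆ G.filter fun k => own k = j, j ∈ J' → L.card = x := fun j => by
    by_cases h : j ∈ J'
    · rw [hJ, mem_filter] at h
      obtain ⟨L, b1, b2⟩ := exists_subset_card_eq h.2
      exact ⟨L, b1, fun _ => b2⟩
    · exact ⟨∅, empty_subset _, fun e => absurd e h⟩
  choose L l1 l2 using c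
  have s : J' ⊆ A := hJ ▸ filter_subset _ _
  refine ⟨J', s.trans hA, x, L, ?_, by omega, fun j hj => ⟨fun k hk =>
    (g k (mem_filter.1 (l1 j hk)).1).1, l2 j hj, fun k hk => ?_⟩⟩
  · have a : ∑ j ∈ A, 16 * (G.filter fun k => own k = j).card ≤
        ∑ j ∈ A, (t + 512 * x * if x ≤ (G.filter fun k => own k = j).card then 1 else 0) :=
      sum_le_sum fun j hj => by
        have : (G.filter fun k => own k = j).card ≤ 2 * t :=
          (card_le_card fun k hk => by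
            obtain ⟨b1, b2⟩ := mem_filter.1 hk
            exact mem_filter.2 ⟨(g k b1).1, b2 ▸ (h1 k (g k b1).1).2⟩).trans (h3 j (hA hj))
        split_ifs <;> omega
    rw [← mul_sum, ← card_eq_sum_card_fiberwise (f := own) (t := A) (fun k hk => (g k hk).2.1),
      sum_add_distrib, ← mul_sum, ← card_filter, ← hJ, sum_const, smul_eq_mul, mul_assoc,
      mul_comm x] at a
    have := Nat.mul_le_mul_right t (card_le_card hA)
    omega
  · obtain ⟨b1, rfl⟩ := mem_filter.1 (l1 j hk)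
    exact ⟨(h1 k (g k b1).1).2, fun j' h' => (g k b1).2.2 j' (s h')⟩

theorem phases (J : Finset κ) (lam : κ → ℕ) (j₀ : κ) (δ Λ q : ℕ) : ∀ R : Finset ι,
    (∀ j ∈ J, (R.filter fun k => mt k j).card < 2 ^ q ∨ (R.filter fun k => mt k j).card ≤ lam j) →
    (∃ I' ⊆ R, Λ * R.card ≤ Λ * I'.card + q * δ ∧
      ∀ j ∈ J, (I'.filter fun k => mt k j).card ≤ lam j) ∨
    ∃ J' ⊆ J, ∃ (x : ℕ) (L : κ → Finset ι), δ < 512 * Λ * (J'.card * x) ∧
      ∀ j ∈ J', L j ⊆ R ∧ (L j).card = x ∧ lam j ≤ 32 * x ∧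
        ∀ k ∈ L j, mt k j ∧ ∀ j' ∈ J', j' ≠ j → ¬ mt k j' := by
  induction q with
  | zero => exact fun R h => Or.inl ⟨R, subset_rfl, by omega, fun j hj => by
      have := h j hj
      omega⟩
  | succ q ih =>
    intro R h
    obtain ⟨Jq, a1, Iq, a2, own, a3, a4, a5⟩ := greedy mt J lam j₀ (2 ^ q) R
    by_cases e : Λ * Iq.card ≤ δ
    · rcases ih _ a5 with ⟨I', b1, b2, b3⟩ | ⟨J', b1, x, L, b2, b3⟩
      · refine Or.inl ⟨I', b1.trans sdiff_subset, ?_, b3⟩
        rw [← card_sdiff_add_card_eq_card a2, mul_add, add_mul]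
        omega
      · exact Or.inr ⟨J', b1, x, L, b2, fun j hj => ⟨(b3 j hj).1.trans sdiff_subset, (b3 j hj).2⟩⟩
    · have c : ∀ j ∈ Jq, (R.filter fun k => mt k j).card < 2 * 2 ^ q := fun j hj => by
        have := h j (a1 hj)
        have := (a4 j hj).2
        omega
      obtain ⟨J', b1, x, L, b2, b3, b4⟩ := actv mt Jq Iq own a3 (fun j hj => (a4 j hj).1)
        fun j hj => (card_le_card (filter_subset_filter _ a2)).trans (c j hj).le
      refine Or.inr ⟨J', b1.trans a1, x, L, ?_, fun j hj =>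
        ⟨(b4 j hj).1.trans a2, (b4 j hj).2.1, ?_, (b4 j hj).2.2⟩⟩
      · rw [mul_comm 512, mul_assoc]
        exact (not_le.1 e).trans_le (Nat.mul_le_mul_left _ b2)
      · have := c j (b1 hj)
        have := (a4 j (b1 hj)).2
        omega

end CAct

theorem act : ActStmt := by
  intro ι κ I J mt lam δ Λ h
  rcases J.eq_empty_or_nonempty with rfl | ⟨j₀, -⟩
  · exact Or.inl ⟨I, subset_rfl, by omega, by simp⟩
  refine (CAct.phases mt J lam j₀ δ Λ Λ I fun j _ =>
    Or.inl ((card_filter_le _ _).trans_lt h)).imp_left fun ⟨I', b1, b2, b3⟩ => ⟨I', b1, ?_, b3⟩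
  rcases Λ.eq_zero_or_pos with rfl | h0
  · omega
  · exact Nat.le_of_mul_le_mul_left (by rw [mul_add]; exact b2) h0

end Pool.Agent.MP_35cb46_co.Ce
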