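import Pool.Agent.MP_35cb46_co.fl.CSpec

/-! Free sets are linked and can be augmented. -/

noncomputable section

namespace Pool.Agent.MP_35cb46_co.Ce

open Finset Pool.Agent.MP_7be75d_co Pool.Agent.MP_35cb46_co.Sq Pool.Agent.MP_35cb46_co.Nl
open scoped Classical

namespace CAug

variable {V : Type} {G : SimpleGraph V} {X F : Finset V} {τ : V → ℕ} {K : ℕ}

theorem joined (hF : Fre G X τ F) {A B Z : Finset V} (hA : A ⊆ F) (hB : B ⊆ F)
    (hc : A.card ≤ B.card) (hZ : Z.card < A.card) : Joined G X A B Z := by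
  by_contra hn
  set S := (X \ Z).filter fun v => ∃ a ∈ A, a ∈ X \ Z ∧ R G (X \ Z) a v with hS
  have s1 : S ⊆ X \ Z := filter_subset _ _
  have cl : ∀ x ∈ S, ∀ y ∈ X \ Z, G.Adj x y → y ∈ S := by
    intro x hx y hy h
    obtain ⟨hx', a, ha, ha', r⟩ := mem_filter.1 hx
    exact mem_filter.2 ⟨hy, a, ha, ha', r.tail h hx' hy⟩
  have t1 : ts τ ((X \ Z) \ S) + ts τ S = ts τ (X \ Z) := ts_sdiff s1
  have t2 : ts τ (X \ Z) ≤ ts τ X := ts_mono sdiff_subset
  by_cases h : 2 * ts τ S ≤ ts τ X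
  · have := hF.2 S (s1.trans sdiff_subset) Z (disjoint_of_subset_left s1 sdiff_disjoint)
      (fun x hx y hy e => by
        by_cases hz : y ∈ Z
        · exact mem_union_right _ hz
        · exact mem_union_left _ (cl x hx y (mem_sdiff.2 ⟨hy, hz⟩) e)) h
    refine absurd ((card_le_card fun a ha => mem_inter.2 ⟨hA ha, ?_⟩).trans this) (not_le.2 hZ)
    by_cases hz : a ∈ Z
    · exact mem_union_right _ hz
    · have m := mem_sdiff.2 ⟨hF.1 (hA ha), hz⟩
      exact mem_union_left _ (mem_filter.2 ⟨m, a, ha, m, R.refl⟩)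
  · have := hF.2 ((X \ Z) \ S) (sdiff_subset.trans sdiff_subset) Z
      (disjoint_of_subset_left sdiff_subset sdiff_disjoint)
      (fun x hx y hy e => by
        by_cases hz : y ∈ Z
        · exact mem_union_right _ hz
        · exact mem_union_left _ (mem_sdiff.2 ⟨mem_sdiff.2 ⟨hy, hz⟩, fun hy' =>
            (mem_sdiff.1 hx).2 (cl y hy' x (mem_sdiff.1 hx).1 e.symm)⟩)) (by omega)
    refine absurd (hc.trans ((card_le_card fun b hb => mem_inter.2 ⟨hB hb, ?_⟩).trans this))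
      (not_le.2 hZ)
    by_cases hz : b ∈ Z
    · exact mem_union_right _ hz
    · refine mem_union_left _ (mem_sdiff.2 ⟨mem_sdiff.2 ⟨hF.1 (hB hb), hz⟩, fun hb' => hn ?_⟩)
      obtain ⟨-, a, ha, ha', r⟩ := mem_filter.1 hb'
      exact ⟨a, ha, b, hb, ha', r⟩

theorem lka [Fintype V] (hF : Fre G X τ F) : Lka G X F := by
  refine fun d => ⟨hF.1, fun A hA B hB hc _ => ?_⟩
  have e : (univ : Finset A).image Subtype.val = A := by ext; simp
  obtain ⟨P, hP, hp⟩ := menger_from (G := G) (U := X) (B := B) (Subtype.val : A → V)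
    fun Z hZ => by
      rw [e]
      exact joined hF hA hB hc (by simpa using hZ)
  choose b hb hb' using hP.right
  refine ⟨fun a => if h : a ∈ A then b ⟨a, h⟩ else a, fun a => if h : a ∈ A then P ⟨a, h⟩ else ∅,
    ⟨⟨fun a ha => ?_, fun a ha => ?_, fun a ha a' ha' h => ?_⟩, fun a ha => ?_, fun a ha => ?_⟩,
    fun a ha => ?_⟩
  · rw [dif_pos ha]; exact hP.sub _
  · rw [dif_pos ha]; exact hP.conn _
  · rw [dif_pos ha, dif_pos ha']; exact hP.disj _ _ fun x => h (congrArg Subtype.val x)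
  · rw [dif_pos ha]; exact hp ⟨a, ha⟩
  · simp only [dif_pos ha]; exact hb' _
  · simp only [dif_pos ha]; exact hb _

/-- Tight separations. -/
structure Tight (G : SimpleGraph V) (X : Finset V) (τ : V → ℕ) (F S Z : Finset V) : Prop where
  sub : S ⊆ X
  dis : Disjoint S Z
  cl : ∀ x ∈ S, ∀ y ∈ X, G.Adj x y → y ∈ S ∪ Z
  sm : 2 * ts τ S ≤ ts τ X
  eq : Z.card ≤ (F ∩ (S ∪ Z)).card

theorem Tight.le {S Z : Finset V} (h : Tight G X τ F S Z) : Z.card ≤ F.card :=
  h.eq.trans (card_le_card inter_subset_left)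

theorem Tight.ts_le [Fintype V] (hD : Deg G univ 6) (hW : WL (aw G) X τ K) {S Z : Finset V}
    (h : Tight G X τ F S Z) : ts τ S ≤ 6 * (K * F.card) := by
  have h1 := hW S h.sub
  have h2 : ts τ (X \ S) + ts τ S = ts τ X := ts_sdiff h.sub
  have h3 := h.sm
  have h4 : cw (aw G) S (X \ S) ≤ cw (aw G) S Z := by
    refine sum_le_sum fun a ha => sum_le_sum_of_ne_zero fun b hb e => ?_
    have : G.Adj a b := by
      by_contra hn
      exact e (if_neg hn)
    exact (mem_union.1 (h.cl a ha b (mem_sdiff.1 hb).1 this)).resolve_left (mem_sdiff.1 hb).2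
  rw [cw_comm (fun x y => aw_comm x y) S Z] at h4
  have h5 := hD.cw_le (subset_univ Z) (subset_univ S)
  have h6 := Nat.mul_le_mul_left K (h4.trans (h5.trans (Nat.mul_le_mul_right 6 h.le)))
  rw [min_eq_left (by omega)] at h1
  rw [← mul_assoc] at h6
  omega

theorem Tight.join (hF : Fre G X τ F) {S Z S' Z' : Finset V} (h : Tight G X τ F S Z)
    (h' : Tight G X τ F S' Z') (hs : 2 * (ts τ S + ts τ S') ≤ ts τ X) :
    Tight G X τ F (S ∪ S') ((Z ∪ Z') \ (S ∪ S')) := by
  refine ⟨union_subset h.sub h'.sub, disjoint_sdiff, fun x hx y hy e => ?_,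
    (Nat.mul_le_mul_left 2 ts_union_le).trans hs, ?_⟩
  · rw [union_sdiff_self_eq_union]
    rcases mem_union.1 hx with hx | hx
    · have := h.cl x hx y hy e
      simp only [mem_union] at this ⊢
      tauto
    · have := h'.cl x hx y hy e
      simp only [mem_union] at this ⊢
      tauto
  · have e1 : S ∩ S' ∪ ((S ∪ Z) ∩ (S' ∪ Z')) \ (S ∩ S') = (S ∪ Z) ∩ (S' ∪ Z') :=
      union_sdiff_of_subset (inter_subset_inter subset_union_left subset_union_left)
    have m := hF.2 (S ∩ S') (inter_subset_left.trans h.sub) (((S ∪ Z) ∩ (S' ∪ Z')) \ (S ∩ S'))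
      disjoint_sdiff (fun x hx y hy e => by
        rw [e1]
        exact mem_inter.2 ⟨h.cl x (mem_inter.1 hx).1 y hy e, h'.cl x (mem_inter.1 hx).2 y hy e⟩)
      ((Nat.mul_le_mul_left 2 (ts_mono inter_subset_left)).trans h.sm)
    rw [e1] at m
    have c1 := card_union_add_card_inter (F ∩ (S ∪ Z)) (F ∩ (S' ∪ Z'))
    have c2 := card_union_add_card_inter Z Z'
    have c3 := card_union_add_card_inter ((Z ∪ Z') \ (S ∪ S')) (((S ∪ Z) ∩ (S' ∪ Z')) \ (S ∩ S'))
    have c4 : ((Z ∪ Z') \ (S ∪ S') ∪ ((S ∪ Z) ∩ (S' ∪ Z')) \ (S ∩ S')).card ≤ (Z ∪ Z').card :=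
      card_le_card fun x hx => by
        simp only [mem_union, mem_sdiff, mem_inter] at hx ⊢
        tauto
    have c5 : (((Z ∪ Z') \ (S ∪ S')) ∩ (((S ∪ Z) ∩ (S' ∪ Z')) \ (S ∩ S'))).card ≤ (Z ∩ Z').card :=
      card_le_card fun x hx => by
        simp only [mem_union, mem_sdiff, mem_inter] at hx ⊢
        tauto
    have c6 : (F ∩ (S ∪ Z) ∪ F ∩ (S' ∪ Z')).card ≤ (F ∩ (S ∪ S' ∪ (Z ∪ Z') \ (S ∪ S'))).card :=
      card_le_card fun x hx => by
        simp only [mem_union, mem_sdiff, mem_inter] at hx ⊢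
        tauto
    have c7 : (F ∩ (S ∪ Z) ∩ (F ∩ (S' ∪ Z'))).card ≤ (F ∩ ((S ∪ Z) ∩ (S' ∪ Z'))).card :=
      card_le_card fun x hx => by
        simp only [mem_inter] at hx ⊢
        tauto
    have := h.eq
    have := h'.eq
    omega

end CAug

theorem aug : AugStmt := by
  intro V _ G X τ K hD hW hτ hK
  refine ⟨fun F => CAug.lka, fun F Y hF hY hc => ?_⟩
  have hX : ts τ Y ≤ ts τ X := ts_mono hY
  rw [mul_assoc] at hc
  obtain ⟨⟨S, Z⟩, h, hm⟩ := exists_max_of (p := fun q : Finset V × Finset V =>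
    CAug.Tight G X τ F q.1 q.2) (fun q => (q.1 ∪ q.2).card) (Fintype.card V)
    (fun q _ => card_le_univ _)
    ⟨(∅, ∅), empty_subset _, disjoint_empty_left _, by simp, by simp [ts], by simp⟩
  dsimp only at h hm
  have t1 := h.ts_le hD hW
  have all : ∀ S' Z', CAug.Tight G X τ F S' Z' → S' ∪ Z' ⊆ S ∪ Z := by
    intro S' Z' h'
    have t2 := h'.ts_le hD hW
    have := hm (_, _) (h.join hF h' (by omega))
    rw [union_sdiff_self_eq_union] at this
    rw [eq_of_subset_of_card_le (union_subset_union subset_union_left subset_union_left) this]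
    exact union_subset_union subset_union_right subset_union_right
  have t3 : ts τ (S ∪ Z ∪ F) ≤ ts τ S + ts τ Z + ts τ F :=
    ts_union_le.trans (Nat.add_le_add_right ts_union_le _)
  have t4 : ts τ Z ≤ Z.card * 7 := ts_le_card fun a _ => hτ a
  have t5 : ts τ F ≤ F.card * 7 := ts_le_card fun a _ => hτ a
  have t6 := h.le
  have t7 : F.card ≤ K * F.card := Nat.le_mul_of_pos_left _ hK
  obtain ⟨v, hv, hv'⟩ : ∃ v ∈ Y, v ∉ S ∪ Z ∪ F := by
    by_contra hn
    push Not at hn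
    have : ts τ Y ≤ ts τ (S ∪ Z ∪ F) := ts_mono hn
    omega
  refine ⟨v, hv, fun x => hv' (mem_union_right _ x), insert_subset (hY hv) hF.1,
    fun S' h1 Z' h2 h3 h4 => ?_⟩
  by_cases hm' : v ∈ S' ∪ Z'
  · rw [insert_inter_of_mem hm']
    refine (card_insert_le _ _).trans (Nat.succ_le_of_lt (not_le.1 fun x =>
      hv' (mem_union_left _ ?_)))
    exact all S' Z' ⟨h1, h2, h3, h4, x⟩ hm'
  · rw [insert_inter_of_notMem hm']
    exact hF.2 S' h1 Z' h2 h3 h4

end Pool.Agent.MP_35cb46_co.Ce
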