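import Pool.Agent.MP_35cb46_co.fl.CSpec

/-! PROJECT FL, the cell lemma: the blocks of a clustering. -/

noncomputable section

namespace Pool.Agent.MP_35cb46_co.Ce

open Finset Pool.Agent.MP_7be75d_co Pool.Agent.MP_35cb46_co.Sq Pool.Agent.MP_35cb46_co.Nl
open scoped Classical

namespace CBlk

variable {V : Type}

theorem vol [Fintype V] {G : SimpleGraph V} (hd : Deg G univ 6) (X T : Finset V)
    {U : Finset (Finset V)} (hU : PD U) : ts (bo G X T) U ≤ Fintype.card V * 7 := by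
  have h1 : ts (bo G X T) U ≤ ∑ C ∈ U, ts (fun _ => 7) C := sum_le_sum fun C _ => by
    rw [ts_const]
    exact bo_le hd X T C
  rw [← hU.ts_un, ts_const] at h1
  exact h1.trans (Nat.mul_le_mul_right _ (card_le_univ _))

theorem disj_un {PP Z Z' : Finset (Finset V)} (hP : PD PP) (h : Z ⊆ PP) (h' : Z' ⊆ PP)
    (hd : Disjoint Z Z') : Disjoint (un Z) (un Z') := by
  rw [disjoint_left]
  intro v h1 h2
  obtain ⟨C, c1, c2⟩ := mem_un.1 h1
  obtain ⟨C', c3, c4⟩ := mem_un.1 h2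
  exact disjoint_left.1 hd c1 (hP.eq (h c1) (h' c3) c2 c4 ▸ c3)

theorem disj_one {PP Z : Finset (Finset V)} {W : Finset V} (hP : PD PP) (hW : W ∈ PP)
    (h : Z ⊆ PP) (hn : W ∉ Z) : Disjoint W (un Z) := by
  rw [disjoint_left]
  intro v h1 h2
  obtain ⟨C, c1, c2⟩ := mem_un.1 h2
  exact hn (hP.eq hW (h c1) h1 c2 ▸ c1)

end CBlk

open CBlk in
theorem blk (clb : ClbStmt) (expf : ExpfStmt) : BlkStmt := by
  intro V _ G X T y A Λ Kd τ K lS lZ v PP hd hΛ hC h1 hKd hA hτ hK hS hZ hv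
  have hP : PD PP := hC.part.disj
  have hX : un PP = X := hC.part.un
  have hne : ∀ C ∈ PP, C.Nonempty := fun C h => card_pos.1 (by
    have a := hC.pos C h
    have b := bo_le hd X T C
    omega)
  obtain ⟨c1, -, -, -, c5⟩ := clb V G X T y A Λ PP hC (by omega) h1
  obtain ⟨U, hU⟩ : ∃ U : Finset (Finset V), ∀ C, C ∈ U ↔ C ∈ PP ∧ bo G X T C ≤ τ :=
    ⟨PP.filter fun C => bo G X T C ≤ τ, fun C => mem_filter⟩
  obtain ⟨Sat, hSat⟩ : ∃ S : Finset (Finset V), ∀ C, C ∈ S ↔ C ∈ PP ∧ τ < bo G X T C :=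
    ⟨PP.filter fun C => τ < bo G X T C, fun C => mem_filter⟩
  have hUP : U ⊆ PP := fun C h => ((hU C).1 h).1
  have hSP : Sat ⊆ PP := fun C h => ((hSat C).1 h).1
  obtain ⟨ZZ, sd, z1, z2, z3⟩ := expf (Finset V) (ew G) (bo G X T) U Kd (Λ + 1) sy_ew
    ew_self hKd (by
      have := vol hd X T (hP.mono hUP)
      rw [pow_succ]
      omega)
  have hZk : ∀ Z ∈ ZZ, ZOk G X T PP sd (4 * Kd * (Λ + 1)) τ Z := fun Z h =>
    ⟨(z2 Z h).1.trans hUP, (z2 Z h).2.1, (z2 Z h).2.2, fun u hu => ((hU u).1 ((z2 Z h).1 hu)).2⟩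
  obtain ⟨Y, hY⟩ : ∃ Y, Y = U \ un ZZ := ⟨_, rfl⟩
  have hYP : Y ⊆ PP := hY ▸ sdiff_subset.trans hUP
  have sz : ∀ W ∈ Sat, ∀ Z ∈ ZZ, W ∉ Z := fun W h Z hz hm => by
    have a := ((hSat W).1 h).2
    have b := (hZk Z hz).le W hm
    omega
  have yz : ∀ W ∈ Y, ∀ Z ∈ ZZ, W ∉ Z := fun W h Z hz hm =>
    (mem_sdiff.1 (hY ▸ h)).2 (mem_un.2 ⟨Z, hz, hm⟩)
  have nu : ∀ Z ∈ ZZ, un Z ∈ PP → un Z ∈ Z := fun Z hz h => by_contra fun hn =>
    (hne _ h).ne_empty (disjoint_self.1 (disj_one hP h (hZk Z hz).sub hn))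
  have cs : ∀ W ∈ Sat ∪ ZZ.image un ∪ Y, (W ∈ PP ∧ ∀ Z ∈ ZZ, W ∉ Z) ∨ ∃ Z ∈ ZZ, un Z = W :=
    fun W h => by
      rcases mem_union.1 h with h | h
      · rcases mem_union.1 h with h | h
        · exact Or.inl ⟨hSP h, sz W h⟩
        · exact Or.inr (mem_image.1 h)
      · exact Or.inl ⟨hYP h, yz W h⟩
  have lamZ : ∀ Z ∈ ZZ, (if un Z ∈ Sat then lS else lZ) = lZ := fun Z hz =>
    if_neg fun h => sz _ h Z hz (nu Z hz (hSP h))
  have k1 : ∀ l, 120 * K * l ≤ 120 * K * Kd * l := fun l =>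
    Nat.mul_le_mul_right l (Nat.le_mul_of_pos_right _ hKd)
  refine ⟨Sat, Y, ZZ, sd, fun W => if W ∈ Sat then lS else lZ,
    ⟨?_, ?_, ?_, ?_, fun C h => hC.le C (hYP h), ?_, ?_, ?_⟩,
    fun W h => ⟨hSP h, if_pos h⟩, fun Z h => ⟨hZk Z h, lamZ Z h⟩⟩
  · intro W h W' h' hn
    rcases cs W h with ⟨a, b⟩ | ⟨Z, a, rfl⟩ <;> rcases cs W' h' with ⟨a', b'⟩ | ⟨Z', a', rfl⟩
    · exact hP W a W' a' hn
    · exact disj_one hP a (hZk Z' a').sub (b Z' a')
    · exact (disj_one hP a' (hZk Z a).sub (b' Z a)).symm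
    · exact disj_un hP (hZk Z a).sub (hZk Z' a').sub (z1 Z a Z' a' fun e => hn (by rw [e]))
  · rw [disjoint_left]
    intro W h h'
    rcases mem_union.1 h with h | h
    · have a := ((hSat W).1 h).2
      have b := ((hU W).1 (mem_sdiff.1 (hY ▸ h')).1).2
      omega
    · obtain ⟨Z, hz, rfl⟩ := mem_image.1 h
      exact yz _ h' Z hz (nu Z hz (hYP h'))
  · rw [← hX]
    ext x
    rw [mem_un, mem_un]
    constructor
    · rintro ⟨W, h, hx⟩
      rcases cs W h with ⟨a, -⟩ | ⟨Z, a, rfl⟩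
      · exact ⟨W, a, hx⟩
      · exact mem_un.1 (un_mono (hZk Z a).sub hx)
    · rintro ⟨C, h, hx⟩
      by_cases a : τ < bo G X T C
      · exact ⟨C, mem_union_left _ (mem_union_left _ ((hSat C).2 ⟨h, a⟩)), hx⟩
      by_cases b : C ∈ un ZZ
      · obtain ⟨Z, hz, hm⟩ := mem_un.1 b
        exact ⟨un Z, mem_union_left _ (mem_union_right _ (mem_image_of_mem _ hz)), subset_un hm hx⟩
      · exact ⟨C, mem_union_right _ (hY ▸ mem_sdiff.2 ⟨(hU C).2 ⟨h, by omega⟩, b⟩), hx⟩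
  · intro W h
    rcases mem_union.1 h with h | h
    · refine (hC.wl W (hSP h)).up (le_trans ?_ hK)
      nlinarith [Nat.zero_le (A * Λ), Nat.zero_le (A * Λ * (Kd * (Λ + 1)))]
    · obtain ⟨Z, hz, rfl⟩ := mem_image.1 h
      exact (c1 Z (hZk Z hz).sub _ ((hZk Z hz).wl.mono (fun a _ b _ => bip_le sd a b)
        (fun _ _ => le_rfl) le_rfl) _ fun C hm x _ =>
          bw_mono le_rfl subset_rfl subset_rfl (subset_un hm) x).up hK
  · exact (z3 Y (hY ▸ subset_rfl)).trans ((ts_mono hYP).trans hv)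
  · intro W _
    have a := k1 lS
    have b := k1 lZ
    split_ifs <;> omega
  · have e1 : ts (fun W => if W ∈ Sat then lS else lZ) Sat ≤ Sat.card * lS :=
      ts_le_card fun W h => (if_pos h).le
    have e2 : ts (fun W => if W ∈ Sat then lS else lZ) (ZZ.image un) ≤ ZZ.card * lZ :=
      (ts_le_card fun W h => by
        obtain ⟨Z, hz, rfl⟩ := mem_image.1 h
        exact (lamZ Z hz).le).trans (Nat.mul_le_mul_right _ card_image_le)
    have e3 : Sat.card * τ ≤ ts (bo G X T) Sat := card_le_ts fun W h => ((hSat W).1 h).2.le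
    have e4 : ZZ.card * y ≤ ts (bo G X T) (un ZZ) := by
      rw [z1.ts_un]
      exact card_le_ts (τ := fun Z => ts (bo G X T) Z) fun Z h =>
        (c5 sd _ τ Z (hZk Z h) hA hτ).1.le
    have e5 : ts (bo G X T) Sat + ts (bo G X T) (un ZZ) ≤ ts (bo G X T) PP := by
      rw [← ts_union (disjoint_left.2 fun W h h' => by
        obtain ⟨Z, hz, hm⟩ := mem_un.1 h'
        exact sz W h Z hz hm)]
      exact ts_mono (union_subset hSP fun W h => by
        obtain ⟨Z, hz, hm⟩ := mem_un.1 h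
        exact (hZk Z hz).sub hm)
    calc 120 * K * Kd * ts (fun W => if W ∈ Sat then lS else lZ) (Sat ∪ ZZ.image un)
        ≤ 120 * K * Kd * (Sat.card * lS + ZZ.card * lZ) :=
          Nat.mul_le_mul_left _ (ts_union_le.trans (Nat.add_le_add e1 e2))
      _ = Sat.card * (120 * K * Kd * lS) + ZZ.card * (120 * K * Kd * lZ) := by ring
      _ ≤ Sat.card * τ + ZZ.card * y :=
          Nat.add_le_add (Nat.mul_le_mul_left _ hS) (Nat.mul_le_mul_left _ hZ)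
      _ ≤ v := by omega

end Pool.Agent.MP_35cb46_co.Ce
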