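import Pool.Agent.MP_35cb46_co.fl.CSpec

/-! PROJECT FL, the cell lemma: translation of the outcome to an exact stage. -/

noncomputable section

namespace Pool.Agent.MP_35cb46_co.Ce

open Finset Pool.Agent.MP_7be75d_co Pool.Agent.MP_35cb46_co.Sq Pool.Agent.MP_35cb46_co.Nl
open scoped Classical

namespace CCell

/-- Stages from flexible blocks with different entries and exits. -/
def Stg2 : Prop := ∀ (V : Type) (G : SimpleGraph V) (X A B : Finset V) (θ m d k N : ℕ),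
  Disjoint A B → Many X N (fun W => Fb G θ m d W A B) → 1 ≤ k → k ≤ N → 1 ≤ θ → 1 ≤ m → 1 ≤ d →
  ∃ (a b : ℕ → V) (S : Fl.SD), (∀ τ < k * (θ * (m * d)), a τ ∈ A ∧ b τ ∈ B) ∧
    Fl.Stg G X (k * (θ * (m * d))) a b S ∧ Fl.Shape (k * (θ * (m * d))) S (m * d) d θ

theorem pdisj {V ι : Type} [Fintype ι] {G : SimpleGraph V} {r : ℕ} {R : ℕ → Finset V}
    {p : ℕ → Fin 4 → ι → V} (h : Rts G r R p) : Disjoint (prt r p 2) (prt r p 3) := by
  refine disjoint_left.2 fun x h2 h3 => ?_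
  obtain ⟨i, hi, hx⟩ := mem_biUnion.1 h2
  obtain ⟨j, hj, hy⟩ := mem_biUnion.1 h3
  obtain ⟨k, -, rfl⟩ := mem_image.1 hx
  obtain ⟨k', -, e⟩ := mem_image.1 hy
  have hi' : i ≤ r + 1 := by have := mem_range.1 hi; omega
  have hj' : j ≤ r + 1 := by have := mem_range.1 hj; omega
  by_cases hij : i = j
  · subst hij
    exact absurd (h.inj i hi' _ _ _ _ e).1 (by decide)
  · exact disjoint_left.1 (h.disj i hi' j hj' hij)
      ((h.lk i hi').sub (mem_image.2 ⟨(2, k), mem_univ _, rfl⟩))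
      ((h.lk j hj').sub (mem_image.2 ⟨(3, k'), mem_univ _, e⟩))

/-- A power of two that is small enough divides `F`. -/
theorem fit {a g N : ℕ} (h1 : 2 ^ g ≤ 2 ^ a) (h2 : 2 ^ a ≤ N * 2 ^ g) :
    ∃ k, 1 ≤ k ∧ k ≤ N ∧ k * 2 ^ g = 2 ^ a := by
  have hg : g ≤ a := (Nat.pow_le_pow_iff_right (by norm_num)).1 h1
  have e : 2 ^ (a - g) * 2 ^ g = 2 ^ a := by rw [← pow_add, Nat.sub_add_cancel hg]
  exact ⟨2 ^ (a - g), Nat.one_le_two_pow, Nat.le_of_mul_le_mul_right (e ▸ h2) (by positivity), e⟩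

theorem lg {x : ℕ} (hx : 1 ≤ x) : ∃ i, 2 ^ i ≤ x ∧ x < 2 * 2 ^ i :=
  ⟨Nat.log 2 x, Nat.pow_log_le_self 2 (by omega), by
    rw [← pow_succ']; exact Nat.lt_pow_succ_log_self (by norm_num) x⟩

/-- The numbers for a block. -/
theorem blk {a b B P₀ M P y N m d : ℕ} (hB : 2 ^ b ≤ B) (h1 : 4 * P₀ * M ≤ P) (h2 : P * B ≤ M * M)
    (h3 : 2 * P₀ * B ≤ M) (h4 : B ≤ P) (h5 : P * B ≤ y) (h6 : y ≤ 2 ^ a) (hd : 1 ≤ d)
    (h7 : M * d ≤ y) (h8 : y ≤ P₀ * (m * d)) (h9 : P * 2 ^ a ≤ P₀ * (N * (m * d))) :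
    ∃ m' d' k, 1 ≤ m' ∧ m' ≤ m ∧ 1 ≤ d' ∧ d' ≤ d ∧ 1 ≤ k ∧ k ≤ N ∧
      k * (2 ^ b * (m' * d')) = 2 ^ a ∧ y ≤ P * (m' * d') ∧ B * d' ≤ m' * d' ∧ P * B * d' ≤ y := by
  have hb : 0 < 2 ^ b := by positivity
  have ha : 0 < 2 ^ a := by positivity
  have hB0 : 0 < B := by omega
  have hP : 0 < P := by omega
  have hM : 0 < M := Nat.pos_of_ne_zero fun h => by
    have := Nat.mul_pos hP hB0
    rw [h] at h2
    omega
  have hy : 0 < y := (Nat.mul_pos hP hB0).trans_le h5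
  have hP0 : 0 < P₀ := Nat.pos_of_ne_zero fun h => by rw [h] at h8; omega
  have hN : 1 ≤ N := Nat.pos_of_ne_zero fun h => by
    have := Nat.mul_pos hP ha
    rw [h] at h9
    omega
  have hm : 2 * B ≤ m := by
    have e1 : M * d ≤ P₀ * m * d := by rw [mul_assoc]; exact h7.trans h8
    have e2 := Nat.le_of_mul_le_mul_right e1 hd
    exact Nat.le_of_mul_le_mul_left (show P₀ * (2 * B) ≤ P₀ * m by nlinarith) hP0
  obtain ⟨i, i1, i2⟩ := lg (show 1 ≤ m by omega)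
  obtain ⟨j, j1, j2⟩ := lg (show 1 ≤ max 1 (d / M) from le_max_left _ _)
  have hj : 0 < 2 ^ j := by positivity
  have d1 : 2 ^ j ≤ d := j1.trans (max_le hd (Nat.div_le_self _ _))
  have d2 : d ≤ 2 * M * 2 ^ j := by
    have e1 : d / M + 1 ≤ 2 * 2 ^ j := by have := le_max_right 1 (d / M); omega
    have e2 : d < M * (d / M + 1) := Nat.lt_mul_div_succ d hM
    nlinarith [Nat.mul_le_mul_left M e1]
  have d3 : P * B * 2 ^ j ≤ y := by
    rcases le_total (d / M) 1 with h | h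
    · rw [max_eq_left h] at j1
      nlinarith
    · rw [max_eq_right h] at j1
      have e1 : M * 2 ^ j ≤ d := (Nat.mul_le_mul_left M j1).trans (Nat.mul_div_le d M)
      nlinarith [Nat.mul_le_mul_right (2 ^ j) h2, Nat.mul_le_mul_left M e1]
  have md : P₀ * (m * d) ≤ P * (2 ^ i * 2 ^ j) := by
    have e1 : m * d ≤ 2 * 2 ^ i * (2 * M * 2 ^ j) := Nat.mul_le_mul i2.le d2
    nlinarith [Nat.mul_le_mul_left P₀ e1, Nat.mul_le_mul_right (2 ^ i * 2 ^ j) h1]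
  by_cases hc : 2 ^ (b + (i + j)) ≤ 2 ^ a
  · obtain ⟨k, k1, k2, k3⟩ := fit (N := N) hc (by
      have e1 : P * 2 ^ a ≤ P * (N * (2 ^ i * 2 ^ j)) := by
        nlinarith [Nat.mul_le_mul_left N md]
      refine (Nat.le_of_mul_le_mul_left e1 hP).trans (Nat.mul_le_mul_left N ?_)
      rw [pow_add, pow_add]
      exact Nat.le_mul_of_pos_left _ hb)
    rw [pow_add, pow_add] at k3
    exact ⟨2 ^ i, 2 ^ j, k, Nat.one_le_two_pow, i1, hj, d1, k1, k2, k3, h8.trans md,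
      Nat.mul_le_mul_right _ (by omega), d3⟩
  · have e1 : 2 ^ (b + j) ≤ 2 ^ a := by
      rw [pow_add]
      refine le_trans ?_ (d3.trans h6)
      exact Nat.mul_le_mul_right _ (hB.trans (Nat.le_mul_of_pos_left _ hP))
    have e2 : b + j ≤ a := (Nat.pow_le_pow_iff_right (by norm_num)).1 e1
    have e3 : a < b + (i + j) := (Nat.pow_lt_pow_iff_right (by norm_num)).1 (not_le.1 hc)
    have e4 : 2 ^ b * (2 ^ (a - (b + j)) * 2 ^ j) = 2 ^ a := by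
      rw [← pow_add, ← pow_add]
      congr 1
      omega
    have e5 : 2 ^ a ≤ P * (2 ^ (a - (b + j)) * 2 ^ j) :=
      e4 ▸ Nat.mul_le_mul_right _ (hB.trans h4)
    refine ⟨2 ^ (a - (b + j)), 2 ^ j, 1, Nat.one_le_two_pow,
      (Nat.pow_le_pow_right (by norm_num) (by omega)).trans i1, hj, d1, le_rfl, hN,
      by rw [one_mul, e4], h6.trans e5, Nat.le_of_mul_le_mul_left ?_ hP, d3⟩
    rw [← mul_assoc]
    exact (d3.trans h6).trans e5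

/-- The numbers for a cell. -/
theorem cel {a P₀ M P y N D : ℕ} (h1 : 4 * P₀ * M ≤ P) (hM : 1 ≤ M) (hP : 1 ≤ P) (hy : 1 ≤ y)
    (h6 : y ≤ 2 ^ a) (h7 : D ≤ y) (h8 : y ≤ P₀ * M * D) (h9 : P * 2 ^ a ≤ P₀ * (N * D)) :
    ∃ e k, 1 ≤ e ∧ e ≤ D ∧ 1 ≤ k ∧ k ≤ N ∧ k * (1 * (1 * e)) = 2 ^ a ∧ y ≤ P * (1 * e) := by
  have hD : 1 ≤ D := Nat.pos_of_ne_zero fun h => by rw [h] at h8; omega
  obtain ⟨i, i1, i2⟩ := lg hD
  have e0 : P₀ * M * D ≤ P * 2 ^ i := by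
    nlinarith [Nat.mul_le_mul_left (P₀ * M) i2.le, Nat.mul_le_mul_right (2 ^ i) h1]
  obtain ⟨k, k1, k2, k3⟩ := fit (N := N) (i1.trans (h7.trans h6)) (by
    refine Nat.le_of_mul_le_mul_left (h9.trans ?_) hP
    nlinarith [Nat.mul_le_mul_left N e0, Nat.mul_le_mul_left (P₀ * (N * D)) hM])
  exact ⟨2 ^ i, k, Nat.one_le_two_pow, i1, k1, k2, by rw [one_mul, one_mul, k3],
    by rw [one_mul]; exact h8.trans e0⟩

end CCell

theorem cellOf (c0 : Cell0Stmt) (fb : FbStmt) (stg : CCell.Stg2) (hubr : HubrStmt) :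
    Fl.CellStmt := by
  obtain ⟨c, hc⟩ := c0
  refine ⟨4 * c + 12, ?_⟩
  intro V _ G Amb Rt N F₀ h Λ B θ F y U s s' hD hV hH hU hs hs' hne hB hθ hP2 hPF hUc hF hy hyF
  obtain ⟨b, rfl⟩ := hP2
  obtain ⟨a, rfl⟩ := hPF
  have hB2 : 2 ≤ B := by omega
  have pw : ∀ i j, i ≤ j → 2 ^ i ≤ B ^ j := fun i j hij =>
    (Nat.pow_le_pow_left hB2 i).trans (Nat.pow_le_pow_right (by omega) hij)
  have hP0 : (B ^ 2) ^ c = B ^ (2 * c) := by rw [← pow_mul]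
  have h1 : 4 * (B ^ 2) ^ c * B ^ (2 * c + 10) ≤ B ^ (4 * c + 12) := by
    rw [hP0, show 4 * c + 12 = 2 + 2 * c + (2 * c + 10) by ring, pow_add B (2 + 2 * c), pow_add B 2]
    exact Nat.mul_le_mul_right _ (Nat.mul_le_mul_right _ (pw 2 2 le_rfl))
  have h2 : B ^ (4 * c + 12) * B ≤ B ^ (2 * c + 10) * B ^ (2 * c + 10) := by
    rw [← pow_succ, ← pow_add]
    exact Nat.pow_le_pow_right (by omega) (by omega)
  have h3 : 2 * (B ^ 2) ^ c * B ≤ B ^ (2 * c + 10) := by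
    rw [hP0, show 2 * c + 10 = 9 + 2 * c + 1 by ring, pow_succ, pow_add]
    exact Nat.mul_le_mul_right _ (Nat.mul_le_mul_right _ (pw 1 9 (by omega)))
  have h4 : 2 ^ 11 * B ≤ B ^ (4 * c + 12) := by
    rw [pow_succ B (4 * c + 11)]
    exact Nat.mul_le_mul_right _ (pw _ _ (by omega))
  generalize B ^ (4 * c + 12) = P at *
  have hM : 1 ≤ B ^ (2 * c + 10) := Nat.one_le_pow _ _ (by omega)
  generalize B ^ (2 * c + 10) = M at *
  have hPy : P ≤ y := (Nat.le_mul_of_pos_right P (by omega)).trans hy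
  have ha : a ≠ 0 := by
    rintro rfl
    omega
  obtain ⟨R, p, hR, hsub, d2, d3⟩ := hubr V G Amb Rt N F₀ h U s s' (400 * Λ) (P * 2 ^ a) hH hU hs
    hs' hne (by omega) hF
  have hO := hc V (Fin (P * 2 ^ a)) G R p Λ (B ^ 2) (2 ^ b) M y hD hV hR (by nlinarith)
    (by nlinarith) Nat.one_le_two_pow hM (by nlinarith)
    (by rw [Fintype.card_fin]; nlinarith)
    (by rw [Fintype.card_fin]; exact (even_two.pow_of_ne_zero ha).mul_left _)
  rw [Fintype.card_fin] at hO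
  have fin : ∀ θ m d k N', Many ((range (400 * Λ + 2)).biUnion R) N'
      (fun W => Fb G θ m d W (prt (400 * Λ) p 2) (prt (400 * Λ) p 3)) → 1 ≤ k → k ≤ N' → 1 ≤ θ →
      1 ≤ m → 1 ≤ d → k * (θ * (m * d)) = 2 ^ a → Fl.Kind y P B (2 ^ b) (m * d) d θ →
      ∃ (x z : ℕ → V) (S : Fl.SD) (e d θ' : ℕ), Fl.Ends G h F₀ (2 ^ a) U s s' x z ∧
        Fl.Stg G (h.reg ((U.erase s).erase s')) (2 ^ a) x z S ∧ Fl.Shape (2 ^ a) S e d θ' ∧
        Fl.Kind y P B (2 ^ b) e d θ' := by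
    intro θ m d k N' hm k1 k2 t1 m1 d1 e hK
    obtain ⟨x, z, S, s1, s2, s3⟩ := stg V G _ _ _ θ m d k N' (CCell.pdisj hR)
      (hm.mono hsub fun _ e => e) k1 k2 t1 m1 d1
    rw [e] at s1 s2 s3
    exact ⟨x, z, S, _, _, _, ⟨hs, hs', hne,
      d2 _ (image_subset_iff.2 fun τ hτ => (s1 τ (mem_range.1 hτ)).1),
      d3 _ (image_subset_iff.2 fun τ hτ => (s1 τ (mem_range.1 hτ)).2)⟩, s2, s3, hK⟩
  obtain ⟨N', ⟨D, a1, a2, a3, a4⟩ | ⟨m, d, a1, a2, a3, a4, a5⟩⟩ := hO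
  · obtain ⟨e, k, e1, e2, k1, k2, k3, k4⟩ := CCell.cel h1 hM (by omega) (by omega) hyF a2 a3 a4
    exact fin 1 1 e k N' (a1.mono subset_rfl fun W hW => (fb V G W _ _).1 D e e2 hW) k1 k2 le_rfl
      le_rfl e1 k3 ⟨k4, Or.inl ⟨rfl, by omega⟩⟩
  · obtain ⟨m', d', k, e1, e2, e3, e4, k1, k2, k3, k4, k5, k6⟩ :=
      CCell.blk hθ h1 h2 h3 (by omega) hy hyF a2 a3 a4 a5
    exact fin _ m' d' k N' (a1.mono subset_rfl fun W hW => (fb V G W _ _).2 _ m d m' d' e2 e4 hW)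
      k1 k2 Nat.one_le_two_pow e1 e3 k3 ⟨k4, Or.inr ⟨rfl, k5, k6⟩⟩

end Pool.Agent.MP_35cb46_co.Ce
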