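import Pool.Agent.MP_35cb46_co.fl.CSpec

/-! PROJECT FL, row CELL0: the game in the routers. -/

noncomputable section

namespace Pool.Agent.MP_35cb46_co.Ce

open Finset Pool.Agent.MP_7be75d_co Pool.Agent.MP_35cb46_co.Sq Pool.Agent.MP_35cb46_co.Nl
open scoped Classical

namespace Cell0P

theorem num1 {B Λ : ℕ} (hB : 2 ≤ B) (hΛ : Λ ≤ B) :
    4608 * (400 * Λ) * (400 * Λ + 1) ≤ B ^ 32 := by
  calc 4608 * (400 * Λ) * (400 * Λ + 1) ≤ 4608 * (400 * B) * (401 * B) := by gcongr; omega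
    _ = 739123200 * B ^ 2 := by ring
    _ ≤ 2 ^ 30 * B ^ 2 := by gcongr; norm_num
    _ ≤ B ^ 30 * B ^ 2 := by gcongr
    _ = B ^ 32 := by ring

theorem num2 {B Λ K P : ℕ} (hB : 2 ≤ B) (hΛ : Λ ≤ B) (hK : K ≤ P) :
    2 * (16 * ((400 * Λ + 1) * (60 * K * (Λ + 1) ^ 2))) * P ≤ B ^ 25 * P ^ 2 := by
  calc 2 * (16 * ((400 * Λ + 1) * (60 * K * (Λ + 1) ^ 2))) * P
      ≤ 2 * (16 * ((401 * B) * (60 * P * (2 * B) ^ 2))) * P := by gcongr <;> omega
    _ = 3079680 * B ^ 3 * P ^ 2 := by ring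
    _ ≤ 2 ^ 22 * B ^ 3 * P ^ 2 := by gcongr; norm_num
    _ ≤ B ^ 22 * B ^ 3 * P ^ 2 := by gcongr
    _ = _ := by ring

theorem num3 {r n δ : ℕ} (hn : 32 ≤ n) (h : 960 * r * δ ≤ n) :
    6 * r * (4608 * r * (r + 1) * δ + 12 * (r + 1) * n) ≤ 4608 * r * (r + 1) * (n / 16) := by
  have h1 : n ≤ 32 * (n / 16) := by omega
  have h2 : 12 * (r * δ) ≤ n / 16 := by
    rw [mul_assoc] at h
    omega
  generalize n / 16 = g at *
  calc 6 * r * (4608 * r * (r + 1) * δ + 12 * (r + 1) * n)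
      = 2304 * r * (r + 1) * (12 * (r * δ)) + 72 * r * (r + 1) * n := by ring
    _ ≤ 2304 * r * (r + 1) * g + 72 * r * (r + 1) * (32 * g) := by gcongr
    _ = _ := by ring

end Cell0P

open Cell0P in
theorem cell0 (cm : CMStmt) (dcp : DcpStmt) (init : InitStmt) (step : StepStmt) (fin : FinStmt) :
    Cell0Stmt := by
  obtain ⟨c₀, dcp⟩ := dcp
  refine ⟨25 + 32 * c₀ * 2, fun V ι _ _ G R p Λ B θ M y hd hV hR hΛ hθ hθ1 hM hy hn he => ?_⟩
  have hB : 2 ≤ B := by omega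
  rw [pow_add, pow_mul, pow_mul] at hy ⊢
  have hnV : Fintype.card ι ≤ Fintype.card V :=
    Fintype.card_le_of_injective (p 0 0) fun k k' e => (hR.inj 0 (by omega) 0 k 0 k' e).2
  have b1 : B ≤ B ^ 32 := Nat.le_self_pow (by omega) B
  have b2 : 2 ^ 25 ≤ B ^ 25 := Nat.pow_le_pow_left hB _
  have b3 : 1 ≤ (B ^ 32) ^ c₀ := Nat.one_le_pow _ _ (by omega)
  have b4 : (B ^ 32) ^ c₀ ≤ B ^ 25 * ((B ^ 32) ^ c₀) ^ 2 :=
    (Nat.le_self_pow (by omega) _).trans (Nat.le_mul_of_pos_left _ (by omega))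
  have b5 : B ^ 25 * ((B ^ 32) ^ c₀) ^ 2 ≤ y := (Nat.le_mul_of_pos_right _ hM).trans hy
  have b6 : B ^ 25 ≤ y := (Nat.le_mul_of_pos_right _ (by positivity)).trans b5
  have hΛ1 : 1 ≤ Λ := by
    rcases Nat.eq_zero_or_pos Λ with rfl | h
    · omega
    · exact h
  have hKd : 12 ≤ 4608 * (400 * Λ) * (400 * Λ + 1) := by nlinarith
  obtain ⟨K, hK1, hK, orc⟩ := dcp V G Λ (B ^ 32) θ _ M y hd hV (by omega) (by omega) (num1 hB hΛ)
    (by omega) hθ1 hM ((Nat.mul_le_mul_right _ b4).trans hy) (by omega)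
  have n2 := num2 hB hΛ hK
  generalize (B ^ 32) ^ c₀ = P at *
  generalize hE : 60 * K * (Λ + 1) ^ 2 = E₀ at n2
  have hE1 : 60 ≤ E₀ := hE ▸ by nlinarith [Nat.one_le_pow 2 (Λ + 1) (by omega)]
  obtain ⟨E, hE'⟩ : ∃ E, E = 16 * ((400 * Λ + 1) * E₀) := ⟨_, rfl⟩
  rw [← hE'] at n2
  have hE2 : 1 ≤ E := by rw [hE']; nlinarith
  have hEn : E ≤ Fintype.card ι := by nlinarith
  obtain ⟨δ, hδ⟩ : ∃ δ, δ = Fintype.card ι / E := ⟨_, rfl⟩
  have d1 : E * δ ≤ Fintype.card ι := hδ ▸ Nat.mul_div_le _ _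
  have d2 : Fintype.card ι ≤ 2 * E * δ := by
    have h1 := Nat.div_add_mod (Fintype.card ι) E
    have h2 := Nat.mod_lt (Fintype.card ι) hE2
    have h3 : 1 ≤ δ := hδ ▸ (Nat.one_le_div_iff hE2).2 hEn
    rw [← hδ] at h1
    nlinarith
  refine Outc.mono (n := δ) (P := P) (c := 2 * E) ?_ le_rfl subset_rfl subset_rfl subset_rfl d2
    (by omega) n2
  by_contra hc
  obtain ⟨h, hh⟩ := he
  obtain ⟨ty, -, hty⟩ := exists_subset_card_eq (s := (univ : Finset ι)) (n := h)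
    (by rw [card_univ]; omega)
  obtain ⟨t, ht, Mt, hS, hb⟩ := cm ι (Fintype.card ι / 16) (400 * Λ) Λ
    (St G R p ty y (60 * K * (Λ + 1) ^ 2 * δ)) (by omega)
    (by
      have : 12 * Fintype.card ι < 400 * (Fintype.card ι / 16) := by omega
      nlinarith)
    (init V ι G _ R p ty y _ hR (by omega))
    (fun t ht Mt hS S hB => (step V ι G _ t R p ty S θ y P M _ K δ Λ _ Mt hd hV hR ht hK1 hKd
      (by omega) (by omega) (by
        rw [hE, ← mul_assoc (400 * Λ + 1)]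
        rw [hE', mul_assoc 16] at d1
        omega) (orc δ) hS hB).resolve_left hc)
  have hp : ∀ c, univ.image (p 0 c) ⊆ prt (400 * Λ) p c := fun c =>
    subset_biUnion_of_mem (fun i => univ.image (p i c)) (mem_range.2 (by omega))
  rcases fin V ι G (400 * Λ) t R p ty y _ _ K δ (Fintype.card ι / 16) Mt _ _ ht hK1 (by omega)
    (by omega) hn (num3 (by omega) (le_trans (Nat.mul_le_mul_right _ (by rw [hE']; nlinarith)) d1))
    (biUnion_subset_biUnion_of_subset_left R (range_subset_range.2 (by omega)))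
    (orc δ ((range (400 * Λ + 2)).biUnion R)) hS with ⟨A, hA, B', hB', h1⟩ | ⟨S, h1, h2⟩
  · exact hc (h1.up le_rfl subset_rfl (hA.trans (hp 2)) (hB'.trans (hp 3)))
  · have := hb S h1
    omega

end Pool.Agent.MP_35cb46_co.Ce
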