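import Pool.Agent.MP_35cb46_co.fl.CSpec
import Pool.Agent.MP_35cb46_co.nl.Havq

/-! PROJECT FL, the cell lemma: an optimal clustering of small volume. -/

noncomputable section

namespace Pool.Agent.MP_35cb46_co.Ce

open Finset Pool.Agent.MP_7be75d_co Pool.Agent.MP_35cb46_co.Sq Pool.Agent.MP_35cb46_co.Nl
open scoped Classical

namespace CClu

open ClusP

variable {V : Type} {G : SimpleGraph V} {X T C : Finset V} {g A Λ : ℕ}

theorem bo_pos' (hX : ∀ v ∈ X, ∃ t ∈ T, R G X v t) (hC : C ⊆ X) (hC' : C.Nonempty) :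
    1 ≤ bo G X T C := by
  by_contra h
  have h0 : cw (aw G) C (X \ C) + ts (ind T) C = 0 := by
    simpa only [bo, out, not_le, Nat.lt_one_iff] using h
  obtain ⟨v, hv⟩ := hC'
  obtain ⟨t, ht, hr⟩ := hX v (hC hv)
  by_cases htC : t ∈ C
  · have := sum_eq_zero_iff.1 (show ts (ind T) C = 0 by omega) t htC
    simp [ind, ht] at this
  · obtain ⟨x, y, h1, h2, -, h4, h5, -⟩ := hr.exit hv htC
    have := cw_eq_zero.1 (show cw (aw G) C (X \ C) = 0 by omega) x h1 y (mem_sdiff.2 ⟨h4, h2⟩)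
    simp [aw, h5] at this

theorem sum_lo (N : ℕ) (b : Finset V → ℕ) (W : Finset (Finset V)) :
    (N : ℝ) * (ts b W : ℕ) ≤ ∑ C ∈ W, pf N (b C) := by
  rw [ts, Nat.cast_sum, mul_sum]
  refine sum_le_sum fun C _ => ?_
  rw [pf, mul_comm]
  exact mul_le_mul_of_nonneg_left (by linarith [lg_nonneg (b C)]) (by positivity)

theorem sum_hi {N : ℕ} (hN : Λ ≤ N) {b : Finset V → ℕ} {W : Finset (Finset V)}
    (h : ∀ C ∈ W, b C < 2 ^ Λ) : ∑ C ∈ W, pf N (b C) ≤ (N : ℝ) * (2 * ts b W : ℕ) := by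
  rw [ts, mul_sum, Nat.cast_sum, mul_sum]
  refine sum_le_sum fun C hC => ?_
  have h1 := lg_le (h C hC)
  have h2 : (Λ : ℝ) ≤ N := by exact_mod_cast hN
  have h3 := mul_le_mul_of_nonneg_left (h1.trans h2) (Nat.cast_nonneg (α := ℝ) (b C))
  rw [pf]
  push_cast
  linarith

theorem core [Fintype V] (hd : Deg G univ 6) (hX : ∀ v ∈ X, ∃ t ∈ T, R G X v t) (hg : 7 ≤ g)
    (hΛ : g < 2 ^ Λ) (hA : 1 ≤ A) : ∃ PP, Clu G X T g A Λ PP ∧
      ∀ QQ, Ok G X T g X QQ → ts (bo G X T) PP ≤ 2 * ts (bo G X T) QQ := by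
  have hΛ1 : 1 ≤ Λ := by
    rcases Nat.eq_zero_or_pos Λ with rfl | h
    · omega
    · exact h
  obtain ⟨PP, h, opt⟩ := exists_opt (X := X) (T := T) hd hg (A * Λ)
  have sub : ∀ C ∈ PP, C ⊆ X := fun C hC v hv => h.un ▸ ClusP.mem_un.2 ⟨C, hC, hv⟩
  have pos : ∀ C ∈ PP, 1 ≤ bo G X T C := fun C hC => bo_pos' hX (sub C hC) (h.ne C hC)
  have merge : ∀ W ⊆ PP, W.Nonempty → bo G X T (un W) ≤ g →
      ∑ C ∈ W, pf (A * Λ) (bo G X T C) ≤ pf (A * Λ) (bo G X T (un W)) := fun W hW hne hle => by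
    obtain ⟨C, hC⟩ := hne
    obtain ⟨v, hv⟩ := h.ne C (hW hC)
    simpa using opt W hW {un W} ⟨by simpa using ⟨v, ClusP.mem_un.2 ⟨C, hC, hv⟩⟩, by simpa using hle,
      by simp [PD], by simp [un]⟩
  have wl : ∀ C ∈ PP, WL (aw G) C (bw G X T C) (14 * A * Λ) := fun C hC S hS => by
    by_contra hc
    rw [not_le, lt_min_iff] at hc
    have e1 := bo_sub (G := G) (T := T) hS (sub C hC)
    have e2 := bo_sub (G := G) (T := T) (sdiff_subset (s := C) (t := S)) (sub C hC)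
    have e3 := bo_sub (G := G) (T := T) (subset_refl C) (sub C hC)
    have e4 : ts (bw G X T C) (C \ S) + ts (bw G X T C) S = ts (bw G X T C) C := sum_sdiff hS
    rw [Finset.sdiff_sdiff_eq_self hS, cw_comm aw_comm] at e2
    rw [sdiff_self, show cw (aw G) C ⊥ = 0 by simp [cw], add_zero, ← e4] at e3
    have n1 : S.Nonempty := nonempty_iff_ne_empty.2 fun e => by simp [e, ts] at hc
    have n2 : (C \ S).Nonempty := nonempty_iff_ne_empty.2 fun e => by simp [e, ts] at hc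
    have hne : S ≠ C \ S := fun e => by
      obtain ⟨v, hv⟩ := n1
      exact (mem_sdiff.1 (e ▸ hv : v ∈ C \ S)).2 hv
    have hle := h.le C hC
    have h1 : 1 ≤ 14 * A * Λ := Nat.mul_pos (by omega) hΛ1
    have h2 := Nat.le_mul_of_pos_left (cw (aw G) S (C \ S)) h1
    have := opt {C} (singleton_subset_iff.2 hC) {S, C \ S} ⟨by simp [n1, n2],
      by simp only [mem_insert, mem_singleton, forall_eq_or_imp, forall_eq]; omega,
      by simp [PD, disjoint_sdiff_self_left, disjoint_sdiff_self_right],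
      by simp [un, union_sdiff_of_subset hS]⟩
    rw [sum_singleton, sum_pair hne, e1, e2, e3] at this
    rcases le_total (ts (bw G X T C) S) (ts (bw G X T C) (C \ S)) with hh | hh
    · exact split_ineq hA hΛ1 hh (by omega) hc.1 (by rwa [add_comm (ts _ S)])
    · exact split_ineq hA hΛ1 hh (by omega) hc.2 (by rwa [add_comm (pf _ _)])
  refine ⟨PP, ⟨⟨fun C hC => ?_, h.pd, h.un⟩, pos, h.le, wl, fun W hW hle => ?_,
    fun C hC C' hC' hle => ?_⟩, fun QQ hQ => ?_⟩
  · obtain ⟨v, hv⟩ := h.ne C hC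
    have hS : comp G C v ⊆ C := comp_subset
    by_cases hn : (C \ comp G C v).Nonempty
    · have e0 : cw (aw G) (comp G C v) (C \ comp G C v) = 0 := cw_eq_zero.2 fun a ha b hb => by
        rw [aw, if_neg fun hab => (mem_sdiff.1 hb).2 (comp_closed ha (mem_sdiff.1 hb).1 hab)]
      have e1 := bo_sub (G := G) (T := T) hS (sub C hC)
      have e2 := bo_sub (G := G) (T := T) (sdiff_subset (s := C) (t := comp G C v)) (sub C hC)
      rw [Finset.sdiff_sdiff_eq_self hS, cw_comm aw_comm] at e2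
      have p1 := bo_pos' hX (hS.trans (sub C hC)) ⟨v, self_mem_comp hv⟩
      have p2 := bo_pos' hX (sdiff_subset.trans (sub C hC)) hn
      have := wl C hC _ hS
      rw [e0, mul_zero] at this
      omega
    · rw [not_nonempty_iff_eq_empty, sdiff_eq_empty_iff_subset] at hn
      exact subset_antisymm hS hn ▸ comp_conn hv
  · rcases W.eq_empty_or_nonempty with rfl | hne
    · simp [cw]
    rw [← bo_un h.pd h.un hW] at hle
    have h1 := merge W hW hne hle
    have h2 := ts_bo (G := G) (T := T) h.pd h.un hW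
    have h3 : ((A * Λ : ℕ) : ℝ) * (ts (bo G X T) W : ℕ) ≤ ∑ C ∈ W, pf (A * Λ) (bo G X T C) := by
      rw [ts, Nat.cast_sum, mul_sum]
      refine sum_le_sum fun C _ => ?_
      rw [pf, mul_comm]
      exact mul_le_mul_of_nonneg_left (by linarith [lg_nonneg (bo G X T C)]) (by positivity)
    have h4 := mul_le_mul_of_nonneg_left (lg_le (hle.trans_lt hΛ))
      (Nat.cast_nonneg (α := ℝ) (bo G X T (un W)))
    rw [pf] at h1
    rw [h2] at h3 ⊢
    have h5 : (A : ℝ) * cw (ew G) W W * Λ ≤ bo G X T (un W) * Λ := by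
      push_cast at h1 h3
      linarith
    have h6 : A * cw (ew G) W W ≤ bo G X T (un W) := by
      exact_mod_cast le_of_mul_le_mul_right h5 (by exact_mod_cast hΛ1)
    omega
  · by_cases hne : C = C'
    · simp [ew, hne]
    have hW : {C, C'} ⊆ PP := by simp [insert_subset_iff, hC, hC']
    have h2 := ts_bo (G := G) (T := T) h.pd h.un hW
    have h3 : cw (ew G) {C, C'} {C, C'} = 2 * ew G C C' := by
      simp only [cw, sum_pair hne]
      simp only [ew, if_true, if_neg hne, if_neg (Ne.symm hne), cw_comm aw_comm C' C]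
      ring
    rw [h3, ts, sum_pair hne] at h2
    have h1 := merge _ hW (by simp) (by omega)
    rw [sum_pair hne] at h1
    exact thin_ineq hΛ1 (pos C hC) (pos C' hC') (by omega) h2.symm h1
  · have h1 := opt PP subset_rfl QQ (h.un.symm ▸ hQ)
    have h2 := ((sum_lo _ _ _).trans h1).trans (sum_hi (Nat.le_mul_of_pos_left _ hA)
      fun C hC => (hQ.le C hC).trans_lt hΛ)
    exact_mod_cast le_of_mul_le_mul_left h2 (by exact_mod_cast Nat.mul_pos hA hΛ1)

end CClu

open CClu ClusP in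
theorem clu2 : Clu2Stmt := by
  intro V _ G X T g A Λ v hd hT hg hΛ hA ⟨QQ, q1, q2, q3, q4⟩
  set X' := X.filter fun u => ∃ t ∈ T, R G X t u with hX'
  have sb : X' ⊆ X := filter_subset _ _
  have tm : T ⊆ X' := fun t ht => mem_filter.2 ⟨hT ht, t, ht, R.refl⟩
  have cl : ∀ a ∈ X', ∀ b ∈ X, G.Adj a b → b ∈ X' := fun a ha b hb h => by
    obtain ⟨h1, t, ht, hr⟩ := mem_filter.1 ha
    exact mem_filter.2 ⟨hb, t, ht, hr.tail h h1 hb⟩
  obtain ⟨PP, h1, h2⟩ := core (X := X') (T := T) hd (fun u hu => by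
    obtain ⟨-, t, ht, hr⟩ := mem_filter.1 hu
    exact ⟨t, ht, ((hr.closed (tm ht) fun x hx y hy _ => cl x hx y hy).2.mono
      inter_subset_right).symm⟩) hg hΛ hA
  have le : ∀ C, bo G X' T (C ∩ X') ≤ bo G X T C := fun C =>
    add_le_add (cw_mono inter_subset_left fun u hu => mem_sdiff.2 ⟨sb (mem_sdiff.1 hu).1,
      fun hc => (mem_sdiff.1 hu).2 (mem_inter.2 ⟨hc, (mem_sdiff.1 hu).1⟩)⟩)
      (sum_le_sum_of_subset inter_subset_left)
  refine ⟨X', sb, tm, cl, PP, h1, (h2 ((QQ.image (· ∩ X')).erase ∅) ⟨fun C hC =>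
    nonempty_iff_ne_empty.2 (mem_erase.1 hC).1, fun C hC => ?_, fun C hC C' hC' hne => ?_,
    ?_⟩).trans (Nat.mul_le_mul_left 2 (le_trans ?_ q4))⟩
  · obtain ⟨D, hD, rfl⟩ := mem_image.1 (mem_erase.1 hC).2
    exact (le D).trans (q3 D hD)
  · obtain ⟨D, hD, rfl⟩ := mem_image.1 (mem_erase.1 hC).2
    obtain ⟨D', hD', rfl⟩ := mem_image.1 (mem_erase.1 hC').2
    exact (q1 D hD D' hD' fun e => hne (e ▸ rfl)).mono inter_subset_left inter_subset_left
  · ext u
    rw [ClusP.mem_un]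
    constructor
    · rintro ⟨C, hC, hu⟩
      obtain ⟨D, -, rfl⟩ := mem_image.1 (mem_erase.1 hC).2
      exact (mem_inter.1 hu).2
    · intro hu
      obtain ⟨D, hD, hv⟩ := ClusP.mem_un.1 (q2 ▸ sb hu : u ∈ un QQ)
      have := mem_inter.2 ⟨hv, hu⟩
      exact ⟨_, mem_erase.2 ⟨ne_empty_of_mem this, mem_image_of_mem _ hD⟩, this⟩
  · exact (sum_le_sum_of_subset (erase_subset _ _)).trans
      ((sum_image_le_of_nonneg fun _ _ => Nat.zero_le _).trans (sum_le_sum fun C _ => le C))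

end Pool.Agent.MP_35cb46_co.Ce
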