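import Pool.Agent.MP_35cb46_co.fl.CSpec

/-! PROJECT FL, row DCP: decomposition with its success cases. -/

noncomputable section

namespace Pool.Agent.MP_35cb46_co.Ce

open Finset Pool.Agent.MP_7be75d_co Pool.Agent.MP_35cb46_co.Sq Pool.Agent.MP_35cb46_co.Nl
open scoped Classical

namespace DcpP

theorem le_two_div {n σ : ℕ} (h0 : 1 ≤ σ) (h : σ ≤ n) : n ≤ 2 * σ * (n / σ) := by
  have h1 := Nat.div_add_mod n σ
  have h2 := Nat.mod_lt n h0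
  have h3 : 1 ≤ n / σ := (Nat.one_le_div_iff h0).2 h
  nlinarith

theorem satl (aug : AugStmt) (sel : SelStmt) {V : Type} [Fintype V] {G : SimpleGraph V}
    {X T W En Xi : Finset V} {K D x : ℕ} (hd : Deg G univ 6) (hK : 1 ≤ K) (hc : Conn G W)
    (hw : WL (aw G) W (bw G X T W) K) (hE : En ⊆ W) (hX : Xi ⊆ W) (e1 : En.card = x)
    (e2 : Xi.card = x) (hb : ∀ v ∈ En ∪ Xi, 1 ≤ bw G X T W v) (hD : 48 * K * D ≤ x) :
    Cel1 G D W En Xi := by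
  obtain ⟨Y', h1, h2, h3⟩ := sel V Bool G W ∅ (bw G X T W) K univ
    (fun b => if b then En else Xi) (fun _ => D) hd hw (bw_le hd X T W) hK (Fre.empty _ _ _)
    (fun b _ => by
      have e : 24 * K * ((∅ : Finset V).card + ts (fun _ : Bool => D) univ) ≤ x := by
        rw [ts_const]
        simp only [card_empty, card_univ, Fintype.card_bool]
        nlinarith
      cases b
      · exact ⟨hX, fun v hv => hb v (mem_union_right _ hv), e.trans e2.ge⟩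
      · exact ⟨hE, fun v hv => hb v (mem_union_left _ hv), e.trans e1.ge⟩)
  refine ⟨hc, Y' true, (h1 true (mem_univ _)).1, Y' false, (h1 false (mem_univ _)).1,
    (h1 true (mem_univ _)).2.1, (h1 false (mem_univ _)).2.1,
    h2 true (mem_univ _) false (mem_univ _) (by simp), ?_⟩
  exact ((aug V G W _ K hd hw (bw_le hd X T W) hK).1 _ h3).mono le_rfl subset_rfl
    (union_subset ((subset_biUnion_of_mem Y' (mem_univ true)).trans subset_union_right)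
      ((subset_biUnion_of_mem Y' (mem_univ false)).trans subset_union_right))

theorem exb_and {V : Type} {G : SimpleGraph V} {Ψ : Finset V → Finset V → Finset V → Prop}
    (h : Exb G Ψ) (q : Prop) : Exb G fun W A B => Ψ W A B ∧ q :=
  fun W A B A' B' T f Q h1 h2 h3 h4 => ⟨h W A B A' B' T f Q h1.1 h2 h3 h4, h1.2⟩

theorem many_and {V : Type} {X : Finset V} {N : ℕ} {Ψ : Finset V → Prop} {q : Prop}
    (h : Many X N fun W => Ψ W ∧ q) (hN : 1 ≤ N) : Many X N Ψ ∧ q := by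
  refine ⟨h.mono subset_rfl fun _ e => e.1, ?_⟩
  obtain ⟨J, -, h2, h3⟩ := h
  obtain ⟨W, hW⟩ := card_pos.1 (h2 ▸ hN : 0 < J.card)
  exact (h3 W hW).2.2.2

theorem nums (c₁ c₂ : ℕ) : ∃ c, ∀ B Λ Kd : ℕ, 2 ≤ B → Λ ≤ B → Kd ≤ B → ∃ A K Bz : ℕ,
    4 * Kd * (Λ + 1) ≤ B ^ 5 ∧ (B ^ 5) ^ c₁ ≤ A ∧ 4 * Kd * (Λ + 1) < A ∧ A ^ c₂ ≤ Bz ∧ 1 ≤ Bz ∧
    1 ≤ K ∧ 28 * A * Λ * (4 * Kd * (Λ + 1) + 1) ≤ K ∧ K ≤ B ^ c ∧
    768 * (192 * (120 * K * Kd) * Bz) * (120 * K * Kd) * (672 * A * Λ) ≤ B ^ c ∧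
    6144 * Λ * (672 * A * Λ) ≤ B ^ c ∧ 768 * (120 * K * Kd) * Bz ^ 2 ≤ B ^ c ∧
    12288 * Λ * (Λ + 1) * Bz ^ 2 ≤ B ^ c := by
  refine ⟨5 * (c₁ + 2) * (20 + 2 * (c₂ + 1)), fun B Λ Kd hB hΛ hK => ?_⟩
  rw [pow_mul, pow_mul]
  have b1 : 8 * B ^ 2 ≤ B ^ 5 := by
    calc 8 * B ^ 2 = 2 ^ 3 * B ^ 2 := by norm_num
      _ ≤ B ^ 3 * B ^ 2 := by gcongr
      _ = B ^ 5 := by ring
  have b2 : 4 * Kd * (Λ + 1) ≤ B ^ 5 := by nlinarith
  have b3 : 32 ≤ B ^ 5 := by nlinarith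
  have b4 : B + 1 ≤ B ^ 5 := by nlinarith
  generalize B ^ 5 = b at *
  have a1 : b ^ c₁ ≤ b ^ (c₁ + 2) := Nat.pow_le_pow_right (by omega) (by omega)
  have a2 : b ^ 2 ≤ b ^ (c₁ + 2) := Nat.pow_le_pow_right (by omega) (by omega)
  generalize b ^ (c₁ + 2) = a at *
  have a3 : 1024 ≤ a := by nlinarith
  have a4 : b < a := by nlinarith
  have p : ∀ i j, i ≤ j → a ^ i ≤ a ^ j := fun i j h => Nat.pow_le_pow_right (by omega) h
  have hΛ' : Λ + 1 ≤ a := by omega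
  have hE : 120 * a ^ 5 * Kd ≤ a ^ 7 := by
    calc 120 * a ^ 5 * Kd ≤ a * a ^ 5 * a := by gcongr <;> omega
      _ = a ^ 7 := by ring
  have hF : 672 * a * Λ ≤ a ^ 3 := by
    calc 672 * a * Λ ≤ a * a * a := by gcongr <;> omega
      _ = a ^ 3 := by ring
  have hz : 1 ≤ a ^ (c₂ + 1) := Nat.one_le_pow _ _ (by omega)
  have e : a ^ (20 + 2 * (c₂ + 1)) = a ^ 20 * (a ^ (c₂ + 1)) ^ 2 := by ring
  rw [e]
  refine ⟨a, a ^ 5, a ^ (c₂ + 1), b2, a1, by omega, p _ _ (by omega), hz,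
    Nat.one_le_pow _ _ (by omega), ?_, ?_, ?_, ?_, ?_, ?_⟩
  · calc 28 * a * Λ * (4 * Kd * (Λ + 1) + 1) ≤ a * a * a * a := by gcongr <;> omega
      _ = a ^ 4 := by ring
      _ ≤ a ^ 5 := p _ _ (by omega)
  · exact (p 5 20 (by omega)).trans (Nat.le_mul_of_pos_right _ (by positivity))
  · generalize a ^ (c₂ + 1) = z at *
    calc 768 * (192 * (120 * a ^ 5 * Kd) * z) * (120 * a ^ 5 * Kd) * (672 * a * Λ)
        ≤ a * (a * a ^ 7 * z) * a ^ 7 * a ^ 3 := by gcongr <;> omega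
      _ = a ^ 19 * z := by ring
      _ ≤ a ^ 20 * z ^ 2 := Nat.mul_le_mul (p _ _ (by omega)) (by nlinarith)
  · calc 6144 * Λ * (672 * a * Λ) ≤ (a * a) * a * a ^ 3 := by
          gcongr
          · nlinarith
          · omega
      _ = a ^ 6 := by ring
      _ ≤ _ := (p 6 20 (by omega)).trans (Nat.le_mul_of_pos_right _ (by positivity))
  · calc 768 * (120 * a ^ 5 * Kd) * (a ^ (c₂ + 1)) ^ 2 ≤ a * a ^ 7 * (a ^ (c₂ + 1)) ^ 2 := by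
          gcongr; omega
      _ = a ^ 8 * (a ^ (c₂ + 1)) ^ 2 := by ring
      _ ≤ _ := Nat.mul_le_mul_right _ (p _ _ (by omega))
  · calc 12288 * Λ * (Λ + 1) * (a ^ (c₂ + 1)) ^ 2 ≤ (a * a) * a * a * (a ^ (c₂ + 1)) ^ 2 := by
          gcongr
          · nlinarith
          · omega
      _ = a ^ 4 * (a ^ (c₂ + 1)) ^ 2 := by ring
      _ ≤ _ := Nat.mul_le_mul_right _ (p _ _ (by omega))

theorem numS {x F E τ y M B5 P N J δ Λ : ℕ} (hE : 1 ≤ E) (hF : 1 ≤ F) (s1 : τ / E ≤ 32 * x)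
    (t2 : 96 * F * E ≤ τ) (t5 : y ≤ 2 * (M * B5) * τ) (hx : x / 2 ≤ y)
    (n9 : 768 * B5 * E * F ≤ P) (n10 : 6144 * Λ * F ≤ P) (hJ : J ≤ 2 * N)
    (j2 : δ < 512 * Λ * (J * x)) :
    x / 2 / F ≤ y ∧ y ≤ P * M * (x / 2 / F) ∧ δ ≤ P * (N * (x / 2 / F)) := by
  have s2 : 96 * F ≤ τ / E := (Nat.le_div_iff_mul_le hE).2 t2
  have s3 : τ ≤ 2 * E * (τ / E) :=
    le_two_div hE (le_trans (Nat.le_mul_of_pos_left _ (by omega)) t2)
  have s4 : x / 2 ≤ 2 * F * (x / 2 / F) := le_two_div (by omega) (by omega)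
  have s6 : x / 2 / F ≤ x / 2 := Nat.div_le_self _ _
  generalize x / 2 / F = D at *
  have s5 : x ≤ 6 * F * D := by
    rw [mul_assoc] at s4 ⊢
    omega
  refine ⟨s6.trans hx, ?_, ?_⟩
  · calc y ≤ 2 * (M * B5) * (2 * E * (32 * (6 * F * D))) := t5.trans (by
          gcongr
          exact s3.trans (by gcongr; exact s1.trans (by gcongr)))
      _ = 768 * B5 * E * F * M * D := by ring
      _ ≤ _ := by gcongr
  · calc δ ≤ 512 * Λ * (2 * N * (6 * F * D)) := j2.le.trans (by gcongr)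
      _ = 6144 * Λ * F * (N * D) := by ring
      _ ≤ _ := by gcongr

theorem numZ0 {x E τ y Bz : ℕ} (hE : 1 ≤ E) (s1 : y / E ≤ 32 * x) (t6 : 192 * E ≤ y)
    (t3 : 192 * E * Bz * τ ≤ y) : y ≤ 192 * E * (x / 2) ∧ Bz * τ ≤ x / 2 ∧ 1 ≤ x / 2 := by
  have s2 : 192 ≤ y / E := (Nat.le_div_iff_mul_le hE).2 t6
  have s3 : y ≤ 2 * E * (y / E) := le_two_div hE (by omega)
  have s4 : y ≤ 192 * E * (x / 2) := by
    calc y ≤ 2 * E * (96 * (x / 2)) := s3.trans (by gcongr; omega)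
      _ = _ := by ring
  refine ⟨s4, Nat.le_of_mul_le_mul_left ?_ (show 0 < 192 * E by omega), by omega⟩
  rw [← mul_assoc]
  exact t3.trans s4

theorem numZ {x E τ y Bz w M P N J δ Λ : ℕ} (n5 : 1 ≤ Bz) (w1 : 1 ≤ w) (a5 : w ≤ τ)
    (s4 : y ≤ 192 * E * (x / 2)) (s5 : Bz * τ ≤ x / 2) (t4 : M * τ ≤ y)
    (n11 : 768 * E * Bz ^ 2 ≤ P) (n12 : 12288 * Λ * (Λ + 1) * Bz ^ 2 ≤ P)
    (hJ : J ≤ 2 * ((Λ + 1) * N)) (j2 : δ < 512 * Λ * (J * x)) :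
    1 ≤ max 1 (w / Bz) ∧ M * max 1 (w / Bz) ≤ y ∧ y ≤ P * (x / 2 / (Bz * w) * max 1 (w / Bz)) ∧
      δ ≤ P * (N * (x / 2 / (Bz * w) * max 1 (w / Bz))) := by
  have u0 : 1 ≤ x / 2 := le_trans (Nat.mul_pos n5 (by omega)) s5
  have u1 : x / 2 ≤ 2 * (Bz * w) * (x / 2 / (Bz * w)) :=
    le_two_div (Nat.mul_pos n5 w1) (le_trans (by gcongr) s5)
  have u2 : w ≤ 2 * Bz * max 1 (w / Bz) := by
    rcases le_total Bz w with h | h
    · exact (le_two_div n5 h).trans (by gcongr; exact le_max_right _ _)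
    · nlinarith [le_max_left 1 (w / Bz)]
  have u3 : max 1 (w / Bz) ≤ w := max_le w1 (Nat.div_le_self _ _)
  have u4 := le_max_left 1 (w / Bz)
  generalize max 1 (w / Bz) = d at *
  generalize x / 2 / (Bz * w) = m at *
  have u5 : x / 2 ≤ 4 * Bz ^ 2 * (m * d) := by
    calc x / 2 ≤ 2 * (Bz * (2 * Bz * d)) * m := u1.trans (by gcongr)
      _ = _ := by ring
  refine ⟨u4, le_trans (by gcongr; omega) t4, ?_, ?_⟩
  · calc y ≤ 192 * E * (4 * Bz ^ 2 * (m * d)) := s4.trans (by gcongr)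
      _ = 768 * E * Bz ^ 2 * (m * d) := by ring
      _ ≤ _ := by gcongr
  · calc δ ≤ 512 * Λ * (2 * ((Λ + 1) * N) * (3 * (4 * Bz ^ 2 * (m * d)))) :=
          j2.le.trans (by gcongr; omega)
      _ = 12288 * Λ * (Λ + 1) * Bz ^ 2 * (N * (m * d)) := by ring
      _ ≤ _ := by gcongr

theorem numT {E F B5 Bz M P y : ℕ} (hE : 1 ≤ E) (hF : 1 ≤ F) (hM : 1 ≤ M) (n5 : 1 ≤ Bz)
    (hB : B5 = 192 * E * Bz) (n9 : 768 * B5 * E * F ≤ P) (hy : P * M ≤ y) :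
    ∃ τ, 96 * F * E ≤ τ ∧ B5 * τ ≤ y ∧ M * τ ≤ y ∧ y ≤ 2 * (M * B5) * τ ∧ 192 * E ≤ y ∧
      2 * τ ≤ y ∧ Bz * τ ≤ y := by
  have hB51 : 192 * E ≤ B5 := by rw [hB]; exact Nat.le_mul_of_pos_right _ n5
  have hBz5 : Bz ≤ B5 := by rw [hB]; exact Nat.le_mul_of_pos_left _ (by omega)
  have hMB : 1 ≤ M * B5 := Nat.mul_pos hM (by omega)
  obtain ⟨τ, hτ⟩ : ∃ τ, τ = y / (M * B5) := ⟨_, rfl⟩
  have t1 : M * B5 * τ ≤ y := hτ ▸ Nat.mul_div_le y _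
  have t2 : 96 * F * E ≤ τ := by
    rw [hτ, Nat.le_div_iff_mul_le hMB]
    refine le_trans ?_ hy
    calc 96 * F * E * (M * B5) = 96 * B5 * E * F * M := by ring
      _ ≤ P * M := Nat.mul_le_mul_right _ (le_trans (by gcongr; norm_num) n9)
  have hτ1 : 1 ≤ τ := le_trans (Nat.mul_pos (by omega) hE) t2
  have t3 : B5 * τ ≤ y := le_trans (by rw [mul_assoc]; exact Nat.le_mul_of_pos_left _ hM) t1
  exact ⟨τ, t2, t3,
    le_trans (by rw [mul_right_comm]; exact Nat.le_mul_of_pos_right _ (by omega)) t1,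
    hτ ▸ le_two_div hMB (le_trans (Nat.le_mul_of_pos_right _ hτ1) t1),
    hB51.trans ((Nat.le_mul_of_pos_right _ hτ1).trans t3),
    le_trans (Nat.mul_le_mul_right _ (by omega)) t3, le_trans (Nat.mul_le_mul_right _ hBz5) t3⟩

end DcpP

open DcpP in
theorem dcp (clu2 : Clu2Stmt) (blk : BlkStmt) (act : ActStmt) (asm : AsmStmt) (ext2 : Ext2Stmt)
    (aug : AugStmt) (sel : SelStmt) (zloc : ZlocStmt) : DcpStmt := by
  obtain ⟨c₁, c₂, zloc⟩ := zloc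
  obtain ⟨c, hc⟩ := nums c₁ c₂
  refine ⟨c, fun V _ G Λ B θ Kd M y hd hV hΛ hθ hKd hKd1 hθ1 hM hy hyV => ?_⟩
  have hB : 2 ≤ B := by omega
  obtain ⟨A, K, Bz, n1, n2, n3, n4, n5, n6, n7, n8, n9, n10, n11, n12⟩ := hc B Λ Kd hB hΛ hKd
  have hP : 1 ≤ B ^ c := Nat.one_le_pow _ _ (by omega)
  have hB5 : B ≤ B ^ 5 := Nat.le_self_pow (by omega) B
  generalize B ^ c = P at *
  have hy1 : 1 ≤ y := le_trans (Nat.mul_pos hP hM) hy
  have hΛ1 : 1 ≤ Λ := by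
    rcases Nat.eq_zero_or_pos Λ with rfl | h
    · omega
    · exact h
  refine ⟨K, n6, n8, fun δ Amb H hH X hX T hT v hA => ?_⟩
  obtain ⟨E, hE⟩ : ∃ E, E = 120 * K * Kd := ⟨_, rfl⟩
  obtain ⟨F, hF⟩ : ∃ F, F = 672 * A * Λ := ⟨_, rfl⟩
  obtain ⟨B5, hB5'⟩ : ∃ B5, B5 = 192 * E * Bz := ⟨_, rfl⟩
  rw [← hE, ← hF, ← hB5'] at n9
  rw [← hF] at n10
  rw [← hE] at n11
  have hA1 : 1 ≤ A := by omega
  have hE1 : 1 ≤ E := hE ▸ Nat.mul_pos (Nat.mul_pos (by omega) n6) hKd1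
  have hF1 : 1 ≤ F := hF ▸ Nat.mul_pos (Nat.mul_pos (by omega) hA1) hΛ1
  obtain ⟨τ, t2, t3, t4, t5, t6, t7, t8⟩ := numT hE1 hF1 hM n5 hB5' n9 hy
  have hdH := deg_le hd hH
  obtain ⟨X', x1, x2, x3, PP, hC, hv⟩ := clu2 V H X T y A Λ v hdH hT (by omega) (by omega) hA1 hA
  obtain ⟨Sat, Y, ZZ, sd, lam, hD, hS, hZ⟩ := blk V H X' T y A Λ Kd τ K (τ / E) (y / E) (2 * v) PP
    hdH hV hC hΛ1 hKd1 n3 t7 n7 (hE ▸ Nat.mul_div_le τ E) (hE ▸ Nat.mul_div_le y E) hv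
  refine ⟨X', x1, x2, x3, _, Y, lam, hD, fun ι I s e Q hL hTe => ?_⟩
  have hI : I.card < 2 ^ Λ := by
    have := hL.fam.card_le.trans (card_le_univ X')
    omega
  rcases act ι (Finset V) I (Sat ∪ ZZ.image un) (fun k W => ¬ Disjoint (Q k) W) lam δ Λ hI with
    ⟨I', i1, i2, i3⟩ | ⟨J, j1, x, L, j2, j3⟩
  · exact Or.inr ⟨I', i1, i2, fun W hW => by convert i3 W hW⟩
  left
  have hJ : 0 < J.card := Nat.pos_of_ne_zero fun h0 => by simp [h0] at j2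
  have hpd : PD J := hD.pd.mono (j1.trans subset_union_left)
  have hsub : ∀ W ∈ J, W ⊆ X' := fun W hW =>
    hD.un ▸ subset_un (mem_union_left Y (j1 hW))
  have key : ∀ J' ⊆ J, ∀ W ∈ J', W ⊆ X' ∧ L W ⊆ I ∧ 2 * (x / 2) ≤ (L W).card ∧
      ∀ k ∈ L W, ¬ Disjoint (Q k) W ∧ ∀ W' ∈ J', W' ≠ W → Disjoint (Q k) W' := fun J' hJ' W hW =>
    ⟨hsub W (hJ' hW), (j3 W (hJ' hW)).1, by rw [(j3 W (hJ' hW)).2.1]; omega, fun k hk =>
      ⟨((j3 W (hJ' hW)).2.2.2 k hk).1, fun W' hW' hne =>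
        not_not.1 (((j3 W (hJ' hW)).2.2.2 k hk).2 W' (hJ' hW') hne)⟩⟩
  have hsp := card_filter_add_card_filter_not (s := J) (fun W => W ∈ Sat)
  refine Outc.up (H := H) (X := X') ?_ hH (x1.trans hX) subset_rfl subset_rfl
  by_cases hcase : J.card ≤ 2 * (J.filter fun W => W ∈ Sat).card
  · obtain ⟨W₀, hW₀⟩ := card_pos.1 (show 0 < (J.filter fun W => W ∈ Sat).card by omega)
    have s1 : τ / E ≤ 32 * x := (hS W₀ (mem_filter.1 hW₀).2).2 ▸ (j3 W₀ (mem_filter.1 hW₀).1).2.2.1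
    have s2 : 96 * F ≤ τ / E := (Nat.le_div_iff_mul_le hE1).2 t2
    obtain ⟨ρ, -, N, a1, a2, a3⟩ := asm V ι Unit H X' T I s e Q _ L (x / 2) univ
      (fun _ W A' B' => Cel1 H (x / 2 / F) W A' B' ∧ x / 2 ≤ y) hL hTe
      (hpd.mono (filter_subset _ _)) ⟨W₀, hW₀⟩ (by omega) (key _ (filter_subset _ _))
      (fun _ _ => exb_and ((ext2 V H).1 _) _) (fun W hW En hEn Xi hXi _ e1 e2 hb => by
        have hW' := (hS W (mem_filter.1 hW).2).1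
        refine ⟨(), mem_univ _, satl aug sel hdH (Nat.mul_pos (by omega) hΛ1) (hC.part.conn W hW') (hC.wl W hW')
          hEn hXi e1 e2 hb ?_, ?_⟩
        · calc 48 * (14 * A * Λ) * (x / 2 / F) = F * (x / 2 / F) := by rw [hF]; ring
            _ ≤ x / 2 := Nat.mul_div_le _ _
        · exact e1 ▸ (card_le_bo hEn fun v hv => hb v (mem_union_left _ hv)).trans (hC.le W hW'))
    obtain ⟨a4, a5⟩ := many_and a3 a1
    simp only [card_univ, Fintype.card_unit, one_mul] at a2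
    exact ⟨N, Or.inl ⟨_, a4, numS hE1 hF1 s1 t2 t5 a5 n9 n10 (by omega) j2⟩⟩
  · obtain ⟨W₀, hW₀⟩ := card_pos.1 (show 0 < (J.filter fun W => W ∉ Sat).card by omega)
    have hZ' : ∀ W ∈ J.filter fun W => W ∉ Sat, ∃ Z ∈ ZZ, un Z = W := fun W hW =>
      mem_image.1 ((mem_union.1 (j1 (mem_filter.1 hW).1)).resolve_left (mem_filter.1 hW).2)
    obtain ⟨Z₀, z1, z2⟩ := hZ' W₀ hW₀
    have s1 : y / E ≤ 32 * x := (hZ Z₀ z1).2 ▸ z2 ▸ (j3 W₀ (mem_filter.1 hW₀).1).2.2.1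
    obtain ⟨s4, s5, s6⟩ := numZ0 hE1 s1 t6 (hB5' ▸ t3)
    obtain ⟨j, hj, N, a1, a2, a3⟩ := asm V ι ℕ H X' T I s e Q _ L (x / 2) (range (Λ + 1))
      (fun j W A' B' => Blk1 H θ (x / 2 / (Bz * 2 ^ j)) (max 1 (2 ^ j / Bz)) W A' B' ∧ 2 ^ j ≤ τ)
      hL hTe (hpd.mono (filter_subset _ _)) ⟨W₀, hW₀⟩ s6 (key _ (filter_subset _ _))
      (fun _ _ => exb_and ((ext2 V H).2 _ _ _) _) (fun W hW En hEn Xi hXi _ e1 e2 hb => by
        obtain ⟨Z, hZ1, rfl⟩ := hZ' W hW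
        obtain ⟨j, h1, h2, h3⟩ := zloc V H X' T y A Λ PP sd _ τ Z θ (B ^ 5) A Bz (x / 2) En Xi hdH
          hV hC (hZ Z hZ1).1 (by omega) n1 (by omega) (by omega) hθ1 n2 le_rfl n4
          t8 s5 s6 hEn hXi e1 e2 hb
        exact ⟨j, mem_range.2 (by omega), h3, h2⟩)
    obtain ⟨a4, a5⟩ := many_and a3 a1
    rw [card_range] at a2
    exact ⟨N, Or.inr ⟨_, _, a4,
      numZ n5 Nat.one_le_two_pow a5 s4 s5 t4 n11 n12 (by omega) j2⟩⟩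

end Pool.Agent.MP_35cb46_co.Ce
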