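import Pool.Agent.MP_35cb46_co.fl.CSpec

/-! PROJECT FL, row DROP: lanes are dropped until few edges leave the blocks. -/

noncomputable section

namespace Pool.Agent.MP_35cb46_co.Ce

open Finset Pool.Agent.MP_7be75d_co Pool.Agent.MP_35cb46_co.Sq Pool.Agent.MP_35cb46_co.Nl
open scoped Classical

namespace CDrop

variable {V : Type}

/-- A subgraph that keeps the inner edges of the blocks, with a linkage. -/
structure Sta (G : SimpleGraph V) (X A B : Finset V) (D : Finset (Finset V)) (H : SimpleGraph V)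
    (A₁ B₁ : Finset V) : Prop where
  le : H ≤ G
  inn : ∀ W ∈ D, ∀ u ∈ W, ∀ v ∈ W, G.Adj u v → H.Adj u v
  sa : A₁ ⊆ A
  sb : B₁ ⊆ B
  card : A₁.card = B₁.card
  lnk : Lnk H X A₁ B₁

/-- The edges inside a block or inside a lane. -/
def keep (H : SimpleGraph V) (D : Finset (Finset V)) (I : Finset V) (Q : V → Finset V) :
    SimpleGraph V :=
  H ⊓ SimpleGraph.fromRel fun u v => (∃ W ∈ D, u ∈ W ∧ v ∈ W) ∨ ∃ a ∈ I, u ∈ Q a ∧ v ∈ Q a

theorem keep_adj {H : SimpleGraph V} {D : Finset (Finset V)} {I : Finset V} {Q : V → Finset V}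
    {u v : V} : (keep H D I Q).Adj u v ↔
      H.Adj u v ∧ ((∃ W ∈ D, u ∈ W ∧ v ∈ W) ∨ ∃ a ∈ I, u ∈ Q a ∧ v ∈ Q a) := by
  unfold keep
  rw [SimpleGraph.inf_adj, SimpleGraph.fromRel_adj]
  constructor
  · rintro ⟨h, -, h1 | h1⟩
    · exact ⟨h, h1⟩
    · exact ⟨h, h1.imp (fun ⟨W, a, b, c⟩ => ⟨W, a, c, b⟩) fun ⟨W, a, b, c⟩ => ⟨W, a, c, b⟩⟩
  · exact fun ⟨h, h1⟩ => ⟨h, h.ne, Or.inl h1⟩

/-- A subgraph with fewest edges. -/
theorem minimal [Fintype V] {G H : SimpleGraph V} {X A B A₁ B₁ : Finset V}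
    {D : Finset (Finset V)} (hD : PD D) (h : Sta G X A B D H A₁ B₁) :
    ∃ H₁ ≤ H, Sta G X A B D H₁ A₁ B₁ ∧ ∀ W ∈ D, ∀ u ∈ W, ∀ v ∈ X, v ∉ W → H₁.Adj u v →
      ¬ Lnk (H₁.deleteEdges {s(u, v)}) X A₁ B₁ := by
  obtain ⟨H₁, ⟨h1, h2⟩, h3⟩ := exists_min_of
    (p := fun H' : SimpleGraph V => H' ≤ H ∧ Sta G X A B D H' A₁ B₁)
    (fun H' => H'.edgeSet.ncard) ⟨H, le_rfl, h⟩
  refine ⟨H₁, h1, h2, fun W hW u hu v _ hv huv hl => ?_⟩
  have h4 := h3 (H₁.deleteEdges {s(u, v)}) ⟨(H₁.deleteEdges_le _).trans h1,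
    (H₁.deleteEdges_le _).trans h2.le, fun W' hW' a ha b hb hab => ?_, h2.sa, h2.sb, h2.card, hl⟩
  · refine absurd h4 (not_le.2 (Set.ncard_lt_ncard ?_ (Set.toFinite _)))
    rw [SimpleGraph.edgeSet_deleteEdges]
    exact Set.sdiff_singleton_ssubset.2 huv
  · rw [SimpleGraph.deleteEdges_adj]
    refine ⟨h2.inn W' hW' a ha b hb hab, fun he => hv ?_⟩
    rcases Sym2.eq_iff.1 (Set.mem_singleton_iff.1 he) with ⟨rfl, rfl⟩ | ⟨rfl, rfl⟩
    · exact hD.eq hW' hW ha hu ▸ hb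
    · exact hD.eq hW' hW hb hu ▸ ha

/-- Every dropped lane lowers the boundary. -/
theorem lower {H : SimpleGraph V} {X A B W I : Finset V} {D : Finset (Finset V)} {e : V → V}
    {Q : V → Finset V} (hD : PD D) (hW : W ∈ D) (hL : Lns H X A id e Q) (he : ∀ a ∈ A, e a ∈ B)
    (hI : I ⊆ A) :
    bo (keep H D I Q) X (I ∪ I.image e) W + (A.filter fun a => ¬ Disjoint (Q a) W).card ≤
      bo H X (A ∪ B) W + (I.filter fun a => ¬ Disjoint (Q a) W).card := by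
  have hk : keep H D I Q ≤ H := inf_le_left
  have hT : I ∪ I.image e ⊆ A ∪ B :=
    union_subset_union hI (image_subset_iff.2 fun a ha => he a (hI ha))
  set P := W.filter fun u => bw (keep H D I Q) X (I ∪ I.image e) W u < bw H X (A ∪ B) W u with hP
  have h1 : bo (keep H D I Q) X (I ∪ I.image e) W + P.card ≤ bo H X (A ∪ B) W := by
    have e1 : P.card = ts (ind P) W := by
      rw [ts_ind, inter_eq_right.2 (filter_subset _ _)]
    rw [e1, ← ts_bw, ← ts_bw, ← ts_add]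
    refine ts_le fun v hv => ?_
    by_cases hv' : v ∈ P
    · rw [ind_of_mem hv']
      exact (mem_filter.1 hv').2
    · rw [ind_of_notMem hv']
      exact bw_mono hk subset_rfl hT subset_rfl v
  have h2 : ∀ a ∈ (A.filter fun a => ¬ Disjoint (Q a) W) \ I, ∃ u, u ∈ P ∧ u ∈ Q a := by
    intro a ha
    obtain ⟨ha, haI⟩ := mem_sdiff.1 ha
    obtain ⟨ha, hd⟩ := mem_filter.1 ha
    have hq : ∀ u ∈ Q a, ∀ a' ∈ I, u ∉ Q a' := fun u hu a' ha' hu' =>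
      haI (hL.fam.eq ha (hI ha') hu hu' ▸ ha')
    by_cases haW : a ∈ W
    · refine ⟨a, mem_filter.2 ⟨haW, ?_⟩, hL.st a ha⟩
      have h3 : a ∉ I ∪ I.image e := by
        intro h
        rcases mem_union.1 h with h | h
        · exact haI h
        · obtain ⟨a', ha', h⟩ := mem_image.1 h
          exact hq a (hL.st a ha) a' ha' (h ▸ hL.en a' (hI ha'))
      have h4 := bw_mono (X := X) (T := ∅) (C := W) hk subset_rfl subset_rfl subset_rfl a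
      unfold bw at h4 ⊢
      rw [ind_of_notMem h3, ind_of_mem (mem_union_left _ ha)]
      omega
    · obtain ⟨w, hw, hw'⟩ := not_disjoint_iff.1 hd
      obtain ⟨x, y, hx, hy, hxQ, hyQ, hxy⟩ := (hL.fam.conn a ha).exit hw hw' (hL.st a ha) haW
      refine ⟨x, mem_filter.2 ⟨hx, ?_⟩, hxQ⟩
      have h3 : ¬ (keep H D I Q).Adj x y := by
        rw [keep_adj]
        rintro ⟨-, ⟨W', hW', h, h'⟩ | ⟨a', ha', h, -⟩⟩
        · exact hy (hD.eq hW' hW h hx ▸ h')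
        · exact hq x hxQ a' ha' h
      unfold bw
      rw [cw_aw_single, cw_aw_single]
      refine Nat.add_lt_add_of_lt_of_le (card_lt_card ⟨monotone_filter_right _ fun _ _ h => hk h,
        fun h => h3 (mem_filter.1 (h (mem_filter.2
          ⟨mem_sdiff.2 ⟨hL.fam.sub a ha hyQ, hy⟩, hxy⟩))).2⟩) (ind_mono fun h => hT h)
  choose! f hf using h2
  have h3 : ((A.filter fun a => ¬ Disjoint (Q a) W) \ I).card ≤ P.card :=
    card_le_card_of_injOn f (fun a ha => (hf a ha).1) fun a ha b hb hab =>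
      hL.fam.eq (mem_filter.1 (mem_sdiff.1 ha).1).1 (mem_filter.1 (mem_sdiff.1 hb).1).1
        (hf a ha).2 (hab ▸ (hf b hb).2)
  have h4 : (A.filter fun a => ¬ Disjoint (Q a) W).card ≤
      ((A.filter fun a => ¬ Disjoint (Q a) W) \ I).card +
        (I.filter fun a => ¬ Disjoint (Q a) W).card :=
    (card_le_card fun a ha => by
      by_cases h : a ∈ I
      · exact mem_union_right _ (mem_filter.2 ⟨h, (mem_filter.1 ha).2⟩)
      · exact mem_union_left _ (mem_sdiff.2 ⟨ha, h⟩)).trans (card_union_le _ _)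
  omega

theorem arith {j K b b₁ b₂ x x₁ l : ℕ} (hj : j + 1 = 60 * K) (h1 : b₁ ≤ 30 * K * x) (h2 : b₁ ≤ b)
    (h3 : b₂ + x ≤ b₁ + x₁) (h4 : x₁ ≤ l) (h5 : b₂ ≤ b₁) :
    b₂ ≤ 60 * K * l ∨ (j + 1) * b₂ ≤ j * b := by
  rcases le_or_gt x (2 * l) with h | h
  · left
    have := Nat.mul_le_mul_left (30 * K) h
    nlinarith
  · right
    obtain ⟨d, rfl⟩ : ∃ d, b₁ = b₂ + d := ⟨b₁ - b₂, by omega⟩
    have h6 : x ≤ 2 * d := by omega
    have h7 := Nat.mul_le_mul_left (30 * K) h6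
    have h8 : b₂ + d ≤ (j + 1) * d := by rw [hj]; nlinarith
    have h9 := Nat.mul_le_mul_left j h2
    nlinarith

/-- One step. -/
theorem step (use : UseStmt) [Fintype V] {G H : SimpleGraph V} {X T A B A₁ B₁ : Finset V}
    {D : Finset (Finset V)} {lam : Finset V → ℕ} {K δ j : ℕ} {Φ : Finset V → Finset V → Prop}
    (hd : Deg G univ 6) (hK : 1 ≤ K) (hj : j + 1 = 60 * K) (hD : PD D)
    (hW : ∀ W ∈ D, W ⊆ X ∧ WL (aw G) W (bw G X T W) K) (hA : A ⊆ T) (hB : B ⊆ T)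
    (hn : Hnd G X T D lam δ Φ) (h : Sta G X A B D H A₁ B₁) :
    (∃ A' ⊆ A, ∃ B' ⊆ B, Φ A' B') ∨ ∃ H₂ A₂ B₂, Sta G X A B D H₂ A₂ B₂ ∧
      A₁.card ≤ A₂.card + δ ∧ ∀ W ∈ D, bo H₂ X (A₂ ∪ B₂) W ≤ bo H X (A₁ ∪ B₁) W ∧
        (bo H₂ X (A₂ ∪ B₂) W ≤ 60 * K * lam W ∨
          (j + 1) * bo H₂ X (A₂ ∪ B₂) W ≤ j * bo H X (A₁ ∪ B₁) W) := by
  obtain ⟨H₁, h1, h2, h3⟩ := minimal hD h
  obtain ⟨e, Q, hL, he⟩ := h2.lnk
  rcases hn V A₁ id e Q (hL.mono h2.le subset_rfl subset_rfl)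
    (fun k hk => ⟨hA (h.sa hk), hB (h.sb (he k hk))⟩) with h4 | ⟨I, hI, h4, h5⟩
  · exact Or.inl ⟨_, image_subset_iff.2 fun a ha => h.sa ha, _,
      image_subset_iff.2 fun a ha => h.sb (he a ha), h4⟩
  have hk : keep H₁ D I Q ≤ H₁ := inf_le_left
  have hIB : I.image e ⊆ B₁ := image_subset_iff.2 fun a ha => he a (hI ha)
  refine Or.inr ⟨keep H₁ D I Q, I, I.image e, ⟨hk.trans h2.le, fun W hW' u hu v hv huv =>
    keep_adj.2 ⟨h2.inn W hW' u hu v hv huv, Or.inl ⟨W, hW', hu, hv⟩⟩, hI.trans h.sa,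
    hIB.trans h.sb, (card_image_of_injOn (hL.inj_e.mono (coe_subset.2 hI))).symm,
    e, Q, ⟨⟨fun a ha => hL.fam.sub a (hI ha), fun a ha => (hL.fam.conn a (hI ha)).mono'
      fun x y hxy hx hy => keep_adj.2 ⟨hxy, Or.inr ⟨a, ha, hx, hy⟩⟩,
      fun a ha b hb => hL.fam.disj a (hI ha) b (hI hb)⟩, fun a ha => hL.st a (hI ha),
      fun a ha => hL.en a (hI ha)⟩, fun a ha => mem_image_of_mem e ha⟩, h4, fun W hW' => ?_⟩
  have b1 := use V G H₁ X T A₁ B₁ W K e Q hd h2.le (hW W hW').1 h.card (hW W hW').2 hK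
    (h2.inn W hW') hL he (h3 W hW')
  have b2 : bo H₁ X (A₁ ∪ B₁) W ≤ bo H X (A₁ ∪ B₁) W := bo_mono h1 subset_rfl subset_rfl W
  have b3 := lower hD hW' hL he hI
  have b4 : bo (keep H₁ D I Q) X (I ∪ I.image e) W ≤ bo H₁ X (A₁ ∪ B₁) W :=
    bo_mono hk subset_rfl (union_subset_union hI hIB) W
  exact ⟨b4.trans b2, arith hj b1 b2 b3 (h5 W hW') b4⟩

theorem vanish {j n u u₀ : ℕ} (hj : 1 ≤ j) (h : (j + 1) ^ ((j + 1) * n) * u ≤ j ^ ((j + 1) * n) * u₀)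
    (h0 : u₀ < 2 ^ n) : u = 0 := by
  have h1 : 2 * j ^ (j + 1) ≤ (j + 1) ^ (j + 1) := by
    have h2 := pow_add_mul_le_add_pow (a := j) (b := 1) (Nat.zero_le _) (Nat.zero_le _) (j + 1)
    rw [Nat.add_sub_cancel, mul_one, Nat.cast_id, add_mul, one_mul, ← pow_succ'] at h2
    omega
  have h2 := Nat.pow_le_pow_left h1 n
  rw [mul_pow, ← pow_mul, ← pow_mul] at h2
  have h3 : j ^ ((j + 1) * n) * (2 ^ n * u) ≤ j ^ ((j + 1) * n) * u₀ := by
    refine le_trans ?_ h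
    rw [← mul_assoc, mul_comm _ (2 ^ n)]
    exact Nat.mul_le_mul_right u h2
  have h4 := Nat.le_of_mul_le_mul_left h3 (pow_pos hj _)
  by_contra hu
  have := Nat.le_mul_of_pos_right (2 ^ n) (Nat.pos_of_ne_zero hu)
  omega

end CDrop

open CDrop in
theorem drop (use : UseStmt) : DropStmt := by
  intro V _ G X T A B D lam K δ Λ Φ hd hV hK hD hW hA hB hc hl hn
  obtain ⟨j, hj⟩ : ∃ j, j + 1 = 60 * K := ⟨60 * K - 1, by omega⟩
  have key : ∀ n : ℕ, (∃ A' ⊆ A, ∃ B' ⊆ B, Φ A' B') ∨ ∃ H A₁ B₁, Sta G X A B D H A₁ B₁ ∧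
      A.card ≤ A₁.card + n * δ ∧ ∀ W ∈ D, bo H X (A₁ ∪ B₁) W ≤ 60 * K * lam W ∨
        (j + 1) ^ n * bo H X (A₁ ∪ B₁) W ≤ j ^ n * bo G X (A ∪ B) W := by
    intro n
    induction n with
    | zero =>
      exact Or.inr ⟨G, A, B, ⟨le_rfl, fun _ _ _ _ _ _ h => h, subset_rfl, subset_rfl, hc, hl⟩,
        by omega, fun W _ => Or.inr (by simp)⟩
    | succ n ih =>
      rcases ih with h | ⟨H, A₁, B₁, h1, h2, h3⟩
      · exact Or.inl h
      rcases step use hd hK hj hD hW hA hB hn h1 with h | ⟨H₂, A₂, B₂, h4, h5, h6⟩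
      · exact Or.inl h
      refine Or.inr ⟨H₂, A₂, B₂, h4, by rw [Nat.succ_mul]; omega, fun W hW' => ?_⟩
      rcases h3 W hW' with h7 | h7
      · exact Or.inl ((h6 W hW').1.trans h7)
      refine (h6 W hW').2.imp_right fun h8 => ?_
      calc (j + 1) ^ (n + 1) * bo H₂ X (A₂ ∪ B₂) W
          = (j + 1) ^ n * ((j + 1) * bo H₂ X (A₂ ∪ B₂) W) := by ring
        _ ≤ (j + 1) ^ n * (j * bo H X (A₁ ∪ B₁) W) := Nat.mul_le_mul_left _ h8
        _ = j * ((j + 1) ^ n * bo H X (A₁ ∪ B₁) W) := by ring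
        _ ≤ j * (j ^ n * bo G X (A ∪ B) W) := Nat.mul_le_mul_left _ h7
        _ = j ^ (n + 1) * bo G X (A ∪ B) W := by ring
  rcases key ((j + 1) * (Λ + 1)) with h | ⟨H, A₁, B₁, h1, h2, h3⟩
  · exact Or.inl h
  refine Or.inr ⟨H, h1.le, A₁, h1.sa, B₁, h1.sb, h1.card, hj ▸ h2, h1.lnk, fun W hW' => ?_⟩
  rcases h3 W hW' with h | h
  · exact h
  have h4 := bo_le hd X (A ∪ B) W
  have h5 := card_le_univ W
  rw [vanish (by omega) h (by rw [pow_succ]; omega)]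
  exact Nat.zero_le _

end Pool.Agent.MP_35cb46_co.Ce
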