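import Pool.Agent.MP_35cb46_co.fl.CSpec

/-! PROJECT FL, the cell lemma: row EXT, extension of ports along strands. -/

noncomputable section

namespace Pool.Agent.MP_35cb46_co.Ce

open Finset Pool.Agent.MP_7be75d_co Pool.Agent.MP_35cb46_co.Sq Pool.Agent.MP_35cb46_co.Nl
open scoped Classical

namespace CExt

variable {V : Type} {G : SimpleGraph V} {X T C C' S S' E : Finset V} {f : V → V}
  {Q : V → Finset V}

theorem conn_ext (h : Str G X T f Q) (hX : Conn G X) : Conn G (X ∪ T.biUnion Q) := by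
  obtain ⟨a, ha⟩ := hX.1
  refine Conn.of_center (mem_union_left _ ha) fun b hb => ?_
  rcases mem_union.1 hb with hb | hb
  · exact hX.r ha hb subset_union_left
  · obtain ⟨v, hv, hb⟩ := mem_biUnion.1 hb
    exact (hX.r ha (h.mem hv).2 subset_union_left).trans ((h.conn v hv).1.r (h.mem hv).1 hb
      ((subset_biUnion_of_mem Q hv).trans subset_union_right))

theorem conn_sub (h : Str G X T f Q) (hC : C ⊆ X) (hS : S ⊆ C) (hT : S ⊆ T) (hc : Conn G C) :
    Conn G (C ∪ S.biUnion Q) := conn_ext (h.mono hT hS hC) hc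

theorem sub_ext (hC : C ⊆ X) (hT : S ⊆ T) : C ∪ S.biUnion Q ⊆ X ∪ T.biUnion Q :=
  union_subset_union hC (biUnion_subset_biUnion_of_subset_left Q hT)

theorem disj_ext (h : Str G X T f Q) (hC : C ⊆ X) (hC' : C' ⊆ X) (hS : S ⊆ C) (hS' : S' ⊆ C')
    (hT : S ⊆ T) (hT' : S' ⊆ T) (hd : Disjoint C C') :
    Disjoint (C ∪ S.biUnion Q) (C' ∪ S'.biUnion Q) := by
  refine disjoint_left.2 fun x h1 h2 => ?_
  rcases mem_union.1 h1 with h1 | h1 <;> rcases mem_union.1 h2 with h2 | h2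
  · exact disjoint_left.1 hd h1 h2
  · obtain ⟨v, hv, h2⟩ := mem_biUnion.1 h2
    obtain rfl := h.eq (hT' hv) h2 (hC h1)
    exact disjoint_left.1 hd h1 (hS' hv)
  · obtain ⟨v, hv, h1⟩ := mem_biUnion.1 h1
    obtain rfl := h.eq (hT hv) h1 (hC' h2)
    exact disjoint_left.1 hd (hS hv) h2
  · obtain ⟨v, hv, h1⟩ := mem_biUnion.1 h1
    obtain ⟨v', hv', h2⟩ := mem_biUnion.1 h2
    by_cases e : v = v'
    · subst e
      exact disjoint_left.1 hd (hS hv) (hS' hv')
    · exact disjoint_left.1 (h.disj v (hT hv) v' (hT' hv') e) h1 h2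

theorem disj_img (h : Str G X T f Q) (hT : S ⊆ T) (hE : E ⊆ X) (hd : Disjoint S E) :
    Disjoint (S.image f) E := by
  refine disjoint_left.2 fun x h1 h2 => ?_
  obtain ⟨v, hv, rfl⟩ := mem_image.1 h1
  have e : f v = v := h.eq (hT hv) (h.conn v (hT hv)).2.2 (hE h2)
  exact disjoint_left.1 hd hv (e ▸ h2)

theorem card_img (h : Str G X T f Q) (hT : S ⊆ T) : (S.image f).card = S.card :=
  card_image_of_injOn (h.inj.mono (coe_subset.2 hT))

theorem img_sub (h : Str G X T f Q) (hT : S ⊆ T) : S.image f ⊆ C ∪ S.biUnion Q := by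
  intro x hx
  obtain ⟨v, hv, rfl⟩ := mem_image.1 hx
  exact mem_union_right _ (mem_biUnion.2 ⟨v, hv, (h.conn v (hT hv)).2.2⟩)

theorem img_filter {A : Finset V} (hA : A ⊆ T.image f) :
    (T.filter fun v => f v ∈ A).image f = A := by
  ext x
  constructor
  · intro hx
    obtain ⟨v, hv, rfl⟩ := mem_image.1 hx
    exact (mem_filter.1 hv).2
  · intro hx
    obtain ⟨v, hv, rfl⟩ := mem_image.1 (hA hx)
    exact mem_image.2 ⟨v, mem_filter.2 ⟨hv, hx⟩, rfl⟩

theorem lkd_all {d : ℕ} (h : Str G X T f Q) (hL : Lkd G X T d) :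
    Lkd G (X ∪ T.biUnion Q) (T.image f) d := by
  refine ⟨img_sub h subset_rfl, fun A hA B hB h1 h2 => ?_⟩
  have cA : (T.filter fun v => f v ∈ A).card = A.card := by
    rw [← card_img h (filter_subset _ _), img_filter hA]
  have cB : (T.filter fun v => f v ∈ B).card = B.card := by
    rw [← card_img h (filter_subset _ _), img_filter hB]
  obtain ⟨e, P, hP, he⟩ := hL.2 _ (filter_subset (fun v => f v ∈ A) T) _
    (filter_subset (fun v => f v ∈ B) T) (by rw [cA, cB]; exact h1) (by rw [cA]; exact h2)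
  have hr : ∀ a : V, ∃ v, a ∈ A → v ∈ (T.filter fun v => f v ∈ A) ∧ f v = a := by
    intro a
    by_cases ha : a ∈ A
    · obtain ⟨v, hv, rfl⟩ := mem_image.1 (hA ha)
      exact ⟨v, fun _ => ⟨mem_filter.2 ⟨hv, ha⟩, rfl⟩⟩
    · exact ⟨a, fun k => absurd k ha⟩
  choose r hr using hr
  have s1 : ∀ a ∈ A, ({r a, e (r a)} : Finset V) ⊆ P (r a) := fun a ha =>
    insert_subset (hP.st _ (hr a ha).1) (singleton_subset_iff.2 (hP.en _ (hr a ha).1))
  have s2 : ∀ a ∈ A, ({r a, e (r a)} : Finset V) ⊆ T := fun a ha =>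
    insert_subset (mem_filter.1 (hr a ha).1).1
      (singleton_subset_iff.2 (mem_filter.1 (he _ (hr a ha).1)).1)
  refine ⟨fun a => f (e (r a)), fun a => P (r a) ∪ ({r a, e (r a)} : Finset V).biUnion Q,
    ⟨⟨fun a ha => sub_ext (hP.fam.sub _ (hr a ha).1) (s2 a ha), fun a ha =>
      conn_sub h (hP.fam.sub _ (hr a ha).1) (s1 a ha) (s2 a ha) (hP.fam.conn _ (hr a ha).1),
      fun a ha b hb hab => disj_ext h (hP.fam.sub _ (hr a ha).1) (hP.fam.sub _ (hr b hb).1)
        (s1 a ha) (s1 b hb) (s2 a ha) (s2 b hb) (hP.fam.disj _ (hr a ha).1 _ (hr b hb).1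
          fun k => hab (by rw [← (hr a ha).2, ← (hr b hb).2, k]))⟩, fun a ha => ?_,
      fun a ha => ?_⟩, fun a ha => (mem_filter.1 (he _ (hr a ha).1)).2⟩
  · refine img_sub h (s2 a ha) (mem_image.2 ⟨r a, mem_insert_self _ _, (hr a ha).2⟩)
  · exact img_sub h (s2 a ha)
      (mem_image.2 ⟨e (r a), mem_insert_of_mem (mem_singleton_self _), rfl⟩)

theorem str_add {T₁ T₂ : Finset V} (h : Str G X T₁ f Q) (h2 : T₂ ⊆ X) :
    Str G X (T₁ ∪ T₂) (fun v => if v ∈ T₁ then f v else v)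
      (fun v => if v ∈ T₁ then Q v else {v}) := by
  have hx : ∀ v ∈ T₁ ∪ T₂, v ∉ T₁ → v ∈ X := fun v hv k =>
    h2 ((mem_union.1 hv).resolve_left k)
  refine ⟨fun v hv => ?_, fun v hv v' hv' hne => ?_⟩
  · by_cases k : v ∈ T₁
    · simp only [if_pos k]
      exact h.conn v k
    · simp only [if_neg k]
      exact ⟨Conn.singleton v, singleton_inter_of_mem (hx v hv k), mem_singleton_self v⟩
  · by_cases k : v ∈ T₁ <;> by_cases k' : v' ∈ T₁
    · simp only [if_pos k, if_pos k']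
      exact h.disj v k v' k' hne
    · simp only [if_pos k, if_neg k']
      exact disjoint_singleton_right.2 fun m => hne (h.eq k m (hx v' hv' k')).symm
    · simp only [if_neg k, if_pos k']
      exact disjoint_singleton_left.2 fun m => hne (h.eq k' m (hx v hv k))
    · simp only [if_neg k, if_neg k']
      exact disjoint_singleton.2 hne

theorem lkd_ext {T₁ T₂ : Finset V} {d : ℕ} (h : Str G X T₁ f Q) (hd : Disjoint T₁ T₂)
    (hL : Lkd G X (T₁ ∪ T₂) d) : Lkd G (X ∪ T₁.biUnion Q) (T₁.image f ∪ T₂) d := by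
  have h2 : T₂ ⊆ X := subset_union_right.trans hL.1
  refine (lkd_all (str_add h h2) hL).mono le_rfl ?_ ?_ le_rfl
  · refine union_subset subset_union_left (biUnion_subset.2 fun v hv => ?_)
    by_cases k : v ∈ T₁
    · simp only [if_pos k]
      exact (subset_biUnion_of_mem Q k).trans subset_union_right
    · simp only [if_neg k]
      exact singleton_subset_iff.2 (mem_union_left _ (h2 ((mem_union.1 hv).resolve_left k)))
  · intro x hx
    rcases mem_union.1 hx with hx | hx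
    · obtain ⟨v, hv, rfl⟩ := mem_image.1 hx
      exact mem_image.2 ⟨v, mem_union_left _ hv, if_pos hv⟩
    · exact mem_image.2 ⟨x, mem_union_right _ hx, if_neg fun k => disjoint_left.1 hd k hx⟩

theorem exb_cel (G : SimpleGraph V) (D : ℕ) : Exb G (Cel1 G D) := by
  rintro W A B A' B' T f Q ⟨h0, I, h1, O, h2, h3, h4, h5, h6⟩ hS hA hB
  have iW : I ⊆ W := subset_union_left.trans h6.sub
  have oW : O ⊆ W := subset_union_right.trans h6.sub
  have iT : I ⊆ T := fun v hv => (hA v (h1 hv) (iW hv)).1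
  have oT : O ⊆ T := fun v hv => (hB v (h2 hv) (oW hv)).1
  refine ⟨conn_ext hS h0, I.image f, image_subset_iff.2 fun v hv => (hA v (h1 hv) (iW hv)).2,
    O.image f, image_subset_iff.2 fun v hv => (hB v (h2 hv) (oW hv)).2,
    (card_img hS iT).trans h3, (card_img hS oT).trans h4, ?_, fun d => ?_⟩
  · refine disjoint_left.2 fun x k1 k2 => ?_
    obtain ⟨v, hv, rfl⟩ := mem_image.1 k1
    obtain ⟨v', hv', e⟩ := mem_image.1 k2
    obtain rfl : v' = v := hS.inj (oT hv') (iT hv) e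
    exact disjoint_left.1 h5 hv hv'
  · refine (lkd_all (hS.mono (union_subset iT oT) h6.sub subset_rfl) (h6 d)).mono le_rfl
      (sub_ext subset_rfl (union_subset iT oT)) ?_ le_rfl
    rw [image_union]

theorem exb_blk (G : SimpleGraph V) (θ m d : ℕ) : Exb G (Blk1 G θ m d) := by
  rintro W A B A' B' T f Q ⟨u, I, Ex, Y, O, wr, h⟩ hS hA hB
  have iu : ∀ a ∈ range (θ * m), I a ⊆ u a := fun a ha => subset_union_left.trans (h.lku a ha).1
  have iT : ∀ a ∈ range (θ * m), I a ⊆ T := fun a ha v hv =>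
    (hA v ((h.pin a ha).1 hv) (h.bw.fu.sub a ha (iu a ha hv))).1
  have yW : ∀ i < θ, Y i ⊆ W := fun i hi => h.bw.fy.sub i (mem_range.2 hi)
  have oy : ∀ i < θ, O i ⊆ Y i := fun i hi => subset_union_left.trans (h.bw.lky i hi).sub
  have oT : ∀ i < θ, O i ⊆ T := fun i hi v hv =>
    (hB v ((h.bw.pout i hi).1 hv) (yW i hi (oy i hi hv))).1
  have cu : ∀ a ∈ range (θ * m), Conn G (u a ∪ (I a).biUnion Q) := fun a ha =>
    conn_sub hS (h.bw.fu.sub a ha) (iu a ha) (iT a ha) (h.bw.fu.conn a ha)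
  refine ⟨fun a => u a ∪ (I a).biUnion Q, fun a => (I a).image f, Ex,
    fun i => Y i ∪ (O i).biUnion Q, fun i => (O i).image f, wr,
    ⟨⟨fun a ha => sub_ext (h.bw.fu.sub a ha) (iT a ha), cu, fun a ha b hb hab =>
        disj_ext hS (h.bw.fu.sub a ha) (h.bw.fu.sub b hb) (iu a ha) (iu b hb) (iT a ha) (iT b hb)
          (h.bw.fu.disj a ha b hb hab)⟩,
      ⟨fun i hi => sub_ext (h.bw.fy.sub i hi) (oT i (mem_range.1 hi)), fun i hi =>
        conn_sub hS (h.bw.fy.sub i hi) (oy i (mem_range.1 hi)) (oT i (mem_range.1 hi))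
          (h.bw.fy.conn i hi), fun i hi j hj hij =>
        disj_ext hS (h.bw.fy.sub i hi) (h.bw.fy.sub j hj) (oy i (mem_range.1 hi))
          (oy j (mem_range.1 hj)) (oT i (mem_range.1 hi)) (oT j (mem_range.1 hj))
          (h.bw.fy.disj i hi j hj hij)⟩,
      fun a ha i hi => disj_ext hS (h.bw.fu.sub a ha) (yW i hi) (iu a ha) (oy i hi) (iT a ha)
        (oT i hi) (h.bw.uy a ha i hi),
      fun a ha i hi => ⟨(h.bw.ex a ha i hi).1.trans subset_union_left, (h.bw.ex a ha i hi).2.1,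
        fun x hx => ⟨mem_union_left _ ((h.bw.ex a ha i hi).2.2 x hx).1,
          ((h.bw.ex a ha i hi).2.2 x hx).2⟩⟩,
      h.bw.inj,
      fun i hi => ⟨image_subset_iff.2 fun v hv =>
        (hB v ((h.bw.pout i hi).1 hv) (yW i hi (oy i hi hv))).2,
        (card_img hS (oT i hi)).trans (h.bw.pout i hi).2⟩,
      fun i hi k => lkd_ext (hS.mono (oT i hi) (oy i hi) (yW i hi)) (h.bw.ody i hi)
        (h.bw.lky i hi k),
      fun i hi => disj_img hS (oT i hi)
        ((subset_union_right.trans (h.bw.lky i hi).sub).trans (yW i hi)) (h.bw.ody i hi)⟩,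
    fun a ha => ⟨image_subset_iff.2 fun v hv =>
      (hA v ((h.pin a ha).1 hv) (h.bw.fu.sub a ha (iu a ha hv))).2,
      (card_img hS (iT a ha)).trans (h.pin a ha).2⟩, fun a ha => ?_, fun a ha hd i hi =>
    ⟨disj_img hS (iT a ha) ((h.bw.ex a ha i hi).1.trans (h.bw.fu.sub a ha))
      (h.dis a ha hd i hi).1, (h.dis a ha hd i hi).2⟩⟩
  by_cases hd : 1 < d
  · exact lkd_ext (hS.mono (iT a ha) (iu a ha) (h.bw.fu.sub a ha))
      ((disjoint_biUnion_right _ _ _).2 fun i hi => (h.dis a ha hd i (mem_range.1 hi)).1)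
      (h.lku a ha)
  · exact lkd_one (cu a ha) (union_subset (img_sub hS (iT a ha))
      ((subset_union_right.trans (h.lku a ha).1).trans subset_union_left)) (by omega)

end CExt

theorem ext1 : Ext1Stmt := fun _ _ _ _ _ _ _ _ h =>
  ⟨CExt.conn_ext h, fun hd hL => CExt.lkd_ext h hd hL⟩

theorem ext2 (_h : Ext1Stmt) : Ext2Stmt := fun _ G =>
  ⟨CExt.exb_cel G, CExt.exb_blk G⟩

end Pool.Agent.MP_35cb46_co.Ce
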