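import Pool.Agent.MP_35cb46_co.fl.CSpec

/-! PROJECT FL, row FB: cells and blocks are flexible blocks. -/

noncomputable section

namespace Pool.Agent.MP_35cb46_co.Ce

open Finset Pool.Agent.MP_7be75d_co Pool.Agent.MP_35cb46_co.Sq Pool.Agent.MP_35cb46_co.Nl
open scoped Classical

namespace CFb

variable {V : Type} {G : SimpleGraph V} {W A B : Finset V}

theorem one {D e : ℕ} (he : e ≤ D) (h : Cel1 G D W A B) : Fb G 1 1 e W A B := by
  obtain ⟨-, I, hI, O, hO, cI, cO, -, hl⟩ := h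
  obtain ⟨I1, h1, c1⟩ := exists_subset_card_eq (s := I) (n := e) (by omega)
  obtain ⟨O1, h2, c2⟩ := exists_subset_card_eq (s := O) (n := e) (by omega)
  refine ⟨fun _ => I1, fun _ => O1, fun _ _ => ⟨h1.trans hI, c1⟩, fun a ha a' ha' hne => by omega,
    fun _ _ => ⟨h2.trans hO, c2.trans (one_mul e).symm⟩, fun as _ => ⟨fun _ => W, fun _ _ => subset_rfl,
      fun c hc c' hc' hne => ?_, fun c _ => ?_⟩⟩
  · rw [mem_range] at hc hc'
    omega
  have h3 : (((range (1 * 1)).filter fun a => as a = c).biUnion fun _ => I1) ⊆ I ∪ O :=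
    biUnion_subset.2 fun _ _ => h1.trans subset_union_left
  have h4 : O1 ⊆ I ∪ O := h2.trans subset_union_right
  refine ⟨h3.trans hl.sub, h4.trans hl.sub, fun I2 hI2 O2 hO2 hc => ?_⟩
  obtain ⟨g, Q, hq, hg⟩ := hl.lnk (hI2.trans h3) (hO2.trans h4) hc.le
  exact ⟨g, hg, Q, hq.fam, hq.st, hq.en⟩

/-- The entries of the nodes in `N` are linked to the exits of the cell `i`. -/
theorem cel {θ D d : ℕ} {Nd N : Finset ℕ} {u I I1 : ℕ → Finset V} {Ex : ℕ → ℕ → Finset V}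
    {Y O : ℕ → Finset V} {wr : ℕ → V → V} (h : Bk G W A B θ D d Nd u I Ex Y O wr) (hN : N ⊆ Nd)
    (h1 : ∀ a ∈ N, I1 a ⊆ I a) {i : ℕ} (hi : i < θ) {O1 : Finset V} (hO : O1 ⊆ O i) :
    Fl.Cel G (Y i ∪ N.biUnion u) (N.biUnion I1) O1 := by
  have hIu : ∀ a ∈ N, I1 a ⊆ u a := fun a ha =>
    (h1 a ha).trans (subset_union_left.trans (h.lku a (hN ha)).1)
  have hsub : ∀ a ∈ N, u a ⊆ Y i ∪ N.biUnion u := fun a ha =>
    (subset_biUnion_of_mem u ha).trans subset_union_right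
  refine ⟨biUnion_subset.2 fun a ha => (hIu a ha).trans (hsub a ha),
    (hO.trans (subset_union_left.trans (h.bw.lky i hi).sub)).trans subset_union_left,
    fun I2 hI2 O2 hO2 hc => ?_⟩
  have hl : ∀ a ∈ N, Lnk G (u a) (I2 ∩ I1 a) (Ex a i) := fun a ha => by
    have c1 : (I2 ∩ I1 a).card ≤ d :=
      (card_le_card (inter_subset_right.trans (h1 a ha))).trans (h.pin a (hN ha)).2.le
    exact (h.lku a (hN ha)).2 _ ((inter_subset_right.trans (h1 a ha)).trans subset_union_left) _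
      ((subset_biUnion_of_mem (Ex a) (mem_range.2 hi)).trans subset_union_right)
      (c1.trans (h.bw.ex a (hN ha) i hi).2.1.ge) c1
  haveI : Nonempty (V → V) := ⟨id⟩
  choose! e P hP he using hl
  have hn : ∀ x ∈ I2, ∃ a ∈ N, x ∈ I1 a := fun x hx => mem_biUnion.1 (hI2 hx)
  choose! nd hnd hx1 using hn
  have hm : ∀ x ∈ I2, x ∈ I2 ∩ I1 (nd x) := fun x hx => mem_inter.2 ⟨hx, hx1 x hx⟩
  have hz : ∀ x ∈ I2, e (nd x) x ∈ Ex (nd x) i := fun x hx => he _ (hnd x hx) x (hm x hx)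
  have hPu : ∀ x ∈ I2, P (nd x) x ⊆ u (nd x) := fun x hx =>
    (hP _ (hnd x hx)).fam.sub x (hm x hx)
  have hPP : ∀ x ∈ I2, ∀ y ∈ I2, x ≠ y → Disjoint (P (nd x) x) (P (nd y) y) :=
    fun x hx y hy hne => by
      by_cases hxy : nd x = nd y
      · have := (hP _ (hnd y hy)).fam.disj x (hxy ▸ hm x hx) y (hm y hy) hne
        rwa [hxy]
      · exact (h.bw.fu.disj _ (hN (hnd x hx)) _ (hN (hnd y hy)) hxy).mono (hPu x hx) (hPu y hy)
  have hb : ∀ x ∈ I2, e (nd x) x ∈ Nd.biUnion fun a => Ex a i := fun x hx =>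
    mem_biUnion.2 ⟨_, hN (hnd x hx), hz x hx⟩
  have hw : Set.InjOn (fun x => wr i (e (nd x) x)) I2 := fun x hx y hy hxy => by
    have h2 : e (nd x) x = e (nd y) y :=
      h.bw.inj i hi (mem_coe.2 (hb x hx)) (mem_coe.2 (hb y hy)) hxy
    by_contra hne
    exact disjoint_left.1 (hPP x hx y hy hne) ((hP _ (hnd x hx)).en x (hm x hx))
      (h2 ▸ (hP _ (hnd y hy)).en y (hm y hy))
  obtain ⟨g, Q, hq, hg⟩ := (h.bw.lky i hi).lnk (A := I2.image fun x => wr i (e (nd x) x)) (B := O2)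
    (image_subset_iff.2 fun x hx => mem_union_right _ (mem_image_of_mem _ (hb x hx)))
    ((hO2.trans hO).trans subset_union_left) (by rw [card_image_of_injOn hw, hc])
  have hs : ∀ x ∈ I2, wr i (e (nd x) x) ∈ I2.image fun x => wr i (e (nd x) x) := fun x hx =>
    mem_image_of_mem (fun x => wr i (e (nd x) x)) hx
  have hPQ : ∀ x ∈ I2, ∀ y ∈ I2, Disjoint (P (nd x) x) (Q (wr i (e (nd y) y))) :=
    fun x hx y hy => (h.bw.uy _ (hN (hnd x hx)) i hi).mono (hPu x hx) (hq.fam.sub _ (hs y hy))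
  refine ⟨fun x => g (wr i (e (nd x) x)), fun x hx => hg _ (hs x hx),
    fun x => P (nd x) x ∪ Q (wr i (e (nd x) x)), ⟨fun x hx => union_subset
      ((hPu x hx).trans (hsub _ (hnd x hx))) ((hq.fam.sub _ (hs x hx)).trans subset_union_left),
      fun x hx => ?_, fun x hx y hy hne => ?_⟩,
    fun x hx => mem_union_left _ ((hP _ (hnd x hx)).st x (hm x hx)),
    fun x hx => mem_union_right _ (hq.en _ (hs x hx))⟩
  · exact ((hP _ (hnd x hx)).fam.conn x (hm x hx)).union_adj (hq.fam.conn _ (hs x hx))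
      ((hP _ (hnd x hx)).en x (hm x hx)) (hq.st _ (hs x hx))
      ((h.bw.ex _ (hN (hnd x hx)) i hi).2.2 _ (hz x hx)).2
  · rw [disjoint_union_left, disjoint_union_right, disjoint_union_right]
    exact ⟨⟨hPP x hx y hy hne, hPQ x hx y hy⟩, (hPQ y hy x hx).symm,
      hq.fam.disj _ (hs x hx) _ (hs y hy) fun e' => hne (hw hx hy e')⟩

theorem blk {θ m d m' d' : ℕ} (hm : m' ≤ m) (hd : d' ≤ d) (h : Blk1 G θ m d W A B) :
    Fb G θ m' d' W A B := by
  obtain ⟨u, I, Ex, Y, O, wr, h⟩ := h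
  have hr : ∀ a < θ * m', a ∈ range (θ * m) := fun a ha =>
    mem_range.2 (ha.trans_le (Nat.mul_le_mul_left θ hm))
  have h1 : ∀ a < θ * m', ∃ I1 ⊆ I a, I1.card = d' := fun a ha =>
    exists_subset_card_eq (hd.trans (h.pin a (hr a ha)).2.ge)
  have h2 : ∀ i < θ, ∃ O1 ⊆ O i, O1.card = m' * d' := fun i hi =>
    exists_subset_card_eq ((Nat.mul_le_mul hm hd).trans (h.bw.pout i hi).2.ge)
  choose! I1 s1 c1 using h1
  choose! O1 s2 c2 using h2
  have hIu : ∀ a < θ * m', I1 a ⊆ u a := fun a ha =>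
    (s1 a ha).trans (subset_union_left.trans (h.lku a (hr a ha)).1)
  refine ⟨I1, O1, fun a ha => ⟨(s1 a ha).trans (h.pin a (hr a ha)).1, c1 a ha⟩,
    fun a ha a' ha' hne => (h.bw.fu.disj a (hr a ha) a' (hr a' ha') hne).mono (hIu a ha)
      (hIu a' ha'), fun i hi => ⟨(s2 i hi).trans (h.bw.pout i hi).1, c2 i hi⟩, fun as _ => ?_⟩
  have hf : ∀ i, ∀ a ∈ (range (θ * m')).filter fun a => as a = i, a < θ * m' ∧ as a = i :=
    fun i a ha => ⟨mem_range.1 (mem_filter.1 ha).1, (mem_filter.1 ha).2⟩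
  refine ⟨fun i => Y i ∪ ((range (θ * m')).filter fun a => as a = i).biUnion u,
    fun i hi => union_subset (h.bw.fy.sub i hi)
      (biUnion_subset.2 fun a ha => h.bw.fu.sub a (hr a (hf i a ha).1)),
    fun i hi j hj hne => ?_, fun i hi => cel h (fun a ha => hr a (hf i a ha).1)
      (fun a ha => s1 a (hf i a ha).1) (mem_range.1 hi) (s2 i (mem_range.1 hi))⟩
  rw [disjoint_union_left, disjoint_union_right, disjoint_union_right, disjoint_biUnion_left,
    disjoint_biUnion_right, disjoint_biUnion_left]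
  refine ⟨⟨h.bw.fy.disj i hi j hj hne, fun a ha =>
    (h.bw.uy a (hr a (hf j a ha).1) i (mem_range.1 hi)).symm⟩,
    fun a ha => h.bw.uy a (hr a (hf i a ha).1) j (mem_range.1 hj), fun a ha => ?_⟩
  rw [disjoint_biUnion_right]
  exact fun a' ha' => h.bw.fu.disj a (hr a (hf i a ha).1) a' (hr a' (hf j a' ha').1)
    fun e => hne ((hf i a ha).2.symm.trans (e ▸ (hf j a' ha').2))

end CFb

theorem fb : FbStmt := fun _ _ _ _ _ =>
  ⟨fun _ _ he h => CFb.one he h, fun _ _ _ _ _ hm hd h => CFb.blk hm hd h⟩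

end Pool.Agent.MP_35cb46_co.Ce
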