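import Pool.Agent.MP_35cb46_co.fl.CSpec

/-! PROJECT FL, the cell lemma: row FIN. -/

noncomputable section

namespace Pool.Agent.MP_35cb46_co.Ce

open Finset Pool.Agent.MP_7be75d_co Pool.Agent.MP_35cb46_co.Sq Pool.Agent.MP_35cb46_co.Nl
open scoped Classical

namespace CFin

variable {V ι κ : Type}

theorem bal [Fintype ι] (a : ι → κ) {s : ℕ}
    (hs : ∀ (u : ι) (P : Finset ι), (∀ v ∈ P, a v = a u) → P.card ≤ s)
    (hn : 4 * s ≤ Fintype.card ι) :
    ∃ S : Finset ι, Bal S ∧ ∀ u v, a u = a v → (u ∈ S ↔ v ∈ S) := by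
  have hex : ∃ n, ∃ T : Finset κ, T.card = n ∧
      Fintype.card ι ≤ 4 * (univ.filter fun i => a i ∈ T).card :=
    ⟨_, univ.image a, rfl, by
      rw [filter_true_of_mem fun i hi => mem_image_of_mem a hi, card_univ]; omega⟩
  obtain ⟨T, t1, t2⟩ := Nat.find_spec hex
  refine ⟨univ.filter fun i => a i ∈ T, ⟨t2, ?_⟩, fun u v e => by simp [e]⟩
  rcases T.eq_empty_or_nonempty with rfl | ⟨l, hl⟩
  · simp
  have h3 : ¬ Fintype.card ι ≤ 4 * (univ.filter fun i => a i ∈ T.erase l).card := fun h =>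
    Nat.find_min hex (t1 ▸ card_erase_lt_of_mem hl) ⟨_, rfl, h⟩
  have h4 : (univ.filter fun i => a i ∈ T) ⊆
      (univ.filter fun i => a i ∈ T.erase l) ∪ univ.filter fun i => a i = l := fun i hi => by
    simp only [mem_filter, mem_union, mem_erase] at hi ⊢
    tauto
  have := (card_le_card h4).trans (card_union_le _ _)
  rcases (univ.filter fun i => a i = l).eq_empty_or_nonempty with h | ⟨u, hu⟩
  · rw [h, card_empty] at this
    omega
  have := hs u (univ.filter fun i => a i = l) fun v hv =>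
    (mem_filter.1 hv).2.trans (mem_filter.1 hu).2.symm
  omega

theorem cr_le {μ : ι → ι} {P S : Finset ι}
    (h : ∀ u, μ (μ u) = u ∧ (μ u ≠ u → u ∈ P ∨ μ u ∈ P)) :
    cr μ S ≤ (P.filter fun k => ¬ (k ∈ S ↔ μ k ∈ S)).card := by
  refine card_le_card_of_injOn (fun u => if u ∈ P then u else μ u) (fun u hu => ?_)
    fun u hu v hv e => ?_
  · obtain ⟨u1, u2⟩ := mem_filter.1 hu
    rw [mem_coe, mem_filter]
    dsimp only
    split_ifs with c
    · exact ⟨c, fun e => u2 (e.1 u1)⟩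
    · rw [(h u).1]
      exact ⟨((h u).2 fun e => u2 (e.symm ▸ u1)).resolve_left c, fun e => u2 (e.2 u1)⟩
  · obtain ⟨u1, u2⟩ := mem_filter.1 hu
    obtain ⟨v1, v2⟩ := mem_filter.1 hv
    dsimp only at e
    split_ifs at e
    · exact e
    · exact absurd (e ▸ u1) v2
    · exact absurd (e ▸ v1 : μ u ∈ S) u2
    · rw [← (h u).1, e, (h v).1]

theorem card_le_cw {G : SimpleGraph V} {I : Finset ι} {x : ι → V} {A B : Finset V}
    (hi : Set.InjOn x I) (h : ∀ k ∈ I, x k ∈ A ∧ ∃ z ∈ B, G.Adj (x k) z) :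
    I.card ≤ cw (aw G) A B := by
  rw [← card_image_of_injOn hi, cw_eq_sum, card_eq_sum_ones]
  refine (sum_le_sum fun v hv => ?_).trans (sum_le_sum_of_subset
    (image_subset_iff.2 fun k hk => (h k hk).1))
  obtain ⟨k, hk, rfl⟩ := mem_image.1 hv
  obtain ⟨z, hz, e⟩ := (h k hk).2
  rw [cw_aw_single]
  exact card_pos.2 ⟨z, mem_filter.2 ⟨hz, e⟩⟩

theorem cross {G : SimpleGraph V} {Y : Finset (Finset V)} (hY : PD Y) {X : Finset V} {I : Finset ι}
    {s e : ι → V} {Q : ι → Finset V} (h : Lns G X I s e Q) (hQ : ∀ k ∈ I, Q k ⊆ un Y)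
    {c : ι → Finset V} (hc : ∀ k ∈ I, c k ∈ Y ∧ s k ∈ c k ∧ e k ∉ c k) :
    I.card ≤ cw (ew G) Y Y := by
  have ex : ∀ k, ∃ x, k ∈ I → x ∈ c k ∧ x ∈ Q k ∧ ∃ z ∈ un (Y.erase (c k)), G.Adj x z := fun k => by
    by_cases hk : k ∈ I
    · obtain ⟨x, z, a1, a2, a3, a4, a5⟩ := (h.fam.conn k hk).exit (h.st k hk) (hc k hk).2.1
        (h.en k hk) (hc k hk).2.2
      obtain ⟨C, c1, c2⟩ := mem_un.1 (hQ k hk a4)
      exact ⟨x, fun _ => ⟨a1, a3, z, mem_un.2 ⟨C, mem_erase.2 ⟨fun e => a2 (e ▸ c2), c1⟩, c2⟩, a5⟩⟩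
    · exact ⟨s k, fun e => absurd e hk⟩
  choose x hx using ex
  rw [card_eq_sum_card_fiberwise (f := c) (t := Y) fun k hk => (hc k hk).1, cw_eq_sum]
  refine sum_le_sum fun C hC => ?_
  refine le_trans ?_ (cw_mono subset_rfl (erase_subset C Y))
  rw [cw_ew hY (singleton_subset_iff.2 hC) (erase_subset _ _) (by simp)]
  refine card_le_cw (x := x) (fun a ha b hb e => ?_) fun k hk => ?_
  · have a1 := (mem_filter.1 ha).1
    have b1 := (mem_filter.1 hb).1
    exact h.fam.eq a1 b1 (hx a a1).2.1 (e ▸ (hx b b1).2.1)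
  · obtain ⟨k1, rfl⟩ := mem_filter.1 hk
    exact ⟨mem_un.2 ⟨_, mem_singleton_self _, (hx k k1).1⟩, (hx k k1).2.2⟩

end CFin

open CFin in
theorem fin : FinStmt := by
  intro V ι _ G r t R p ty y l Kd K δ g M Amb Φ ht hK hKd hy hn hg hA hO hS
  obtain ⟨H, X, Al, σ, L, Pj, W, gs⟩ := hS
  obtain ⟨T, hT⟩ : ∃ T, T = univ.image (sta p ty) ∪ Al.image fun u => p t 1 (σ u) := ⟨_, rfl⟩
  have sT : ∀ u, sta p ty u ∈ T := fun u => hT ▸ mem_union_left _ (mem_image_of_mem _ (mem_univ u))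
  obtain ⟨X', -, x2, x3, D, Y, lam, dc, hn'⟩ := hO H gs.le X (gs.sub.trans hA) T
    (hT ▸ union_subset (image_subset_iff.2 fun u _ => gs.fam.sub u (mem_univ u) (gs.st u))
      (image_subset_iff.2 fun u hu => gs.fam.sub u (mem_univ u) (gs.hd u hu))) _ (hT ▸ gs.adm)
  have bl : ∀ j < t, Lns H X' (Pj j) (sta p ty) (fun u => sta p ty (M j u)) (W j) := fun j hj =>
    (gs.blue j hj).shrink (fun k _ => x2 (sT k)) x3
  by_cases hw : ∃ j < t, Φ ((Pj j).image (sta p ty)) ((Pj j).image fun u => sta p ty (M j u))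
  · obtain ⟨j, hj, h⟩ := hw
    refine Or.inl ⟨_, image_subset_iff.2 fun u hu => ?_, _, image_subset_iff.2 fun u hu => ?_, h⟩
    · rw [sta, if_pos (gs.typ j hj u hu).1]
      exact mem_image_of_mem _ (mem_univ u)
    · rw [sta, if_neg (gs.typ j hj u hu).2]
      exact mem_image_of_mem _ (mem_univ _)
  have pY : PD Y := dc.pd.mono subset_union_right
  have ex : ∀ v, ∃ C, v ∈ un Y → C ∈ Y ∧ v ∈ C := fun v => by
    by_cases h : v ∈ un Y
    · exact (mem_un.1 h).imp fun _ h _ => h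
    · exact ⟨∅, fun e => absurd e h⟩
  choose cl hcl using ex
  have si : Function.Injective (sta p ty) := fun a b e =>
    gs.fam.eq (mem_univ a) (mem_univ b) (gs.st a) (e ▸ gs.st b)
  obtain ⟨γ, hγ⟩ : ∃ γ : ι → Finset V ⊕ ι,
    γ = fun u => if sta p ty u ∈ un Y then .inl (cl (sta p ty u)) else .inr u := ⟨_, rfl⟩
  obtain ⟨S, hZ, sat⟩ := bal γ (s := y) (fun u P hP => by
    by_cases c : sta p ty u ∈ un Y
    · rw [← card_image_of_injective _ si]
      refine le_trans (card_le_bo (image_subset_iff.2 fun v hv => ?_) fun v hv => ?_)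
        (dc.sm _ (hcl _ c).1)
      · have := hP v hv
        simp only [hγ, if_pos c] at this
        split_ifs at this with c'
        exact Sum.inl.inj this ▸ (hcl _ c').2
      · obtain ⟨v, -, rfl⟩ := mem_image.1 hv
        exact one_le_bw_mem (sT v)
    · refine le_trans (card_le_one.2 fun a ha b hb => ?_) hy
      have a1 := hP a ha
      have b1 := hP b hb
      simp only [hγ, if_neg c] at a1 b1
      split_ifs at a1 b1
      exact (Sum.inr.inj a1).trans (Sum.inr.inj b1).symm) hn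
  refine Or.inr ⟨_, hZ, Nat.le_of_mul_le_mul_left (le_trans ?_ hg) hKd⟩
  have key : ∀ j ∈ range t, Kd * cr (M j) S ≤
      Kd * δ + 12 * (r + 1) * Fintype.card ι := fun j hj => by
    have hj := mem_range.1 hj
    obtain ⟨I, i1, i2, i3⟩ := (hn' ι (Pj j) _ _ _ (bl j hj)
      fun k _ => ⟨sT _, sT _⟩).resolve_left fun h => hw ⟨j, hj, h⟩
    obtain ⟨J, hJ⟩ : ∃ J, J = I.filter fun k => (∀ C ∈ D, Disjoint (W j k) C) ∧ γ k ≠ γ (M j k) :=
      ⟨_, rfl⟩
    have jI : J ⊆ Pj j := hJ ▸ (filter_subset _ _).trans i1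
    have jQ : ∀ k ∈ J, W j k ⊆ un Y := fun k hk v hv => by
      obtain ⟨C, c1, c2⟩ := mem_un.1 (dc.un ▸ (bl j hj).fam.sub k (jI hk) hv)
      refine mem_un.2 ⟨C, (mem_union.1 c1).resolve_left fun h => ?_, c2⟩
      exact disjoint_left.1 ((mem_filter.1 (hJ ▸ hk)).2.1 C h) hv c2
    have a1 := cross pY ((bl j hj).mono le_rfl subset_rfl jI) jQ (c := fun k => cl (sta p ty k))
      fun k hk => by
        have b1 := jQ k hk ((bl j hj).st k (jI hk))
        have b2 := jQ k hk ((bl j hj).en k (jI hk))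
        refine ⟨(hcl _ b1).1, (hcl _ b1).2, fun e => (mem_filter.1 (hJ ▸ hk)).2.2 ?_⟩
        simp only [hγ, if_pos b1, if_pos b2]
        exact congrArg _ (pY.eq (hcl _ b1).1 (hcl _ b2).1 e (hcl _ b2).2)
    have a2 : ((Pj j).filter fun k => ¬ (k ∈ S ↔ M j k ∈ S)) ⊆
        (Pj j \ I) ∪ (D.biUnion fun C => I.filter fun k => ¬ Disjoint (W j k) C) ∪ J :=
      fun k hk => by
        obtain ⟨k1, k2⟩ := mem_filter.1 hk
        by_cases c : k ∈ I
        · by_cases c' : ∀ C ∈ D, Disjoint (W j k) C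
          · exact mem_union_right _ (hJ ▸ mem_filter.2 ⟨c, c', fun e => k2 (sat _ _ e)⟩)
          · push Not at c'
            obtain ⟨C, c1, c2⟩ := c'
            exact mem_union_left _ (mem_union_right _
              (mem_biUnion.2 ⟨C, c1, mem_filter.2 ⟨c, c2⟩⟩))
        · exact mem_union_left _ (mem_union_left _ (mem_sdiff.2 ⟨k1, c⟩))
    have a3 := (cr_le (S := S) (gs.cov j hj)).trans
      ((card_le_card a2).trans ((card_union_le _ _).trans
        (Nat.add_le_add_right (card_union_le _ _) _)))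
    have a4 : (D.biUnion fun C => I.filter fun k => ¬ Disjoint (W j k) C).card ≤ ts lam D :=
      card_biUnion_le.trans (sum_le_sum i3)
    have a5 := card_sdiff_add_card_eq_card i1
    have a6 : cr (M j) S ≤ δ + ts lam D + cw (ew H) Y Y := by omega
    have a7 := Nat.mul_le_mul_left Kd a6
    have a8 : 120 * (Kd * ts lam D) ≤ 120 * K * Kd * ts lam D := by
      rw [mul_assoc, mul_assoc]
      exact Nat.mul_le_mul_left _ (Nat.le_mul_of_pos_left _ hK)
    have a9 : (t + 1) * Fintype.card ι ≤ (r + 1) * Fintype.card ι := by gcongr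
    have b1 := dc.yy
    have b2 := dc.l2
    rw [mul_add, mul_add] at a7
    rw [mul_assoc 4] at b1 b2
    rw [mul_assoc 12]
    omega
  have := sum_le_card_nsmul _ _ _ key
  rw [← mul_sum, card_range, smul_eq_mul] at this
  rw [mul_left_comm, mul_assoc]
  exact Nat.mul_le_mul_left _ (this.trans (Nat.mul_le_mul_right _ ht))

end Pool.Agent.MP_35cb46_co.Ce
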