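import Pool.Agent.MP_35cb46_co.fl.CSpec

/-! PROJECT FL, the cell lemma, row GEN: one generation. -/

noncomputable section

namespace Pool.Agent.MP_35cb46_co.Ce

open Finset Pool.Agent.MP_7be75d_co Pool.Agent.MP_35cb46_co.Sq Pool.Agent.MP_35cb46_co.Nl
open scoped Classical

namespace CGen

variable {V : Type} {G H₁ H₂ : SimpleGraph V} {X T T₁ T₂ : Finset V}

theorem aw_sup (a b : V) : aw (H₁ ⊔ H₂) a b ≤ aw H₁ a b + aw H₂ a b := by
  unfold aw
  by_cases h1 : H₁.Adj a b <;> by_cases h2 : H₂.Adj a b <;> simp [h1, h2]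

theorem bo_sup (C : Finset V) :
    bo (H₁ ⊔ H₂) X (T₁ ∪ T₂) C ≤ bo H₁ X T₁ C + bo H₂ X T₂ C := by
  have h1 : cw (aw (H₁ ⊔ H₂)) C (X \ C) ≤ cw (aw H₁) C (X \ C) + cw (aw H₂) C (X \ C) := by
    unfold cw
    rw [← sum_add_distrib]
    refine sum_le_sum fun a _ => ?_
    rw [← sum_add_distrib]
    exact sum_le_sum fun b _ => aw_sup a b
  have h2 : ts (ind (T₁ ∪ T₂)) C ≤ ts (ind T₁) C + ts (ind T₂) C := by
    rw [ts_ind, ts_ind, ts_ind, inter_union_distrib_left]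
    exact card_union_le _ _
  unfold bo out
  omega

theorem aw_le {H : SimpleGraph V} (h : H ≤ G) (a b : V) : aw H a b ≤ aw G a b := by
  unfold aw
  split_ifs with h1 h2
  exacts [le_rfl, absurd (h h1) h2, Nat.zero_le _, le_rfl]

theorem un_single (C : Finset V) : un {C} = C := by simp [un]

/-- The volume of the sparse rest. -/
theorem vol_rest {D Y : Finset (Finset V)} (hpd : PD (D ∪ Y)) (hdy : Disjoint D Y)
    (hun : un (D ∪ Y) = X) :
    ts (bo G X T) Y ≤ T.card + cw (ew G) Y Y + ts (bo G X T) D := by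
  have hD : PD D := hpd.mono subset_union_left
  have hY : PD Y := hpd.mono subset_union_right
  have h1 : ∀ C ∈ Y, cw (aw G) C (X \ C) ≤ cw (aw G) C (un D) + cw (ew G) {C} Y := by
    intro C hC
    have e1 : X \ C ⊆ un D ∪ un (Y.erase C) := by
      intro v hv
      obtain ⟨hv1, hv2⟩ := mem_sdiff.1 hv
      rw [← hun] at hv1
      obtain ⟨Z, hZ, hvZ⟩ := mem_un.1 hv1
      rcases mem_union.1 hZ with h | h
      · exact mem_union_left _ (subset_un h hvZ)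
      · exact mem_union_right _ (subset_un (mem_erase.2 ⟨fun e : Z = C => hv2 (e ▸ hvZ), h⟩) hvZ)
    have e2 : cw (ew G) {C} (Y.erase C) = cw (aw G) C (un (Y.erase C)) := by
      rw [cw_ew hY (singleton_subset_iff.2 hC) (erase_subset _ _) (by simp), un_single]
    have e3 : cw (ew G) {C} (Y.erase C) ≤ cw (ew G) {C} Y := cw_mono subset_rfl (erase_subset _ _)
    have e4 : cw (aw G) C (X \ C) ≤ cw (aw G) C (un D ∪ un (Y.erase C)) := cw_mono subset_rfl e1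
    have e5 : cw (aw G) C (un D ∪ un (Y.erase C)) ≤
        cw (aw G) C (un D) + cw (aw G) C (un (Y.erase C)) := cw_union_right_le
    omega
  have h2 : ∑ C ∈ Y, cw (aw G) C (un D) ≤ ts (bo G X T) D := by
    have e1 : ∑ C ∈ Y, cw (aw G) C (un D) = cw (aw G) (un Y) (un D) :=
      (cw_biUnion (S := id) (fun a ha b hb e => hY a ha b hb e)).symm
    have e2 : cw (aw G) (un D) (un Y) = ∑ W ∈ D, cw (aw G) W (un Y) :=
      cw_biUnion (S := id) (fun a ha b hb e => hD a ha b hb e)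
    rw [e1, cw_comm (fun x y => aw_comm x y), e2]
    refine sum_le_sum fun W hW => ?_
    have e3 : un Y ⊆ X \ W := by
      intro v hv
      obtain ⟨Z, hZ, hvZ⟩ := mem_un.1 hv
      refine mem_sdiff.2 ⟨hun ▸ subset_un (mem_union_right _ hZ) hvZ, fun hvW => ?_⟩
      have := hpd.eq (mem_union_left _ hW) (mem_union_right _ hZ) hvW hvZ
      exact disjoint_left.1 hdy hW (this ▸ hZ)
    exact (cw_mono subset_rfl e3).trans (Nat.le_add_right _ _)
  have h3 : ∑ C ∈ Y, ts (ind T) C ≤ T.card := by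
    rw [← hY.ts_un, ts_ind]
    exact card_le_card inter_subset_right
  have h4 : ts (bo G X T) Y ≤
      ∑ C ∈ Y, (cw (aw G) C (un D) + cw (ew G) {C} Y + ts (ind T) C) :=
    sum_le_sum fun C hC => Nat.add_le_add_right (h1 C hC) _
  rw [sum_add_distrib, sum_add_distrib, ← cw_eq_sum Y Y] at h4
  omega

theorem ew_le {H : SimpleGraph V} (h : H ≤ G) (C C' : Finset V) : ew H C C' ≤ ew G C C' := by
  unfold ew
  split_ifs
  exacts [le_rfl, Nl.cw_le fun a _ b _ => aw_le h a b]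

end CGen

open CGen in
theorem gen (drop : DropStmt) : GenStmt := by
  intro V _ G H Amb X A₀ B₀ A₁ B₁ y Kd K δ Λ v Φ hdeg hΛ hK hKd horc hH hX hdm hadm
  set T := A₀ ∪ B₀ ∪ A₁ ∪ B₁ with hT
  obtain ⟨X', hX', hTX, hcl, D, Y, lam, hd, hh⟩ := horc H hH X hX T hdm.sub v hadm
  have hA₀ : A₀ ⊆ T := fun a ha => by simp [hT, ha]
  have hB₀ : B₀ ⊆ T := fun a ha => by simp [hT, ha]
  have hA₁ : A₁ ⊆ T := fun a ha => by simp [hT, ha]
  have hB₁ : B₁ ⊆ T := fun a ha => by simp [hT, ha]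
  have hD : PD D := hd.pd.mono subset_union_left
  have hW : ∀ W ∈ D, W ⊆ X' ∧ WL (aw H) W (bw H X' T W) K := fun W hW =>
    ⟨hd.un ▸ subset_un (mem_union_left _ hW), hd.wl W hW⟩
  rcases drop V H X' T A₀ B₀ D lam K δ Λ Φ (deg_le hdeg hH) hΛ hK hD hW hA₀ hB₀ hdm.c₀
    (hdm.l₀.shrink (hA₀.trans hTX) hcl) hh with h | ⟨Hr, hr, A₀', a0, B₀', b0, c0, n0, l0, o0⟩
  · exact Or.inl h
  rcases drop V H X' T A₁ B₁ D lam K δ Λ Φ (deg_le hdeg hH) hΛ hK hD hW hA₁ hB₁ hdm.c₁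
    (hdm.l₁.shrink (hA₁.trans hTX) hcl) hh with h | ⟨Hb, hb, A₁', a1, B₁', b1, c1, n1, l1, o1⟩
  · exact Or.inr (Or.inl h)
  have hT' : A₀' ∪ B₀' ∪ A₁' ∪ B₁' ⊆ T :=
    union_subset_union (union_subset_union (union_subset_union a0 b0) a1) b1
  have hle : Hr ⊔ Hb ≤ H := sup_le hr hb
  have hbo : ∀ W ∈ D, bo (Hr ⊔ Hb) X' (A₀' ∪ B₀' ∪ A₁' ∪ B₁') W ≤ 120 * K * lam W := by
    intro W hW
    have e1 := bo_sup (H₁ := Hr) (H₂ := Hb) (X := X') (T₁ := A₀' ∪ B₀') (T₂ := A₁' ∪ B₁') W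
    rw [← union_assoc] at e1
    have e2 := o0 W hW
    have e3 := o1 W hW
    have e4 : 120 * K * lam W = 60 * K * lam W + 60 * K * lam W := by ring
    omega
  refine Or.inr (Or.inr ⟨Hr ⊔ Hb, hle, X', hX', A₀', a0, B₀', b0, A₁', a1, B₁', b1,
    ⟨hT'.trans hTX, c0, c1, l0.mono le_sup_left subset_rfl subset_rfl subset_rfl,
      l1.mono le_sup_right subset_rfl subset_rfl subset_rfl⟩, n0, n1,
    D ∪ Y, hd.pd, hd.un, fun C hC => ?_, ?_⟩)
  · rcases mem_union.1 hC with h | h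
    · exact (hbo C h).trans (hd.l1 C h)
    · exact (bo_mono hle subset_rfl hT' C).trans (hd.sm C h)
  · have e1 := vol_rest (G := Hr ⊔ Hb) (T := A₀' ∪ B₀' ∪ A₁' ∪ B₁') hd.pd hd.dy hd.un
    have e2 : cw (ew (Hr ⊔ Hb)) Y Y ≤ cw (ew H) Y Y := Nl.cw_le fun a _ b _ => ew_le hle a b
    have e3 : ts (bo (Hr ⊔ Hb) X' (A₀' ∪ B₀' ∪ A₁' ∪ B₁')) D ≤ 120 * K * ts lam D := by
      unfold ts
      rw [mul_sum]
      exact sum_le_sum hbo
    have e4 := card_le_card hT'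
    have e5 : 12 * cw (ew H) Y Y ≤ 2 * v := (Nat.mul_le_mul_right _ hKd).trans hd.yy
    have e6 : 12 * (120 * K * ts lam D) ≤ 2 * v := by
      refine le_trans ?_ hd.l2
      calc 12 * (120 * K * ts lam D) ≤ Kd * (120 * K * ts lam D) := Nat.mul_le_mul_right _ hKd
        _ = _ := by ring
    rw [ts_union hd.dy]
    omega

end Pool.Agent.MP_35cb46_co.Ce
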