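import Pool.Agent.MP_35cb46_co.fl.CSpec

/-! PROJECT FL, the cell lemma: first hits from both ends. -/

noncomputable section

namespace Pool.Agent.MP_35cb46_co.Ce

open Finset Pool.Agent.MP_7be75d_co Pool.Agent.MP_35cb46_co.Sq Pool.Agent.MP_35cb46_co.Nl
open scoped Classical

theorem hit : HitStmt := by
  intro V ι G X T W L s e Q x hW hL hT hm hx
  obtain ⟨L1, h1, c1⟩ := exists_subset_card_eq (show x ≤ L.card by omega)
  obtain ⟨L2, h2, c2⟩ := exists_subset_card_eq (show x ≤ (L \ L1).card by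
    rw [card_sdiff_of_subset h1]; omega)
  have h2L : L2 ⊆ L := h2.trans sdiff_subset
  have h2n : ∀ k ∈ L2, k ∉ L1 := fun k hk => (mem_sdiff.1 (h2 hk)).2
  let b : ι → V := fun k => if k ∈ L1 then s k else e k
  have hb : ∀ k ∈ L, b k ∈ Q k ∧ b k ∈ T := by
    intro k hk
    by_cases h : k ∈ L1
    · simp only [b, h, if_true]; exact ⟨hL.st k hk, (hT k hk).1⟩
    · simp only [b, h, if_false]; exact ⟨hL.en k hk, (hT k hk).2⟩
  have ex : ∀ k, ∃ (z : V) (S : Finset V), k ∈ L → z ∈ W ∧ S ⊆ Q k ∧ Conn G S ∧ z ∈ S ∧ b k ∈ S ∧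
      ∀ y ∈ S, y ∈ W → y = z := by
    intro k
    by_cases hk : k ∈ L
    · obtain ⟨a, ha, ha'⟩ := not_disjoint_iff.1 (hm k hk)
      obtain ⟨z, hz, S, hS, r⟩ := first_hit (A := W) (hL.fam.conn k hk) (hb k hk).1 ⟨a, ha', ha⟩
      exact ⟨z, S, fun _ => ⟨hz, hS, r⟩⟩
    · exact ⟨s k, ∅, fun h => absurd h hk⟩
  choose z S hz using ex
  have zQ : ∀ k ∈ L, z k ∈ Q k := fun k hk => (hz k hk).2.1 (hz k hk).2.2.2.1
  have inj : Set.InjOn z L := fun k hk k' hk' h => hL.fam.eq hk hk' (zQ k hk) (h ▸ zQ k' hk')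
  have ex2 : ∀ v, ∃ (w : V) (S' : Finset V), ∀ k ∈ L, z k = v → w = b k ∧ S' = S k := by
    intro v
    by_cases h : ∃ k ∈ L, z k = v
    · obtain ⟨k, hk, rfl⟩ := h
      exact ⟨b k, S k, fun k' hk' h' => by rw [inj hk' hk h']; exact ⟨rfl, rfl⟩⟩
    · exact ⟨v, ∅, fun k hk h' => absurd ⟨k, hk, h'⟩ h⟩
  choose f Q' hf using ex2
  have mem : ∀ v ∈ L1.image z ∪ L2.image z, ∃ k ∈ L, z k = v := by
    intro v hv
    rcases mem_union.1 hv with hv | hv <;> obtain ⟨k, hk, rfl⟩ := mem_image.1 hv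
    exacts [⟨k, h1 hk, rfl⟩, ⟨k, h2L hk, rfl⟩]
  refine ⟨L1.image z, L2.image z, f, Q', image_subset_iff.2 fun k hk => (hz k (h1 hk)).1,
    image_subset_iff.2 fun k hk => (hz k (h2L hk)).1, ?_, ?_, ?_, ?_, ⟨?_, ?_⟩, ?_, ?_⟩
  · refine disjoint_left.2 fun v hv hv' => ?_
    obtain ⟨k, hk, rfl⟩ := mem_image.1 hv
    obtain ⟨k', hk', h⟩ := mem_image.1 hv'
    exact h2n k' hk' (inj (h2L hk') (h1 hk) h ▸ hk)
  · rw [card_image_of_injOn (inj.mono (coe_subset.2 h1)), c1]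
  · rw [card_image_of_injOn (inj.mono (coe_subset.2 h2L)), c2]
  · intro v hv
    obtain ⟨k, hk, rfl⟩ := mem v hv
    obtain ⟨-, a2, a3, a4, a5, a6⟩ := hz k hk
    refine ⟨?_, ?_⟩
    · by_cases h : z k = b k
      · exact one_le_bw_mem (h ▸ (hb k hk).2)
      · obtain ⟨y, hy, hadj⟩ := a3.exists_adj a4 a5 h
        exact one_le_bw_adj (hL.fam.sub k hk (a2 hy)) (fun hyW => hadj.ne (a6 y hy hyW).symm) hadj
    · rw [(hf _ k hk rfl).2]
      exact a2.trans (subset_biUnion_of_mem Q hk)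
  · intro v hv
    obtain ⟨k, hk, rfl⟩ := mem v hv
    obtain ⟨a1, -, a3, a4, a5, a6⟩ := hz k hk
    rw [(hf _ k hk rfl).1, (hf _ k hk rfl).2]
    exact ⟨a3, eq_singleton_iff_unique_mem.2 ⟨mem_inter.2 ⟨a4, a1⟩, fun y hy =>
      a6 y (mem_inter.1 hy).1 (mem_inter.1 hy).2⟩, a5⟩
  · intro v hv v' hv' hne
    obtain ⟨k, hk, rfl⟩ := mem v hv
    obtain ⟨k', hk', rfl⟩ := mem v' hv'
    rw [(hf _ k hk rfl).2, (hf _ k' hk' rfl).2]
    exact (hL.fam.disj k hk k' hk' fun h => hne (h ▸ rfl)).mono (hz k hk).2.1 (hz k' hk').2.1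
  · intro v hv
    obtain ⟨k, hk, rfl⟩ := mem_image.1 hv
    rw [(hf _ k (h1 hk) rfl).1]
    simp only [b, hk, if_true]
    exact mem_image_of_mem s (h1 hk)
  · intro v hv
    obtain ⟨k, hk, rfl⟩ := mem_image.1 hv
    rw [(hf _ k (h2L hk) rfl).1]
    simp only [b, h2n k hk, if_false]
    exact mem_image_of_mem e (h2L hk)

end Pool.Agent.MP_35cb46_co.Ce
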