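import Pool.Agent.MP_35cb46_co.fl.CSpec

/-! PROJECT FL, the cell lemma: routers in series inside a hub system. -/

noncomputable section

namespace Pool.Agent.MP_35cb46_co.Ce

open Finset Pool.Agent.MP_7be75d_co Pool.Agent.MP_35cb46_co.Sq Pool.Agent.MP_35cb46_co.Nl
open scoped Classical

namespace CHubr

variable {V : Type} {G : SimpleGraph V} {Amb Rt : Finset V} {N F₀ : ℕ} {h : Fl.HD V}

theorem lka (H : Fl.Hub G Amb Rt N F₀ h) {s : ℕ} (hs : s < N) : Lka G (h.R s) (h.ports N F₀ s) :=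
  fun _ => ⟨(H.cel s hs).1, fun A hA B hB hc _ => by
    obtain ⟨B', h1, h2⟩ := exists_subset_card_eq hc
    obtain ⟨g, h3, P, h4⟩ := (H.cel s hs).2.2 A hA B' (h1.trans hB) h2.symm
    exact ⟨g, P, ⟨h4.fam, h4.st, h4.en⟩, fun a ha => h1 (h3 a ha)⟩⟩

theorem dock (H : Fl.Hub G Amb Rt N F₀ h) {U : Finset ℕ} (hU : U ⊆ range N) {s : ℕ} (hs : s ∈ U)
    {E : Finset V} (hE : ∀ x ∈ E, ∃ t ∈ U, t ≠ s ∧ ∃ k < F₀, x = h.pt t s k) :
    Fl.Dock G h F₀ U s E := by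
  choose! t h1 h2 k h3 h4 using hE
  have hs' := mem_range.1 (hU hs)
  refine ⟨fun x => h.pt s (t x) (k x), fun x hx y hy e => ?_, fun x hx => ⟨?_, t x, h1 x hx,
    k x, h3 x hx, rfl⟩⟩
  · have e' : (t x, k x) = (t y, k y) := H.inj s hs'
      (mem_coe.2 (mem_product.2 ⟨hU (h1 x hx), mem_range.2 (h3 x hx)⟩))
      (mem_coe.2 (mem_product.2 ⟨hU (h1 y hy), mem_range.2 (h3 y hy)⟩)) e
    rw [h4 x hx, h4 y hy, (Prod.mk.inj e').1, (Prod.mk.inj e').2]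
  · conv_lhs => rw [h4 x hx]
    exact H.adj _ (mem_range.1 (hU (h1 x hx))) s hs' (h2 x hx) _ (h3 x hx)

end CHubr

open CHubr in
theorem hubr : HubrStmt := by
  intro V G Amb Rt N F₀ h U s s' r n H hU hs hs' hne hc hn
  have h0 : r + 2 ≤ ((U.erase s).erase s').card := by
    rw [card_erase_of_mem (mem_erase.2 ⟨hne.symm, hs'⟩), card_erase_of_mem hs]
    omega
  obtain ⟨ρ, r1, r2⟩ : ∃ ρ : ℕ → ℕ, (∀ i ≤ r + 1, ρ i ∈ (U.erase s).erase s') ∧
      ∀ i ≤ r + 1, ∀ j ≤ r + 1, ρ i = ρ j → i = j := by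
    refine ⟨fun i => if hi : i < r + 2 then orderEmbOfCardLe _ h0 ⟨i, hi⟩ else 0, fun i hi => ?_,
      fun i hi j hj e => ?_⟩
    · simp only [dif_pos (Nat.lt_succ_of_le hi)]
      exact orderEmbOfCardLe_mem _ _ _
    · simp only [dif_pos (Nat.lt_succ_of_le hi), dif_pos (Nat.lt_succ_of_le hj)] at e
      exact congrArg Fin.val ((orderEmbOfCardLe _ h0).injective e)
  have r3 : ∀ i ≤ r + 1, ρ i ≠ s' ∧ ρ i ≠ s ∧ ρ i ∈ U := fun i hi => by
    simpa only [mem_erase] using r1 i hi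
  have r4 : ∀ i ≤ r + 1, ρ i < N := fun i hi => mem_range.1 (hU (r3 i hi).2.2)
  obtain ⟨pa, hpa⟩ : ∃ pa : ℕ → Fin 4 → ℕ,
    pa = fun i => ![ρ (i - 1), ρ (min (i + 1) (r + 1)), s, s'] := ⟨_, rfl⟩
  have p1 : ∀ i ≤ r + 1, ∀ c, pa i c ∈ range N := fun i hi c => by
    rw [hpa]
    fin_cases c
    exacts [mem_range.2 (r4 _ (by omega)), mem_range.2 (r4 _ (min_le_right _ _)), hU hs, hU hs']
  have p2 : ∀ i ≤ r + 1, ∀ c c', pa i c = pa i c' → c = c' := fun i hi c c' => by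
    have a1 := r3 (i - 1) (by omega)
    have a2 := r3 _ (min_le_right (i + 1) (r + 1))
    have a3 : ρ (i - 1) ≠ ρ (min (i + 1) (r + 1)) := fun e => by
      have := r2 _ (by omega) _ (min_le_right _ _) e
      omega
    simp only [hpa]
    generalize ρ (min (i + 1) (r + 1)) = z at a2 a3 ⊢
    obtain ⟨b1, b2, -⟩ := a1
    obtain ⟨b3, b4, -⟩ := a2
    fin_cases c <;> fin_cases c' <;>
      simp [a3, a3.symm, b1, b1.symm, b2, b2.symm, b3, b3.symm, b4, b4.symm, hne, hne.symm]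
  have p3 : ∀ i ≤ r + 1, ∀ c, ∀ k : Fin n, (pa i c, (k : ℕ)) ∈ range N ×ˢ range F₀ :=
    fun i hi c k => mem_product.2 ⟨p1 i hi c, mem_range.2 (k.2.trans_le hn)⟩
  have dk : ∀ c, ∀ t ∈ U, (∀ i ≤ r + 1, pa i c = t ∧ ρ i ≠ t) →
      ∀ E ⊆ prt r (fun i c (k : Fin n) => h.pt (ρ i) (pa i c) k) c, Fl.Dock G h F₀ U t E :=
    fun c t ht e E hE => dock H hU ht fun x hx => by
      obtain ⟨i, hi, h1⟩ := mem_biUnion.1 (hE hx)
      obtain ⟨k, -, rfl⟩ := mem_image.1 h1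
      have hi' := Nat.le_of_lt_succ (mem_range.1 hi)
      exact ⟨ρ i, (r3 i hi').2.2, (e i hi').2, k, k.2.trans_le hn, by simp only [(e i hi').1]⟩
  refine ⟨fun i => h.R (ρ i), fun i c k => h.pt (ρ i) (pa i c) k, ⟨fun i hi j hj e => ?_,
    fun i hi c k c' k' e => ?_, fun i hi => ?_, fun i hi k => ?_⟩, biUnion_subset.2 fun i hi => ?_,
    dk 2 s hs fun i hi => ⟨by simp [hpa], (r3 i hi).2.1⟩,
    dk 3 s' hs' fun i hi => ⟨by simp [hpa], (r3 i hi).1⟩⟩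
  · exact (H.disj _ (r4 i hi) _ (r4 j hj) fun e' => e (r2 i hi j hj e')).mono
      (H.rsub _ (r4 i hi)) (H.rsub _ (r4 j hj))
  · have e' : (pa i c, (k : ℕ)) = (pa i c', (k' : ℕ)) :=
      H.inj _ (r4 i hi) (mem_coe.2 (p3 i hi c k)) (mem_coe.2 (p3 i hi c' k')) e
    exact ⟨p2 i hi c c' (Prod.mk.inj e').1, Fin.ext (Prod.mk.inj e').2⟩
  · exact (lka H (r4 i hi)).mono le_rfl subset_rfl (image_subset_iff.2 fun q _ =>
      mem_image.2 ⟨_, p3 i hi q.1 q.2, rfl⟩)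
  · have e1 : pa i 1 = ρ (i + 1) := by simp [hpa, min_eq_left hi]
    have e2 : pa (i + 1) 0 = ρ i := by simp [hpa]
    simp only [e1, e2]
    exact H.adj _ (r4 i (by omega)) _ (r4 _ (by omega))
      (fun e => by have := r2 _ (by omega) _ (by omega) e; omega) _ (k.2.trans_le hn)
  · have hi' := Nat.le_of_lt_succ (mem_range.1 hi)
    exact (H.rsub _ (r4 i hi')).trans (subset_biUnion_of_mem h.Rg (r1 i hi'))

end Pool.Agent.MP_35cb46_co.Ce
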