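import Pool.Agent.MP_35cb46_co.fl.CSpec

/-! PROJECT FL, the cell lemma: two graphs are joined by a matching. -/

noncomputable section

namespace Pool.Agent.MP_35cb46_co.Ce

open Finset Pool.Agent.MP_7be75d_co Pool.Agent.MP_35cb46_co.Sq Pool.Agent.MP_35cb46_co.Nl
open scoped Classical

namespace CJoin

variable {V ι : Type}

/-- One side of the join. -/
theorem side {H H₁ : SimpleGraph V} {X X₁ X₂ T T₀ Th T₁ C : Finset V} (hX : X ⊆ X₁ ∪ X₂)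
    (hC : C ⊆ X₁) (hd : Disjoint T₀ Th) (hT : T₀ ∪ Th ⊆ T₁)
    (h1 : ∀ v ∈ X₁, ∀ w ∈ X₁, H.Adj v w → H₁.Adj v w)
    (h2 : ∀ v ∈ X₁, ∀ w ∈ X₂, H.Adj v w → v ∈ Th ∧ ∀ w' ∈ X₂, H.Adj v w' → w = w')
    (h3 : ∀ v ∈ X₁, v ∈ T → v ∈ T₀) : bo H X T C ≤ bo H₁ X₁ T₁ C := by
  rw [← ts_bw, ← ts_bw]
  refine ts_le fun v hv => ?_
  have hv1 := hC hv
  unfold bw
  rw [cw_aw_single, cw_aw_single]
  have a1 : ((X \ C).filter fun u => H.Adj v u) ⊆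
      ((X₁ \ C).filter fun u => H₁.Adj v u) ∪ X₂.filter fun u => H.Adj v u := by
    intro w hw
    obtain ⟨hw, e⟩ := mem_filter.1 hw
    obtain ⟨hw, hn⟩ := mem_sdiff.1 hw
    rcases mem_union.1 (hX hw) with h | h
    · exact mem_union_left _ (mem_filter.2 ⟨mem_sdiff.2 ⟨h, hn⟩, h1 v hv1 w h e⟩)
    · exact mem_union_right _ (mem_filter.2 ⟨h, e⟩)
  have a2 : (X₂.filter fun u => H.Adj v u).card ≤ ind Th v := by
    by_cases h : v ∈ Th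
    · rw [ind_of_mem h]
      exact card_le_one.2 fun a ha b hb =>
        (h2 v hv1 a (mem_filter.1 ha).1 (mem_filter.1 ha).2).2 b (mem_filter.1 hb).1
          (mem_filter.1 hb).2
    · rw [filter_eq_empty_iff.2 fun w hw e => h (h2 v hv1 w hw e).1]
      exact Nat.zero_le _
  have a3 : ind Th v + ind T v ≤ ind T₁ v := by
    by_cases h : v ∈ Th
    · rw [ind_of_mem h, ind_of_mem (hT (mem_union_right _ h)),
        ind_of_notMem fun e => disjoint_left.1 hd (h3 v hv1 e) h]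
    · rw [ind_of_notMem h, zero_add]
      exact ind_mono fun e => hT (mem_union_left _ (h3 v hv1 e))
  have a4 := (card_le_card a1).trans (card_union_le _ _)
  omega

/-- The joined graph. -/
def gr (H₁ H₂ : SimpleGraph V) (X₁ X₂ : Finset V) (I : Finset ι) (α β : ι → V) : SimpleGraph V :=
  SimpleGraph.fromRel fun a b => (a ∈ X₁ ∧ b ∈ X₁ ∧ H₁.Adj a b) ∨ (a ∈ X₂ ∧ b ∈ X₂ ∧ H₂.Adj a b) ∨
    ∃ k ∈ I, a = α k ∧ b = β k

end CJoin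

open CJoin

theorem join : JoinStmt := by
  intro V ι G H₁ H₂ X₁ X₂ Ts Th Ta Tb Tb' I α β y v₁ v₂ l1 l2 hX hs hb d1 d2 hb' hI iα iβ
    ⟨Q₁, p1, u1, b1, s1⟩ ⟨Q₂, p2, u2, b2, s2⟩
  have dj := fun {v : V} (h1 : v ∈ X₁) (h2 : v ∈ X₂) => disjoint_left.1 hX h1 h2
  have cr : ∀ v ∈ X₁, ∀ w ∈ X₂, (gr H₁ H₂ X₁ X₂ I α β).Adj v w → ∃ k ∈ I, v = α k ∧ w = β k := by
    rintro v hv w hw ⟨-, (h | h | h) | (h | h | ⟨k, hk, rfl, rfl⟩)⟩
    exacts [(dj h.2.1 hw).elim, (dj hv h.1).elim, h, (dj h.1 hw).elim, (dj hv h.2.1).elim,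
      (dj hv (hI k hk).2.2.2.1).elim]
  have c1 : ∀ C ∈ Q₁, bo (gr H₁ H₂ X₁ X₂ I α β) (X₁ ∪ X₂) (Ts ∪ Tb') C ≤ bo H₁ X₁ (Ts ∪ Th) C := by
    refine fun C hC => side (X₂ := X₂) subset_rfl (u1 ▸ subset_un hC) d1 subset_rfl ?_ ?_ ?_
    · rintro v hv w hw ⟨-, (h | h | ⟨k, hk, rfl, rfl⟩) | (h | h | ⟨k, hk, rfl, rfl⟩)⟩
      exacts [h.2.2, (dj hv h.1).elim, (dj hw (hI k hk).2.2.2.1).elim, h.2.2.symm,
        (dj hw h.1).elim, (dj hv (hI k hk).2.2.2.1).elim]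
    · intro v hv w hw e
      obtain ⟨k, hk, rfl, rfl⟩ := cr v hv w hw e
      refine ⟨(hI k hk).1, fun w' hw' e' => ?_⟩
      obtain ⟨k', hk', e1, rfl⟩ := cr _ hv w' hw' e'
      rw [iα hk hk' e1]
    · exact fun v hv h => (mem_union.1 h).resolve_right fun e => dj hv (hb (hb' e))
  have c2 : ∀ C ∈ Q₂, bo (gr H₁ H₂ X₁ X₂ I α β) (X₁ ∪ X₂) (Ts ∪ Tb') C ≤ bo H₂ X₂ (Ta ∪ Tb) C := by
    refine fun C hC => side (X₂ := X₁) (union_comm X₁ X₂).subset (u2 ▸ subset_un hC) d2.symm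
      (union_comm Tb Ta).subset ?_ ?_ ?_
    · rintro v hv w hw ⟨-, (h | h | ⟨k, hk, rfl, rfl⟩) | (h | h | ⟨k, hk, rfl, rfl⟩)⟩
      exacts [(dj h.1 hv).elim, h.2.2, (dj (hI k hk).2.1 hv).elim, (dj h.1 hw).elim,
        h.2.2.symm, (dj (hI k hk).2.1 hw).elim]
    · intro v hv w hw e
      obtain ⟨k, hk, rfl, rfl⟩ := cr w hw v hv e.symm
      refine ⟨(hI k hk).2.2.1, fun w' hw' e' => ?_⟩
      obtain ⟨k', hk', rfl, e1⟩ := cr w' hw' _ hv e'.symm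
      rw [iβ hk hk' e1]
    · exact fun v hv h => hb' ((mem_union.1 h).resolve_left fun e => dj (hs e) hv)
  refine ⟨gr H₁ H₂ X₁ X₂ I α β, ?_, fun a ha b hb e => ⟨e.ne, Or.inl (Or.inl ⟨ha, hb, e⟩)⟩,
    fun a ha b hb e => ⟨e.ne, Or.inl (Or.inr (Or.inl ⟨ha, hb, e⟩))⟩,
    fun k hk => ⟨(hI k hk).2.2.2.2.ne, Or.inl (Or.inr (Or.inr ⟨k, hk, rfl, rfl⟩))⟩,
    Q₁ ∪ Q₂, ?_, ?_, fun C hC => ?_, ?_⟩
  · rintro v w ⟨-, (h | h | ⟨k, hk, rfl, rfl⟩) | (h | h | ⟨k, hk, rfl, rfl⟩)⟩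
    exacts [l1 h.2.2, l2 h.2.2, (hI k hk).2.2.2.2, (l1 h.2.2).symm, (l2 h.2.2).symm,
      (hI k hk).2.2.2.2.symm]
  · intro Z hZ Z' hZ' hne
    rcases mem_union.1 hZ with h | h <;> rcases mem_union.1 hZ' with h' | h'
    · exact p1 Z h Z' h' hne
    · exact hX.mono (u1 ▸ subset_un h) (u2 ▸ subset_un h')
    · exact hX.symm.mono (u2 ▸ subset_un h) (u1 ▸ subset_un h')
    · exact p2 Z h Z' h' hne
  · rw [← u1, ← u2]
    ext a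
    simp only [mem_un, mem_union, or_and_right, exists_or]
  · rcases mem_union.1 hC with h | h
    exacts [(c1 C h).trans (b1 C h), (c2 C h).trans (b2 C h)]
  · exact ts_union_le.trans (Nat.add_le_add ((ts_le c1).trans s1) ((ts_le c2).trans s2))

end Pool.Agent.MP_35cb46_co.Ce
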