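import Pool.Agent.MP_35cb46_co.fl.CSpec

/-! PROJECT FL, the cell lemma: many disjoint objects are extended along strands. -/

noncomputable section

namespace Pool.Agent.MP_35cb46_co.Ce

open Finset Pool.Agent.MP_7be75d_co Pool.Agent.MP_35cb46_co.Sq Pool.Agent.MP_35cb46_co.Nl
open scoped Classical

namespace CMany

variable {V : Type} {G : SimpleGraph V} {X X' A A' B B' T : Finset V}

theorem many {J : Finset (Finset V)} {F : Finset V → Finset V} {Ψ : Finset V → Prop}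
    (h : ∀ W ∈ J, F W ⊆ X ∧ (F W).Nonempty ∧ Ψ (F W))
    (hd : ∀ W ∈ J, ∀ W' ∈ J, W ≠ W' → Disjoint (F W) (F W')) : Many X J.card Ψ := by
  refine ⟨J.image F, fun a ha b hb e => ?_, card_image_of_injOn fun a ha b hb e => ?_,
    fun a ha => ?_⟩
  · obtain ⟨c, hc, rfl⟩ := mem_image.1 ha
    obtain ⟨d, hd', rfl⟩ := mem_image.1 hb
    exact hd c hc d hd' fun k => e (congrArg F k)
  · by_contra k
    obtain ⟨x, hx⟩ := (h a ha).2.1
    exact disjoint_left.1 (hd a ha b hb k) hx (e ▸ hx)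
  · obtain ⟨c, hc, rfl⟩ := mem_image.1 ha
    exact h c hc

theorem ext {Ψ : Finset V → Finset V → Finset V → Prop} {N : ℕ} {f : V → V} {Q : V → Finset V}
    (hΨ : Exb G Ψ) (h : Many X N fun W => Ψ W A B) (hS : Str G X T f Q)
    (hA : ∀ v ∈ A, v ∈ T ∧ f v ∈ A') (hB : ∀ v ∈ B, v ∈ T ∧ f v ∈ B') (hX : X ⊆ X')
    (hQ : ∀ v ∈ T, Q v ⊆ X') : Many X' N fun W => Ψ W A' B' := by
  obtain ⟨J, h1, rfl, h3⟩ := h
  refine many (F := fun W => W ∪ (T ∩ W).biUnion Q) (fun W hW => ⟨union_subset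
    ((h3 W hW).1.trans hX) (biUnion_subset.2 fun v hv => hQ v (mem_inter.1 hv).1),
    (h3 W hW).2.1.mono subset_union_left, hΨ W A B A' B' _ f Q (h3 W hW).2.2
      (hS.mono inter_subset_left inter_subset_right (h3 W hW).1)
      (fun v hv k => ⟨mem_inter.2 ⟨(hA v hv).1, k⟩, (hA v hv).2⟩)
      fun v hv k => ⟨mem_inter.2 ⟨(hB v hv).1, k⟩, (hB v hv).2⟩⟩) fun W hW W' hW' e => ?_
  have d := disjoint_left.1 (h1 W hW W' hW' e)
  refine disjoint_left.2 fun x hx hx' => ?_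
  simp only [mem_union, mem_biUnion, mem_inter] at hx hx'
  rcases hx with hx | ⟨v, ⟨v1, v2⟩, hx⟩ <;> rcases hx' with hx' | ⟨w, ⟨w1, w2⟩, hx'⟩
  · exact d hx hx'
  · exact d hx (hS.eq w1 hx' ((h3 W hW).1 hx) ▸ w2)
  · exact d (hS.eq v1 hx ((h3 W' hW').1 hx') ▸ v2) hx'
  · exact disjoint_left.1 (hS.disj v v1 w w1 fun k => d v2 (k ▸ w2)) hx hx'

end CMany

open CMany

theorem ext3 (h : Ext2Stmt) : Ext3Stmt := by
  intro V G θ y n P M X X' A A' B B' T f Q ho hS hA hB hX hQ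
  obtain ⟨N, ⟨D, a1, a2⟩ | ⟨m, d, a1, a2⟩⟩ := ho
  · exact ⟨N, Or.inl ⟨D, ext ((h V G).1 D) a1 hS hA hB hX hQ, a2⟩⟩
  · exact ⟨N, Or.inr ⟨m, d, ext ((h V G).2 θ m d) a1 hS hA hB hX hQ, a2⟩⟩

theorem asm (hit : HitStmt) : AsmStmt := by
  intro V ι κ G X T I s e Q J L x Rg Ψ hL hT hJ hne hx hW hE hΨ
  have key : ∀ W ∈ J, ∃ ρ ∈ Rg, ∃ W₁ ⊆ W ∪ (L W).biUnion Q, W₁.Nonempty ∧
      Ψ ρ W₁ (I.image s) (I.image e) := fun W h => by
    obtain ⟨a1, a2, a3, a4⟩ := hW W h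
    obtain ⟨En, Xi, f, Q', b1, b2, b3, b4, b5, b6, b7, b8, b9⟩ := hit V ι G X T W (L W) s e Q x a1
      (hL.mono le_rfl subset_rfl a2) (fun k hk => hT k (a2 hk)) (fun k hk => (a4 k hk).1) a3
    obtain ⟨ρ, c1, c2⟩ := hΨ W h En b1 Xi b2 b3 b4 b5 fun v hv => (b6 v hv).1
    exact ⟨ρ, c1, _, union_subset_union_right (biUnion_subset.2 fun v hv => (b6 v hv).2),
      ((card_pos.1 (by omega)).mono b1).mono subset_union_left,
      hE ρ c1 W En Xi _ _ _ f Q' c2 b7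
        (fun v hv _ => ⟨mem_union_left _ hv, image_subset_image a2 (b8 v hv)⟩)
        fun v hv _ => ⟨mem_union_right _ hv, image_subset_image a2 (b9 v hv)⟩⟩
  obtain ⟨W₀, h₀⟩ := id hne
  obtain ⟨ρ₀, r₀, -⟩ := key W₀ h₀
  have : Nonempty κ := ⟨ρ₀⟩
  choose! ρ r1 F r2 r3 r4 using key
  obtain ⟨r, hr, hm⟩ := exists_max_image Rg (fun r => (J.filter fun W => ρ W = r).card) ⟨ρ₀, r₀⟩
  have hc : J.card ≤ Rg.card * (J.filter fun W => ρ W = r).card := by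
    rw [card_eq_sum_card_fiberwise (f := ρ) (t := Rg) fun W h => r1 W h]
    exact sum_le_card_nsmul _ _ _ hm
  refine ⟨r, hr, _, Nat.pos_of_mul_pos_left (hne.card_pos.trans_le hc), hc, many (F := F)
    (fun W h => ?_) fun W h W' h' k => ?_⟩
  · obtain ⟨j, rfl⟩ := mem_filter.1 h
    exact ⟨(r2 W j).trans (union_subset (hW W j).1
      (biUnion_subset.2 fun k hk => hL.fam.sub k ((hW W j).2.1 hk))), r3 W j, r4 W j⟩
  replace h := (mem_filter.1 h).1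
  replace h' := (mem_filter.1 h').1
  obtain ⟨-, a2, -, a4⟩ := hW W h
  obtain ⟨-, a2', -, a4'⟩ := hW W' h'
  refine Disjoint.mono (r2 W h) (r2 W' h') (disjoint_left.2 fun z hz hz' => ?_)
  simp only [mem_union, mem_biUnion] at hz hz'
  rcases hz with hz | ⟨v, v1, hz⟩ <;> rcases hz' with hz' | ⟨w, w1, hz'⟩
  · exact disjoint_left.1 (hJ W h W' h' k) hz hz'
  · exact disjoint_left.1 ((a4' w w1).2 W h k) hz' hz
  · exact disjoint_left.1 ((a4 v v1).2 W' h' k.symm) hz hz'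
  · exact disjoint_left.1 (hL.fam.disj v (a2 v1) w (a2' w1)
      fun j => (a4 v v1).1 (j ▸ (a4' w w1).2 W h k)) hz hz'

end Pool.Agent.MP_35cb46_co.Ce
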