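import Pool.Agent.MP_35cb46_co.fl.CSpec

/-! PROJECT FL, the cell lemma: free choices with quotas. -/

noncomputable section

namespace Pool.Agent.MP_35cb46_co.Ce

open Finset Pool.Agent.MP_7be75d_co Pool.Agent.MP_35cb46_co.Sq Pool.Agent.MP_35cb46_co.Nl
open scoped Classical

namespace CQuo

variable {V κ : Type} {G : SimpleGraph V} {X : Finset V} {τ : V → ℕ} {K : ℕ}

/-- The augmentation property. -/
def Au (G : SimpleGraph V) (X : Finset V) (τ : V → ℕ) (K : ℕ) : Prop :=
  ∀ F Y, Fre G X τ F → Y ⊆ X → 24 * K * F.card < ts τ Y → ∃ v ∈ Y, v ∉ F ∧ Fre G X τ (insert v F)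

theorem le_ts {Y : Finset V} (h : ∀ v ∈ Y, 1 ≤ τ v) : Y.card ≤ ts τ Y := by
  simpa using card_le_ts h

theorem one (au : Au G X τ K) (hK : 1 ≤ K) {F Y : Finset V} (hF : Fre G X τ F) (hY : Y ⊆ X)
    (h1 : ∀ v ∈ Y, 1 ≤ τ v) (d : ℕ) (hd : 24 * K * (F.card + d) ≤ Y.card) :
    ∃ S ⊆ Y, S.card = d ∧ Disjoint S F ∧ Fre G X τ (F ∪ S) := by
  induction d with
  | zero => exact ⟨∅, empty_subset _, rfl, disjoint_empty_left _, by rwa [union_empty]⟩
  | succ d ih =>
    obtain ⟨S, s1, s2, s3, s4⟩ := ih (le_trans (Nat.mul_le_mul_left _ (by omega)) hd)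
    have hc : (F ∪ S).card < F.card + (d + 1) := by have := card_union_le F S; omega
    obtain ⟨v, v1, v2, v3⟩ := au _ Y s4 hY
      ((Nat.mul_lt_mul_of_pos_left hc (by omega)).trans_le (hd.trans (le_ts h1)))
    rw [mem_union, not_or] at v2
    exact ⟨insert v S, insert_subset v1 s1, by rw [card_insert_of_notMem v2.2, s2],
      disjoint_insert_left.2 ⟨v2.1, s3⟩, by rwa [union_insert]⟩

theorem maxf (au : Au G X τ K) {F Z : Finset V} (hF : Fre G X τ F) (hZ : Z ⊆ X)
    (h1 : ∀ v ∈ Z, 1 ≤ τ v) :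
    ∃ F', F ⊆ F' ∧ F' ⊆ F ∪ Z ∧ Fre G X τ F' ∧ Z.card ≤ 24 * K * F'.card := by
  obtain ⟨F', h, hm⟩ := exists_max_image ((F ∪ Z).powerset.filter fun A => F ⊆ A ∧ Fre G X τ A)
    card ⟨F, mem_filter.2 ⟨mem_powerset.2 subset_union_left, subset_rfl, hF⟩⟩
  rw [mem_filter, mem_powerset] at h
  refine ⟨F', h.2.1, h.1, h.2.2, not_lt.1 fun hlt => ?_⟩
  obtain ⟨v, v1, v2, v3⟩ := au F' Z h.2.2 hZ (hlt.trans_le (le_ts h1))
  have := hm (insert v F') (mem_filter.2 ⟨mem_powerset.2
    (insert_subset (mem_union_right _ v1) h.1), h.2.1.trans (subset_insert _ _), v3⟩)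
  rw [card_insert_of_notMem v2] at this
  omega

theorem bad (au : Au G X τ K) (hK : 1 ≤ K) {F : Finset V} {n d a : ℕ} {B : Finset κ}
    {W : κ → Finset V} (hF : Fre G X τ F) (hc : F.card ≤ 2 * (n * d)) (ha : 1 ≤ a) (hd : 1 ≤ d)
    (hW : ∀ u ∈ B, W u ⊆ X ∧ ∀ v ∈ W u, 1 ≤ τ v) (hH : B.card * a ≤ 6 * (B.biUnion W).card)
    (hda : 288 * K * (d - 1) ≤ a)
    (hb : ∀ u ∈ B, ¬ ∃ S ⊆ W u, S.card = d ∧ Disjoint S F ∧ Fre G X τ (F ∪ S)) :
    B.card ≤ 578 * K * n := by
  obtain ⟨F', f1, f2, f3, f4⟩ := maxf au hF (biUnion_subset.2 fun u hu => (hW u hu).1)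
    fun v hv => by
      obtain ⟨u, hu, h⟩ := mem_biUnion.1 hv
      exact (hW u hu).2 v h
  obtain ⟨e, rfl⟩ := Nat.exists_eq_add_of_le' hd
  rw [Nat.add_sub_cancel] at hda
  have h1 : ∀ u ∈ B, ((F' \ F) ∩ W u).card ≤ e := fun u hu => not_lt.1 fun hlt => by
    obtain ⟨S, s1, s2⟩ := exists_subset_card_eq (s := (F' \ F) ∩ W u) (n := e + 1) hlt
    have s3 : S ⊆ F' \ F := s1.trans inter_subset_left
    exact hb u hu ⟨S, s1.trans inter_subset_right, s2, sdiff_disjoint.mono_left s3,
      f3.mono (union_subset f1 (s3.trans sdiff_subset))⟩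
  have h2 : (F' \ F).card ≤ B.card * e := by
    refine le_trans (card_le_card fun v hv => ?_) (card_biUnion_le_card_mul B _ e h1)
    obtain ⟨u, hu, h⟩ := mem_biUnion.1
      ((mem_union.1 (f2 (mem_sdiff.1 hv).1)).resolve_left (mem_sdiff.1 hv).2)
    exact mem_biUnion.2 ⟨u, hu, mem_inter.2 ⟨hv, h⟩⟩
  have h3 : F'.card ≤ 2 * (n * (e + 1)) + B.card * e := by
    have := card_sdiff_add_card_eq_card f1
    omega
  have h4 := Nat.mul_le_mul_left (24 * K) h3
  have h5 := Nat.mul_le_mul_left B.card hda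
  have h6 := Nat.mul_le_mul_left n hda
  have h7 : K * n * 1 ≤ K * n * a := Nat.mul_le_mul_left _ ha
  have h8 : 1 * (n * a) ≤ K * (n * a) := Nat.mul_le_mul_right _ hK
  refine Nat.le_of_mul_le_mul_right ?_ ha
  nlinarith

end CQuo

open CQuo

theorem sel (aug : AugStmt) : SelStmt := by
  intro V κ _ G X F τ K J Y d hG hw h7 hK
  have au : Au G X τ K := (aug V G X τ K hG hw h7 hK).2
  induction J using Finset.induction_on generalizing F with
  | empty => exact fun hF _ => ⟨Y, by simp, by simp, by simpa using hF⟩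
  | insert j J hj ih =>
    intro hF h
    have e : ts d (insert j J) = d j + ts d J := sum_insert hj
    rw [e] at h
    obtain ⟨a1, a2, a3⟩ := h j (mem_insert_self _ _)
    obtain ⟨S, s1, s2, s3, s4⟩ := one au hK hF a1 a2 (d j)
      (le_trans (Nat.mul_le_mul_left _ (by omega)) a3)
    obtain ⟨Y', y1, y2, y3⟩ := ih (F ∪ S) s4 fun k hk => by
      obtain ⟨b1, b2, b3⟩ := h k (mem_insert_of_mem hk)
      have := card_union_le F S
      exact ⟨b1, b2, le_trans (Nat.mul_le_mul_left _ (by omega)) b3⟩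
    have u1 : ∀ k ∈ J, Function.update Y' j S k = Y' k := fun k hk =>
      Function.update_of_ne (ne_of_mem_of_not_mem hk hj) _ _
    refine ⟨Function.update Y' j S, fun k hk => ?_, fun k hk k' hk' n => ?_, ?_⟩
    · rcases mem_insert.1 hk with rfl | hk
      · rw [Function.update_self]; exact ⟨s1, s2, s3⟩
      · rw [u1 k hk]
        exact ⟨(y1 k hk).1, (y1 k hk).2.1, (y1 k hk).2.2.mono_right subset_union_left⟩
    · rcases mem_insert.1 hk with q | q <;> rcases mem_insert.1 hk' with q' | q'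
      · exact (n (q.trans q'.symm)).elim
      · rw [q, Function.update_self, u1 k' q']
        exact ((y1 k' q').2.2.mono_right subset_union_right).symm
      · rw [q', Function.update_self, u1 k q]
        exact (y1 k q).2.2.mono_right subset_union_right
      · rw [u1 k q, u1 k' q']; exact y2 k q k' q' n
    · rw [biUnion_insert, Function.update_self, biUnion_congr rfl u1, ← union_assoc]
      exact y3

theorem quo (aug : AugStmt) : QuoStmt := by
  intro V κ _ G θ K n d a Y O τ Nd W hG hK ha hd h hda hN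
  have key : ∀ m ≤ n, ∃ N ⊆ Nd, N.card = m ∧ ∃ W' : κ → ℕ → Finset V, ∀ i < θ,
      (∀ u ∈ N, W' u i ⊆ W u i ∧ (W' u i).card = d ∧ Disjoint (W' u i) (O i)) ∧
      (∀ u ∈ N, ∀ u' ∈ N, u ≠ u' → Disjoint (W' u i) (W' u' i)) ∧
      Fre G (Y i) (τ i) (O i ∪ N.biUnion fun u => W' u i) := by
    intro m
    induction m with
    | zero =>
      exact fun _ => ⟨∅, empty_subset _, rfl, W, fun i hi =>
        ⟨by simp, by simp, by simpa using (h i hi).2.2.1⟩⟩
    | succ m ih =>
      intro hm
      obtain ⟨N, n1, n2, W', hW⟩ := ih (by omega)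
      let Bd : ℕ → Finset κ := fun i => Nd.filter fun u => ¬ ∃ S ⊆ W u i, S.card = d ∧
        Disjoint S (O i ∪ N.biUnion fun u => W' u i) ∧
        Fre G (Y i) (τ i) ((O i ∪ N.biUnion fun u => W' u i) ∪ S)
      have hB : ∀ i ∈ range θ, (Bd i).card ≤ 578 * K * n := fun i hi => by
        obtain ⟨b1, b2, b3, b4, b5, b6⟩ := h i (mem_range.1 hi)
        obtain ⟨c1, -, c3⟩ := hW i (mem_range.1 hi)
        refine bad (W := fun u => W u i) (aug V G (Y i) (τ i) K hG b1 b2 hK).2 hK c3 ?_ ha hd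
          (fun u hu => b5 u (mem_filter.1 hu).1) (b6 _ (filter_subset _ _)) hda
          fun u hu => (mem_filter.1 hu).2
        have e1 := card_union_le (O i) (N.biUnion fun u => W' u i)
        have e2 := card_biUnion_le_card_mul N (fun u => W' u i) d fun u hu => (c1 u hu).2.1.le
        have e3 : N.card * d ≤ n * d := Nat.mul_le_mul_right _ (by omega)
        omega
      have hlt : (N ∪ (range θ).biUnion Bd).card < Nd.card := by
        have e1 := card_union_le N ((range θ).biUnion Bd)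
        have e2 := card_biUnion_le_card_mul (range θ) Bd _ hB
        rw [card_range] at e2
        have e3 : 1 * n ≤ K * n := Nat.mul_le_mul_right _ hK
        have e4 : 0 ≤ θ * (K * n) := Nat.zero_le _
        nlinarith
      obtain ⟨u, hu, hu'⟩ := exists_mem_notMem_of_card_lt_card hlt
      rw [mem_union, not_or] at hu'
      have hS : ∀ i, ∃ S, i < θ → S ⊆ W u i ∧ S.card = d ∧
          Disjoint S (O i ∪ N.biUnion fun u => W' u i) ∧
          Fre G (Y i) (τ i) ((O i ∪ N.biUnion fun u => W' u i) ∪ S) := fun i => by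
        by_cases hi : i < θ
        · by_contra hc
          refine hu'.2 (mem_biUnion.2 ⟨i, mem_range.2 hi, mem_filter.2 ⟨hu, ?_⟩⟩)
          rintro ⟨S, q⟩
          exact hc ⟨S, fun _ => q⟩
        · exact ⟨∅, fun q => (hi q).elim⟩
      choose S hS using hS
      have u1 : ∀ k ∈ N, Function.update W' u S k = W' k := fun k hk =>
        Function.update_of_ne (ne_of_mem_of_not_mem hk hu'.1) _ _
      refine ⟨insert u N, insert_subset hu n1, by rw [card_insert_of_notMem hu'.1, n2],
        Function.update W' u S, fun i hi => ?_⟩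
      obtain ⟨c1, c2, -⟩ := hW i hi
      obtain ⟨s1, s2, s3, s4⟩ := hS i hi
      have dj : ∀ k ∈ N, Disjoint (S i) (W' k i) := fun k hk => s3.mono_right
        ((subset_biUnion_of_mem (fun u => W' u i) hk).trans subset_union_right)
      refine ⟨fun k hk => ?_, fun k hk k' hk' ne => ?_, ?_⟩
      · rcases mem_insert.1 hk with rfl | hk
        · rw [Function.update_self]; exact ⟨s1, s2, s3.mono_right subset_union_left⟩
        · rw [u1 k hk]; exact c1 k hk
      · rcases mem_insert.1 hk with q | q <;> rcases mem_insert.1 hk' with q' | q'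
        · exact (ne (q.trans q'.symm)).elim
        · rw [q, Function.update_self, u1 k' q']; exact dj k' q'
        · rw [q', Function.update_self, u1 k q]; exact (dj k q).symm
        · rw [u1 k q, u1 k' q']; exact c2 k q k' q' ne
      · rw [biUnion_insert, Function.update_self,
          biUnion_congr rfl (t₂ := fun k => W' k i) fun k hk => by rw [u1 k hk],
          union_comm (S i), ← union_assoc]
        exact s4
  exact key n le_rfl

end Pool.Agent.MP_35cb46_co.Ce
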