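import Pool.Agent.MP_35cb46_co.fl.CSpec

/-! PROJECT FL, the cell lemma: all generations in one router, and the first router. -/

noncomputable section

namespace Pool.Agent.MP_35cb46_co.Ce

open Finset Pool.Agent.MP_7be75d_co Pool.Agent.MP_35cb46_co.Sq Pool.Agent.MP_35cb46_co.Nl
open scoped Classical

namespace CRnd

variable {V : Type}

/-- The partition into single points. -/
theorem adm_single [Fintype V] {G : SimpleGraph V} (hd : Deg G univ 6) (X T : Finset V) {y : ℕ}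
    (hy : 7 ≤ y) : Adm G X T y (7 * Fintype.card V) := by
  have h1 : ∀ C ∈ X.image (fun v => ({v} : Finset V)), bo G X T C ≤ 7 := fun C hC => by
    obtain ⟨v, -, rfl⟩ := mem_image.1 hC
    simpa using bo_le hd X T {v}
  refine ⟨X.image fun v => {v}, fun Z hZ Z' hZ' hne => ?_, ?_, fun C hC => (h1 C hC).trans hy, ?_⟩
  · obtain ⟨v, -, rfl⟩ := mem_image.1 hZ
    obtain ⟨w, -, rfl⟩ := mem_image.1 hZ'
    exact disjoint_singleton.2 fun e => hne (by rw [e])
  · ext a
    rw [mem_un]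
    constructor
    · rintro ⟨Z, hZ, ha⟩
      obtain ⟨v, hv, rfl⟩ := mem_image.1 hZ
      rwa [mem_singleton.1 ha]
    · exact fun ha => ⟨{a}, mem_image_of_mem _ ha, mem_singleton_self a⟩
  · have h2 := ts_le_card h1
    have h3 : (X.image fun v => ({v} : Finset V)).card ≤ Fintype.card V :=
      card_image_le.trans (card_le_univ X)
    omega

end CRnd

theorem rnd (gen : GenStmt) : RndStmt := by
  intro V _ G X A₀ B₀ A₁ B₁ y Kd K δ Λ Φ hd hΛ hK hKd hy hO hD
  have key : ∀ k : ℕ, Res G X A₀ B₀ A₁ B₁ y (k * (60 * K * (Λ + 1) * δ))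
      (2 * (A₀ ∪ B₀ ∪ A₁ ∪ B₁).card + 7 * Fintype.card V / 2 ^ k) Φ := by
    intro k
    induction k with
    | zero =>
      refine Or.inr (Or.inr ⟨G, le_rfl, X, subset_rfl, A₀, subset_rfl, B₀, subset_rfl, A₁,
        subset_rfl, B₁, subset_rfl, hD, by omega, by omega, ?_⟩)
      exact (CRnd.adm_single hd X _ hy).mono (by simp)
    | succ k ih =>
      rcases ih with h | h | ⟨H, hH, X', hX', a0, ha0, b0, hb0, a1, ha1, b1, hb1, hD', c0, c1, hA⟩
      · exact Or.inl h
      · exact Or.inr (Or.inl h)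
      rcases gen V G H X X' a0 b0 a1 b1 y Kd K δ Λ _ Φ hd hΛ hK hKd hO hH hX' hD' hA with
        ⟨A, h1, B, h2, h3⟩ | ⟨A, h1, B, h2, h3⟩ |
        ⟨H', hH', X'', hX'', a0', ha0', b0', hb0', a1', ha1', b1', hb1', hD'', c0', c1', hA'⟩
      · exact Or.inl ⟨A, h1.trans ha0, B, h2.trans hb0, h3⟩
      · exact Or.inr (Or.inl ⟨A, h1.trans ha1, B, h2.trans hb1, h3⟩)
      refine Or.inr (Or.inr ⟨H', hH'.trans hH, X'', hX''.trans hX', a0', ha0'.trans ha0, b0',
        hb0'.trans hb0, a1', ha1'.trans ha1, b1', hb1'.trans hb1, hD'', ?_, ?_, hA'.mono ?_⟩)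
      · rw [add_mul k 1, one_mul]
        omega
      · rw [add_mul k 1, one_mul]
        omega
      · have h1 : (a0 ∪ b0 ∪ a1 ∪ b1).card ≤ (A₀ ∪ B₀ ∪ A₁ ∪ B₁).card :=
          card_le_card (union_subset_union (union_subset_union (union_subset_union ha0 hb0) ha1) hb1)
        rw [pow_succ, ← Nat.div_div_eq_div_mul]
        omega
  have h1 := key (Λ + 1)
  have h2 : 7 * Fintype.card V / 2 ^ (Λ + 1) = 0 := Nat.div_eq_of_lt (by rw [pow_succ]; omega)
  have h3 : (Λ + 1) * (60 * K * (Λ + 1) * δ) = 60 * K * (Λ + 1) ^ 2 * δ := by ring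
  rwa [h2, h3, add_zero] at h1

theorem init : InitStmt := by
  intro V ι _ G r R p ty y l hR hy
  have h0 : 0 ≤ r + 1 := Nat.zero_le _
  have hsi : Function.Injective (sta p ty) := fun u u' e => by
    unfold sta at e
    split_ifs at e <;> exact (hR.inj 0 h0 _ _ _ _ e).2
  have hpi : Function.Injective (p 0 1) := fun u u' e => (hR.inj 0 h0 _ _ _ _ e).2
  have hA : univ.image (sta p ty) ⊆ univ.image fun q : Fin 4 × ι => p 0 q.1 q.2 := by
    intro a ha
    obtain ⟨u, -, rfl⟩ := mem_image.1 ha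
    unfold sta
    split_ifs
    · exact mem_image.2 ⟨(2, u), mem_univ _, rfl⟩
    · exact mem_image.2 ⟨(3, u), mem_univ _, rfl⟩
  have hB : univ.image (p 0 1) ⊆ univ.image fun q : Fin 4 × ι => p 0 q.1 q.2 := by
    intro a ha
    obtain ⟨u, -, rfl⟩ := mem_image.1 ha
    exact mem_image.2 ⟨(1, u), mem_univ _, rfl⟩
  obtain ⟨e, Q, hL, he⟩ := (hR.lk 0 h0).lnk hA hB
    (by rw [card_image_of_injective _ hsi, card_image_of_injective _ hpi])
  have hm : ∀ u, sta p ty u ∈ univ.image (sta p ty) := fun u => mem_image_of_mem _ (mem_univ u)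
  have hσ : ∀ u, ∃ k, p 0 1 k = e (sta p ty u) := fun u => by
    obtain ⟨k, -, hk⟩ := mem_image.1 (he _ (hm u))
    exact ⟨k, hk⟩
  choose σ hσ using hσ
  let L : ι → Finset V := fun u => Q (sta p ty u)
  have hLe : ∀ {u u' : ι} {v : V}, v ∈ L u → v ∈ L u' → u = u' := fun h1 h2 =>
    hsi (hL.fam.eq (hm _) (hm _) h1 h2)
  have hst : ∀ u, sta p ty u ∈ L u := fun u => hL.st _ (hm u)
  have hen : ∀ u, p 0 1 (σ u) ∈ L u := fun u => by
    rw [hσ u]
    exact hL.en _ (hm u)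
  let H : SimpleGraph V :=
    { Adj := fun a b => G.Adj a b ∧ ∃ u, a ∈ L u ∧ b ∈ L u
      symm := ⟨fun _ _ h => ⟨h.1.symm, h.2.imp fun _ h' => h'.symm⟩⟩
      loopless := ⟨fun _ h => G.irrefl h.1⟩ }
  have hbo : ∀ C ∈ univ.image L, bo H (univ.biUnion L)
      (univ.image (sta p ty) ∪ univ.image fun u => p 0 1 (σ u)) C ≤ 2 := by
    intro C hC
    obtain ⟨u, -, rfl⟩ := mem_image.1 hC
    have h1 : cw (aw H) (L u) (univ.biUnion L \ L u) = 0 :=
      sum_eq_zero fun a ha => sum_eq_zero fun b hb => if_neg fun h => by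
        obtain ⟨-, u', h2, h3⟩ := h
        exact (mem_sdiff.1 hb).2 (hLe h2 ha ▸ h3)
    have h2 : L u ∩ (univ.image (sta p ty) ∪ univ.image fun u => p 0 1 (σ u)) ⊆
        {sta p ty u, p 0 1 (σ u)} := by
      intro v hv
      obtain ⟨h3, h4⟩ := mem_inter.1 hv
      rcases mem_union.1 h4 with h4 | h4
      · obtain ⟨u', -, rfl⟩ := mem_image.1 h4
        rw [hLe (hst u') h3]
        exact mem_insert_self _ _
      · obtain ⟨u', -, rfl⟩ := mem_image.1 h4
        rw [hLe (hen u') h3]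
        exact mem_insert_of_mem (mem_singleton_self _)
    have h3 := (card_le_card h2).trans card_le_two
    unfold bo out
    rw [h1, ts_ind]
    omega
  refine ⟨H, univ.biUnion L, univ, σ, L, fun _ => ∅, fun _ _ => ∅, fun _ _ h => h.1, ?_, ?_, hst,
    fun u _ => hen u, by simp, ⟨univ.image L, ?_, ?_, fun C hC => (hbo C hC).trans hy, ?_⟩,
    fun j hj => absurd hj (Nat.not_lt_zero j), fun j hj => absurd hj (Nat.not_lt_zero j),
    fun j hj => absurd hj (Nat.not_lt_zero j)⟩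
  · intro v hv
    obtain ⟨u, -, hu⟩ := mem_biUnion.1 hv
    exact mem_biUnion.2 ⟨0, by simp, hL.fam.sub _ (hm u) hu⟩
  · exact ⟨fun u hu => subset_biUnion_of_mem L hu,
      fun u _ => (hL.fam.conn _ (hm u)).mono' fun a b h ha hb => ⟨h, u, ha, hb⟩,
      fun u _ u' _ hne => disjoint_left.2 fun v h1 h2 => hne (hLe h1 h2)⟩
  · intro Z hZ Z' hZ' hne
    obtain ⟨u, -, rfl⟩ := mem_image.1 hZ
    obtain ⟨u', -, rfl⟩ := mem_image.1 hZ'
    exact disjoint_left.2 fun v h1 h2 => hne (by rw [hLe h1 h2])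
  · ext a
    rw [mem_un, mem_biUnion]
    constructor
    · rintro ⟨Z, hZ, ha⟩
      obtain ⟨u, hu, rfl⟩ := mem_image.1 hZ
      exact ⟨u, hu, ha⟩
    · rintro ⟨u, hu, ha⟩
      exact ⟨L u, mem_image_of_mem _ hu, ha⟩
  · have h1 := ts_le_card hbo
    have h2 : (univ.image L).card ≤ Fintype.card ι := card_image_le.trans card_univ.le
    omega

end Pool.Agent.MP_35cb46_co.Ce
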