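import Pool.Agent.MP_35cb46_co.fl.CSpec
import Pool.Agent.MP_35cb46_co.sq.Clus

/-! PROJECT FL, the cell lemma, row STEP: one round of the game. -/

noncomputable section

namespace Pool.Agent.MP_35cb46_co.Ce

open Finset Pool.Agent.MP_7be75d_co Pool.Agent.MP_35cb46_co.Sq Pool.Agent.MP_35cb46_co.Nl
open scoped Classical

namespace CStep

variable {ι : Type} [Fintype ι]

/-- A set loses at most the dead tokens. -/
theorem alive (U Al : Finset ι) {d : ℕ} (h : Fintype.card ι ≤ Al.card + d) :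
    U.card ≤ (U ∩ Al).card + d := by
  have h1 := card_union_add_card_inter U Al
  have h2 := card_le_univ (U ∪ Al)
  omega

/-- Living tokens of both types on different sides of a balanced cut. -/
theorem sides (ty S Al : Finset ι) {d x : ℕ} (hty : 2 * ty.card = Fintype.card ι) (hS : Bal S)
    (h : Fintype.card ι ≤ Al.card + d) (hx : 8 * (x + d) ≤ Fintype.card ι) :
    ∃ S₁ ⊆ Al ∩ ty, ∃ S₂ ⊆ Al \ ty, S₁.card = x ∧ S₂.card = x ∧
      ∀ μ : ι → ι, (∀ u, μ (μ u) = u) → (S₁.filter fun u => μ u ∈ S₂).card ≤ cr μ S := by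
  obtain ⟨b1, b2⟩ := hS
  have e1 := card_sdiff_add_card_inter S ty
  have e2 := card_sdiff_add_card_inter ty S
  have e3 : (ty ∩ S).card = (S ∩ ty).card := by rw [inter_comm]
  have e4 := card_union_add_card_inter S ty
  have e5 := card_compl (S ∪ ty)
  have e6 := card_le_univ (S ∪ ty)
  rcases le_total (S \ ty).card (S ∩ ty).card with hc | hc
  · have a1 := alive (S ∩ ty) Al h
    have a2 := alive (S ∪ ty)ᶜ Al h
    obtain ⟨S₁, s1, c1⟩ := exists_subset_card_eq (s := S ∩ ty ∩ Al) (n := x) (by omega)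
    obtain ⟨S₂, s2, c2⟩ := exists_subset_card_eq (s := (S ∪ ty)ᶜ ∩ Al) (n := x) (by omega)
    refine ⟨S₁, fun u hu => ?_, S₂, fun u hu => ?_, c1, c2, fun μ _ => card_le_card fun u hu => ?_⟩
    · have := s1 hu
      simp only [mem_inter] at this ⊢
      exact ⟨this.2, this.1.2⟩
    · have := s2 hu
      simp only [mem_inter, mem_compl, mem_union, not_or, mem_sdiff] at this ⊢
      exact ⟨this.2, this.1.2⟩
    · have h1 := s1 (mem_filter.1 hu).1
      have h2 := s2 (mem_filter.1 hu).2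
      simp only [mem_inter, mem_compl, mem_union, not_or, mem_filter] at h1 h2 ⊢
      exact ⟨h1.1.1, h2.1.1⟩
  · have a1 := alive (ty \ S) Al h
    have a2 := alive (S \ ty) Al h
    obtain ⟨S₁, s1, c1⟩ := exists_subset_card_eq (s := (ty \ S) ∩ Al) (n := x) (by omega)
    obtain ⟨S₂, s2, c2⟩ := exists_subset_card_eq (s := (S \ ty) ∩ Al) (n := x) (by omega)
    refine ⟨S₁, fun u hu => ?_, S₂, fun u hu => ?_, c1, c2, fun μ hμ =>
      le_trans (card_le_card fun u hu => ?_) (Game.cr_compl_le hμ S)⟩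
    · have := s1 hu
      simp only [mem_inter, mem_sdiff] at this ⊢
      exact ⟨this.2, this.1.1⟩
    · have := s2 hu
      simp only [mem_inter, mem_sdiff] at this ⊢
      exact ⟨this.2, this.1.2⟩
    · have h1 := s1 (mem_filter.1 hu).1
      have h2 := s2 (mem_filter.1 hu).2
      simp only [mem_inter, mem_sdiff, mem_compl, mem_filter, not_not] at h1 h2 ⊢
      exact ⟨h1.1.2, h2.1.1⟩

end CStep

theorem step (rnd : RndStmt) (win : WinStmt) (upd : UpdStmt) : StepStmt := by
  intro V ι _ _ G r t R p ty S θ y P M' Kd K δ Λ g M hdeg hΛ hR ht hK hKd hy hty hg hO hSt hS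
  obtain ⟨H, X, Al, σ, L, Pj, W, gs⟩ := hSt
  generalize hl : 60 * K * (Λ + 1) ^ 2 * δ = l at hg gs ⊢
  have htl : t * l + l ≤ (r + 1) * l := by
    rw [← Nat.succ_mul]
    exact Nat.mul_le_mul_right l (by omega)
  obtain ⟨S₁, s1, S₂, s2, c1, c2, hcr⟩ :=
    CStep.sides ty S Al (d := t * l) (x := g + l) hty hS gs.al (by omega)
  have hβ : Set.InjOn (fun u => p (t + 1) 0 (σ u)) Al := fun u hu u' hu' e => by
    have e' : σ u = σ u' := (hR.inj (t + 1) (by omega) _ _ _ _ e).2
    exact gs.fam.eq (mem_univ u) (mem_univ u') (gs.hd u hu) (e' ▸ gs.hd u' hu')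
  have hp : Set.InjOn (p (t + 1) 1) Al := fun u _ u' _ e =>
    (hR.inj (t + 1) (by omega) _ _ _ _ e).2
  have s1' : S₁ ⊆ Al := s1.trans inter_subset_left
  have s2' : S₂ ⊆ Al := s2.trans sdiff_subset
  have lk := hR.lk (t + 1) (by omega)
  have i0 : ∀ U : Finset ι, U.image (fun u => p (t + 1) 0 (σ u)) ⊆ univ.image (p (t + 1) 0) :=
    fun U => image_subset_iff.2 fun u _ => mem_image_of_mem _ (mem_univ _)
  have i1 : Al.image (p (t + 1) 1) ⊆ univ.image (p (t + 1) 1) :=
    image_subset_image (subset_univ _)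
  have j : ∀ c, univ.image (p (t + 1) c) ⊆
      univ.image fun q : Fin 4 × ι => p (t + 1) q.1 q.2 := fun c =>
    image_subset_iff.2 fun u _ => mem_image.2 ⟨(c, u), mem_univ _, rfl⟩
  have k0 : (Al.image fun u => p (t + 1) 0 (σ u)).card = Al.card := card_image_of_injOn hβ
  have k0' : (Al.image (p (t + 1) 1)).card = Al.card := card_image_of_injOn hp
  have k1 : (S₁.image fun u => p (t + 1) 0 (σ u)).card = g + l :=
    (card_image_of_injOn (hβ.mono (coe_subset.2 s1'))).trans c1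
  have k2 : (S₂.image fun u => p (t + 1) 0 (σ u)).card = g + l :=
    (card_image_of_injOn (hβ.mono (coe_subset.2 s2'))).trans c2
  have hu : Al.image (fun u => p (t + 1) 0 (σ u)) ∪ Al.image (p (t + 1) 1) ∪
      S₁.image (fun u => p (t + 1) 0 (σ u)) ∪ S₂.image (fun u => p (t + 1) 0 (σ u)) ⊆
      univ.image (p (t + 1) 0) ∪ univ.image (p (t + 1) 1) :=
    union_subset (union_subset (union_subset_union (i0 _) i1)
      ((i0 _).trans subset_union_left)) ((i0 _).trans subset_union_left)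
  have dm : Dm G (R (t + 1)) (Al.image fun u => p (t + 1) 0 (σ u)) (Al.image (p (t + 1) 1))
      (S₁.image fun u => p (t + 1) 0 (σ u)) (S₂.image fun u => p (t + 1) 0 (σ u)) :=
    ⟨hu.trans ((union_subset (j 0) (j 1)).trans lk.sub), k0.trans k0'.symm, k1.trans k2.symm,
      lk.lnk ((i0 _).trans (j 0)) (i1.trans (j 1)) (k0.trans k0'.symm).le,
      lk.lnk ((i0 _).trans (j 0)) ((i0 _).trans (j 0)) (k1.trans k2.symm).le⟩
  have res := rnd V G _ _ _ _ _ y Kd K δ Λ _ hdeg hΛ hK hKd hy (hO (R (t + 1))) dm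
  rw [hl] at res
  rcases res with ⟨A, hA, B, hB, o⟩ | ⟨A, hA, B, hB, o⟩ |
    ⟨H', hH', X', hX', A₀, a0, B₀, b0, A₁, a1, B₁, b1, dm', n0, n1, adm⟩
  · exact Or.inl ((win V ι G r t R p θ y δ P M' A B hR ht o).1 (hA.trans (i0 _)) (hB.trans i1))
  · exact Or.inl ((win V ι G r t R p θ y δ P M' A B hR ht o).2 ty l M H X Al σ L Pj W gs
      (hA.trans (image_subset_image s1)) (hB.trans (image_subset_image s2)))
  · have hc := (card_le_card hu).trans (card_union_le _ _)
    have hc0 : (univ.image (p (t + 1) 0)).card ≤ Fintype.card ι := card_image_le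
    have hc1 : (univ.image (p (t + 1) 1)).card ≤ Fintype.card ι := card_image_le
    obtain ⟨μ, hμ, hm, st⟩ := upd V ι G r t R p ty y l M H H' X X' Al S₁ S₂ σ L Pj W A₀ B₀ A₁ B₁
      hR ht gs s1 s2 hH' hX' a0 (b0.trans i1) a1 b1 dm' (k0 ▸ n0) (adm.mono (by omega))
    have := hcr μ hμ
    exact Or.inr ⟨μ, hμ, by omega, st⟩

end Pool.Agent.MP_35cb46_co.Ce
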