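import Pool.Agent.MP_35cb46_co.fl.CSpec

/-! PROJECT FL, row STG: flexible blocks form a stage. -/

noncomputable section

namespace Pool.Agent.MP_35cb46_co.Ce

open Finset Pool.Agent.MP_7be75d_co Pool.Agent.MP_35cb46_co.Sq Pool.Agent.MP_35cb46_co.Nl
open scoped Classical

/-- Row STG, with disjoint port sets. -/
def StgStmt2 : Prop := ∀ (V : Type) (G : SimpleGraph V) (X A B : Finset V) (θ m d k N : ℕ),
  Disjoint A B →
  Many X N (fun W => Fb G θ m d W A B) → 1 ≤ k → k ≤ N → 1 ≤ θ → 1 ≤ m → 1 ≤ d →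
  ∃ (a b : ℕ → V) (S : Fl.SD), (∀ τ < k * (θ * (m * d)), a τ ∈ A ∧ b τ ∈ B) ∧
    Fl.Stg G X (k * (θ * (m * d))) a b S ∧ Fl.Shape (k * (θ * (m * d))) S (m * d) d θ

namespace CStg

variable {V α : Type} {G : SimpleGraph V}

theorem enum (S : Finset α) (d : ℕ) (hc : S.card = d) (hd : 1 ≤ d) :
    ∃ e : ℕ → α, (∀ i < d, e i ∈ S) ∧ ∀ i < d, ∀ j < d, e i = e j → i = j := by
  let q := S.equivFinOfCardEq hc
  refine ⟨fun i => if h : i < d then (q.symm ⟨i, h⟩).1 else (q.symm ⟨0, hd⟩).1, ?_, ?_⟩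
  · intro i hi
    simp only [dif_pos hi]
    exact Subtype.property _
  · intro i hi j hj e
    simp only [dif_pos hi, dif_pos hj] at e
    exact congrArg Fin.val (q.symm.injective (Subtype.ext e))

theorem cel_mono {A I I' O O' : Finset V} (h : Fl.Cel G A I O) (hI : I' ⊆ I) (hO : O' ⊆ O) :
    Fl.Cel G A I' O' :=
  ⟨hI.trans h.1, hO.trans h.2.1, fun a ha b hb => h.2.2 a (ha.trans hI) b (hb.trans hO)⟩

theorem div_eq (q c τ : ℕ) (hq : 1 ≤ q) : τ / q = c ↔ c * q ≤ τ ∧ τ < c * q + q := by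
  rw [Nat.div_eq_iff hq]
  omega

theorem cnt_le (F q c : ℕ) (hq : 1 ≤ q) : cnt (range F) (fun τ => τ / q) c ≤ q := by
  unfold cnt
  refine le_trans (card_le_card (t := Ico (c * q) (c * q + q)) fun τ hτ => ?_) (by simp)
  simp only [mem_filter] at hτ
  exact mem_Ico.2 ((div_eq q c τ hq).1 hτ.2)

theorem cnt_eq (K q c : ℕ) (hq : 1 ≤ q) (hc : c < K) :
    cnt (range (K * q)) (fun τ => τ / q) c = q := by
  refine le_antisymm (cnt_le _ _ _ hq) ?_
  unfold cnt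
  refine le_trans (by simp) (card_le_card (s := Ico (c * q) (c * q + q)) fun τ hτ => ?_)
  have h := mem_Ico.1 hτ
  simp only [mem_filter]
  refine ⟨mem_range.2 (h.2.trans_le ?_), (div_eq q c τ hq).2 h⟩
  calc c * q + q = (c + 1) * q := by ring
    _ ≤ K * q := Nat.mul_le_mul_right q hc

/-- The blocks are numbered globally. -/
theorem glob {X A B : Finset V} {θ m d k N : ℕ} (h : Many X N fun W => Fb G θ m d W A B)
    (hk : 1 ≤ k) (hN : k ≤ N) (hθ : 1 ≤ θ) (hm : 1 ≤ m) :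
    ∃ I O : ℕ → Finset V, (∀ n < k * θ * m, I n ⊆ A ∧ (I n).card = d) ∧
      (∀ n < k * θ * m, ∀ n' < k * θ * m, n ≠ n' → Disjoint (I n) (I n')) ∧
      (∀ c < k * θ, O c ⊆ B ∧ (O c).card = m * d) ∧
      ∀ as : ℕ → ℕ, (∀ n < k * θ * m, as n / θ = n / m / θ) → ∃ C, Fl.Lay G X (range (k * θ)) C
        (fun c => ((range (k * θ * m)).filter fun n => as n = c).biUnion I) O := by
  obtain ⟨J, hpd, hJ, hW⟩ := h
  obtain ⟨W, hW1, hW2⟩ := enum J N hJ (hk.trans hN)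
  have hfb : ∀ j < k, Fb G θ m d (W j) A B := fun j hj => (hW _ (hW1 j (hj.trans_le hN))).2.2
  have hsub : ∀ j < k, W j ⊆ X := fun j hj => (hW _ (hW1 j (hj.trans_le hN))).1
  have hdis : ∀ j < k, ∀ j' < k, j ≠ j' → Disjoint (W j) (W j') := fun j hj j' hj' e =>
    hpd _ (hW1 j (hj.trans_le hN)) _ (hW1 j' (hj'.trans_le hN))
      fun e' => e (hW2 j (hj.trans_le hN) j' (hj'.trans_le hN) e')
  unfold Fb at hfb
  choose! I O h1 h2 h3 h4 using hfb
  have hq : 0 < θ * m := Nat.mul_pos hθ hm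
  have hb : ∀ n < k * θ * m, n / (θ * m) < k := fun n hn =>
    (Nat.div_lt_iff_lt_mul hq).2 (by rwa [← mul_assoc])
  have hc : ∀ c < k * θ, c / θ < k := fun c hc => (Nat.div_lt_iff_lt_mul hθ).2 hc
  have hIW : ∀ j < k, ∀ a < θ * m, I j a ⊆ W j := by
    intro j hj a ha
    obtain ⟨C, hC⟩ := h4 j hj (fun _ => 0) fun _ _ => hθ
    have h0 : 0 ∈ range θ := mem_range.2 hθ
    intro x hx
    refine hC.sub 0 h0 ((hC.cel 0 h0).1 (mem_biUnion.2 ⟨a, ?_, hx⟩))
    simp only [mem_filter, mem_range]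
    exact ⟨ha, trivial⟩
  refine ⟨fun n => I (n / (θ * m)) (n % (θ * m)), fun c => O (c / θ) (c % θ),
    fun n hn => h1 _ (hb n hn) _ (Nat.mod_lt _ hq), fun n hn n' hn' e => ?_,
    fun c h => h3 _ (hc c h) _ (Nat.mod_lt _ hθ), fun as has => ?_⟩
  · by_cases hj : n / (θ * m) = n' / (θ * m)
    · have hne : n % (θ * m) ≠ n' % (θ * m) := fun e' => e (by
        rw [← Nat.div_add_mod n (θ * m), ← Nat.div_add_mod n' (θ * m), hj, e'])
      have := h2 _ (hb n' hn') _ (Nat.mod_lt n hq) _ (Nat.mod_lt n' hq) hne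
      dsimp only
      rwa [hj]
    · exact (hdis _ (hb n hn) _ (hb n' hn') hj).mono (hIW _ (hb n hn) _ (Nat.mod_lt _ hq))
        (hIW _ (hb n' hn') _ (Nat.mod_lt _ hq))
  · have h5 := fun j (hj : j < k) =>
      h4 j hj (fun a => as (θ * m * j + a) % θ) fun _ _ => Nat.mod_lt _ hθ
    choose! C hC using h5
    have hr : ∀ c, c % θ ∈ range θ := fun c => mem_range.2 (Nat.mod_lt _ hθ)
    refine ⟨fun c => C (c / θ) (c % θ), fun c h => ?_, fun c h c' h' e => ?_, fun c h => ?_⟩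
    · have hj := hc c (mem_range.1 h)
      exact ((hC _ hj).sub _ (hr c)).trans (hsub _ hj)
    · have hj := hc c (mem_range.1 h)
      have hj' := hc c' (mem_range.1 h')
      by_cases hjj : c / θ = c' / θ
      · have hne : c % θ ≠ c' % θ := fun e' => e (by
          rw [← Nat.div_add_mod c θ, ← Nat.div_add_mod c' θ, hjj, e'])
        have := (hC _ hj').disj _ (hr c) _ (hr c') hne
        rwa [hjj]
      · exact (hdis _ hj _ hj' hjj).mono ((hC _ hj).sub _ (hr c)) ((hC _ hj').sub _ (hr c'))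
    · have hj := hc c (mem_range.1 h)
      refine cel_mono ((hC _ hj).cel _ (hr c)) (biUnion_subset.2 fun n hn => ?_) subset_rfl
      obtain ⟨hn1, hn2⟩ := mem_filter.1 hn
      have e1 : n / (θ * m) = c / θ := by
        rw [← hn2, has n (mem_range.1 hn1), Nat.div_div_eq_div_mul, mul_comm m θ]
      rw [e1]
      refine subset_biUnion_of_mem (I (c / θ))
        (mem_filter.2 ⟨mem_range.2 (Nat.mod_lt _ hq), ?_⟩)
      rw [← e1, Nat.div_add_mod, hn2]

end CStg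

open CStg in
theorem stg : StgStmt2 := by
  intro V G X A B θ m d k N hAB h hk hN hθ hm hd
  obtain ⟨I, O, h1, h2, h3, h4⟩ := glob h hk hN hθ hm
  have hF : k * (θ * (m * d)) = k * θ * m * d := by ring
  rw [hF]
  have hpos : 0 < k * θ * m := Nat.mul_pos (Nat.mul_pos hk hθ) hm
  have hne : Nonempty V := by
    obtain ⟨v, -⟩ := card_pos.1 (((h1 0 hpos).2.symm ▸ hd : 1 ≤ (I 0).card))
    exact ⟨v⟩
  have hE := fun n (hn : n < k * θ * m) => enum (I n) d (h1 n hn).2 hd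
  choose! E hE1 hE2 using hE
  obtain ⟨C, hC⟩ := h4 (fun n => n / m) fun _ _ => rfl
  have hcel : ∀ c < k * θ, ∃ (g : V → V) (P : V → Finset V),
      (∀ x ∈ ((range (k * θ * m)).filter fun n => n / m = c).biUnion I, g x ∈ O c) ∧
      Fl.Lk G (C c) (((range (k * θ * m)).filter fun n => n / m = c).biUnion I) id g P := by
    intro c hc
    have hle : (((range (k * θ * m)).filter fun n => n / m = c).biUnion I).card ≤ (O c).card := by
      rw [(h3 c hc).2]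
      refine (card_biUnion_le_card_mul _ _ d fun n hn =>
        (h1 n (mem_range.1 (mem_filter.1 hn).1)).2.le).trans (Nat.mul_le_mul_right d ?_)
      have := cnt_le (k * θ * m) m c hm
      unfold cnt at this
      convert this
    obtain ⟨O', hO1, hO2⟩ := exists_subset_card_eq hle
    obtain ⟨g, hg, P, hP⟩ := (hC.cel c (mem_range.2 hc)).2.2 _ subset_rfl O' hO1 hO2.symm
    exact ⟨g, P, fun x hx => hO1 (hg x hx), hP⟩
  choose! g P hg hP using hcel
  have hn : ∀ τ < k * θ * m * d, τ / d < k * θ * m := fun τ hτ =>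
    (Nat.div_lt_iff_lt_mul hd).2 hτ
  have hc : ∀ τ < k * θ * m * d, τ / d / m < k * θ := fun τ hτ =>
    (Nat.div_lt_iff_lt_mul hm).2 (hn τ hτ)
  have ha : ∀ τ < k * θ * m * d, E (τ / d) (τ % d) ∈ I (τ / d) := fun τ hτ =>
    hE1 _ (hn τ hτ) _ (Nat.mod_lt _ hd)
  have ha' : ∀ τ < k * θ * m * d, E (τ / d) (τ % d) ∈
      ((range (k * θ * m)).filter fun n => n / m = τ / d / m).biUnion I := fun τ hτ =>
    mem_biUnion.2 ⟨τ / d, mem_filter.2 ⟨mem_range.2 (hn τ hτ), rfl⟩, ha τ hτ⟩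
  have hb : ∀ τ < k * θ * m * d, g (τ / d / m) (E (τ / d) (τ % d)) ∈ O (τ / d / m) :=
    fun τ hτ => hg _ (hc τ hτ) _ (ha' τ hτ)
  have hinj : ∀ τ < k * θ * m * d, ∀ τ' < k * θ * m * d,
      E (τ / d) (τ % d) = E (τ' / d) (τ' % d) → τ = τ' := by
    intro τ hτ τ' hτ' e
    have e1 : τ / d = τ' / d := by
      by_contra hc'
      exact disjoint_left.1 (h2 _ (hn τ hτ) _ (hn τ' hτ') hc') (ha τ hτ) (e ▸ ha τ' hτ')
    rw [e1] at e
    have e2 := hE2 _ (hn τ' hτ') _ (Nat.mod_lt τ hd) _ (Nat.mod_lt τ' hd) e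
    rw [← Nat.div_add_mod τ d, ← Nat.div_add_mod τ' d, e1, e2]
  let S : Fl.SD := ⟨fun τ => τ / d, fun n => n / m, fun c => c / θ⟩
  have hcells : S.cells (k * θ * m * d) = range (k * θ) := by
    ext c
    simp only [Fl.SD.cells, Fl.SD.ce, S, mem_image, mem_range]
    refine ⟨fun ⟨τ, hτ, e⟩ => e ▸ hc τ hτ, fun h => ⟨c * m * d, ?_, ?_⟩⟩
    · exact Nat.mul_lt_mul_of_pos_right (Nat.mul_lt_mul_of_pos_right h hm) hd
    · rw [Nat.mul_div_cancel _ hd, Nat.mul_div_cancel _ hm]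
  have hA : ∀ τ < k * θ * m * d, E (τ / d) (τ % d) ∈ A := fun τ hτ =>
    (h1 _ (hn τ hτ)).1 (ha τ hτ)
  have hB : ∀ τ < k * θ * m * d, g (τ / d / m) (E (τ / d) (τ % d)) ∈ B := fun τ hτ =>
    (h3 _ (hc τ hτ)).1 (hb τ hτ)
  refine ⟨fun τ => E (τ / d) (τ % d), fun τ => g (τ / d / m) (E (τ / d) (τ % d)), S,
    fun τ hτ => ⟨hA τ hτ, hB τ hτ⟩,
    ⟨⟨fun τ => P (τ / d / m) (E (τ / d) (τ % d)), ⟨fun τ hτ => ?_, fun τ hτ => ?_,
      fun τ hτ τ' hτ' e => ?_⟩, fun τ hτ => ?_, fun τ hτ => ?_⟩, fun τ hτ τ' hτ' e => ?_,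
      fun as has => ?_⟩, fun c h => ?_, fun n => cnt_le _ d n hd, fun c h => ?_⟩
  · have h := mem_range.1 hτ
    exact ((hP _ (hc τ h)).fam.sub _ (ha' τ h)).trans (hC.sub _ (mem_range.2 (hc τ h)))
  · have h := mem_range.1 hτ
    exact (hP _ (hc τ h)).fam.conn _ (ha' τ h)
  · have h := mem_range.1 hτ
    have h' := mem_range.1 hτ'
    by_cases hcc : τ / d / m = τ' / d / m
    · have a1 := ha' τ h
      rw [hcc] at a1
      have := (hP _ (hc τ' h')).fam.disj _ a1 _ (ha' τ' h') fun e' => e (hinj τ h τ' h' e')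
      rwa [hcc]
    · exact (hC.disj _ (mem_range.2 (hc τ h)) _ (mem_range.2 (hc τ' h')) hcc).mono
        ((hP _ (hc τ h)).fam.sub _ (ha' τ h)) ((hP _ (hc τ' h')).fam.sub _ (ha' τ' h'))
  · have h := mem_range.1 hτ
    exact (hP _ (hc τ h)).st _ (ha' τ h)
  · have h := mem_range.1 hτ
    exact (hP _ (hc τ h)).en _ (ha' τ h)
  · exact disjoint_left.1 hAB (hA τ hτ) (by
      have := hB τ' hτ'
      rwa [← e] at this)
  · obtain ⟨C', hC'⟩ := h4 as fun n hn' => by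
      have := (has (n * d) (Nat.mul_lt_mul_of_pos_right hn' hd)).2
      simpa only [Fl.SD.ce, S, Nat.mul_div_cancel _ hd] using this
    rw [hcells]
    refine ⟨C', hC'.sub, hC'.disj, fun c h => cel_mono (hC'.cel c h) ?_ ?_⟩
    · intro x hx
      obtain ⟨τ, hτ, rfl⟩ := mem_image.1 hx
      obtain ⟨t1, t2⟩ := mem_filter.1 hτ
      exact mem_biUnion.2 ⟨τ / d, mem_filter.2 ⟨mem_range.2 (hn τ (mem_range.1 t1)), t2⟩,
        ha τ (mem_range.1 t1)⟩
    · intro x hx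
      obtain ⟨τ, hτ, rfl⟩ := mem_image.1 hx
      obtain ⟨t1, t2⟩ := mem_filter.1 hτ
      have := hb τ (mem_range.1 t1)
      rw [← t2]
      exact this
  · rw [hcells] at h
    have e : S.ce = fun τ => τ / (m * d) := by
      funext τ
      simp only [Fl.SD.ce, S, Nat.div_div_eq_div_mul, mul_comm d m]
    rw [e, mul_assoc (k * θ)]
    exact cnt_eq _ _ c (Nat.mul_pos hm hd) (mem_range.1 h)
  · rw [hcells] at h ⊢
    exact cnt_eq k θ _ hθ ((Nat.div_lt_iff_lt_mul hθ).2 (mem_range.1 h))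

/-- Ports of different kinds are different vertices. -/
theorem prt_disj {V ι : Type} [Fintype ι] {G : SimpleGraph V} {r : ℕ} {R : ℕ → Finset V}
    {p : ℕ → Fin 4 → ι → V} (h : Rts G r R p) {c c' : Fin 4} (hc : c ≠ c') :
    Disjoint (prt r p c) (prt r p c') := by
  refine disjoint_left.2 fun v hv hv' => ?_
  obtain ⟨i, hi, h1⟩ := mem_biUnion.1 hv
  obtain ⟨j, hj, h2⟩ := mem_biUnion.1 hv'
  obtain ⟨k, -, e1⟩ := mem_image.1 h1
  obtain ⟨k', -, e2⟩ := mem_image.1 h2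
  have hi' : i ≤ r + 1 := Nat.lt_succ_iff.1 (mem_range.1 hi)
  have hj' : j ≤ r + 1 := Nat.lt_succ_iff.1 (mem_range.1 hj)
  by_cases hij : i = j
  · subst hij
    exact hc (h.inj i hi' c k c' k' (e1.trans e2.symm)).1
  · exact disjoint_left.1 (h.disj i hi' j hj' hij)
      ((h.lk i hi').sub (mem_image.2 ⟨(c, k), mem_univ _, e1⟩))
      ((h.lk j hj').sub (mem_image.2 ⟨(c', k'), mem_univ _, e2⟩))

end Pool.Agent.MP_35cb46_co.Ce
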