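import Pool.Agent.MP_35cb46_co.fl.CSpec

/-! PROJECT FL, the cell lemma: the state after one more round. -/

noncomputable section

namespace Pool.Agent.MP_35cb46_co.Ce

open Finset Pool.Agent.MP_7be75d_co Pool.Agent.MP_35cb46_co.Sq Pool.Agent.MP_35cb46_co.Nl
open scoped Classical

namespace CUpd

variable {V ι : Type}

lemma port_mem [Fintype ι] {G : SimpleGraph V} {r : ℕ} {R : ℕ → Finset V}
    {p : ℕ → Fin 4 → ι → V} (h : Rts G r R p) {i : ℕ} (hi : i ≤ r + 1) (c : Fin 4) (k : ι) :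
    p i c k ∈ R i := (h.lk i hi).sub (mem_image.2 ⟨(c, k), mem_univ _, rfl⟩)

lemma port_ne [Fintype ι] {G : SimpleGraph V} {r : ℕ} {R : ℕ → Finset V}
    {p : ℕ → Fin 4 → ι → V} (h : Rts G r R p) {i j : ℕ} (hi : i ≤ r + 1) (hj : j ≤ r + 1)
    {c c' : Fin 4} (hc : c ≠ c') (k k' : ι) : p i c k ≠ p j c' k' := fun e => by
  by_cases hij : i = j
  · subst hij
    exact hc (h.inj i hi _ _ _ _ e).1
  · exact disjoint_left.1 (h.disj i hi j hj hij) (port_mem h hi c k) (e ▸ port_mem h hj c' k')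

/-- An injection between two kinds gives an involution. -/
lemma invol (P ty : Finset ι) (ν : ι → ι) (h1 : ∀ u ∈ P, u ∈ ty ∧ ν u ∉ ty)
    (h2 : Set.InjOn ν P) : ∃ μ : ι → ι, (∀ u, μ (μ u) = u) ∧ (∀ u ∈ P, μ u = ν u) ∧
      ∀ u, μ u ≠ u → u ∈ P ∨ μ u ∈ P := by
  let μ : ι → ι := fun u => if u ∈ P then ν u else if h : ∃ w ∈ P, ν w = u then h.choose else u
  have m1 : ∀ u ∈ P, μ u = ν u := fun u hu => if_pos hu
  have m2 : ∀ u ∈ P, μ (ν u) = u := fun u hu => by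
    have hn : ν u ∉ P := fun h => (h1 u hu).2 (h1 _ h).1
    have he : ∃ w ∈ P, ν w = ν u := ⟨u, hu, rfl⟩
    have : μ (ν u) = he.choose := by simp only [μ, if_neg hn, dif_pos he]
    rw [this]
    exact h2 he.choose_spec.1 hu he.choose_spec.2
  have m3 : ∀ u, u ∉ P → (¬ ∃ w ∈ P, ν w = u) → μ u = u := fun u hu he => by
    simp only [μ, if_neg hu, dif_neg he]
  refine ⟨μ, fun u => ?_, m1, fun u hu => ?_⟩
  · by_cases hu : u ∈ P
    · rw [m1 u hu, m2 u hu]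
    by_cases he : ∃ w ∈ P, ν w = u
    · obtain ⟨w, hw, rfl⟩ := he
      rw [m2 w hw, m1 w hw]
    · rw [m3 u hu he, m3 u hu he]
  · by_cases hP : u ∈ P
    · exact Or.inl hP
    by_cases he : ∃ w ∈ P, ν w = u
    · obtain ⟨w, hw, rfl⟩ := he
      rw [m2 w hw]
      exact Or.inr hw
    · exact absurd (m3 u hP he) hu

lemma card_le (S : Finset ι) (β : ι → V) (A : Finset V) (h : A ⊆ S.image β) :
    A.card ≤ (S.filter fun u => β u ∈ A).card := by
  refine le_trans (card_le_card fun a ha => ?_) (card_image_le (f := β))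
  obtain ⟨u, hu, rfl⟩ := mem_image.1 (h ha)
  exact mem_image.2 ⟨u, mem_filter.2 ⟨hu, ha⟩, rfl⟩

end CUpd

theorem upd (join : JoinStmt) : UpdStmt := by
  intro V ι _ G r t R p ty y l M H H' X X' Al S₁ S₂ σ L Pj W A₀ B₀ A₁ B₁ rts htr gs hS₁ hS₂ hH'
    hX' hA₀ hB₀ hA₁ hB₁ dm hal adm'
  have ht0 : t ≤ r + 1 := by omega
  have ht1 : t + 1 ≤ r + 1 := by omega
  have hS₁' : S₁ ⊆ Al := fun u hu => (mem_inter.1 (hS₁ hu)).1
  have hS₂' : S₂ ⊆ Al := fun u hu => (mem_sdiff.1 (hS₂ hu)).1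
  obtain ⟨α, hαd⟩ : ∃ α : ι → V, α = fun u => p t 1 (σ u) := ⟨_, rfl⟩
  obtain ⟨β, hβd⟩ : ∃ β : ι → V, β = fun u => p (t + 1) 0 (σ u) := ⟨_, rfl⟩
  have hαL : ∀ u ∈ Al, α u ∈ L u := by rw [hαd]; exact gs.hd
  have hα : Set.InjOn α Al := fun a ha b hb e =>
    gs.fam.eq (mem_univ a) (mem_univ b) (hαL a ha) (e ▸ hαL b hb)
  have hβ : Set.InjOn β Al := fun a ha b hb e => by
    rw [hβd] at e
    refine hα ha hb ?_
    rw [hαd]
    exact congrArg (p t 1) (rts.inj _ ht1 _ _ _ _ e).2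
  have hw : ∀ u, G.Adj (α u) (β u) := by
    rw [hαd, hβd]; exact fun u => rts.wire t htr.le (σ u)
  have adm := gs.adm
  rw [← hαd] at adm
  rw [← hβd] at hA₀ hA₁ hB₁
  have hLX : ∀ u, L u ⊆ X := fun u => gs.fam.sub u (mem_univ u)
  have hXX : Disjoint X X' := disjoint_left.2 fun x hx hx' => by
    obtain ⟨i, hi, hxi⟩ := mem_biUnion.1 (gs.sub hx)
    have hi' := mem_range.1 hi
    exact disjoint_left.1 (rts.disj i (by omega) (t + 1) ht1 (by omega)) hxi (hX' hx')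
  obtain ⟨e0, Q0, l0, he0⟩ := dm.l₀
  obtain ⟨e1, Q1, l1, he1⟩ := dm.l₁
  obtain ⟨Al', hAl'⟩ : ∃ Al' : Finset ι, Al' = Al.filter fun u => β u ∈ A₀ := ⟨_, rfl⟩
  have mAl : ∀ u, u ∈ Al' ↔ u ∈ Al ∧ β u ∈ A₀ := fun u => by rw [hAl', mem_filter]
  obtain ⟨P, hP⟩ : ∃ P : Finset ι, P = S₁.filter fun u => β u ∈ A₁ := ⟨_, rfl⟩
  have mP : ∀ u, u ∈ P ↔ u ∈ S₁ ∧ β u ∈ A₁ := fun u => by rw [hP, mem_filter]
  have hσ' : ∀ u, ∃ k, u ∈ Al' → p (t + 1) 1 k = e0 (β u) := fun u => by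
    by_cases hu : u ∈ Al'
    · obtain ⟨k, -, hk⟩ := mem_image.1 (hB₀ (he0 _ ((mAl u).1 hu).2))
      exact ⟨k, fun _ => hk⟩
    · exact ⟨u, fun h => absurd h hu⟩
  choose σ' hσ' using hσ'
  have hν : ∀ u, ∃ k, u ∈ P → k ∈ S₂ ∧ β k = e1 (β u) := fun u => by
    by_cases hu : u ∈ P
    · obtain ⟨k, hk⟩ := mem_image.1 (hB₁ (he1 _ ((mP u).1 hu).2))
      exact ⟨k, fun _ => hk⟩
    · exact ⟨u, fun h => absurd h hu⟩
  choose ν hν using hν
  have hPA : ∀ u ∈ P, u ∈ Al := fun u hu => hS₁' ((mP u).1 hu).1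
  have hνi : Set.InjOn ν P := fun a ha b hb e => by
    have h1 : e1 (β a) = e1 (β b) := by rw [← (hν a ha).2, ← (hν b hb).2, e]
    exact hβ (hPA a ha) (hPA b hb) (l1.inj_e ((mP a).1 ha).2 ((mP b).1 hb).2 h1)
  have hty : ∀ u ∈ P, u ∈ ty ∧ ν u ∉ ty := fun u hu =>
    ⟨(mem_inter.1 (hS₁ ((mP u).1 hu).1)).2, (mem_sdiff.1 (hS₂ (hν u hu).1)).2⟩
  obtain ⟨μ, hμ, m1, m2⟩ := CUpd.invol P ty ν hty hνi
  have hTa : A₀ ∪ A₁ ∪ B₁ ⊆ Al.image β :=
    union_subset (union_subset hA₀ (hA₁.trans (image_subset_image hS₁')))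
      (hB₁.trans (image_subset_image hS₂'))
  have hU : A₀ ∪ A₁ ∪ B₁ ∪ B₀ = A₀ ∪ B₀ ∪ A₁ ∪ B₁ := by
    ext v
    simp only [mem_union]
    tauto
  have hsub : A₀ ∪ A₁ ∪ B₁ ∪ B₀ ⊆ X' := hU ▸ dm.sub
  obtain ⟨K, hK, k1, k2, k3, k4⟩ := join V ι G H H' X X' (univ.image (sta p ty)) (Al.image α)
    (A₀ ∪ A₁ ∪ B₁) B₀ (Al'.image fun u => p (t + 1) 1 (σ' u))
    (Al.filter fun u => β u ∈ A₀ ∪ A₁ ∪ B₁) α β y _ _ gs.le hH' hXX
    (image_subset_iff.2 fun u _ => hLX u (gs.st u)) (subset_union_right.trans hsub)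
    (disjoint_left.2 fun v h1 h2 => by
      obtain ⟨u, -, rfl⟩ := mem_image.1 h1
      obtain ⟨w, -, hw'⟩ := mem_image.1 h2
      rw [hαd] at hw'
      unfold sta at hw'
      split_ifs at hw'
      · exact CUpd.port_ne rts ht0 (Nat.zero_le _) (by decide) _ _ hw'
      · exact CUpd.port_ne rts ht0 (Nat.zero_le _) (by decide) _ _ hw')
    (disjoint_left.2 fun v h1 h2 => by
      obtain ⟨u, -, rfl⟩ := mem_image.1 (hTa h1)
      obtain ⟨w, -, hw'⟩ := mem_image.1 (hB₀ h2)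
      rw [hβd] at hw'
      exact CUpd.port_ne rts ht1 ht1 (by decide) _ _ hw')
    (image_subset_iff.2 fun u hu => by rw [hσ' u hu]; exact he0 _ ((mAl u).1 hu).2)
    (fun k hk => ⟨mem_image_of_mem _ (mem_filter.1 hk).1, hLX k (hαL k (mem_filter.1 hk).1),
      (mem_filter.1 hk).2, hsub (mem_union_left _ (mem_filter.1 hk).2), hw k⟩)
    (hα.mono (coe_subset.2 (filter_subset _ _))) (hβ.mono (coe_subset.2 (filter_subset _ _)))
    adm (hU ▸ adm')
  have c1 : ∀ S ⊆ X, Conn H S → Conn K S := fun S hS h =>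
    h.mono' fun a b e ha hb => k1 a (hS ha) b (hS hb) e
  have c2 : ∀ S ⊆ X', Conn H' S → Conn K S := fun S hS h =>
    h.mono' fun a b e ha hb => k2 a (hS ha) b (hS hb) e
  have cL : ∀ u, Conn K (L u) := fun u => c1 _ (hLX u) (gs.fam.conn u (mem_univ u))
  have dL : ∀ a b, a ≠ b → Disjoint (L a) (L b) := fun a b e =>
    gs.fam.disj a (mem_univ a) b (mem_univ b) e
  have dX : ∀ u, ∀ S ⊆ X', Disjoint (L u) S := fun u S hS => hXX.mono (hLX u) hS
  refine ⟨μ, hμ, ?_, K, X ∪ X', Al', σ', fun u => if u ∈ Al' then L u ∪ Q0 (β u) else L u,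
    Function.update Pj t P, Function.update W t fun u => L u ∪ Q1 (β u) ∪ L (ν u),
    hK, ?_, ⟨fun u _ => ?_, fun u _ => ?_, fun a _ b _ e => ?_⟩, fun u => ?_, fun u hu => ?_, ?_,
    k4.mono (le_of_eq (by ring)), fun j hj => ?_, fun j hj => ?_, fun j hj => ?_⟩
  · refine (CUpd.card_le S₁ β A₁ hA₁).trans (card_le_card fun u hu => ?_)
    rw [← hP] at hu
    exact mem_filter.2 ⟨((mP u).1 hu).1, by rw [m1 u hu]; exact (hν u hu).1⟩
  · refine union_subset (gs.sub.trans (biUnion_subset_biUnion_of_subset_left _ ?_))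
      (hX'.trans (subset_biUnion_of_mem R (mem_range.2 (Nat.lt_succ_self _))))
    exact range_subset_range.2 (Nat.le_succ _)
  · split_ifs with hu
    · exact union_subset_union (hLX u) (l0.fam.sub _ ((mAl u).1 hu).2)
    · exact (hLX u).trans subset_union_left
  · split_ifs with hu
    · obtain ⟨h1, h2⟩ := (mAl u).1 hu
      exact (cL u).union_adj (c2 _ (l0.fam.sub _ h2) (l0.fam.conn _ h2)) (hαL u h1) (l0.st _ h2)
        (k3 u (mem_filter.2 ⟨h1, mem_union_left _ (mem_union_left _ h2)⟩))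
    · exact cL u
  · split_ifs with ha hb hb
    · obtain ⟨a1, a2⟩ := (mAl a).1 ha
      obtain ⟨b1, b2⟩ := (mAl b).1 hb
      exact disjoint_union_left.2 ⟨disjoint_union_right.2 ⟨dL a b e, dX a _ (l0.fam.sub _ b2)⟩,
        disjoint_union_right.2 ⟨(dX b _ (l0.fam.sub _ a2)).symm,
          l0.fam.disj _ a2 _ b2 fun h => e (hβ a1 b1 h)⟩⟩
    · exact disjoint_union_left.2 ⟨dL a b e, (dX b _ (l0.fam.sub _ ((mAl a).1 ha).2)).symm⟩
    · exact disjoint_union_right.2 ⟨dL a b e, dX a _ (l0.fam.sub _ ((mAl b).1 hb).2)⟩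
    · exact dL a b e
  · split_ifs
    · exact mem_union_left _ (gs.st u)
    · exact gs.st u
  · rw [if_pos hu, hσ' u hu]
    exact mem_union_right _ (l0.en _ ((mAl u).1 hu).2)
  · have h1 := gs.al
    have h2 := CUpd.card_le Al β A₀ hA₀
    rw [← hAl'] at h2
    rw [add_mul, one_mul]
    omega
  · by_cases hjt : j = t
    · subst hjt
      simp only [Function.update_self]
      refine ⟨⟨fun u hu => ?_, fun u hu => ?_, fun a ha b hb e => ?_⟩, fun u _ => ?_,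
        fun u hu => ?_⟩
      · exact union_subset (union_subset_union (hLX u) (l1.fam.sub _ ((mP u).1 hu).2))
          ((hLX _).trans subset_union_left)
      · have h2 := ((mP u).1 hu).2
        obtain ⟨n1, n2⟩ := hν u hu
        refine ((cL u).union_adj (c2 _ (l1.fam.sub _ h2) (l1.fam.conn _ h2)) (hαL u (hPA u hu))
          (l1.st _ h2) (k3 u (mem_filter.2 ⟨hPA u hu,
            mem_union_left _ (mem_union_right _ h2)⟩))).union_adj (cL _)
          (mem_union_right _ (l1.en _ h2)) (hαL _ (hS₂' n1)) ?_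
        rw [← n2]
        exact (k3 _ (mem_filter.2 ⟨hS₂' n1, mem_union_right _ (n2 ▸ he1 _ h2)⟩)).symm
      · have a2 := ((mP a).1 ha).2
        have b2 := ((mP b).1 hb).2
        have e1' : a ≠ ν b := fun h => (hty b hb).2 (h ▸ (hty a ha).1)
        have e2' : ν a ≠ b := fun h => (hty a ha).2 (h ▸ (hty b hb).1)
        simp only [disjoint_union_left, disjoint_union_right]
        exact ⟨⟨⟨⟨dL a b e, (dX b _ (l1.fam.sub _ a2)).symm⟩, dL _ _ e2'⟩,
          ⟨dX a _ (l1.fam.sub _ b2),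
            l1.fam.disj _ a2 _ b2 fun h => e (hβ (hPA a ha) (hPA b hb) h)⟩,
          dX _ _ (l1.fam.sub _ b2)⟩,
          ⟨dL _ _ e1', (dX _ _ (l1.fam.sub _ a2)).symm⟩, dL _ _ fun h => e (hνi ha hb h)⟩
      · exact mem_union_left _ (mem_union_left _ (gs.st u))
      · rw [m1 u hu]
        exact mem_union_right _ (gs.st _)
    · simp only [Function.update_of_ne hjt]
      have b := gs.blue j (by omega)
      exact ⟨⟨fun u hu => (b.fam.sub u hu).trans subset_union_left,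
        fun u hu => c1 _ (b.fam.sub u hu) (b.fam.conn u hu), b.fam.disj⟩, b.st, b.en⟩
  · by_cases hjt : j = t
    · subst hjt
      simp only [Function.update_self]
      exact fun u hu => ⟨(hty u hu).1, by rw [m1 u hu]; exact (hty u hu).2⟩
    · simp only [Function.update_of_ne hjt]
      exact gs.typ j (by omega)
  · by_cases hjt : j = t
    · subst hjt
      simp only [Function.update_self]
      exact fun u => ⟨hμ u, m2 u⟩
    · simp only [Function.update_of_ne hjt]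
      exact gs.cov j (by omega)

end Pool.Agent.MP_35cb46_co.Ce
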