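import Pool.Agent.MP_35cb46_co.fl.CSpec

/-! PROJECT FL, row USE: a minimal subgraph uses few boundary edges of a well linked block. -/

noncomputable section

namespace Pool.Agent.MP_35cb46_co.Ce

open Finset Pool.Agent.MP_7be75d_co Pool.Agent.MP_35cb46_co.Sq Pool.Agent.MP_35cb46_co.Nl
open scoped Classical

namespace CUse

variable {V : Type} {G H : SimpleGraph V} {X A B W L C L' C' : Finset V} {e : V → V}
  {Q : V → Finset V}

/-- A separation of `A` from `B`: interior `L`, closure `C`. -/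
structure Cut (H : SimpleGraph V) (X A B L C : Finset V) : Prop where
  sub : L ⊆ X
  lc : L ⊆ C
  ac : A ⊆ C
  bl : Disjoint B L
  cl : ∀ a ∈ L, ∀ b ∈ X, H.Adj a b → b ∈ C

theorem Cut.join (h : Cut H X A B L C) (h' : Cut H X A B L' C') :
    Cut H X A B (L ∪ L') (C ∪ C') :=
  ⟨union_subset h.sub h'.sub, union_subset_union h.lc h'.lc, h.ac.trans subset_union_left,
    disjoint_union_right.2 ⟨h.bl, h'.bl⟩, fun a ha b hb e => (mem_union.1 ha).elim
      (fun ha => mem_union_left _ (h.cl a ha b hb e))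
      fun ha => mem_union_right _ (h'.cl a ha b hb e)⟩

theorem Cut.meet (h : Cut H X A B L C) (h' : Cut H X A B L' C') :
    Cut H X A B (L ∩ L') (C ∩ C') :=
  ⟨inter_subset_left.trans h.sub, inter_subset_inter h.lc h'.lc, subset_inter h.ac h'.ac,
    h.bl.mono_right inter_subset_left, fun a ha b hb e =>
      mem_inter.2 ⟨h.cl a (mem_inter.1 ha).1 b hb e, h'.cl a (mem_inter.1 ha).2 b hb e⟩⟩

/-- Every lane meets the separator. -/
theorem Cut.hit (h : Cut H X A B L C) (hQ : Lns H X A id e Q) (he : ∀ a ∈ A, e a ∈ B) :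
    ∃ z : V → V, Set.InjOn z A ∧ ∀ a ∈ A, z a ∈ Q a ∧ z a ∈ C \ L := by
  have h1 : ∀ a, a ∈ A → ∃ z, z ∈ Q a ∧ z ∈ C \ L := by
    intro a ha
    by_contra hc
    have h2 : ∀ z ∈ Q a, z ∈ C → z ∈ L := fun z hz hC => by
      by_contra hL
      exact hc ⟨z, hz, mem_sdiff.2 ⟨hC, hL⟩⟩
    have h3 : Q a ⊆ L := (hQ.fam.conn a ha).subset_of_closed (hQ.st a ha)
      (h2 a (hQ.st a ha) (h.ac ha)) fun x hx y hy _ e' =>
        h2 y hy (h.cl x hx y (hQ.fam.sub a ha hy) e')
    exact disjoint_left.1 h.bl (he a ha) (h3 (hQ.en a ha))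
  choose! z hz using h1
  exact ⟨z, fun a ha b hb e' => hQ.fam.eq ha hb (hz a ha).1 (e' ▸ (hz b hb).1), hz⟩

theorem Cut.low (h : Cut H X A B L C) (hQ : Lns H X A id e Q) (he : ∀ a ∈ A, e a ∈ B) :
    L.card + A.card ≤ C.card := by
  obtain ⟨z, h1, h2⟩ := h.hit hQ he
  have h3 : A.card ≤ (C \ L).card := card_le_card_of_injOn z (fun a ha => (h2 a ha).2) h1
  have h4 := card_sdiff_add_card_eq_card h.lc
  omega

/-- The separator of a tight separation has few points in `W`. -/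
theorem Cut.few (h : Cut H X A B L C) (hQ : Lns H X A id e Q) (he : ∀ a ∈ A, e a ∈ B)
    (ht : C.card ≤ L.card + A.card) (W : Finset V) :
    (W ∩ (C \ L)).card ≤ (A.filter fun a => ¬ Disjoint (Q a) W).card := by
  obtain ⟨z, h1, h2⟩ := h.hit hQ he
  have h4 := card_sdiff_add_card_eq_card h.lc
  have h3 : A.image z = C \ L := eq_of_subset_of_card_le
    (image_subset_iff.2 fun a ha => (h2 a ha).2) (by rw [card_image_of_injOn h1]; omega)
  refine le_trans (card_le_card fun v hv => ?_) (card_image_le (f := z))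
  obtain ⟨a, ha, rfl⟩ := mem_image.1 (h3 ▸ (mem_inter.1 hv).2)
  exact mem_image_of_mem z (mem_filter.2
    ⟨ha, not_disjoint_iff.2 ⟨_, (h2 a ha).1, (mem_inter.1 hv).1⟩⟩)

theorem deg_single [Fintype V] (hd : Deg G univ 6) (v : V) (U : Finset V) :
    cw (aw G) {v} U ≤ 6 := by
  rw [cw_aw_single]
  exact (card_le_card (filter_subset_filter _ (subset_univ _))).trans (hd v (mem_univ v))

/-- Few edges of `W` leave the interior. -/
theorem Cut.edge [Fintype V] (h : Cut H X A B L C) (hd : Deg G univ 6) (hW : W ⊆ X)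
    (hG : ∀ u ∈ W, ∀ v ∈ W, G.Adj u v → H.Adj u v) :
    cw (aw G) (W ∩ L) (W \ (W ∩ L)) ≤ (W ∩ (C \ L)).card * 6 := by
  rw [cw_comm (fun x y => aw_comm x y), cw_eq_sum]
  have h1 : W ∩ (C \ L) ⊆ W \ (W ∩ L) := fun v hv => mem_sdiff.2
    ⟨(mem_inter.1 hv).1, fun hc => (mem_sdiff.1 (mem_inter.1 hv).2).2 (mem_inter.1 hc).2⟩
  rw [← sum_subset h1]
  · exact ts_le_card (τ := fun v => cw (aw G) {v} (W ∩ L)) fun v _ => deg_single hd v _
  · intro v hv hn
    refine cw_eq_zero.2 fun a ha b hb => if_neg fun hab => hn ?_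
    obtain rfl := mem_singleton.1 ha
    have h2 := mem_sdiff.1 hv
    have h3 := mem_inter.1 hb
    exact mem_inter.2 ⟨h2.1, mem_sdiff.2 ⟨h.cl b h3.2 a (hW h2.1) (hG b h3.1 a h2.1 hab.symm),
      fun hc => h2.2 (mem_inter.2 ⟨h2.1, hc⟩)⟩⟩

/-- The end of an edge that cannot be deleted lies in a tight separator. -/
theorem thru [Fintype V] {u v : V} (hA : A ⊆ X)
    (hn : ¬ Lnk (H.deleteEdges {s(u, v)}) X A B) :
    ∃ L C, Cut H X A B L C ∧ C.card ≤ L.card + A.card ∧ u ∈ C ∧ u ∉ L := by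
  have h0 : (univ : Finset {a // a ∈ A}).image Subtype.val = A := by
    ext a
    simp
  have h1 : ∃ Z : Finset V, Z.card < A.card ∧ ¬ Joined (H.deleteEdges {s(u, v)}) X A B Z := by
    by_contra hc
    have h2 : ∀ Z : Finset V, Z.card < Fintype.card {a // a ∈ A} →
        Joined (H.deleteEdges {s(u, v)}) X (univ.image (Subtype.val : {a // a ∈ A} → V)) B Z := by
      intro Z hZ
      rw [h0]
      by_contra h3
      exact hc ⟨Z, by simpa using hZ, h3⟩
    obtain ⟨P, hP, h3⟩ := menger_from _ h2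
    choose b hb1 hb2 using hP.right
    refine hn ⟨fun a => if ha : a ∈ A then b ⟨a, ha⟩ else a,
      fun a => if ha : a ∈ A then P ⟨a, ha⟩ else ∅, ⟨⟨fun a ha => ?_, fun a ha => ?_,
        fun a ha a' ha' e' => ?_⟩, fun a ha => ?_, fun a ha => ?_⟩, fun a ha => ?_⟩ <;>
      simp only [dif_pos ha]
    · exact hP.sub _
    · exact hP.conn _
    · rw [dif_pos ha']
      exact hP.disj _ _ fun hc => e' (congrArg Subtype.val hc)
    · exact h3 ⟨a, ha⟩
    · exact hb2 _
    · exact hb1 _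
  obtain ⟨Z, hZ, hJ⟩ := h1
  let L := (X \ insert u Z).filter fun x => ∃ a ∈ A, a ∈ X \ insert u Z ∧ R H (X \ insert u Z) a x
  have hs : X \ insert u Z ⊆ X \ Z := sdiff_subset_sdiff subset_rfl (subset_insert _ _)
  refine ⟨L, L ∪ insert u Z, ⟨(filter_subset _ _).trans sdiff_subset, subset_union_left,
    fun a ha => ?_, disjoint_left.2 fun b hb hL => ?_, fun a ha b hb e' => ?_⟩, ?_,
    mem_union_right _ (mem_insert_self _ _), fun hc => ?_⟩
  · by_cases h : a ∈ insert u Z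
    · exact mem_union_right _ h
    · have h2 := mem_sdiff.2 ⟨hA ha, h⟩
      exact mem_union_left _ (mem_filter.2 ⟨h2, a, ha, h2, R.refl⟩)
  · obtain ⟨-, a, ha, h2, h3⟩ := mem_filter.1 hL
    refine hJ ⟨a, ha, b, hb, hs h2, h3.mono' (fun x y e' hx hy => ?_) hs⟩
    refine SimpleGraph.deleteEdges_adj.2 ⟨e', fun hc => ?_⟩
    rcases Sym2.eq_iff.1 (Set.mem_singleton_iff.1 hc) with h | h
    · exact (mem_sdiff.1 hx).2 (h.1 ▸ mem_insert_self _ _)
    · exact (mem_sdiff.1 hy).2 (h.2 ▸ mem_insert_self _ _)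
  · by_cases h : b ∈ insert u Z
    · exact mem_union_right _ h
    · have h2 := mem_sdiff.2 ⟨hb, h⟩
      obtain ⟨h3, c, hc, h4, h5⟩ := mem_filter.1 ha
      exact mem_union_left _ (mem_filter.2 ⟨h2, c, hc, h4, h5.tail e' h3 h2⟩)
  · have h2 := card_union_le L (insert u Z)
    have h3 := card_insert_le u Z
    omega
  · exact (mem_sdiff.1 (mem_filter.1 hc).1).2 (mem_insert_self _ _)

end CUse

open CUse in
theorem use : UseStmt := by
  intro V _ G H X T A B W K e Q hd hH hW hAB hwl hK hG hQ he hmin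
  set x := (A.filter fun a => ¬ Disjoint (Q a) W).card with hx
  have hA : A ⊆ X := fun a ha => hQ.fam.sub a ha (hQ.st a ha)
  have hB : A.image e = B := hQ.image_eq he hAB.ge
  have hBX : B ⊆ X := fun b hb => by
    obtain ⟨a, ha, rfl⟩ := mem_image.1 (hB ▸ hb)
    exact hQ.fam.sub a ha (hQ.en a ha)
  let τ : V → ℕ := fun v => cw (aw H) {v} (X \ W)
  have hτ : ∀ v, τ v ≤ 6 := fun v => deg_single (deg_le hd hH) v _
  have hwl' : WL (aw G) W τ K := hwl.tau fun v _ =>
    le_trans (Nat.le_add_right _ _) (bw_mono (T := ∅) hH subset_rfl (empty_subset T) subset_rfl v)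
  -- tight separations
  let Ti : Finset V × Finset V → Prop := fun p =>
    Cut H X A B p.1 p.2 ∧ p.2.card ≤ p.1.card + A.card
  have hj : ∀ p q, Ti p → Ti q → Ti (p.1 ∪ q.1, p.2 ∪ q.2) ∧ Ti (p.1 ∩ q.1, p.2 ∩ q.2) := by
    intro p q hp hq
    have a1 := (hp.1.join hq.1).low hQ he
    have a2 := (hp.1.meet hq.1).low hQ he
    have a3 := card_union_add_card_inter p.1 q.1
    have a4 := card_union_add_card_inter p.2 q.2
    have a5 := hp.2
    have a6 := hq.2
    exact ⟨⟨hp.1.join hq.1, by dsimp only; omega⟩, hp.1.meet hq.1, by dsimp only; omega⟩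
  have hz : ∀ p, Ti p → ts τ (W ∩ (p.2 \ p.1)) ≤ K * (x * 6) := fun p hp =>
    ((ts_le_card fun v _ => hτ v).trans (Nat.mul_le_mul_right 6 (hp.1.few hQ he hp.2 W))).trans
      (Nat.le_mul_of_pos_left _ hK)
  have hs : ∀ p, Ti p → ts τ (W ∩ p.1) ≤ K * (x * 6) ∨ ts τ (W \ p.1) ≤ K * (x * 6) := by
    intro p hp
    have a1 := (hwl' (W ∩ p.1) inter_subset_left).trans (Nat.mul_le_mul_left K
      ((hp.1.edge hd hW hG).trans (Nat.mul_le_mul_right 6 (hp.1.few hQ he hp.2 W))))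
    rw [sdiff_inter_self_left] at a1
    exact min_le_iff.1 a1
  have hp : ∀ L : Finset V, ts τ (W \ L) + ts τ (W ∩ L) = ts τ W := fun L => by
    rw [← sdiff_inter_self_left W L]
    exact ts_sdiff inter_subset_left
  have t0 : Ti (∅, A) :=
    ⟨⟨empty_subset _, empty_subset _, subset_rfl, disjoint_empty_right _, by simp⟩, by simp⟩
  have t1 : Ti (X \ B, X) := ⟨⟨sdiff_subset, sdiff_subset, hA, disjoint_sdiff,
    fun _ _ _ hb _ => hb⟩, by
      have := card_sdiff_add_card_eq_card hBX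
      dsimp only
      omega⟩
  have key : ts τ W ≤ 3 * (K * (x * 6)) := by
    by_contra hc
    obtain ⟨p, ⟨p1, p2⟩, p3⟩ := exists_max_of
      (p := fun p => Ti p ∧ ts τ (W ∩ p.1) ≤ K * (x * 6)) (fun p => p.2.card) (Fintype.card V)
      (fun p _ => card_le_univ _) ⟨(∅, A), t0, by simp [ts]⟩
    obtain ⟨q, ⟨q1, q2⟩, q3⟩ := exists_min_of
      (p := fun p => Ti p ∧ ts τ (W \ p.1) ≤ K * (x * 6)) (fun p => p.1.card)
      ⟨(X \ B, X), t1, le_trans (ts_mono fun v hv => mem_inter.2 ⟨(mem_sdiff.1 hv).1,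
        mem_sdiff.2 ⟨hW (mem_sdiff.1 hv).1, (mem_sdiff.1 hv).2⟩⟩) (hz _ t1)⟩
    have hcov : W.filter (fun v => τ v ≠ 0) ⊆ W ∩ p.1 ∪ W ∩ (p.2 \ p.1) ∪ W \ q.1 := by
      intro u hu
      obtain ⟨huW, hu0⟩ := mem_filter.1 hu
      obtain ⟨a, ha, v, hv, huv⟩ := exists_of_cw_pos (Nat.pos_of_ne_zero hu0)
      obtain rfl := mem_singleton.1 ha
      have hadj : H.Adj a v := by
        by_contra h
        simp [aw, h] at huv
      obtain ⟨L, C, c1, c2, c3, c4⟩ :=
        thru hA (hmin a huW v (mem_sdiff.1 hv).1 (mem_sdiff.1 hv).2 hadj)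
      have tr : Ti (L, C) := ⟨c1, c2⟩
      rcases hs _ tr with h | h
      · have j := (hj p _ p1 tr).1
        have b1 : ts τ (W ∩ (p.1 ∪ L)) ≤ ts τ (W ∩ p.1) + ts τ (W ∩ L) := by
          rw [inter_union_distrib_left]
          exact ts_union_le
        have b2 := hp (p.1 ∪ L)
        have b3 : ts τ (W ∩ (p.1 ∪ L)) ≤ K * (x * 6) := by
          rcases hs _ j with h' | h'
          · exact h'
          · dsimp only at h h'
            omega
        have b4 : p.2 = p.2 ∪ C := eq_of_subset_of_card_le subset_union_left (p3 _ ⟨j, b3⟩)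
        have b5 : a ∈ p.2 := b4 ▸ mem_union_right _ c3
        by_cases b6 : a ∈ p.1
        · exact mem_union_left _ (mem_union_left _ (mem_inter.2 ⟨huW, b6⟩))
        · exact mem_union_left _ (mem_union_right _ (mem_inter.2 ⟨huW, mem_sdiff.2 ⟨b5, b6⟩⟩))
      · have j := (hj q _ q1 tr).2
        have b1 : ts τ (W \ (q.1 ∩ L)) ≤ ts τ (W \ q.1) + ts τ (W \ L) := by
          rw [sdiff_inter_distrib_right]
          exact ts_union_le
        have b2 := hp (q.1 ∩ L)
        have b3 : ts τ (W \ (q.1 ∩ L)) ≤ K * (x * 6) := by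
          rcases hs _ j with h' | h'
          · dsimp only at h h'
            omega
          · exact h'
        have b4 : q.1 ∩ L = q.1 := eq_of_subset_of_card_le inter_subset_left (q3 _ ⟨j, b3⟩)
        exact mem_union_right _ (mem_sdiff.2 ⟨huW, fun b5 => c4 (mem_inter.1 (b4 ▸ b5)).2⟩)
    have c1 : ts τ (W.filter fun v => τ v ≠ 0) = ts τ W := sum_filter_ne_zero W
    have c2 := ts_mono (τ := τ) hcov
    have c3 := ts_union_le (τ := τ) (A := W ∩ p.1 ∪ W ∩ (p.2 \ p.1)) (B := W \ q.1)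
    have c4 := ts_union_le (τ := τ) (A := W ∩ p.1) (B := W ∩ (p.2 \ p.1))
    have c5 := hz p p1
    omega
  have e1 : (W ∩ A).card ≤ x := by simpa using t0.1.few hQ he t0.2 W
  have e2 : (W ∩ B).card ≤ x := le_trans (card_le_card (inter_subset_inter_left fun v hv =>
    mem_sdiff.2 ⟨hBX hv, fun h => (mem_sdiff.1 h).2 hv⟩)) (t1.1.few hQ he t1.2 W)
  have e3 : bo H X (A ∪ B) W = ts τ W + (W ∩ (A ∪ B)).card := by
    unfold bo out
    rw [ts_ind, cw_eq_sum]
    rfl
  have e4 : (W ∩ (A ∪ B)).card ≤ (W ∩ A).card + (W ∩ B).card := by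
    rw [inter_union_distrib_left]
    exact card_union_le _ _
  have e5 : x ≤ K * x := Nat.le_mul_of_pos_left _ hK
  have e6 : K * (x * 6) = 6 * (K * x) := by ring
  have e7 : 30 * K * x = 30 * (K * x) := by ring
  omega

end Pool.Agent.MP_35cb46_co.Ce
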