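import Pool.Agent.MP_35cb46_co.fl.CSpec

/-! PROJECT FL, the cell lemma: row ZCOL. -/

noncomputable section

namespace Pool.Agent.MP_35cb46_co.Ce

open Finset Pool.Agent.MP_7be75d_co Pool.Agent.MP_35cb46_co.Sq Pool.Agent.MP_35cb46_co.Nl
open scoped Classical

namespace CZcol

variable {κ : Type}

/-- The dyadic class of largest volume. -/
theorem dyadic (τ : κ → ℕ) (Z : Finset κ) (Λ : ℕ) (h : ∀ u ∈ Z, 1 ≤ τ u ∧ τ u < 2 ^ (Λ + 1)) :
    ∃ j, ∃ Q ⊆ Z, (∀ u ∈ Q, 2 ^ j ≤ τ u ∧ τ u < 2 ^ (j + 1)) ∧ ts τ Z ≤ (Λ + 1) * ts τ Q := by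
  obtain ⟨j, -, hj⟩ := exists_max_image (range (Λ + 1))
    (fun j => ts τ (Z.filter fun u => Nat.log 2 (τ u) = j)) ⟨0, by simp⟩
  refine ⟨j, Z.filter fun u => Nat.log 2 (τ u) = j, filter_subset _ _, fun u hu => ?_, ?_⟩
  · obtain ⟨h1, rfl⟩ := mem_filter.1 hu
    exact ⟨Nat.pow_log_le_self 2 (by have := (h u h1).1; omega),
      Nat.lt_pow_succ_log_self (by decide) _⟩
  · have h1 := sum_fiberwise_of_maps_to (s := Z) (t := range (Λ + 1))
      (g := fun u => Nat.log 2 (τ u)) (fun u hu => mem_range.2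
        (Nat.log_lt_of_lt_pow (by have := (h u hu).1; omega) (h u hu).2)) τ
    have h2 := sum_le_card_nsmul _ _ _ hj
    rw [card_range, smul_eq_mul] at h2
    exact le_trans (le_of_eq h1.symm) h2

/-- The number of points of `E` in a cluster of `Z`. -/
def form (Z : Finset (Finset κ)) (E a : Finset κ) : ℕ := if a ∈ Z then (E ∩ a).card else 0

theorem ts_card {Y : Finset (Finset κ)} (h : PD Y) (E : Finset κ) :
    ts (fun a => (E ∩ a).card) Y = (E ∩ un Y).card := by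
  rw [inter_comm, ← ts_ind, h.ts_un]
  exact sum_congr rfl fun a _ => by rw [ts_ind, inter_comm]

theorem ts_form (Z S : Finset (Finset κ)) (E : Finset κ) :
    ts (form Z E) S = ts (fun a => (E ∩ a).card) (S.filter fun a => a ∈ Z) := by
  unfold ts form
  rw [sum_filter]

theorem ts_pos (τ : κ → ℕ) (S : Finset κ) : ts τ (S.filter fun a => 1 ≤ τ a) = ts τ S := by
  unfold ts
  rw [sum_filter]
  exact sum_congr rfl fun a _ => by split_ifs with h <;> omega

end CZcol

open CZcol in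
theorem zcol (colz : ColzStmt) : ZcolStmt := by
  obtain ⟨c₀, hc⟩ := colz
  refine ⟨max c₀ 5, fun V _ G X T g A Λ PP sd K τ Z θ B x En Xi hG hV hP hZ hΛ hK hθ hB hA hg hx
    hx1 hEn hXi cEn cXi hbw => ?_⟩
  have hp0 : B ^ c₀ ≤ B ^ max c₀ 5 := Nat.pow_le_pow_right (by omega) (le_max_left _ _)
  have hp5 : B ^ 5 ≤ B ^ max c₀ 5 := Nat.pow_le_pow_right (by omega) (le_max_right _ _)
  have hpd : PD Z := fun a ha b hb e => hP.part.disj a (hZ.sub ha) b (hZ.sub hb) e
  have hle : ∀ E ⊆ En ∪ Xi, ∀ a ∈ Z, (E ∩ a).card ≤ τ := fun E hE a ha =>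
    (card_le_bo (G := G) (X := X) (T := T) inter_subset_right fun v hv =>
      (hbw v (hE (mem_inter.1 hv).1)).trans
        (bw_mono le_rfl subset_rfl subset_rfl (subset_un ha) v)).trans (hZ.le a ha)
  have htot : ∀ E ⊆ un Z, ts (form Z E) univ = E.card := fun E hE => by
    rw [ts_form, show (univ.filter fun a => a ∈ Z) = Z by ext a; simp, ts_card hpd,
      inter_eq_left.2 hE]
  have hcl : ∀ (E : Finset V) (col : Finset V → ℕ) (t : ℕ),
      ts (form Z E) (cls univ col t) = ts (fun a => (E ∩ a).card) (cls Z col t) := fun E col t => by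
    rw [ts_form]
    congr 1
    ext a
    simp only [mem_filter, mem_cls, mem_univ, true_and, and_comm]
  have hfm : ∀ E ⊆ En ∪ Xi, ∀ a, form Z E a ≤ τ := fun E hE a => by
    unfold form
    split_ifs with h
    exacts [hle E hE a h, Nat.zero_le _]
  obtain ⟨col, h1, h2, -⟩ := hc V Bool Unit G X T g A Λ PP sd K τ {Z} univ
    (fun b => form Z (cond b En Xi)) ∅ (fun _ _ _ => 0) (fun _ => ∅) 1 (θ + 1) B θ θ hG hV hP
    (fun a ha b hb e => absurd ((mem_singleton.1 ha).trans (mem_singleton.1 hb).symm) e)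
    (fun a ha => (mem_singleton.1 ha).symm ▸ hZ) hΛ hK hθ hB (by omega) (by omega) (hp0.trans hA)
    ((Nat.mul_le_mul_right _ hp0).trans hg)
    (by
      have : 4 ^ 1 ≤ 4 ^ B := Nat.pow_le_pow_right (by omega) (by omega)
      rw [card_univ, Fintype.card_bool]
      omega)
    (fun b _ a => by
      cases b
      · rw [cond_false, htot _ hXi, cXi]
        exact (Nat.mul_le_mul hp0 (hfm _ subset_union_right a)).trans hx
      · rw [cond_true, htot _ hEn, cEn]
        exact (Nat.mul_le_mul hp0 (hfm _ subset_union_left a)).trans hx)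
    ⟨le_rfl, by simp, by simp, by simp⟩
  have e1 := h2 θ (by omega) true (mem_univ _)
  rw [cond_true, htot _ hEn, cEn, hcl, ← ts_pos] at e1
  have hlt : ∀ u : Finset V, (En ∩ u).card < 2 ^ Λ := fun u => by
    have := card_le_univ (En ∩ u)
    omega
  obtain ⟨j, Q, q1, q2, q3⟩ := dyadic (fun a => (En ∩ a).card)
    ((cls Z col θ).filter fun a => 1 ≤ (En ∩ a).card) Λ fun u hu =>
      ⟨(mem_filter.1 hu).2, (hlt u).trans (Nat.pow_lt_pow_right (by omega) (by omega))⟩
  have q4 : ts (fun a => (En ∩ a).card) Q ≤ Q.card * 2 ^ (j + 1) :=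
    ts_le_card fun u hu => (q2 u hu).2.le
  have e2 : x ≤ 2 * (θ + 1) * ((Λ + 1) * (Q.card * 2 ^ (j + 1))) :=
    e1.trans (Nat.mul_le_mul_left _ (q3.trans (Nat.mul_le_mul_left _ q4)))
  have hQ : Q ⊆ cls Z col θ := q1.trans (filter_subset _ _)
  obtain ⟨u, hu⟩ : Q.Nonempty := by
    rcases Q.eq_empty_or_nonempty with rfl | hne
    · simp only [card_empty, zero_mul, mul_zero] at e2
      omega
    · exact hne
  have b2 : 4 ≤ B ^ 2 := Nat.pow_le_pow_left hB 2
  have b3 : Λ + 1 ≤ B ^ 2 := by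
    have : 2 * B ≤ B * B := Nat.mul_le_mul_right _ hB
    rw [pow_two]
    omega
  refine ⟨col, j, Q, (h1 Z (mem_singleton_self _)).up hp0, hQ,
    ((Nat.pow_lt_pow_iff_right (by omega : 1 < 2)).1 ((q2 u hu).1.trans_lt (hlt u))).le,
    (q2 u hu).1.trans (hle En subset_union_left u (cls_subset (hQ hu))), fun v hv => (q2 v hv).1,
    ?_, fun i hi => ?_⟩
  · calc x ≤ 2 * (θ + 1) * ((Λ + 1) * (Q.card * 2 ^ (j + 1))) := e2
      _ = 4 * (θ + 1) * (Λ + 1) * (Q.card * 2 ^ j) := by ring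
      _ ≤ B ^ 2 * B * B ^ 2 * (Q.card * 2 ^ j) :=
        Nat.mul_le_mul_right _ (Nat.mul_le_mul (Nat.mul_le_mul b2 hθ) b3)
      _ = B ^ 5 * (Q.card * 2 ^ j) := by ring
      _ ≤ _ := Nat.mul_le_mul_right _ hp5
  · have e3 := h2 i (by omega) false (mem_univ _)
    rw [cond_false, htot _ hXi, cXi, hcl, ts_card (hpd.mono cls_subset)] at e3
    refine e3.trans (Nat.mul_le_mul_right _ (le_trans ?_ hp5))
    calc 2 * (θ + 1) ≤ B * B := Nat.mul_le_mul hB hθ
      _ = B ^ 2 := by ring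
      _ ≤ B ^ 5 := Nat.pow_le_pow_right (by omega) (by omega)

end Pool.Agent.MP_35cb46_co.Ce
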