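import Pool.Agent.MP_35cb46_co.fl.CSpec

/-! PROJECT FL, row ZLOC: a block inside one expander. -/

noncomputable section

namespace Pool.Agent.MP_35cb46_co.Ce

open Finset Pool.Agent.MP_7be75d_co Pool.Agent.MP_35cb46_co.Sq Pool.Agent.MP_35cb46_co.Nl
open scoped Classical

namespace CZloc

theorem num_le {b a e : ℕ} (hb : 2 ≤ b) (ha : a ≤ 2 ^ e) : a ≤ b ^ e :=
  ha.trans (Nat.pow_le_pow_left hb e)

theorem k1 {b A Λ Kc : ℕ} (hb : 2 ≤ b) (hA : A ≤ b) (hΛ : Λ ≤ b) (hK : Kc ≤ b) :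
    28 * A * Λ * (Kc + 1) ≤ b ^ 9 :=
  calc 28 * A * Λ * (Kc + 1) ≤ b ^ 5 * b * b * (b * b) := by
        have h1 : 28 ≤ b ^ 5 := num_le hb (by norm_num)
        have h2 : Kc + 1 ≤ b * b := by nlinarith
        gcongr
    _ = b ^ 9 := by ring

theorem k2 {b A Λ t : ℕ} (hb : 2 ≤ b) (hA : A ≤ b) (hΛ : Λ ≤ b) (ht : t ≤ b) :
    24 * (14 * A * Λ) * t ≤ b ^ 12 :=
  calc 24 * (14 * A * Λ) * t ≤ b ^ 5 * (b ^ 4 * b * b) * b := by
        have h1 : 24 ≤ b ^ 5 := num_le hb (by norm_num)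
        have h2 : 14 ≤ b ^ 4 := num_le hb (by norm_num)
        gcongr
    _ = b ^ 12 := by ring

theorem k3 {b Kc K' t : ℕ} (hb : 2 ≤ b) (hK : Kc ≤ b) (hK' : K' ≤ b ^ 9) (ht : t ≤ b ^ 12) :
    1728 * Kc * K' * t ≤ b ^ 40 :=
  calc 1728 * Kc * K' * t ≤ b ^ 11 * b * b ^ 9 * b ^ 12 := by
        have h1 : 1728 ≤ b ^ 11 := num_le hb (by norm_num)
        gcongr
    _ = b ^ 33 := by ring
    _ ≤ b ^ 40 := Nat.pow_le_pow_right (by omega) (by norm_num)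

theorem k4 {b Kc K' θ : ℕ} (hb : 2 ≤ b) (hK : Kc ≤ b) (hK' : K' ≤ b ^ 9) (ht : θ + 1 ≤ b) :
    Kc * (600 * (θ + 1) * K' * θ) ≤ b ^ 40 :=
  calc Kc * (600 * (θ + 1) * K' * θ) ≤ b * (b ^ 10 * b * b ^ 9 * b) := by
        have h1 : 600 ≤ b ^ 10 := num_le hb (by norm_num)
        have h2 : θ ≤ b := by omega
        gcongr
    _ = b ^ 22 := by ring
    _ ≤ b ^ 40 := Nat.pow_le_pow_right (by omega) (by norm_num)

theorem k5 {b Kc K' : ℕ} (hb : 2 ≤ b) (hK : Kc ≤ b) (hK' : K' ≤ b ^ 9) :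
    Kc * (24 * K') ≤ b ^ 40 :=
  calc Kc * (24 * K') ≤ b * (b ^ 5 * b ^ 9) := by
        have h1 : 24 ≤ b ^ 5 := num_le hb (by norm_num)
        gcongr
    _ = b ^ 15 := by ring
    _ ≤ b ^ 40 := Nat.pow_le_pow_right (by omega) (by norm_num)

/-- The load of a node before the choice inside the nodes. -/
theorem exists_d1 {b A Λ Kc K' θ Bz w : ℕ} (hb : 2 ≤ b) (hA : A ≤ b) (hΛ : Λ ≤ b) (hK : Kc ≤ b)
    (hK' : K' ≤ b ^ 9) (ht : θ + 1 ≤ b) (hA1 : 1 ≤ A) (hΛ1 : 1 ≤ Λ) (hz : b ^ 40 ≤ Bz)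
    (hw : 1 ≤ w) : ∃ d₁, 1 ≤ d₁ ∧ max 1 (w / Bz) ≤ d₁ ∧ d₁ ≤ w ∧
      (d₁ = 1 ∨ 1728 * Kc * K' * d₁ ≤ w) ∧ ((max 1 (w / Bz) = 1 ∧ 1 ≤ d₁) ∨
        24 * (14 * A * Λ) * ((θ + 1) * max 1 (w / Bz)) ≤ d₁) := by
  by_cases h : w / Bz ≤ 1
  · have e : max 1 (w / Bz) = 1 := max_eq_left h
    exact ⟨1, le_rfl, e.le, hw, Or.inl rfl, Or.inl ⟨e, le_rfl⟩⟩
  have e : max 1 (w / Bz) = w / Bz := max_eq_right (by omega)
  have h1 := k2 hb hA hΛ ht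
  have h2 : Bz * (w / Bz) ≤ w := Nat.mul_div_le w Bz
  have h3 : 1 ≤ 24 * (14 * A * Λ) * (θ + 1) := Nat.succ_le_of_lt (by positivity)
  have h4 : b ^ 12 ≤ b ^ 40 := Nat.pow_le_pow_right (by omega) (by norm_num)
  rw [e]
  refine ⟨24 * (14 * A * Λ) * (θ + 1) * (w / Bz), ?_, ?_, ?_, Or.inr ?_, Or.inr ?_⟩
  · exact le_trans (by omega) (Nat.le_mul_of_pos_left _ h3)
  · exact Nat.le_mul_of_pos_left _ h3
  · exact (Nat.mul_le_mul_right _ (h1.trans (h4.trans hz))).trans h2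
  · rw [← mul_assoc]
    exact (Nat.mul_le_mul_right _ ((k3 hb hK hK' h1).trans hz)).trans h2
  · exact (mul_assoc _ _ _).ge

end CZloc

open CZloc in
theorem zloc (zcol : ZcolStmt) (zwir : ZwirStmt) (znod : ZnodStmt) : ZlocStmt := by
  obtain ⟨c, hc⟩ := zcol
  refine ⟨c + 1, 40, ?_⟩
  intro V _ G X T g A Λ PP sd K τ Z θ B b Bz x En Xi hd hV hC hZ hΛ hK hθ hB hθ1 hA hAb hz hg hx
    hx1 hEn hXi hEc hXc hbw
  have hB0 : 0 < B := by omega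
  have p1 : B ^ c ≤ B ^ (c + 1) := Nat.pow_le_pow_right hB0 (by omega)
  have p2 : B ≤ B ^ (c + 1) := Nat.le_self_pow (by omega) B
  have hb : 2 ≤ b := by omega
  have p3 : b ≤ b ^ 40 := Nat.le_self_pow (by omega) b
  have p4 : B ^ c ≤ b := by omega
  have p5 : B ^ c ≤ Bz := by omega
  have hKc : 0 < B ^ c := pow_pos hB0 c
  have hA1 : 1 ≤ A := by omega
  have hΛ1 : 1 ≤ Λ := by
    by_contra h0
    have h1 : Λ = 0 := by omega
    have h2 : En.card ≤ Fintype.card V := card_le_univ En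
    rw [h1] at hV
    omega
  obtain ⟨col, j, Nd, hcol, hNd, hj, hjτ, hI, hN, hO⟩ := hc V G X T g A Λ PP sd K τ Z θ B x En Xi
    hd hV hC hZ hΛ hK hθ hB (p1.trans hA) ((Nat.mul_le_mul_right τ p5).trans hg)
    ((Nat.mul_le_mul_right τ p5).trans hx) hx1 hEn hXi hEc hXc hbw
  refine ⟨j, hj, hjτ, ?_⟩
  have hw : 1 ≤ 2 ^ j := Nat.one_le_two_pow
  generalize 2 ^ j = w at hjτ hI hN hw ⊢
  have hK' := k1 hb hAb (by omega : Λ ≤ b) p4
  obtain ⟨d₁, e1, e2, e3, e4, e5⟩ := exists_d1 hb hAb (by omega : Λ ≤ b) p4 hK'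
    (by omega : θ + 1 ≤ b) hA1 hΛ1 hz hw
  have hBz : 0 < Bz := by omega
  have hm1 : 1 ≤ x / (Bz * w) :=
    Nat.div_pos ((Nat.mul_le_mul_left Bz hjτ).trans hx) (Nat.mul_pos hBz hw)
  have hm2 : Bz * w * (x / (Bz * w)) ≤ x := Nat.mul_div_le x _
  have hd1 : 1 ≤ max 1 (w / Bz) := le_max_left _ _
  generalize x / (Bz * w) = m at hm1 hm2 ⊢
  generalize max 1 (w / Bz) = d at e2 e5 hd1 ⊢
  have hZX : un Z ⊆ X := by
    rw [← hC.part.un]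
    exact un_mono hZ.sub
  have hNZ : ∀ u ∈ Nd, u ∈ Z := fun u hu => cls_subset (hNd hu)
  have hEn1 : ∀ u ∈ Nd, ∀ v ∈ En ∩ u, 1 ≤ bw G X T u v := fun u hu v hv =>
    (hbw v (mem_union_left _ (mem_inter.1 hv).1)).trans
      (bw_mono le_rfl subset_rfl subset_rfl (subset_un (hNZ u hu)) v)
  obtain ⟨N, hNN, hNc, Ex, O, wr, hBw⟩ := zwir V G X T g A Λ PP Z Nd col θ (B ^ c)
    (28 * A * Λ * (B ^ c + 1)) w (θ * m) (m * d) d₁ Xi hd hC hA1 hΛ1 hZ.sub hcol le_rfl hNd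
    (fun v hv => hbw v (mem_union_right _ hv))
    (fun u hu => (hI u hu).trans (card_le_bo inter_subset_right (hEn1 u hu))) hw e1
    (Nat.mul_pos hm1 hd1) e4
    (by
      have h1 : Bz * m ≤ B ^ c * Nd.card := Nat.le_of_mul_le_mul_right (c := w)
        (by nlinarith) hw
      have h2 := (k4 hb p4 hK' (by omega : θ + 1 ≤ b)).trans hz
      refine Nat.le_of_mul_le_mul_left (c := B ^ c) (le_trans ?_ h1) hKc
      exact le_trans (le_of_eq (by ring)) (Nat.mul_le_mul_right m h2))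
    (by
      rw [mul_assoc]
      exact (Nat.mul_le_mul_left m e2).trans (Nat.le_mul_of_pos_left _ hθ1))
    (fun i hi => by
      have h2 := (k5 hb p4 hK').trans hz
      refine Nat.le_of_mul_le_mul_left (c := B ^ c) (le_trans ?_ (hm2.trans (hO i hi))) hKc
      exact le_trans (le_of_eq (by ring))
        (Nat.mul_le_mul_right m (Nat.mul_le_mul h2 (e2.trans e3))))
  obtain ⟨I', Ex', hBk⟩ := znod V (Finset V) G (un Z) En Xi θ (m * d) d d₁ (14 * A * Λ) N id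
    (fun a => En ∩ a) Ex (fun i => un (cls Z col i)) O wr (fun a => bw G X T a) hd
    (Nat.succ_le_of_lt (by positivity)) hBw
    (fun a ha => ⟨hC.wl a (hZ.sub (hNZ a (hNN ha))), bw_le hd X T a, inter_subset_left,
      inter_subset_right, e3.trans (hI a (hNN ha)), hEn1 a (hNN ha), fun i hi v hv =>
        have h1 := (hBw.ex a ha i hi).2.2 v hv
        one_le_bw_adj (hZX (hBw.fy.sub i (mem_range.2 hi) h1.1))
          (fun h2 => disjoint_left.1 (hBw.uy a ha i hi) h2 h1.1) h1.2⟩) e5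
  exact hBk.blk1 hNc (Nat.mul_pos hθ1 hm1)

end Pool.Agent.MP_35cb46_co.Ce
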