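import Pool.Agent.MP_35cb46_co.fl.CSpec

/-! PROJECT FL, the cell lemma, row ZNOD: the choice inside the nodes. -/

noncomputable section

namespace Pool.Agent.MP_35cb46_co.Ce

open Finset Pool.Agent.MP_7be75d_co Pool.Agent.MP_35cb46_co.Sq Pool.Agent.MP_35cb46_co.Nl
open scoped Classical

namespace CZnod

/-- Fewer wires. -/
theorem shrink {V κ : Type} {G : SimpleGraph V} {W B : Finset V} {θ D d d₁ : ℕ} {Nd : Finset κ}
    {u : κ → Finset V} {Ex Ex' : κ → ℕ → Finset V} {Y O : ℕ → Finset V} {wr : ℕ → V → V}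
    (h : Bw G W B θ D d₁ Nd u Ex Y O wr)
    (hE : ∀ a ∈ Nd, ∀ i < θ, Ex' a i ⊆ Ex a i ∧ (Ex' a i).card = d) :
    Bw G W B θ D d Nd u Ex' Y O wr := by
  have hs : ∀ i < θ, (Nd.biUnion fun a => Ex' a i) ⊆ Nd.biUnion fun a => Ex a i := fun i hi =>
    biUnion_subset.2 fun a ha =>
      (hE a ha i hi).1.trans (subset_biUnion_of_mem (fun a => Ex a i) ha)
  exact ⟨h.fu, h.fy, h.uy, fun a ha i hi => ⟨(hE a ha i hi).1.trans (h.ex a ha i hi).1,
    (hE a ha i hi).2, fun x hx => (h.ex a ha i hi).2.2 x ((hE a ha i hi).1 hx)⟩,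
    fun i hi => (h.inj i hi).mono (coe_subset.2 (hs i hi)), h.pout,
    fun i hi => (h.lky i hi).mono le_rfl subset_rfl
      (union_subset_union_right (image_subset_image (hs i hi))),
    fun i hi => (h.ody i hi).mono_right (image_subset_image (hs i hi))⟩

end CZnod

theorem znod (aug : AugStmt) (sel : SelStmt) : ZnodStmt := by
  intro V κ _ G W A B θ D d d₁ K Nd u I Ex Y O wr τ hdeg hK hbw hN hd
  have key : ∀ a, a ∈ Nd → ∃ Z : ℕ → Finset V, (∀ i < θ, Z i ⊆ Ex a i ∧ (Z i).card = d) ∧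
      (Z θ ⊆ I a ∧ (Z θ).card = d) ∧ Lkd G (u a) (Z θ ∪ (range θ).biUnion Z) d ∧
      (1 < d → ∀ i < θ, Disjoint (Z θ) (Z i) ∧ ∀ i' < θ, i ≠ i' → Disjoint (Z i) (Z i')) := by
    intro a ha
    obtain ⟨hwl, h7, -, hIu, hIc, hI1, hE1⟩ := hN a ha
    set Gr : ℕ → Finset V := fun j => if j < θ then Ex a j else I a with hGr
    have g1 : ∀ j < θ, Gr j = Ex a j := fun j hj => if_pos hj
    have g2 : Gr θ = I a := if_neg (lt_irrefl θ)
    have g3 : ∀ j, Gr j ⊆ u a ∧ (∀ v ∈ Gr j, 1 ≤ τ a v) ∧ d₁ ≤ (Gr j).card := fun j => by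
      by_cases hj : j < θ
      · rw [g1 j hj]
        exact ⟨(hbw.ex a ha j hj).1, hE1 j hj, (hbw.ex a ha j hj).2.1.ge⟩
      · have : Gr j = I a := if_neg hj
        rw [this]
        exact ⟨hIu, hI1, hIc⟩
    rcases hd with ⟨rfl, h1⟩ | hd
    · choose Z hZ1 hZ2 using fun j => exists_subset_card_eq (h1.trans (g3 j).2.2)
      refine ⟨Z, fun i hi => ⟨g1 i hi ▸ hZ1 i, hZ2 i⟩, ⟨g2 ▸ hZ1 θ, hZ2 θ⟩,
        lkd_one (hbw.fu.conn a ha) (union_subset ((hZ1 θ).trans (g3 θ).1)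
          (biUnion_subset.2 fun j _ => (hZ1 j).trans (g3 j).1)) le_rfl,
        fun h => absurd h (lt_irrefl 1)⟩
    · have hts : ts (fun _ : ℕ => d) (range (θ + 1)) = (θ + 1) * d := by simp [ts]
      obtain ⟨Z, hZ, hZd, hZf⟩ := sel V ℕ G (u a) ∅ (τ a) K (range (θ + 1)) Gr (fun _ => d) hdeg
        hwl h7 hK (Fre.empty G _ _) fun j _ => ⟨(g3 j).1, (g3 j).2.1, by
          rw [card_empty, zero_add, hts]; exact hd.trans (g3 j).2.2⟩
      have m1 : ∀ i < θ, i ∈ range (θ + 1) := fun i hi => mem_range.2 (by omega)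
      have m2 : θ ∈ range (θ + 1) := mem_range.2 (by omega)
      refine ⟨Z, fun i hi => ⟨g1 i hi ▸ (hZ i (m1 i hi)).1, (hZ i (m1 i hi)).2.1⟩,
        ⟨g2 ▸ (hZ θ m2).1, (hZ θ m2).2.1⟩,
        (aug V G (u a) (τ a) K hdeg hwl h7 hK).1 _ (hZf.mono ?_) d,
        fun _ i hi => ⟨hZd θ m2 i (m1 i hi) hi.ne', fun i' hi' => hZd i (m1 i hi) i' (m1 i' hi')⟩⟩
      exact (union_subset (subset_biUnion_of_mem Z m2) (biUnion_subset.2 fun j hj =>
        subset_biUnion_of_mem Z (m1 j (mem_range.1 hj)))).trans subset_union_right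
  choose! Z h1 h2 h3 h4 using key
  exact ⟨fun a => Z a θ, Z, CZnod.shrink hbw h1,
    fun a ha => ⟨(h2 a ha).1.trans (hN a ha).2.2.1, (h2 a ha).2⟩, h3, h4⟩

end Pool.Agent.MP_35cb46_co.Ce
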