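import Pool.Agent.MP_35cb46_co.fl.CSpec

/-! PROJECT FL, the cell lemma: nodes, wires and exits of a block. -/

noncomputable section

namespace Pool.Agent.MP_35cb46_co.Ce

open Finset Pool.Agent.MP_7be75d_co Pool.Agent.MP_35cb46_co.Sq Pool.Agent.MP_35cb46_co.Nl
open scoped Classical

namespace CZwir

variable {V κ : Type} {G : SimpleGraph V}

/-- Disjoint sets of wires have many ends. -/
theorem hall [Fintype V] (hd : Deg G univ 6) {N : Finset κ} {Cd : κ → Finset V} {y : κ → V → V}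
    {a : ℕ} (h1 : ∀ u ∈ N, ∀ u' ∈ N, u ≠ u' → Disjoint (Cd u) (Cd u'))
    (h2 : ∀ u ∈ N, a ≤ (Cd u).card) (h3 : ∀ u ∈ N, ∀ x ∈ Cd u, G.Adj x (y u x)) :
    N.card * a ≤ 6 * (N.biUnion fun u => (Cd u).image (y u)).card := by
  calc N.card * a ≤ ∑ u ∈ N, (Cd u).card := card_le_ts h2
    _ = (N.biUnion Cd).card := (card_biUnion h1).symm
    _ ≤ ((N.biUnion fun u => (Cd u).image (y u)).biUnion fun v =>
        univ.filter fun x => G.Adj v x).card := card_le_card fun x hx => by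
      obtain ⟨u, hu, hx⟩ := mem_biUnion.1 hx
      exact mem_biUnion.2 ⟨y u x, mem_biUnion.2 ⟨u, hu, mem_image_of_mem _ hx⟩,
        mem_filter.2 ⟨mem_univ _, (h3 u hu x hx).symm⟩⟩
    _ ≤ _ := (card_biUnion_le_card_mul _ _ 6 fun v _ => hd v (mem_univ v)).trans_eq (mul_comm _ _)

theorem arith {K K' w d c : ℕ} (hw : 1 ≤ w) (h : d = 1 ∨ 1728 * K * K' * d ≤ w)
    (hc : w ≤ K * (6 * c)) : (if d = 1 then 1 else 288 * K' * d) ≤ c := by
  have h0 : 0 < K * (6 * c) := hw.trans hc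
  split_ifs with e
  · exact Nat.pos_of_ne_zero fun z => by simp [z] at h0
  · have h1 := (h.resolve_left e).trans hc
    have hK : 0 < 6 * K := Nat.pos_of_ne_zero fun z => by
      have : K = 0 := by omega
      simp [this] at h0
    refine Nat.le_of_mul_le_mul_left ?_ hK
    calc 6 * K * (288 * K' * d) = 1728 * K * K' * d := by ring
      _ ≤ K * (6 * c) := h1
      _ = _ := by ring

end CZwir

open CZwir

theorem zwir (clb : ClbStmt) (aug : AugStmt) (sel : SelStmt) (quo : QuoStmt) : ZwirStmt := by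
  intro V _ G X T g A Λ PP Z Nd col θ K K' w n D d Xi hd hc hA hΛ hZ hcol hK' hNd hXi hw h1w h1d
    h1D hdw hn hD hX
  obtain ⟨c1, c2, c3, -⟩ := clb V G X T g A Λ PP hc hA hΛ
  have pd : PD PP := hc.part.disj
  have hK1 : 1 ≤ K' := le_trans (Nat.mul_pos (Nat.mul_pos (Nat.mul_pos (by norm_num) hA) hΛ)
    (Nat.succ_pos K)) hK'
  have hP : ∀ i, cls Z col i ⊆ PP := fun i => cls_subset.trans hZ
  have hNP : Nd ⊆ PP := hNd.trans (hP θ)
  have hPX : ∀ C ∈ PP, C ⊆ X := fun C hC => hc.part.un ▸ subset_biUnion_of_mem id hC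
  have hcc : ∀ i j, ∀ C ∈ cls Z col i, ∀ v ∈ C, v ∈ un (cls Z col j) → i = j := by
    intro i j C hC v hv hv'
    obtain ⟨C', hC', hv'⟩ := mem_un.1 hv'
    rw [← (mem_cls.1 hC).2, ← (mem_cls.1 hC').2, pd.eq (hP i hC) (hP j hC') hv hv']
  obtain ⟨τ, t1, t2⟩ : ∃ τ : ℕ → V → ℕ, (∀ i v, τ i v ≤ 1) ∧ ∀ i, ∀ C ∈ cls Z col i, ∀ v ∈ C,
      (1 ≤ τ i v ↔ 1 ≤ bw G X T C v) := by
    refine ⟨fun i v => if ∃ C ∈ cls Z col i, v ∈ C ∧ 1 ≤ bw G X T C v then 1 else 0,
      fun i v => by dsimp only; split_ifs <;> simp, fun i C hC v hv => ?_⟩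
    dsimp only
    split_ifs with e
    · obtain ⟨C', h1, h2, h3⟩ := e
      exact iff_of_true le_rfl (pd.eq (hP i h1) (hP i hC) h2 hv ▸ h3)
    · exact iff_of_false (by simp) fun h => e ⟨C, hC, hv, h⟩
  have t7 : ∀ i v, τ i v ≤ 7 := fun i v => (t1 i v).trans (by norm_num)
  have wl : ∀ i < θ, WL (aw G) (un (cls Z col i)) (τ i) K' := fun i hi =>
    (c1 _ (hP i) K (hcol.wl i (by omega)) (τ i) fun C hC v hv => by
      have := t1 i v
      have := (t2 i C hC v hv).1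
      omega).up hK'
  have cn : ∀ i < θ, Conn G (un (cls Z col i)) := fun i hi => by
    obtain ⟨v, hv⟩ := card_pos.1 (lt_of_lt_of_le
      (Nat.mul_pos (Nat.mul_pos (by norm_num) hK1) h1D) (hX i hi))
    obtain ⟨C, hC, -⟩ := mem_un.1 (mem_inter.1 hv).2
    exact c2 _ (hP i) K ⟨C, hC⟩ (hcol.wl i (by omega))
  have hO : ∀ i, ∃ O : Finset V, i < θ → O ⊆ Xi ∧ O.card = D ∧
      Fre G (un (cls Z col i)) (τ i) O := fun i => by
    by_cases hi : i < θ
    · obtain ⟨Y', y1, -, y3⟩ := sel V Unit G (un (cls Z col i)) ∅ (τ i) K' {()}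
        (fun _ => Xi ∩ un (cls Z col i)) (fun _ => D) hd (wl i hi) (t7 i) hK1 (Fre.empty _ _ _)
        fun _ _ => ⟨inter_subset_right, fun v hv => by
          obtain ⟨C, hC, hv'⟩ := mem_un.1 (mem_inter.1 hv).2
          exact (t2 i C hC v hv').2 ((hXi v (mem_inter.1 hv).1).trans
            (bw_mono le_rfl subset_rfl subset_rfl (subset_un (cls_subset hC)) v)), by
          simpa [ts] using hX i hi⟩
      exact ⟨Y' (), fun _ => ⟨(y1 _ (mem_singleton_self _)).1.trans inter_subset_left,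
        (y1 _ (mem_singleton_self _)).2.1, y3.mono ((subset_biUnion_of_mem Y'
          (mem_singleton_self _)).trans subset_union_right)⟩⟩
    · exact ⟨∅, fun h => absurd h hi⟩
  choose O hO using hO
  haveI : Nonempty (V → V) := ⟨id⟩
  choose! Cd k1 y k2 k3 using fun u i (hu : u ∈ Nd) => c3 hd u (hNP hu) _ (hP i)
  obtain ⟨N, hN, cN, W', hW⟩ := quo V (Finset V) G θ K' n d (if d = 1 then 1 else 288 * K' * d)
    (fun i => un (cls Z col i)) O τ Nd (fun u i => (Cd u i).image (y u i)) hd hK1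
    (by split_ifs; exacts [le_rfl, Nat.mul_pos (Nat.mul_pos (by norm_num) hK1) h1d]) h1d
    (fun i hi => ⟨wl i hi, t7 i, (hO i hi).2.2, (hO i hi).2.1.trans_le hD, fun u hu =>
      ⟨fun v hv => by
        obtain ⟨x, hx, rfl⟩ := mem_image.1 hv
        exact un_mono (erase_subset _ _) (k2 u i hu x hx).1, fun v hv => by
        obtain ⟨x, hx, rfl⟩ := mem_image.1 hv
        obtain ⟨C, hC, hv⟩ := mem_un.1 (k2 u i hu x hx).1
        obtain ⟨e, hC⟩ := mem_erase.1 hC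
        exact (t2 i C hC _ hv).2 (one_le_bw_adj (hPX u (hNP hu) (k1 u i hu hx))
          (fun h => e (pd.eq (hP i hC) (hNP hu) h (k1 u i hu hx))) (k2 u i hu x hx).2.symm)⟩,
      fun N hN => hall hd (fun u hu u' hu' e => (pd u (hNP (hN hu)) u' (hNP (hN hu')) e).mono
        (k1 u i (hN hu)) (k1 u' i (hN hu'))) (fun u hu => arith h1w hdw ((hw u (hN hu)).trans
          ((hcol.deg i (by omega) u (cls_subset (hNd (hN hu)))).trans
            (Nat.mul_le_mul_left _ (k3 u i (hN hu)))))) fun u hu x hx => (k2 u i (hN hu) x hx).2⟩)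
    (by
      split_ifs with e
      · simp [e]
      · exact Nat.mul_le_mul_left _ (Nat.sub_le _ _)) hn
  have hs : ∀ u i v, ∃ x, i < θ → u ∈ N → v ∈ W' u i → x ∈ Cd u i ∧ y u i x = v := fun u i v => by
    by_cases h : i < θ ∧ u ∈ N ∧ v ∈ W' u i
    · obtain ⟨x, hx, e⟩ := mem_image.1 (((hW i h.1).1 u h.2.1).1 h.2.2)
      exact ⟨x, fun _ _ _ => ⟨hx, e⟩⟩
    · exact ⟨v, fun a b c => absurd ⟨a, b, c⟩ h⟩
  choose s hs using hs
  have ho : ∀ x : V, ∃ u', ∀ u ∈ N, x ∈ u → u' = u := fun x => by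
    by_cases h : ∃ u ∈ N, x ∈ u
    · obtain ⟨u', h1, h2⟩ := h
      exact ⟨u', fun u hu hx => pd.eq (hNP (hN h1)) (hNP (hN hu)) h2 hx⟩
    · exact ⟨∅, fun u hu hx => absurd ⟨u, hu, hx⟩ h⟩
  choose own ho using ho
  have hwr : ∀ i < θ, ∀ u ∈ N, ∀ v ∈ W' u i, y (own (s u i v)) i (s u i v) = v :=
    fun i hi u hu v hv => by
      rw [ho _ u hu (k1 u i (hN hu) (hs u i v hi hu hv).1), (hs u i v hi hu hv).2]
  have him : ∀ i < θ, (N.biUnion fun u => (W' u i).image (s u i)).image (fun x => y (own x) i x) ⊆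
      N.biUnion fun u => W' u i := fun i hi => image_subset_iff.2 fun x hx => by
    obtain ⟨u, hu, hx⟩ := mem_biUnion.1 hx
    obtain ⟨v, hv, rfl⟩ := mem_image.1 hx
    exact mem_biUnion.2 ⟨u, hu, (hwr i hi u hu v hv).symm ▸ hv⟩
  refine ⟨N, hN, cN, fun u i => (W' u i).image (s u i), O, fun i x => y (own x) i x,
    ⟨fun u hu => subset_un (cls_subset (hNd (hN hu))), fun u hu => hc.part.conn u (hNP (hN hu)),
      fun u hu u' hu' => pd u (hNP (hN hu)) u' (hNP (hN hu'))⟩,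
    ⟨fun i _ => un_mono cls_subset, fun i hi => cn i (mem_range.1 hi), fun i _ j _ e =>
      disjoint_left.2 fun v hv hv' => ?_⟩,
    fun u hu i hi => disjoint_left.2 fun v hv hv' => hi.ne' (hcc θ i u (hNd (hN hu)) v hv hv'),
    fun u hu i hi => ⟨fun x hx => ?_, ?_, fun x hx => ?_⟩, fun i hi x hx x' hx' e => ?_,
    fun i hi => ⟨(hO i hi).1, (hO i hi).2.1⟩, fun i hi =>
      ((aug V G _ (τ i) K' hd (wl i hi) (t7 i) hK1).1 _ (hW i hi).2.2).mono le_rfl subset_rfl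
        (union_subset_union_right (him i hi)),
    fun i hi => Disjoint.mono_right (him i hi) ((disjoint_biUnion_right _ _ _).2 fun u hu =>
      ((hW i hi).1 u hu).2.2.symm)⟩
  · obtain ⟨C, hC, hv⟩ := mem_un.1 hv
    exact e (hcc i j C hC v hv hv')
  · obtain ⟨v, hv, rfl⟩ := mem_image.1 hx
    exact k1 u i (hN hu) (hs u i v hi hu hv).1
  · rw [card_image_of_injOn fun v hv v' hv' e => by
      rw [← (hs u i v hi hu hv).2, ← (hs u i v' hi hu hv').2, e]]
    exact ((hW i hi).1 u hu).2.1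
  · obtain ⟨v, hv, rfl⟩ := mem_image.1 hx
    have h1 := hs u i v hi hu hv
    have h2 := k2 u i (hN hu) _ h1.1
    rw [ho _ u hu (k1 u i (hN hu) h1.1)]
    exact ⟨un_mono (erase_subset _ _) h2.1, h2.2⟩
  · obtain ⟨u, hu, hx⟩ := mem_biUnion.1 (mem_coe.1 hx)
    obtain ⟨u', hu', hx'⟩ := mem_biUnion.1 (mem_coe.1 hx')
    obtain ⟨v, hv, rfl⟩ := mem_image.1 hx
    obtain ⟨v', hv', rfl⟩ := mem_image.1 hx'
    obtain rfl : v = v' := (hwr i hi u hu v hv).symm.trans (e.trans (hwr i hi u' hu' v' hv'))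
    obtain rfl : u = u' := by
      by_contra ne
      exact disjoint_left.1 ((hW i hi).2.1 u hu u' hu' ne) hv hv'
    rfl

end Pool.Agent.MP_35cb46_co.Ce
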