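import Pool.Agent.MP_35cb46_co.nl.Main
import Pool.Agent.MP_35cb46_co.fl.CAct
import Pool.Agent.MP_35cb46_co.fl.CAug
import Pool.Agent.MP_35cb46_co.fl.CBlk
import Pool.Agent.MP_35cb46_co.fl.CCell
import Pool.Agent.MP_35cb46_co.fl.CCell0
import Pool.Agent.MP_35cb46_co.fl.CClu
import Pool.Agent.MP_35cb46_co.fl.CDcp
import Pool.Agent.MP_35cb46_co.fl.CDrop
import Pool.Agent.MP_35cb46_co.fl.CExt
import Pool.Agent.MP_35cb46_co.fl.CFb
import Pool.Agent.MP_35cb46_co.fl.CFin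
import Pool.Agent.MP_35cb46_co.fl.CGen
import Pool.Agent.MP_35cb46_co.fl.CHit
import Pool.Agent.MP_35cb46_co.fl.CHubr
import Pool.Agent.MP_35cb46_co.fl.CJoin
import Pool.Agent.MP_35cb46_co.fl.CMany
import Pool.Agent.MP_35cb46_co.fl.CQuo
import Pool.Agent.MP_35cb46_co.fl.CRnd
import Pool.Agent.MP_35cb46_co.fl.CStep
import Pool.Agent.MP_35cb46_co.fl.CStg
import Pool.Agent.MP_35cb46_co.fl.CUpd
import Pool.Agent.MP_35cb46_co.fl.CUse
import Pool.Agent.MP_35cb46_co.fl.CWin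
import Pool.Agent.MP_35cb46_co.fl.CZcol
import Pool.Agent.MP_35cb46_co.fl.CZloc
import Pool.Agent.MP_35cb46_co.fl.CZnod
import Pool.Agent.MP_35cb46_co.fl.CZwir

/-! PROJECT FL: the rows of the cell lemma put together. -/

namespace Pool.Agent.MP_35cb46_co.Ce

theorem cell0_all : Cell0Stmt :=
  have hclb := Nl.clb (Nl.comp Nl.round)
  have hcolz := Nl.colz hclb (Nl.col Nl.cheeg Nl.mc Nl.cher Nl.fib)
  have hsel := sel aug
  have hext2 := ext2 ext1
  cell0 Sq.cm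
    (dcp clu2 (blk hclb (Nl.expf Nl.dec)) act (asm hit) hext2 aug hsel
      (zloc (zcol hcolz) (zwir hclb aug hsel (quo aug)) (znod aug hsel)))
    init (step (rnd (gen (drop use))) (win (ext3 hext2)) (upd join)) fin

end Pool.Agent.MP_35cb46_co.Ce

namespace Pool.Agent.MP_35cb46_co.Fl

/-- The cell lemma. -/
theorem cell : CellStmt := Ce.cellOf Ce.cell0_all Ce.fb Ce.stg Ce.hubr

end Pool.Agent.MP_35cb46_co.Fl
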