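import Pool.Agent.MP_35cb46_co.nl.DoneA
import Pool.Agent.MP_35cb46_co.fl.ISpec

/-! PROJECT FL, the cell lemma: definitions, statements of the rows and small lemmas. -/

noncomputable section

namespace Pool.Agent.MP_35cb46_co.Ce

open Finset Pool.Agent.MP_7be75d_co Pool.Agent.MP_35cb46_co.Sq Pool.Agent.MP_35cb46_co.Nl
open scoped Classical

section Defs

variable {V ι κ : Type}

/-- Lanes: disjoint connected subsets of `X` with two marked points. -/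
structure Lns (G : SimpleGraph V) (X : Finset V) (I : Finset ι) (s e : ι → V)
    (Q : ι → Finset V) : Prop where
  fam : Fam G X I Q
  st : ∀ k ∈ I, s k ∈ Q k
  en : ∀ k ∈ I, e k ∈ Q k

/-- All points of `A` are linked into `B` by disjoint lanes. -/
def Lnk (G : SimpleGraph V) (X A B : Finset V) : Prop :=
  ∃ (e : V → V) (Q : V → Finset V), Lns G X A id e Q ∧ ∀ a ∈ A, e a ∈ B

/-- Sets of at most `d` terminals are linked to sets that are not smaller. -/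
def Lkd (G : SimpleGraph V) (X T : Finset V) (d : ℕ) : Prop :=
  T ⊆ X ∧ ∀ A ⊆ T, ∀ B ⊆ T, A.card ≤ B.card → A.card ≤ d → Lnk G X A B

/-- Perfectly linked terminals. -/
def Lka (G : SimpleGraph V) (X T : Finset V) : Prop := ∀ d, Lkd G X T d

/-- Free sets: no small side of a vertex separation holds more points than the separator. -/
def Fre (G : SimpleGraph V) (X : Finset V) (τ : V → ℕ) (F : Finset V) : Prop :=
  F ⊆ X ∧ ∀ S ⊆ X, ∀ Z : Finset V, Disjoint S Z → (∀ x ∈ S, ∀ y ∈ X, G.Adj x y → y ∈ S ∪ Z) →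
    2 * ts τ S ≤ ts τ X → (F ∩ (S ∪ Z)).card ≤ Z.card

/-- Strands that hang on `X` at the points of `T` and lead to `f v`. -/
structure Str (G : SimpleGraph V) (X T : Finset V) (f : V → V) (Q : V → Finset V) : Prop where
  conn : ∀ v ∈ T, Conn G (Q v) ∧ Q v ∩ X = {v} ∧ f v ∈ Q v
  disj : ∀ v ∈ T, ∀ v' ∈ T, v ≠ v' → Disjoint (Q v) (Q v')

/-- One cell with `D` ports in `A` and `D` ports in `B`. -/
def Cel1 (G : SimpleGraph V) (D : ℕ) (W A B : Finset V) : Prop :=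
  Conn G W ∧ ∃ I ⊆ A, ∃ O ⊆ B, I.card = D ∧ O.card = D ∧ Disjoint I O ∧ Lka G W (I ∪ O)

/-- Nodes `u a` with `d` wires to each of the `θ` cells `Y i`; the cells have `D` ports in `B`. -/
structure Bw (G : SimpleGraph V) (W B : Finset V) (θ D d : ℕ) (Nd : Finset κ) (u : κ → Finset V)
    (Ex : κ → ℕ → Finset V) (Y O : ℕ → Finset V) (wr : ℕ → V → V) : Prop where
  fu : Fam G W Nd u
  fy : Fam G W (range θ) Y
  uy : ∀ a ∈ Nd, ∀ i < θ, Disjoint (u a) (Y i)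
  ex : ∀ a ∈ Nd, ∀ i < θ, Ex a i ⊆ u a ∧ (Ex a i).card = d ∧
    ∀ x ∈ Ex a i, wr i x ∈ Y i ∧ G.Adj x (wr i x)
  inj : ∀ i < θ, Set.InjOn (wr i) (Nd.biUnion fun a => Ex a i)
  pout : ∀ i < θ, O i ⊆ B ∧ (O i).card = D
  lky : ∀ i < θ, Lka G (Y i) (O i ∪ (Nd.biUnion fun a => Ex a i).image (wr i))
  ody : ∀ i < θ, Disjoint (O i) ((Nd.biUnion fun a => Ex a i).image (wr i))

/-- A block: every node has `d` ports in `A` and can send them to any cell. -/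
structure Bk (G : SimpleGraph V) (W A B : Finset V) (θ D d : ℕ) (Nd : Finset κ)
    (u I : κ → Finset V) (Ex : κ → ℕ → Finset V) (Y O : ℕ → Finset V) (wr : ℕ → V → V) :
    Prop where
  bw : Bw G W B θ D d Nd u Ex Y O wr
  pin : ∀ a ∈ Nd, I a ⊆ A ∧ (I a).card = d
  lku : ∀ a ∈ Nd, Lkd G (u a) (I a ∪ (range θ).biUnion (Ex a)) d
  dis : ∀ a ∈ Nd, 1 < d → ∀ i < θ, Disjoint (I a) (Ex a i) ∧
    ∀ i' < θ, i ≠ i' → Disjoint (Ex a i) (Ex a i')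

/-- One block with `θ * m` nodes of load `d` and `θ` cells of load `m * d`. -/
def Blk1 (G : SimpleGraph V) (θ m d : ℕ) (W A B : Finset V) : Prop :=
  ∃ (u I : ℕ → Finset V) (Ex : ℕ → ℕ → Finset V) (Y O : ℕ → Finset V) (wr : ℕ → V → V),
    Bk G W A B θ (m * d) d (range (θ * m)) u I Ex Y O wr

/-- The property survives the extension of the ports along strands. -/
def Exb (G : SimpleGraph V) (Ψ : Finset V → Finset V → Finset V → Prop) : Prop :=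
  ∀ (W A B A' B' T : Finset V) (f : V → V) (Q : V → Finset V), Ψ W A B → Str G W T f Q →
    (∀ v ∈ A, v ∈ W → v ∈ T ∧ f v ∈ A') → (∀ v ∈ B, v ∈ W → v ∈ T ∧ f v ∈ B') →
    Ψ (W ∪ T.biUnion Q) A' B'

/-- `N` disjoint subsets of `X` with a property. -/
def Many (X : Finset V) (N : ℕ) (Ψ : Finset V → Prop) : Prop :=
  ∃ J : Finset (Finset V), PD J ∧ J.card = N ∧ ∀ W ∈ J, W ⊆ X ∧ W.Nonempty ∧ Ψ W

/-- The outcome at scale `y`: many cells or many blocks, of total load at least `n / P`. -/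
def Outc (G : SimpleGraph V) (θ y n P M : ℕ) (X A B : Finset V) : Prop := ∃ N : ℕ,
  (∃ D, Many X N (fun W => Cel1 G D W A B) ∧ D ≤ y ∧ y ≤ P * M * D ∧ n ≤ P * (N * D)) ∨
  ∃ m d, Many X N (fun W => Blk1 G θ m d W A B) ∧ 1 ≤ d ∧ M * d ≤ y ∧ y ≤ P * (m * d) ∧
    n ≤ P * (N * (m * d))

/-- There is a partition of `X` with boundaries at most `y` and volume at most `v`. -/
def Adm (G : SimpleGraph V) (X T : Finset V) (y v : ℕ) : Prop :=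
  ∃ QQ, PD QQ ∧ un QQ = X ∧ (∀ C ∈ QQ, bo G X T C ≤ y) ∧ ts (bo G X T) QQ ≤ v

/-- Blocks `D` with thresholds `lam` and a sparse rest `Y` of small clusters. -/
structure Dcp (G : SimpleGraph V) (X T : Finset V) (y Kd K v : ℕ) (D Y : Finset (Finset V))
    (lam : Finset V → ℕ) : Prop where
  pd : PD (D ∪ Y)
  dy : Disjoint D Y
  un : un (D ∪ Y) = X
  wl : ∀ W ∈ D, WL (aw G) W (bw G X T W) K
  sm : ∀ C ∈ Y, bo G X T C ≤ y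
  yy : Kd * cw (ew G) Y Y ≤ v
  l1 : ∀ W ∈ D, 120 * K * lam W ≤ y
  l2 : 120 * K * Kd * ts lam D ≤ v

/-- Every family of lanes wins, or few lanes meet each block after dropping `δ` lanes. -/
def Hnd (G : SimpleGraph V) (X T : Finset V) (D : Finset (Finset V)) (lam : Finset V → ℕ) (δ : ℕ)
    (Φ : Finset V → Finset V → Prop) : Prop :=
  ∀ (ι : Type) (I : Finset ι) (s e : ι → V) (Q : ι → Finset V), Lns G X I s e Q →
    (∀ k ∈ I, s k ∈ T ∧ e k ∈ T) → Φ (I.image s) (I.image e) ∨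
      ∃ I' ⊆ I, I.card ≤ I'.card + δ ∧
        ∀ W ∈ D, (I'.filter fun k => ¬ Disjoint (Q k) W).card ≤ lam W

/-- Every subgraph with an admissible partition can be decomposed. -/
def Orc (G : SimpleGraph V) (y Kd K δ : ℕ) (Amb : Finset V) (Φ : Finset V → Finset V → Prop) :
    Prop :=
  ∀ H ≤ G, ∀ X ⊆ Amb, ∀ T ⊆ X, ∀ v, Adm H X T y v → ∃ X' ⊆ X, T ⊆ X' ∧
    (∀ a ∈ X', ∀ b ∈ X, H.Adj a b → b ∈ X') ∧
    ∃ D Y lam, Dcp H X' T y Kd K (2 * v) D Y lam ∧ Hnd H X' T D lam δ Φ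

/-- Two linkages in the same graph. -/
structure Dm (G : SimpleGraph V) (X A₀ B₀ A₁ B₁ : Finset V) : Prop where
  sub : A₀ ∪ B₀ ∪ A₁ ∪ B₁ ⊆ X
  c₀ : A₀.card = B₀.card
  c₁ : A₁.card = B₁.card
  l₀ : Lnk G X A₀ B₀
  l₁ : Lnk G X A₁ B₁

/-- One of the demands wins, or both survive up to `l` lanes in a subgraph of volume `v`. -/
def Res (G : SimpleGraph V) (X A₀ B₀ A₁ B₁ : Finset V) (y l v : ℕ)
    (Φ : Finset V → Finset V → Prop) : Prop :=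
  (∃ A ⊆ A₀, ∃ B ⊆ B₀, Φ A B) ∨ (∃ A ⊆ A₁, ∃ B ⊆ B₁, Φ A B) ∨
    ∃ H ≤ G, ∃ X' ⊆ X, ∃ A₀' ⊆ A₀, ∃ B₀' ⊆ B₀, ∃ A₁' ⊆ A₁, ∃ B₁' ⊆ B₁,
      Dm H X' A₀' B₀' A₁' B₁' ∧ A₀.card ≤ A₀'.card + l ∧ A₁.card ≤ A₁'.card + l ∧
      Adm H X' (A₀' ∪ B₀' ∪ A₁' ∪ B₁') y v

/-- Routers in series. Ports of kind `0` and `1` face the neighbours, ports of kind `2` and `3`
are the ports of the outcome. -/
structure Rts [Fintype ι] (G : SimpleGraph V) (r : ℕ) (R : ℕ → Finset V)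
    (p : ℕ → Fin 4 → ι → V) : Prop where
  disj : ∀ i ≤ r + 1, ∀ j ≤ r + 1, i ≠ j → Disjoint (R i) (R j)
  inj : ∀ i ≤ r + 1, ∀ c k c' k', p i c k = p i c' k' → c = c' ∧ k = k'
  lk : ∀ i ≤ r + 1, Lka G (R i) (univ.image fun q : Fin 4 × ι => p i q.1 q.2)
  wire : ∀ i ≤ r, ∀ k, G.Adj (p i 1 k) (p (i + 1) 0 k)

/-- All ports of kind `c`. -/
def prt [Fintype ι] (r : ℕ) (p : ℕ → Fin 4 → ι → V) (c : Fin 4) : Finset V :=
  (range (r + 2)).biUnion fun i => univ.image (p i c)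

/-- The start of a token. -/
def sta (p : ℕ → Fin 4 → ι → V) (ty : Finset ι) (u : ι) : V :=
  if u ∈ ty then p 0 2 u else p 0 3 u

/-- The state of the game after `t` rounds. -/
structure GS [Fintype ι] (G : SimpleGraph V) (R : ℕ → Finset V) (p : ℕ → Fin 4 → ι → V)
    (ty : Finset ι) (y l t : ℕ) (M : ℕ → ι → ι) (H : SimpleGraph V) (X : Finset V)
    (Al : Finset ι) (σ : ι → ι) (L : ι → Finset V) (Pj : ℕ → Finset ι) (W : ℕ → ι → Finset V) :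
    Prop where
  le : H ≤ G
  sub : X ⊆ (range (t + 1)).biUnion R
  fam : Fam H X univ L
  st : ∀ u, sta p ty u ∈ L u
  hd : ∀ u ∈ Al, p t 1 (σ u) ∈ L u
  al : Fintype.card ι ≤ Al.card + t * l
  adm : Adm H X (univ.image (sta p ty) ∪ Al.image fun u => p t 1 (σ u)) y
    (4 * (t + 1) * Fintype.card ι)
  blue : ∀ j < t, Lns H X (Pj j) (sta p ty) (fun u => sta p ty (M j u)) (W j)
  typ : ∀ j < t, ∀ u ∈ Pj j, u ∈ ty ∧ M j u ∉ ty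
  cov : ∀ j < t, ∀ u, M j (M j u) = u ∧ (M j u ≠ u → u ∈ Pj j ∨ M j u ∈ Pj j)

/-- Some state exists. -/
def St [Fintype ι] (G : SimpleGraph V) (R : ℕ → Finset V) (p : ℕ → Fin 4 → ι → V)
    (ty : Finset ι) (y l t : ℕ) (M : ℕ → ι → ι) : Prop :=
  ∃ H X Al σ L Pj W, GS G R p ty y l t M H X Al σ L Pj W

/-- A flexible block: the entries of every node go to a cell of our choice. -/
def Fb (G : SimpleGraph V) (θ m d : ℕ) (W A B : Finset V) : Prop :=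
  ∃ I O : ℕ → Finset V, (∀ a < θ * m, I a ⊆ A ∧ (I a).card = d) ∧
    (∀ a < θ * m, ∀ a' < θ * m, a ≠ a' → Disjoint (I a) (I a')) ∧
    (∀ i < θ, O i ⊆ B ∧ (O i).card = m * d) ∧
    ∀ as : ℕ → ℕ, (∀ a < θ * m, as a < θ) → ∃ C, Fl.Lay G W (range θ) C
      (fun i => ((range (θ * m)).filter fun a => as a = i).biUnion I) O

end Defs

/-! ### Free sets and extensions -/

/-- Row AUG. -/
def AugStmt : Prop := ∀ (V : Type) [Fintype V] (G : SimpleGraph V) (X : Finset V) (τ : V → ℕ)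
  (K : ℕ), Deg G univ 6 → WL (aw G) X τ K → (∀ v, τ v ≤ 7) → 1 ≤ K →
  (∀ F, Fre G X τ F → Lka G X F) ∧
    ∀ F Y, Fre G X τ F → Y ⊆ X → 24 * K * F.card < ts τ Y →
      ∃ v ∈ Y, v ∉ F ∧ Fre G X τ (insert v F)

/-- Row QUO: a free choice from large groups. -/
def SelStmt : Prop := ∀ (V κ : Type) [Fintype V] (G : SimpleGraph V) (X F : Finset V) (τ : V → ℕ)
  (K : ℕ) (J : Finset κ) (Y : κ → Finset V) (d : κ → ℕ), Deg G univ 6 → WL (aw G) X τ K →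
  (∀ v, τ v ≤ 7) → 1 ≤ K → Fre G X τ F →
  (∀ j ∈ J, Y j ⊆ X ∧ (∀ v ∈ Y j, 1 ≤ τ v) ∧ 24 * K * (F.card + ts d J) ≤ (Y j).card) →
  ∃ Y' : κ → Finset V, (∀ j ∈ J, Y' j ⊆ Y j ∧ (Y' j).card = d j ∧ Disjoint (Y' j) F) ∧
    (∀ j ∈ J, ∀ j' ∈ J, j ≠ j' → Disjoint (Y' j) (Y' j')) ∧ Fre G X τ (F ∪ J.biUnion Y')

/-- Row QUO: `n` nodes get `d` free points in every class. -/
def QuoStmt : Prop := ∀ (V κ : Type) [Fintype V] (G : SimpleGraph V) (θ K n d a : ℕ)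
  (Y O : ℕ → Finset V) (τ : ℕ → V → ℕ) (Nd : Finset κ) (W : κ → ℕ → Finset V), Deg G univ 6 →
  1 ≤ K → 1 ≤ a → 1 ≤ d →
  (∀ i < θ, WL (aw G) (Y i) (τ i) K ∧ (∀ v, τ i v ≤ 7) ∧ Fre G (Y i) (τ i) (O i) ∧
    (O i).card ≤ n * d ∧ (∀ u ∈ Nd, W u i ⊆ Y i ∧ ∀ v ∈ W u i, 1 ≤ τ i v) ∧
    ∀ N ⊆ Nd, N.card * a ≤ 6 * (N.biUnion fun u => W u i).card) →
  288 * K * (d - 1) ≤ a → 600 * (θ + 1) * K * n ≤ Nd.card →
  ∃ N ⊆ Nd, N.card = n ∧ ∃ W' : κ → ℕ → Finset V, ∀ i < θ,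
    (∀ u ∈ N, W' u i ⊆ W u i ∧ (W' u i).card = d ∧ Disjoint (W' u i) (O i)) ∧
    (∀ u ∈ N, ∀ u' ∈ N, u ≠ u' → Disjoint (W' u i) (W' u' i)) ∧
    Fre G (Y i) (τ i) (O i ∪ N.biUnion fun u => W' u i)

/-- Row EXT. -/
def Ext1Stmt : Prop := ∀ (V : Type) (G : SimpleGraph V) (X T₁ T₂ : Finset V) (f : V → V)
  (Q : V → Finset V) (d : ℕ), Str G X T₁ f Q →
  (Conn G X → Conn G (X ∪ T₁.biUnion Q)) ∧
    (Disjoint T₁ T₂ → Lkd G X (T₁ ∪ T₂) d → Lkd G (X ∪ T₁.biUnion Q) (T₁.image f ∪ T₂) d)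

/-- Row EXT. -/
def Ext2Stmt : Prop := ∀ (V : Type) (G : SimpleGraph V),
  (∀ D, Exb G (Cel1 G D)) ∧ ∀ θ m d, Exb G (Blk1 G θ m d)

/-- Row MANY: the outcome survives the extension of the ports. -/
def Ext3Stmt : Prop := ∀ (V : Type) (G : SimpleGraph V) (θ y n P M : ℕ)
  (X X' A A' B B' T : Finset V) (f : V → V) (Q : V → Finset V), Outc G θ y n P M X A B →
  Str G X T f Q → (∀ v ∈ A, v ∈ T ∧ f v ∈ A') → (∀ v ∈ B, v ∈ T ∧ f v ∈ B') → X ⊆ X' →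
  (∀ v ∈ T, Q v ⊆ X') → Outc G θ y n P M X' A' B'

/-- Row HIT: first hits from both ends, on different lanes. -/
def HitStmt : Prop := ∀ (V ι : Type) (G : SimpleGraph V) (X T W : Finset V) (L : Finset ι)
  (s e : ι → V) (Q : ι → Finset V) (x : ℕ), W ⊆ X → Lns G X L s e Q →
  (∀ k ∈ L, s k ∈ T ∧ e k ∈ T) → (∀ k ∈ L, ¬ Disjoint (Q k) W) → 2 * x ≤ L.card →
  ∃ (En Xi : Finset V) (f : V → V) (Q' : V → Finset V), En ⊆ W ∧ Xi ⊆ W ∧ Disjoint En Xi ∧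
    En.card = x ∧ Xi.card = x ∧ (∀ v ∈ En ∪ Xi, 1 ≤ bw G X T W v ∧ Q' v ⊆ L.biUnion Q) ∧
    Str G W (En ∪ Xi) f Q' ∧ (∀ v ∈ En, f v ∈ L.image s) ∧ ∀ v ∈ Xi, f v ∈ L.image e

/-- Row MANY: local objects in the active blocks are put together. -/
def AsmStmt : Prop := ∀ (V ι κ : Type) (G : SimpleGraph V) (X T : Finset V) (I : Finset ι)
  (s e : ι → V) (Q : ι → Finset V) (J : Finset (Finset V)) (L : Finset V → Finset ι) (x : ℕ)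
  (Rg : Finset κ) (Ψ : κ → Finset V → Finset V → Finset V → Prop), Lns G X I s e Q →
  (∀ k ∈ I, s k ∈ T ∧ e k ∈ T) → PD J → J.Nonempty → 1 ≤ x →
  (∀ W ∈ J, W ⊆ X ∧ L W ⊆ I ∧ 2 * x ≤ (L W).card ∧
    ∀ k ∈ L W, ¬ Disjoint (Q k) W ∧ ∀ W' ∈ J, W' ≠ W → Disjoint (Q k) W') →
  (∀ ρ ∈ Rg, Exb G (Ψ ρ)) →
  (∀ W ∈ J, ∀ En ⊆ W, ∀ Xi ⊆ W, Disjoint En Xi → En.card = x → Xi.card = x →
    (∀ v ∈ En ∪ Xi, 1 ≤ bw G X T W v) → ∃ ρ ∈ Rg, Ψ ρ W En Xi) →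
  ∃ ρ ∈ Rg, ∃ N, 1 ≤ N ∧ J.card ≤ Rg.card * N ∧
    Many X N fun W => Ψ ρ W (I.image s) (I.image e)

/-! ### Decomposition -/

/-- Row CLU2. -/
def Clu2Stmt : Prop := ∀ (V : Type) [Fintype V] (G : SimpleGraph V) (X T : Finset V)
  (g A Λ v : ℕ), Deg G univ 6 → T ⊆ X → 7 ≤ g → g < 2 ^ Λ → 1 ≤ A → Adm G X T g v →
  ∃ X' ⊆ X, T ⊆ X' ∧ (∀ a ∈ X', ∀ b ∈ X, G.Adj a b → b ∈ X') ∧
    ∃ PP, Clu G X' T g A Λ PP ∧ ts (bo G X' T) PP ≤ 2 * v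

/-- Row BLK. -/
def BlkStmt : Prop := ∀ (V : Type) [Fintype V] (G : SimpleGraph V) (X T : Finset V)
  (y A Λ Kd τ K lS lZ v : ℕ) (PP : Finset (Finset V)), Deg G univ 6 →
  6 * Fintype.card V < 2 ^ Λ → Clu G X T y A Λ PP → 1 ≤ Λ → 1 ≤ Kd → 4 * Kd * (Λ + 1) < A →
  2 * τ ≤ y → 28 * A * Λ * (4 * Kd * (Λ + 1) + 1) ≤ K → 120 * K * Kd * lS ≤ τ →
  120 * K * Kd * lZ ≤ y → ts (bo G X T) PP ≤ v →
  ∃ (Sat Y : Finset (Finset V)) (ZZ : Finset (Finset (Finset V))) (sd : Finset V → Bool)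
    (lam : Finset V → ℕ), Dcp G X T y Kd K v (Sat ∪ ZZ.image un) Y lam ∧
    (∀ W ∈ Sat, W ∈ PP ∧ lam W = lS) ∧
    ∀ Z ∈ ZZ, ZOk G X T PP sd (4 * Kd * (Λ + 1)) τ Z ∧ lam (un Z) = lZ

/-- Row ACT: greedy assignment by dyadic phases and activation. -/
def ActStmt : Prop := ∀ (ι κ : Type) (I : Finset ι) (J : Finset κ) (mt : ι → κ → Prop)
  (lam : κ → ℕ) (δ Λ : ℕ), I.card < 2 ^ Λ →
  (∃ I' ⊆ I, I.card ≤ I'.card + δ ∧ ∀ j ∈ J, (I'.filter fun k => mt k j).card ≤ lam j) ∨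
    ∃ J' ⊆ J, ∃ (x : ℕ) (L : κ → Finset ι), δ < 512 * Λ * (J'.card * x) ∧
      ∀ j ∈ J', L j ⊆ I ∧ (L j).card = x ∧ lam j ≤ 32 * x ∧
        ∀ k ∈ L j, mt k j ∧ ∀ j' ∈ J', j' ≠ j → ¬ mt k j'

/-- Row ZCOL. -/
def ZcolStmt : Prop := ∃ c : ℕ, ∀ (V : Type) [Fintype V] (G : SimpleGraph V) (X T : Finset V)
  (g A Λ : ℕ) (PP : Finset (Finset V)) (sd : Finset V → Bool) (K τ : ℕ) (Z : Finset (Finset V))
  (θ B x : ℕ) (En Xi : Finset V), Deg G univ 6 → 6 * Fintype.card V < 2 ^ Λ →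
  Clu G X T g A Λ PP → ZOk G X T PP sd K τ Z → Λ ≤ B → K ≤ B → θ + 1 ≤ B → 2 ≤ B → B ^ c ≤ A →
  B ^ c * τ ≤ g → B ^ c * τ ≤ x → 1 ≤ x → En ⊆ un Z → Xi ⊆ un Z → En.card = x → Xi.card = x →
  (∀ v ∈ En ∪ Xi, 1 ≤ bw G X T (un Z) v) →
  ∃ (col : Finset V → ℕ) (j : ℕ) (Nd : Finset (Finset V)), ColZ G X T Z col (θ + 1) (B ^ c) θ ∧
    Nd ⊆ cls Z col θ ∧ j ≤ Λ ∧ 2 ^ j ≤ τ ∧ (∀ u ∈ Nd, 2 ^ j ≤ (En ∩ u).card) ∧
    x ≤ B ^ c * (Nd.card * 2 ^ j) ∧ ∀ i < θ, x ≤ B ^ c * (Xi ∩ un (cls Z col i)).card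

/-- Row ZWIR: nodes, wires and exits of a block. -/
def ZwirStmt : Prop := ∀ (V : Type) [Fintype V] (G : SimpleGraph V) (X T : Finset V) (g A Λ : ℕ)
  (PP Z Nd : Finset (Finset V)) (col : Finset V → ℕ) (θ K K' w n D d : ℕ) (Xi : Finset V),
  Deg G univ 6 → Clu G X T g A Λ PP → 1 ≤ A → 1 ≤ Λ → Z ⊆ PP → ColZ G X T Z col (θ + 1) K θ →
  28 * A * Λ * (K + 1) ≤ K' → Nd ⊆ cls Z col θ → (∀ v ∈ Xi, 1 ≤ bw G X T (un Z) v) →
  (∀ u ∈ Nd, w ≤ bo G X T u) → 1 ≤ w → 1 ≤ d → 1 ≤ D → (d = 1 ∨ 1728 * K * K' * d ≤ w) →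
  600 * (θ + 1) * K' * n ≤ Nd.card → D ≤ n * d →
  (∀ i < θ, 24 * K' * D ≤ (Xi ∩ un (cls Z col i)).card) →
  ∃ N ⊆ Nd, N.card = n ∧ ∃ (Ex : Finset V → ℕ → Finset V) (O : ℕ → Finset V) (wr : ℕ → V → V),
    Bw G (un Z) Xi θ D d N id Ex (fun i => un (cls Z col i)) O wr

/-- Row ZNOD: the choice inside the nodes. -/
def ZnodStmt : Prop := ∀ (V κ : Type) [Fintype V] (G : SimpleGraph V) (W A B : Finset V)
  (θ D d d₁ K : ℕ) (Nd : Finset κ) (u I : κ → Finset V) (Ex : κ → ℕ → Finset V)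
  (Y O : ℕ → Finset V) (wr : ℕ → V → V) (τ : κ → V → ℕ), Deg G univ 6 → 1 ≤ K →
  Bw G W B θ D d₁ Nd u Ex Y O wr →
  (∀ a ∈ Nd, WL (aw G) (u a) (τ a) K ∧ (∀ v, τ a v ≤ 7) ∧ I a ⊆ A ∧ I a ⊆ u a ∧
    d₁ ≤ (I a).card ∧ (∀ v ∈ I a, 1 ≤ τ a v) ∧ ∀ i < θ, ∀ v ∈ Ex a i, 1 ≤ τ a v) →
  ((d = 1 ∧ 1 ≤ d₁) ∨ 24 * K * ((θ + 1) * d) ≤ d₁) →
  ∃ (I' : κ → Finset V) (Ex' : κ → ℕ → Finset V), Bk G W A B θ D d Nd u I' Ex' Y O wr

/-- Row ZLOC: a block inside one expander. -/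
def ZlocStmt : Prop := ∃ c₁ c₂ : ℕ, ∀ (V : Type) [Fintype V] (G : SimpleGraph V) (X T : Finset V)
  (g A Λ : ℕ) (PP : Finset (Finset V)) (sd : Finset V → Bool) (K τ : ℕ) (Z : Finset (Finset V))
  (θ B B' Bz x : ℕ) (En Xi : Finset V), Deg G univ 6 → 6 * Fintype.card V < 2 ^ Λ →
  Clu G X T g A Λ PP → ZOk G X T PP sd K τ Z → Λ ≤ B → K ≤ B → θ + 1 ≤ B → 2 ≤ B → 1 ≤ θ →
  B ^ c₁ ≤ A → A ≤ B' → B' ^ c₂ ≤ Bz → Bz * τ ≤ g → Bz * τ ≤ x → 1 ≤ x → En ⊆ un Z → Xi ⊆ un Z →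
  En.card = x → Xi.card = x → (∀ v ∈ En ∪ Xi, 1 ≤ bw G X T (un Z) v) →
  ∃ j ≤ Λ, 2 ^ j ≤ τ ∧ Blk1 G θ (x / (Bz * 2 ^ j)) (max 1 (2 ^ j / Bz)) (un Z) En Xi

/-- Row DCP. -/
def DcpStmt : Prop := ∃ c : ℕ, ∀ (V : Type) [Fintype V] (G : SimpleGraph V) (Λ B θ Kd M y : ℕ),
  Deg G univ 6 → 6 * Fintype.card V < 2 ^ Λ → Λ ≤ B → θ + 1 ≤ B → Kd ≤ B → 1 ≤ Kd → 1 ≤ θ →
  1 ≤ M → B ^ c * M ≤ y → y ≤ Fintype.card V →
  ∃ K, 1 ≤ K ∧ K ≤ B ^ c ∧ ∀ δ Amb, Orc G y Kd K δ Amb (Outc G θ y δ (B ^ c) M Amb)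

/-! ### One router -/

/-- Row USE: a minimal subgraph uses few boundary edges of a well linked block. -/
def UseStmt : Prop := ∀ (V : Type) [Fintype V] (G H : SimpleGraph V) (X T A B W : Finset V)
  (K : ℕ) (e : V → V) (Q : V → Finset V), Deg G univ 6 → H ≤ G → W ⊆ X → A.card = B.card →
  WL (aw G) W (bw G X T W) K → 1 ≤ K → (∀ u ∈ W, ∀ v ∈ W, G.Adj u v → H.Adj u v) →
  Lns H X A id e Q → (∀ a ∈ A, e a ∈ B) →
  (∀ u ∈ W, ∀ v ∈ X, v ∉ W → H.Adj u v → ¬ Lnk (H.deleteEdges {s(u, v)}) X A B) →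
  bo H X (A ∪ B) W ≤ 30 * K * (A.filter fun a => ¬ Disjoint (Q a) W).card

/-- Row DROP. -/
def DropStmt : Prop := ∀ (V : Type) [Fintype V] (G : SimpleGraph V) (X T A B : Finset V)
  (D : Finset (Finset V)) (lam : Finset V → ℕ) (K δ Λ : ℕ) (Φ : Finset V → Finset V → Prop),
  Deg G univ 6 → 6 * Fintype.card V < 2 ^ Λ → 1 ≤ K → PD D →
  (∀ W ∈ D, W ⊆ X ∧ WL (aw G) W (bw G X T W) K) → A ⊆ T → B ⊆ T → A.card = B.card →
  Lnk G X A B → Hnd G X T D lam δ Φ →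
  (∃ A' ⊆ A, ∃ B' ⊆ B, Φ A' B') ∨ ∃ H ≤ G, ∃ A' ⊆ A, ∃ B' ⊆ B, A'.card = B'.card ∧
    A.card ≤ A'.card + 60 * K * (Λ + 1) * δ ∧ Lnk H X A' B' ∧
    ∀ W ∈ D, bo H X (A' ∪ B') W ≤ 60 * K * lam W

/-- Row GEN: one generation. -/
def GenStmt : Prop := ∀ (V : Type) [Fintype V] (G H : SimpleGraph V)
  (Amb X A₀ B₀ A₁ B₁ : Finset V) (y Kd K δ Λ v : ℕ) (Φ : Finset V → Finset V → Prop),
  Deg G univ 6 → 6 * Fintype.card V < 2 ^ Λ → 1 ≤ K → 12 ≤ Kd → Orc G y Kd K δ Amb Φ → H ≤ G →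
  X ⊆ Amb → Dm H X A₀ B₀ A₁ B₁ → Adm H X (A₀ ∪ B₀ ∪ A₁ ∪ B₁) y v →
  Res H X A₀ B₀ A₁ B₁ y (60 * K * (Λ + 1) * δ) ((A₀ ∪ B₀ ∪ A₁ ∪ B₁).card + v / 2) Φ

/-- Row RND: all generations. -/
def RndStmt : Prop := ∀ (V : Type) [Fintype V] (G : SimpleGraph V) (X A₀ B₀ A₁ B₁ : Finset V)
  (y Kd K δ Λ : ℕ) (Φ : Finset V → Finset V → Prop), Deg G univ 6 →
  6 * Fintype.card V < 2 ^ Λ → 1 ≤ K → 12 ≤ Kd → 7 ≤ y → Orc G y Kd K δ X Φ →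
  Dm G X A₀ B₀ A₁ B₁ →
  Res G X A₀ B₀ A₁ B₁ y (60 * K * (Λ + 1) ^ 2 * δ) (2 * (A₀ ∪ B₀ ∪ A₁ ∪ B₁).card) Φ

/-! ### The game -/

/-- Row RND: the first router. -/
def InitStmt : Prop := ∀ (V ι : Type) [Fintype ι] (G : SimpleGraph V) (r : ℕ) (R : ℕ → Finset V)
  (p : ℕ → Fin 4 → ι → V) (ty : Finset ι) (y l : ℕ), Rts G r R p → 2 ≤ y →
  St G R p ty y l 0 fun _ => id

/-- Row JOIN: two graphs with admissible partitions are joined by a matching. -/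
def JoinStmt : Prop := ∀ (V ι : Type) (G H₁ H₂ : SimpleGraph V)
  (X₁ X₂ Ts Th Ta Tb Tb' : Finset V) (I : Finset ι) (α β : ι → V) (y v₁ v₂ : ℕ), H₁ ≤ G → H₂ ≤ G →
  Disjoint X₁ X₂ → Ts ⊆ X₁ → Tb ⊆ X₂ → Disjoint Ts Th → Disjoint Ta Tb → Tb' ⊆ Tb →
  (∀ k ∈ I, α k ∈ Th ∧ α k ∈ X₁ ∧ β k ∈ Ta ∧ β k ∈ X₂ ∧ G.Adj (α k) (β k)) → Set.InjOn α I →
  Set.InjOn β I → Adm H₁ X₁ (Ts ∪ Th) y v₁ → Adm H₂ X₂ (Ta ∪ Tb) y v₂ →
  ∃ H ≤ G, (∀ a ∈ X₁, ∀ b ∈ X₁, H₁.Adj a b → H.Adj a b) ∧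
    (∀ a ∈ X₂, ∀ b ∈ X₂, H₂.Adj a b → H.Adj a b) ∧ (∀ k ∈ I, H.Adj (α k) (β k)) ∧
    Adm H (X₁ ∪ X₂) (Ts ∪ Tb') y (v₁ + v₂)

/-- Row WIN: a success in a router is carried to the ports. -/
def WinStmt : Prop := ∀ (V ι : Type) [Fintype ι] (G : SimpleGraph V) (r t : ℕ) (R : ℕ → Finset V)
  (p : ℕ → Fin 4 → ι → V) (θ y n P M : ℕ) (A B : Finset V), Rts G r R p → t < r →
  Outc G θ y n P M (R (t + 1)) A B →
  (A ⊆ univ.image (p (t + 1) 0) → B ⊆ univ.image (p (t + 1) 1) →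
    Outc G θ y n P M ((range (r + 2)).biUnion R) (prt r p 2) (prt r p 3)) ∧
  ∀ (ty : Finset ι) (l : ℕ) (Mt : ℕ → ι → ι) (H : SimpleGraph V) (X : Finset V) (Al : Finset ι)
    (σ : ι → ι) (L : ι → Finset V) (Pj : ℕ → Finset ι) (W : ℕ → ι → Finset V),
    GS G R p ty y l t Mt H X Al σ L Pj W →
    A ⊆ (Al ∩ ty).image (fun u => p (t + 1) 0 (σ u)) →
    B ⊆ (Al \ ty).image (fun u => p (t + 1) 0 (σ u)) →
    Outc G θ y n P M ((range (r + 2)).biUnion R) (prt r p 2) (prt r p 3)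

/-- Row UPD: the state after one more round. -/
def UpdStmt : Prop := ∀ (V ι : Type) [Fintype ι] (G : SimpleGraph V) (r t : ℕ) (R : ℕ → Finset V)
  (p : ℕ → Fin 4 → ι → V) (ty : Finset ι) (y l : ℕ) (M : ℕ → ι → ι) (H H' : SimpleGraph V)
  (X X' : Finset V) (Al S₁ S₂ : Finset ι) (σ : ι → ι) (L : ι → Finset V) (Pj : ℕ → Finset ι)
  (W : ℕ → ι → Finset V) (A₀ B₀ A₁ B₁ : Finset V), Rts G r R p → t < r →
  GS G R p ty y l t M H X Al σ L Pj W → S₁ ⊆ Al ∩ ty → S₂ ⊆ Al \ ty → H' ≤ G → X' ⊆ R (t + 1) →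
  A₀ ⊆ Al.image (fun u => p (t + 1) 0 (σ u)) → B₀ ⊆ univ.image (p (t + 1) 1) →
  A₁ ⊆ S₁.image (fun u => p (t + 1) 0 (σ u)) → B₁ ⊆ S₂.image (fun u => p (t + 1) 0 (σ u)) →
  Dm H' X' A₀ B₀ A₁ B₁ → Al.card ≤ A₀.card + l →
  Adm H' X' (A₀ ∪ B₀ ∪ A₁ ∪ B₁) y (4 * Fintype.card ι) →
  ∃ μ : ι → ι, (∀ u, μ (μ u) = u) ∧ A₁.card ≤ (S₁.filter fun u => μ u ∈ S₂).card ∧
    St G R p ty y l (t + 1) (Function.update M t μ)

/-- Row STEP: one round. -/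
def StepStmt : Prop := ∀ (V ι : Type) [Fintype V] [Fintype ι] (G : SimpleGraph V) (r t : ℕ)
  (R : ℕ → Finset V) (p : ℕ → Fin 4 → ι → V) (ty S : Finset ι) (θ y P M' Kd K δ Λ g : ℕ)
  (M : ℕ → ι → ι), Deg G univ 6 → 6 * Fintype.card V < 2 ^ Λ → Rts G r R p → t < r → 1 ≤ K →
  12 ≤ Kd → 7 ≤ y → 2 * ty.card = Fintype.card ι →
  8 * (g + (r + 1) * (60 * K * (Λ + 1) ^ 2 * δ)) ≤ Fintype.card ι →
  (∀ Amb, Orc G y Kd K δ Amb (Outc G θ y δ P M' Amb)) →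
  St G R p ty y (60 * K * (Λ + 1) ^ 2 * δ) t M → Bal S →
  Outc G θ y δ P M' ((range (r + 2)).biUnion R) (prt r p 2) (prt r p 3) ∨
    ∃ μ : ι → ι, (∀ u, μ (μ u) = u) ∧ g ≤ cr μ S ∧
      St G R p ty y (60 * K * (Λ + 1) ^ 2 * δ) (t + 1) (Function.update M t μ)

/-- Row FIN: the end of the game. -/
def FinStmt : Prop := ∀ (V ι : Type) [Fintype ι] (G : SimpleGraph V) (r t : ℕ) (R : ℕ → Finset V)
  (p : ℕ → Fin 4 → ι → V) (ty : Finset ι) (y l Kd K δ g : ℕ) (M : ℕ → ι → ι) (Amb : Finset V)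
  (Φ : Finset V → Finset V → Prop), t ≤ r → 1 ≤ K → 1 ≤ Kd → 1 ≤ y → 4 * y ≤ Fintype.card ι →
  6 * r * (Kd * δ + 12 * (r + 1) * Fintype.card ι) ≤ Kd * g →
  (range (t + 1)).biUnion R ⊆ Amb → Orc G y Kd K δ Amb Φ → St G R p ty y l t M →
  (∃ A ⊆ univ.image (p 0 2), ∃ B ⊆ univ.image (p 0 3), Φ A B) ∨
    ∃ S : Finset ι, Bal S ∧ 6 * ∑ j ∈ range t, cr (M j) S ≤ g

/-- Row CELL0: the cell lemma. -/
def Cell0Stmt : Prop := ∃ c : ℕ, ∀ (V ι : Type) [Fintype V] [Fintype ι] (G : SimpleGraph V)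
  (R : ℕ → Finset V) (p : ℕ → Fin 4 → ι → V) (Λ B θ M y : ℕ), Deg G univ 6 →
  6 * Fintype.card V < 2 ^ Λ → Rts G (400 * Λ) R p → Λ ≤ B → θ + 1 ≤ B → 1 ≤ θ → 1 ≤ M →
  B ^ c * M ≤ y → 4 * y ≤ Fintype.card ι → Even (Fintype.card ι) →
  Outc G θ y (Fintype.card ι) (B ^ c) M ((range (400 * Λ + 2)).biUnion R) (prt (400 * Λ) p 2)
    (prt (400 * Λ) p 3)

/-! ### Translation to hubs and stages -/

/-- Row FB. -/
def FbStmt : Prop := ∀ (V : Type) (G : SimpleGraph V) (W A B : Finset V),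
  (∀ D e, e ≤ D → Cel1 G D W A B → Fb G 1 1 e W A B) ∧
    ∀ θ m d m' d', m' ≤ m → d' ≤ d → Blk1 G θ m d W A B → Fb G θ m' d' W A B

/-- Row STG. -/
def StgStmt : Prop := ∀ (V : Type) (G : SimpleGraph V) (X A B : Finset V) (θ m d k N : ℕ),
  Many X N (fun W => Fb G θ m d W A B) → 1 ≤ k → k ≤ N → 1 ≤ θ → 1 ≤ m → 1 ≤ d →
  ∃ (a b : ℕ → V) (S : Fl.SD), (∀ τ < k * (θ * (m * d)), a τ ∈ A ∧ b τ ∈ B) ∧
    Fl.Stg G X (k * (θ * (m * d))) a b S ∧ Fl.Shape (k * (θ * (m * d))) S (m * d) d θ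

/-- Row HUBR. -/
def HubrStmt : Prop := ∀ (V : Type) (G : SimpleGraph V) (Amb Rt : Finset V) (N F₀ : ℕ)
  (h : Fl.HD V) (U : Finset ℕ) (s s' r n : ℕ), Fl.Hub G Amb Rt N F₀ h → U ⊆ range N → s ∈ U →
  s' ∈ U → s ≠ s' → r + 4 ≤ U.card → n ≤ F₀ →
  ∃ (R : ℕ → Finset V) (p : ℕ → Fin 4 → Fin n → V), Rts G r R p ∧
    (range (r + 2)).biUnion R ⊆ h.reg ((U.erase s).erase s') ∧
    (∀ E ⊆ prt r p 2, Fl.Dock G h F₀ U s E) ∧ ∀ E ⊆ prt r p 3, Fl.Dock G h F₀ U s' E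

/-! ### Small lemmas -/

section Lemmas

variable {V ι κ : Type} {G H : SimpleGraph V} {X X' A A' B B' T T' W : Finset V}

theorem deg_le [Fintype V] {Δ : ℕ} (h : Deg G univ Δ) (hH : H ≤ G) : Deg H univ Δ := fun v hv =>
  (card_le_card (monotone_filter_right _ fun _ _ e => hH e)).trans (h v hv)

theorem conn_le (h : Conn H W) (hH : H ≤ G) : Conn G W := h.mono' fun _ _ e _ _ => hH e

theorem fam_le {I : Finset ι} {Q : ι → Finset V} (h : Fam H X I Q) (hH : H ≤ G) : Fam G X I Q :=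
  ⟨h.sub, fun a ha => conn_le (h.conn a ha) hH, h.disj⟩

theorem Lns.mono {I I' : Finset ι} {s e : ι → V} {Q : ι → Finset V} (h : Lns H X I s e Q)
    (hH : H ≤ G) (hX : X ⊆ X') (hI : I' ⊆ I) : Lns G X' I' s e Q :=
  ⟨(fam_le h.fam hH).mono hX hI, fun k hk => h.st k (hI hk), fun k hk => h.en k (hI hk)⟩

theorem Lns.symm {I : Finset ι} {s e : ι → V} {Q : ι → Finset V} (h : Lns G X I s e Q) :
    Lns G X I e s Q := ⟨h.fam, h.en, h.st⟩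

theorem Lns.inj_s {I : Finset ι} {s e : ι → V} {Q : ι → Finset V} (h : Lns G X I s e Q) :
    Set.InjOn s I := fun a ha b hb e => h.fam.eq ha hb (h.st a ha) (e ▸ h.st b hb)

theorem Lns.inj_e {I : Finset ι} {s e : ι → V} {Q : ι → Finset V} (h : Lns G X I s e Q) :
    Set.InjOn e I := h.symm.inj_s

/-- With equal sizes every point of `B` is an end. -/
theorem Lns.image_eq {e : V → V} {Q : V → Finset V} (h : Lns G X A id e Q) (he : ∀ a ∈ A, e a ∈ B)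
    (hc : B.card ≤ A.card) : A.image e = B :=
  eq_of_subset_of_card_le (image_subset_iff.2 he) (by rwa [card_image_of_injOn h.inj_e])

/-- Lanes that start in a closed subset stay there. -/
theorem Lns.shrink {I : Finset ι} {s e : ι → V} {Q : ι → Finset V} (h : Lns G X I s e Q)
    (hs : ∀ k ∈ I, s k ∈ X') (hc : ∀ a ∈ X', ∀ b ∈ X, G.Adj a b → b ∈ X') : Lns G X' I s e Q :=
  ⟨⟨fun k hk => (h.fam.conn k hk).subset_of_closed (h.st k hk) (hs k hk)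
    fun x hx y hy _ e => hc x hx y (h.fam.sub k hk hy) e, h.fam.conn, h.fam.disj⟩, h.st, h.en⟩

theorem Lnk.mono (h : Lnk H X A B) (hH : H ≤ G) (hX : X ⊆ X') (hA : A' ⊆ A) (hB : B ⊆ B') :
    Lnk G X' A' B' :=
  let ⟨e, Q, h1, h2⟩ := h
  ⟨e, Q, h1.mono hH hX hA, fun a ha => hB (h2 a (hA ha))⟩

theorem Lnk.shrink (h : Lnk G X A B) (hs : A ⊆ X') (hc : ∀ a ∈ X', ∀ b ∈ X, G.Adj a b → b ∈ X') :
    Lnk G X' A B :=
  let ⟨e, Q, h1, h2⟩ := h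
  ⟨e, Q, h1.shrink (fun _ hk => hs hk) hc, h2⟩

theorem Lkd.mono {d d' : ℕ} (h : Lkd H X T d) (hH : H ≤ G) (hX : X ⊆ X') (hT : T' ⊆ T)
    (hd : d' ≤ d) : Lkd G X' T' d' :=
  ⟨(hT.trans h.1).trans hX, fun A hA B hB h1 h2 =>
    (h.2 A (hA.trans hT) B (hB.trans hT) h1 (h2.trans hd)).mono hH hX subset_rfl subset_rfl⟩

theorem Lka.mono (h : Lka H X T) (hH : H ≤ G) (hX : X ⊆ X') (hT : T' ⊆ T) : Lka G X' T' :=
  fun d => (h d).mono hH hX hT le_rfl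

theorem Lka.sub (h : Lka G X T) : T ⊆ X := (h 0).1

theorem Lka.lnk (h : Lka G X T) (hA : A ⊆ T) (hB : B ⊆ T) (hc : A.card ≤ B.card) : Lnk G X A B :=
  (h A.card).2 A hA B hB hc le_rfl

/-- Single terminals are linked in a connected set. -/
theorem lkd_one {d : ℕ} (h : Conn G X) (hT : T ⊆ X) (hd : d ≤ 1) : Lkd G X T d := by
  refine ⟨hT, fun A hA B hB h1 h2 => ?_⟩
  rcases A.eq_empty_or_nonempty with rfl | hne
  · exact ⟨id, fun _ => ∅, ⟨⟨by simp, by simp, by simp⟩, by simp, by simp⟩, by simp⟩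
  obtain ⟨b, hb⟩ := card_pos.1 (hne.card_pos.trans_le h1)
  exact ⟨fun _ => b, fun _ => X, ⟨⟨fun _ _ => subset_rfl, fun _ _ => h, fun a ha a' ha' e =>
    absurd (card_le_one.1 (h2.trans hd) a ha a' ha') e⟩, fun a ha => hT (hA ha),
    fun _ _ => hT (hB hb)⟩, fun _ _ => hb⟩

theorem Fre.empty (G : SimpleGraph V) (X : Finset V) (τ : V → ℕ) : Fre G X τ ∅ :=
  ⟨empty_subset _, fun _ _ _ _ _ _ => by simp⟩

theorem Fre.mono {τ : V → ℕ} (h : Fre G X τ T) (hT : T' ⊆ T) : Fre G X τ T' :=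
  ⟨hT.trans h.1, fun S hS Z h1 h2 h3 =>
    (card_le_card (inter_subset_inter_right hT)).trans (h.2 S hS Z h1 h2 h3)⟩

theorem Str.mem {f : V → V} {Q : V → Finset V} (h : Str G X T f Q) {v : V} (hv : v ∈ T) :
    v ∈ Q v ∧ v ∈ X := mem_inter.1 ((h.conn v hv).2.1 ▸ mem_singleton_self v)

theorem Str.eq {f : V → V} {Q : V → Finset V} (h : Str G X T f Q) {v x : V} (hv : v ∈ T)
    (h1 : x ∈ Q v) (h2 : x ∈ X) : x = v :=
  mem_singleton.1 ((h.conn v hv).2.1 ▸ mem_inter.2 ⟨h1, h2⟩)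

theorem Str.inj {f : V → V} {Q : V → Finset V} (h : Str G X T f Q) : Set.InjOn f T :=
  fun a ha b hb e => by
    by_contra hc
    exact disjoint_left.1 (h.disj a ha b hb hc) (h.conn a ha).2.2 (e ▸ (h.conn b hb).2.2)

/-- Strands restricted to fewer points and a smaller base. -/
theorem Str.mono {f : V → V} {Q : V → Finset V} (h : Str G X T f Q) (hT : T' ⊆ T) (h1 : T' ⊆ X')
    (h2 : X' ⊆ X) : Str G X' T' f Q :=
  ⟨fun v hv => ⟨(h.conn v (hT hv)).1, eq_singleton_iff_unique_mem.2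
    ⟨mem_inter.2 ⟨(h.mem (hT hv)).1, h1 hv⟩, fun _ hx =>
      h.eq (hT hv) (mem_inter.1 hx).1 (h2 (mem_inter.1 hx).2)⟩, (h.conn v (hT hv)).2.2⟩,
    fun v hv v' hv' => h.disj v (hT hv) v' (hT hv')⟩

theorem Cel1.mono {D : ℕ} (h : Cel1 H D W A B) (hH : H ≤ G) (hA : A ⊆ A') (hB : B ⊆ B') :
    Cel1 G D W A' B' :=
  let ⟨h0, I, h1, O, h2, h3, h4, h5, h6⟩ := h
  ⟨conn_le h0 hH, I, h1.trans hA, O, h2.trans hB, h3, h4, h5, h6.mono hH subset_rfl subset_rfl⟩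

theorem Bw.mono {θ D d : ℕ} {Nd : Finset κ} {u : κ → Finset V} {Ex : κ → ℕ → Finset V}
    {Y O : ℕ → Finset V} {wr : ℕ → V → V} (h : Bw H W B θ D d Nd u Ex Y O wr) (hH : H ≤ G)
    (hB : B ⊆ B') : Bw G W B' θ D d Nd u Ex Y O wr :=
  { h with
    fu := fam_le h.fu hH
    fy := fam_le h.fy hH
    ex := fun a ha i hi => ⟨(h.ex a ha i hi).1, (h.ex a ha i hi).2.1, fun x hx =>
      ⟨((h.ex a ha i hi).2.2 x hx).1, hH ((h.ex a ha i hi).2.2 x hx).2⟩⟩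
    pout := fun i hi => ⟨(h.pout i hi).1.trans hB, (h.pout i hi).2⟩
    lky := fun i hi => (h.lky i hi).mono hH subset_rfl subset_rfl }

theorem Blk1.mono {θ m d : ℕ} (h : Blk1 H θ m d W A B) (hH : H ≤ G) (hA : A ⊆ A') (hB : B ⊆ B') :
    Blk1 G θ m d W A' B' :=
  let ⟨u, I, Ex, Y, O, wr, h⟩ := h
  ⟨u, I, Ex, Y, O, wr, h.bw.mono hH hB, fun a ha => ⟨(h.pin a ha).1.trans hA, (h.pin a ha).2⟩,
    fun a ha => (h.lku a ha).mono hH subset_rfl subset_rfl le_rfl, h.dis⟩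

/-- The nodes of a block are numbered. -/
theorem Bk.blk1 {θ m d : ℕ} {Nd : Finset κ} {u I : κ → Finset V} {Ex : κ → ℕ → Finset V}
    {Y O : ℕ → Finset V} {wr : ℕ → V → V} (h : Bk G W A B θ (m * d) d Nd u I Ex Y O wr)
    (hc : Nd.card = θ * m) (h0 : 0 < θ * m) : Blk1 G θ m d W A B := by
  let e := Nd.equivFinOfCardEq hc
  let φ : ℕ → κ := fun a => if ha : a < θ * m then (e.symm ⟨a, ha⟩).1 else (e.symm ⟨0, h0⟩).1
  have hm : ∀ a, φ a ∈ Nd := fun a => by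
    by_cases ha : a < θ * m <;> simp only [φ, ha, dif_pos, dif_neg, not_false_eq_true] <;>
      exact Subtype.property _
  have hi : ∀ a ∈ range (θ * m), ∀ b ∈ range (θ * m), a ≠ b → φ a ≠ φ b := fun a ha b hb hne e' => by
    simp only [φ, dif_pos (mem_range.1 ha), dif_pos (mem_range.1 hb)] at e'
    exact hne (congrArg Fin.val (e.symm.injective (Subtype.ext e')))
  have hs : ∀ i, ((range (θ * m)).biUnion fun a => Ex (φ a) i) ⊆ Nd.biUnion fun a => Ex a i :=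
    fun i => biUnion_subset.2 fun a _ => subset_biUnion_of_mem (fun a => Ex a i) (hm a)
  exact ⟨u ∘ φ, I ∘ φ, Ex ∘ φ, Y, O, wr, ⟨⟨fun a _ => h.bw.fu.sub _ (hm a),
    fun a _ => h.bw.fu.conn _ (hm a), fun a ha b hb e' =>
      h.bw.fu.disj _ (hm a) _ (hm b) (hi a ha b hb e')⟩, h.bw.fy, fun a _ => h.bw.uy _ (hm a),
    fun a _ => h.bw.ex _ (hm a), fun i hi' => (h.bw.inj i hi').mono (coe_subset.2 (hs i)),
    h.bw.pout, fun i hi' => (h.bw.lky i hi').mono le_rfl subset_rfl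
      (union_subset_union_right (image_subset_image (hs i))),
    fun i hi' => (h.bw.ody i hi').mono_right (image_subset_image (hs i))⟩,
    fun a _ => h.pin _ (hm a), fun a _ => h.lku _ (hm a), fun a _ => h.dis _ (hm a)⟩

theorem Many.mono {N : ℕ} {Ψ Ψ' : Finset V → Prop} (h : Many X N Ψ) (hX : X ⊆ X')
    (hΨ : ∀ W, Ψ W → Ψ' W) : Many X' N Ψ' :=
  let ⟨J, h1, h2, h3⟩ := h
  ⟨J, h1, h2, fun W hW => ⟨(h3 W hW).1.trans hX, (h3 W hW).2.1, hΨ W (h3 W hW).2.2⟩⟩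

theorem Outc.mono {θ y n n' P P' M c : ℕ} (h : Outc H θ y n P M X A B) (hH : H ≤ G) (hX : X ⊆ X')
    (hA : A ⊆ A') (hB : B ⊆ B') (hn : n' ≤ c * n) (hc : 1 ≤ c) (hP : c * P ≤ P') :
    Outc G θ y n' P' M X' A' B' := by
  have h0 : P ≤ P' := (Nat.le_mul_of_pos_left P hc).trans hP
  have h1 : ∀ z, n ≤ P * z → n' ≤ P' * z := fun z hz =>
    hn.trans ((Nat.mul_le_mul_left c hz).trans (by
      rw [← mul_assoc]; exact Nat.mul_le_mul_right z hP))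
  obtain ⟨N, ⟨D, a1, a2, a3, a4⟩ | ⟨m, d, a1, a2, a3, a4, a5⟩⟩ := h
  · exact ⟨N, Or.inl ⟨D, a1.mono hX fun _ e => e.mono hH hA hB, a2,
      a3.trans (Nat.mul_le_mul_right _ (Nat.mul_le_mul_right _ h0)), h1 _ a4⟩⟩
  · exact ⟨N, Or.inr ⟨m, d, a1.mono hX fun _ e => e.mono hH hA hB, a2, a3,
      a4.trans (Nat.mul_le_mul_right _ h0), h1 _ a5⟩⟩

theorem Outc.up {θ y n P M : ℕ} (h : Outc H θ y n P M X A B) (hH : H ≤ G) (hX : X ⊆ X')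
    (hA : A ⊆ A') (hB : B ⊆ B') : Outc G θ y n P M X' A' B' :=
  h.mono (c := 1) hH hX hA hB (by omega) le_rfl (by omega)

theorem Adm.mono {y v v' : ℕ} (h : Adm G X T y v) (hv : v ≤ v') : Adm G X T y v' :=
  let ⟨QQ, h1, h2, h3, h4⟩ := h
  ⟨QQ, h1, h2, h3, h4.trans hv⟩

/-- The boundary weight grows with the graph and the terminals and shrinks with the cluster. -/
theorem bw_mono {C C' : Finset V} (hH : H ≤ G) (hX : X ⊆ X') (hT : T ⊆ T') (hC : C' ⊆ C) (v : V) :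
    bw H X T C v ≤ bw G X' T' C' v :=
  Nat.add_le_add ((cw_mono subset_rfl (sdiff_subset_sdiff hX hC)).trans (Nl.cw_le fun a _ b _ => by
    unfold aw
    split_ifs with h1 h2
    exacts [le_rfl, absurd (hH h1) h2, Nat.zero_le _, le_rfl])) (ind_mono fun h => hT h)

theorem bo_mono (hH : H ≤ G) (hX : X ⊆ X') (hT : T ⊆ T') (C : Finset V) :
    bo H X T C ≤ bo G X' T' C := by
  rw [← ts_bw, ← ts_bw]
  exact ts_le fun v _ => bw_mono hH hX hT subset_rfl v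

/-- Points of positive boundary weight are at most as many as the boundary. -/
theorem card_le_bo {C : Finset V} (hA : A ⊆ C) (h : ∀ v ∈ A, 1 ≤ bw G X T C v) :
    A.card ≤ bo G X T C := by
  rw [← ts_bw]
  exact le_trans (by simpa using card_le_ts h) (ts_mono hA)

theorem one_le_bw_adj {C : Finset V} {v w : V} (hw : w ∈ X) (hC : w ∉ C) (h : G.Adj v w) :
    1 ≤ bw G X T C v := by
  unfold bw
  rw [cw_aw_single]
  exact le_add_right (card_pos.2 ⟨w, mem_filter.2 ⟨mem_sdiff.2 ⟨hw, hC⟩, h⟩⟩)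

theorem one_le_bw_mem {C : Finset V} {v : V} (h : v ∈ T) : 1 ≤ bw G X T C v := by
  unfold bw
  rw [ind_of_mem h]
  omega

end Lemmas

end Pool.Agent.MP_35cb46_co.Ce
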