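import Pool.Agent.MP_35cb46_co.fl.CSpec

/-! PROJECT FL, the cell lemma: a success in a router is carried to the ports. -/

noncomputable section

namespace Pool.Agent.MP_35cb46_co.Ce

open Finset Pool.Agent.MP_7be75d_co Pool.Agent.MP_35cb46_co.Sq Pool.Agent.MP_35cb46_co.Nl
open scoped Classical

namespace CWin

variable {V ι κ : Type} {G : SimpleGraph V} {X X' A B A' B' : Finset V} {θ y n P M : ℕ}

/-- The ports are carried along disjoint lanes outside `X`. -/
theorem carry (ext3 : Ext3Stmt) (h : Outc G θ y n P M X A B) (hX : X ⊆ X') (K : κ → Prop)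
    (pt w f : κ → V) (Ln : κ → Finset V)
    (h1 : ∀ k, K k → pt k ∈ X ∧ Conn G (Ln k) ∧ Disjoint (Ln k) X ∧ w k ∈ Ln k ∧
      G.Adj (pt k) (w k) ∧ f k ∈ Ln k ∧ Ln k ⊆ X')
    (h2 : ∀ k k', K k → K k' → k ≠ k' → Disjoint (Ln k) (Ln k'))
    (h3 : ∀ v ∈ A ∪ B, ∃ k, K k ∧ pt k = v ∧ (v ∈ A → f k ∈ A') ∧ (v ∈ B → f k ∈ B')) :
    Outc G θ y n P M X' A' B' := by
  have h4 : ∀ v, ∃ (a : V) (Q : Finset V), v ∈ A ∪ B → ∃ k, K k ∧ pt k = v ∧ a = f k ∧
      Q = insert v (Ln k) ∧ (v ∈ A → a ∈ A') ∧ (v ∈ B → a ∈ B') := fun v => by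
    by_cases hv : v ∈ A ∪ B
    · obtain ⟨k, a1, a2, a3, a4⟩ := h3 v hv
      exact ⟨f k, insert v (Ln k), fun _ => ⟨k, a1, a2, rfl, rfl, a3, a4⟩⟩
    · exact ⟨v, ∅, fun k => absurd k hv⟩
  choose g Q hg using h4
  refine ext3 V G θ y n P M X X' A A' B B' (A ∪ B) g Q h ⟨fun v hv => ?_, fun v hv v' hv' e => ?_⟩
    (fun v hv => ?_) (fun v hv => ?_) hX fun v hv => ?_
  · obtain ⟨k, a1, rfl, a3, a4, -⟩ := hg v hv
    obtain ⟨b1, b2, b3, b4, b5, b6, -⟩ := h1 k a1
    rw [a3, a4]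
    refine ⟨b2.insert b4 b5.symm, ?_, mem_insert_of_mem b6⟩
    rw [insert_inter_of_mem b1, disjoint_iff_inter_eq_empty.1 b3]
    rfl
  · obtain ⟨k, a1, rfl, -, a4, -⟩ := hg v hv
    obtain ⟨k', a1', rfl, -, a4', -⟩ := hg v' hv'
    obtain ⟨b1, -, b3, -⟩ := h1 k a1
    obtain ⟨b1', -, b3', -⟩ := h1 k' a1'
    rw [a4, a4', disjoint_insert_left, disjoint_insert_right, mem_insert, not_or]
    exact ⟨⟨e, disjoint_right.1 b3' b1⟩, disjoint_right.1 b3 b1',
      h2 k k' a1 a1' fun c => e (c ▸ rfl)⟩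
  · obtain ⟨k, -, -, -, -, a5, -⟩ := hg v (mem_union_left _ hv)
    exact ⟨mem_union_left _ hv, a5 hv⟩
  · obtain ⟨k, -, -, -, -, -, a5⟩ := hg v (mem_union_right _ hv)
    exact ⟨mem_union_right _ hv, a5 hv⟩
  · obtain ⟨k, a1, rfl, -, a4, -⟩ := hg v hv
    rw [a4]
    exact insert_subset (hX (h1 k a1).1) (h1 k a1).2.2.2.2.2.2

variable [Fintype ι] {r i : ℕ} {R : ℕ → Finset V} {p : ℕ → Fin 4 → ι → V}

theorem psub (i : ℕ) (c : Fin 4) :
    univ.image (p i c) ⊆ univ.image fun q : Fin 4 × ι => p i q.1 q.2 :=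
  image_subset_iff.2 fun k _ => mem_image.2 ⟨(c, k), mem_univ _, rfl⟩

theorem pmem (h : Rts G r R p) (hi : i ≤ r + 1) (c : Fin 4) (k : ι) : p i c k ∈ R i :=
  (h.lk i hi).sub (psub i c (mem_image_of_mem _ (mem_univ k)))

theorem rsub (hi : i ≤ r + 1) : R i ⊆ (range (r + 2)).biUnion R :=
  subset_biUnion_of_mem R (mem_range.2 (by omega))

theorem prt_sub (hi : i ≤ r + 1) (c : Fin 4) : univ.image (p i c) ⊆ prt r p c :=
  subset_biUnion_of_mem (fun i => univ.image (p i c)) (mem_range.2 (by omega))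

/-- Lanes in a router from the ports of one kind to the ports of another kind. -/
theorem lanes (h : Rts G r R p) (hi : i ≤ r + 1) (c c' : Fin 4) :
    ∃ (e : ι → V) (Q : ι → Finset V), Lns G (R i) univ (p i c) e Q ∧ ∀ k, e k ∈ prt r p c' := by
  have ci : ∀ c, (univ.image (p i c)).card = Fintype.card ι := fun c =>
    card_image_of_injective _ fun k k' e => (h.inj i hi c k c k' e).2
  obtain ⟨e, Q, h1, h2⟩ := (h.lk i hi).lnk (psub i c) (psub i c') (by rw [ci, ci])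
  have m : ∀ k, p i c k ∈ univ.image (p i c) := fun k => mem_image_of_mem _ (mem_univ k)
  exact ⟨fun k => e (p i c k), fun k => Q (p i c k), ⟨⟨fun k _ => h1.fam.sub _ (m k),
    fun k _ => h1.fam.conn _ (m k), fun k _ k' _ n => h1.fam.disj _ (m k) _ (m k')
      fun e => n (h.inj i hi c k c k' e).2⟩, fun k _ => h1.st _ (m k), fun k _ => h1.en _ (m k)⟩,
    fun k => prt_sub hi c' (h2 _ (m k))⟩

end CWin

open CWin

theorem win (ext3 : Ext3Stmt) : WinStmt := by
  intro V ι _ G r t R p θ y n P M A B h ht ho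
  have t0 : t ≤ r + 1 := by omega
  have t1 : t + 1 ≤ r + 1 := by omega
  have t2 : t + 2 ≤ r + 1 := by omega
  refine ⟨fun hA hB => ?_, fun ty l Mt H X Al σ L Pj W g hA hB => ?_⟩
  · obtain ⟨e, Q, a1, a2⟩ := lanes h t0 1 2
    obtain ⟨e', Q', b1, b2⟩ := lanes h t2 0 3
    have s1 := fun k => a1.fam.sub k (mem_univ k)
    have s2 := fun k => b1.fam.sub k (mem_univ k)
    have d12 : ∀ k k', Disjoint (Q k) (Q' k') := fun k k' =>
      (h.disj t t0 (t + 2) t2 (by omega)).mono (s1 k) (s2 k')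
    refine carry ext3 ho (rsub t1) (fun _ : ι ⊕ ι => True) (Sum.elim (p (t + 1) 0) (p (t + 1) 1))
      (Sum.elim (p t 1) (p (t + 2) 0)) (Sum.elim e e') (Sum.elim Q Q') ?_ ?_ fun v hv => ?_
    · rintro (k | k) -
      · exact ⟨pmem h t1 0 k, a1.fam.conn k (mem_univ k),
          (h.disj t t0 (t + 1) t1 (by omega)).mono_left (s1 k), a1.st k (mem_univ k),
          (h.wire t ht.le k).symm, a1.en k (mem_univ k), (s1 k).trans (rsub t0)⟩
      · exact ⟨pmem h t1 1 k, b1.fam.conn k (mem_univ k),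
          (h.disj (t + 2) t2 (t + 1) t1 (by omega)).mono_left (s2 k), b1.st k (mem_univ k),
          h.wire (t + 1) ht k, b1.en k (mem_univ k), (s2 k).trans (rsub t2)⟩
    · rintro (k | k) (k' | k') - - n
      · exact a1.fam.disj k (mem_univ _) k' (mem_univ _) fun c => n (c ▸ rfl)
      · exact d12 k k'
      · exact (d12 k' k).symm
      · exact b1.fam.disj k (mem_univ _) k' (mem_univ _) fun c => n (c ▸ rfl)
    · have no : v ∈ A → v ∈ B → False := fun x z => by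
        obtain ⟨k, -, e1⟩ := mem_image.1 (hA x)
        obtain ⟨k', -, e2⟩ := mem_image.1 (hB z)
        exact absurd (h.inj _ t1 0 k 1 k' (e1.trans e2.symm)).1 (by decide)
      rcases mem_union.1 hv with x | x
      · obtain ⟨k, -, e1⟩ := mem_image.1 (hA x)
        exact ⟨Sum.inl k, trivial, e1, fun _ => a2 k, fun z => (no x z).elim⟩
      · obtain ⟨k, -, e1⟩ := mem_image.1 (hB x)
        exact ⟨Sum.inr k, trivial, e1, fun z => (no z x).elim, fun _ => b2 k⟩
  · have s1 : ∀ u, L u ⊆ (range (t + 1)).biUnion R := fun u =>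
      (g.fam.sub u (mem_univ u)).trans g.sub
    have dj : Disjoint ((range (t + 1)).biUnion R) (R (t + 1)) :=
      (disjoint_biUnion_left _ _ _).2 fun i hi => by
        have := mem_range.1 hi
        exact h.disj i (by omega) (t + 1) t1 (by omega)
    refine carry ext3 ho (rsub t1) (· ∈ Al) (fun u => p (t + 1) 0 (σ u)) (fun u => p t 1 (σ u))
      (sta p ty) L (fun u hu => ⟨pmem h t1 0 _, conn_le (g.fam.conn u (mem_univ u)) g.le,
        dj.mono_left (s1 u), g.hd u hu, (h.wire t ht.le _).symm, g.st u,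
        (s1 u).trans (biUnion_subset_biUnion_of_subset_left R (range_subset_range.2 (by omega)))⟩)
      (fun u u' _ _ n => g.fam.disj u (mem_univ _) u' (mem_univ _) n) fun v hv => ?_
    have no : v ∈ A → v ∈ B → False := fun x z => by
      obtain ⟨u, hu, e1⟩ := mem_image.1 (hA x)
      obtain ⟨u', hu', e2⟩ := mem_image.1 (hB z)
      have e3 := (h.inj _ t1 0 _ 0 _ (e1.trans e2.symm)).2
      have e4 : u ≠ u' := fun c => (mem_sdiff.1 hu').2 (c ▸ (mem_inter.1 hu).2)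
      exact disjoint_left.1 (g.fam.disj u (mem_univ _) u' (mem_univ _) e4)
        (g.hd u (mem_inter.1 hu).1) (e3 ▸ g.hd u' (mem_sdiff.1 hu').1)
    rcases mem_union.1 hv with x | x
    · obtain ⟨u, hu, e1⟩ := mem_image.1 (hA x)
      refine ⟨u, (mem_inter.1 hu).1, e1, fun _ => ?_, fun z => (no x z).elim⟩
      rw [sta, if_pos (mem_inter.1 hu).2]
      exact prt_sub (by omega) 2 (mem_image_of_mem _ (mem_univ u))
    · obtain ⟨u, hu, e1⟩ := mem_image.1 (hB x)
      refine ⟨u, (mem_sdiff.1 hu).1, e1, fun z => (no z x).elim, fun _ => ?_⟩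
      rw [sta, if_neg (mem_sdiff.1 hu).2]
      exact prt_sub (by omega) 3 (mem_image_of_mem _ (mem_univ u))

end Pool.Agent.MP_35cb46_co.Ce
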