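import Pool.Agent.MP_35cb46_co.nl.Spec

/-! PROJECT FL: shared definitions for the bound `p q polylog`. -/

noncomputable section

namespace Pool.Agent.MP_35cb46_co.Fl

open Finset Pool.Agent.MP_7be75d_co Pool.Agent.MP_35cb46_co.Sq Pool.Agent.MP_35cb46_co.Nl
open scoped Classical

variable {V α β γ ι κ : Type}

/-- Disjoint connected strands in `A`; the strand of `a` contains `f a` and `g a`. -/
structure Lk (G : SimpleGraph V) (A : Finset V) (S : Finset α) (f g : α → V)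
    (P : α → Finset V) : Prop where
  fam : Fam G A S P
  st : ∀ a ∈ S, f a ∈ P a
  en : ∀ a ∈ S, g a ∈ P a

/-- A linkage inside `A`. -/
def Lnk (G : SimpleGraph V) (A : Finset V) (S : Finset α) (f g : α → V) : Prop :=
  ∃ P, Lk G A S f g P

/-- A cell: subsets of `I` and `O` of equal size are linked inside `A`. -/
def Cel (G : SimpleGraph V) (A I O : Finset V) : Prop :=
  I ⊆ A ∧ O ⊆ A ∧ ∀ I' ⊆ I, ∀ O' ⊆ O, I'.card = O'.card →
    ∃ g : V → V, (∀ x ∈ I', g x ∈ O') ∧ Lnk G A I' id g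

/-- Disjoint cells inside `Reg`. -/
structure Lay (G : SimpleGraph V) (Reg : Finset V) (J : Finset ι) (A I O : ι → Finset V) :
    Prop where
  sub : ∀ c ∈ J, A c ⊆ Reg
  disj : ∀ c ∈ J, ∀ c' ∈ J, c ≠ c' → Disjoint (A c) (A c')
  cel : ∀ c ∈ J, Cel G (A c) (I c) (O c)

/-- A junction: subsets of `E` and `E'` of equal size are joined by strands inside `H`. -/
def Jn (G : SimpleGraph V) (H E E' : Finset V) : Prop :=
  ∀ I ⊆ E, ∀ O ⊆ E', I.card = O.card → ∃ (g : V → V) (P : V → Finset V),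
    (∀ x ∈ I, g x ∈ O) ∧ Set.InjOn g I ∧ Fam G H I P ∧
      ∀ x ∈ I, Touch G {x} (P x) ∧ Touch G (P x) {g x}

/-- Number of members of `S` with the labels `b` and `c`. -/
def lump (S : Finset α) (f : α → β) (g : α → γ) (b : β) (c : γ) : ℕ :=
  (S.filter fun a => f a = b ∧ g a = c).card

/-- The data of a hub system: routers, regions, ports. -/
structure HD (V : Type) where
  R : ℕ → Finset V
  Rg : ℕ → Finset V
  pt : ℕ → ℕ → ℕ → V

/-- All ports of the class `s`; the ports `pt s s i` are spare. -/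
def HD.ports (h : HD V) (N F s : ℕ) : Finset V :=
  (range N ×ˢ range F).image fun q => h.pt s q.1 q.2

/-- The region of a set of classes. -/
def HD.reg (h : HD V) (U : Finset ℕ) : Finset V := U.biUnion h.Rg

/-- `N` routers, `F` wires between any two, `F` roots in the class `0`. -/
structure Hub (G : SimpleGraph V) (Amb Rt : Finset V) (N F : ℕ) (h : HD V) : Prop where
  rsub : ∀ s < N, h.R s ⊆ h.Rg s
  sub : ∀ s < N, h.Rg s ⊆ Amb
  disj : ∀ s < N, ∀ t < N, s ≠ t → Disjoint (h.Rg s) (h.Rg t)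
  inj : ∀ s < N, Set.InjOn (fun q : ℕ × ℕ => h.pt s q.1 q.2) ↑(range N ×ˢ range F)
  adj : ∀ s < N, ∀ t < N, s ≠ t → ∀ i < F, G.Adj (h.pt s t i) (h.pt t s i)
  cel : ∀ s < N, Cel G (h.R s) (h.ports N F s) (h.ports N F s)
  conn : ∀ s < N, Conn G (h.R s)
  root : ∀ i < F, h.pt 0 0 i ∈ Rt

/-- The vertices of `E` are matched with ports of the class `s` towards classes in `U`. -/
def Dock (G : SimpleGraph V) (h : HD V) (F : ℕ) (U : Finset ℕ) (s : ℕ) (E : Finset V) : Prop :=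
  ∃ μ : V → V, Set.InjOn μ E ∧ ∀ x ∈ E, G.Adj x (μ x) ∧ ∃ t ∈ U, ∃ i < F, μ x = h.pt s t i

/-- Addresses of a stage: node of a track, default cell of a node, block of a cell. -/
structure SD where
  nd : ℕ → ℕ
  df : ℕ → ℕ
  bl : ℕ → ℕ

/-- The cell of a track. -/
def SD.ce (S : SD) (τ : ℕ) : ℕ := S.df (S.nd τ)

/-- The cells. -/
def SD.cells (S : SD) (F : ℕ) : Finset ℕ := (range F).image S.ce

/-- An assignment of the nodes to cells of their blocks. -/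
def SD.Ok (S : SD) (F : ℕ) (as : ℕ → ℕ) : Prop :=
  ∀ τ < F, as (S.nd τ) ∈ S.cells F ∧ S.bl (as (S.nd τ)) = S.bl (S.ce τ)

/-- Cells have `e` tracks, nodes at most `d`, blocks `θ` cells. -/
structure Shape (F : ℕ) (S : SD) (e d θ : ℕ) : Prop where
  ce : ∀ c ∈ S.cells F, cnt (range F) S.ce c = e
  nd : ∀ n, cnt (range F) S.nd n ≤ d
  bl : ∀ c ∈ S.cells F, cnt (S.cells F) S.bl (S.bl c) = θ

/-- The two outcomes of the cell lemma at scale `y`. -/
def Kind (y P B θ₀ e d θ : ℕ) : Prop :=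
  y ≤ P * e ∧ ((θ = 1 ∧ e ≤ y) ∨ (θ = θ₀ ∧ B * d ≤ e ∧ P * B * d ≤ y))

/-- The ports `f τ` of the tracks with label `c`. -/
def fib (F : ℕ) (f : ℕ → V) (l : ℕ → ℕ) (c : ℕ) : Finset V :=
  ((range F).filter fun τ => l τ = c).image f

/-- A stage with `F` tracks, entries `a`, exits `b`; the entries of a node go to a chosen cell. -/
structure Stg (G : SimpleGraph V) (Reg : Finset V) (F : ℕ) (a b : ℕ → V) (S : SD) : Prop where
  pass : Lnk G Reg (range F) a b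
  ne : ∀ τ < F, ∀ τ' < F, a τ ≠ b τ'
  flex : ∀ as, S.Ok F as →
    ∃ A, Lay G Reg (S.cells F) A (fib F a fun τ => as (S.nd τ)) (fib F b S.ce)

/-- Stages `S j`, `j < k`, in series; `r j j'` says that `j` comes before `j'`. -/
structure Ser (G : SimpleGraph V) (Reg : Finset V) (F k : ℕ) (r : ℕ → ℕ → Prop)
    (a b : ℕ → V) (S : ℕ → SD) : Prop where
  one : ∀ j < k, Stg G Reg F a b (S j)
  two : ∀ j < k, ∀ j' < k, r j j' → ∃ (R₁ R₂ : Finset V) (x y : ℕ → V), R₁ ⊆ Reg ∧ R₂ ⊆ Reg ∧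
    Disjoint R₁ R₂ ∧ Stg G R₁ F a x (S j) ∧ Stg G R₂ F y b (S j') ∧ ∀ τ < F, G.Adj (x τ) (y τ)

/-- A structure in the classes `U` whose ends are docked at the classes `s`, `s'` of `U`. -/
structure Ends (G : SimpleGraph V) (h : HD V) (F₀ F : ℕ) (U : Finset ℕ) (s s' : ℕ)
    (a b : ℕ → V) : Prop where
  m1 : s ∈ U
  m2 : s' ∈ U
  ne : s ≠ s'
  d1 : Dock G h F₀ U s ((range F).image a)
  d2 : Dock G h F₀ U s' ((range F).image b)

/-- The top stage: `F` tracks docked at `s`, nodes of load at most `d`, each node can send its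
tracks to any of the classes `cl t`, `t < T`. -/
structure Top (G : SimpleGraph V) (h : HD V) (N F₀ F T d : ℕ) (U : Finset ℕ) (s : ℕ)
    (cl : ℕ → ℕ) (a : ℕ → V) (nd : ℕ → ℕ) : Prop where
  m1 : s ∈ U
  m2 : ∀ t < T, cl t ∈ U
  inj : Set.InjOn a ↑(range F)
  dock : Dock G h F₀ U s ((range F).image a)
  load : ∀ n, cnt (range F) nd n ≤ d
  flex : ∀ as : ℕ → ℕ, (∀ n, as n < T) → ∃ A, Lay G (h.reg (U.erase s)) (range T) A
    (fib F a fun τ => as (nd τ))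
    fun t => ((range N \ U) ×ˢ range F₀).image fun q => h.pt (cl t) q.1 q.2

/-- At most `z` wires between two layers docked at `E`, `E'` can be in lumps of size `≤ thr`. -/
def Poor (G : SimpleGraph V) (Reg E E' : Finset V) (n thr z : ℕ) : Prop :=
  ∀ (R₁ R₂ : Finset V) (J₁ J₂ : Finset ℕ) (A₁ I₁ O₁ A₂ I₂ O₂ : ℕ → Finset V) (S : Finset V)
    (y : V → V) (c₁ c₂ : V → ℕ), R₁ ⊆ Reg → R₂ ⊆ Reg → Disjoint R₁ R₂ →
    Lay G R₁ J₁ A₁ I₁ O₁ → Lay G R₂ J₂ A₂ I₂ O₂ → J₁.card ≤ n → J₂.card ≤ n →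
    (∀ c ∈ J₁, I₁ c ⊆ E) → (∀ c ∈ J₂, O₂ c ⊆ E') →
    (∀ x ∈ S, c₁ x ∈ J₁ ∧ x ∈ O₁ (c₁ x) ∧ c₂ x ∈ J₂ ∧ y x ∈ I₂ (c₂ x) ∧ G.Adj x (y x)) →
    Set.InjOn y S → (∀ c, cnt S c₁ c ≤ (I₁ c).card) → (∀ c, cnt S c₂ c ≤ (O₂ c).card) →
    (∀ c c', lump S c₁ c₂ c c' ≤ thr) → S.card ≤ z

/-- The set `Cl` of classes is poor. -/
def PoorC (G : SimpleGraph V) (h : HD V) (F₀ : ℕ) (Cl : Finset ℕ) (n thr z : ℕ) : Prop :=
  ∀ s ∈ Cl, ∀ s' ∈ Cl, s ≠ s' → ∀ E E' : Finset V, Dock G h F₀ Cl s E → Dock G h F₀ Cl s' E' →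
    E.card ≤ F₀ → E'.card ≤ F₀ → Poor G (h.reg ((Cl.erase s).erase s')) E E' n thr z

/-- The tracks `Q` are led through `W` from the exits `o τ` to the entries `i (π τ)`. -/
structure Sys (G : SimpleGraph V) (W : Finset V) (F : ℕ) (o i : ℕ → V) (Q : Finset ℕ)
    (π : ℕ → ℕ) : Prop where
  sub : Q ⊆ range F
  lt : ∀ τ ∈ Q, π τ < F
  inj : Set.InjOn π Q
  str : ∃ P : ℕ → Finset V, Fam G W Q P ∧
    ∀ τ ∈ Q, Touch G {o τ} (P τ) ∧ Touch G (P τ) {i (π τ)}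

/-- `n` rooted hosts with `r` roots and `q` exits each. -/
structure Hst (G : SimpleGraph V) (Reg Rt : Finset V) (n q r K : ℕ) (A Ro O : ℕ → Finset V) :
    Prop where
  fam : Fam G Reg (range n) A
  ro : ∀ i < n, Ro i ⊆ A i ∧ Ro i ⊆ Rt ∧ (Ro i).card = r
  ex : ∀ i < n, O i ⊆ A i ∧ (O i).card = q ∧ Disjoint (Ro i) (O i)
  wl : ∀ i < n, WL (aw G) (A i) (ind (Ro i ∪ O i)) K

/-- The data of a web: cores with ports, wires as pairs of strands, roots. -/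
structure WD (V κ : Type) where
  J : Finset κ
  C : κ → Finset V
  Pt : κ → Finset V
  Om : Finset V
  m : V → V
  P : V → Finset V
  tl : V → V
  own : V → κ
  Ro : Finset V

/-- The number of wires between two cores. -/
def WD.mu (W : WD V κ) (a b : κ) : ℕ := lump W.Om W.own (fun x => W.own (W.m x)) a b

/-- Well linked cores joined by bundles of at least `u` wires. -/
structure Web (G : SimpleGraph V) (Amb Rt : Finset V) (K g u : ℕ) (W : WD V κ) : Prop where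
  fam : Fam G Amb W.J W.C
  pt : ∀ i ∈ W.J, W.Pt i ⊆ W.C i ∧ (W.Pt i).card ≤ g ∧ WL (aw G) (W.C i) (ind (W.Pt i)) K
  om : ∀ x ∈ W.Om, W.own x ∈ W.J ∧ x ∈ W.Pt (W.own x) ∧ W.m x ∈ W.Om ∧ W.m (W.m x) = x ∧
    W.own (W.m x) ≠ W.own x ∧ G.Adj (W.tl x) (W.tl (W.m x))
  str : Lk G Amb W.Om id W.tl W.P
  out : ∀ x ∈ W.Om, ∀ i ∈ W.J, ∀ v ∈ W.P x, v ∈ W.C i → v = x
  fat : ∀ x ∈ W.Om, u ≤ W.mu (W.own x) (W.own (W.m x))
  ro : W.Ro ⊆ Rt ∧ Disjoint W.Ro W.Om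

end Pool.Agent.MP_35cb46_co.Fl
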