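import Pool.Agent.MP_35cb46_co.nl.DoneA
import Pool.Agent.MP_35cb46_co.fl.Defs

/-! PROJECT FL, row FREE: exact cells by a greedy choice of ports. -/

noncomputable section

namespace Pool.Agent.MP_35cb46_co.Fl

open Finset Pool.Agent.MP_7be75d_co Pool.Agent.MP_35cb46_co.Sq Pool.Agent.MP_35cb46_co.Nl
open scoped Classical

namespace FreeP

variable {V : Type} {G : SimpleGraph V} {X T A W A' W' : Finset V} {τ : V → ℕ} {K n : ℕ}

/-- A light side `A` of a separation, with its closure `W`. -/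
structure Sp (G : SimpleGraph V) (X : Finset V) (τ : V → ℕ) (A W : Finset V) : Prop where
  sub : A ⊆ W
  inX : W ⊆ X
  cl : ∀ x ∈ A, ∀ y ∈ X, G.Adj x y → y ∈ W
  le : 2 * ts τ A ≤ ts τ X

/-- No light side hides more points of `T` than its order. -/
def Free (G : SimpleGraph V) (X : Finset V) (τ : V → ℕ) (T : Finset V) : Prop :=
  T ⊆ X ∧ ∀ A W, Sp G X τ A W → (T ∩ W).card + A.card ≤ W.card

theorem Free.empty : Free G X τ ∅ :=
  ⟨empty_subset _, fun _ _ h => by simpa using card_le_card h.sub⟩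

theorem Sp.small [Fintype V] (h : Sp G X τ A W) (hd : Deg G univ 6) (hw : WL (aw G) X τ K) :
    ts τ A ≤ K * ((W \ A).card * 6) := by
  have h1 := hw A (h.sub.trans h.inX)
  have h2 := ts_sdiff (τ := τ) (h.sub.trans h.inX)
  have h3 := h.le
  have h4 : cw (aw G) A ((X \ A) \ (W \ A)) = 0 := cw_eq_zero.2 fun a ha b hb => by
    obtain ⟨h5, h6⟩ := mem_sdiff.1 hb
    exact if_neg fun e => h6 (mem_sdiff.2 ⟨h.cl a ha b (mem_sdiff.1 h5).1 e, (mem_sdiff.1 h5).2⟩)
  have h5 := cw_sdiff_right (w := aw G) (A := A) (sdiff_subset_sdiff h.inX (subset_rfl (a := A)))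
  have h6 := hd.cw_le (F := W \ A) (U' := A) (subset_univ _) (subset_univ _)
  rw [cw_comm aw_comm] at h6
  rw [min_eq_left (by omega)] at h1
  exact h1.trans (Nat.mul_le_mul_left _ (by omega))

theorem Free.cel [Fintype V] (h : Free G X τ T) : Cel G X T T := by
  refine ⟨h.1, h.1, fun I hI O hO hc => ?_⟩
  have key : ∀ Z : Finset V, Z.card < I.card → Joined G X I O Z := by
    intro Z hZ
    by_contra hn
    obtain ⟨A, hA⟩ : ∃ A, A = (X \ Z).filter fun v => ∃ a ∈ I, a ∈ X \ Z ∧ R G (X \ Z) a v :=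
      ⟨_, rfl⟩
    have mA : ∀ {v}, v ∈ A ↔ v ∈ X \ Z ∧ ∃ a ∈ I, a ∈ X \ Z ∧ R G (X \ Z) a v := by
      simp only [hA, mem_filter, implies_true]
    have cA : ∀ x ∈ A, ∀ y ∈ X \ Z, G.Adj x y → y ∈ A := fun x hx y hy e => by
      obtain ⟨h1, a, h2, h3, h4⟩ := mA.1 hx
      exact mA.2 ⟨hy, a, h2, h3, h4.tail e h1 hy⟩
    have sA : A ⊆ X \ Z := fun _ hv => (mA.1 hv).1
    have h0 := ts_sdiff (τ := τ) sA
    have h1 := ts_mono (τ := τ) (sdiff_subset (s := X) (t := Z))
    have fin : ∀ B J : Finset V, B ⊆ X \ Z → (∀ x ∈ B, ∀ y ∈ X \ Z, G.Adj x y → y ∈ B) →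
        2 * ts τ B ≤ ts τ X → J ⊆ T → (∀ v ∈ J, v ∈ X \ Z → v ∈ B) → J.card ≤ Z.card := by
      intro B J b1 b2 b3 b4 b5
      have c1 := h.2 B (B ∪ X ∩ Z) ⟨subset_union_left,
        union_subset (b1.trans sdiff_subset) inter_subset_left, fun x hx y hy e => by
          by_cases hz : y ∈ Z
          · exact mem_union_right _ (mem_inter.2 ⟨hy, hz⟩)
          · exact mem_union_left _ (b2 x hx y (mem_sdiff.2 ⟨hy, hz⟩) e), b3⟩
      have c2 := card_union_le B (X ∩ Z)
      have c3 := card_le_card (inter_subset_right (s₁ := X) (s₂ := Z))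
      have c4 : J.card ≤ (T ∩ (B ∪ X ∩ Z)).card := card_le_card fun v hv =>
        mem_inter.2 ⟨b4 hv, by
          by_cases hz : v ∈ Z
          · exact mem_union_right _ (mem_inter.2 ⟨h.1 (b4 hv), hz⟩)
          · exact mem_union_left _ (b5 v hv (mem_sdiff.2 ⟨h.1 (b4 hv), hz⟩))⟩
      omega
    by_cases hl : 2 * ts τ A ≤ ts τ X
    · have := fin A I sA cA hl hI fun v hv h2 => mA.2 ⟨h2, v, hv, h2, R.refl⟩
      omega
    · have := fin ((X \ Z) \ A) O sdiff_subset (fun x hx y hy e => mem_sdiff.2 ⟨hy, fun h2 =>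
        (mem_sdiff.1 hx).2 (cA y h2 x (mem_sdiff.1 hx).1 e.symm)⟩) (by omega) hO
        fun v hv h2 => mem_sdiff.2 ⟨h2, fun h3 => by
          obtain ⟨-, a, h4, h5, h6⟩ := mA.1 h3
          exact hn ⟨a, h4, v, hv, h5, h6⟩⟩
      omega
  obtain ⟨P₀, hP₀⟩ := menger X I.card _ G I O le_rfl key
  obtain ⟨P, hP, hm, -⟩ := hP₀.reindex (κ := I) Subtype.val
    (fun v hv => mem_image.2 ⟨⟨v, hv⟩, mem_univ _, rfl⟩) (by simp)
  choose g hg hg' using hP.right
  refine ⟨fun x => if hx : x ∈ I then g ⟨x, hx⟩ else x, fun x hx => by simp only [dif_pos hx, hg],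
    fun x => if hx : x ∈ I then P ⟨x, hx⟩ else ∅, ⟨fun x hx => ?_, fun x hx => ?_,
      fun x hx y hy e => ?_⟩, fun x hx => ?_, fun x hx => ?_⟩
  · simp only [dif_pos hx]; exact hP.sub _
  · simp only [dif_pos hx]; exact hP.conn _
  · simp only [dif_pos hx, dif_pos hy]; exact hP.disj _ _ fun e' => e (congrArg Subtype.val e')
  · simp only [dif_pos hx]; exact hm ⟨x, hx⟩
  · simp only [dif_pos hx]; exact hg' _

theorem Free.add [Fintype V] (h : Free G X τ T) (hd : Deg G univ 6) (hw : WL (aw G) X τ K)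
    (h7 : ∀ v, τ v ≤ 7) (hK : 1 ≤ K) (hT : T.card ≤ n) (hn : 24 * K * n ≤ ts τ X) :
    ∃ B, T ⊆ B ∧ ts τ B ≤ 13 * K * n ∧ ∀ v ∈ X \ B, Free G X τ (insert v T) := by
  obtain ⟨⟨A, W⟩, ⟨h1, h2⟩, hmax⟩ := exists_max_of
    (p := fun q : Finset V × Finset V => Sp G X τ q.1 q.2 ∧ q.2.card ≤ (T ∩ q.2).card + q.1.card)
    (fun q => q.2.card) X.card (fun q hq => card_le_card hq.1.inX)
    ⟨(∅, ∅), ⟨subset_rfl, empty_subset _, by simp, by simp [ts]⟩, by simp⟩
  dsimp only at h1 h2 hmax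
  have ord : ∀ A W, Sp G X τ A W → W.card ≤ (T ∩ W).card + A.card → (W \ A).card ≤ n :=
    fun A W a b => by
      have c1 := card_sdiff_add_card_eq_card a.sub
      have c2 := card_le_card (inter_subset_left (s₁ := T) (s₂ := W))
      omega
  have top : ∀ A' W', Sp G X τ A' W' → W'.card ≤ (T ∩ W').card + A'.card → W' ⊆ W := by
    intro A' W' a b
    have s1 := (h1.small hd hw).trans (Nat.mul_le_mul_left K (Nat.mul_le_mul_right 6 (ord _ _ h1 h2)))
    have s2 := (a.small hd hw).trans (Nat.mul_le_mul_left K (Nat.mul_le_mul_right 6 (ord _ _ a b)))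
    have s3 := ts_union_le (τ := τ) (A := A) (B := A')
    have s4 := ts_mono (τ := τ) (inter_subset_left (s₁ := A) (s₂ := A'))
    have u : Sp G X τ (A ∪ A') (W ∪ W') := ⟨union_subset_union h1.sub a.sub,
      union_subset h1.inX a.inX, fun x hx y hy e => by
        rcases mem_union.1 hx with c | c
        · exact mem_union_left _ (h1.cl x c y hy e)
        · exact mem_union_right _ (a.cl x c y hy e), by
      have : 24 * K * n = 4 * (K * (n * 6)) := by ring
      omega⟩
    have i := h.2 (A ∩ A') (W ∩ W') ⟨inter_subset_inter h1.sub a.sub,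
      inter_subset_left.trans h1.inX, fun x hx y hy e => mem_inter.2
        ⟨h1.cl x (mem_inter.1 hx).1 y hy e, a.cl x (mem_inter.1 hx).2 y hy e⟩, by
      have := h1.le
      omega⟩
    have e1 := card_union_add_card_inter A A'
    have e2 := card_union_add_card_inter W W'
    have e3 := card_union_add_card_inter (T ∩ W) (T ∩ W')
    rw [← inter_union_distrib_left, ← inter_inter_distrib_left] at e3
    have m := hmax (A ∪ A', W ∪ W') ⟨u, by dsimp only; omega⟩
    have := eq_of_subset_of_card_le (subset_union_left (s₁ := W) (s₂ := W')) m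
    exact this ▸ subset_union_right
  refine ⟨W, fun t ht => top ∅ {t} ⟨empty_subset _, singleton_subset_iff.2 (h.1 ht), by simp,
    by simp [ts]⟩ (by simp [ht]) (mem_singleton_self t), ?_, fun v hv => ⟨insert_subset
      (mem_sdiff.1 hv).1 h.1, fun A' W' a => ?_⟩⟩
  · have s1 := (h1.small hd hw).trans (Nat.mul_le_mul_left K (Nat.mul_le_mul_right 6 (ord _ _ h1 h2)))
    have s2 := ts_sdiff (τ := τ) h1.sub
    have s3 := (ts_le_card (τ := τ) (A := W \ A) fun v _ => h7 v).trans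
      (Nat.mul_le_mul_right 7 (ord _ _ h1 h2))
    have s4 : n * 7 ≤ K * (n * 7) := Nat.le_mul_of_pos_left _ hK
    have : 13 * K * n = K * (n * 6) + K * (n * 7) := by ring
    omega
  · have s1 := h.2 A' W' a
    by_cases hv' : v ∈ W'
    · have s2 : ¬ W'.card ≤ (T ∩ W').card + A'.card := fun e =>
        (mem_sdiff.1 hv).2 (top A' W' a e hv')
      have s3 := card_insert_le v (T ∩ W')
      rw [insert_inter_of_mem hv']
      omega
    · rwa [insert_inter_of_notMem hv']

end FreeP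

open FreeP in
/-- Requests are served one after the other; the ports chosen in each set `R s` form a cell. -/
theorem free {V ρ : Type} [Fintype V] {G : SimpleGraph V} {K n : ℕ} (Cl : Finset ℕ)
    (R : ℕ → Finset V) (τ : ℕ → V → ℕ) (Rq : Finset ρ) (dom : ρ → Finset ℕ)
    (ok : ρ → (ℕ → V) → Prop) (v₀ : V) (hd : Deg G univ 6) (hK : 1 ≤ K) (hn : Rq.card ≤ n)
    (hR : ∀ s ∈ Cl, WL (aw G) (R s) (τ s) K ∧ (∀ v, τ s v ≤ 7) ∧ 24 * K * n ≤ ts (τ s) (R s))
    (hq : ∀ r ∈ Rq, ∀ B : ℕ → Finset V, (∀ s ∈ Cl, ts (τ s) (B s) ≤ 13 * K * n) →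
      ∃ f, ok r f ∧ ∀ s ∈ Cl, s ∈ dom r → f s ∈ R s \ B s) :
    ∃ f : ρ → ℕ → V, (∀ r ∈ Rq, ok r (f r)) ∧ ∀ s ∈ Cl,
      (∀ r ∈ Rq, ∀ r' ∈ Rq, s ∈ dom r → s ∈ dom r' → f r s = f r' s → r = r') ∧
      Cel G (R s) ((Rq.filter fun r => s ∈ dom r).image fun r => f r s)
        ((Rq.filter fun r => s ∈ dom r).image fun r => f r s) := by
  have key : ∀ S ⊆ Rq, ∃ f : ρ → ℕ → V, (∀ r ∈ S, ok r (f r)) ∧ ∀ s ∈ Cl,
      (∀ r ∈ S, ∀ r' ∈ S, s ∈ dom r → s ∈ dom r' → f r s = f r' s → r = r') ∧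
      Free G (R s) (τ s) ((S.filter fun r => s ∈ dom r).image fun r => f r s) := by
    intro S
    induction S using Finset.induction_on with
    | empty => exact fun _ => ⟨fun _ _ => v₀, by simp, fun s _ => ⟨by simp, by
        simpa using Free.empty⟩⟩
    | insert a S ha ih =>
      intro hS
      obtain ⟨f, h1, h2⟩ := ih ((subset_insert _ _).trans hS)
      have h3 : ∀ s, ∃ B, s ∈ Cl → ((S.filter fun r => s ∈ dom r).image fun r => f r s) ⊆ B ∧
          ts (τ s) B ≤ 13 * K * n ∧ ∀ v ∈ R s \ B, Free G (R s) (τ s)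
            (insert v ((S.filter fun r => s ∈ dom r).image fun r => f r s)) := fun s => by
        by_cases hs : s ∈ Cl
        · obtain ⟨B, hB⟩ := (h2 s hs).2.add hd (hR s hs).1 (hR s hs).2.1 hK
            (card_image_le.trans ((card_le_card ((filter_subset _ _).trans
              ((subset_insert _ _).trans hS))).trans hn)) (hR s hs).2.2
          exact ⟨B, fun _ => hB⟩
        · exact ⟨∅, fun e => absurd e hs⟩
      choose B hB using h3
      obtain ⟨g, g1, g2⟩ := hq a (hS (mem_insert_self _ _)) B fun s hs => (hB s hs).2.1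
      have up : ∀ r ∈ S, Function.update f a g r = f r := fun r hr =>
        Function.update_of_ne (fun e : r = a => ha (e ▸ hr)) _ _
      have new : ∀ s ∈ Cl, ∀ r ∈ S, s ∈ dom a → s ∈ dom r → g s ≠ f r s := fun s hs r hr c1 c2 e =>
        (mem_sdiff.1 (g2 s hs c1)).2 ((hB s hs).1 (e ▸ mem_image_of_mem _ (mem_filter.2 ⟨hr, c2⟩)))
      refine ⟨Function.update f a g, fun r hr => ?_, fun s hs => ⟨fun r hr r' hr' c1 c2 e => ?_, ?_⟩⟩
      · rcases mem_insert.1 hr with rfl | hr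
        · rwa [Function.update_self]
        · rw [up r hr]; exact h1 r hr
      · rcases mem_insert.1 hr with e1 | e1 <;> rcases mem_insert.1 hr' with e2 | e2
        · rw [e1, e2]
        · rw [e1, Function.update_self, up r' e2] at e
          exact absurd e (new s hs r' e2 (e1 ▸ c1) c2)
        · rw [e2, Function.update_self, up r e1] at e
          exact absurd e.symm (new s hs r e1 (e2 ▸ c2) c1)
        · rw [up r e1, up r' e2] at e
          exact (h2 s hs).1 r e1 r' e2 c1 c2 e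
      · have e : ((S.filter fun r => s ∈ dom r).image fun r => Function.update f a g r s) =
            (S.filter fun r => s ∈ dom r).image fun r => f r s :=
          image_congr fun r hr => by rw [up r (mem_filter.1 (mem_coe.1 hr)).1]
        rw [filter_insert]
        split_ifs with c
        · rw [image_insert, e, Function.update_self]
          exact (hB s hs).2.2 _ (g2 s hs c)
        · rw [e]; exact (h2 s hs).2
  obtain ⟨f, h1, h2⟩ := key Rq subset_rfl
  exact ⟨f, h1, fun s hs => ⟨(h2 s hs).1, (h2 s hs).2.cel⟩⟩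

end Pool.Agent.MP_35cb46_co.Fl
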