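import Pool.Agent.MP_35cb46_co.fl.Free
import Pool.Agent.MP_35cb46_co.fl.Base1
import Pool.Agent.MP_35cb46_co.fl.Base2

/-! PROJECT FL, row HUB: routers, wires, roots and top groups from plenty of candidates. -/

noncomputable section

namespace Pool.Agent.MP_35cb46_co.Fl

open Finset Pool.Agent.MP_7be75d_co Pool.Agent.MP_35cb46_co.Sq Pool.Agent.MP_35cb46_co.Nl
open scoped Classical

namespace HubP

variable {V : Type} {G : SimpleGraph V}

theorem cel_one {u : Finset V} (h : Conn G u) {x x' : V} (hx : x ∈ u) (hx' : x' ∈ u) :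
    Cel G u {x} {x'} := by
  refine ⟨singleton_subset_iff.2 hx, singleton_subset_iff.2 hx', fun I hI O hO hc =>
    ⟨fun _ => x', fun v hv => ?_, fun _ => u, ⟨fun _ _ => subset_rfl, fun _ _ => h,
      fun a ha b hb e => absurd ?_ e⟩, fun a ha => ?_, fun _ _ => hx'⟩⟩
  · obtain ⟨z, hz⟩ : O.Nonempty := card_pos.1 (hc ▸ card_pos.2 ⟨v, hv⟩)
    exact mem_singleton.1 (hO hz) ▸ hz
  · rw [mem_singleton.1 (hI ha), mem_singleton.1 (hI hb)]
  · rw [mem_singleton.1 (hI ha)]; exact hx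

theorem cnt_le {ι κ β : Type} {I : Finset ι} {l : ι → κ} {m : κ} (x : ι → β) (S : Finset β)
    (h : ∀ i ∈ I, l i = m → x i ∈ S) (hi : Set.InjOn x I) : cnt I l m ≤ S.card :=
  card_le_card_of_injOn x (fun i a => h i (mem_filter.1 (mem_coe.1 a)).1 (mem_filter.1 (mem_coe.1 a)).2)
    (hi.mono (coe_subset.2 (filter_subset _ _)))

/-- A node gets `d` ports towards each class. -/
theorem node [Fintype V] (hd : Deg G univ 6) {u : Finset V} {σ : V → ℕ} {K N w d : ℕ}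
    (hu : Conn G u) (hw : WL (aw G) u σ K) (h7 : ∀ v, σ v ≤ 7) (hK : 1 ≤ K) (Nb : ℕ → Finset V)
    (hN : ∀ t < N, Nb t ⊆ u ∧ w ≤ (Nb t).card ∧ ∀ v, ind (Nb t) v ≤ σ v) (w1 : 1 ≤ w)
    (hdw : d = 1 ∨ 24 * K * (N * d) ≤ w) :
    ∃ C : ℕ → Finset V, (∀ t < N, C t ⊆ Nb t ∧ (C t).card = d) ∧
      ∀ s < N, ∀ t < N, Cel G u (C s) (C t) := by
  obtain ⟨v₀, -⟩ := hu.1
  have le : ∀ t < N, ∀ B, (Nb t ∩ B).card ≤ ts σ B := fun t ht B => by
    rw [inter_comm, ← ts_ind]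
    exact ts_le fun v _ => (hN t ht).2.2 v
  rcases hdw with rfl | hdw
  · have h1 : ∀ t, ∃ x, t < N → x ∈ Nb t := fun t => by
      by_cases ht : t < N
      · obtain ⟨x, hx⟩ := card_pos.1 (w1.trans (hN t ht).2.1)
        exact ⟨x, fun _ => hx⟩
      · exact ⟨v₀, fun e => absurd e ht⟩
    choose x hx using h1
    exact ⟨fun t => {x t}, fun t ht => ⟨singleton_subset_iff.2 (hx t ht), card_singleton _⟩,
      fun s hs t ht => cel_one hu ((hN s hs).1 (hx s hs)) ((hN t ht).1 (hx t ht))⟩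
  rcases Nat.eq_zero_or_pos N with rfl | N1
  · exact ⟨Nb, by simp, by simp⟩
  obtain ⟨f, f1, f2⟩ := free (K := K) (n := N * d) {0} (fun _ => u) (fun _ => σ)
    (range N ×ˢ range d) (fun _ => {0}) (fun r f => f 0 ∈ Nb r.1) v₀ hd hK (by simp)
    (fun _ _ => ⟨hw, h7, by
      have := le 0 N1 u
      rw [inter_eq_left.2 (hN 0 N1).1] at this
      exact hdw.trans ((hN 0 N1).2.1.trans this)⟩)
    (fun r hr B hB => by
      obtain ⟨h1, h2⟩ := mem_product.1 hr
      have h3 := mem_range.1 h1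
      have h4 := (le _ h3 (B 0)).trans (hB 0 (mem_singleton_self 0))
      have h5 := (hN _ h3).2.1
      have h6 : 0 < K * (N * d) := Nat.mul_pos hK (Nat.mul_pos N1 (by
        have := mem_range.1 h2
        omega))
      have h7 := card_sdiff_add_card_inter (Nb r.1) (B 0)
      rw [mul_assoc] at hdw h4
      obtain ⟨x, hx⟩ := card_pos.1 (show 0 < (Nb r.1 \ B 0).card by omega)
      exact ⟨fun _ => x, (mem_sdiff.1 hx).1, fun s hs _ => mem_sdiff.2
        ⟨(hN _ h3).1 (mem_sdiff.1 hx).1, mem_singleton.1 hs ▸ (mem_sdiff.1 hx).2⟩⟩)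
  obtain ⟨f3, f4⟩ := f2 0 (mem_singleton_self 0)
  have m : ∀ t < N, ∀ i ∈ range d, (t, i) ∈ range N ×ˢ range d := fun t ht i hi =>
    mem_product.2 ⟨mem_range.2 ht, hi⟩
  have sub : ∀ t < N, ((range d).image fun i => f (t, i) 0) ⊆ _ := fun t ht =>
    image_subset_iff.2 fun i hi => mem_image_of_mem (fun r => f r 0)
      (mem_filter.2 ⟨m t ht i hi, mem_singleton_self 0⟩ :
        (t, i) ∈ (range N ×ˢ range d).filter fun _ => 0 ∈ ({0} : Finset ℕ))
  refine ⟨fun t => (range d).image fun i => f (t, i) 0, fun t ht => ⟨image_subset_iff.2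
    fun i hi => f1 _ (m t ht i hi), ?_⟩, fun s hs t ht => f4.mono subset_rfl (sub s hs) (sub t ht)⟩
  rw [card_image_of_injOn fun i hi i' hi' e => (Prod.ext_iff.1 (f3 _ (m t ht i hi) _ (m t ht i' hi')
    (mem_singleton_self 0) (mem_singleton_self 0) e)).2, card_range]

/-- Plenty of candidates for wires, roots and nodes. -/
structure Raw (G : SimpleGraph V) (Amb Rt : Finset V) (N K n d : ℕ) (R : ℕ → Finset V)
    (τ : ℕ → V → ℕ) (Q : ℕ → Finset (Finset V)) (C : Finset V → ℕ → Finset V)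
    (y : ℕ → V → V) : Prop where
  sub : ∀ s < N, R s ⊆ Amb ∧ un (Q s) ⊆ Amb
  conn : ∀ s < N, Conn G (R s)
  rr : ∀ s < N, ∀ t < N, s ≠ t → Disjoint (R s) (R t) ∧ Disjoint (un (Q s)) (un (Q t))
  rq : ∀ s < N, ∀ t < N, Disjoint (R s) (un (Q t))
  pd : ∀ s < N, PD (Q s)
  wl : ∀ s < N, WL (aw G) (R s) (τ s) K ∧ (∀ v, τ s v ≤ 7) ∧ 24 * K * n ≤ ts (τ s) (R s)
  wire : ∀ s < N, ∀ t < N, s ≠ t → ∀ B B', ts (τ s) B ≤ 13 * K * n → ts (τ t) B' ≤ 13 * K * n →
    ∃ v ∈ R s \ B, ∃ v' ∈ R t \ B', G.Adj v v'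
  root : ∀ B, ts (τ 0) B ≤ 13 * K * n → ∃ v ∈ R 0 \ B, v ∈ Rt
  cd : ∀ g < N, ∀ u ∈ Q g, ∀ t < N, (C u t).card ≤ d ∧ (∀ x ∈ C u t, y t x ∈ R t ∧
    G.Adj x (y t x)) ∧ ∀ s < N, Cel G u (C u s) (C u t)
  live : ∀ g < N, ∀ B : ℕ → Finset V, (∀ s < N, ts (τ s) (B s) ≤ 13 * K * n) →
    ∃ u ∈ Q g, ∀ t < N, ∃ x ∈ C u t, y t x ∉ B t

/-- The group of a class. -/
def gr (T s : ℕ) : ℕ := (s + T + 1) / (T + 2)

theorem gr_le (T s : ℕ) : gr T s ≤ s := by
  rw [gr, ← Nat.lt_succ_iff, Nat.div_lt_iff_lt_mul (by omega)]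
  nlinarith

theorem gr_zero {T s : ℕ} : gr T s = 0 ↔ s = 0 := by
  rw [gr, Nat.div_eq_zero_iff]
  omega

theorem gr_tg {T j s : ℕ} (h : s ∈ tg T j) : gr T s = j + 1 := by
  rw [tg, mem_Ico] at h
  rw [gr, Nat.div_eq_iff (by omega)]
  constructor <;> nlinarith [h.1, h.2, Nat.sub_add_cancel (show 1 ≤ (j + 1) * (T + 2) + (T + 2) by
    omega)]

/-- The name of a request. -/
def key (T s t : ℕ) : Sym2 ℕ ⊕ ℕ := if s = t then Sum.inr (gr T s) else Sum.inl s(s, t)

/-- The classes that serve a request. -/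
def dm (N T : ℕ) : Sym2 ℕ ⊕ ℕ → Finset ℕ :=
  Sum.elim (fun e => (range N).filter fun c => c ∈ e) fun g => (range N).filter fun c => gr T c = g

theorem mem_dm {N T s : ℕ} (hs : s < N) (t : ℕ) : s ∈ dm N T (key T s t) := by
  unfold key
  split_ifs <;> simp [dm, hs]

theorem key_inj {T s t t' : ℕ} (h : key T s t = key T s t') : t = t' := by
  unfold key at h
  split_ifs at h with h1 h2
  · omega
  · exact Sym2.congr_right.1 (Sum.inl.inj h)

theorem key_comm (T s t : ℕ) : key T s t = key T t s := by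
  unfold key
  by_cases h : s = t
  · rw [h]
  · rw [if_neg h, if_neg (Ne.symm h), Sym2.eq_swap]

theorem hubA [Fintype V] (hd : Deg G univ 6) {Amb Rt : Finset V} {N K n d F T NT : ℕ}
    {R : ℕ → Finset V} {τ : ℕ → V → ℕ} {Q : ℕ → Finset (Finset V)} {C : Finset V → ℕ → Finset V}
    {y : ℕ → V → V} (h : Raw G Amb Rt N K n d R τ Q C y) (hK : 1 ≤ K) (hn : N * (N * F) ≤ n)
    (hN : 1 + NT * (T + 2) ≤ N) : ∃ H : HD V, Hub G Amb Rt N F H ∧ Tops G H N F T d NT := by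
  have N0 : 0 < N := by omega
  obtain ⟨v₀, -⟩ := (h.conn 0 N0).1
  obtain ⟨Rq, hRq⟩ : ∃ Rq, Rq = (range N ×ˢ range N ×ˢ range F).image
    fun q => (key T q.1 q.2.1, q.2.2) := ⟨_, rfl⟩
  have mR : ∀ s < N, ∀ t < N, ∀ i < F, (key T s t, i) ∈ Rq := fun s hs t ht i hi =>
    hRq ▸ mem_image.2 ⟨(s, t, i), by simp [hs, ht, hi], rfl⟩
  obtain ⟨f, f1, f2⟩ := free (K := K) (n := n) (range N) R τ Rq (fun r => dm N T r.1)
    (fun r f => Sum.elim (fun e => ∀ a b, e = s(a, b) → G.Adj (f a) (f b))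
      (fun g => (g = 0 → f 0 ∈ Rt) ∧ (g ≠ 0 → ∃ u ∈ Q g, ∀ t < N, ∃ x ∈ C u t, f t = y t x)) r.1)
    v₀ hd hK (hRq ▸ card_image_le.trans (by simpa using hn)) (fun s hs => h.wl s (mem_range.1 hs))
    (by
      intro r hr B hB
      have hB' : ∀ s < N, ts (τ s) (B s) ≤ 13 * K * n := fun s hs => hB s (mem_range.2 hs)
      obtain ⟨⟨s, t, i⟩, h1, rfl⟩ := mem_image.1 (hRq ▸ hr)
      simp only [mem_product, mem_range] at h1
      by_cases e : s = t
      · simp only [key, if_pos e, dm, Sum.elim_inr]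
        by_cases e0 : gr T s = 0
        · obtain ⟨v, h2, h3⟩ := h.root (B 0) (hB' 0 N0)
          refine ⟨fun _ => v, ⟨fun _ => h3, fun c => absurd e0 c⟩, fun c _ hc => ?_⟩
          rw [gr_zero.1 ((mem_filter.1 hc).2.trans e0)]
          exact h2
        · have hg : gr T s < N := (gr_le T s).trans_lt h1.1
          obtain ⟨u, hu, h2⟩ := h.live _ hg B hB'
          have h3 : ∀ t, ∃ x, t < N → x ∈ C u t ∧ y t x ∉ B t := fun t => by
            by_cases ht : t < N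
            · obtain ⟨x, hx⟩ := h2 t ht
              exact ⟨x, fun _ => hx⟩
            · exact ⟨v₀, fun c => absurd c ht⟩
          choose x hx using h3
          refine ⟨fun t => y t (x t), ⟨fun c => absurd c e0, fun _ => ⟨u, hu, fun t ht =>
            ⟨x t, (hx t ht).1, rfl⟩⟩⟩, fun c hc _ => ?_⟩
          have hc' := mem_range.1 hc
          exact mem_sdiff.2 ⟨((h.cd _ hg u hu c hc').2.1 _ (hx c hc').1).1, (hx c hc').2⟩
      · simp only [key, if_neg e, dm, Sum.elim_inl]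
        obtain ⟨v, h2, v', h3, h4⟩ := h.wire s h1.1 t h1.2.1 e _ _ (hB' s h1.1) (hB' t h1.2.1)
        refine ⟨fun c => if c = s then v else v', fun a b hab => ?_, fun c _ hc => ?_⟩
        · rcases Sym2.eq_iff.1 hab with ⟨rfl, rfl⟩ | ⟨rfl, rfl⟩
          · simpa only [if_true, if_neg (Ne.symm e)] using h4
          · simpa only [if_true, if_neg (Ne.symm e)] using h4.symm
        · rcases Sym2.mem_iff.1 (mem_filter.1 hc).2 with rfl | rfl
          · simpa only [if_true] using h2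
          · simpa only [if_neg (Ne.symm e)] using h3)
  obtain ⟨Q', hQ'⟩ : ∃ Q' : ℕ → Finset V, ∀ s, Q' s =
    if (T + 2) ∣ s then un (Q (s / (T + 2))) else ∅ := ⟨_, fun _ => rfl⟩
  have dv : ∀ s < N, s / (T + 2) < N := fun s hs => (Nat.div_le_self _ _).trans_lt hs
  have rq : ∀ s < N, ∀ t < N, Disjoint (R s) (Q' t) := fun s hs t ht => by
    rw [hQ']
    split_ifs
    · exact h.rq s hs _ (dv t ht)
    · exact disjoint_empty_right _
  obtain ⟨H, hH⟩ : ∃ H : HD V, H = ⟨R, fun s => R s ∪ Q' s, fun s t i => f (key T s t, i) s⟩ :=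
    ⟨_, rfl⟩
  have e1 : H.R = R := by rw [hH]
  have e2 : ∀ s, H.Rg s = R s ∪ Q' s := fun _ => by rw [hH]
  have e3 : ∀ s t i, H.pt s t i = f (key T s t, i) s := fun _ _ _ => by rw [hH]
  have inj : ∀ s < N, ∀ t < N, ∀ i < F, ∀ t' < N, ∀ i' < F, H.pt s t i = H.pt s t' i' →
      t = t' ∧ i = i' := fun s hs t ht i hi t' ht' i' hi' e => by
    rw [e3, e3] at e
    have := Prod.ext_iff.1 ((f2 s (mem_range.2 hs)).1 _ (mR s hs t ht i hi) _ (mR s hs t' ht' i' hi')
      (mem_dm hs t) (mem_dm hs t') e)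
    exact ⟨key_inj this.1, this.2⟩
  have cel : ∀ s < N, Cel G (R s) (H.ports N F s) (H.ports N F s) := fun s hs => by
    have sub : H.ports N F s ⊆ (Rq.filter fun r => s ∈ dm N T r.1).image fun r => f r s :=
      image_subset_iff.2 fun q hq => by
        simp only [mem_product, mem_range] at hq
        exact mem_image.2 ⟨_, mem_filter.2 ⟨mR s hs _ hq.1 _ hq.2, mem_dm hs _⟩, (e3 _ _ _).symm⟩
    exact (f2 s (mem_range.2 hs)).2.mono subset_rfl sub sub
  refine ⟨H, ⟨fun s _ => by rw [e1, e2]; exact subset_union_left, fun s hs => ?_,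
    fun s hs t ht e => ?_, fun s hs q hq q' hq' e => ?_, fun s hs t ht e i hi => ?_,
    e1 ▸ cel, e1 ▸ h.conn, fun i hi => ?_⟩, fun j hj => ?_⟩
  · rw [e2, hQ']
    refine union_subset (h.sub s hs).1 ?_
    split_ifs
    · exact (h.sub _ (dv s hs)).2
    · exact empty_subset _
  · rw [e2, e2, disjoint_union_left, disjoint_union_right, disjoint_union_right]
    refine ⟨⟨(h.rr s hs t ht e).1, rq s hs t ht⟩, (rq t ht s hs).symm, ?_⟩
    rw [hQ', hQ']
    split_ifs with a b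
    · exact (h.rr _ (dv s hs) _ (dv t ht) fun c => e (by
        rw [← Nat.div_mul_cancel a, ← Nat.div_mul_cancel b, c])).2
    · exact disjoint_empty_right _
    · exact disjoint_empty_left _
    · exact disjoint_empty_left _
  · simp only [coe_product, coe_range, Set.mem_prod, Set.mem_Iio] at hq hq'
    exact Prod.ext_iff.2 (inj s hs _ hq.1 _ hq.2 _ hq'.1 _ hq'.2 e)
  · have := f1 _ (mR s hs t ht i hi)
    rw [e3, e3, key_comm T t s]
    simp only [key, if_neg e, Sum.elim_inl] at this ⊢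
    exact this s t rfl
  · have := f1 _ (mR 0 N0 0 N0 i hi)
    rw [e3]
    simp only [key, if_true, Sum.elim_inr] at this ⊢
    exact this.1 (gr_zero.2 rfl)
  have jN : 1 + (j + 1) * (T + 2) ≤ N := le_trans (by
    have := Nat.mul_le_mul_right (T + 2) (show j + 1 ≤ NT from hj)
    omega) hN
  have ex : (j + 1) * (T + 2) = j * (T + 2) + (T + 2) := by ring
  have lt : ∀ s ∈ tg T j, s < N := fun s hs => (mem_Ico.1 hs).2.trans_le jN
  obtain ⟨s, hs⟩ : ∃ s, s = 1 + j * (T + 2) := ⟨_, rfl⟩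
  have ms : s ∈ tg T j := mem_Ico.2 ⟨by omega, by omega⟩
  have mc : ∀ t < T, s + 1 + t ∈ tg T j := fun t ht => mem_Ico.2 ⟨by omega, by omega⟩
  have sN := lt s ms
  have gN : j + 1 < N := by nlinarith
  have kk : ∀ c ∈ tg T j, key T c c = Sum.inr (j + 1) := fun c hc => by
    rw [key, if_pos rfl, gr_tg hc]
  have tr : ∀ i, ∃ (u : Finset V) (x : ℕ → V), i < F → u ∈ Q (j + 1) ∧
      ∀ c ∈ tg T j, x c ∈ C u c ∧ H.pt c c i = y c (x c) := fun i => by
    by_cases hi : i < F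
    · have := f1 _ (mR s sN s sN i hi)
      simp only [kk s ms, Sum.elim_inr] at this
      obtain ⟨u, hu, h1⟩ := this.2 (by omega)
      have h2 : ∀ c, ∃ x, c < N → x ∈ C u c ∧ f (Sum.inr (j + 1), i) c = y c x := fun c => by
        by_cases hc : c < N
        · obtain ⟨x, hx⟩ := h1 c hc
          exact ⟨x, fun _ => hx⟩
        · exact ⟨v₀, fun e => absurd e hc⟩
      choose x hx using h2
      exact ⟨u, x, fun _ => ⟨hu, fun c hc => by rw [e3, kk c hc]; exact hx c (lt c hc)⟩⟩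
    · exact ⟨∅, fun _ => v₀, fun e => absurd e hi⟩
  choose u x hux using tr
  have xi : ∀ c ∈ tg T j, ∀ i < F, ∀ i' < F, y c (x i c) = y c (x i' c) → i = i' :=
    fun c hc i hi i' hi' e => (inj c (lt c hc) c (lt c hc) i hi c (lt c hc) i' hi' (by
      rw [((hux i hi).2 c hc).2, ((hux i' hi').2 c hc).2, e])).2
  have xi' : ∀ c ∈ tg T j, Set.InjOn (fun i => x i c) ↑(range F) := fun c hc i hi i' hi' e =>
    xi c hc i (mem_range.1 hi) i' (mem_range.1 hi') (congrArg (y c) e)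
  obtain ⟨en, hen⟩ : ∃ en : Finset V → ℕ, Function.Injective en :=
    ⟨fun z => Fintype.equivFin _ z, fun a b e => (Fintype.equivFin _).injective (Fin.ext e)⟩
  have cd := h.cd _ gN
  refine ⟨s, fun t => s + 1 + t, fun i => x i s, fun i => en (u i), ms, mc, xi' s ms,
    ⟨y s, fun a ha b hb e => ?_, fun a ha => ?_⟩, fun m => ?_, fun as has => ?_⟩
  · obtain ⟨i, hi, rfl⟩ := mem_image.1 (mem_coe.1 ha)
    obtain ⟨i', hi', rfl⟩ := mem_image.1 (mem_coe.1 hb)
    rw [xi s ms i (mem_range.1 hi) i' (mem_range.1 hi') e]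
  · obtain ⟨i, hi, rfl⟩ := mem_image.1 ha
    have a1 := hux i (mem_range.1 hi)
    exact ⟨((cd _ a1.1 s sN).2.1 _ (a1.2 s ms).1).2, s, ms, i, mem_range.1 hi, (a1.2 s ms).2.symm⟩
  · by_cases e : ∃ i < F, en (u i) = m
    · obtain ⟨i, a1, a2⟩ := e
      refine le_trans (cnt_le (fun i => x i s) _ (fun i' a3 a4 => ?_) (xi' s ms))
        (cd _ (hux i a1).1 s sN).1
      rw [← hen (a4.trans a2.symm)]
      exact ((hux i' (mem_range.1 a3)).2 s ms).1
    · exact (cnt_le (fun i => x i s) ∅ (fun i a3 a4 => absurd ⟨i, mem_range.1 a3, a4⟩ e)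
        (xi' s ms)).trans (Nat.zero_le _)
  obtain ⟨cn, hcn⟩ : ∃ cn : Finset V → ℕ, ∀ z, cn z = s + 1 + as (en z) := ⟨_, fun _ => rfl⟩
  have mn : ∀ z, cn z ∈ tg T j := fun z => hcn z ▸ mc _ (has _)
  obtain ⟨S', s1, g, P, hP, hg, s2⟩ := lay V ℕ (Finset V) G (un (Q (j + 1))) (Q (j + 1)) id
    (fun z => C z s) (fun z => C z (cn z))
    (fun z => ((range F).filter fun i => u i = z).image fun i => x i (cn z)) (range F)
    (fun i => x i s) u ⟨fun z hz => subset_un hz, h.pd _ gN,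
      fun z hz => (cd z hz _ (lt _ (mn z))).2.2 s sN⟩
    (fun i hi => ⟨(hux i (mem_range.1 hi)).1, ((hux i (mem_range.1 hi)).2 s ms).1⟩) (xi' s ms)
    (fun z _ => image_subset_iff.2 fun i hi => (mem_filter.1 hi).2 ▸
      ((hux i (mem_range.1 (mem_filter.1 hi).1)).2 _ (mn _)).1)
  rw [sum_eq_zero fun z _ => by
    rw [card_image_of_injOn ((xi' _ (mn z)).mono (coe_subset.2 (filter_subset _ _)))]
    exact Nat.sub_self _] at s2
  obtain rfl := eq_of_subset_of_card_le s1 s2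
  have gp : ∀ i ∈ range F, ∃ i' < F, g i = x i' (cn (u i)) ∧
      y (cn (u i)) (g i) = H.pt (cn (u i)) (cn (u i)) i' ∧ y (cn (u i)) (g i) ∈ R (cn (u i)) ∧
      G.Adj (g i) (y (cn (u i)) (g i)) := fun i hi => by
    obtain ⟨i', a1, a2⟩ := mem_image.1 (hg i hi).1
    obtain ⟨a3, a4⟩ := mem_filter.1 a1
    have a5 := hux i' (mem_range.1 a3)
    have a6 := (cd _ a5.1 _ (lt _ (mn (u i)))).2.1 _ (a5.2 _ (mn (u i))).1
    rw [← a2]
    exact ⟨i', mem_range.1 a3, rfl, (a5.2 _ (mn _)).2.symm, a6⟩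
  have out : ∀ i ∈ range F, ∀ i' ∈ range F, y (cn (u i)) (g i) ∉ P i' := fun i hi i' hi' e => by
    obtain ⟨-, -, -, -, a1, -⟩ := gp i hi
    exact disjoint_left.1 (h.rq _ (lt _ (mn _)) _ gN) a1 (hP.fam.sub i' hi' e)
  obtain ⟨A', hA'⟩ := ext V ℕ ℕ G ((range T).biUnion fun t => R (s + 1 + t)) (un (Q (j + 1)))
    (range T) (fun t => R (s + 1 + t))
    (fun t => ((range N \ tg T j) ×ˢ range F).image fun q => H.pt (s + 1 + t) q.1 q.2)
    (fun t => H.ports N F (s + 1 + t)) (range F) (fun i => y (cn (u i)) (g i)) (fun i => x i s)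
    (fun i => as (en (u i))) (fun i => insert (y (cn (u i)) (g i)) (P i))
    ⟨fun t ht => subset_biUnion_of_mem (fun t => R (s + 1 + t)) ht, fun t ht t' ht' e =>
      (h.rr _ (lt _ (mc t (mem_range.1 ht))) _ (lt _ (mc t' (mem_range.1 ht'))) (by omega)).1,
      fun t ht => (cel _ (lt _ (mc t (mem_range.1 ht)))).mono subset_rfl
        (image_subset_image (product_subset_product_left sdiff_subset)) subset_rfl⟩
    ((disjoint_biUnion_left _ _ _).2 fun t ht => h.rq _ (lt _ (mc t (mem_range.1 ht))) _ gN)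
    (fun i hi => ⟨mem_range.2 (has _), by
      obtain ⟨i', a1, -, a2, -⟩ := gp i hi
      rw [a2, ← hcn]
      exact mem_image.2 ⟨(_, i'), mem_product.2 ⟨mem_range.2 (lt _ (mn _)), mem_range.2 a1⟩, rfl⟩⟩)
    (fun i hi => ⟨(hP.fam.conn i hi).insert (hP.en i hi) (gp i hi).choose_spec.2.2.2.2,
      mem_insert_self _ _, mem_insert_of_mem (hP.st i hi), insert_subset_insert _ (hP.fam.sub i hi)⟩)
    (fun i hi i' hi' e => by
      rw [disjoint_insert_left, disjoint_insert_right, mem_insert, not_or]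
      refine ⟨⟨fun c => ?_, out i hi i' hi'⟩, out i' hi' i hi, hP.fam.disj i hi i' hi' e⟩
      obtain ⟨k, a1, a2, -, a3, -⟩ := gp i hi
      obtain ⟨k', b1, b2, -, b3, -⟩ := gp i' hi'
      have c1 : cn (u i) = cn (u i') := by_contra fun c2 => disjoint_left.1
        (h.rr _ (lt _ (mn _)) _ (lt _ (mn _)) c2).1 a3 (c ▸ b3)
      rw [← c1] at c b2
      rw [a2, b2] at c
      exact e (hP.inj_right hi hi' (by rw [a2, b2, xi _ (mn _) k a1 k' b1 c])))
  refine ⟨A', hA'.symm.mono (union_subset (biUnion_subset.2 fun t ht v hv => ?_) fun v hv => ?_)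
    subset_rfl (fun _ _ v hv => by simpa only [fib, mem_image, mem_filter] using hv)
    fun _ _ => subset_rfl⟩
  · exact mem_biUnion.2 ⟨s + 1 + t, mem_erase.2 ⟨by omega, mc t (mem_range.1 ht)⟩,
      e2 _ ▸ mem_union_left _ hv⟩
  · refine mem_biUnion.2 ⟨(j + 1) * (T + 2), mem_erase.2 ⟨by omega, mem_Ico.2 ⟨by omega, by omega⟩⟩,
      e2 _ ▸ mem_union_right _ ?_⟩
    rwa [hQ', if_pos (Dvd.intro_left _ rfl), Nat.mul_div_cancel _ (by omega)]

end HubP

end Pool.Agent.MP_35cb46_co.Fl
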