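import Pool.Agent.MP_35cb46_co.fl.HubA
import Pool.Agent.MP_35cb46_co.fl.CoreS
import Pool.Agent.MP_35cb46_co.nl.Group

/-! PROJECT FL, row HUB: a coloured expander of clusters gives a hub system with top groups. -/

noncomputable section

namespace Pool.Agent.MP_35cb46_co.Fl

open Finset Pool.Agent.MP_7be75d_co Pool.Agent.MP_35cb46_co.Sq Pool.Agent.MP_35cb46_co.Nl
open scoped Classical

namespace HubP

open ZpartP

variable {V : Type} {G : SimpleGraph V}

theorem raw [Fintype V] (hd : Deg G univ 6) {X T₀ : Finset V} {g A Λ : ℕ}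
    {PP Z Q : Finset (Finset V)} {col : Finset V → ℕ} {T K K₁ N n w d m : ℕ}
    (hclu : Clu G X T₀ g A Λ PP) (hZ : Z ⊆ PP) (hcol : ColZ G X T₀ Z col (T + 4) K (T + 1))
    (hK : 1 ≤ K) (k1 : 1 ≤ K₁) (k2 : 14 * A * Λ ≤ K₁) (hN : N ≤ T)
    (hc : ∀ t < T + 4, ∀ τ : V → ℕ, (∀ C ∈ cls Z col t, ∀ v ∈ C, τ v ≤ bw G X T₀ C v) →
      WL (aw G) (un (cls Z col t)) τ K₁) (hcn : ∀ t < T + 4, Conn G (un (cls Z col t)))
    (hQ : Q ⊆ cls Z col (T + 1)) (hw : ∀ u ∈ Q, 6 * K * w ≤ bo G X T₀ u) (w1 : 1 ≤ w)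
    (hdw : d = 1 ∨ 24 * K₁ * (N * d) ≤ w) (hm : (N + 1) * m ≤ Q.card)
    (n1 : K * (K * (78 * (K₁ * n))) < ts (bo G X T₀) Z) (n2 : N * (13 * K₁ * n) < m * d) :
    ∃ τ Qs C y, Raw G (un (Z.filter fun u => col u ≤ T + 1))
      (nb G (un (cls Z col 0)) (un (cls Z col (T + 2)))) N K₁ n d (fun t => un (cls Z col t))
      τ Qs C y := by
  have hp : PD PP := hclu.part.disj
  have hcl : ∀ t, cls Z col t ⊆ PP := fun t => cls_subset.trans hZ
  have hQP : Q ⊆ PP := hQ.trans (hcl _)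
  have hQZ : Q ⊆ Z := hQ.trans cls_subset
  have hn : ∀ u ∈ Q, ∀ t, t ≠ T + 1 → u ∉ cls Z col t := fun u hu t ht e =>
    ht ((mem_cls.1 e).2.symm.trans (mem_cls.1 (hQ hu)).2)
  have dis : ∀ s t, s ≠ t → Disjoint (un (cls Z col s)) (un (cls Z col t)) := fun s t e =>
    un_disj hp (hcl s) (hcl t) (cls_disj e)
  have out : ∀ s t, s ≠ t → un (cls Z col t) ⊆ X \ un (cls Z col s) := fun s t e =>
    subset_sdiff.2 ⟨hclu.part.un ▸ un_mono (hcl t), (dis s t e).symm⟩
  obtain ⟨τ, hτ⟩ : ∃ τ : ℕ → V → ℕ, ∀ s v, τ s v = cw (aw G) {v} (X \ un (cls Z col s)) :=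
    ⟨_, fun _ _ => rfl⟩
  have tc : ∀ s t, s ≠ t → ∀ B, cw (aw G) B (un (cls Z col t)) ≤ ts (τ s) B := fun s t e B => by
    rw [cw_eq_sum]
    exact sum_le_sum fun v _ => hτ s v ▸ cw_mono subset_rfl (out s t e)
  have big : ∀ s < T + 4, ∀ t < T + 4, s ≠ t → ts (bo G X T₀) Z ≤
      K * (K * cw (aw G) (un (cls Z col s)) (un (cls Z col t))) := fun s hs t ht e => by
    refine (hcol.vol s hs).trans (Nat.mul_le_mul_left _ ?_)
    rw [← cw_ew hp (hcl s) (hcl t) (cls_disj e), cw_eq_sum, mul_sum]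
    exact sum_le_sum fun u hu => hcol.deg t ht u (cls_subset hu)
  have big' : ∀ s < T + 4, ∀ t < T + 4, s ≠ t →
      78 * (K₁ * n) < cw (aw G) (un (cls Z col s)) (un (cls Z col t)) := fun s hs t ht e =>
    lt_of_mul_lt_mul_left' (lt_of_mul_lt_mul_left' (n1.trans_le (big s hs t ht e)))
  obtain ⟨Qs, q1, q2⟩ := GroupP.greedy (fun _ => Q) id (T := N) (w := m) (m := 1) one_pos
    (fun _ _ c _ => card_le_one.2 fun a ha b hb =>
      (mem_filter.1 ha).2.trans (mem_filter.1 hb).2.symm) fun _ _ => by omega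
  have qs : ∀ s < N, Qs s ⊆ Q := fun s hs => (q1 s hs.le).1
  have hex : ∀ u, ∃ C : ℕ → Finset V, u ∈ Q → (∀ t < N, C t ⊆ nb G u (un (cls Z col t)) ∧
      (C t).card = d) ∧ ∀ s < N, ∀ t < N, Cel G u (C s) (C t) := fun u => by
    by_cases hu : u ∈ Q
    · obtain ⟨C, hC⟩ := node hd (hclu.part.conn u (hQP hu)) ((hclu.wl u (hQP hu)).up k2)
        (bw_le hd X T₀ u) k1 (fun t => nb G u (un (cls Z col t))) (N := N) (w := w) (d := d)
        (fun t ht => ⟨nb_sub, by
          have h1 := vol_le_nb hd (I := {u}) (I' := cls Z col t) (β := bo G X T₀) (K := K) hp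
            (singleton_subset_iff.2 (hQP hu)) (hcl t)
            (disjoint_singleton_left.2 (hn u hu t (by omega)))
            (fun v hv => by rw [mem_singleton.1 hv]; exact hcol.deg t (by omega) u (hQZ hu))
          have h2 : un {u} = u := by simp [un]
          rw [ts_single, h2] at h1
          have h3 : 6 * K * w ≤ 6 * K * (nb G u (un (cls Z col t))).card := by
            rw [mul_comm 6 K, mul_assoc K 6 (card _), mul_comm 6 (card _), mul_comm K 6]
            exact (hw u hu).trans h1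
          exact Nat.le_of_mul_le_mul_left h3 (by omega), fun v =>
          (ind_le subset_rfl v).trans ((cw_mono subset_rfl (un_out hclu.part (hcl t) (hQP hu)
            (hn u hu t (by omega)))).trans (Nat.le_add_right _ _))⟩) w1 hdw
      exact ⟨C, fun _ => hC⟩
    · exact ⟨fun _ => ∅, fun e => absurd e hu⟩
  choose C hC using hex
  have e13 : 13 * K₁ * n = 13 * (K₁ * n) := mul_assoc _ _ _
  refine ⟨τ, Qs, C, fun t => ch G (un (cls Z col t)), fun s hs => ⟨un_mono fun u hu =>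
      mem_filter.2 ⟨(mem_cls.1 hu).1, by rw [(mem_cls.1 hu).2]; omega⟩, un_mono fun u hu =>
      mem_filter.2 ⟨hQZ (qs s hs hu), (mem_cls.1 (hQ (qs s hs hu))).2.le⟩⟩,
    fun s hs => hcn s (by omega), fun s hs t ht e => ⟨dis s t e, un_disj hp ((qs s hs).trans hQP)
      ((qs t ht).trans hQP) (disjoint_left.2 fun u h1 h2 => e (q2 s hs.le t ht.le u h1 u h2 rfl).1)⟩,
    fun s hs t ht => (dis s (T + 1) (by omega)).mono_right (un_mono ((qs t ht).trans hQ)),
    fun s hs => hp.mono ((qs s hs).trans hQP), fun s hs => ⟨hc s (by omega) _ fun u hu v _ => ?_,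
      fun v => ?_, ?_⟩, fun s hs t ht e B B' b1 b2 => ?_, fun B b1 => ?_,
    fun j hj u hu t ht => ⟨((hC u (qs j hj hu)).1 t ht).2.le, fun x hx =>
      ch_spec (((hC u (qs j hj hu)).1 t ht).1 hx), fun s hs => (hC u (qs j hj hu)).2 s hs t ht⟩,
    fun j hj B hB => ?_⟩
  · rw [hτ]
    exact (cw_mono subset_rfl (sdiff_subset_sdiff subset_rfl (subset_un hu))).trans
      (Nat.le_add_right _ _)
  · have := hd.cw_le (F := {v}) (U' := X \ un (cls Z col s)) (subset_univ _) (subset_univ _)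
    rw [card_singleton] at this
    rw [hτ]
    omega
  · have h1 := big' s (by omega) (T + 2) (by omega) (by omega)
    have h2 := tc s (T + 2) (by omega) (un (cls Z col s))
    rw [mul_assoc]
    omega
  · by_contra hcon
    have h0 : cw (aw G) (un (cls Z col s) \ B) (un (cls Z col t) \ B') = 0 :=
      cw_eq_zero.2 fun a ha b hb => if_neg fun c => hcon ⟨a, ha, b, hb, c⟩
    have h1 := big' s (by omega) t (by omega) e
    have h2 := cw_sdiff_left (w := aw G) (B := un (cls Z col t))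
      (inter_subset_left (s₁ := un (cls Z col s)) (s₂ := B))
    have h3 := cw_sdiff_right (w := aw G) (A := un (cls Z col s) \ B)
      (inter_subset_left (s₁ := un (cls Z col t)) (s₂ := B'))
    rw [sdiff_inter_self_left] at h2 h3
    have h4 := (tc s t e _).trans (ts_mono (inter_subset_right (s₁ := un (cls Z col s)) (s₂ := B)))
    have h5 := (tc t s (Ne.symm e) _).trans
      (ts_mono (inter_subset_right (s₁ := un (cls Z col t)) (s₂ := B')))
    have h6 : cw (aw G) (un (cls Z col s) \ B) (un (cls Z col t) ∩ B') ≤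
        cw (aw G) (un (cls Z col t) ∩ B') (un (cls Z col s)) := by
      rw [cw_comm aw_comm]
      exact cw_mono subset_rfl sdiff_subset
    omega
  · have h1 := (big' 0 (by omega) (T + 2) (by omega) (by omega)).trans_le (cw_le_nb hd _ _)
    have h2 := card_sdiff_add_card_inter (nb G (un (cls Z col 0)) (un (cls Z col (T + 2)))) B
    have h3 : (nb G (un (cls Z col 0)) (un (cls Z col (T + 2))) ∩ B).card ≤ ts (τ 0) B := by
      rw [inter_comm, ← ts_ind]
      exact ts_le fun v _ => (ind_le subset_rfl v).trans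
        (hτ 0 v ▸ cw_mono subset_rfl (out 0 (T + 2) (by omega)))
    obtain ⟨v, hv⟩ := card_pos.1
      (show 0 < (nb G (un (cls Z col 0)) (un (cls Z col (T + 2))) \ B).card by omega)
    exact ⟨v, mem_sdiff.2 ⟨nb_sub (mem_sdiff.1 hv).1, (mem_sdiff.1 hv).2⟩, (mem_sdiff.1 hv).1⟩
  · by_contra hcon
    push Not at hcon
    have h1 : m * d ≤ ∑ u ∈ Qs j, ∑ t ∈ range N,
        ((C u t).filter fun x => ch G (un (cls Z col t)) x ∈ B t).card := by
      rw [← (q1 j hj.le).2]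
      refine card_le_ts fun u hu => ?_
      obtain ⟨t, ht, h2⟩ := hcon u hu
      refine le_trans ?_ (single_le_sum (f := fun t => ((C u t).filter fun x =>
        ch G (un (cls Z col t)) x ∈ B t).card) (fun _ _ => Nat.zero_le _) (mem_range.2 ht))
      rw [filter_true_of_mem h2, ((hC u (qs j hj hu)).1 t ht).2]
    have h2 : ∀ t ∈ range N, ∑ u ∈ Qs j,
        ((C u t).filter fun x => ch G (un (cls Z col t)) x ∈ B t).card ≤ 13 * K₁ * n := by
      intro t ht
      have ht' := mem_range.1 ht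
      have sb : ∀ u ∈ Qs j, C u t ⊆ nb G u (un (cls Z col t)) := fun u hu =>
        ((hC u (qs j hj hu)).1 t ht').1
      rw [← card_biUnion fun u hu u' hu' e => (hp u (hQP (qs j hj hu)) u' (hQP (qs j hj hu')) e).mono
        ((filter_subset _ _).trans ((sb u hu).trans nb_sub))
        ((filter_subset _ _).trans ((sb u' hu').trans nb_sub)), ← filter_biUnion, ← ts_cnt]
      refine le_trans (ts_le fun v _ => ?_) (hB t ht')
      rw [hτ]
      exact (ZpartP.cnt_le (S := un (cls Z col (T + 1))) (biUnion_subset.2 fun u hu =>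
        (sb u hu).trans (nb_mono (subset_un (hQ (qs j hj hu))))) v).trans
        (cw_mono subset_rfl (out t (T + 1) (by omega)))
    rw [sum_comm] at h1
    have h3 := h1.trans (sum_le_card_nsmul _ _ _ h2)
    rw [card_range, smul_eq_mul] at h3
    omega

theorem div_num {a x : ℕ} (ha : 1 ≤ a) (hx : a ≤ x) :
    ∃ w, a * w ≤ x ∧ 1 ≤ w ∧ x ≤ 2 * a * w := by
  have h1 := Nat.lt_mul_div_succ x ha
  have h2 : 1 ≤ x / a := (Nat.le_div_iff_mul_le ha).2 (by omega)
  have h3 := Nat.mul_le_mul_left a h2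
  refine ⟨x / a, Nat.mul_div_le _ _, h2, ?_⟩
  rw [mul_add] at h1
  rw [mul_assoc]
  omega

theorem basic {K T A B Λ : ℕ} (hK : 1 ≤ K) (hA : 12 * K * (T + 1) ≤ A) (hAB : A ≤ B)
    (hΛB : Λ ≤ B) : 12 * K ≤ A ∧ 12 * (T + 1) ≤ B ∧ 14 * A * Λ ≤ 28 * A * Λ * (K + 1) ∧
      28 * A * Λ * (K + 1) ≤ B ^ 4 := by
  have h1 : 12 * K ≤ A := by nlinarith
  refine ⟨h1, by nlinarith, by nlinarith [Nat.zero_le (A * Λ * K)], ?_⟩
  calc _ = 28 * (K + 1) * (A * Λ) := by ring
    _ ≤ B * B * (B * B) := Nat.mul_le_mul (by nlinarith) (Nat.mul_le_mul hAB hΛB)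
    _ = _ := by ring

end HubP

open HubP in
theorem fullCore (clb : ClbStmt) (core : CoreStmt) : FullCoreStmt := by
  obtain ⟨c, core⟩ := core
  refine ⟨c + 21, fun T₁ p Λ B hT V _ G X T₀ g A PP Z col K τ hd hV hclu hZ hb hcol hK hA hAB hΛB
    hτ hp hvol => ?_⟩
  obtain ⟨N, T, NT, hN, hNT, core⟩ := core Λ
  have hcl : ∀ t, cls Z col t ⊆ PP := fun t => cls_subset.trans hZ
  have hB0 : 0 < B := lt_of_lt_of_le (by positivity) (hA.trans hAB)
  have hpos : 0 < ts (bo G X T₀) Z := lt_of_lt_of_le (by positivity) hvol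
  have hΛ : 1 ≤ Λ := by
    obtain ⟨u, hu⟩ : Z.Nonempty := nonempty_iff_ne_empty.2 fun e => by simp [e, ts] at hpos
    obtain ⟨v, -⟩ := (hclu.part.conn u (hZ hu)).1
    have : 0 < Fintype.card V := Fintype.card_pos_iff.2 ⟨v⟩
    by_contra h
    rw [Nat.eq_zero_of_not_pos h] at hV
    omega
  obtain ⟨hKA, hTB, k2, k3⟩ := basic hK hA hAB hΛB
  have hB : 2 ≤ B := by omega
  have hA1 : 1 ≤ A := by omega
  have pw : ∀ {i j : ℕ}, i ≤ j → B ^ i ≤ B ^ j := fun h => Nat.pow_le_pow_right (by omega) h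
  have t12 : ∀ i, 12 ^ i ≤ B ^ i := fun i => Nat.pow_le_pow_left (by omega) i
  have l1 : Λ + 2 ≤ B := (Nat.le_self_pow (by omega) _).trans (hT.trans (by omega))
  have l2 : (Λ + 2) ^ c ≤ B ^ c := Nat.pow_le_pow_left l1 c
  have N1 : N ≤ T₁ := hN.trans ((Nat.pow_le_pow_right (by omega) (by omega)).trans hT)
  obtain ⟨K₁, hK₁⟩ : ∃ K₁, K₁ = 28 * A * Λ * (K + 1) := ⟨_, rfl⟩
  rw [← hK₁] at k2 k3
  have k1 : 1 ≤ K₁ := le_trans (Nat.mul_pos (by omega) hΛ) k2
  obtain ⟨c1, c2, -⟩ := clb V G X T₀ g A Λ PP hclu hA1 hΛ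
  obtain ⟨j, Q, hQ, hj, hQv⟩ := hcol.tg
  obtain ⟨u, hu⟩ : Q.Nonempty := by
    rw [← card_pos]
    by_contra h
    rw [Nat.eq_zero_of_not_pos h] at hQv
    omega
  have hu1 := hj u hu
  have hu2 := hb u (cls_subset (hQ hu))
  obtain ⟨w, w1, w3, w2⟩ := div_num (a := 6 * K) (x := 2 ^ j) (by omega) (by
    rw [pow_succ] at hu1
    omega)
  have w4 : w ≤ τ := (Nat.le_mul_of_pos_left w (by omega)).trans (w1.trans (hu1.1.trans hu2.2))
  have w5 : 2 ^ j ≤ B * w := w2.trans (Nat.mul_le_mul_right _ (by omega))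
  have N0 : 1 ≤ N := by omega
  obtain ⟨d, d1, d2, d3, d4⟩ : ∃ d, (d = 1 ∨ 24 * K₁ * (N * d) ≤ w) ∧ d ≤ w ∧ 1 ≤ d ∧
      w ≤ 48 * (K₁ * N) * d := by
    have a0 : 0 < 24 * (K₁ * N) := by positivity
    by_cases e : 24 * (K₁ * N) ≤ w
    · obtain ⟨d, a1, a2, a3⟩ := div_num a0 e
      exact ⟨d, Or.inr (le_trans (le_of_eq (by ring)) a1),
        (Nat.le_mul_of_pos_left d a0).trans a1, a2, a3.trans (le_of_eq (by ring))⟩
    · exact ⟨1, Or.inl rfl, w3, le_rfl, by omega⟩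
  have d5 : w ≤ B ^ 7 * d := d4.trans (Nat.mul_le_mul_right _ (by
    calc 48 * (K₁ * N) ≤ B ^ 2 * (B ^ 4 * B) := Nat.mul_le_mul (le_trans (by norm_num) (t12 2))
          (Nat.mul_le_mul k3 (by omega))
      _ = _ := by ring))
  have q1 : B ≤ Q.card := by
    have a1 : B * (B * τ) ≤ B ^ (c + 21) * τ := by
      rw [← mul_assoc, ← pow_two]
      exact Nat.mul_le_mul_right _ (pw (by omega))
    have a2 : K * (Q.card * 2 ^ j) ≤ B * (Q.card * τ) :=
      Nat.mul_le_mul (by omega) (Nat.mul_le_mul_left _ (by omega))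
    exact Nat.le_of_mul_le_mul_right
      (Nat.le_of_mul_le_mul_left (a1.trans (hvol.trans (hQv.trans a2))) (by omega)) hτ
  obtain ⟨m, m1, -, m2⟩ := div_num (a := N + 1) (x := Q.card) (by omega) (by omega)
  have m4 : Q.card ≤ B * m := m2.trans (Nat.mul_le_mul_right _ (by omega))
  have v1 : ts (bo G X T₀) Z ≤ B ^ 10 * (m * d) :=
    calc _ ≤ K * (Q.card * 2 ^ j) := hQv
      _ ≤ B * (B * m * (B * (B ^ 7 * d))) := Nat.mul_le_mul (by omega)
        (Nat.mul_le_mul m4 (w5.trans (Nat.mul_le_mul_left _ d5)))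
      _ = _ := by ring
  obtain ⟨F, hF⟩ : ∃ F, F = ts (bo G X T₀) Z / B ^ 20 := ⟨_, rfl⟩
  have F1 : B ^ 20 * F ≤ ts (bo G X T₀) Z := hF ▸ Nat.mul_div_le _ _
  have F2 : ts (bo G X T₀) Z < B ^ 20 * (F + 1) := hF ▸ Nat.lt_mul_div_succ _ (by positivity)
  have F3 : B ^ c * τ ≤ F := by
    rw [hF, Nat.le_div_iff_mul_le (by positivity)]
    refine le_trans ?_ hvol
    rw [mul_right_comm, ← pow_add]
    exact Nat.mul_le_mul_right _ (pw (by omega))
  have F4 : 1 ≤ F := le_trans (Nat.mul_pos (by positivity) hτ) F3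
  have F5 : B ^ 19 * F < ts (bo G X T₀) Z :=
    (Nat.mul_lt_mul_of_pos_right (Nat.pow_lt_pow_right (by omega) (by omega)) F4).trans_le F1
  have n0 : K₁ * (N * (N * F)) ≤ B ^ 6 * F :=
    calc _ ≤ B ^ 4 * (B * (B * F)) := Nat.mul_le_mul k3
          (Nat.mul_le_mul (by omega) (Nat.mul_le_mul_right _ (by omega)))
      _ = _ := by ring
  obtain ⟨τ', Qs, C, y, hraw⟩ := raw hd hclu hZ hcol hK k1 k2 N1 (n := N * (N * F))
    (fun t ht => hK₁ ▸ c1 _ (hcl t) K (hcol.wl t ht))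
    (fun t ht => c2 _ (hcl t) K (nonempty_iff_ne_empty.2 fun e => by
      have := hcol.vol t ht
      rw [e, show ts (bo G X T₀) ∅ = 0 from rfl] at this
      omega) (hcol.wl t ht))
    hQ (fun v hv => w1.trans (hj v hv).1) w3 d1 m1
    (lt_of_le_of_lt (by
      calc _ ≤ B * (B * (B ^ 2 * (B ^ 6 * F))) := Nat.mul_le_mul (by omega) (Nat.mul_le_mul
            (by omega) (Nat.mul_le_mul (le_trans (by norm_num) (t12 2)) n0))
        _ = B ^ 10 * F := by ring
        _ ≤ _ := Nat.mul_le_mul_right _ (pw (by omega))) F5)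
    (lt_of_mul_lt_mul_left' (a := B ^ 10) (lt_of_le_of_lt (by
      calc _ = B ^ 10 * (N * (13 * (K₁ * (N * (N * F))))) := by ring
        _ ≤ B ^ 10 * (B * (B ^ 2 * (B ^ 6 * F))) := Nat.mul_le_mul_left _ (Nat.mul_le_mul
            (by omega) (Nat.mul_le_mul (le_trans (by norm_num) (t12 2)) n0))
        _ = _ := by ring) (F5.trans_le v1)))
  obtain ⟨H, h1, h2⟩ := hubA (T := T) (NT := NT) hd hraw k1 le_rfl hNT
  obtain ⟨n, P, hP, hn⟩ := core V G _ _ F H d p τ hd hV h1 h2 (d2.trans w4) hp hτ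
    ((Nat.mul_le_mul_right _ l2).trans F3)
  refine ⟨n, P, hP.up subset_rfl subset_rfl (l2.trans (pw (by omega))), ?_⟩
  calc _ ≤ B ^ 20 * (B * F) := F2.le.trans (Nat.mul_le_mul_left _
        (le_trans (by omega) (Nat.mul_le_mul_right F hB)))
    _ ≤ B ^ 20 * (B * (B ^ c * τ * n)) := by
        have := hn.trans (Nat.mul_le_mul_right _ (Nat.mul_le_mul_right _ l2))
        gcongr
    _ = _ := by ring

end Pool.Agent.MP_35cb46_co.Fl
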