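import Pool.Agent.MP_35cb46_co.fl.ASpec

/-! PROJECT FL: the ascent at the level of classes. -/

noncomputable section

namespace Pool.Agent.MP_35cb46_co.Fl

open Finset Pool.Agent.MP_7be75d_co Pool.Agent.MP_35cb46_co.Sq Pool.Agent.MP_35cb46_co.Nl
open scoped Classical

section Defs

variable {V : Type}

/-- The poor region of the classes `Cl`. -/
def cpc (G : SimpleGraph V) (h : HD V) (F₀ : ℕ) (Cl : Finset ℕ) (n thr z : ℕ) : PC V where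
  RC := h.reg Cl
  Dk := fun H E => ∃ s ∈ Cl, H = h.Rg s ∧ Dock G h F₀ Cl s E ∧ E.card ≤ F₀
  n := n
  thr := thr
  z := z

/-- The inequalities of the ladder. -/
structure Lad (L : LP) (Z : ℕ) : Prop where
  th : Z ≤ L.θ
  bi : Z ≤ L.Bi
  bo : Z ≤ L.Bo
  pi : 1 ≤ L.Pi
  po : 1 ≤ L.Po
  up : ∀ j < L.m, 2 * L.Po * L.T * Z * L.yS j ≤ L.yB (j + 1) ∧ Z * L.Pi ≤ L.yS j ∧
    Z * L.Pi * L.yB j ≤ L.Po * L.Bo * L.yS j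
  big : ∀ j ≤ L.m, 2 * L.Po * L.T * Z ≤ L.yB j
  top : 2 * L.Po * L.T * Z * L.d ≤ L.yB 0

/-- The threshold and the number of cells at the unit rung `i`. -/
structure Urg (L : LP) (Θ i n thr : ℕ) : Prop where
  im : i ≤ L.m
  lt : i < L.m → Θ * thr * L.Pi ≤ L.yS i ∧ L.Pi * L.F ≤ n * L.yS i ∧ L.Po * L.F ≤ n * L.yB i
  eq : i = L.m → thr = 0 ∧ L.F ≤ n

/-- The data shared by all moves. -/
structure EV (V : Type) where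
  Amb : Finset V
  h : HD V
  L : LP
  Cl : Finset ℕ
  (N F₀ n thr z i Φ Θ Z δ : ℕ)

/-- The poor region. -/
def EV.p (e : EV V) (G : SimpleGraph V) : PC V := cpc G e.h e.F₀ e.Cl e.n e.thr e.z

/-- The standing assumptions. -/
structure Env (G : SimpleGraph V) (e : EV V) (x : CX V) : Prop where
  hub : Hub G e.Amb x.Rt e.N e.F₀ e.h
  ok : (e.p G).Ok G
  bud : Bud (e.p G) x e.Φ e.Θ e.Z e.δ
  lad : Lad e.L e.Z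
  urg : Urg e.L e.Θ e.i e.n e.thr
  hF : x.F = e.L.F
  hT : x.T = e.L.T
  f0 : e.L.F ≤ e.F₀
  hg : x.g = 2 * e.Θ * e.L.yB e.i

/-- Hosts in the kit `k`, with exits docked at `k.b2`. -/
def Hosts (G : SimpleGraph V) (h : HD V) (Rt : Finset V) (F₀ : ℕ) (p : PC V) (k : KD V)
    (nH q r K : ℕ) (Zr : Finset V) : Prop :=
  ∃ (A Ro O : ℕ → Finset V) (E : Finset V),
    Hst G (h.reg (k.U.erase k.b2) ∪ Zr) Rt nH q r K A Ro O ∧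
    Cert G p (h.reg (k.U.erase k.b2) ∪ Zr) (range nH) O ∧ Dock G h F₀ k.U k.b2 E ∧
    E.card ≤ F₀ ∧ ∀ a < nH, O a ⊆ E

/-- A position: the classes `Cu` are used, the lanes are ready at exits docked at `kc.b2`. -/
structure Pos (G : SimpleGraph V) (e : EV V) (x : CX V) (s : ST V) (Cu : Finset ℕ) (kc : KD V)
    (Zr : Finset V) (eK l nJ : ℕ) : Prop where
  go : ∃ (J : Finset ℕ) (Ex : ℕ → Finset V) (cs q : ℕ → ℕ) (E : Finset V),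
    Rdy G (e.p G) x s J Ex cs q l ∧ Dgs x J Ex q eK ∧ Dock G e.h e.F₀ kc.U kc.b2 E ∧
    E.card ≤ e.F₀ ∧ ∀ k ∈ J, Ex k ⊆ E
  reg : s.Past ∪ s.Fl ⊆ e.h.reg (Cu.erase kc.b2) ∪ Zr
  zr : Zr ⊆ e.h.R 0
  cu : Cu ⊆ (range e.N).erase 0
  sub : kc.U ⊆ Cu
  cl : kc.U ⊆ e.Cl
  mem : kc.b2 ∈ kc.U
  card : s.W.J.card ≤ nJ

/-- A module whose kits are in the poor region. -/
structure Fresh (G : SimpleGraph V) (e : EV V) (f : ℕ) (kS kB : KD V) (Wc : Finset ℕ) :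
    Prop where
  ks : Kit G e.h e.N e.F₀ e.L kS
  kb : Kit G e.h e.N e.F₀ e.L kB
  mod : Mod G e.h e.L e.Θ (2 * f) e.i kS kB Wc
  cs : kS.U ⊆ e.Cl
  cb : kB.U ⊆ e.Cl
  ws : Wc ⊆ (range e.N).erase 0
  d1 : Disjoint kS.U kB.U
  d2 : Disjoint Wc kS.U
  d3 : Disjoint Wc kB.U

/-- The classes of a module. -/
def mcl (kS kB : KD V) (Wc : Finset ℕ) : Finset ℕ := kS.U ∪ kB.U ∪ Wc

/-- The lanes wait at the top cells of the kit `kT`. -/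
def Fnl (G : SimpleGraph V) (e : EV V) (x : CX V) (Cu : Finset ℕ) (kT : KD V) (Zr : Finset V)
    (l nJ : ℕ) : Prop :=
  ∃ (s : ST V) (I A : ℕ → Finset V) (cy q : ℕ → ℕ), Wait G (e.p G) x s (range x.T) I cy q l ∧
    (∀ t < x.T, cy t = t) ∧ Lay G (e.h.reg (kT.U.erase kT.t1)) (range x.T) A I
      (fun t => ((range e.N \ kT.U) ×ˢ range e.F₀).image fun u => e.h.pt (kT.cl t) u.1 u.2) ∧
    s.Past ∪ s.Fl ⊆ e.h.reg (insert kT.t1 Cu) ∪ Zr ∧ s.W.J.card ≤ nJ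

/-- The numerical assumptions of the middle part. -/
structure Num (L : LP) (Λ E f Φ Θ Z δ z : ℕ) : Prop where
  e2 : 2 ≤ E
  f1 : 1 ≤ f
  ff : 2 * f ≤ L.F
  phi : L.F ≤ Φ * f
  th : Φ * E ^ 3 * L.T ≤ Θ
  z1 : 8 * Φ ^ 2 * E ^ 4 * L.T ≤ Z
  z2 : 8 * Θ ≤ Z
  dl : 8 * f ≤ E ^ 2 * L.T * δ
  pz : z ≤ δ
  tt : 400 * (Λ + 1) ≤ L.T
  loss : 64 * ((3 * L.m + 2) * δ) * (8 * E * L.T ^ 2) ≤ f
  yf : ∀ j ≤ L.m, L.yB j ≤ f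
  lad : Lad L Z

end Defs

/-- Row HOST: poor classes give a poor region. -/
def PcokStmt : Prop := ∀ (V : Type) (G : SimpleGraph V) (Amb Rt : Finset V) (N F₀ : ℕ) (h : HD V)
  (Cl : Finset ℕ) (n thr z : ℕ), Hub G Amb Rt N F₀ h → Cl ⊆ range N →
  PoorC G h F₀ Cl n thr z → (cpc G h F₀ Cl n thr z).Ok G

/-- Row HOST: the cells of a big stage are hosts. -/
def HostaStmt : Prop := ∀ (V : Type) (G : SimpleGraph V) (Amb Rt : Finset V) (N F₀ : ℕ) (h : HD V)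
  (L : LP) (Cl : Finset ℕ) (n thr z i nH q K : ℕ) (k k' : KD V), Hub G Amb Rt N F₀ h →
  Kit G h N F₀ L k → Kit G h N F₀ L k' → Disjoint k.U k'.U → k.U ⊆ Cl → k'.U ⊆ Cl → i ≤ L.m →
  k.eB i = q → k'.eB i = q → 1 ≤ q → 2 * (nH * q) ≤ L.F → L.F ≤ F₀ → nH ≤ n → 4 ≤ K →
  ∃ Z Z' : Finset V, Z ⊆ h.R 0 ∧ Z' ⊆ h.R 0 ∧ Disjoint Z Z' ∧
    Hosts G h Rt F₀ (cpc G h F₀ Cl n thr z) k nH q q K Z ∧
    Hosts G h Rt F₀ (cpc G h F₀ Cl n thr z) k' nH q q K Z'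

/-- Row HOSTB: bundles are hosts. -/
def HostbStmt : Prop := ∃ c, ∀ (V : Type) [Fintype V] (G : SimpleGraph V) (Amb Rt : Finset V)
  (N F₀ : ℕ) (h : HD V) (L : LP) (p : PC V) (nH q K : ℕ) (k k' : KD V), Deg G univ 6 →
  Hub G Amb Rt N F₀ h → Kit G h N F₀ L k → Kit G h N F₀ L k' → Disjoint k.U k'.U → p.thr = 0 →
  1 ≤ q → c * (nH + 1) * q ≤ F₀ → 2 * nH ≤ F₀ → q + 1 ≤ K →
  ∃ Z Z' : Finset V, Z ⊆ h.R 0 ∧ Z' ⊆ h.R 0 ∧ Disjoint Z Z' ∧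
    Hosts G h Rt F₀ p k nH q 1 K Z ∧ Hosts G h Rt F₀ p k' nH q 1 K Z'

/-- Row CLIMB: one rung. -/
def ClimbStmt : Prop := ∀ (V : Type) (G : SimpleGraph V) (e : EV V) (x : CX V) (s : ST V)
  (Cu Wc : Finset ℕ) (kc kS kB : KD V) (Zr : Finset V) (eK l nJ j : ℕ), Env G e x → j < e.i →
  Pos G e x s Cu kc Zr eK l nJ → e.L.yB (j + 1) ≤ 2 * e.L.Po * e.L.T * eK →
  Fresh G e x.f kS kB Wc → Disjoint Cu (mcl kS kB Wc) →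
  ∃ s', Pos G e x s' (Cu ∪ mcl kS kB Wc) kB Zr (kB.eB j) (l + 3 * e.δ) (nJ + 2 * e.n) ∧
    e.L.yB j ≤ 2 * e.L.Po * e.L.T * kB.eB j

/-- Row CHAIN: the top stage. -/
def TopkStmt : Prop := ∀ (V : Type) (G : SimpleGraph V) (e : EV V) (x : CX V) (s : ST V)
  (Cu : Finset ℕ) (kc kT : KD V) (Zr : Finset V) (eK l nJ : ℕ), Env G e x →
  Pos G e x s Cu kc Zr eK l nJ → e.L.yB 0 ≤ 2 * e.L.Po * e.L.T * eK →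
  Kit G e.h e.N e.F₀ e.L kT → kT.U ⊆ e.Cl → Disjoint Cu kT.U → Fnl G e x Cu kT Zr (l + e.δ) nJ

/-- Row CHAIN: a whole chain. -/
def ChainStmt : Prop := ∀ (V : Type) (G : SimpleGraph V) (e : EV V) (x : CX V) (kH kT : KD V)
  (kS kB : ℕ → KD V) (Wc : ℕ → Finset ℕ) (Zr : Finset V) (q : ℕ), Env G e x → x.b < 2 →
  1 ≤ x.nH → Kit G e.h e.N e.F₀ e.L kH → kH.U ⊆ e.Cl → Zr ⊆ e.h.R 0 →
  Hosts G e.h x.Rt e.F₀ (e.p G) kH x.nH q x.r x.K Zr → x.r + q ≤ x.g →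
  x.ν * (x.E * x.T) ≤ q / x.T → x.nH * q ≤ x.f → e.L.yB e.i ≤ 2 * e.L.Po * e.L.T * (q / x.T) →
  (∀ j < e.i, Fresh G e x.f (kS j) (kB j) (Wc j) ∧ Disjoint kH.U (mcl (kS j) (kB j) (Wc j)) ∧
    Disjoint kT.U (mcl (kS j) (kB j) (Wc j))) →
  (∀ j < e.i, ∀ j' < e.i, j ≠ j' →
    Disjoint (mcl (kS j) (kB j) (Wc j)) (mcl (kS j') (kB j') (Wc j'))) →
  Kit G e.h e.N e.F₀ e.L kT → kT.U ⊆ e.Cl → Disjoint kH.U kT.U →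
  Fnl G e x (kH.U ∪ (range e.i).biUnion fun j => mcl (kS j) (kB j) (Wc j)) kT Zr
    ((3 * e.i + 1) * e.δ) (x.nH + 2 * e.i * e.n)

/-- Row PLAY: the game between two chains. -/
def DuelStmt : Prop := ∀ (V : Type) (G : SimpleGraph V) (e : EV V) (x : CX V)
  (Cu Cu' : Finset ℕ) (kT kT' : KD V) (Zr Zr' : Finset V) (l nJ Λ : ℕ), Env G e x → x.b = 0 →
  Fnl G e x Cu kT Zr l nJ → Fnl G e { x with b := 1 } Cu' kT' Zr' l nJ →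
  Kit G e.h e.N e.F₀ e.L kT → Kit G e.h e.N e.F₀ e.L kT' → kT.U ⊆ e.Cl → kT'.U ⊆ e.Cl →
  Cu ⊆ (range e.N).erase 0 → Cu' ⊆ (range e.N).erase 0 → Disjoint Cu kT.U → Disjoint Cu' kT'.U →
  Disjoint (Cu ∪ kT.U) (Cu' ∪ kT'.U) → Zr ⊆ e.h.R 0 → Zr' ⊆ e.h.R 0 → Disjoint Zr Zr' →
  x.nH * x.ν ≤ e.F₀ → 400 * (Λ + 1) ≤ x.T → 2 * (x.nH * x.ν) ≤ 2 ^ Λ → 32 ≤ x.nH * x.ν →
  64 * (l + e.z) ≤ x.nH * x.ν →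
  ∃ W, Goal G e.Amb x.Rt x.K x.g (e.thr + 1) x.r x.ν (2 * nJ) W (range 2 ×ˢ range x.nH)

/-- Row MID: modules give an expanding web. -/
def MidStmt : Prop := ∃ c, ∀ (V : Type) [Fintype V] (G : SimpleGraph V) (Amb Rt : Finset V)
  (N F₀ : ℕ) (h : HD V) (L : LP) (Λ E f Φ Θ Z δ i nm n thr z : ℕ) (k : ℕ → KD V)
  (Wc : ℕ → Finset ℕ), Deg G univ 6 → 6 * Fintype.card V < 2 ^ Λ → Hub G Amb Rt N F₀ h →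
  Mods G h N F₀ L Θ (2 * f) i nm n thr z k Wc → 2 * L.m + Λ + 2 ≤ nm → P2 L.F → L.F ≤ F₀ →
  c * L.F ≤ F₀ → Num L Λ E f Φ Θ Z δ z → Urg L Θ i n thr →
  ∃ (W : WD V (ℕ × ℕ)) (nH ν r : ℕ), Goal G Amb Rt (L.yB L.m + 4) (2 * Θ * L.yB i) (thr + 1) r ν
      ((4 * L.m + 2) * n) W (range 2 ×ˢ range nH) ∧
    f ≤ 8 * E * L.T ^ 2 * (nH * ν) ∧ L.yB i ≤ L.Po * L.yB L.m * r ∧ ν ≤ L.yB i

/-- The inequalities used for the parts KIT and UNIT. -/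
structure Pre (c c₂ Λ N NT F₀ : ℕ) (L : LP) (B M Θ f z Q : ℕ) (n : ℕ → ℕ) : Prop where
  k1 : Λ + 2 ≤ L.Bi ∧ L.Bi ≤ L.Bo ∧ L.θ ≤ L.Bi ∧ P2 L.θ ∧ P2 L.F ∧ L.Pi = L.Bi ^ c ∧
    L.Po = L.Bo ^ c ∧ L.Po * L.F ≤ F₀
  k2 : ∀ j < L.m, L.Pi * L.Bi ≤ L.yS j ∧ L.yS j ≤ L.F ∧ L.Po * L.Bo ≤ L.yB j ∧ L.yB j ≤ L.F
  k3 : 1 + NT * (L.T + 2) + NT * (2 * (L.m + 1) * (L.Po + 3)) ≤ N
  u1 : L.F ≤ F₀ ∧ 2 ≤ L.θ ∧ 1 ≤ L.Pi ∧ Λ + 2 ≤ B ∧ M ≤ B ∧ L.m ≤ B ∧ 2 * L.m + Λ + 2 ≤ B ∧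
    2 ≤ Θ ∧ 100 * Θ ≤ M ^ 2 ∧ 100 * M * (L.m + 2) * (2 * f) ≤ L.F ∧ L.F ≤ B * z ∧
    1 ≤ L.yB L.m ∧ L.yB L.m < Q ∧ B ^ c₂ ≤ Q ∧ B ^ c₂ ≤ NT
  u2 : ∀ j < L.m, L.yB j * L.Pi ≤ B * L.yS j ∧ n j * L.yB j ≤ B * L.F

/-- The inequalities used for the part END. -/
structure Post (c₃ C Λ F₀ p τ : ℕ) (L : LP) (E Θ f Q B D : ℕ) (n : ℕ → ℕ) : Prop where
  b1 : Λ ≤ B ∧ 200 ≤ B ∧ L.yB L.m + 4 ≤ B ∧ 2 * Θ * Q ≤ B ∧ 2 * Θ * (L.Po * L.yB L.m) ≤ B ∧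
    B ^ c₃ ≤ (Λ + 2) ^ C ∧ F₀ ≤ D * f ∧ 1 ≤ Q
  b2 : ∀ i ≤ L.m, (4 * L.m + 2) * n i * (2 * Θ * L.yB i) * (8 * E * L.T ^ 2) ≤ B * f ∧
    B ^ c₃ * (p + 2 * Θ * L.yB i) * (8 * E * L.T ^ 2) ≤ f ∧
    D * (8 * E * L.T ^ 2) * (B ^ c₃ * (p + 2 * Θ * L.yB i)) ≤ (Λ + 2) ^ C * τ

/-- Row NUM: the constants. -/
def NumStmt : Prop := ∀ c c₁ c₂ c₃ : ℕ, ∃ C, ∀ Λ, ∃ N T NT, N ≤ (Λ + 2) ^ C ∧
  1 + NT * (T + 2) ≤ N ∧ ∀ F₀ d p τ : ℕ, d ≤ τ → p ≤ τ → 1 ≤ τ → (Λ + 2) ^ C * τ ≤ F₀ →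
  F₀ < 2 ^ Λ → ∃ (L : LP) (B M Θ f z Q E Φ Z δ B' D : ℕ) (n : ℕ → ℕ), L.T = T ∧ L.d = d ∧
    Pre c c₂ Λ N NT F₀ L B M Θ f z Q n ∧ Num L Λ E f Φ Θ Z δ z ∧ c₁ * L.F ≤ F₀ ∧
    (∀ i ≤ L.m, Urg L Θ i (n i) (L.yB i / Q)) ∧ Post c₃ C Λ F₀ p τ L E Θ f Q B' D n

end Pool.Agent.MP_35cb46_co.Fl
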