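import Mathlib.Algebra.BigOperators.Field
import Mathlib.Algebra.Order.BigOperators.Ring.Finset
import Pool.Agent.MP_35cb46_co.fl.ASpec

/-! PROJECT FL: row QSEL, and the random assignment of nodes. -/

noncomputable section

namespace Pool.Agent.MP_35cb46_co.Fl

open Finset Pool.Agent.MP_35cb46_co.Nl
open scoped Classical

namespace Qsel

variable {α γ ω : Type}

theorem cnt_def (I : Finset α) (y : α → γ) (a : γ) [DecidablePred fun i => y i = a] :
    cnt I y a = (I.filter fun i => y i = a).card := by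
  unfold cnt
  congr

theorem lump_def (S : Finset α) (f : α → γ) (g : α → ω) (b : γ) (c : ω)
    [DecidablePred fun a => f a = b ∧ g a = c] :
    lump S f g b c = (S.filter fun a => f a = b ∧ g a = c).card := by
  unfold lump
  congr

/-- Mean over a finite set. -/
def av (O : Finset ω) (f : ω → ℝ) : ℝ := (∑ o ∈ O, f o) / O.card

theorem var {ν : Type} [Nonempty ω] (N : Finset ν) (O : ν → Finset ω) (I : Finset α)
    (φ : α → ν → ω → ℝ) (hO : ∀ x ∈ N, (O x).Nonempty) : ∃ g : ν → ω, (∀ x ∈ N, g x ∈ O x) ∧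
    ∑ a ∈ I, (∑ x ∈ N, φ a x (g x) - ∑ x ∈ N, av (O x) (φ a x)) ^ 2 ≤
      ∑ a ∈ I, ∑ x ∈ N, av (O x) fun o => φ a x o ^ 2 := by
  induction N using Finset.induction_on with
  | empty => exact ⟨fun _ => Classical.arbitrary ω, by simp, by simp⟩
  | insert x N hx ih =>
    obtain ⟨g, g1, g2⟩ := ih fun y hy => hO y (mem_insert_of_mem hy)
    have hn := hO x (mem_insert_self _ _)
    have c : (0 : ℝ) < (O x).card := by exact_mod_cast hn.card_pos
    obtain ⟨D, hD⟩ : ∃ D : α → ℝ,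
      D = fun a => ∑ y ∈ N, φ a y (g y) - ∑ y ∈ N, av (O y) (φ a y) := ⟨_, rfl⟩
    obtain ⟨o, ho, h⟩ := exists_le_of_sum_le hn
      (f := fun o => ∑ a ∈ I, (D a + (φ a x o - av (O x) (φ a x))) ^ 2)
      (g := fun _ => av (O x) fun o => ∑ a ∈ I, (D a + (φ a x o - av (O x) (φ a x))) ^ 2)
      (le_of_eq (by rw [sum_const, nsmul_eq_mul, av, mul_div_cancel₀ _ c.ne']))
    refine ⟨Function.update g x o, fun y hy => ?_, ?_⟩
    · rcases mem_insert.1 hy with rfl | hy
      · rwa [Function.update_self]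
      · rw [Function.update_of_ne fun e : y = x => hx (e ▸ hy)]
        exact g1 y hy
    · have e : ∀ a, ∑ y ∈ N, φ a y (Function.update g x o y) = ∑ y ∈ N, φ a y (g y) := fun a =>
        sum_congr rfl fun y hy => by rw [Function.update_of_ne fun e : y = x => hx (e ▸ hy)]
      simp only [sum_insert hx, Function.update_self, e, sum_add_distrib]
      refine (le_of_eq (sum_congr rfl fun a _ => by rw [hD]; ring)).trans (h.trans ?_)
      rw [add_comm, av, sum_comm, sum_div]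
      refine le_trans ?_ (add_le_add g2 le_rfl)
      rw [← sum_add_distrib]
      refine sum_le_sum fun a _ => ?_
      rw [show (∑ y ∈ N, φ a y (g y) - ∑ y ∈ N, av (O y) (φ a y)) = D a by rw [hD]]
      obtain ⟨m, hm⟩ : ∃ m, m = av (O x) (φ a x) := ⟨_, rfl⟩
      have s : ∑ o ∈ O x, φ a x o = m * (O x).card := by rw [hm, av, div_mul_cancel₀ _ c.ne']
      rw [← hm, av, div_le_iff₀ c, add_mul, div_mul_cancel₀ _ c.ne',
        sum_congr rfl fun o _ => show (D a + (φ a x o - m)) ^ 2 =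
          φ a x o ^ 2 + (2 * (D a - m)) * φ a x o + (D a - m) ^ 2 by ring]
      rw [sum_add_distrib, sum_add_distrib, ← mul_sum, s, sum_const, nsmul_eq_mul]
      nlinarith [mul_nonneg c.le (sq_nonneg m)]

/-- The share of the tickets that carry the cell `y`. -/
def pr (O : Finset ℕ) (tk : ℕ → ℕ) (y : ℕ) : ℝ := (cnt O tk y : ℝ) / O.card

theorem pr_nonneg (O : Finset ℕ) (tk : ℕ → ℕ) (y : ℕ) : 0 ≤ pr O tk y := by
  unfold pr
  positivity

theorem sum_cnt (X : Finset α) (L : α → γ) {I : Finset γ} (hI : ∀ a ∈ X, L a ∈ I) :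
    ∑ l ∈ I, cnt X L l = X.card := (card_eq_sum_card_fiberwise hI).symm

theorem sum_pr {O : Finset ℕ} (tk : ℕ → ℕ) (Y : Finset ℕ) : ∑ y ∈ Y, pr O tk y ≤ 1 := by
  unfold pr
  rw [← sum_div]
  refine div_le_one_of_le₀ ?_ (by positivity)
  rw [← Nat.cast_sum, Nat.cast_le, ← sum_cnt O tk (I := Y ∪ O.image tk)
    fun a ha => mem_union_right _ (mem_image_of_mem _ ha)]
  exact sum_le_sum_of_subset subset_union_left

/-- Every node draws a ticket; the counts are close to their means. -/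
theorem asg (nd : α → ℕ) (N : Finset ℕ) (O : ℕ → Finset ℕ) (tk : ℕ → ℕ)
    (hO : ∀ n ∈ N, (O n).Nonempty) (d : ℕ) (I : Finset γ) (X : γ → Finset α) (y : γ → ℕ)
    (hN : ∀ j, ∀ a ∈ X j, nd a ∈ N) (hd : ∀ j n, cnt (X j) nd n ≤ d) :
    ∃ g : ℕ → ℕ, (∀ n ∈ N, g n ∈ O n) ∧
      ∑ j ∈ I, ((cnt (X j) (fun a => tk (g (nd a))) (y j) : ℝ) -
        ∑ a ∈ X j, pr (O (nd a)) tk (y j)) ^ 2 ≤
      d * ∑ j ∈ I, ∑ a ∈ X j, pr (O (nd a)) tk (y j) := by
  obtain ⟨g, g1, g2⟩ := var N O I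
    (fun j n o => (cnt (X j) nd n : ℝ) * if tk o = y j then 1 else 0) hO
  have fb : ∀ j (f : ℕ → ℝ), ∑ n ∈ N, (cnt (X j) nd n : ℝ) * f n = ∑ a ∈ X j, f (nd a) :=
    fun j f => by
    rw [← sum_fiberwise_of_maps_to (hN j)]
    refine sum_congr rfl fun n _ => ?_
    rw [sum_congr rfl fun a ha => congrArg f (mem_filter.1 ha).2, sum_const, nsmul_eq_mul, cnt_def]
  have e1 : ∀ j n (c : ℝ), av (O n) (fun o => c * if tk o = y j then 1 else 0) =
      c * pr (O n) tk (y j) := fun j n c => by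
    rw [av, pr, ← mul_sum, mul_div_assoc, sum_boole, cnt_def]
  refine ⟨g, g1, (le_of_eq (sum_congr rfl fun j _ => ?_)).trans (g2.trans ?_)⟩
  · simp only [e1]
    rw [fb, fb j fun n => pr (O n) tk (y j), sum_boole, cnt_def]
  · rw [mul_sum]
    refine sum_le_sum fun j _ => ?_
    rw [← fb j fun n => pr (O n) tk (y j), mul_sum]
    refine sum_le_sum fun n _ => ?_
    have e2 : (fun o => ((cnt (X j) nd n : ℝ) * if tk o = y j then 1 else 0) ^ 2) =
        fun o => (cnt (X j) nd n : ℝ) ^ 2 * if tk o = y j then 1 else 0 := by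
      funext o
      split_ifs <;> simp
    rw [e2, e1, sq, mul_assoc]
    exact mul_le_mul_of_nonneg_right (Nat.cast_le.2 (hd j n))
      (mul_nonneg (Nat.cast_nonneg _) (pr_nonneg _ _ _))

/-- The excess over the caps is removed. -/
theorem trim (X : Finset α) (L : α → γ) {I : Finset γ} (hI : ∀ a ∈ X, L a ∈ I) (c : γ → ℕ) :
    ∃ X' ⊆ X, (∀ l, cnt X' L l ≤ c l) ∧ X.card ≤ X'.card + ∑ l ∈ I, (cnt X L l - c l) := by
  choose Y y1 y2 using fun l => exists_subset_card_eq (s := X.filter fun a => L a = l)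
    (min_le_left _ (c l))
  have y3 : ∀ l, ∀ a ∈ Y l, L a = l := fun l a ha => (mem_filter.1 (y1 l ha)).2
  refine ⟨I.biUnion Y, biUnion_subset.2 fun l _ => (y1 l).trans (filter_subset _ _), fun l => ?_, ?_⟩
  · refine le_trans (card_le_card fun a ha => ?_) ((y2 l).le.trans (min_le_right _ _))
    obtain ⟨h1, h2⟩ := mem_filter.1 ha
    obtain ⟨l', -, h3⟩ := mem_biUnion.1 h1
    rwa [← h2, y3 l' a h3]
  · rw [card_biUnion fun l _ l' _ e => disjoint_left.2 fun a h1 h2 =>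
      e ((y3 l a h1).symm.trans (y3 l' a h2)), ← sum_cnt X L hI, ← sum_add_distrib]
    refine sum_le_sum fun l _ => ?_
    rw [y2 l]
    unfold cnt
    omega

theorem exc {z c : ℕ} {m t : ℝ} (ht : 0 < t) (h : m + 4 * t ≤ c) :
    ((z - c : ℕ) : ℝ) ≤ (z - m) ^ 2 / (16 * t) := by
  rw [le_div_iff₀ (by positivity)]
  rcases le_total z c with e | e
  · rw [Nat.sub_eq_zero_of_le e, Nat.cast_zero, zero_mul]
    positivity
  · rw [Nat.cast_sub e]
    have : (c : ℝ) ≤ z := Nat.cast_le.2 e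
    nlinarith [sq_nonneg (z - m - 8 * t)]

theorem exc' {z c : ℕ} {m t : ℝ} (ht : 0 < t) (h : m ≤ c) :
    ((z - c : ℕ) : ℝ) ≤ (z - m) ^ 2 / (16 * t) + 4 * t := by
  have := exc (z := z) (c := c) (m := m - 4 * t) ht (by linarith)
  rcases le_total z c with e | e
  · rw [Nat.sub_eq_zero_of_le e, Nat.cast_zero]
    positivity
  · rw [Nat.cast_sub e, ← sub_le_iff_le_add, le_div_iff₀ (by positivity)]
    nlinarith [sq_nonneg (z - m - 8 * t)]

theorem card_cells {F e d θ : ℕ} {S : SD} (h : Shape F S e d θ) : (S.cells F).card * e = F := by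
  have := sum_cnt (range F) S.ce (I := S.cells F) fun a ha => mem_image_of_mem _ ha
  rwa [sum_congr rfl h.ce, sum_const, card_range, smul_eq_mul] at this

theorem card_block {F e d θ : ℕ} {S : SD} (h : Shape F S e d θ) {y : ℕ} (hy : y ∈ S.cells F) :
    cnt (range F) (fun τ => S.bl (S.ce τ)) (S.bl y) = θ * e := by
  have := sum_cnt ((range F).filter fun τ => S.bl (S.ce τ) = S.bl y) S.ce
    (I := (S.cells F).filter fun c => S.bl c = S.bl y)
    fun a ha => mem_filter.2 ⟨mem_image_of_mem _ (mem_filter.1 ha).1, (mem_filter.1 ha).2⟩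
  rw [sum_congr rfl (g := fun _ => e) fun c hc => by
    rw [← h.ce c (mem_filter.1 hc).1, cnt_def, cnt_def, filter_filter]
    exact congrArg card (filter_congr fun τ _ =>
      ⟨fun k => k.2, fun k => ⟨k ▸ (mem_filter.1 hc).2, k⟩⟩), sum_const, smul_eq_mul] at this
  rw [← h.bl y hy, cnt_def, cnt_def]
  exact this.symm

theorem cnt_comp {F : ℕ} {Q : Finset ℕ} {π : ℕ → ℕ} (h1 : ∀ τ ∈ Q, π τ < F) (h2 : Set.InjOn π Q)
    (L : ℕ → ℕ) (c : ℕ) : cnt Q (fun τ => L (π τ)) c ≤ cnt (range F) L c := by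
  rw [cnt_def, cnt_def]
  exact card_le_card_of_injOn π (fun τ hτ => by
    simpa using ⟨h1 τ (mem_filter.1 hτ).1, (mem_filter.1 hτ).2⟩)
    (h2.mono fun τ hτ => (mem_filter.1 hτ).1)

theorem cnt_le {F e d θ : ℕ} {S : SD} (h : Shape F S e d θ) (c : ℕ) : cnt (range F) S.ce c ≤ e := by
  by_cases hc : c ∈ S.cells F
  · exact (h.ce c hc).le
  · rw [cnt_def]
    refine le_trans (le_of_eq (card_eq_zero.2 (filter_eq_empty_iff.2 fun τ hτ e => hc ?_)))
      (Nat.zero_le _)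
    exact e ▸ mem_image_of_mem _ hτ

theorem lump_mono {J Q : Finset α} (h : J ⊆ Q) (a b : α → ℕ) (c c' : ℕ) :
    lump J a b c c' ≤ lump Q a b c c' := by
  rw [lump_def, lump_def]
  exact card_le_card (filter_subset_filter _ h)

theorem cnt_mono {J Q : Finset α} (h : J ⊆ Q) (a : α → γ) (c : γ) : cnt J a c ≤ cnt Q a c :=
  card_le_card (filter_subset_filter _ h)

theorem lump_eq (Q : Finset α) (a b : α → ℕ) (c c' : ℕ) :
    cnt Q (fun τ => (a τ, b τ)) (c, c') = lump Q a b c c' := by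
  rw [cnt_def, lump_def]
  exact congrArg card (filter_congr fun τ _ => Prod.mk.injEq _ _ _ _ ▸ Iff.rfl)

theorem lump_eq' (Q : Finset α) (a b : α → ℕ) (c c' : ℕ) :
    cnt (Q.filter fun τ => a τ = c) b c' = lump Q a b c c' := by
  rw [cnt_def, lump_def, filter_filter]

end Qsel

open Qsel in
theorem qselA : QselStmt := by
  intro F f Φ Θ Z eS eB dB θB Q π ce B hQ hπ hi hf hΦ hS hce hΘ z1 z2 hc
  rcases hc with ⟨-, hc⟩ | ⟨c1, c2, c3⟩
  · obtain ⟨J, j1, j2⟩ := exists_subset_card_eq (s := Q) (show f ≤ Q.card by omega)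
    exact ⟨B.df, fun τ hτ => ⟨mem_image_of_mem _ (mem_range.2 hτ), rfl⟩, J, j1, j2,
      fun c c' => (Nat.mul_le_mul_left _ (lump_mono j1 _ _ c c')).trans (hc c c'),
      fun c => (cnt_mono j1 _ c).trans ((cnt_comp hπ hi B.ce c).trans (cnt_le hS c))⟩
  rcases Q.eq_empty_or_nonempty with rfl | ⟨τ₀, h0⟩
  · exact ⟨B.df, fun τ hτ => ⟨mem_image_of_mem _ (mem_range.2 hτ), rfl⟩, ∅, subset_rfl,
      by simp at hf; simp [hf], by simp [lump], by simp [cnt]⟩
  have d1 : 1 ≤ dB := le_trans (card_pos.2 ⟨π τ₀, by simpa using hπ τ₀ h0⟩) (hS.nd (B.nd (π τ₀)))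
  obtain ⟨O, hO⟩ : ∃ O : ℕ → Finset ℕ,
    O = fun n => (B.cells F).filter fun c => B.bl c = B.bl (B.df n) := ⟨_, rfl⟩
  have nc := fun (X : Finset ℕ) (h : X ⊆ Q) n =>
    (cnt_mono h (fun τ => B.nd (π τ)) n).trans ((cnt_comp hπ hi B.nd n).trans (hS.nd n))
  obtain ⟨g, g1, g2⟩ := asg (fun τ => B.nd (π τ)) ((range F).image B.nd) O id
    (fun n hn => by
      obtain ⟨τ, hτ, rfl⟩ := mem_image.1 hn
      exact ⟨B.ce τ, hO ▸ mem_filter.2 ⟨mem_image_of_mem _ hτ, rfl⟩⟩)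
    dB ((Q.image ce ×ˢ B.cells F).disjSum (B.cells F))
    (Sum.elim (fun p => Q.filter fun τ => ce τ = p.1) fun _ => Q) (Sum.elim Prod.snd id)
    (fun j a ha => mem_image_of_mem _ (mem_range.2 (hπ a (by
      cases j
      exacts [(mem_filter.1 ha).1, ha]))))
    (fun j n => nc _ (by
      cases j
      exacts [filter_subset _ _, subset_rfl]) n)
  have ok : B.Ok F g := fun τ hτ => mem_filter.1 (hO ▸ g1 _ (mem_image_of_mem _ (mem_range.2 hτ)))
  have θ0 : (0 : ℝ) < θB := Nat.cast_pos.2 (by omega)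
  have p1 : ∀ τ ∈ Q, ∀ y, pr (O (B.nd (π τ))) id y ≤
      if B.bl (B.ce (π τ)) = B.bl y then (θB : ℝ)⁻¹ else 0 := fun τ hτ y => by
    have a1 : (O (B.nd (π τ))).card = θB := by
      rw [← hS.bl _ (mem_image_of_mem _ (mem_range.2 (hπ τ hτ))), hO, cnt_def]
      rfl
    rw [pr, a1, cnt_def]
    split_ifs with h
    · rw [← one_div]
      exact div_le_div_of_nonneg_right (Nat.cast_le_one.2 (card_le_one.2 fun a ha b hb =>
        (mem_filter.1 ha).2.trans (mem_filter.1 hb).2.symm)) θ0.le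
    · refine le_of_eq (div_eq_zero_iff.2 (Or.inl (Nat.cast_eq_zero.2 (card_eq_zero.2
        (filter_eq_empty_iff.2 fun c hc e => h ?_)))))
      rw [hO] at hc
      exact (e ▸ (mem_filter.1 hc).2 : B.bl y = _).symm
  simp only [sum_disjSum, Sum.elim_inl, Sum.elim_inr, id] at g2
  have s1 : ∀ X : Finset ℕ, ∑ y ∈ B.cells F, ∑ τ ∈ X, pr (O (B.nd (π τ))) id y ≤ X.card :=
    fun X => by
    rw [sum_comm]
    simpa using sum_le_sum fun τ (_ : τ ∈ X) => sum_pr (O := O (B.nd (π τ))) id (B.cells F)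
  have s2 : ∑ p ∈ Q.image ce ×ˢ B.cells F, ∑ τ ∈ Q.filter fun τ => ce τ = p.1,
      pr (O (B.nd (π τ))) id p.2 ≤ Q.card := by
    rw [sum_product, ← sum_cnt Q ce fun a ha => mem_image_of_mem ce ha, Nat.cast_sum]
    exact sum_le_sum fun c _ => (s1 _).trans (le_of_eq (congrArg _ (cnt_def _ _ _).symm))
  obtain ⟨X, x1, x2, x3⟩ := trim Q (fun τ => (ce τ, g (B.nd (π τ)))) (I := Q.image ce ×ˢ B.cells F)
    (fun τ hτ => mem_product.2 ⟨mem_image_of_mem _ hτ, (ok _ (hπ τ hτ)).1⟩) fun _ => eS / Θ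
  obtain ⟨Y, y1, y2, y3⟩ := trim X (fun τ => g (B.nd (π τ))) (I := B.cells F)
    (fun τ hτ => (ok _ (hπ τ (x1 hτ))).1) fun _ => eB
  have t0 : (1 : ℝ) ≤ dB := Nat.one_le_cast.2 d1
  have b1 := sum_le_sum fun p (_ : p ∈ Q.image ce ×ˢ B.cells F) => exc
    (z := cnt (Q.filter fun τ => ce τ = p.1) (fun τ => g (B.nd (π τ))) p.2) (c := eS / Θ)
    (m := ∑ τ ∈ Q.filter fun τ => ce τ = p.1, pr (O (B.nd (π τ))) id p.2) (t := dB)
    (by linarith) (by
      have a1 : 8 * dB ≤ eS / Θ := (Nat.le_div_iff_mul_le hΘ).2 (by nlinarith)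
      have a2 : eS ≤ θB * (eS / Θ - 4 * dB) := by
        have := Nat.lt_mul_div_succ eS hΘ
        obtain ⟨u, hu⟩ := Nat.exists_eq_add_of_le a1
        rw [hu] at this ⊢
        rw [show 8 * dB + u - 4 * dB = 4 * dB + u by omega]
        nlinarith
      have a3 := sum_le_card_nsmul (Q.filter fun τ => ce τ = p.1) _ (θB : ℝ)⁻¹ fun τ hτ =>
        (p1 τ (mem_filter.1 hτ).1 p.2).trans (by split_ifs; exacts [le_rfl, by positivity])
      have a4 : ((Q.filter fun τ => ce τ = p.1).card : ℝ) ≤ θB * ((eS / Θ : ℕ) - 4 * dB) := by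
        have := ((cnt_mono hQ ce p.1).trans (hce _)).trans a2
        rw [← Nat.cast_le (α := ℝ), Nat.cast_mul, Nat.cast_sub (by omega)] at this
        rw [cnt_def] at this
        exact_mod_cast this
      rw [nsmul_eq_mul, ← div_eq_mul_inv] at a3
      have := (div_le_iff₀' θ0).2 a4
      linarith)
  have b2 := sum_le_sum fun y (hy : y ∈ B.cells F) => exc'
    (z := cnt Q (fun τ => g (B.nd (π τ))) y) (c := eB)
    (m := ∑ τ ∈ Q, pr (O (B.nd (π τ))) id y) (t := dB) (by linarith) (by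
      refine (sum_le_sum fun τ hτ => p1 τ hτ y).trans ?_
      rw [← sum_filter, sum_const, nsmul_eq_mul, ← div_eq_mul_inv, div_le_iff₀' θ0, ← Nat.cast_mul,
        Nat.cast_le, ← card_block hS hy]
      exact (cnt_def _ _ _).symm.trans_le (cnt_comp hπ hi (fun τ => B.bl (B.ce τ)) (B.bl y)))
  rw [sum_add_distrib, sum_const, nsmul_eq_mul, ← sum_div, ← Nat.cast_sum] at b2
  rw [← sum_div, ← Nat.cast_sum] at b1
  have b3 : 8 * ((B.cells F).card * (4 * dB)) ≤ f := by
    have a1 := card_cells hS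
    have a2 : 1 ≤ Φ := Nat.pos_of_ne_zero fun e => by
      have := hπ τ₀ h0
      rw [e] at hΦ
      omega
    refine Nat.le_of_mul_le_mul_left (c := Φ) ?_ a2
    have := Nat.mul_le_mul_left (B.cells F).card ((Nat.mul_le_mul_right dB z2).trans c3)
    nlinarith
  have b4 : f ≤ Y.card := by
    have a1 : ∑ l ∈ B.cells F, (cnt X (fun τ => g (B.nd (π τ))) l - eB) ≤
        ∑ l ∈ B.cells F, (cnt Q (fun τ => g (B.nd (π τ))) l - eB) :=
      sum_le_sum fun l _ => Nat.sub_le_sub_right (cnt_mono x1 _ l) _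
    rw [sum_congr rfl fun p _ => congrArg (· - eS / Θ)
      ((lump_eq Q ce _ p.1 p.2).trans (lump_eq' Q ce _ p.1 p.2).symm)] at x3
    have a2 := (div_le_div_of_nonneg_right (g2.trans (mul_le_mul_of_nonneg_left
      (add_le_add s2 (s1 Q)) (by linarith))) (show (0 : ℝ) ≤ 16 * dB by linarith))
    rw [add_div, show (dB : ℝ) * (Q.card + Q.card) / (16 * dB) = Q.card / 8 by
      field_simp; ring] at a2
    rw [← Nat.cast_le (α := ℝ)] at a1 x3 y3 b3 hf ⊢
    push_cast at a1 x3 y3 b3 hf b1 b2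
    linarith
  obtain ⟨J, j1, j2⟩ := exists_subset_card_eq b4
  refine ⟨g, ok, J, j1.trans (y1.trans x1), j2, fun c c' => ?_,
    fun c => (cnt_mono j1 _ c).trans (y2 c)⟩
  refine le_trans (Nat.mul_le_mul_left _ ((lump_mono (j1.trans y1) _ _ c c').trans ?_))
    (Nat.mul_div_le eS Θ)
  rw [← lump_eq]
  exact x2 _

end Pool.Agent.MP_35cb46_co.Fl
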