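import Pool.Agent.MP_35cb46_co.fl.Var
import Pool.Agent.MP_35cb46_co.fl.Defs

/-! PROJECT FL: the colouring step (pure counting). -/

noncomputable section

namespace Pool.Agent.MP_35cb46_co.Fl.St

open Finset Pool.Agent.MP_7be75d_co Pool.Agent.MP_35cb46_co.Sq Pool.Agent.MP_35cb46_co.Nl
open Pool.Agent.MP_35cb46_co.Fl.VarL
open scoped Classical

/-- A numbering that is sorted by a label. -/
theorem rank {α : Type} (A : Finset α) (lab : α → ℕ) : ∃ pos : α → ℕ, Set.InjOn pos A ∧
    (∀ x ∈ A, pos x < A.card) ∧ ∀ x ∈ A, ∀ y ∈ A, lab x < lab y → pos x < pos y := by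
  let e : α → ℕ := fun x => if h : x ∈ A then (A.equivFin ⟨x, h⟩ : ℕ) else 0
  have he : ∀ x ∈ A, e x < A.card := fun x hx => by
    simp only [e, dif_pos hx]; exact (A.equivFin ⟨x, hx⟩).2
  have hi : ∀ x ∈ A, ∀ y ∈ A, e x = e y → x = y := fun x hx y hy h => by
    simp only [e, dif_pos hx, dif_pos hy] at h
    have := A.equivFin.injective (Fin.ext h)
    exact congrArg Subtype.val this
  let key : α → ℕ := fun x => lab x * A.card + e x
  have hk : ∀ x ∈ A, ∀ y ∈ A, lab x < lab y → key x < key y := fun x hx y _ h => by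
    have h1 := he x hx
    have h2 : (lab x + 1) * A.card ≤ lab y * A.card := Nat.mul_le_mul_right _ h
    simp only [key]
    nlinarith
  have hm : ∀ x ∈ A, ∀ y, key x < key y →
      (A.filter fun z => key z < key x).card < (A.filter fun z => key z < key y).card := by
    intro x hx y h
    refine card_lt_card ⟨fun z hz => ?_, fun hs => ?_⟩
    · rw [mem_filter] at hz ⊢
      exact ⟨hz.1, hz.2.trans h⟩
    · have := hs (mem_filter.mpr ⟨hx, h⟩)
      exact lt_irrefl _ (mem_filter.mp this).2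
  refine ⟨fun x => (A.filter fun z => key z < key x).card, fun x hx y hy h => ?_,
    fun x hx => ?_, fun x hx y hy h => hm x hx y (hk x hx y hy h)⟩
  · have hx' : x ∈ A := hx
    have hy' : y ∈ A := hy
    have hkk : key x = key y := by
      rcases lt_trichotomy (key x) (key y) with h1 | h1 | h1
      · exact absurd h (hm x hx' y h1).ne
      · exact h1
      · exact absurd h (hm y hy' x h1).ne'
    have hl : lab x = lab y := by
      rcases lt_trichotomy (lab x) (lab y) with h1 | h1 | h1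
      · exact absurd hkk (hk x hx' y hy' h1).ne
      · exact h1
      · exact absurd hkk (hk y hy' x hx' h1).ne'
    refine hi x hx' y hy' ?_
    simp only [key, hl] at hkk
    omega
  · refine card_lt_card ⟨filter_subset _ _, fun hs => ?_⟩
    exact lt_irrefl _ (mem_filter.mp (hs hx)).2

/-- Monochromatic slots of size at most `g`. -/
theorem slots {α : Type} (A : Finset α) (col : α → ℕ) (T n g : ℕ) (hg : 1 ≤ g)
    (hc : ∀ x ∈ A, col x < T) (hA : A.card ≤ n * g) : ∃ sl : α → ℕ,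
    (∀ x ∈ A, sl x < n + T) ∧ (∀ x ∈ A, ∀ y ∈ A, sl x = sl y → col x = col y) ∧
      ∀ w, cnt A sl w ≤ g := by
  obtain ⟨pos, hi, hl, hm⟩ := rank A col
  have mono : ∀ x ∈ A, ∀ y ∈ A, pos x / g + col x = pos y / g + col y → col x = col y := by
    intro x hx y hy h
    rcases lt_trichotomy (col x) (col y) with h1 | h1 | h1
    · have := Nat.div_le_div_right (c := g) (hm x hx y hy h1).le
      omega
    · exact h1
    · have := Nat.div_le_div_right (c := g) (hm y hy x hx h1).le
      omega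
  refine ⟨fun x => pos x / g + col x, fun x hx => ?_, mono, fun w => ?_⟩
  · have h1 : pos x / g < n := (Nat.div_lt_iff_lt_mul hg).mpr ((hl x hx).trans_le hA)
    have := hc x hx
    show pos x / g + col x < n + T
    omega
  · unfold cnt
    refine (card_le_card_of_injOn (t := range g) (fun x => pos x % g) ?_ ?_).trans (by simp)
    · intro x _
      simpa using Nat.mod_lt _ hg
    · intro x hx y hy h
      simp only [coe_filter, Set.mem_ofPred_eq] at hx hy
      have h1 := mono x hx.1 y hy.1 (hx.2.trans hy.2.symm)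
      have h2 : pos x / g = pos y / g := by have := hx.2; have := hy.2; omega
      refine hi hx.1 hy.1 ?_
      rw [← Nat.div_add_mod (pos x) g, ← Nat.div_add_mod (pos y) g, h2]
      exact congrArg _ h

/-- The arithmetic of the step. -/
theorem arith {κ : Type} (K : Finset κ) (x u q : κ → ℕ) (E T gam f : ℕ) (hE : 1 ≤ E) (hT : 1 ≤ T)
    (hg : 1 ≤ gam) (hq : ∑ k ∈ K, q k ≤ f) (hn : K.card * gam * E ^ 3 * T ≤ f)
    (hx : ∀ k ∈ K, x k ≤ q k / (E * T) + 1)
    (hv : ∑ k ∈ K, ((u k : ℝ) - q k / ((E + 1) * T)) ^ 2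
      ≤ ∑ k ∈ K, (gam : ℝ) * (q k / ((E + 1) * T))) :
    E ^ 2 * T * ∑ k ∈ K, (x k - u k) ≤ 3 * f := by
  rcases K.eq_empty_or_nonempty with rfl | hK
  · simp
  have hn0 : (1 : ℝ) ≤ K.card := by exact_mod_cast card_pos.mpr hK
  have hE' : (1 : ℝ) ≤ E := by exact_mod_cast hE
  have hT' : (1 : ℝ) ≤ T := by exact_mod_cast hT
  have hg' : (1 : ℝ) ≤ gam := by exact_mod_cast hg
  have hq' : ∑ k ∈ K, (q k : ℝ) ≤ f := by exact_mod_cast hq
  have hn' : (K.card : ℝ) * gam * E ^ 3 * T ≤ f := by exact_mod_cast hn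
  have hpos : (0 : ℝ) < K.card * gam * E ^ 3 * T := by positivity
  have hf : (0 : ℝ) < f := hpos.trans_le hn'
  set n : ℝ := (K.card : ℝ) with hnd
  set t : ℝ := f / (E ^ 2 * T * n) with ht
  have ht0 : 0 < t := by positivity
  have h1 : ∀ k ∈ K, ((x k - u k : ℕ) : ℝ) ≤ 1 / (E ^ 2 * T) * q k + 1
      + (1 / (2 * t) * ((u k : ℝ) - q k / ((E + 1) * T)) ^ 2 + t / 2) := by
    intro k hk
    have a1 := absdev ((u k : ℝ) - q k / ((E + 1) * T)) t ht0
    have a2 := neg_abs_le ((u k : ℝ) - q k / ((E + 1) * T))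
    have a3 : (x k : ℝ) ≤ q k / (E * T) + 1 := by
      have b1 : ((q k / (E * T) : ℕ) : ℝ) ≤ q k / ((E * T : ℕ) : ℝ) := Nat.cast_div_le
      have b2 : (x k : ℝ) ≤ ((q k / (E * T) : ℕ) : ℝ) + 1 := by exact_mod_cast hx k hk
      push_cast at b1
      linarith
    have a4 : (q k : ℝ) / (E * T) - q k / ((E + 1) * T) ≤ 1 / (E ^ 2 * T) * q k := by
      have : (q k : ℝ) / (E * T) - q k / ((E + 1) * T) = q k / (E * (E + 1) * T) := by
        field_simp; ring
      rw [this, one_div, inv_mul_eq_div]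
      refine div_le_div_of_nonneg_left (by positivity) (by positivity) ?_
      nlinarith
    have a5 : (0 : ℝ) ≤ 1 / (E ^ 2 * T) * q k := by positivity
    have a6 := abs_nonneg ((u k : ℝ) - q k / ((E + 1) * T))
    rcases le_total (x k) (u k) with h | h
    · rw [Nat.sub_eq_zero_of_le h]; push_cast; linarith
    · rw [Nat.cast_sub h]; linarith
  have h2 := sum_le_sum h1
  rw [sum_add_distrib, sum_add_distrib, sum_add_distrib, ← mul_sum, ← mul_sum] at h2
  simp only [sum_const, nsmul_eq_mul, mul_one] at h2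
  rw [← mul_sum, ← sum_div] at hv
  have h3 : 1 / (2 * t) * ∑ k ∈ K, ((u k : ℝ) - q k / ((E + 1) * T)) ^ 2
      ≤ 1 / (2 * t) * (gam * (f / (E * T))) := by
    refine mul_le_mul_of_nonneg_left (hv.trans ?_) (by positivity)
    refine mul_le_mul_of_nonneg_left ?_ (by positivity)
    refine div_le_div₀ hf.le hq' (by positivity) ?_
    nlinarith
  have h4 : (E : ℝ) ^ 2 * T * (1 / (2 * t) * (gam * (f / (E * T)))) = n * gam * E ^ 3 * T / 2 := by
    rw [ht]; field_simp
  have h5 : (E : ℝ) ^ 2 * T * (n * (t / 2)) = f / 2 := by rw [ht]; field_simp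
  have h6 : (E : ℝ) ^ 2 * T * (1 / (E ^ 2 * T) * ∑ k ∈ K, (q k : ℝ)) = ∑ k ∈ K, (q k : ℝ) := by
    field_simp
  have h7 : (E : ℝ) ^ 2 * T * n ≤ n * gam * E ^ 3 * T := by
    have : (1 : ℝ) ≤ gam * E := by nlinarith
    have h0 : (0 : ℝ) ≤ E ^ 2 * T * n := by positivity
    nlinarith
  have h8 : (0 : ℝ) ≤ E ^ 2 * T := by positivity
  have h9 := mul_le_mul_of_nonneg_left h2 h8
  have h10 := mul_le_mul_of_nonneg_left h3 h8
  have : (E : ℝ) ^ 2 * T * ∑ k ∈ K, ((x k - u k : ℕ) : ℝ) ≤ 3 * f := by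
    rw [mul_add, mul_add, mul_add, h5, h6] at h9
    linarith
  exact_mod_cast this

/-- STEP: every receiver inherits the colour of one chunk of its entries. -/
theorem stepc {α κ ρ : Type} (J : Finset α) (K : Finset κ) (sn : α → κ) (rc : α → ρ) (c : κ → ℕ)
    (E T gam f : ℕ) (hE : 1 ≤ E) (hT : 1 ≤ T) (hg : 1 ≤ gam)
    (hc : ∀ i ∈ J, sn i ∈ K ∧ c (sn i) < T) (hf : J.card ≤ f)
    (hn : K.card * gam * E ^ 3 * T ≤ f)
    (hl : ∀ k y, lump J sn rc k y ≤ gam ∨ cnt J rc y / (E * T) + 1 ≤ gam) :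
    ∃ P ⊆ J, ∃ c' : ρ → ℕ, (∀ y, c' y < T) ∧ (∀ i ∈ P, c (sn i) = c' (rc i)) ∧
      (∀ y, cnt P rc y ≤ cnt J rc y / (E * T) + 1) ∧
      ∀ x : κ → ℕ, (∀ k ∈ K, x k ≤ cnt J sn k / (E * T) + 1) →
        E ^ 2 * T * ∑ k ∈ K, (x k - cnt P sn k) ≤ 3 * f := by
  have hET : 0 < E * T := Nat.mul_pos hE hT
  have hs : ∀ y, ∃ sl : α → ℕ, (∀ i ∈ J.filter fun i => rc i = y, sl i < E * T + T) ∧
      (∀ i ∈ J.filter fun i => rc i = y, ∀ j ∈ J.filter fun i => rc i = y,
        sl i = sl j → c (sn i) = c (sn j)) ∧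
      ∀ w, cnt (J.filter fun i => rc i = y) sl w ≤ cnt J rc y / (E * T) + 1 := fun y =>
    slots _ (fun i => c (sn i)) T (E * T) _ (Nat.le_add_left _ _)
      (fun i hi => (hc i (mem_filter.mp hi).1).2) (Nat.lt_mul_div_succ _ hET).le
  choose sl h1 h2 h3 using hs
  have : Nonempty (Fin (E * T + T)) := ⟨⟨0, by omega⟩⟩
  let X : ρ → κ → Fin (E * T + T) → ℕ := fun y k w =>
    (J.filter fun i => sn i = k ∧ rc i = y ∧ sl y i = w).card
  have hX : ∀ y k w, X y k w ≤ gam := by
    intro y k w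
    rcases hl k y with h | h
    · refine (card_le_card fun i hi => ?_).trans h
      simp only [mem_filter] at hi ⊢
      exact ⟨hi.1, hi.2.1, hi.2.2.1⟩
    · refine (card_le_card fun i hi => ?_).trans ((h3 y w).trans h)
      simp only [mem_filter] at hi ⊢
      exact ⟨⟨hi.1, hi.2.2.1⟩, hi.2.2.2⟩
  obtain ⟨w, hw⟩ := var (W := fun _ : ρ => Fin (E * T + T)) K (fun _ => 1) (fun _ => (gam : ℝ))
    (fun y k v => (X y k v : ℝ)) (fun _ => zero_le_one) (fun _ _ _ => Nat.cast_nonneg _)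
    (fun y k v => by exact_mod_cast hX y k v) (J.image rc)
  let P := J.filter fun i => sl (rc i) i = w (rc i)
  have hP : ∀ i ∈ P, ∀ j ∈ P, rc i = rc j → c (sn i) = c (sn j) := by
    intro i hi j hj h
    rw [mem_filter] at hi hj
    refine h2 (rc j) i (mem_filter.mpr ⟨hi.1, h⟩) j (mem_filter.mpr ⟨hj.1, rfl⟩) ?_
    rw [hj.2, ← h, hi.2]
  have e1 : ∀ k, ∑ y ∈ J.image rc, X y k (w y) = cnt P sn k := by
    intro k
    unfold cnt
    rw [card_eq_sum_card_fiberwise (f := rc) (s := P.filter fun i => sn i = k)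
      (t := J.image rc) fun i hi => mem_image_of_mem _ (mem_filter.mp (mem_filter.mp hi).1).1]
    refine sum_congr rfl fun y _ => congrArg card ?_
    ext i
    simp only [P, mem_filter]
    constructor
    · rintro ⟨a, b, rfl, d⟩; exact ⟨⟨⟨a, d⟩, b⟩, rfl⟩
    · rintro ⟨⟨⟨a, d⟩, b⟩, rfl⟩; exact ⟨a, b, rfl, d⟩
  have e2 : ∀ k, ∑ y ∈ J.image rc, ∑ v, X y k v = cnt J sn k := by
    intro k
    unfold cnt
    rw [card_eq_sum_card_fiberwise (f := rc) (s := J.filter fun i => sn i = k)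
      (t := J.image rc) fun i hi => mem_image_of_mem _ (mem_filter.mp hi).1]
    refine sum_congr rfl fun y _ => ?_
    rw [card_eq_sum_card_fiberwise (f := sl y) (t := range (E * T + T))
      (s := (J.filter fun i => sn i = k).filter fun i => rc i = y) fun i hi => ?_]
    · rw [← Fin.sum_univ_eq_sum_range (fun v => (((J.filter fun i => sn i = k).filter
        fun i => rc i = y).filter fun i => sl y i = v).card)]
      refine sum_congr rfl fun v _ => congrArg card ?_
      ext i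
      simp only [mem_filter, and_assoc]
    · simp only [coe_filter, mem_filter, Set.mem_ofPred_eq] at hi
      simpa using h1 y i (mem_filter.mpr ⟨hi.1.1, hi.2⟩)
  refine ⟨P, filter_subset _ _,
    fun y => if h : ∃ i ∈ P, rc i = y then c (sn h.choose) else 0, fun y => ?_, fun i hi => ?_,
    fun y => ?_, fun x hx => ?_⟩
  · dsimp only
    split_ifs with h
    · exact (hc _ (mem_filter.mp h.choose_spec.1).1).2
    · exact hT
  · have h : ∃ j ∈ P, rc j = rc i := ⟨i, hi, rfl⟩
    dsimp only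
    rw [dif_pos h]
    exact hP i hi _ h.choose_spec.1 h.choose_spec.2.symm
  · refine (card_le_card fun i hi => ?_).trans (h3 y (w y))
    simp only [P, mem_filter] at hi ⊢
    obtain ⟨⟨a, b⟩, rfl⟩ := hi
    exact ⟨⟨a, rfl⟩, b⟩
  · refine arith K x (cnt P sn) (cnt J sn) E T gam f hE hT hg ?_ hn hx ?_
    · refine le_trans (le_of_eq ?_) hf
      exact (card_eq_sum_card_fiberwise (f := sn) fun i hi => (hc i hi).1).symm
    · have e3 : ∀ k, ∑ y ∈ J.image rc, (∑ v, (X y k v : ℝ)) / Fintype.card (Fin (E * T + T))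
          = cnt J sn k / ((E + 1) * T) := by
        intro k
        rw [← sum_div, ← e2 k, Fintype.card_fin]
        push_cast
        congr 1
        ring
      have e4 : ∀ k, ∑ y ∈ J.image rc, (X y k (w y) : ℝ) = cnt P sn k := fun k => by
        rw [← e1 k]; push_cast; rfl
      simpa only [one_mul, e3, e4] using hw

end Pool.Agent.MP_35cb46_co.Fl.St
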