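import Mathlib

/-! PROJECT FL: second moments for independent uniform choices. -/

noncomputable section

namespace Pool.Agent.MP_35cb46_co.Fl.VarL

open Finset
open scoped Classical

/-- One step: a choice that does not raise the weighted square sum by more than the variance. -/
theorem step {J W : Type} [Fintype W] [Nonempty W] (I : Finset J) (lam z s : J → ℝ)
    (X : J → W → ℝ) (hl : ∀ j, 0 ≤ lam j) (h0 : ∀ j w, 0 ≤ X j w) (h1 : ∀ j w, X j w ≤ s j) :
    ∃ w, ∑ j ∈ I, lam j * (z j + (X j w - (∑ v, X j v) / Fintype.card W)) ^ 2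
      ≤ ∑ j ∈ I, lam j * (z j ^ 2 + s j * ((∑ v, X j v) / Fintype.card W)) := by
  have hc : (0 : ℝ) < Fintype.card W := by exact_mod_cast Fintype.card_pos
  apply Classical.byContradiction
  intro hn
  push Not at hn
  have hlt := Finset.sum_lt_sum_of_nonempty (Finset.univ_nonempty (α := W)) (fun w _ => hn w)
  rw [Finset.sum_comm (s := Finset.univ) (t := I)
    (f := fun w j => lam j * (z j + (X j w - (∑ v, X j v) / Fintype.card W)) ^ 2)] at hlt
  rw [Finset.sum_comm (s := Finset.univ) (t := I)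
    (f := fun (_ : W) j => lam j * (z j ^ 2 + s j * ((∑ v, X j v) / Fintype.card W)))] at hlt
  refine absurd hlt (not_lt.mpr (Finset.sum_le_sum fun j _ => ?_))
  rw [← Finset.mul_sum, ← Finset.mul_sum]
  refine mul_le_mul_of_nonneg_left ?_ (hl j)
  set m := (∑ v, X j v) / (Fintype.card W : ℝ) with hm
  have hs : ∑ v, X j v = m * Fintype.card W := by rw [hm]; field_simp
  have e1 : ∀ w, (z j + (X j w - m)) ^ 2
      ≤ (z j - m) ^ 2 + (2 * (z j - m) + s j) * X j w := fun w => by
    nlinarith [mul_le_mul_of_nonneg_left (h1 j w) (h0 j w)]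
  refine (Finset.sum_le_sum fun w _ => e1 w).trans ?_
  rw [Finset.sum_add_distrib, ← Finset.mul_sum, hs]
  simp only [Finset.sum_const, Finset.card_univ, nsmul_eq_mul]
  nlinarith [mul_nonneg hc.le (sq_nonneg m)]

/-- VAR: independent uniform choices, all second moment bounds at once. -/
theorem var {K J : Type} {W : K → Type} [∀ k, Fintype (W k)]
    [∀ k, Nonempty (W k)] (I : Finset J) (lam s : J → ℝ) (X : ∀ k, J → W k → ℝ) (hl : ∀ j, 0 ≤ lam j)
    (h0 : ∀ k j w, 0 ≤ X k j w) (h1 : ∀ k j w, X k j w ≤ s j) (S : Finset K) :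
    ∃ w : ∀ k, W k,
      ∑ j ∈ I, lam j * (∑ k ∈ S, X k j (w k) - ∑ k ∈ S, (∑ v, X k j v) / Fintype.card (W k)) ^ 2
        ≤ ∑ j ∈ I, lam j * (s j * ∑ k ∈ S, (∑ v, X k j v) / Fintype.card (W k)) := by
  induction S using Finset.induction_on with
  | empty => exact ⟨fun k => Classical.arbitrary _, by simp⟩
  | insert a S ha ih =>
    obtain ⟨w, hw⟩ := ih
    obtain ⟨u, hu⟩ := step I lam
      (fun j => ∑ k ∈ S, X k j (w k) - ∑ k ∈ S, (∑ v, X k j v) / Fintype.card (W k)) s (X a) hl
      (h0 a) (h1 a)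
    refine ⟨Function.update w a u, ?_⟩
    have e : ∀ j, ∑ k ∈ S, X k j (Function.update w a u k) = ∑ k ∈ S, X k j (w k) := fun j =>
      Finset.sum_congr rfl fun k hk => by
        rw [Function.update_of_ne (ne_of_mem_of_not_mem hk ha)]
    simp only [Finset.sum_insert ha, Function.update_self, e]
    calc _ = ∑ j ∈ I, lam j * ((∑ k ∈ S, X k j (w k)
            - ∑ k ∈ S, (∑ v, X k j v) / Fintype.card (W k))
            + (X a j u - (∑ v, X a j v) / Fintype.card (W a))) ^ 2 :=
          Finset.sum_congr rfl fun j _ => by ring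
      _ ≤ _ := hu
      _ = ∑ j ∈ I, lam j * (∑ k ∈ S, X k j (w k)
            - ∑ k ∈ S, (∑ v, X k j v) / Fintype.card (W k)) ^ 2
          + ∑ j ∈ I, lam j * (s j * ((∑ v, X a j v) / Fintype.card (W a))) := by
          rw [← Finset.sum_add_distrib]; exact Finset.sum_congr rfl fun j _ => by ring
      _ ≤ ∑ j ∈ I, lam j * (s j * ∑ k ∈ S, (∑ v, X k j v) / Fintype.card (W k))
          + ∑ j ∈ I, lam j * (s j * ((∑ v, X a j v) / Fintype.card (W a))) := by linarith
      _ = _ := by
          rw [← Finset.sum_add_distrib]; exact Finset.sum_congr rfl fun j _ => by ring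

/-- Excess over a cap from the square: `(z - c)+ ≤ z^2 / (4c)`. -/
theorem excess (z c : ℝ) (hc : 0 < c) : max (z - c) 0 ≤ 1 / (4 * c) * z ^ 2 := by
  rw [one_div, inv_mul_eq_div]
  refine max_le ?_ (by positivity)
  rw [le_div_iff₀ (by positivity)]
  nlinarith [sq_nonneg (z - 2 * c)]

/-- Absolute deviation from the square: `|z| ≤ z^2 / (2t) + t/2`. -/
theorem absdev (z t : ℝ) (ht : 0 < t) : |z| ≤ 1 / (2 * t) * z ^ 2 + t / 2 := by
  have h : 1 / (2 * t) * z ^ 2 + t / 2 - |z| = (|z| - t) ^ 2 / (2 * t) := by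
    rw [← sq_abs z]; field_simp; ring
  have : 0 ≤ (|z| - t) ^ 2 / (2 * t) := by positivity
  linarith


end Pool.Agent.MP_35cb46_co.Fl.VarL
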