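import Pool.Agent.MP_35cb46_co.fl.ASpec
import Pool.Agent.MP_35cb46_co.fl.Base1

/-! PROJECT FL: two resting layers and the region between them. -/

noncomputable section

namespace Pool.Agent.MP_35cb46_co.Fl

open Finset Pool.Agent.MP_7be75d_co Pool.Agent.MP_35cb46_co.Sq Pool.Agent.MP_35cb46_co.Nl
open scoped Classical

namespace Wstep

variable {V α β κ : Type} {G : SimpleGraph V}

theorem mem_fib {F : ℕ} {f : ℕ → V} {l : ℕ → ℕ} {c : ℕ} {v : V} :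
    v ∈ fib F f l c ↔ ∃ τ < F, l τ = c ∧ f τ = v := by
  simp only [fib, mem_image, mem_filter, mem_range, and_assoc]

theorem card_img {I : Finset α} {f : α → V} (hf : Set.InjOn f I) (l : α → ℕ) (c : ℕ) :
    ((I.filter fun τ => l τ = c).image f).card = cnt I l c := by
  rw [card_image_of_injOn (hf.mono (coe_subset.2 (filter_subset _ _)))]
  exact congrArg card (by ext; simp)

theorem cnt_le {L : Finset α} {T : Finset β} {τ : α → β} (r : β → κ) (h : ∀ a ∈ L, τ a ∈ T)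
    (hi : Set.InjOn τ L) (c : κ) : cnt L (fun a => r (τ a)) c ≤ cnt T r c :=
  card_le_card_of_injOn τ (fun a ha => mem_coe.2 (mem_filter.2
    ⟨h a (mem_filter.1 (mem_coe.1 ha)).1, (mem_filter.1 (mem_coe.1 ha)).2⟩))
    (hi.mono (coe_subset.2 (filter_subset _ _)))

theorem cnt_mono {L L' : Finset α} (h : L ⊆ L') (r : α → κ) (c : κ) : cnt L r c ≤ cnt L' r c :=
  card_le_card (filter_subset_filter _ h)

theorem mem_cells {F : ℕ} (S : SD) {τ : ℕ} (h : τ < F) : S.ce τ ∈ S.cells F :=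
  mem_image_of_mem _ (mem_range.2 h)

theorem cells_mul {F e : ℕ} {S : SD} (h : ∀ c ∈ S.cells F, cnt (range F) S.ce c = e) :
    (S.cells F).card * e = F := by
  have h1 := card_eq_sum_card_fiberwise (s := range F) (t := S.cells F) (f := S.ce)
    fun τ hτ => mem_cells S (mem_range.1 hτ)
  rw [card_range] at h1
  rw [← smul_eq_mul, ← sum_const]
  refine Eq.trans (sum_congr rfl fun c hc => ?_) h1.symm
  rw [← h c hc]
  exact congrArg card (by ext; simp)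

/-- The layer of a stage at rest. -/
theorem rest {R : Finset V} {F e d θ : ℕ} {a b : ℕ → V} {S : SD} (h : Stg G R F a b S)
    (hS : Shape F S e d θ) (hF : 1 ≤ F) :
    ∃ A, Lay G R (S.cells F) A (fib F a S.ce) (fib F b S.ce) ∧ 1 ≤ e ∧
      ∀ c ∈ S.cells F, (fib F a S.ce c).card = e ∧ (fib F b S.ce c).card = e := by
  obtain ⟨A, hA⟩ := h.flex S.df fun τ hτ => ⟨mem_cells S hτ, rfl⟩
  refine ⟨A, hA, ?_, fun c hc => ⟨(card_img h.pass.inj_left _ _).trans (hS.ce c hc),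
    (card_img h.pass.inj_right _ _).trans (hS.ce c hc)⟩⟩
  have := cells_mul hS.ce
  rcases e with _ | e <;> omega

theorem fly_one {L : Finset α} {f : α → V} (hf : Set.InjOn f L) :
    Fly G ∅ L f f fun a => {f a} :=
  ⟨fun a _ => ⟨Conn.singleton _, mem_singleton_self _, mem_singleton_self _, by simp⟩,
    fun _ ha _ hb n => disjoint_singleton.2 fun e => n (hf ha hb e)⟩

theorem fly_mono {Fl : Finset V} {L L' : Finset α} {st ps : α → V} {P : α → Finset V}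
    (h : Fly G Fl L st ps P) (hL : L' ⊆ L) : Fly G Fl L' st ps P :=
  ⟨fun a ha => h.conn a (hL ha), fun a ha b hb => h.disj a (hL ha) b (hL hb)⟩

theorem fly_inj {Fl : Finset V} {L : Finset α} {st ps : α → V} {P : α → Finset V}
    (h : Fly G Fl L st ps P) : Set.InjOn ps L := fun a ha b hb e => by_contra fun n =>
  disjoint_left.1 (h.disj a ha b hb n) (h.conn a ha).2.2.1 (e ▸ (h.conn b hb).2.2.1)

/-- The strands of a system as a flight. -/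
theorem fly_sys {W : Finset V} {F : ℕ} {o i : ℕ → V} {Q : Finset ℕ} {π : ℕ → ℕ}
    (h : Sys G W F o i Q π) (ho : Set.InjOn o ↑(range F)) (hW : ∀ τ < F, o τ ∉ W) :
    ∃ ps P, Fly G W Q o ps P ∧ ∀ τ ∈ Q, G.Adj (ps τ) (i (π τ)) := by
  obtain ⟨P, hP, hT⟩ := h.str
  have h1 : ∀ τ, ∃ v, τ ∈ Q → v ∈ P τ ∧ G.Adj v (i (π τ)) := fun τ => by
    by_cases hτ : τ ∈ Q
    · obtain ⟨v, hv, w, hw, e⟩ := (hT τ hτ).2
      rw [mem_singleton.1 hw] at e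
      exact ⟨v, fun _ => ⟨hv, e⟩⟩
    · exact ⟨o τ, fun k => absurd k hτ⟩
  choose ps hps using h1
  refine ⟨ps, fun τ => insert (o τ) (P τ), ⟨fun τ hτ => ⟨?_, mem_insert_self _ _,
    mem_insert_of_mem (hps τ hτ).1, insert_subset_insert _ (hP.sub τ hτ)⟩, ?_⟩,
    fun τ hτ => (hps τ hτ).2⟩
  · obtain ⟨v, hv, w, hw, e⟩ := (hT τ hτ).1
    rw [mem_singleton.1 hv] at e
    exact (hP.conn τ hτ).insert hw e.symm
  · intro τ hτ τ' hτ' n
    have k := mem_range.1 (h.sub hτ)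
    have k' := mem_range.1 (h.sub hτ')
    rw [disjoint_insert_left, disjoint_insert_right, mem_insert, not_or]
    exact ⟨⟨fun e => n (ho (by simpa using k) (by simpa using k') e),
      fun m => hW τ k (hP.sub τ' hτ' m)⟩, fun m => hW τ' k' (hP.sub τ hτ m), hP.disj τ hτ τ' hτ' n⟩

/-- The number of cut wires. -/
def cutw (W : WD V κ) (S : Finset κ) : ℕ := cw W.mu (W.J ∩ S) (W.J \ S)

theorem cutw_eq (W : WD V (ℕ × ℕ)) (S : Finset (ℕ × ℕ)) :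
    cw W.mu (W.J ∩ S) (W.J \ S) = cutw W S := by
  unfold cutw
  congr 1 <;> ext <;> simp

variable {A Rt : Finset V} {K g u : ℕ}

theorem pt_sub {W : WD V κ} (h : Web G A Rt K g u W) {i : κ} (hi : i ∈ W.J) : W.Pt i ⊆ A :=
  (h.pt i hi).1.trans (h.fam.sub i hi)

theorem om_sub {W : WD V κ} (h : Web G A Rt K g u W) : W.Om ⊆ A := fun x hx =>
  pt_sub h (h.om x hx).1 (h.om x hx).2.1

/-- The cores of a layer are added. -/
theorem add_layer (hc : CoresStmt) (hu : WebuStmt) {W : WD V (ℕ × ℕ)} (h : Web G A Rt K g u W)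
    (hR : W.Ro ⊆ A) {R : Finset V} {J : Finset ℕ} {C I O : ℕ → Finset V} {e : ℕ} (t : ℕ)
    (hL : Lay G R J C I O) (hK : 4 ≤ K) (he : 1 ≤ e) (hg : 2 * e ≤ g)
    (hI : ∀ c ∈ J, (I c).card = e ∧ (O c).card = e) (hd : Disjoint A R)
    (ht : ∀ i ∈ W.J, i.1 ≠ t) :
    ∃ U : WD V (ℕ × ℕ), Web G (A ∪ R) Rt K g u U ∧
      (∀ i, i ∈ U.J ↔ i ∈ W.J ∨ ∃ c ∈ J, (t, c) = i) ∧ U.Om = W.Om ∧ U.Ro = W.Ro ∧
      (∀ i ∈ W.J, U.Pt i = W.Pt i) ∧ (∀ c ∈ J, U.Pt (t, c) = I c ∪ O c) ∧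
      (∀ S, cutw W S ≤ cutw U S) ∧ U.J.card ≤ W.J.card + J.card := by
  obtain ⟨W', w, j, om, ro, pt⟩ := hc V G R Rt J C I O K g u e t hL hK he hg hI
  obtain ⟨U, w', j', om', ro', p1, p2, ct⟩ := hu V (ℕ × ℕ) G A R Rt K g u W W' h w hd
    (disjoint_left.2 fun i hi hi' => by
      rw [j] at hi'
      obtain ⟨c, _, rfl⟩ := mem_image.1 hi'
      exact ht _ hi rfl) hR (by rw [ro]; exact empty_subset _)
  have hj : ∀ i, i ∈ U.J ↔ i ∈ W.J ∨ ∃ c ∈ J, (t, c) = i := fun i => by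
    rw [j', j]
    simp only [mem_union, mem_image]
  refine ⟨U, w', hj, by rw [om', om, union_empty], by rw [ro', ro, union_empty], p1,
    fun c hc => ?_, fun S => le_trans (Nat.le_add_right _ _) (ct S), ?_⟩
  · rw [p2 _ (by rw [j]; exact mem_image_of_mem _ hc), pt c hc]
  · have : U.J ⊆ W.J ∪ J.image fun c => (t, c) := fun i hi => by
      rw [mem_union, mem_image]
      exact (hj i).1 hi
    exact (card_le_card this).trans ((card_union_le _ _).trans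
      (Nat.add_le_add_left card_image_le _))

/-- Wires whose second strand is a single port. -/
theorem add_wire (hw : WireStmt) {W : WD V κ} (h : Web G A Rt K g u W) {Fl : Finset V}
    {L : Finset α} {st ps st' : α → V} {P : α → Finset V} (o o' : α → κ)
    (hf : Fly G Fl L st ps P) (hi : Set.InjOn st' L) (hd : Disjoint A Fl)
    (hn : ∀ a ∈ L, ∀ b ∈ L, o a ≠ o' b)
    (ha : ∀ a ∈ L, o a ∈ W.J ∧ o' a ∈ W.J ∧ st a ∈ W.Pt (o a) ∧ st' a ∈ W.Pt (o' a) ∧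
      st a ∉ W.Om ∪ W.Ro ∧ st' a ∉ W.Om ∪ W.Ro ∧ G.Adj (ps a) (st' a) ∧
      u ≤ lump L o o' (o a) (o' a)) :
    ∃ U : WD V κ, Web G (A ∪ Fl) Rt K g u U ∧ U.J = W.J ∧ U.Pt = W.Pt ∧ U.Ro = W.Ro ∧
      (∀ v ∈ U.Om, v ∈ W.Om ∨ ∃ a ∈ L, st a = v ∨ st' a = v) ∧
      ∀ (S : Finset κ) (T : Finset α), (∀ a ∈ T, a ∈ L ∧ ¬ (o a ∈ S ↔ o' a ∈ S)) →
        cutw W S + T.card ≤ cutw U S := by
  obtain ⟨U, w, j, pt, ro, om, ct⟩ := hw V α κ G A Fl ∅ Rt K g u W L st ps st' st' P _ o o' h hf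
    (fly_one hi) hd (disjoint_empty_right _) (disjoint_empty_right _) hn ha
  rw [union_empty] at w
  refine ⟨U, w, j, pt, ro, fun v hv => ?_, fun S T hT => le_trans (Nat.add_le_add_left
    (card_le_card fun a ha => mem_filter.2 (hT a ha)) _) (ct S)⟩
  rw [om, mem_union, mem_union, mem_image, mem_image] at hv
  rcases hv with (hv | ⟨a, h1, h2⟩) | ⟨a, h1, h2⟩
  · exact Or.inl hv
  · exact Or.inr ⟨a, h1, Or.inl h2⟩
  · exact Or.inr ⟨a, h1, Or.inr h2⟩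

theorem lump_tag (L : Finset α) (c c' : α → ℕ) (t t' : ℕ) (a : α) :
    lump L (fun b => (t, c b)) (fun b => (t', c' b)) (t, c a) (t', c' a) =
      lump L c c' (c a) (c' a) := congrArg card (by ext; simp)

theorem cert_of {p : PC V} {Z R H : Finset V} {F e : ℕ} {a b : ℕ → V} {S : SD}
    {C : ℕ → Finset V} (hL : Lay G R (S.cells F) C (fib F a S.ce) (fib F b S.ce))
    (hI : ∀ c ∈ S.cells F, (fib F a S.ce c).card = e ∧ (fib F b S.ce c).card = e)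
    (h1 : R ⊆ p.RC) (h2 : R ⊆ Z) (h3 : H ⊆ Z) (h4 : Disjoint R H)
    (h5 : p.Dk H ((range F).image a)) (h6 : (S.cells F).card ≤ p.n) :
    Cert G p Z (S.cells F) (fib F b S.ce) :=
  Or.inr ⟨R, C, _, H, _, hL, h1, h2, h3, h4, h5, h6, fun c hc =>
    ⟨image_subset_image (filter_subset _ _), ((hI c hc).2.trans (hI c hc).1.symm).le⟩⟩

/-- The numbers needed for the counting step. -/
theorem numbers {p : PC V} {x : CX V} {Φ Θ Z δ n eS : ℕ} (hB : Bud p x Φ Θ Z δ)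
    (hn : n * eS = x.F) (hZ : Z ≤ eS) :
    1 ≤ Θ ∧ n * x.E ^ 2 * x.T ≤ x.f ∧ n * (eS / Θ) * x.E ^ 3 * x.T ≤ x.f := by
  have hE := hB.e2
  have hT := hB.t1
  have hΦ : 0 < Φ := Nat.pos_of_ne_zero fun e => by
    have := hB.phi; have := hB.ff; have := hB.f1
    simp only [e, zero_mul] at *
    omega
  have hE0 : 0 < x.E := by omega
  refine ⟨le_trans (Nat.succ_le_of_lt (by positivity)) hB.th, ?_, ?_⟩
  · refine Nat.le_of_mul_le_mul_left ?_ hΦ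
    calc Φ * (n * x.E ^ 2 * x.T) = n * (1 * (Φ * x.E ^ 2 * x.T)) := by ring
      _ ≤ n * (8 * Φ * x.E ^ 2 * (Φ * x.E ^ 2 * x.T)) := Nat.mul_le_mul_left _
          (Nat.mul_le_mul_right _ (Nat.succ_le_of_lt (by positivity)))
      _ = n * (8 * Φ ^ 2 * x.E ^ 4 * x.T) := by ring
      _ ≤ n * eS := Nat.mul_le_mul_left _ (hB.z1.trans hZ)
      _ ≤ Φ * x.f := hn ▸ hB.phi
  · refine Nat.le_of_mul_le_mul_left ?_ hΦ
    calc Φ * (n * (eS / Θ) * x.E ^ 3 * x.T) = n * (eS / Θ * (Φ * x.E ^ 3 * x.T)) := by ring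
      _ ≤ n * (eS / Θ * Θ) := Nat.mul_le_mul_left _ (Nat.mul_le_mul_left _ hB.th)
      _ ≤ n * eS := Nat.mul_le_mul_left _ (Nat.div_mul_le_self _ _)
      _ ≤ Φ * x.f := hn ▸ hB.phi

/-- The lanes are sent to chosen tracks. -/
theorem send (hs : StepStmt) {p : PC V} {x : CX V} {s : ST V} {cs q : ℕ → ℕ}
    {l Φ Θ Z δ eS : ℕ} {sx : ℕ → V} {S : SD} {Jt : Finset ℕ} (ry : ℕ → ℕ)
    (hR : Rdy G p x s (S.cells x.F) (fib x.F sx S.ce) cs q l) (hB : Bud p x Φ Θ Z δ)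
    (hi : Set.InjOn sx ↑(range x.F)) (he : ∀ c ∈ S.cells x.F, cnt (range x.F) S.ce c = eS)
    (hZ : Z ≤ eS) (hq : x.E * ∑ c ∈ S.cells x.F, (q c - cnt Jt S.ce c) ≤ 4 * x.f)
    (hJ : Jt ⊆ range x.F) (hf : Jt.card = x.f)
    (hl : ∀ c c', Θ * lump Jt S.ce ry c c' ≤ eS) :
    ∃ Lv st ps oc P, ∃ (τ : ℕ × ℕ × ℕ → ℕ) (cy : ℕ → ℕ), Flight G x s Lv st ps oc P ∧
      Set.InjOn τ Lv ∧ (∀ y, cy y < x.T) ∧
      (∀ a ∈ Lv, τ a ∈ Jt ∧ sx (τ a) = ps a ∧ cy (ry (τ a)) = a.2.1) ∧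
      (∀ c, cnt Lv (fun a => ry (τ a)) c ≤ cd (cnt Jt ry c) (x.E * x.T)) ∧
      x.lanes.card ≤ Lv.card + l + δ := by
  obtain ⟨n1, n2, n3⟩ := numbers hB (cells_mul he) hZ
  have hE := hB.e2
  have hT := hB.t1
  obtain ⟨Ch, hC, cy, c1, c2, c3, c4⟩ := hs ℕ Jt S.ce ry (S.cells x.F) cs q x.E x.T x.f (eS / Θ)
    (by omega) hT hR.col hf.le (fun a ha => mem_cells S (mem_range.1 (hJ ha)))
    (fun k y => (min_le_left _ _).trans ((Nat.le_div_iff_mul_le n1).2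
      (by rw [mul_comm]; exact hl k y))) n2 n3 hq
  have hCF : Ch ⊆ range x.F := hC.trans hJ
  obtain ⟨Lv, st, ps, oc, P, sk, f1, f2, f3⟩ :=
    hR.go (fun k => (Ch.filter fun τ => S.ce τ = k).image sx) fun k _ =>
      image_subset_image (filter_subset_filter _ hCF)
  have h1 : ∀ a, ∃ τ, a ∈ Lv → τ ∈ Ch ∧ S.ce τ = sk a ∧ sx τ = ps a := fun a => by
    by_cases ha : a ∈ Lv
    · obtain ⟨τ, h1, h2⟩ := mem_image.1 (f2 a ha).2.1
      exact ⟨τ, fun _ => ⟨(mem_filter.1 h1).1, (mem_filter.1 h1).2, h2⟩⟩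
    · exact ⟨0, fun k => absurd k ha⟩
  choose τ hτ using h1
  have hinj : Set.InjOn τ Lv := fun a ha b hb e =>
    fly_inj f1.fly ha hb (by rw [← (hτ a ha).2.2, ← (hτ b hb).2.2, e])
  refine ⟨Lv, st, ps, oc, P, τ, cy, f1, hinj, c1, fun a ha => ⟨hC (hτ a ha).1, (hτ a ha).2.2,
    by rw [c2 _ (hτ a ha).1, (hτ a ha).2.1, (f2 a ha).2.2]⟩, fun c => le_trans ?_ (c3 c),
    f3.trans (Nat.add_le_add_left ?_ _)⟩
  · exact cnt_le ry (fun a ha => (hτ a ha).1) hinj c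
  · simp only [card_img (hi.mono (coe_subset.2 hCF))]
    exact Nat.le_of_mul_le_mul_left (c4.trans hB.dl) (by positivity)

end Wstep

open Wstep

theorem wstep (hs : StepStmt) (hk : KillStmt) (hc : CoresStmt) (hu : WebuStmt) (hw : WireStmt) :
    WstepStmt := by
  intro V G p x s cs q l Φ Θ Z δ eS e₁ d₁ θ₁ e₂ d₂ θ₂ R₁ RW R₂ H₁ H₂ sx a₁ b₁ a₂ b₂ y S S₁ S₂ Q Jt
    JB π lab hR hB hp isx he hZ hq g₁ sh₁ g₂ sh₂ adj iy sys fat jq jf thin r₁ r₂ hH₁ hH₂ dk₁ dk₂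
    dP d1W d12 dW2 n₁ n₂ k₁ k₂
  have org := hR.org
  obtain ⟨Lv, st, ps, oc, P, τ, cy, fl, iτ, cyT, hτ, hcnt, hlan⟩ := send hs (fun τ => lab (π τ))
    hR hB isx he hZ hq (jq.trans sys.sub) jf thin
  have hF : 1 ≤ x.F := hB.f1.trans hB.ff
  obtain ⟨A₁, L₁, p₁, c₁⟩ := rest g₁ sh₁ hF
  obtain ⟨A₂, L₂, p₂, c₂⟩ := rest g₂ sh₂ hF
  have τQ : ∀ a ∈ Lv, τ a ∈ Q := fun a ha => jq (hτ a ha).1
  have QF : ∀ t ∈ Q, t < x.F := fun t ht => mem_range.1 (sys.sub ht)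
  have rg : ∀ {t}, t < x.F → t ∈ range x.F := fun h => mem_range.2 h
  have ia : Set.InjOn (fun a => a₁ (τ a)) Lv := fun a ha b hb e =>
    iτ ha hb (g₁.pass.inj_left (rg (QF _ (τQ a ha))) (rg (QF _ (τQ b hb))) e)
  have iπ : ∀ {w : ℕ → V}, Set.InjOn w ↑(range x.F) → Set.InjOn (fun t => w (π t)) Q :=
    fun h a ha b hb e => sys.inj ha hb (h (rg (sys.lt a ha)) (rg (sys.lt b hb)) e)
  have iπτ : ∀ {w : ℕ → V}, Set.InjOn w ↑(range x.F) → Set.InjOn (fun a => w (π (τ a))) Lv :=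
    fun h a ha b hb e => iτ ha hb (iπ h (τQ a ha) (τQ b hb) e)
  have ma₁ : ∀ t < x.F, a₁ t ∈ R₁ := fun t ht => g₁.pass.mem_left (rg ht)
  have mb₁ : ∀ t < x.F, b₁ t ∈ R₁ := fun t ht => g₁.pass.mem_right (rg ht)
  have ma₂ : ∀ t < x.F, a₂ t ∈ R₂ := fun t ht => g₂.pass.mem_left (rg ht)
  have mb₂ : ∀ t < x.F, b₂ t ∈ R₂ := fun t ht => g₂.pass.mem_right (rg ht)
  simp only [disjoint_union_left, disjoint_union_right] at dP
  obtain ⟨⟨⟨dP1, dF1⟩, dPW, dFW⟩, dP2, dF2⟩ := dP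
  have dPF := org.disj
  -- the fat lanes
  obtain ⟨L, hL, lc, lf⟩ := hk V (ℕ × ℕ × ℕ) G p s.Past (R₁ ∪ RW) s.Fl ∅ s.Jo (S₁.cells x.F) s.Oo
    (fib x.F a₁ S₁.ce) Lv st ps _ _ P _ oc (fun a => S₁.ce (τ a)) hp org.cert
    (cert_of L₁.symm (fun c h => (c₁ c h).symm) r₁ subset_union_left
      (hH₁.trans subset_union_right) (d1W.mono_right hH₁) dk₁ n₁)
    fl.fly (fly_one ia) org.sub (empty_subset _) (disjoint_union_right.2 ⟨dP1, dPW⟩)
    (by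
      rw [union_empty, disjoint_union_left, disjoint_union_left]
      exact ⟨dPF, dF1.symm, dFW.symm⟩) (disjoint_empty_right _)
    fun a ha => ⟨(fl.org a ha).1, (fl.org a ha).2, mem_cells _ (QF _ (τQ a ha)),
      mem_fib.2 ⟨_, QF _ (τQ a ha), rfl, rfl⟩, (hτ a ha).2.1 ▸ (adj _ (QF _ (τQ a ha))).1⟩
  -- the new cores
  obtain ⟨U₁, w₁, j₁, om₁, ro₁, po₁, pn₁, ct₁, cd₁⟩ := add_layer hc hu org.web org.ro (s.l + 2) L₁
    hB.k4 p₁ k₁ c₁ dP1 fun i hi => by have := (org.tag i hi).1; omega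
  obtain ⟨U₂, w₂, j₂, om₂, ro₂, po₂, pn₂, ct₂, cd₂⟩ := add_layer hc hu w₁
    (ro₁ ▸ org.ro.trans subset_union_left) (s.l + 4) L₂ hB.k4 p₂ k₂ c₂
    (disjoint_union_left.2 ⟨dP2, d12⟩) fun i hi => by
      rcases (j₁ i).1 hi with h | ⟨c, _, rfl⟩
      · have := (org.tag i h).1; omega
      · simp
  have jo : ∀ i ∈ s.W.J, i ∈ U₂.J ∧ U₂.Pt i = s.W.Pt i := fun i hi =>
    ⟨(j₂ i).2 (Or.inl ((j₁ i).2 (Or.inl hi))),
      (po₂ i ((j₁ i).2 (Or.inl hi))).trans (po₁ i hi)⟩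
  have j1 : ∀ t < x.F, (s.l + 2, S₁.ce t) ∈ U₂.J ∧ a₁ t ∈ U₂.Pt (s.l + 2, S₁.ce t) ∧
      b₁ t ∈ U₂.Pt (s.l + 2, S₁.ce t) := fun t ht => by
    have h := (j₁ _).2 (Or.inr ⟨_, mem_cells S₁ ht, rfl⟩)
    rw [po₂ _ h, pn₁ _ (mem_cells S₁ ht)]
    exact ⟨(j₂ _).2 (Or.inl h), mem_union_left _ (mem_fib.2 ⟨t, ht, rfl, rfl⟩),
      mem_union_right _ (mem_fib.2 ⟨t, ht, rfl, rfl⟩)⟩
  have old : ∀ v ∈ U₂.Om ∪ U₂.Ro, v ∈ s.W.Om ∪ s.W.Ro := fun v hv => by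
    rwa [om₂, ro₂, om₁, ro₁] at hv
  have past : ∀ v ∈ s.W.Om ∪ s.W.Ro, v ∈ s.Past := fun v hv =>
    (mem_union.1 hv).elim (fun h => om_sub org.web h) fun h => org.ro h
  have stP : ∀ a ∈ Lv, st a ∈ s.Past := fun a ha =>
    pt_sub org.web (org.port _ (fl.org a ha).1).1 ((org.port _ (fl.org a ha).1).2.1 (fl.org a ha).2)
  -- the wires of the lanes
  obtain ⟨U₃, w₃, j₃, pt₃, ro₃, om₃, ct₃⟩ := add_wire hw w₂ (fun a => (s.l, oc a))
    (fun a => (s.l + 2, S₁.ce (τ a))) (fly_mono fl.fly hL) (ia.mono (coe_subset.2 hL))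
    (disjoint_union_left.2 ⟨disjoint_union_left.2 ⟨dPF, dF1.symm⟩, dF2.symm⟩)
    (fun a _ b _ => by simp) fun a ha => by
      have o := fl.org a (hL ha)
      have o' := org.port _ o.1
      have t := QF _ (τQ a (hL ha))
      exact ⟨(jo _ o'.1).1, (j1 _ t).1, (jo _ o'.1).2 ▸ o'.2.1 o.2, (j1 _ t).2.1,
        fun h => disjoint_left.1 o'.2.2 o.2 (old _ h),
        fun h => disjoint_left.1 dP1 (past _ (old _ h)) (ma₁ _ t),
        (hτ a (hL ha)).2.1 ▸ (adj _ t).1, (lf a ha).trans_eq (lump_tag _ _ _ _ _ _).symm⟩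
  have old₃ : ∀ v ∈ U₃.Om ∪ U₃.Ro, v ∈ s.Past ∨ ∃ t < x.F, a₁ t = v := fun v hv => by
    rcases mem_union.1 hv with h | h
    · rcases om₃ v h with h | ⟨a, ha, rfl | rfl⟩
      · exact Or.inl (past _ (old _ (mem_union_left _ h)))
      · exact Or.inl (stP a (hL ha))
      · exact Or.inr ⟨_, QF _ (τQ a (hL ha)), rfl⟩
    · exact Or.inl (past _ (old _ (mem_union_right _ (ro₃ ▸ h))))
  -- the wires of the system
  obtain ⟨qs, PQ, fq, aq⟩ := fly_sys sys g₁.pass.inj_right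
    fun t ht => disjoint_left.1 d1W (mb₁ t ht)
  obtain ⟨U₄, w₄, j₄, pt₄, ro₄, om₄, ct₄⟩ := add_wire hw w₃ (fun t => (s.l + 2, S₁.ce t))
    (fun t => (s.l + 4, S₂.ce (π t))) fq (iπ g₂.pass.inj_left)
    (disjoint_union_left.2 ⟨disjoint_union_left.2 ⟨disjoint_union_left.2 ⟨dPW, d1W⟩, dW2.symm⟩,
      dFW⟩) (fun a _ b _ => by simp) fun t ht => by
      have k := QF t ht
      have k' := sys.lt t ht
      rw [j₃, pt₃]
      refine ⟨(j1 _ k).1, (j₂ _).2 (Or.inr ⟨_, mem_cells S₂ k', rfl⟩), (j1 _ k).2.2, ?_,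
        fun h => ?_, fun h => ?_, aq t ht, (fat t ht).trans_eq (lump_tag _ _ _ _ _ _).symm⟩
      · rw [pn₂ _ (mem_cells S₂ k')]
        exact mem_union_left _ (mem_fib.2 ⟨_, k', rfl, rfl⟩)
      · rcases old₃ _ h with h | ⟨t', h1, h2⟩
        · exact disjoint_left.1 dP1 h (mb₁ t k)
        · exact g₁.ne _ h1 _ k h2
      · rcases old₃ _ h with h | ⟨t', h1, h2⟩
        · exact disjoint_left.1 dP2 h (ma₂ _ k')
        · exact disjoint_left.1 d12 (h2 ▸ ma₁ _ h1) (ma₂ _ k')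
  have amb : s.Past ∪ R₁ ∪ R₂ ∪ s.Fl ∪ RW = s.Past ∪ s.Fl ∪ (R₁ ∪ RW ∪ R₂) := by ac_rfl
  rw [amb] at w₄
  have J₄ : U₄.J = U₂.J := j₄.trans j₃
  have Pt₄ : U₄.Pt = U₂.Pt := pt₄.trans pt₃
  have Ro₄ : U₄.Ro = s.W.Ro := ro₄.trans (ro₃.trans (ro₂.trans ro₁))
  have lt' : ∀ a ∈ L, π (τ a) < x.F := fun a ha => sys.lt _ (τQ a (hL ha))
  have par := org.par
  refine ⟨⟨U₄, s.l + 4, S₂.cells x.F, fib x.F b₂ S₂.ce, s.Past ∪ s.Fl ∪ (R₁ ∪ RW ∪ R₂), ∅⟩, cy,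
    ⟨⟨w₄, cert_of L₂ c₂ r₂ (subset_union_right.trans subset_union_right)
      (hH₂.trans (subset_union_right.trans (subset_union_left.trans subset_union_right)))
      (dW2.symm.mono_right hH₂) dk₂ n₂, fun c hc => ?_, disjoint_empty_right _, empty_subset _,
      fun i hi => ?_, ?_, fun i hi => ?_, ?_⟩, cyT,
      L, fun a => b₂ (π (τ a)), fun a => b₂ (π (τ a)), fun a => S₂.ce (π (τ a)), _,
      fun a => y (π (τ a)), fun a => lab (π (τ a)),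
      ⟨hL.trans fl.sub, fly_one ((iπτ g₂.pass.inj_right).mono (coe_subset.2 hL)),
        fun a ha => ⟨mem_cells S₂ (lt' a ha), mem_fib.2 ⟨_, lt' a ha, rfl, rfl⟩⟩, fun T => ?_⟩,
      (iπτ iy).mono (coe_subset.2 hL), fun a ha => ⟨(adj _ (lt' a ha)).2.2,
        mem_fib.2 ⟨_, lt' a ha, rfl, rfl⟩, (adj _ (lt' a ha)).2.1, (hτ a (hL ha)).2.2⟩,
      fun c => le_trans (cnt_mono hL _ c) (hcnt c), ?_⟩, rfl, rfl, ?_⟩
  · dsimp only at hc ⊢
    rw [J₄, Pt₄, pn₂ c hc]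
    refine ⟨(j₂ _).2 (Or.inr ⟨c, hc, rfl⟩), subset_union_right, disjoint_left.2 fun v hv h => ?_⟩
    obtain ⟨t, ht, -, rfl⟩ := mem_fib.1 hv
    have k : b₂ t ∉ U₃.Om ∪ U₃.Ro := fun h => by
      rcases old₃ _ h with h | ⟨t', h1, h2⟩
      · exact disjoint_left.1 dP2 h (mb₂ t ht)
      · exact disjoint_left.1 d12 (h2 ▸ ma₁ _ h1) (mb₂ t ht)
    rcases mem_union.1 h with h | h
    · rcases om₄ _ h with h | ⟨t', h1, h2 | h2⟩
      · exact k (mem_union_left _ h)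
      · exact disjoint_left.1 d12 (h2 ▸ mb₁ _ (QF _ h1)) (mb₂ t ht)
      · exact g₂.ne _ (sys.lt _ h1) _ ht h2
    · exact k (mem_union_right _ (ro₄ ▸ h))
  · dsimp only at hi ⊢
    rw [J₄] at hi
    rcases (j₂ i).1 hi with h | ⟨c, _, rfl⟩
    · rcases (j₁ i).1 h with h | ⟨c, _, rfl⟩
      · have := org.tag i h
        omega
      · dsimp only
        omega
    · dsimp only
      omega
  · dsimp only
    omega
  · dsimp only
    have h := org.host i hi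
    rw [J₄, Pt₄, Ro₄, (jo _ h.1).2]
    exact ⟨(jo _ h.1).1, h.2⟩
  · dsimp only
    rw [Ro₄]
    exact org.ro.trans (subset_union_left.trans subset_union_left)
  · dsimp only
    have h0 := fl.cut T
    rw [cutw_eq] at h0 ⊢
    have h1 := ct₁ T
    have h2 := ct₂ T
    have h3 := ct₃ T (L.filter fun a => ¬ ((s.l, oc a) ∈ T ↔ (s.l + 2, S₁.ce (τ a)) ∈ T))
      fun a ha => mem_filter.1 ha
    obtain ⟨X, hX⟩ : ∃ X : Finset (ℕ × ℕ × ℕ), ∀ a, a ∈ X ↔ a ∈ L ∧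
        ¬ ((s.l + 2, S₁.ce (τ a)) ∈ T ↔ (s.l + 4, S₂.ce (π (τ a))) ∈ T) :=
      ⟨L.filter _, fun a => mem_filter⟩
    have h4 := ct₄ T (X.image τ) fun t ht => by
      obtain ⟨a, ha, rfl⟩ := mem_image.1 ht
      exact ⟨τQ a (hL ((hX a).1 ha).1), ((hX a).1 ha).2⟩
    rw [card_image_of_injOn (iτ.mono fun a ha => hL ((hX a).1 ha).1)] at h4
    refine le_trans (card_le_card (t := (Lv.filter fun a => ¬ ((x.b, a.1) ∈ T ↔ (s.l, oc a) ∈ T)) ∪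
      (L.filter fun a => ¬ ((s.l, oc a) ∈ T ↔ (s.l + 2, S₁.ce (τ a)) ∈ T)) ∪ X) fun a ha => ?_)
      ((card_union_le _ _).trans ((Nat.add_le_add_right (card_union_le _ _) _).trans (by omega)))
    obtain ⟨h5, h6⟩ := mem_filter.1 ha
    have h7 := hL h5
    simp only [hX, mem_union, mem_filter]
    tauto
  · have := hB.pz
    omega
  · dsimp only
    rw [J₄]
    omega

end Pool.Agent.MP_35cb46_co.Fl
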